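import Pool.Agent.Lib.MP_607584_al.PSV.Tree

/-! Edge transitivity and the rank gap. -/

namespace Pool.Agent.PSV

open Subgroup
open scoped Pointwise commutatorElement

variable {V : Type} {T : SimpleGraph V} {H : Subgroup (T ≃g T)} {b d : ℕ} {c : T ≃g T}
  {x y w : V}

theorem bas1_dist (h : T.Adj x y) : T.dist x y = 1 := SimpleGraph.dist_eq_one_iff_adj.2 h

theorem bas1_nz {Γ : Type*} [Group Γ] {A N : Subgroup Γ}
    (h : ∀ g ∈ A, ∀ m ∈ N, g * m * g⁻¹ ∈ N) : A ≤ normalizer (N : Set Γ) := by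
  intro g hg
  rw [mem_normalizer_iff]
  refine fun m => ⟨h g hg m, fun hm => ?_⟩
  have := h g⁻¹ (A.inv_mem hg) _ hm
  simpa [mul_assoc] using this

theorem bas1_conj {Γ : Type*} [Group Γ] {N : Subgroup Γ} {g m : Γ}
    (hg : g ∈ normalizer (N : Set Γ)) (hm : m ∈ N) : g * m * g⁻¹ ∈ N :=
  (mem_normalizer_iff.1 hg m).1 hm

theorem bas1_conj' {Γ : Type*} [Group Γ] {N : Subgroup Γ} {g m : Γ}
    (hg : g ∈ normalizer (N : Set Γ)) (hm : m ∈ N) : g⁻¹ * m * g ∈ N := by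
  simpa using bas1_conj ((normalizer (N : Set Γ)).inv_mem hg) hm

theorem bas1_mem_CM {Γ : Type*} [Group Γ] {A N : Subgroup Γ} {K : Set Γ} {g : Γ} :
    g ∈ CM A N K ↔ g ∈ A ∧ g ∈ normalizer (N : Set Γ) ∧ ∀ c ∈ K, ⁅g, c⁆ ∈ N := Iff.rfl

theorem bas1_step (hT : T.IsTree) (hxy : T.Adj x y) {R : Subgroup (T ≃g T)}
    (h1 : R ≤ Gb H x 0) (h3 : LTr R x) {a : T ≃g T} (ha : a ∈ Gb H x 0) {r : ℕ}
    (h : ∀ g ∈ R, g⁻¹ * a * g ∈ Gb H y r) : a ∈ Gb H x (r + 1) := by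
  rw [mem_Gb_succ hT]
  refine ⟨ha, fun y' hy' => ?_⟩
  obtain ⟨g, hg, rfl⟩ := h3 y y' hxy hy'
  rw [← cj_Gb (h1 hg).1, mem_cj]
  exact h g hg

/-- a subgroup of an edge stabiliser normalised by transitive groups at both ends is trivial -/
theorem Hyp.et (hH : Hyp T d H b) (hxy : T.Adj x y) {X R R' : Subgroup (T ≃g T)}
    (hX : X ≤ Gb H x 0 ⊓ Gb H y 0) (h1 : R ≤ Gb H x 0) (h2 : R' ≤ Gb H y 0) (h3 : LTr R x)
    (h4 : LTr R' y) (h5 : R ≤ normalizer (X : Set (T ≃g T)))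
    (h6 : R' ≤ normalizer (X : Set (T ≃g T))) : X = ⊥ := by
  have key : ∀ r, X ≤ Gb H x r ⊓ Gb H y r := by
    intro r
    induction r with
    | zero => exact hX
    | succ r ih =>
      intro a ha
      exact ⟨bas1_step hH.tree hxy h1 h3 (hX ha).1 fun g hg => (ih (bas1_conj' (h5 hg) ha)).2,
        bas1_step hH.tree hxy.symm h2 h4 (hX ha).2 fun g hg => (ih (bas1_conj' (h6 hg) ha)).1⟩
  rw [eq_bot_iff, ← hH.btop x]
  exact (key (b + 1)).trans inf_le_left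

theorem bas1_eta_step (hT : T.IsTree) (hxy : T.Adj x y) {a : T ≃g T} {R : Subgroup (T ≃g T)}
    {n r : ℕ} (hr : r + 1 ≤ n) (ha : a ∈ Gb H x 0) (ha' : a ∈ Gb H y r) (h1 : R ≤ Gb H x 0)
    (h3 : LTr R x) (h5 : ∀ g ∈ R, ⁅g, a⁆ ∈ Gb H x n) : a ∈ Gb H x (r + 1) := by
  refine bas1_step hT hxy h1 h3 ha fun g hg => ?_
  have e : g⁻¹ * a * g = ⁅g⁻¹, a⁆ * a := by
    simp only [commutatorElement_def]; group
  rw [e]
  refine mul_mem (Gb_anti hT ?_ (h5 _ (R.inv_mem hg))) ha'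
  rw [bas1_dist hxy]; omega

/-- approximate version for one element -/
theorem Hyp.eta (hH : Hyp T d H b) (hxy : T.Adj x y) {a : T ≃g T} {R R' : Subgroup (T ≃g T)}
    {n : ℕ} (ha : a ∈ Gb H x 0 ⊓ Gb H y 0) (h1 : R ≤ Gb H x 0) (h2 : R' ≤ Gb H y 0)
    (h3 : LTr R x) (h4 : LTr R' y) (h5 : ∀ g ∈ R, ⁅g, a⁆ ∈ Gb H x n)
    (h6 : ∀ g ∈ R', ⁅g, a⁆ ∈ Gb H y n) : a ∈ Gb H x n := by
  have key : ∀ r, r ≤ n → a ∈ Gb H x r ∧ a ∈ Gb H y r := by
    intro r
    induction r with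
    | zero => exact fun _ => ha
    | succ r ih =>
      intro hr
      obtain ⟨i1, i2⟩ := ih (by omega)
      exact ⟨bas1_eta_step hH.tree hxy hr ha.1 i2 h1 h3 h5,
        bas1_eta_step hH.tree hxy.symm hr ha.2 i1 h2 h4 h6⟩
  exact (key n le_rfl).1

/-- the orbit of a vertex under the group generated by a set -/
def bas1O (K : Set (T ≃g T)) (y : V) : Set V := {v | ∃ g ∈ closure K, g y = v}

/-- the first `k` conjugates -/
def bas1K (δ : ℕ → T ≃g T) (c : T ≃g T) (k : ℕ) : Set (T ≃g T) :=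
  {g | ∃ l < k, g = δ l * c * (δ l)⁻¹}

/-- the stabiliser of a set of vertices -/
def bas1S (O : Set V) : Subgroup (T ≃g T) where
  carrier := {g | ∀ v, v ∈ O ↔ g v ∈ O}
  one_mem' := fun _ => Iff.rfl
  mul_mem' := fun {g g'} h h' v => (h' v).trans (h (g' v))
  inv_mem' := fun {g} h v => by
    have e : g (g⁻¹ v) = v := by
      rw [← RelIso.mul_apply, mul_inv_cancel]; rfl
    rw [h (g⁻¹ v), e]

theorem bas1O_mono {K K' : Set (T ≃g T)} (h : K ⊆ K') (y : V) : bas1O K y ⊆ bas1O K' y :=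
  fun _ ⟨g, hg, e⟩ => ⟨g, closure_mono h hg, e⟩

theorem bas1O_stab (K : Set (T ≃g T)) (y : V) : closure K ≤ bas1S (bas1O K y) := by
  have a : ∀ g ∈ closure K, ∀ v ∈ bas1O K y, g v ∈ bas1O K y :=
    fun g hg v ⟨g', hg', e⟩ => ⟨g * g', mul_mem hg hg', by rw [RelIso.mul_apply, e]⟩
  intro g hg v
  refine ⟨a g hg v, fun h => ?_⟩
  have := a g⁻¹ (inv_mem hg) _ h
  rwa [← RelIso.mul_apply, inv_mul_cancel] at this

theorem bas1O_sub (hT : T.IsTree) {K : Set (T ≃g T)} (hK : closure K ≤ Gb H w 0)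
    (hy : T.Adj w y) : bas1O K y ⊆ T.neighborSet w := by
  rintro v ⟨g, hg, rfl⟩
  have e : g w = w := ((mem_Gb_zero hT).1 (hK hg)).2
  have := g.map_rel_iff.2 hy
  rwa [e] at this

theorem bas1K_le (hc : c ∈ Gb H w 0) {δ : ℕ → T ≃g T} (hδ : ∀ l, δ l ∈ Gb H w 0) (k : ℕ) :
    closure (bas1K δ c k) ≤ Gb H w 0 := by
  rw [closure_le]
  rintro g ⟨l, -, rfl⟩
  exact mul_mem (mul_mem (hδ l) hc) (inv_mem (hδ l))

theorem Hyp.bas1_grow (hH : Hyp T d H b) (hc : c ∈ H) (ha : Active c w) (hy : T.Adj w y) (k : ℕ) :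
    ∃ δ : ℕ → T ≃g T, (∀ l, δ l ∈ Gb H w 0) ∧
      (T.neighborSet w ⊆ bas1O (bas1K δ c k) y ∨ k + 1 ≤ (bas1O (bas1K δ c k) y).ncard) := by
  classical
  have hT := hH.tree
  have hc0 : c ∈ Gb H w 0 := (mem_Gb_zero hT).2 ⟨hc, ha.1⟩
  have hN : LTr (closure (cls (Gb H w 0 : Set (T ≃g T)) c)) w := by
    refine hH.sp w _ ?_ (bas1_nz fun g hg m hm => ?_)
      ⟨c, subset_closure ⟨1, one_mem _, by simp⟩, ha⟩
    · rw [closure_le]
      rintro g ⟨σ, hσ, rfl⟩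
      exact mul_mem (mul_mem hσ hc0) (inv_mem hσ)
    · have : cj g (closure (cls (Gb H w 0 : Set (T ≃g T)) c)) ≤
          closure (cls (Gb H w 0 : Set (T ≃g T)) c) := by
        rw [cj_closure]
        refine closure_mono ?_
        rintro _ ⟨_, ⟨σ, hσ, rfl⟩, rfl⟩
        exact ⟨g * σ, mul_mem hg hσ, by group⟩
      exact this (conj_mem_cj.2 hm)
  induction k with
  | zero =>
    refine ⟨fun _ => 1, fun _ => one_mem _, Or.inr ?_⟩
    have hf := (hH.nfin w).subset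
      (bas1O_sub hT (bas1K_le hc0 (δ := fun _ => 1) (fun _ => one_mem _) 0) hy)
    exact (Set.ncard_pos hf).2 ⟨y, 1, one_mem _, rfl⟩
  | succ k ih =>
    obtain ⟨δ, hδ, h⟩ := ih
    by_cases h0 : T.neighborSet w ⊆ bas1O (bas1K δ c k) y
    · refine ⟨δ, hδ, Or.inl (h0.trans (bas1O_mono ?_ y))⟩
      rintro g ⟨l, hl, e⟩
      exact ⟨l, by omega, e⟩
    have h1 := h.resolve_left h0
    have h2 : ∃ σ ∈ Gb H w 0, σ * c * σ⁻¹ ∉ bas1S (T := T) (bas1O (bas1K δ c k) y) := by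
      by_contra hn
      push Not at hn
      have h3 : closure (cls (Gb H w 0 : Set (T ≃g T)) c) ≤ bas1S (bas1O (bas1K δ c k) y) := by
        rw [closure_le]
        rintro g ⟨σ, hσ, rfl⟩
        exact hn σ hσ
      refine h0 fun v hv => ?_
      obtain ⟨g, hg, rfl⟩ := hN y v hy hv
      exact (h3 hg y).1 ⟨1, one_mem _, rfl⟩
    obtain ⟨σ, hσ, h3⟩ := h2
    have hδ' : ∀ l, Function.update δ k σ l ∈ Gb H w 0 := by
      intro l
      by_cases e : l = k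
      · rw [e, Function.update_self]; exact hσ
      · rw [Function.update_of_ne e]; exact hδ l
    refine ⟨Function.update δ k σ, hδ', Or.inr ?_⟩
    have h4 : bas1K δ c k ⊆ bas1K (Function.update δ k σ) c (k + 1) := by
      rintro g ⟨l, hl, e⟩
      exact ⟨l, by omega, by rw [Function.update_of_ne hl.ne]; exact e⟩
    have hf := (hH.nfin w).subset (bas1O_sub hT (bas1K_le hc0 hδ' (k + 1)) hy)
    refine Nat.succ_le_of_lt (lt_of_le_of_lt h1 (Set.ncard_lt_ncard ?_ hf))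
    refine ⟨bas1O_mono h4 y, fun h5 => h3 ?_⟩
    rw [Set.Subset.antisymm (bas1O_mono h4 y) h5]
    exact bas1O_stab _ y (subset_closure ⟨k, by omega, by rw [Function.update_self]⟩)

theorem Hyp.bas1_ltr (hH : Hyp T d H b) (hc : c ∈ H) (ha : Active c w) :
    ∃ δ : ℕ → T ≃g T, (∀ l, δ l ∈ Gb H w 0) ∧ LTr (closure (bas1K δ c d)) w := by
  obtain ⟨y, hy, -⟩ := ha.2.1
  have hc0 : c ∈ Gb H w 0 := (mem_Gb_zero hH.tree).2 ⟨hc, ha.1⟩
  obtain ⟨δ, hδ, h⟩ := hH.bas1_grow hc ha hy d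
  refine ⟨δ, hδ, ?_⟩
  have h1 : T.neighborSet w ⊆ bas1O (bas1K δ c d) y := by
    refine h.resolve_right fun h2 => ?_
    have := Set.ncard_le_ncard (bas1O_sub hH.tree (bas1K_le hc0 hδ d) hy) (hH.nfin w)
    have := hH.deg w
    omega
  intro v v' hv hv'
  obtain ⟨g, hg, rfl⟩ := h1 hv
  obtain ⟨g', hg', rfl⟩ := h1 hv'
  refine ⟨g' * g⁻¹, mul_mem hg' (inv_mem hg), ?_⟩
  rw [← RelIso.mul_apply, inv_mul_cancel_right]

theorem bas1_ltr_cj {R : Subgroup (T ≃g T)} (h : LTr R w) (f : T ≃g T) : LTr (cj f R) (f w) := by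
  intro v v' hv hv'
  have e : ∀ u, f (f⁻¹ u) = u := fun u => by
    rw [← RelIso.mul_apply, mul_inv_cancel]; rfl
  obtain ⟨g, hg, h1⟩ := h (f⁻¹ v) (f⁻¹ v') (f.map_rel_iff.1 (by rw [e]; exact hv))
    (f.map_rel_iff.1 (by rw [e]; exact hv'))
  refine ⟨f * g * f⁻¹, conj_mem_cj.2 hg, ?_⟩
  rw [RelIso.mul_apply, RelIso.mul_apply, h1, e]

/-- `2 d` conjugates of an active element have a deep common centraliser -/
theorem Hyp.etc (hH : Hyp T d H b) (hc : c ∈ H) (ha : Active c w) :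
    ∃ γ : Fin (2 * d) → T ≃g T, (∀ l, γ l ∈ H ∧ T.dist w (γ l w) ≤ 1) ∧
      ∀ (n : ℕ) (a : T ≃g T), a ∈ Gb H w 1 →
        (∀ l, ⁅γ l * c * (γ l)⁻¹, a⁆ ∈ Gb H w (n + 1)) → a ∈ Gb H w n := by
  have hT := hH.tree
  obtain ⟨δ, hδ, hR⟩ := hH.bas1_ltr hc ha
  obtain ⟨y, hy, -⟩ := ha.2.1
  obtain ⟨f, hf, rfl⟩ := hH.vtr w y
  have hc0 : c ∈ Gb H w 0 := (mem_Gb_zero hT).2 ⟨hc, ha.1⟩
  have hd := bas1_dist hy
  have hK := bas1K_le hc0 hδ d
  have hK' : cj f (closure (bas1K δ c d)) ≤ Gb H (f w) 0 := by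
    rw [← cj_Gb hf]; exact cj_mono f hK
  refine ⟨fun l => if l.1 < d then δ l.1 else f * δ (l.1 - d), fun l => ?_, fun n a h1 h2 => ?_⟩
  · dsimp only
    split_ifs
    · refine ⟨(hδ _).1, ?_⟩
      rw [((mem_Gb_zero hT).1 (hδ _)).2, SimpleGraph.dist_self]; omega
    · refine ⟨mul_mem hf (hδ _).1, ?_⟩
      rw [RelIso.mul_apply, ((mem_Gb_zero hT).1 (hδ _)).2, hd]
  · have a1 : closure (bas1K δ c d) ≤ CM (Gb H w 0) (Gb H w n) {a} := by
      rw [closure_le]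
      rintro g ⟨l, hl, e⟩
      have g0 : g ∈ Gb H w 0 := hK (subset_closure ⟨l, hl, e⟩)
      refine ⟨g0, Gb_nz_Gb hT w n g0, ?_⟩
      rintro a rfl
      have := h2 ⟨l, by omega⟩
      simp only [if_pos hl] at this
      rw [e]
      exact Gb_anti' (Nat.le_succ n) this
    have a2 : cj f (closure (bas1K δ c d)) ≤ CM (Gb H (f w) 0) (Gb H (f w) n) {a} := by
      have hK2 := hK'
      rw [cj_closure] at hK2 ⊢
      rw [closure_le]
      rintro g ⟨g', ⟨l, hl, e⟩, e'⟩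
      have g0 : g ∈ Gb H (f w) 0 := hK2 (subset_closure ⟨g', ⟨l, hl, e⟩, e'⟩)
      refine ⟨g0, Gb_nz_Gb hT _ n g0, ?_⟩
      rintro a rfl
      have := h2 ⟨d + l, by omega⟩
      simp only [if_neg (show ¬ d + l < d by omega), Nat.add_sub_cancel_left] at this
      have e2 : g = f * δ l * c * (f * δ l)⁻¹ := by
        rw [← e', e]; group
      rw [e2]
      exact Gb_anti hT (by rw [hd]; omega) this
    exact hH.eta hy ⟨Gb_anti' (Nat.zero_le 1) h1, Gb_anti hT (by rw [hd]) h1⟩ hK hK' hR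
      (bas1_ltr_cj hR f) (fun g hg => (a1 hg).2.2 a rfl) fun g hg => (a2 hg).2.2 a rfl

theorem Hyp.exists_adj (hH : Hyp T d H b) (x : V) : ∃ y, T.Adj x y := by
  obtain ⟨g, hg, h1⟩ := SetLike.exists_of_lt (bot_lt_iff_ne_bot.2 (hH.bne x))
  have h2 : ∃ v, g v ≠ v := by
    by_contra hn
    push Not at hn
    exact h1 (mem_bot.2 (RelIso.ext hn))
  obtain ⟨v, hv⟩ := h2
  have h3 : ¬ T.dist x v ≤ b := fun h => hv (hg.2 v h)
  obtain ⟨y, hy, -⟩ := exists_step hH.tree (x := x) (v := v) (r := T.dist x v - 1) (by omega)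
  exact ⟨y, hy⟩

theorem bas1_center {Γ : Type*} [Group Γ] {P N : Subgroup Γ} [Finite P] {p : ℕ} (hp : p.Prime)
    (hP : IsPGroup p P) (h1 : N ≤ P) (h2 : P ≤ normalizer (N : Set Γ)) (h3 : N ≠ ⊥) :
    N ⊓ centralizer (P : Set Γ) ≠ ⊥ := by
  haveI := Fact.mk hp
  haveI : Finite N := fin_of_le h1
  letI : MulAction P N :=
    { smul := fun g m => ⟨g * m * (g : Γ)⁻¹, bas1_conj (h2 g.2) m.2⟩
      one_smul := fun m => Subtype.ext (show ((1 : P) : Γ) * m * ((1 : P) : Γ)⁻¹ = m by simp)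
      mul_smul := fun g g' m => Subtype.ext
        (show ((g * g' : P) : Γ) * m * ((g * g' : P) : Γ)⁻¹ =
          g * ((g' : Γ) * m * (g' : Γ)⁻¹) * (g : Γ)⁻¹ by simp [mul_assoc]) }
  haveI : Nontrivial N := (nontrivial_iff_ne_bot N).2 h3
  obtain ⟨n, hn0, hn⟩ := (hP.to_le h1).nontrivial_iff_card.1 inferInstance
  have h4 : (1 : N) ∈ MulAction.fixedPoints P N := fun g =>
    Subtype.ext (show (g : Γ) * 1 * (g : Γ)⁻¹ = 1 by simp)
  obtain ⟨z, hz, h5⟩ := hP.exists_fixed_point_of_prime_dvd_card_of_fixed_point N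
    (hn ▸ dvd_pow_self p hn0.ne') h4
  intro h6
  refine h5 (Subtype.ext ?_)
  have h7 : (z : Γ) ∈ N ⊓ centralizer (P : Set Γ) := by
    refine ⟨z.2, fun g hg => ?_⟩
    have : g * (z : Γ) * g⁻¹ = z := congrArg Subtype.val (hz ⟨g, hg⟩)
    exact mul_inv_eq_iff_eq_mul.1 this
  rw [h6, mem_bot] at h7
  exact h7.symm

theorem Hyp.Zt_ne (hH : Hyp T d H b) (x : V) : Zt H b x ≠ ⊥ := by
  obtain ⟨p, hp, hP⟩ := hH.pgrp
  haveI := hH.finGb x 2
  exact bas1_center hp (hP x) (Gb_anti' hH.two)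
    ((Gb_anti' (Nat.zero_le 2)).trans (Gb_nz_Gb hH.tree x b)) (hH.bne x)

theorem Hyp.far_of_active (hH : Hyp T d H b) {z : T ≃g T} (hz : z ∈ Zt H b x) (ha : Active z w) :
    b ≤ T.dist x w := by
  obtain ⟨y, hy, h1⟩ := ha.2.2
  by_contra h
  refine h1 (hz.1.2 y ?_)
  have := hH.tree.connected.dist_triangle (u := x) (v := w) (w := y)
  rw [bas1_dist hy] at this
  show T.dist x y ≤ b
  omega

/-- an element of a top group is active at distance `b` -/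
theorem Hyp.exists_top (hH : Hyp T d H b) (x : V) :
    ∃ z ∈ Zt H b x, ∃ w, T.dist x w = b ∧ Active z w := by
  obtain ⟨z, hz, h1⟩ := SetLike.exists_of_lt (bot_lt_iff_ne_bot.2 (hH.Zt_ne x))
  obtain ⟨w, h2, h3⟩ := exists_active hH.tree (r := b)
    (Gb_anti' (by have := hH.two; omega) hz.1 : z ∈ Gb H x 1) (by rwa [hH.btop x])
  exact ⟨z, hz, w, le_antisymm h2 (hH.far_of_active hz h3), h3⟩

/-- an active element acts non-trivially on every layer -/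
theorem Hyp.layer (hH : Hyp T d H b) (hc : c ∈ H) (ha : Active c w) {j : ℕ} (hj : j + 2 ≤ b) :
    ∃ m ∈ Wd H b w (j + 1), ⁅c, m⁆ ∉ Wd H b w j := by
  have hT := hH.tree
  by_contra hn
  push Not at hn
  have hc0 : c ∈ Gb H w 0 := (mem_Gb_zero hT).2 ⟨hc, ha.1⟩
  have hC : LTr (CM (Gb H w 0) (Wd H b w j) (Wd H b w (j + 1))) w := by
    refine hH.sp w _ (fun g hg => hg.1) (bas1_nz fun h hh g hg => ?_)
      ⟨c, ⟨hc0, Gb_nz_Wd hT w j hc0, hn⟩, ha⟩
    have g0 : h * g * h⁻¹ ∈ Gb H w 0 := mul_mem (mul_mem hh hg.1) (inv_mem hh)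
    refine ⟨g0, Gb_nz_Wd hT w j g0, fun m hm => ?_⟩
    have e : ⁅h * g * h⁻¹, m⁆ = h * ⁅g, h⁻¹ * m * h⁆ * h⁻¹ := by
      simp only [commutatorElement_def]; group
    rw [e]
    exact bas1_conj (Gb_nz_Wd hT w j hh) (hg.2.2 _ (bas1_conj' (Gb_nz_Wd hT w (j + 1) hh) hm))
  obtain ⟨y, hy, -⟩ := ha.2.1
  have hd := bas1_dist hy
  have hd' := bas1_dist hy.symm
  have h1 : Wd H b w (j + 1) ≤ Wd H b y j ⊔ Wd H b w j := by
    rw [Wd_succ hT]
    refine sup_le le_sup_right (iSup₂_le fun y' hy' => ?_)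
    obtain ⟨g, hg, rfl⟩ := hC y y' hy hy'
    rw [← cj_Wd hg.1.1]
    intro m hm
    rw [mem_cj] at hm
    have e : m = ⁅g, g⁻¹ * m * g⁆ * (g⁻¹ * m * g) := by
      simp only [commutatorElement_def]; group
    rw [e]
    exact mul_mem (mem_sup_right (hg.2.2 _ (Wd_le hT (by rw [hd]; omega) hm))) (mem_sup_left hm)
  have h2 : Wd H b w (j + 1) ≤ Wd H b y (j + 1) :=
    h1.trans (sup_le (Wd_le hT (by rw [SimpleGraph.dist_self]; omega))
      (Wd_le hT (by rw [hd']; omega)))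
  haveI := hH.finWd y (r := j + 1) (by omega)
  have h3 : Wd H b w (j + 1) = Wd H b y (j + 1) :=
    eq_of_le_of_card_ge h2 (hH.card_Wd y w (j + 1)).le
  have h4 : Wd H b w (j + 1) = ⊥ := by
    refine hH.et hy (le_inf (Wd_le_Gb hT ?_) (Wd_le_Gb hT ?_)) le_rfl le_rfl (hH.ltr w)
      (hH.ltr y) (Gb_nz_Wd hT w _) (h3 ▸ Gb_nz_Wd hT y _)
    · rw [SimpleGraph.dist_self]; omega
    · rw [hd]; omega
  refine hH.Zt_ne w (eq_bot_iff.2 ?_)
  rw [← h4, ← Wd_zero hT]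
  exact Wd_le hT (by rw [SimpleGraph.dist_self]; omega)

/-- rank gap -/
theorem Hyp.rank_gap (hH : Hyp T d H b) (hc : c ∈ H) (ha : Active c w) {k : ℕ}
    (hk : 2 * k + 2 ≤ b) : k * Real.log 2 ≤ rk (Wd H b w k) c := by
  have hT := hH.tree
  have hc0 : c ∈ Gb H w 0 := (mem_Gb_zero hT).2 ⟨hc, ha.1⟩
  induction k with
  | zero => simpa using rk_nonneg _ _
  | succ k ih =>
    have i1 := ih (by omega)
    obtain ⟨m, hm, h1⟩ := hH.layer hc ha (j := k) (by omega)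
    haveI := hH.finWd w (r := k + 1) (by omega)
    have h2 : Wd H b w k ≤ Wd H b w (k + 1) := Wd_le hT (by rw [SimpleGraph.dist_self]; omega)
    have h3 : Wd H b w (k + 1) ≤ Gb H w 0 :=
      Wd_le_Gb hT (by rw [SimpleGraph.dist_self]; omega)
    have h4 : Wd H b w k ⊔ (Wd H b w (k + 1) ⊓ centralizer {c}) ≤ Wd H b w (k + 1) :=
      sup_le h2 inf_le_left
    have h5 : Wd H b w k ⊔ (Wd H b w (k + 1) ⊓ centralizer {c}) ≤ CM ⊤ (Wd H b w k) {c} := by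
      refine sup_le (fun g hg => ⟨trivial, le_normalizer hg, ?_⟩)
        fun g hg => ⟨trivial, Gb_nz_Wd hT w k (h3 hg.1), ?_⟩
      · rintro c rfl
        have e : ⁅g, c⁆ = g * (c * g⁻¹ * c⁻¹) := by
          simp only [commutatorElement_def]; group
        rw [e]
        exact mul_mem hg (bas1_conj (Gb_nz_Wd hT w k hc0) (inv_mem hg))
      · rintro c rfl
        rw [commutatorElement_eq_one_iff_mul_comm.2 (hg.2 c rfl).symm]
        exact one_mem _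
    have h6 : ¬ Wd H b w (k + 1) ≤ Wd H b w k ⊔ (Wd H b w (k + 1) ⊓ centralizer {c}) := by
      intro h7
      refine h1 ?_
      rw [← commutatorElement_inv]
      exact inv_mem ((h5 (h7 hm)).2.2 c rfl)
    haveI := fin_of_le h4
    haveI := fin_of_le h2
    have a1 := log_two_le_ld h6
    have a2 := ld_add h4 (le_sup_right : Wd H b w (k + 1) ⊓ centralizer {c} ≤ _)
    have a3 := ld_mono_left (Wd H b w (k + 1) ⊓ centralizer {c})
      (le_sup_left : Wd H b w k ≤ Wd H b w k ⊔ (Wd H b w (k + 1) ⊓ centralizer {c}))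
    have a4 := ld_mono_right (Wd H b w k)
      (inf_le_right : Wd H b w (k + 1) ⊓ centralizer {c} ≤ centralizer {c})
    rw [ld_inf_self] at a2
    unfold rk at i1 ⊢
    push_cast
    linarith

/-- elements of small rank are deep -/
theorem Hyp.deep_of_rk (hH : Hyp T d H b) (hc : c ∈ Gb H x 1) {r i : ℕ} (hr : 2 * r + 2 ≤ b)
    (hi : i ≤ r) (h : rk (Wd H b x r) c < ((r : ℝ) - i) * Real.log 2) : c ∈ Gb H x (i + 1) := by
  by_contra hn
  obtain ⟨w, h1, h2⟩ := exists_active hH.tree hc hn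
  have h3 := hH.rank_gap hc.1 h2 (k := r - i) (by omega)
  haveI := hH.finWd x (r := r) (by omega)
  have h4 := rk_mono (Wd_le hH.tree (H := H) (b := b) (show T.dist x w + (r - i) ≤ r by omega)) c
  rw [Nat.cast_sub hi] at h3
  linarith

/-- an active element fails to centralise a top group next to the vertex -/
theorem Hyp.pong (hH : Hyp T d H b) (hc : c ∈ H) (ha : Active c w) :
    ∃ y, T.dist w y ≤ 1 ∧ ∃ z ∈ Zt H b y, c * z ≠ z * c := by
  by_contra hn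
  push Not at hn
  obtain ⟨m, hm, h1⟩ := hH.layer hc ha (j := 0) hH.two
  have h2 : Wd H b w (0 + 1) ≤ centralizer {c} :=
    Md_le_iff.2 fun y hy z hz => by
      rintro c rfl
      exact hn y hy z hz
  refine h1 ?_
  rw [commutatorElement_eq_one_iff_mul_comm.2 (h2 hm c rfl)]
  exact one_mem _

theorem Hyp.deep_of_cent (hH : Hyp T d H b) (hc : c ∈ Gb H x 1) {r : ℕ}
    (h : c ∈ centralizer (Wd H b x r : Set (T ≃g T))) : c ∈ Gb H x r := by
  rcases r with _ | r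
  · exact Gb_anti' (Nat.zero_le 1) hc
  by_contra hn
  obtain ⟨w, h1, h2⟩ := exists_active hH.tree hc hn
  obtain ⟨y, h3, z, hz, h4⟩ := hH.pong hc.1 h2
  refine h4 (h z (Zt_le_Md ?_ hz)).symm
  have := hH.tree.connected.dist_triangle (u := x) (v := w) (w := y)
  show T.dist x y ≤ r + 1
  omega

end Pool.Agent.PSV
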