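import Pool.Agent.Lib.MP_607584_al.PSV.Bas1

/-! The adjoint gap, linear growth and finite width. -/

namespace Pool.Agent.PSV

open Subgroup
open scoped Pointwise commutatorElement

section Aux

variable {Γ : Type*} [Group Γ]

theorem bas2_mem_CM {A N : Subgroup Γ} {K : Set Γ} {g : Γ} :
    g ∈ CM A N K ↔ g ∈ A ∧ g ∈ normalizer (N : Set Γ) ∧ ∀ c ∈ K, ⁅g, c⁆ ∈ N := Iff.rfl

theorem bas2_nz_of {A X : Subgroup Γ} (h : ∀ a ∈ A, ∀ g ∈ X, a * g * a⁻¹ ∈ X) :
    A ≤ normalizer (X : Set Γ) := by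
  intro a ha
  rw [mem_normalizer_iff]
  refine fun g => ⟨h a ha g, fun hg => ?_⟩
  have := h a⁻¹ (A.inv_mem ha) _ hg
  have e : a⁻¹ * (a * g * a⁻¹) * a⁻¹⁻¹ = g := by group
  rwa [e] at this

theorem bas2_CM_nz {A N K : Subgroup Γ} (h1 : A ≤ normalizer (N : Set Γ))
    (h2 : A ≤ normalizer (K : Set Γ)) : A ≤ normalizer (CM A N (K : Set Γ) : Set Γ) := by
  refine bas2_nz_of fun a ha g hg => ?_
  obtain ⟨g1, g2, g3⟩ := bas2_mem_CM.1 hg
  have m : a * g * a⁻¹ ∈ A := A.mul_mem (A.mul_mem ha g1) (A.inv_mem ha)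
  refine bas2_mem_CM.2 ⟨m, h1 m, fun c hc => ?_⟩
  have e : ⁅a * g * a⁻¹, c⁆ = a * ⁅g, a⁻¹ * c * a⁻¹⁻¹⁆ * a⁻¹ := by
    simp only [commutatorElement_def]; group
  rw [e]
  exact (mem_normalizer_iff.1 (h1 ha) _).1
    (g3 _ ((mem_normalizer_iff.1 (h2 (A.inv_mem ha)) c).1 hc))

theorem bas2_nz_inf {A X Y : Subgroup Γ} (h1 : A ≤ normalizer (X : Set Γ))
    (h2 : A ≤ normalizer (Y : Set Γ)) : A ≤ normalizer ((X ⊓ Y : Subgroup Γ) : Set Γ) :=
  bas2_nz_of fun _ ha g hg =>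
    ⟨(mem_normalizer_iff.1 (h1 ha) g).1 hg.1, (mem_normalizer_iff.1 (h2 ha) g).1 hg.2⟩

theorem bas2_ld_iInf {ι : Type*} (A : Subgroup Γ) [Finite A] (F : Finset ι) (Y : ι → Subgroup Γ)
    {e : ℝ} (h : ∀ v ∈ F, ld A (Y v) ≤ e) : ld A (⨅ v ∈ F, Y v) ≤ F.card * e := by
  classical
  induction F using Finset.induction_on with
  | empty =>
    rw [ld_of_le (by simp)]
    simp
  | insert a s ha ih =>
    rw [Finset.iInf_insert, Finset.card_insert_of_notMem ha]
    have a1 := ld_inf A (Y a) (⨅ v ∈ s, Y v)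
    have a2 := h a (Finset.mem_insert_self _ _)
    have a3 := ih fun v hv => h v (Finset.mem_insert_of_mem hv)
    push_cast
    linarith

theorem bas2_ld_le {A Y Y' : Subgroup Γ} [Finite A] (h : A ⊓ Y ≤ Y') : ld A Y' ≤ ld A Y := by
  rw [← ld_inf_self A Y]
  exact ld_mono_right A h

theorem bas2_lc_step {X X' : Subgroup Γ} [Finite X'] (h : X ≤ X') (h' : ¬ X' ≤ X) :
    lc X + Real.log 2 ≤ lc X' := by
  have a := log_two_le_ld h'
  rw [ld_eq, inf_eq_right.2 h] at a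
  linarith

theorem bas2_cent_sup {X Y : Subgroup Γ} {g : Γ} (h1 : g ∈ centralizer (X : Set Γ))
    (h2 : g ∈ centralizer (Y : Set Γ)) : g ∈ centralizer ((X ⊔ Y : Subgroup Γ) : Set Γ) := by
  have a : ∀ Z : Subgroup Γ, g ∈ centralizer (Z : Set Γ) ↔ Z ≤ centralizer {g} := by
    intro Z
    rw [mem_centralizer_iff]
    refine ⟨fun h z hz => mem_centralizer_singleton_iff.2 (h z hz), fun h z hz => ?_⟩
    exact mem_centralizer_singleton_iff.1 (h hz)
  rw [a] at h1 h2 ⊢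
  exact sup_le h1 h2

end Aux

variable {V : Type} {T : SimpleGraph V} {H : Subgroup (T ≃g T)} {b d : ℕ} {c : T ≃g T}
  {x y w : V}

theorem bas2_dist_adj (h : T.Adj x y) : T.dist x y = 1 := SimpleGraph.dist_eq_one_iff_adj.2 h

theorem bas2_Gb_adj (hT : T.IsTree) (h : T.Adj x y) (r : ℕ) : Gb H x (r + 1) ≤ Gb H y r :=
  Gb_anti hT (by rw [bas2_dist_adj h]; omega)

theorem Hyp.Gb_ne (hH : Hyp T d H b) (x : V) {i : ℕ} (hi : i ≤ b) :
    ¬ Gb H x i ≤ Gb H x (i + 1) := by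
  intro h
  obtain ⟨y, hy⟩ := hH.exists_adj x
  obtain ⟨g, hg, e⟩ := hH.vtr x y
  have h' : Gb H y i ≤ Gb H y (i + 1) := by
    have := cj_mono g h
    rwa [cj_Gb hg, cj_Gb hg, e] at this
  have e1 : Gb H x i = Gb H y i :=
    le_antisymm (h.trans (bas2_Gb_adj hH.tree hy i)) (h'.trans (bas2_Gb_adj hH.tree hy.symm i))
  have e2 : Gb H x i = ⊥ := hH.et hy
    (le_inf (Gb_anti' (Nat.zero_le _)) (e1 ▸ Gb_anti' (Nat.zero_le _))) le_rfl le_rfl (hH.ltr x)
    (hH.ltr y) (Gb_nz_Gb hH.tree x i) (e1 ▸ Gb_nz_Gb hH.tree y i)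
  exact hH.bne x (le_bot_iff.1 (e2 ▸ Gb_anti' hi))

theorem Hyp.lc_Gb_one (hH : Hyp T d H b) (x : V) : b * Real.log 2 ≤ lc (Gb H x 1) := by
  have key : ∀ k i : ℕ, i + k = b + 1 → k * Real.log 2 ≤ lc (Gb H x i) := by
    intro k
    induction k with
    | zero => intro i _; simpa using lc_nonneg _
    | succ k ih =>
      intro i hi
      have _i := hH.finGb x i
      have a := ih (i + 1) (by omega)
      have a' := bas2_lc_step (Gb_anti' (Nat.le_succ i)) (hH.Gb_ne x (i := i) (by omega))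
      push_cast
      linarith
  exact key b 1 (by omega)

/-- adjoint gap -/
theorem Hyp.adjoint (hH : Hyp T d H b) (hc : c ∈ H) (ha : Active c w) {i : ℕ} (hi : i + 1 ≤ b) :
    ∃ g ∈ Gb H w i, ⁅g, c⁆ ∉ Gb H w (i + 2) := by
  by_contra hn
  have hn' : ∀ g ∈ Gb H w i, ⁅g, c⁆ ∈ Gb H w (i + 2) := by
    intro g hg
    by_contra h
    exact hn ⟨g, hg, h⟩
  have hT := hH.tree
  have c0 : c ∈ Gb H w 0 := (mem_Gb_zero hT).2 ⟨hc, ha.1⟩
  have c1 : c ∈ CM (Gb H w 0) (Gb H w (i + 2)) (Gb H w i : Set (T ≃g T)) := by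
    refine bas2_mem_CM.2 ⟨c0, Gb_nz_Gb hT w _ c0, fun g hg => ?_⟩
    rw [← commutatorElement_inv]
    exact inv_mem (hn' g hg)
  have tr := hH.sp w (CM (Gb H w 0) (Gb H w (i + 2)) (Gb H w i : Set (T ≃g T)))
    (fun g hg => (bas2_mem_CM.1 hg).1) (bas2_CM_nz (Gb_nz_Gb hT w _) (Gb_nz_Gb hT w _))
    ⟨c, c1, ha⟩
  obtain ⟨y, hy⟩ := hH.exists_adj w
  have le1 : Gb H y (i + 1) ≤ Gb H w (i + 2) := by
    intro a h
    have a1 : a ∈ Gb H w i := bas2_Gb_adj hT hy.symm i h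
    refine (mem_Gb_succ hT).2 ⟨Gb_anti' (Nat.zero_le _) a1, fun y' hy' => ?_⟩
    obtain ⟨g, hg, e⟩ := tr y' y hy' hy
    obtain ⟨g1, -, g3⟩ := bas2_mem_CM.1 hg
    have a2 : g * a * g⁻¹ ∈ Gb H y (i + 1) := by
      have e' : g * a * g⁻¹ = ⁅g, a⁆ * a := by
        simp only [commutatorElement_def]; group
      rw [e']
      exact mul_mem (bas2_Gb_adj hT hy (i + 1) (g3 a a1)) h
    rw [← e, ← cj_Gb (mem_Gb.1 g1).1, conj_mem_cj] at a2
    exact a2
  have _i := hH.finGb w (i + 1)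
  have e : Gb H y (i + 1) = Gb H w (i + 1) :=
    eq_of_le_of_card_ge (le1.trans (Gb_anti' (by omega))) (hH.card_Gb w y (i + 1)).le
  exact hH.Gb_ne w hi (e ▸ le1)

/-- counting form at the active vertex -/
theorem Hyp.ac0 (hH : Hyp T d H b) (hc : c ∈ H) (ha : Active c w) {i m : ℕ}
    (hi : i + 2 * m ≤ b) :
    m * Real.log 2 ≤ ld (Gb H w i) (CM (Gb H w 0) (Gb H w (i + 2 * m)) {c}) := by
  have hT := hH.tree
  have c0 : c ∈ Gb H w 0 := (mem_Gb_zero hT).2 ⟨hc, ha.1⟩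
  induction m with
  | zero => simpa using ld_nonneg _ _
  | succ m ih =>
    have _i := hH.finGb w i
    have a := ih (by omega)
    have l1 : CM (Gb H w 0) (Gb H w (i + 2 * (m + 1))) {c} ≤
        CM (Gb H w 0) (Gb H w (i + 2 * m)) {c} := by
      intro g hg
      obtain ⟨g1, -, g3⟩ := bas2_mem_CM.1 hg
      exact bas2_mem_CM.2 ⟨g1, Gb_nz_Gb hT w _ g1, fun s hs => Gb_anti' (by omega) (g3 s hs)⟩
    obtain ⟨g, hg, hg'⟩ := hH.adjoint hc ha (i := i + 2 * m) (by omega)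
    have _i : Finite ↥(Gb H w i ⊓ CM (Gb H w 0) (Gb H w (i + 2 * m)) {c}) := fin_of_le inf_le_left
    have l2 : ¬ Gb H w i ⊓ CM (Gb H w 0) (Gb H w (i + 2 * m)) {c} ≤
        Gb H w i ⊓ CM (Gb H w 0) (Gb H w (i + 2 * (m + 1))) {c} := by
      intro h
      have g0 : g ∈ Gb H w 0 := Gb_anti' (Nat.zero_le _) hg
      have g1 : g ∈ Gb H w i ⊓ CM (Gb H w 0) (Gb H w (i + 2 * m)) {c} := by
        refine ⟨Gb_anti' (by omega) hg, bas2_mem_CM.2 ⟨g0, Gb_nz_Gb hT w _ g0, fun s hs => ?_⟩⟩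
        rw [Set.mem_singleton_iff.1 hs]
        have e : ⁅g, c⁆ = g * (c * g⁻¹ * c⁻¹) := by
          simp only [commutatorElement_def]; group
        rw [e]
        exact mul_mem hg ((mem_normalizer_iff.1 (Gb_nz_Gb hT w _ c0) _).1 (inv_mem hg))
      exact hg' ((bas2_mem_CM.1 (h g1).2).2.2 c rfl)
    have a1 := log_two_le_ld l2
    have a2 := ld_add (X := Gb H w i) (inf_le_left) (inf_le_inf_left (Gb H w i) l1)
    rw [ld_inf_self, ld_inf_self] at a2
    push_cast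
    linarith

/-- counting form -/
theorem Hyp.ac (hH : Hyp T d H b) {i0 i m : ℕ} (h1 : c ∈ Gb H x 1) (h2 : c ∉ Gb H x (i + 1))
    (hi : i0 + i + 2 * m ≤ b) :
    m * Real.log 2 ≤ ld (Gb H x i0) (CM (Gb H x 0) (Gb H x (i0 + 2 * i + 2 * m)) {c}) := by
  have hT := hH.tree
  obtain ⟨w, hw, ha⟩ := exists_active hT h1 h2
  have a := hH.ac0 (mem_Gb.1 h1).1 ha (i := i0 + i) (m := m) hi
  have _i := hH.finGb w (i0 + i)
  have _i := hH.finGb x i0
  refine a.trans ((bas2_ld_le ?_).trans (ld_mono_left _ (Gb_anti hT ?_)))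
  · rintro g ⟨g1, g2⟩
    have g0 : g ∈ Gb H w 0 := Gb_anti' (Nat.zero_le _) g1
    exact bas2_mem_CM.2 ⟨g0, Gb_nz_Gb hT w _ g0, fun s hs =>
      Gb_anti hT (by omega) ((bas2_mem_CM.1 g2).2.2 s hs)⟩
  · rw [SimpleGraph.dist_comm]; omega

/-- the basic constant -/
noncomputable def bas2_l (d : ℕ) : ℝ := ((d : ℝ) + 1) ^ 2 * Real.log (d + 1)

theorem bas2_log_nonneg (d : ℕ) : 0 ≤ Real.log ((d : ℝ) + 1) :=
  Real.log_nonneg (by have := Nat.cast_nonneg (α := ℝ) d; linarith)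

theorem bas2_l_nonneg (d : ℕ) : 0 ≤ bas2_l d := mul_nonneg (by positivity) (bas2_log_nonneg d)

/-- the index of the stabiliser of a small ball near a fixed ball -/
theorem bas2_near (hH : Hyp T d H b) {A : Subgroup (T ≃g T)} {s k : ℕ} (hA : A ≤ Gb H x s)
    (h : T.dist x y ≤ s + k) : ld A (Gb H y 2) ≤ bas2_l d * (k + 2) := by
  have hT := hH.tree
  have _i := hH.finGb x s
  have _i : Finite A := fin_of_le hA
  obtain ⟨p, hp, hp'⟩ := btw_exists hT x y (min_le_right s (T.dist x y))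
  have p1 : T.dist p y ≤ k := by unfold Btw at hp; omega
  have p2 : A ≤ Gb H p 0 := hA.trans (Gb_anti hT (by omega))
  obtain ⟨f1, f2⟩ := ncard_Ball_le hT hH.nfin hH.deg y 2
  have a := bas2_ld_iInf A f1.toFinset (fun v => Gb H v 0)
    (e := ((k + 2 : ℕ) : ℝ) * Real.log (d + 1)) (fun v hv => hH.ld_stab p2 (by
      have a1 : T.dist y v ≤ 2 := (Set.Finite.mem_toFinset f1).1 hv
      have a2 := hT.connected.dist_triangle (u := p) (v := y) (w := v)
      omega))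
  have a' : ld A (Gb H y 2) ≤ ld A (⨅ v ∈ f1.toFinset, Gb H v 0) := by
    refine bas2_ld_le ?_
    rintro g ⟨g1, g2⟩
    refine mem_Gb.2 ⟨(mem_Gb.1 (hA g1)).1, fun v hv => ?_⟩
    have g3 : g ∈ Gb H v 0 :=
      mem_iInf.1 (mem_iInf.1 g2 v) ((Set.Finite.mem_toFinset f1).2 hv)
    exact ((mem_Gb_zero hT).1 g3).2
  have a3 : (f1.toFinset.card : ℝ) ≤ ((d : ℝ) + 1) ^ 2 := by
    rw [← Set.ncard_eq_toFinset_card _ f1]
    exact_mod_cast f2
  have a4 := mul_le_mul_of_nonneg_right a3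
    (mul_nonneg (Nat.cast_nonneg (α := ℝ) (k + 2)) (bas2_log_nonneg d))
  refine a'.trans (a.trans (a4.trans (le_of_eq ?_)))
  unfold bas2_l
  push_cast
  ring

theorem bas2_Gb_cent_Zt (x : V) : Gb H x 2 ≤ centralizer (Zt H b x : Set (T ≃g T)) := by
  intro g hg
  rw [mem_centralizer_iff]
  intro z hz
  exact (mem_centralizer_iff.1 hz.2 g hg).symm

/-- linear growth -/
theorem bas2_grow (hH : Hyp T d H b) (x : V) {k : ℕ} (hk : k + 1 ≤ b) :
    lc (Wd H b x k) ≤ 6 * d * bas2_l d * (k + 1) := by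
  have hT := hH.tree
  obtain ⟨z, hz, w, hw, ha⟩ := hH.exists_top x
  obtain ⟨γ, h1, h2⟩ := hH.etc (mem_Gb.1 hz.1).1 ha
  have _i := hH.finGb w (b - k)
  have a := bas2_ld_iInf (Gb H w (b - k)) Finset.univ (fun l => Gb H (γ l x) 2)
    (e := bas2_l d * (((k + 1 : ℕ) : ℝ) + 2)) (fun l _ => bas2_near hH le_rfl (by
      have a1 := (h1 l).2
      have a2 := hT.connected.dist_triangle (u := w) (v := γ l w) (w := γ l x)
      rw [dist_map, SimpleGraph.dist_comm (u := w) (v := x), hw] at a2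
      omega))
  have e : Gb H w (b - k) ⊓ (⨅ l ∈ (Finset.univ : Finset (Fin (2 * d))), Gb H (γ l x) 2) = ⊥ := by
    rw [eq_bot_iff, ← hH.btop w]
    rintro g ⟨g1, g2⟩
    refine h2 (b + 1) g (Gb_anti' (by omega) g1) fun l => ?_
    have g3 : g ∈ Gb H (γ l x) 2 := mem_iInf.1 (mem_iInf.1 g2 l) (Finset.mem_univ l)
    have z1 : γ l * z * (γ l)⁻¹ ∈ Zt H b (γ l x) := by
      rw [← cj_Zt (h1 l).1, conj_mem_cj]; exact hz
    have z2 := mem_centralizer_iff.1 (bas2_Gb_cent_Zt (b := b) _ g3) _ z1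
    rw [commutatorElement_eq_one_iff_mul_comm.2 z2]
    exact one_mem _
  rw [ld_eq, e, lc_bot, Finset.card_univ, Fintype.card_fin] at a
  have a1 : lc (Wd H b x k) = lc (Wd H b w k) := by
    unfold lc; rw [hH.card_Wd x w k]
  have a2 : lc (Wd H b w k) ≤ lc (Gb H w (b - k)) :=
    lc_mono (Wd_le_Gb hT (by rw [SimpleGraph.dist_self]; omega))
  have a3 := mul_nonneg (mul_nonneg (Nat.cast_nonneg (α := ℝ) d) (bas2_l_nonneg d))
    (Nat.cast_nonneg (α := ℝ) k)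
  push_cast at a
  nlinarith

/-- adding the generators of one layer -/
theorem bas2_layer (hH : Hyp T d H b) {A : Subgroup (T ≃g T)} {j : ℕ} (hj : j + 1 ≤ b)
    (hA : A ≤ Gb H x j) (n : ℕ) : ∀ X : Subgroup (T ≃g T), X ≤ Wd H b x (j + 1) →
      lc (Wd H b x (j + 1)) - lc X < n * Real.log 2 →
      ld (A ⊓ centralizer (X : Set (T ≃g T))) (centralizer (Wd H b x (j + 1) : Set (T ≃g T))) *
        Real.log 2 ≤ 3 * bas2_l d * (lc (Wd H b x (j + 1)) - lc X) := by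
  have _i := hH.finWd x hj
  have _i := hH.finGb x j
  have _i : Finite A := fin_of_le hA
  have l0 := bas2_l_nonneg d
  have l2 : 0 < Real.log 2 := Real.log_pos (by norm_num)
  induction n with
  | zero =>
    intro X hX h
    have := lc_mono hX
    simp only [Nat.cast_zero, zero_mul] at h
    linarith
  | succ n ih =>
    intro X hX h
    by_cases hW : Wd H b x (j + 1) ≤ X
    · rw [ld_of_le (inf_le_right.trans (centralizer_le hW)), zero_mul]
      exact mul_nonneg (by linarith) (sub_nonneg.2 (lc_mono hX))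
    · obtain ⟨w, hw, hw'⟩ : ∃ w ∈ Ball T x (j + 1), ¬ Zt H b w ≤ X := by
        by_contra hn
        refine hW (Md_le_iff.2 fun w hw => ?_)
        by_contra h'
        exact hn ⟨w, hw, h'⟩
      have x1 : X ⊔ Zt H b w ≤ Wd H b x (j + 1) := sup_le hX (Zt_le_Md hw)
      have _i : Finite ↥(X ⊔ Zt H b w) := fin_of_le x1
      have x2 := bas2_lc_step (X := X) (X' := X ⊔ Zt H b w) le_sup_left
        (fun h' => hw' (le_sup_right.trans h'))
      have x3 := ih _ x1 (by push_cast at h; linarith)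
      have _i : Finite ↥(A ⊓ centralizer (X : Set (T ≃g T))) := fin_of_le inf_le_left
      have _i : Finite ↥(A ⊓ centralizer ((X ⊔ Zt H b w : Subgroup (T ≃g T)) : Set (T ≃g T))) :=
        fin_of_le inf_le_left
      have x4 := ld_tri (A ⊓ centralizer (X : Set (T ≃g T)))
        (A ⊓ centralizer ((X ⊔ Zt H b w : Subgroup (T ≃g T)) : Set (T ≃g T)))
        (centralizer (Wd H b x (j + 1) : Set (T ≃g T)))
      have x5 : ld (A ⊓ centralizer (X : Set (T ≃g T)))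
          (A ⊓ centralizer ((X ⊔ Zt H b w : Subgroup (T ≃g T)) : Set (T ≃g T))) ≤
          ld (A ⊓ centralizer (X : Set (T ≃g T))) (Gb H w 2) := by
        refine bas2_ld_le ?_
        rintro g ⟨⟨g1, g2⟩, g3⟩
        exact ⟨g1, bas2_cent_sup g2 (bas2_Gb_cent_Zt w g3)⟩
      have x6 := bas2_near hH (A := A ⊓ centralizer (X : Set (T ≃g T))) (y := w) (s := j) (k := 1)
        (inf_le_left.trans hA) hw
      have x7 := mul_le_mul_of_nonneg_right (x4.trans (add_le_add (x5.trans x6) le_rfl)) l2.le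
      have x8 := mul_le_mul_of_nonneg_left x2 l0
      push_cast at x7
      nlinarith

/-- the index of the centraliser of a ball group -/
theorem bas2_width (hH : Hyp T d H b) (x : V) {j : ℕ} (hj : j ≤ b) :
    ld (Gb H x 0) (Gb H x 1 ⊓ centralizer (Wd H b x j : Set (T ≃g T))) * Real.log 2 ≤
      2 * bas2_l d * Real.log 2 + 3 * bas2_l d * lc (Wd H b x j) := by
  have hT := hH.tree
  have _i := hH.finGb x 0
  have _i := hH.finGb x 1
  have l0 := bas2_l_nonneg d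
  have l2 : 0 < Real.log 2 := Real.log_pos (by norm_num)
  induction j with
  | zero =>
    have a := bas2_near hH (A := Gb H x 0) (y := x) (s := 0) (k := 0) le_rfl
      (by rw [SimpleGraph.dist_self])
    have a1 := ld_mono_right (Gb H x 0) (Y := Gb H x 2)
      (Y' := Gb H x 1 ⊓ centralizer (Wd H b x 0 : Set (T ≃g T)))
      (le_inf (Gb_anti' (by omega)) (Gb_cent_Wd hT x 0))
    have a2 := mul_le_mul_of_nonneg_right (a1.trans a) l2.le
    have a3 := mul_nonneg l0 (lc_nonneg (Wd H b x 0))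
    push_cast at a2
    nlinarith
  | succ j ih =>
    have a := ih (by omega)
    have _i : Finite ↥(Gb H x 1 ⊓ centralizer (Wd H b x j : Set (T ≃g T))) := fin_of_le inf_le_left
    obtain ⟨n, hn⟩ := exists_nat_gt ((lc (Wd H b x (j + 1)) - lc (Wd H b x j)) / Real.log 2)
    have a1 := bas2_layer hH (x := x) (A := Gb H x 1 ⊓ centralizer (Wd H b x j : Set (T ≃g T))) hj
      (fun g hg => hH.deep_of_cent hg.1 hg.2) n (Wd H b x j)
      (Wd_le hT (by rw [SimpleGraph.dist_self]; omega)) ((div_lt_iff₀ l2).1 hn)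
    rw [inf_assoc, inf_idem] at a1
    have a2 := ld_tri (Gb H x 0) (Gb H x 1 ⊓ centralizer (Wd H b x j : Set (T ≃g T)))
      (Gb H x 1 ⊓ centralizer (Wd H b x (j + 1) : Set (T ≃g T)))
    have a3 : ld (Gb H x 1 ⊓ centralizer (Wd H b x j : Set (T ≃g T)))
        (Gb H x 1 ⊓ centralizer (Wd H b x (j + 1) : Set (T ≃g T))) ≤
        ld (Gb H x 1 ⊓ centralizer (Wd H b x j : Set (T ≃g T)))
          (centralizer (Wd H b x (j + 1) : Set (T ≃g T))) :=
      bas2_ld_le fun g hg => ⟨hg.1.1, hg.2⟩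
    have a4 := mul_le_mul_of_nonneg_right (a2.trans (add_le_add le_rfl a3)) l2.le
    nlinarith

/-- linear growth and finite width -/
theorem exists_std (T : SimpleGraph V) (d : ℕ) :
    ∃ C : ℝ, ∀ (H : Subgroup (T ≃g T)) (b : ℕ), Hyp T d H b → Std T d C H b := by
  have l0 := bas2_l_nonneg d
  have l2 : 0 < Real.log 2 := Real.log_pos (by norm_num)
  have p1 : 0 ≤ 6 * d * bas2_l d := by positivity
  have p2 : 0 ≤ 3 * bas2_l d * (6 * d * bas2_l d) / Real.log 2 := by positivity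
  refine ⟨1 + 6 * d * bas2_l d + 2 * bas2_l d + 3 * bas2_l d * (6 * d * bas2_l d) / Real.log 2,
    fun H b hH => ⟨hH, by linarith, fun x r hr => ?_, fun x r hr => ?_⟩⟩
  · refine (bas2_grow hH x hr).trans (mul_le_mul_of_nonneg_right (by linarith) (by positivity))
  · have _i := hH.finGb x 0
    have a1 := bas2_width hH x (j := r) (by omega)
    have a2 := ld_mono_right (Gb H x 0)
      (Y := Gb H x 1 ⊓ centralizer (Wd H b x r : Set (T ≃g T))) (Y' := Gb H x r)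
      (fun g hg => hH.deep_of_cent hg.1 hg.2)
    have a3 := mul_le_mul_of_nonneg_left (bas2_grow hH x hr) (show 0 ≤ 3 * bas2_l d by linarith)
    have a4 : ld (Gb H x 0) (Gb H x 1 ⊓ centralizer (Wd H b x r : Set (T ≃g T))) ≤
        2 * bas2_l d + 3 * bas2_l d * (6 * d * bas2_l d) / Real.log 2 * (r + 1) := by
      refine le_of_mul_le_mul_right (a1.trans ?_) l2
      have e : (2 * bas2_l d + 3 * bas2_l d * (6 * d * bas2_l d) / Real.log 2 * (r + 1)) *
          Real.log 2 = 2 * bas2_l d * Real.log 2 + 3 * bas2_l d * (6 * d * bas2_l d * (r + 1)) := by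
        field_simp
      rw [e]
      linarith
    have r0 := Nat.cast_nonneg (α := ℝ) r
    have a5 := mul_nonneg l0 r0
    have a6 := mul_nonneg p1 r0
    nlinarith

/-- index of the stabiliser of a ball around another vertex -/
theorem Std.ld_Gb {C : ℝ} (hH : Std T d C H b) {A : Subgroup (T ≃g T)} (hA : A ≤ Gb H x 0)
    {r : ℕ} (h : T.dist x y + r + 1 ≤ b) :
    ld A (Gb H y r) ≤ C * (T.dist x y + r + 1) := by
  have _i := hH.toHyp.finGb x 0
  have _i : Finite A := fin_of_le hA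
  have a := hH.width x (T.dist x y + r) h
  push_cast at a
  exact (ld_mono_right A (Gb_anti hH.tree le_rfl)).trans ((ld_mono_left _ hA).trans a)

theorem bas2_not_active (hT : T.IsTree) (hxy : T.Adj x y) (h0 : c ∈ Gb H x 0) (h1 : c ∈ Gb H y 0)
    (h : ¬ Active c x) : c ∈ Gb H x 1 := by
  refine (mem_Gb_succ hT).2 ⟨h0, fun v hv => (mem_Gb_zero hT).2 ⟨(mem_Gb.1 h0).1, ?_⟩⟩
  by_contra hn
  exact h ⟨((mem_Gb_zero hT).1 h0).2, ⟨y, hxy, ((mem_Gb_zero hT).1 h1).2⟩, v, hv, hn⟩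

/-- a family of normal subgroups of small index is locally transitive -/
theorem Hyp.ltr_of_index (hH : Hyp T d H b) (hxy : T.Adj x y) {N N' : Subgroup (T ≃g T)}
    {f : T ≃g T} (hf : f ∈ H) (hfx : f x = y) (hN' : N' = cj f N) (h1 : N ≤ Gb H x 0)
    (h2 : Gb H x 0 ≤ normalizer (N : Set (T ≃g T))) (h3 : N ⊓ Gb H y 0 ≤ N')
    (h4 : N' ⊓ Gb H x 0 ≤ N) (h5 : ld (Gb H x 0) N < b * Real.log 2) : LTr N x := by
  have hT := hH.tree
  by_cases ha : ∃ c ∈ N, Active c x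
  · exact hH.sp x N h1 h2 ha
  exfalso
  have g0 : Gb H y 0 = cj f (Gb H x 0) := by rw [cj_Gb hf, hfx]
  have n1 : N' ≤ Gb H y 0 := by rw [hN', g0]; exact cj_mono f h1
  have n2 : Gb H y 0 ≤ normalizer (N' : Set (T ≃g T)) := by
    intro g hg
    rw [g0, mem_cj] at hg
    have a := cj_eq_iff.2 (h2 hg)
    rw [← cj_eq_iff, hN', ← cj_mul, show g * f = f * (f⁻¹ * g * f) by group, cj_mul, a]
  have ha' : ∀ c ∈ N', ¬ Active c y := by
    intro c hc h
    rw [hN', mem_cj] at hc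
    have a := h.conj f⁻¹
    have e : f⁻¹ y = x := by
      rw [← hfx, ← RelIso.mul_apply, inv_mul_cancel]; rfl
    rw [inv_inv, e] at a
    exact ha ⟨_, hc, a⟩
  have e : N ⊓ Gb H x 1 = N' ⊓ Gb H y 1 := by
    apply le_antisymm
    · rintro g ⟨g1, g2⟩
      have g3 : g ∈ Gb H y 0 := bas2_Gb_adj hT hxy 0 g2
      have g4 : g ∈ N' := h3 ⟨g1, g3⟩
      exact ⟨g4, bas2_not_active hT hxy.symm g3 (h1 g1) (ha' g g4)⟩
    · rintro g ⟨g1, g2⟩
      have g3 : g ∈ Gb H x 0 := bas2_Gb_adj hT hxy.symm 0 g2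
      have g4 : g ∈ N := h4 ⟨g1, g3⟩
      exact ⟨g4, bas2_not_active hT hxy g3 (n1 g1) fun h => ha ⟨g, g4, h⟩⟩
  have e2 : N ⊓ Gb H x 1 = ⊥ := hH.et hxy
    (le_inf (inf_le_left.trans h1) (inf_le_right.trans (bas2_Gb_adj hT hxy 0))) le_rfl le_rfl
    (hH.ltr x) (hH.ltr y) (bas2_nz_inf h2 (Gb_nz_Gb hT x 1))
    (by rw [e]; exact bas2_nz_inf n2 (Gb_nz_Gb hT y 1))
  have _i := hH.finGb x 0
  have _i := hH.finGb x 1
  have a1 := ld_mono_left N (Gb_anti' (H := H) (x := x) (Nat.zero_le 1))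
  rw [ld_eq (Gb H x 1), inf_comm, e2, lc_bot] at a1
  have a2 := hH.lc_Gb_one x
  linarith

end Pool.Agent.PSV
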