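import Pool.Agent.Lib.MP_607584_al.PSV.Bas1

/-! The chain with jumps, part a: one compound step. -/

namespace Pool.Agent.PSV

open Subgroup
open scoped Pointwise commutatorElement

variable {V : Type} {T : SimpleGraph V} {H : Subgroup (T ≃g T)} {b d : ℕ} {o v w y q : V}

/-- some element of the top group of `y` is active at `v` -/
def Act (H : Subgroup (T ≃g T)) (b : ℕ) (y v : V) : Prop := ∃ z ∈ Zt H b y, Active z v

/-- no near jump -/
def NoN (H : Subgroup (T ≃g T)) (b L rm : ℕ) (o v y : V) : Prop :=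
  ∀ r, 1 ≤ r → r ≤ rm → ∀ q, Btw T o q y → L * r ≤ T.dist q y → Wd H b v r ≤ Gb H q 0

/-- no far jump -/
def NoF (H : Subgroup (T ≃g T)) (b L rm : ℕ) (o v y : V) : Prop :=
  ∀ r, r ≤ rm → ∀ z, Btw T o z v → L * r ≤ T.dist z v → Wd H b y r ≤ Gb H z r

theorem cha_tri (hT : T.IsTree) (u v w : V) : T.dist u w ≤ T.dist u v + T.dist v w :=
  hT.connected.dist_triangle

theorem cha_comm (T : SimpleGraph V) (u v : V) : T.dist u v = T.dist v u := SimpleGraph.dist_comm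

theorem cha_mem_H {z : T ≃g T} (hz : z ∈ Zt H b y) : z ∈ H := (mem_Gb.1 hz.1).1

/-- strong form of the projection lemma -/
theorem cha_proj (hT : T.IsTree) {z : V} (h : Btw T o z q) (v : V) :
    Btw T o z v ∨ T.dist z v + T.dist z q ≤ T.dist q v := by
  rcases le_total (T.dist q v) (T.dist z q) with h1 | h1
  · exact Or.inl (btw_of_far hT h h1)
  · obtain ⟨u, hu, hu'⟩ := btw_exists hT q v h1
    rcases btw_proj hT (btw_of_far hT h hu'.le) v with h2 | h2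
    · exact Or.inl h2
    · right
      unfold Btw at hu
      omega

theorem cha_first (hH : Hyp T d H b) {z : T ≃g T} (hz : z ∈ Zt H b y) (h1 : T.dist o y + 1 ≤ b)
    (h2 : z q ≠ q) : ∃ v', Btw T o v' q ∧ T.dist o v' < T.dist o q ∧ Active z v' := by
  obtain ⟨w, w', ha, hw, hw', -, hact⟩ := exists_active_path hH.tree (c := z) (o := o)
    (fun u hu => (mem_Gb.1 hz.1).2 u (by
      have := cha_tri hH.tree y o u
      have := cha_comm T y o
      omega)) h2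
  refine ⟨w, (btw_trans hH.tree hw hw').1, ?_, hact⟩
  have := SimpleGraph.dist_eq_one_iff_adj.2 ha
  unfold Btw at hw hw'
  omega

/-- a group generated by top groups that moves a point has a generator that moves a point -/
theorem cha_not_le {x z : V} {r r' : ℕ} (h : ¬ Wd H b x r ≤ Gb H z r') :
    ∃ w, T.dist x w ≤ r ∧ ∃ u ∈ Zt H b w, ∃ q, T.dist z q ≤ r' ∧ u q ≠ q := by
  by_contra hc
  refine h (Md_le_iff.2 fun w hw u hu => mem_Gb.2 ⟨cha_mem_H hu, fun q hq => ?_⟩)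
  by_contra hne
  exact hc ⟨w, hw, u, hu, q, hq, hne⟩

theorem cha_far (hH : Hyp T d H b) (o : V) (h : Act H b y v) : b ≤ T.dist o v + T.dist o y := by
  obtain ⟨z, hz, ha⟩ := h
  have := hH.far_of_active hz ha
  have := cha_tri hH.tree y o v
  have := cha_comm T y o
  omega

theorem Hyp.fjump (hH : Hyp T d H b) {z : T ≃g T} (hz : z ∈ Zt H b y) (h1 : T.dist o y + 1 ≤ b)
    (h2 : z q ≠ q) : ∃ v', Btw T o v' q ∧ T.dist o v' < T.dist o q ∧ Act H b y v' := by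
  obtain ⟨v', h3, h4, h5⟩ := cha_first hH hz h1 h2
  exact ⟨v', h3, h4, z, hz, h5⟩

theorem Hyp.pingpong (hH : Hyp T d H b) {z : T ≃g T} (hz : z ∈ Zt H b w)
    (h1 : T.dist o w + 1 ≤ b) (h2 : T.dist o q + 1 ≤ b) (h3 : z q ≠ q) :
    ∃ q0 y' q' v', Btw T o q0 q ∧ T.dist o q0 < T.dist o q ∧ T.dist q0 y' ≤ 1 ∧
      T.dist w q' ≤ 2 ∧ Btw T o v' q' ∧ T.dist o v' < T.dist o q' ∧ Act H b y' v' := by
  obtain ⟨q0, h4, h5, h6⟩ := cha_first hH hz h1 h3
  obtain ⟨y', h7, z', hz', hne⟩ := hH.pong (cha_mem_H hz) h6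
  have h8 : ∃ q', T.dist w q' ≤ 2 ∧ z' q' ≠ q' := by
    by_contra hc
    refine hne (mem_centralizer_iff.1 hz.2 z' (mem_Gb.2 ⟨cha_mem_H hz', fun q' hq' => ?_⟩)).symm
    by_contra hq
    exact hc ⟨q', hq', hq⟩
  obtain ⟨q', h8, h9⟩ := h8
  obtain ⟨v', h10, h11, h12⟩ := hH.fjump (o := o) hz' (by
    have := cha_tri hH.tree o q0 y'
    omega) h9
  exact ⟨q0, y', q', v', h4, h5, h7, h8, h10, h11, h12⟩

theorem Hyp.normal_step (hH : Hyp T d H b) {J : ℕ} (hJ : ∀ x, lc (Wd H b x 2) < J * Real.log 2)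
    (hb : 2 * J + 2 ≤ b) (h : Act H b y v) (hq : T.dist q y ≤ 2) :
    ∃ w, T.dist v w ≤ J ∧ ∃ z ∈ Zt H b w, z q ≠ q := by
  by_contra hc
  have h1 : Wd H b v J ≤ Gb H q 0 := by
    refine Md_le_iff.2 fun w hw z hz => (mem_Gb_zero hH.tree).2 ⟨cha_mem_H hz, ?_⟩
    by_contra hne
    exact hc ⟨w, hw, z, hz, hne⟩
  obtain ⟨u, hu, ha⟩ := h
  have := hH.finWd v (r := J) (by omega)
  have := hH.finWd q (r := 2) hH.two
  have h2 : rk (Wd H b v J) u ≤ lc (Wd H b q 2) := by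
    refine rk_le_lc fun m hm => ?_
    obtain ⟨hmH, hmq⟩ := (mem_Gb_zero hH.tree).1 (h1 hm)
    have h3 : m * u * m⁻¹ ∈ Zt H b (m y) := by
      rw [← cj_Zt hmH]
      exact conj_mem_cj.2 hu
    refine Zt_le_Md (S := Ball T q 2) ?_ h3
    have h4 := dist_map m q y
    rw [hmq] at h4
    change T.dist q (m y) ≤ 2
    omega
  have h5 := hH.rank_gap (cha_mem_H hu) ha hb
  have h6 := hJ q
  linarith

/-- the invariant of the compound step -/
structure cha_Inv (H : Subgroup (T ≃g T)) (b J L : ℕ) (o v y y0 v' y' : V) (ρ : ℕ) : Prop where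
  act : Act H b y' v'
  a : T.dist o v' + T.dist o y' + (L - 2) * ρ + 1 ≤ T.dist o v + T.dist o y + J
  b : T.dist o y' + 2 ≤ T.dist o y + ρ
  c : T.dist o v' + (J + 2) * T.dist o y' ≤ T.dist o v + (J + 2) * T.dist o y
  d : T.dist o y' + T.dist y' y0 ≤ max (T.dist o y + T.dist y y0 - 2) (T.dist o y0 + 2) + 2 * ρ
  e : T.dist o v' + T.dist v v' ≤ T.dist o v + 2 * (J + 2) + 6 * ρ
  f : T.dist o v' ≤ T.dist o v + J + 1 + 2 * ρ
  g : ρ = 0 → ∃ q', T.dist v q' ≤ J + 2 ∧ Btw T o v' q'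

theorem cha_start (hH : Hyp T d H b) {J L rm : ℕ}
    (hJ : ∀ x, lc (Wd H b x 2) < J * Real.log 2) (hb : 2 * J + 2 ≤ b) (y0 : V) (h : Act H b y v)
    (h1 : 3 * T.dist o v + 2 * T.dist o y + 3 * J + rm + 4 ≤ 3 * b)
    (h2 : T.dist o v + 2 * T.dist o y + J + rm + 4 ≤ 2 * b) :
    ∃ v' y', cha_Inv H b J L o v y y0 v' y' 0 := by
  have hT := hH.tree
  have hfar := cha_far hH o h
  obtain ⟨q, hq, hq'⟩ := btw_exists hT o y (r := T.dist o y - 2) (by omega)
  have hq2 : T.dist o q + T.dist q y = T.dist o y := hq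
  obtain ⟨w, hw, z, hz, hzq⟩ := hH.normal_step hJ hb h (q := q) (by omega)
  have t1 := cha_tri hT o v w
  obtain ⟨q0, y', q', v', a1, a2, a3, a4, a5, a6, a7⟩ :=
    hH.pingpong (o := o) hz (by omega) (by omega) hzq
  have t2 := cha_tri hT o q0 y'
  have t3 := cha_tri hT o w q'
  have t4 := cha_tri hT v w q'
  have t5 := cha_tri hT o v q'
  have t6 := cha_tri hT v q' v'
  have t7 := cha_comm T q' v'
  have t8 := cha_tri hT y' q0 y0
  have t9 := cha_comm T y' q0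
  have a5' : T.dist o v' + T.dist v' q' = T.dist o q' := a5
  have b1 := (btw_trans hT a1 hq).1
  have b1' : T.dist o q0 + T.dist q0 y = T.dist o y := b1
  have m1 : (J + 2) * (T.dist o y' + 2) ≤ (J + 2) * T.dist o y :=
    Nat.mul_le_mul_left _ (by omega)
  rw [mul_add] at m1
  refine ⟨v', y', a7, by omega, by omega, by omega, ?_, by omega, by omega,
    fun _ => ⟨q', by omega, a5⟩⟩
  rcases cha_proj hT b1 y0 with b2 | b2
  · unfold Btw at b2
    omega
  · omega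

theorem cha_njump (hH : Hyp T d H b) {J L rm ρ : ℕ} (hL : J + 4 ≤ L) {y0 v1 y1 : V}
    (h1 : 3 * T.dist o v + 2 * T.dist o y + 3 * J + rm + 4 ≤ 3 * b)
    (h2 : T.dist o v + 2 * T.dist o y + J + rm + 4 ≤ 2 * b)
    (hI : cha_Inv H b J L o v y y0 v1 y1 ρ) (hN : ¬ NoN H b L rm o v1 y1) :
    ∃ v' y' ρ', cha_Inv H b J L o v y y0 v' y' ρ' ∧
      T.dist o v' + T.dist o y' < T.dist o v1 + T.dist o y1 := by
  have hT := hH.tree
  have hfar := cha_far hH o hI.act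
  obtain ⟨-, ia, ib, ic, id, ie, ig, -⟩ := hI
  unfold NoN at hN
  push Not at hN
  obtain ⟨r, r1, r2, q, hq, hr, hN⟩ := hN
  obtain ⟨w, hw, z, hz, q1, hq1, hzq⟩ := cha_not_le hN
  have e : q = q1 := (hT.connected.dist_eq_zero_iff).1 (by omega)
  subst e
  obtain ⟨K, rfl⟩ : ∃ K, L = K + 2 := ⟨L - 2, by omega⟩
  rw [Nat.add_sub_cancel] at ia
  have hq2 : T.dist o q + T.dist q y1 = T.dist o y1 := hq
  have m0 : 2 * ρ ≤ K * ρ := Nat.mul_le_mul_right _ (by omega)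
  have m1 : 2 * r ≤ K * r := Nat.mul_le_mul_right _ (by omega)
  rw [add_mul] at hr
  have t1 := cha_tri hT o v1 w
  obtain ⟨q0, y', q', v', a1, a2, a3, a4, a5, a6, a7⟩ :=
    hH.pingpong (o := o) hz (by omega) (by omega) hzq
  have t2 := cha_tri hT o q0 y'
  have t3 := cha_tri hT o w q'
  have t4 := cha_tri hT v1 w q'
  have t5 := cha_tri hT o v1 q'
  have t6 := cha_tri hT v1 q' v'
  have t7 := cha_comm T q' v'
  have t8 := cha_tri hT y' q0 y0
  have t9 := cha_comm T y' q0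
  have t10 := cha_tri hT v v1 v'
  have a5' : T.dist o v' + T.dist v' q' = T.dist o q' := a5
  have b1 := (btw_trans hT a1 hq).1
  have b1' : T.dist o q0 + T.dist q0 y1 = T.dist o y1 := b1
  have m2 : (J + 2) * (T.dist o y' + r) ≤ (J + 2) * T.dist o y1 :=
    Nat.mul_le_mul_left _ (by omega)
  have m3 : 2 * r ≤ (J + 2) * r := Nat.mul_le_mul_right _ (by omega)
  rw [mul_add] at m2
  refine ⟨v', y', ρ + r, ⟨a7, ?_, by omega, by omega, ?_, by omega, by omega,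
    fun h => by omega⟩, by omega⟩
  · rw [Nat.add_sub_cancel, mul_add]
    omega
  · rcases cha_proj hT b1 y0 with b2 | b2
    · unfold Btw at b2
      omega
    · omega

theorem cha_fjump (hH : Hyp T d H b) {J L rm ρ : ℕ} (hL : J + 4 ≤ L) {y0 v1 y1 : V}
    (h2 : T.dist o v + 2 * T.dist o y + J + rm + 4 ≤ 2 * b)
    (hI : cha_Inv H b J L o v y y0 v1 y1 ρ) (hF : ¬ NoF H b L rm o v1 y1) :
    ∃ v' y' ρ', cha_Inv H b J L o v y y0 v' y' ρ' ∧
      T.dist o v' + T.dist o y' < T.dist o v1 + T.dist o y1 := by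
  have hT := hH.tree
  have hfar := cha_far hH o hI.act
  obtain ⟨-, ia, ib, ic, id, ie, ig, ih⟩ := hI
  unfold NoF at hF
  push Not at hF
  obtain ⟨r, r2, x, hx, hr, hF⟩ := hF
  obtain ⟨y', hy', z, hz, q, hq, hzq⟩ := cha_not_le hF
  obtain ⟨K, rfl⟩ : ∃ K, L = K + 2 := ⟨L - 2, by omega⟩
  rw [Nat.add_sub_cancel] at ia
  have hx2 : T.dist o x + T.dist x v1 = T.dist o v1 := hx
  have m0 : 2 * ρ ≤ K * ρ := Nat.mul_le_mul_right _ (by omega)
  have m1 : (J + 2) * r ≤ K * r := Nat.mul_le_mul_right _ (by omega)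
  have m3 : 2 * r ≤ (J + 2) * r := Nat.mul_le_mul_right _ (by omega)
  rw [add_mul] at hr
  have t1 := cha_tri hT o y1 y'
  obtain ⟨v', a1, a2, a3⟩ := hH.fjump (o := o) hz (by omega) hzq
  have a1' : T.dist o v' + T.dist v' q = T.dist o q := a1
  have t2 := cha_tri hT o x q
  have t3 := cha_tri hT y' y1 y0
  have t4 := cha_comm T y' y1
  have t5 := cha_tri hT v v1 v'
  have t6 := cha_tri hT v1 x v'
  have t7 := cha_tri hT x q v'
  have t8 := cha_comm T v1 x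
  have t9 := cha_comm T q v'
  have m2 : (J + 2) * T.dist o y' ≤ (J + 2) * (T.dist o y1 + r) :=
    Nat.mul_le_mul_left _ (by omega)
  rw [mul_add] at m2
  refine ⟨v', y', ρ + r, ⟨a3, ?_, by omega, by omega, by omega, by omega, by omega,
    fun h => ?_⟩, by omega⟩
  · rw [Nat.add_sub_cancel, mul_add]
    omega
  · obtain ⟨q', b1, b2⟩ := ih (by omega)
    have e : x = q := (hT.connected.dist_eq_zero_iff).1 (by omega)
    subst e
    exact ⟨q', b1, (btw_trans hT (btw_trans hT a1 hx).1 b2).1⟩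

/-- a normal step followed by all available jumps; `ρ` is the sum of the radii of the jumps -/
theorem Hyp.compound (hH : Hyp T d H b) {J L rm : ℕ}
    (hJ : ∀ x, lc (Wd H b x 2) < J * Real.log 2) (hJ1 : 1 ≤ J) (hb : 2 * J + 2 ≤ b)
    (hL : J + 4 ≤ L) (y0 : V) (h : Act H b y v)
    (h1 : 3 * T.dist o v + 2 * T.dist o y + 3 * J + rm + 4 ≤ 3 * b)
    (h2 : T.dist o v + 2 * T.dist o y + J + rm + 4 ≤ 2 * b) :
    ∃ v' y' ρ, Act H b y' v' ∧ NoN H b L rm o v' y' ∧ NoF H b L rm o v' y' ∧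
      T.dist o v' + T.dist o y' + (L - 2) * ρ + 1 ≤ T.dist o v + T.dist o y + J ∧
      T.dist o y' + 2 ≤ T.dist o y + ρ ∧
      T.dist o v' + (J + 2) * T.dist o y' ≤ T.dist o v + (J + 2) * T.dist o y ∧
      T.dist o y' + T.dist y' y0 ≤
        max (T.dist o y + T.dist y y0 - 2) (T.dist o y0 + 2) + 2 * ρ ∧
      T.dist o v' + T.dist v v' ≤ T.dist o v + 2 * (J + 2) + 6 * ρ ∧
      T.dist o v' ≤ T.dist o v + J + 1 + 2 * ρ ∧
      (ρ = 0 → ∃ q', T.dist v q' ≤ J + 2 ∧ Btw T o v' q') := by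
  have key : ∀ (n : ℕ) (v1 y1 : V) (ρ : ℕ), T.dist o v1 + T.dist o y1 < n →
      cha_Inv H b J L o v y y0 v1 y1 ρ → ∃ v' y' ρ', cha_Inv H b J L o v y y0 v' y' ρ' ∧
        NoN H b L rm o v' y' ∧ NoF H b L rm o v' y' := by
    intro n
    induction n with
    | zero => intro v1 y1 ρ hn; omega
    | succ n ih =>
      intro v1 y1 ρ hn hI
      by_cases hN : NoN H b L rm o v1 y1
      · by_cases hF : NoF H b L rm o v1 y1
        · exact ⟨v1, y1, ρ, hI, hN, hF⟩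
        · obtain ⟨v', y', ρ', hI', hlt⟩ := cha_fjump hH hL h2 hI hF
          exact ih v' y' ρ' (by omega) hI'
      · obtain ⟨v', y', ρ', hI', hlt⟩ := cha_njump hH hL h1 h2 hI hN
        exact ih v' y' ρ' (by omega) hI'
  obtain ⟨v1, y1, hI⟩ := cha_start (L := L) hH hJ hb y0 h h1 h2
  obtain ⟨v', y', ρ, hI', hN, hF⟩ := key _ v1 y1 0 (Nat.lt_succ_self _) hI
  exact ⟨v', y', ρ, hI'.act, hN, hF, hI'.a, hI'.b, hI'.c, hI'.d, hI'.e, hI'.f, hI'.g⟩

end Pool.Agent.PSV
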