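import Pool.Agent.Lib.MP_607584_al.PSV.ChA

/-! The chain with jumps, part b: good positions on the final geodesic. -/

namespace Pool.Agent.PSV

open Subgroup
open scoped Pointwise commutatorElement

variable {V : Type} {T : SimpleGraph V}

/-- the output of the chain -/
structure GData (H : Subgroup (T ≃g T)) (b J L N rm : ℕ) where
  o : V
  y0 : V
  x : ℕ → V
  R : ℕ
  good : Finset ℕ
  v : ℕ → V
  y : ℕ → V
  geo : ∀ s t, s ≤ R → t ≤ R → T.dist (x s) (x t) = Nat.dist s t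
  xo : x R = o
  hR : 2 * N ≤ R
  hR' : R + 4 * rm + 4 ≤ b
  lt : ∀ p ∈ good, p < N
  card : N ≤ 2 * good.card
  act : ∀ p ∈ good, Act H b (y p) (v p)
  near : ∀ p ∈ good, T.dist (v p) (x p) ≤ J + 2
  xi : ∀ p ∈ good, T.dist o (y p) + T.dist (y p) y0 ≤ T.dist o y0 + 2
  noN : ∀ p ∈ good, NoN H b L rm o (v p) (y p)
  noF : ∀ p ∈ good, NoF H b L rm o (v p) (y p)
  phi : ∀ p ∈ good, ∀ p' ∈ good, p < p' → T.dist o (v p) + (J + 2) * T.dist o (y p) ≤
    T.dist o (v p') + (J + 2) * T.dist o (y p')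

/-- a point of `[o, q]` off `[o, v]` lies on `[v, q]` -/
lemma chb_tripod (hT : T.IsTree) {o q v : V} (k : ℕ) : ∀ z, Btw T o z q → T.dist z q = k →
    ¬Btw T o z v → T.dist z v + k ≤ T.dist q v := by
  induction k with
  | zero =>
    intro z _ h _
    rw [(hT.connected.dist_eq_zero_iff).1 h]
    exact le_rfl
  | succ k ih =>
    intro z h1 h2 h3
    obtain ⟨z', a1, a2⟩ := btw_exists hT o q (r := T.dist o z + 1) (by unfold Btw at h1; omega)
    have a3 := btw_of_le hT h1 a1 (by omega)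
    have a4 := ih z' a1 (by unfold Btw at h1 a1; omega) fun h => h3 (btw_trans hT a3 h).1
    have a5 := (btw_proj hT a3 v).resolve_left h3
    have a6 := hT.dist_ne_of_adj v (SimpleGraph.dist_eq_one_iff_adj.1
      (show T.dist z z' = 1 by unfold Btw at a3; omega))
    rw [SimpleGraph.dist_comm (u := v), SimpleGraph.dist_comm (u := v)] at a6
    omega

/-- the conclusion of a compound step -/
def chb_St (H : Subgroup (T ≃g T)) (b J L rm : ℕ) (o y0 v y v' y' : V) (ρ : ℕ) : Prop :=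
  Act H b y' v' ∧ NoN H b L rm o v' y' ∧ NoF H b L rm o v' y' ∧
    T.dist o v' + T.dist o y' + (L - 2) * ρ + 1 ≤ T.dist o v + T.dist o y + J ∧
    T.dist o y' + 2 ≤ T.dist o y + ρ ∧
    T.dist o v' + (J + 2) * T.dist o y' ≤ T.dist o v + (J + 2) * T.dist o y ∧
    T.dist o y' + T.dist y' y0 ≤
      max (T.dist o y + T.dist y y0 - 2) (T.dist o y0 + 2) + 2 * ρ ∧
    T.dist o v' + T.dist v v' ≤ T.dist o v + 2 * (J + 2) + 6 * ρ ∧
    T.dist o v' ≤ T.dist o v + J + 1 + 2 * ρ ∧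
    (ρ = 0 → ∃ q', T.dist v q' ≤ J + 2 ∧ Btw T o v' q')

lemma chb_far {H : Subgroup (T ≃g T)} {b d : ℕ} (hH : Hyp T d H b) (o : V) {v y : V}
    (h : Act H b y v) : b ≤ T.dist o v + T.dist o y := by
  obtain ⟨z, h1, h2⟩ := h
  have := hH.tree.connected.dist_triangle (u := y) (v := o) (w := v)
  rw [SimpleGraph.dist_comm (v := o)] at this
  have := hH.far_of_active h1 h2
  omega

/-- the sequence of compound steps -/
lemma chb_seq {H : Subgroup (T ≃g T)} {b d J L rm n : ℕ} (hH : Hyp T d H b)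
    (hJ : ∀ x, lc (Wd H b x 2) < J * Real.log 2) (hJ1 : 1 ≤ J) (hL : 8 * (J + 4) ^ 2 ≤ L)
    (hn : 4 * (J + 2) ≤ n) (hb : 8 * ((J + 3) * n) + 8 * rm ≤ b) {o v0 y0 : V}
    (h0 : Act H b y0 v0) (h1 : T.dist o v0 = b / 2) (h2 : T.dist o y0 = b - b / 2) :
    ∃ (v y : ℕ → V) (ρ : ℕ → ℕ), v 0 = v0 ∧ y 0 = y0 ∧
      (∀ k < n, chb_St H b J L rm o y0 (v k) (y k) (v (k + 1)) (y (k + 1)) (ρ k)) ∧
      7 * (J + 4) * ∑ k ∈ Finset.range n, ρ k ≤ n ∧
      T.dist o (v n) ≤ b / 2 + (J + 3) * n ∧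
      b / 2 + 2 * n ≤ T.dist o (v n) + ∑ k ∈ Finset.range n, ρ k := by
  have hK : 4 * (J + 3) ≤ (J + 3) * n := by nlinarith
  have hL' : 7 * (J + 4) * (J + 4) ≤ L - 2 := by
    have : 25 ≤ (J + 4) * (J + 4) := by nlinarith
    rw [sq] at hL
    rw [mul_assoc]
    omega
  have step : ∀ s : V × V, ∃ s' : V × V, ∃ ρ, Act H b s.2 s.1 →
      3 * T.dist o s.1 + 2 * T.dist o s.2 + 3 * J + rm + 4 ≤ 3 * b →
      T.dist o s.1 + 2 * T.dist o s.2 + J + rm + 4 ≤ 2 * b →
      chb_St H b J L rm o y0 s.1 s.2 s'.1 s'.2 ρ := fun s => by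
    by_cases h : Act H b s.2 s.1 ∧ 3 * T.dist o s.1 + 2 * T.dist o s.2 + 3 * J + rm + 4 ≤ 3 * b ∧
      T.dist o s.1 + 2 * T.dist o s.2 + J + rm + 4 ≤ 2 * b
    · obtain ⟨v', y', ρ, h⟩ := hH.compound (rm := rm) hJ hJ1 (by omega)
        (show J + 4 ≤ L by nlinarith) y0 h.1 h.2.1 h.2.2
      exact ⟨(v', y'), ρ, fun _ _ _ => h⟩
    · exact ⟨s, 0, fun a b c => absurd ⟨a, b, c⟩ h⟩
  choose F ρ hF using step
  let s : ℕ → V × V := fun k => F^[k] (v0, y0)
  have hs : ∀ k, s (k + 1) = F (s k) := fun k => Function.iterate_succ_apply' _ _ _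
  let P : ℕ → ℕ := fun k => ∑ t ∈ Finset.range k, ρ (s t)
  have bound : ∀ k, Act H b (s k).2 (s k).1 →
      T.dist o (s k).1 + T.dist o (s k).2 + (L - 2) * P k + k ≤ b + J * k →
      7 * (J + 4) * P k ≤ k := fun k a1 a2 => by
    have := chb_far hH o a1
    have := Nat.mul_le_mul_right (P k) hL'
    refine Nat.le_of_mul_le_mul_right (c := J + 4) ?_ (by omega)
    nlinarith
  have st : ∀ k ≤ n, Act H b (s k).2 (s k).1 → 7 * (J + 4) * P k ≤ k →
      T.dist o (s k).1 ≤ b / 2 + (J + 1) * k + 2 * P k →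
      T.dist o (s k).2 + 2 * k ≤ b - b / 2 + P k →
      chb_St H b J L rm o y0 (s k).1 (s k).2 (s (k + 1)).1 (s (k + 1)).2 (ρ (s k)) :=
    fun k hk a1 a2 a3 a4 => by
      have a5 : P k ≤ k := by nlinarith
      have a6 := Nat.mul_le_mul_left (J + 3) hk
      have a7 : (J + 3) * k = (J + 1) * k + 2 * k := by ring
      rw [hs]
      exact hF _ a1 (by omega) (by omega)
  have inv : ∀ k ≤ n, Act H b (s k).2 (s k).1 ∧
      T.dist o (s k).1 + T.dist o (s k).2 + (L - 2) * P k + k ≤ b + J * k ∧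
      T.dist o (s k).1 ≤ b / 2 + (J + 1) * k + 2 * P k ∧
      T.dist o (s k).2 + 2 * k ≤ b - b / 2 + P k := by
    intro k
    induction k with
    | zero =>
      intro _
      refine ⟨h0, ?_, ?_, ?_⟩ <;> simp [s, P, h1, h2]
      omega
    | succ k ih =>
      intro hk
      obtain ⟨a1, a2, a3, a4⟩ := ih (by omega)
      obtain ⟨b1, -, -, b2, b3, -, -, -, b4, -⟩ := st k (by omega) a1 (bound k a1 a2) a3 a4
      have e : P (k + 1) = P k + ρ (s k) := Finset.sum_range_succ _ _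
      rw [e, mul_add, mul_add_one, mul_add_one]
      exact ⟨b1, by omega, by omega, by omega⟩
  obtain ⟨a1, a2, a3, a4⟩ := inv n le_rfl
  have a5 := bound n a1 a2
  refine ⟨fun k => (s k).1, fun k => (s k).2, fun k => ρ (s k), rfl, rfl, fun k hk => ?_, a5, ?_,
    ?_⟩
  · obtain ⟨a1, a2, a3, a4⟩ := inv k hk.le
    exact st k hk.le a1 (bound k a1 a2) a3 a4
  · have a6 : P n ≤ n := by nlinarith
    have a7 : (J + 3) * n = (J + 1) * n + 2 * n := by ring
    beta_reduce
    omega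
  · have := chb_far hH o a1
    change _ ≤ T.dist o (s n).1 + P n
    omega

theorem exists_GData (J L : ℕ) (hJ1 : 1 ≤ J) (hL : 8 * (J + 4) ^ 2 ≤ L) :
    ∃ c : ℕ, ∀ (d : ℕ) (H : Subgroup (T ≃g T)) (b N0 rm : ℕ), Hyp T d H b →
      (∀ x, lc (Wd H b x 2) < J * Real.log 2) → 1 ≤ N0 → c * (N0 + rm) ≤ b →
      ∃ N, N0 ≤ N ∧ N ≤ c * N0 ∧ Nonempty (GData H b J L N rm) := by
  classical
  refine ⟨8 * ((J + 3) * (4 * J + 9)), fun d H b N0 rm hH hJ hN hb => ?_⟩
  have hT := hH.tree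
  obtain ⟨n, hn⟩ : ∃ n, n = N0 + 4 * (J + 2) := ⟨_, rfl⟩
  have c1 : (J + 3) * n ≤ (J + 3) * (4 * J + 9) * N0 := by
    rw [mul_assoc]
    exact Nat.mul_le_mul_left _ (by nlinarith)
  have c2 : 8 * ((J + 3) * n) + 8 * rm ≤ b := by
    have : rm ≤ (J + 3) * (4 * J + 9) * rm := Nat.le_mul_of_pos_left _ (by positivity)
    rw [mul_assoc, mul_add] at hb
    omega
  have c3 : 4 ≤ (J + 3) * n := by nlinarith
  obtain ⟨y0⟩ := hT.connected.nonempty
  obtain ⟨z0, hz0, v0, hv0, ha0⟩ := hH.exists_top y0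
  obtain ⟨o, ho, ho'⟩ := btw_exists hT y0 v0 (r := b - b / 2) (by omega)
  rw [SimpleGraph.dist_comm] at ho'
  have ho'' : T.dist o v0 = b / 2 := by
    rw [Btw, SimpleGraph.dist_comm] at ho
    omega
  obtain ⟨v, y, ρ, e1, e2, hs, p1, p2, p3⟩ := chb_seq hH hJ hJ1 hL (n := n) (by omega) c2
    ⟨z0, hz0, ha0⟩ ho'' ho'
  obtain ⟨x, x0, xR, geo⟩ := exists_geo hT (v n) o
  rw [SimpleGraph.dist_comm] at xR geo
  obtain ⟨R, hR⟩ : ∃ R, R = T.dist o (v n) := ⟨_, rfl⟩
  rw [← hR] at xR geo p2 p3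
  obtain ⟨P, hP⟩ : ∃ P : ℕ → ℕ, ∀ k, P k = ∑ t ∈ Finset.range k, ρ t := ⟨_, fun _ => rfl⟩
  rw [← hP] at p1 p3
  have p4 : (6 * J + 19) * P n ≤ n := (Nat.mul_le_mul_right _ (by omega)).trans p1
  have p5 : P n ≤ n := by nlinarith
  have rad : ∀ t ≤ R, T.dist o (x t) = R - t := fun t ht => by
    rw [← xR, geo R t le_rfl ht, Nat.dist_eq_sub_of_le_right ht]
  have xx : ∀ s t, s ≤ t → t ≤ R → Btw T o (x t) (x s) := fun s t h1 h2 => by
    rw [Btw, rad t h2, rad s (by omega), geo t s h2 (by omega), Nat.dist_eq_sub_of_le_right h1]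
    omega
  let τ : ℕ → ℕ := fun p => Nat.findGreatest (fun k => ¬Btw T o (x p) (v k)) n
  have t1 : ∀ p < R - b / 2, ¬Btw T o (x p) (v (τ p)) := fun p hp =>
    Nat.findGreatest_spec (P := fun k => ¬Btw T o (x p) (v k)) (Nat.zero_le n) (by
      rw [Btw, rad p (by omega), e1]
      omega)
  have t2 : ∀ p < R - b / 2, τ p < n := fun p hp =>
    (Nat.findGreatest_le n).lt_of_ne fun h => t1 p hp (by
      rw [show τ p = n from h, ← x0]
      exact xx 0 p (Nat.zero_le _) (by omega))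
  have t3 : ∀ p < R - b / 2, Btw T o (x p) (v (τ p + 1)) := fun p hp =>
    not_not.1 (Nat.findGreatest_is_greatest (Nat.lt_succ_self _) (t2 p hp))
  have t4 : ∀ p p', p < p' → p' < R - b / 2 → τ p' ≤ τ p := fun p p' h hp =>
    Nat.le_findGreatest (t2 p' hp).le fun h' =>
      t1 p' hp (btw_trans hT (xx p p' h.le (by omega)) h').1
  have anti : ∀ k l, k ≤ l → l ≤ n → T.dist o (v l) + (J + 2) * T.dist o (y l) ≤
      T.dist o (v k) + (J + 2) * T.dist o (y k) := fun k l h => by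
    induction l, h using Nat.le_induction with
    | base => exact fun _ => le_rfl
    | succ l _ ih => exact fun h => (hs l h).2.2.2.2.2.1.trans (ih (by omega))
  let C : ℕ → Prop := fun k => 1 ≤ k ∧ ρ k = 0 ∧
    T.dist o (y k) + T.dist (y k) y0 ≤ T.dist o y0 + 2
  have prev : ∀ k ≤ n, 1 ≤ k →
      Act H b (y k) (v k) ∧ NoN H b L rm o (v k) (y k) ∧ NoF H b L rm o (v k) (y k) := by
    rintro (_ | k) h h'
    · omega
    · exact ⟨(hs k h).1, (hs k h).2.1, (hs k h).2.2.1⟩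
  have dirty : ∀ k ≤ n, ((Finset.range k).filter fun t => ¬C t).card +
      (T.dist o (y k) + T.dist (y k) y0 - (T.dist o y0 + 2)) ≤ min k 1 + 3 * P k := by
    intro k
    induction k with
    | zero => simp [e2]
    | succ k ih =>
      intro hk
      have a1 := ih (by omega)
      have a2 := (hs k hk).2.2.2.2.2.2.1
      have a3 : P (k + 1) = P k + ρ k := by rw [hP, hP, Finset.sum_range_succ]
      rw [Finset.range_add_one, Finset.filter_insert]
      split_ifs with h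
      · omega
      · rw [Finset.card_insert_of_notMem (by simp)]
        simp only [C] at h
        omega
  have fib : ∀ k < n, (((Finset.range (R - b / 2)).filter fun p => ¬C (τ p)).filter
      fun p => τ p = k).card ≤ J + 2 + 3 * ρ k := fun k hk => by
    refine (Finset.card_le_card_of_injOn (t := Finset.range (J + 2 + 3 * ρ k))
      (fun p => T.dist o (v (k + 1)) + p - R) (fun p hp => ?_) fun p hp q hq h => ?_).trans
      (Finset.card_range _).le
    · obtain ⟨a1, rfl⟩ := Finset.mem_filter.1 (Finset.mem_coe.1 hp)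
      have a2 := Finset.mem_range.1 (Finset.mem_filter.1 a1).1
      have a3 := t1 p a2
      have a4 := t3 p a2
      have a5 := chb_tripod hT _ _ a4 rfl a3
      have a6 := (hs _ hk).2.2.2.2.2.2.2.1
      have a7 := hT.connected.dist_triangle (u := o) (v := x p) (w := v (τ p))
      rw [SimpleGraph.dist_comm (u := v (τ p + 1))] at a5
      rw [Btw, rad p (by omega)] at a3 a4
      rw [rad p (by omega)] at a7
      exact Finset.mem_coe.2 (Finset.mem_range.2 (by beta_reduce; omega))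
    · obtain ⟨a1, a2⟩ := Finset.mem_filter.1 (Finset.mem_coe.1 hp)
      obtain ⟨b1, b2⟩ := Finset.mem_filter.1 (Finset.mem_coe.1 hq)
      have a3 := Finset.mem_range.1 (Finset.mem_filter.1 a1).1
      have b3 := Finset.mem_range.1 (Finset.mem_filter.1 b1).1
      have a4 := t3 p a3
      have b4 := t3 q b3
      rw [Btw, rad _ (by omega), a2] at a4
      rw [Btw, rad _ (by omega), b2] at b4
      simp only at h
      omega
  have bad : ((Finset.range (R - b / 2)).filter fun p => ¬C (τ p)).card ≤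
      (J + 2) * (1 + 3 * P n) + 3 * P n := by
    rw [Finset.card_eq_sum_card_fiberwise (f := τ) (t := (Finset.range n).filter fun t => ¬C t)
      fun p hp => by
        obtain ⟨a1, a2⟩ := Finset.mem_filter.1 (Finset.mem_coe.1 hp)
        exact Finset.mem_coe.2 (Finset.mem_filter.2
          ⟨Finset.mem_range.2 (t2 p (Finset.mem_range.1 a1)), a2⟩)]
    refine (Finset.sum_le_sum fun k hk =>
      fib k (Finset.mem_range.1 (Finset.mem_filter.1 hk).1)).trans ?_
    rw [Finset.sum_add_distrib, Finset.sum_const, smul_eq_mul, mul_comm, ← Finset.mul_sum]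
    refine add_le_add (Nat.mul_le_mul_left _ ?_) (Nat.mul_le_mul_left _ ?_)
    · have := dirty n le_rfl
      omega
    · rw [hP]
      exact Finset.sum_le_sum_of_subset (Finset.filter_subset _ _)
  have mem : ∀ p ∈ (Finset.range (R - b / 2)).filter fun p => C (τ p),
      p < R - b / 2 ∧ C (τ p) := fun p hp => by simpa using hp
  refine ⟨R - b / 2, by omega, by rw [mul_assoc]; omega, ⟨⟨o, y0, x, R,
    (Finset.range (R - b / 2)).filter fun p => C (τ p), fun p => v (τ p), fun p => y (τ p), geo, xR,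
    by omega, by omega, fun p hp => (mem p hp).1, ?_,
    fun p hp => (prev _ (t2 p (mem p hp).1).le (mem p hp).2.1).1, fun p hp => ?_,
    fun p hp => (mem p hp).2.2.2, fun p hp => (prev _ (t2 p (mem p hp).1).le (mem p hp).2.1).2.1,
    fun p hp => (prev _ (t2 p (mem p hp).1).le (mem p hp).2.1).2.2,
    fun p hp p' hp' h => anti _ _ (t4 p p' h (mem p' hp').1) (t2 p (mem p hp).1).le⟩⟩⟩
  · have a1 := Finset.card_filter_add_card_filter_not (s := Finset.range (R - b / 2))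
      fun p => C (τ p)
    rw [Finset.card_range] at a1
    have a2 : 2 * ((J + 2) * (1 + 3 * P n) + 3 * P n) + P n =
      2 * (J + 2) + (6 * J + 19) * P n := by ring
    omega
  · obtain ⟨a1, a2⟩ := mem p hp
    obtain ⟨q', b1, b2⟩ := (hs _ (t2 p a1)).2.2.2.2.2.2.2.2.2 a2.2.1
    have := (btw_proj hT (btw_trans hT (t3 p a1) b2).1 (v (τ p))).resolve_left (t1 p a1)
    rw [SimpleGraph.dist_comm, SimpleGraph.dist_comm (u := q')] at this
    exact this.trans b1

end Pool.Agent.PSV
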