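import Pool.Agent.Lib.MP_607584_al.PSV.ChB

/-! The chain with jumps, part c: the far groups. -/

namespace Pool.Agent.PSV

open Subgroup
open scoped Pointwise commutatorElement

variable {V : Type} {T : SimpleGraph V}

/-- a geodesic with a filtered family of groups that fix cones -/
structure UData (H : Subgroup (T ≃g T)) (b L N : ℕ) where
  x : ℕ → V
  good : Finset ℕ
  U : ℕ → Subgroup (T ≃g T)
  geo : ∀ s t, s ≤ 2 * N → t ≤ 2 * N → T.dist (x s) (x t) = Nat.dist s t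
  lt : ∀ p ∈ good, p < N
  card : N ≤ 2 * good.card
  mono : Monotone U
  cone : ∀ t t' r, t + L * r ≤ t' → t' ≤ 2 * N → r ≤ N → U t ≤ Gb H (x t') r
  act : ∀ p ∈ good, ¬ U (p + L) ≤ Gb H (x p) L
  far : ∀ (i ρ g t k : ℕ) (m : T ≃g T), i < N → 1 ≤ g → L * (ρ + g) ≤ i → k ≤ N →
    t + L * (k + g) ≤ i →
    (∀ s, i ≤ s + L * (ρ + g) → s + g ≤ i → ∃ p ∈ good, s ≤ p ∧ p < s + g) →
    m ∈ Wd H b (x i) ρ → m ∉ centralizer (U t : Set (T ≃g T)) →
    k * Real.log 2 ≤ rk (U (t + L * (k + g))) m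

theorem chc_tri (hT : T.IsTree) (u v w : V) : T.dist u w ≤ T.dist u v + T.dist v w :=
  hT.connected.dist_triangle

theorem chc_comm (u v : V) : T.dist u v = T.dist v u := SimpleGraph.dist_comm

theorem chc_eq (hT : T.IsTree) {u v : V} (h : T.dist u v = 0) : u = v :=
  hT.connected.dist_eq_zero_iff.1 h

/-- triangles in a tree are thin -/
theorem chc_thin (hT : T.IsTree) {o z q : V} (h : Btw T o z q) (n : ℕ) :
    ∀ v, T.dist v z = n → Btw T o z v ∨ Btw T q z v := by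
  have h' : Btw T q z o := by
    unfold Btw at h ⊢
    rw [chc_comm q z, chc_comm z o, chc_comm q o]
    omega
  induction n with
  | zero =>
    intro v hv
    left
    rw [chc_eq hT hv]
    unfold Btw
    rw [SimpleGraph.dist_self, Nat.add_zero]
  | succ n ih =>
    intro v hv
    rcases Nat.eq_zero_or_pos n with hn | hn
    · subst hn
      by_contra hc
      obtain ⟨c1, c2⟩ := not_or.1 hc
      unfold Btw at h c1 c2
      have t1 := chc_tri hT o z v
      have t2 := chc_tri hT q z v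
      have t3 := chc_tri hT o v q
      have e1 := chc_comm (T := T) z v
      have e2 := chc_comm (T := T) q v
      have e3 := chc_comm (T := T) q z
      have hv' : Btw T o v q := by
        unfold Btw
        omega
      have : v = z := btw_unique hT hv' h (by omega)
      rw [this, SimpleGraph.dist_self] at hv
      omega
    · obtain ⟨y, hy, hy'⟩ := exists_step hT hv
      have e1 : T.dist y v = 1 := SimpleGraph.dist_eq_one_iff_adj.2 hy.symm
      have e2 := chc_comm (T := T) z y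
      rcases ih y hy' with c | c
      · exact Or.inl (btw_of_far hT c (by omega))
      · exact Or.inr (btw_of_far hT c (by omega))

theorem chc_ar1 (J L : ℕ) : 3 * L ≤ (J + 2) * (L * (J + 3)) := by
  have h1 : 3 * L ≤ L * (J + 3) := by
    rw [mul_comm]
    exact Nat.mul_le_mul_left _ (by omega)
  exact h1.trans (Nat.le_mul_of_pos_left _ (by omega))

theorem chc_ar2 {L L' k g : ℕ} (h : 3 * L ≤ L') (hg : 1 ≤ g) : L * (3 + k) ≤ L' * (k + g) := by
  have h1 : L * (3 + k) ≤ L * (3 * (k + g)) := Nat.mul_le_mul_left _ (by omega)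
  have h2 := Nat.mul_le_mul_right (k + g) h
  have h3 : 3 * L * (k + g) = L * (3 * (k + g)) := by ring
  omega

theorem chc_ar3 {J L L' ρ g : ℕ} (l1 : (J + 2) * (L * (J + 3)) + 2 * (J + 3) ≤ L') (hg : 1 ≤ g) :
    (J + 2) * (L * (ρ + g + J + 2)) + 2 * g + 2 * (J + 2) ≤ L' * (ρ + g) := by
  have u0 : J + 2 ≤ (J + 2) * (ρ + g) := Nat.le_mul_of_pos_right _ (by omega)
  have u1 : ρ + g + J + 2 ≤ (J + 3) * (ρ + g) := by
    have : (J + 3) * (ρ + g) = (J + 2) * (ρ + g) + (ρ + g) := by ring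
    omega
  have u2 : (J + 2) * (L * (ρ + g + J + 2)) ≤ (J + 2) * (L * ((J + 3) * (ρ + g))) :=
    Nat.mul_le_mul_left _ (Nat.mul_le_mul_left _ u1)
  have u3 := Nat.mul_le_mul_right (ρ + g) l1
  have u4 : ((J + 2) * (L * (J + 3)) + 2 * (J + 3)) * (ρ + g) =
      (J + 2) * (L * ((J + 3) * (ρ + g))) + 2 * ((J + 3) * (ρ + g)) := by ring
  omega

theorem chc_ar4 {J L L' k g : ℕ} (l2 : L * (L * (3 * J + 5)) ≤ L') (h : 3 * L ≤ L')
    (hg : 1 ≤ g) : L * (L * (g + 3 * J + 4) + k) ≤ L' * (k + g) := by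
  have u0 : 3 * J + 4 ≤ (3 * J + 4) * g := Nat.le_mul_of_pos_right _ hg
  have u1 : g + 3 * J + 4 ≤ (3 * J + 5) * g := by
    have : (3 * J + 5) * g = (3 * J + 4) * g + g := by ring
    omega
  have u2 : L * (L * (g + 3 * J + 4)) ≤ L * (L * ((3 * J + 5) * g)) :=
    Nat.mul_le_mul_left _ (Nat.mul_le_mul_left _ u1)
  have u3 := Nat.mul_le_mul_right g l2
  have u4 : L * k ≤ L' * k := Nat.mul_le_mul_right _ (by omega)
  have u5 : L * (L * (3 * J + 5)) * g = L * (L * ((3 * J + 5) * g)) := by ring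
  rw [mul_add L, mul_add L']
  omega

section
variable {H : Subgroup (T ≃g T)} {b J L N rm d : ℕ} (G : GData H b J L N rm)

/-- the groups that come from the far side -/
def chcU (t : ℕ) : Subgroup (T ≃g T) :=
  ⨆ p ∈ G.good, ⨆ r : ℕ, ⨆ _ : r ≤ rm ∧ p + L * r + (J + 2) ≤ t, Wd H b (G.y p) r

theorem chc_le_U {p r t : ℕ} (hp : p ∈ G.good) (h1 : r ≤ rm) (h2 : p + L * r + (J + 2) ≤ t) :
    Wd H b (G.y p) r ≤ chcU G t :=
  le_iSup₂_of_le p hp (le_iSup₂_of_le r ⟨h1, h2⟩ le_rfl)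

theorem chc_U_le {t : ℕ} {X : Subgroup (T ≃g T)}
    (h : ∀ p ∈ G.good, ∀ r, r ≤ rm → p + L * r + (J + 2) ≤ t → Wd H b (G.y p) r ≤ X) :
    chcU G t ≤ X :=
  iSup₂_le fun p hp => iSup₂_le fun r hr => h p hp r hr.1 hr.2

theorem chc_xx {s t : ℕ} (h : s ≤ t) (ht : t ≤ G.R) : T.dist (G.x s) (G.x t) = t - s := by
  rw [G.geo s t (h.trans ht) ht, Nat.dist_eq_sub_of_le h]

theorem chc_ox {t : ℕ} (ht : t ≤ G.R) : T.dist G.o (G.x t) = G.R - t := by
  rw [← G.xo, chc_comm, chc_xx G ht le_rfl]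

theorem chc_ov (hT : T.IsTree) {p : ℕ} (hp : p ∈ G.good) :
    T.dist G.o (G.v p) + p ≤ G.R + (J + 2) ∧ G.R ≤ T.dist G.o (G.v p) + p + (J + 2) := by
  have h1 := G.lt p hp
  have h2 := G.hR
  have h3 := G.near p hp
  have h4 := chc_ox G (t := p) (by omega)
  have t1 := chc_tri hT G.o (G.x p) (G.v p)
  have t2 := chc_tri hT G.o (G.v p) (G.x p)
  have e := chc_comm (T := T) (G.x p) (G.v p)
  omega

theorem chc_phi (hT : T.IsTree) {p p' : ℕ} (hp : p ∈ G.good) (hp' : p' ∈ G.good) (h : p < p') :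
    (J + 2) * T.dist G.o (G.y p) + p' ≤ (J + 2) * T.dist G.o (G.y p') + p + 2 * (J + 2) := by
  have h1 := G.phi p hp p' hp' h
  have h2 := chc_ov G hT hp
  have h3 := chc_ov G hT hp'
  omega

theorem chc_xi (hT : T.IsTree) {p : ℕ} (hp : p ∈ G.good) {z : V} (h : Btw T G.o z (G.y p))
    (hz : 1 ≤ T.dist z (G.y p)) : Btw T G.o z G.y0 := by
  rcases chc_thin hT h _ G.y0 rfl with c | c
  · exact c
  · have h1 := G.xi p hp
    have t := chc_tri hT G.o z G.y0
    have e := chc_comm (T := T) (G.y p) z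
    unfold Btw at h c ⊢
    omega

theorem chc_on (hT : T.IsTree) {p : ℕ} (hp : p ∈ G.good) {z : V} (h : Btw T G.o z G.y0)
    (hz : T.dist G.o z < T.dist G.o (G.y p)) : Btw T G.o z (G.y p) := by
  obtain ⟨u, hu, hu'⟩ := btw_exists hT G.o (G.y p) hz.le
  have h1 : Btw T G.o u G.y0 := chc_xi G hT hp hu (by unfold Btw at hu; omega)
  rwa [btw_unique hT h1 h hu'] at hu

/-- a moved point of the far geodesic is not much closer to the origin than the far vertex -/
theorem chc_moved (hT : T.IsTree) (hL : 1 ≤ L) {p r : ℕ} (hp : p ∈ G.good) (h1 : 1 ≤ r)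
    (h2 : r ≤ rm) {z : V} (h : Btw T G.o z G.y0) {m : T ≃g T} (hm : m ∈ Wd H b (G.v p) r)
    (hz : m z ≠ z) : T.dist G.o (G.y p) < T.dist G.o z + L * r := by
  by_contra hc
  have h3 : 1 ≤ L * r := Nat.mul_pos hL h1
  have h4 := chc_on G hT hp h (by omega)
  have h5 := G.noN p hp r h1 h2 z h4 (by unfold Btw at h4; omega) hm
  exact hz ((mem_Gb_zero hT).1 h5).2

theorem chc_cone (hT : T.IsTree) {t t' r : ℕ} (h1 : t + L * r ≤ t') (h2 : t' ≤ G.R)
    (h3 : r ≤ rm) : chcU G t ≤ Gb H (G.x t') r := by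
  refine chc_U_le G fun p hp r0 h4 h5 => ?_
  have h6 := chc_xx G (s := p) (t := t') (by omega) h2
  have h7 := chc_ox G h2
  have h8 := chc_ox G (t := p) (by omega)
  have h9 := G.near p hp
  have e1 := chc_comm (T := T) (G.x t') (G.x p)
  have e2 := chc_comm (T := T) (G.x p) (G.v p)
  have t1 := chc_tri hT (G.x t') (G.v p) (G.x p)
  have hb : Btw T G.o (G.x t') (G.v p) :=
    btw_of_far (q := G.x p) hT (by unfold Btw; omega) (by omega)
  rcases le_total r0 r with c | c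
  · refine le_trans (Wd_le hT ?_) (G.noF p hp r h3 _ hb (by omega))
    rw [SimpleGraph.dist_self]
    omega
  · exact le_trans (G.noF p hp r0 h4 _ hb (by omega)) (Gb_anti' c)

theorem chc_act (hT : T.IsTree) {p n : ℕ} (hp : p ∈ G.good) (hn : J + 3 ≤ n) :
    ¬ chcU G (p + n) ≤ Gb H (G.x p) n := by
  intro hle
  obtain ⟨z, hz, -, -, y, hy, hy'⟩ := G.act p hp
  have h1 : z ∈ Wd H b (G.y p) 0 := by rwa [Wd_zero hT]
  have h2 := hle (chc_le_U G hp (Nat.zero_le _) (by omega) h1)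
  refine hy' ((mem_Gb.1 h2).2 y ?_)
  have h3 := G.near p hp
  have h4 : T.dist (G.v p) y = 1 := SimpleGraph.dist_eq_one_iff_adj.2 hy
  have t1 := chc_tri hT (G.x p) (G.v p) y
  have e := chc_comm (T := T) (G.x p) (G.v p)
  omega

/-- upper bound for the growth of the far vertices -/
theorem chc_lip (hH : Hyp T d H b) (hJ : ∀ x, lc (Wd H b x 2) < J * Real.log 2)
    (hb : 2 * J + 2 ≤ b) (hL : 1 ≤ L) {p p' g : ℕ} (hp : p ∈ G.good) (hp' : p' ∈ G.good)
    (h1 : p < p') (h2 : p' ≤ p + g) (h3 : g + 3 * J + 4 ≤ rm) {w : V} (hw : Btw T G.o w G.y0)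
    (h4 : T.dist G.o (G.y p) ≤ T.dist G.o w) (h5 : T.dist G.o w < T.dist G.o (G.y p')) :
    T.dist (G.y p) w ≤ L * (g + 3 * J + 4) := by
  have hT := hH.tree
  obtain ⟨q, hq, hq1, hq2⟩ : ∃ q, Btw T G.o q G.y0 ∧ T.dist q (G.y p) ≤ 1 ∧
      T.dist G.o q ≤ T.dist G.o (G.y p) := by
    rcases Nat.eq_zero_or_pos (T.dist G.o (G.y p)) with c | c
    · refine ⟨G.o, ?_, by omega, ?_⟩
      · unfold Btw
        rw [SimpleGraph.dist_self, Nat.zero_add]
      · rw [SimpleGraph.dist_self]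
        omega
    · obtain ⟨q, hq, hq'⟩ := btw_exists hT G.o (G.y p) (r := T.dist G.o (G.y p) - 1) (by omega)
      have := hq
      unfold Btw at this
      exact ⟨q, chc_xi G hT hp hq (by omega), by omega, by omega⟩
  obtain ⟨w1, hw1, z, hz, hzq⟩ := hH.normal_step hJ hb (G.act p hp) (q := q) (by omega)
  have a1 := G.near p hp
  have a2 := G.near p' hp'
  have a3 := G.lt p' hp'
  have a4 := G.hR
  have a5 := chc_xx G h1.le (by omega)
  have t1 := chc_tri hT (G.v p') (G.x p') w1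
  have t2 := chc_tri hT (G.x p') (G.x p) w1
  have t3 := chc_tri hT (G.x p) (G.v p) w1
  have e1 := chc_comm (T := T) (G.x p') (G.x p)
  have e2 := chc_comm (T := T) (G.x p) (G.v p)
  have hz' : z ∈ Wd H b (G.v p') (g + 3 * J + 4) :=
    Zt_le_Md (S := Ball T (G.v p') (g + 3 * J + 4)) (show T.dist _ w1 ≤ _ by omega) hz
  have a6 := chc_moved G hT hL hp' (by omega) h3 hq hz' hzq
  have a7 := btw_of_le hT hq hw (by omega)
  have t4 := chc_tri hT (G.y p) q w
  have e3 := chc_comm (T := T) (G.y p) q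
  unfold Btw at a7
  omega

theorem chc_far (hH : Hyp T d H b) (hJ : ∀ x, lc (Wd H b x 2) < J * Real.log 2)
    (hb : 2 * J + 2 ≤ b) (hL : 1 ≤ L) {L' : ℕ}
    (l1 : (J + 2) * (L * (J + 3)) + 2 * (J + 3) ≤ L') (l2 : L * (L * (3 * J + 5)) ≤ L')
    (hN : L' ≤ N) (hrm : 4 * N ≤ rm) {i ρ g t k : ℕ} {m : T ≃g T} (hi : i < N) (hg : 1 ≤ g)
    (h1 : L' * (ρ + g) ≤ i) (hk : k ≤ N) (h2 : t + L' * (k + g) ≤ i)
    (gap : ∀ s, i ≤ s + L' * (ρ + g) → s + g ≤ i → ∃ p ∈ G.good, s ≤ p ∧ p < s + g)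
    (hm : m ∈ Wd H b (G.x i) ρ) (hc : m ∉ centralizer (chcU G t : Set (T ≃g T))) :
    k * Real.log 2 ≤ rk (chcU G (t + L' * (k + g))) m := by
  have hT := hH.tree
  have hR := G.hR
  have hR' := G.hR'
  have hmH : m ∈ H := Md_le H b _ hm
  have b1 : ρ + g ≤ L' * (ρ + g) := Nat.le_mul_of_pos_left _ (by omega)
  obtain ⟨p, hp, r0, hr0, hpt, q, hq, hmq⟩ : ∃ p ∈ G.good, ∃ r, r ≤ rm ∧
      p + L * r + (J + 2) ≤ t ∧ ∃ q, T.dist (G.y p) q ≤ r + 2 ∧ m q ≠ q := by
    by_contra hcon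
    refine hc ?_
    have : chcU G t ≤ centralizer {m} := by
      refine chc_U_le G fun p hp r a1 a2 z hz => ?_
      have a3 : m ∈ Gb H (G.y p) (r + 2) := by
        refine mem_Gb.2 ⟨hmH, fun q hq => ?_⟩
        by_contra a4
        exact hcon ⟨p, hp, r, a1, a2, q, hq, a4⟩
      exact mem_centralizer_singleton_iff.2 (mem_centralizer_iff.1 (Gb_cent_Wd hT _ _ a3) z hz)
    exact mem_centralizer_iff.2 fun z hz => mem_centralizer_singleton_iff.1 (this hz)
  have hmo : m ∈ Gb H G.o 1 := by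
    refine Wd_le_Gb hT ?_ hm
    rw [chc_comm, chc_ox G (by omega)]
    omega
  obtain ⟨w, w', hadj, hw, hw', hmw, hact⟩ := exists_active_path hT (mem_Gb.1 hmo).2 hmq
  have hww : T.dist w w' = 1 := SimpleGraph.dist_eq_one_iff_adj.2 hadj
  have key : ∀ p' ∈ G.good, ∀ e, T.dist (G.y p') w ≤ e →
      p' + L * (e + k) + (J + 2) ≤ t + L' * (k + g) →
      k * Real.log 2 ≤ rk (chcU G (t + L' * (k + g))) m := by
    intro p' hp' e a1 a2
    have a3 : e + k ≤ L * (e + k) := Nat.le_mul_of_pos_left _ hL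
    have : Finite (Gb H (G.x (t + L' * (k + g))) 0) := hH.finGb _ _
    have : Finite (chcU G (t + L' * (k + g))) :=
      fin_of_le (chc_cone G hT (r := 0) (t' := t + L' * (k + g)) (by omega) (by omega) (by omega))
    refine (hH.rank_gap hmH hact (k := k) (by omega)).trans (rk_mono ?_ m)
    exact le_trans (Wd_le hT (by omega)) (chc_le_U G hp' (r := e + k) (by omega) a2)
  have c3 : 3 * L ≤ L' := (chc_ar1 J L).trans (le_trans (Nat.le_add_right _ _) l1)
  by_cases hA : T.dist (G.y p) w ≤ r0 + 3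
  · refine key p hp (r0 + 3) hA ?_
    have := chc_ar2 (k := k) c3 hg
    have : L * (r0 + 3 + k) = L * r0 + L * (3 + k) := by ring
    omega
  have t1 := chc_tri hT (G.y p) w' w
  have e1 := chc_comm (T := T) (G.y p) w'
  have e2 := chc_comm (T := T) w' w
  have e3 := chc_comm (T := T) (G.y p) q
  have hw'p : Btw T G.o w' (G.y p) := by
    rcases btw_proj hT hw' (G.y p) with c | c
    · exact c
    · omega
  have hw'0 : Btw T G.o w' G.y0 := chc_xi G hT hp hw'p (by omega)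
  have hw0 : Btw T G.o w G.y0 := (btw_trans hT hw hw'0).1
  unfold Btw at hw hw'p
  obtain ⟨p2, hp2, a1, a2⟩ := gap (i - g) (by omega) (by omega)
  have a3 : m ∈ Wd H b (G.v p2) (ρ + g + J + 2) := by
    refine Wd_le hT ?_ hm
    have u1 := G.near p2 hp2
    have u2 := chc_xx G (s := p2) (t := i) (by omega) (by omega)
    have u3 := chc_tri hT (G.v p2) (G.x p2) (G.x i)
    omega
  have a4 := chc_moved G hT hL hp2 (by omega) (by omega) hw'0 a3 hmw
  obtain ⟨p0, hp0, a5, a6⟩ := gap (i - L' * (ρ + g)) (by omega) (by omega)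
  have a7 := chc_ar3 (ρ := ρ) l1 hg
  have a8 : T.dist G.o (G.y p0) ≤ T.dist G.o w := by
    have u1 := chc_phi G hT hp0 hp2 (by omega)
    have u2 : (J + 2) * (T.dist G.o (G.y p0) + L * (ρ + g + J + 2)) ≤
        (J + 2) * T.dist G.o (G.y p2) := by
      rw [mul_add]
      omega
    have u3 := Nat.le_of_mul_le_mul_left u2 (by omega)
    omega
  have a9 : p0 < p := by
    by_contra hcon
    rcases Nat.lt_or_eq_of_le (not_lt.1 hcon) with c | c
    · have u1 := chc_phi G hT hp hp0 c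
      have u2 : (J + 2) * (T.dist G.o (G.y p0) + 2) ≤ (J + 2) * T.dist G.o (G.y p) :=
        Nat.mul_le_mul_left _ (by omega)
      rw [mul_add] at u2
      omega
    · rw [c] at hw'p
      omega
  classical
  obtain ⟨p1, hp1, hmax⟩ := Finset.exists_max_image
    (G.good.filter fun s => p0 ≤ s ∧ s ≤ p ∧ T.dist G.o (G.y s) ≤ T.dist G.o w) id
    ⟨p0, Finset.mem_filter.2 ⟨hp0, le_rfl, a9.le, a8⟩⟩
  obtain ⟨hp1, d1, d2, d3⟩ := Finset.mem_filter.1 hp1
  have d4 : p1 < p := by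
    rcases Nat.lt_or_eq_of_le d2 with c | c
    · exact c
    · rw [c] at d3
      omega
  obtain ⟨p3, hp3, d5, d6, d7⟩ : ∃ s ∈ G.good, p1 < s ∧ s ≤ p ∧ s ≤ p1 + g := by
    by_cases c : p ≤ p1 + g
    · exact ⟨p, hp, d4, le_rfl, c⟩
    · obtain ⟨s, hs, u1, u2⟩ := gap (p1 + 1) (by omega) (by omega)
      exact ⟨s, hs, by omega, by omega, by omega⟩
  have d8 : T.dist G.o w < T.dist G.o (G.y p3) := by
    by_contra hcon
    have := hmax p3 (Finset.mem_filter.2 ⟨hp3, by omega, d6, not_lt.1 hcon⟩)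
    simp only [id] at this
    omega
  have d9 := chc_lip G hH hJ hb hL hp1 hp3 d5 d7 (by omega) hw0 d3 d8
  refine key p1 hp1 _ d9 ?_
  have := chc_ar4 (k := k) l2 c3 hg
  omega

end

theorem GData.toU (J L : ℕ) (hJ1 : 1 ≤ J) (hL : 1 ≤ L) :
    ∃ L' : ℕ, 1 ≤ L' ∧ ∀ (d : ℕ) (H : Subgroup (T ≃g T)) (b N rm : ℕ), Hyp T d H b →
      (∀ x, lc (Wd H b x 2) < J * Real.log 2) → 2 * J + 2 ≤ b → L' ≤ N → 4 * N ≤ rm →
      GData H b J L N rm → Nonempty (UData H b L' N) := by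
  refine ⟨(J + 2) * (L * (J + 3)) + 2 * (J + 3) + L * (L * (3 * J + 5)), by omega, ?_⟩
  intro d H b N rm hH hJ hb hN hrm G
  have _ := hJ1
  have hR := G.hR
  have hLL : L ≤ (J + 2) * (L * (J + 3)) + 2 * (J + 3) + L * (L * (3 * J + 5)) := by
    have := chc_ar1 J L
    omega
  exact ⟨{
    x := G.x
    good := G.good
    U := chcU G
    geo := fun s t hs ht => G.geo s t (by omega) (by omega)
    lt := G.lt
    card := G.card
    mono := fun t t' h => chc_U_le G fun p hp r h1 h2 => chc_le_U G hp h1 (h2.trans h)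
    cone := fun t t' r h1 h2 h3 => chc_cone G hH.tree
      (le_trans (Nat.add_le_add_left (Nat.mul_le_mul_right r hLL) t) h1) (by omega) (by omega)
    act := fun p hp => chc_act G hH.tree hp (by omega)
    far := fun i ρ g t k m hi hg h1 hk h2 gap hm hc =>
      chc_far G hH hJ hb hL (by omega) (by omega) hN hrm hi hg h1 hk h2 gap hm hc }⟩

theorem exists_UData (T : SimpleGraph V) (d : ℕ) (C : ℝ) :
    ∃ L c : ℕ, 1 ≤ L ∧ ∀ (H : Subgroup (T ≃g T)) (b N0 : ℕ), Std T d C H b → c ≤ N0 →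
      c * N0 ≤ b → ∃ N, N0 ≤ N ∧ N ≤ c * N0 ∧ Nonempty (UData H b L N) := by
  obtain ⟨J0, hJ0⟩ := exists_nat_gt (3 * C / Real.log 2)
  have hlog : 0 < Real.log 2 := Real.log_pos one_lt_two
  rw [div_lt_iff₀ hlog] at hJ0
  obtain ⟨c0, hc0⟩ := exists_GData (T := T) (J0 + 1) (8 * (J0 + 1 + 4) ^ 2) (by omega) le_rfl
  obtain ⟨L', hL', hU⟩ := GData.toU (T := T) (J0 + 1) (8 * (J0 + 1 + 4) ^ 2) (by omega)
    (Nat.mul_pos (by omega) (pow_pos (by omega) _))
  refine ⟨L', c0 * (1 + 4 * c0) + L' + 2 * J0 + 4, hL', fun H b N0 hH h1 h2 => ?_⟩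
  have h3 : c0 * (1 + 4 * c0) + L' + 2 * J0 + 4 ≤ b :=
    le_trans (Nat.le_mul_of_pos_right _ (by omega)) h2
  have hJ : ∀ x, lc (Wd H b x 2) < ((J0 + 1 : ℕ) : ℝ) * Real.log 2 := by
    intro x
    have := hH.grow x 2 (by omega)
    push_cast at this ⊢
    nlinarith
  obtain ⟨N, h4, h5, ⟨G⟩⟩ := hc0 d H b N0 (4 * (c0 * N0)) hH.toHyp hJ (by omega)
    (le_trans (by nlinarith) h2)
  refine ⟨N, h4, h5.trans (Nat.mul_le_mul_right _ (by nlinarith)), ?_⟩
  exact hU d H b N _ hH.toHyp hJ (by omega) (by omega) (by omega) G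

end Pool.Agent.PSV
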