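import Pool.Agent.Lib.MP_607584_al.PSV.Def

/-! Counting in finite groups, part 1: orders, indices, ranks. -/

namespace Pool.Agent.PSV

open Subgroup
open scoped Pointwise commutatorElement

variable {Γ : Type*} [Group Γ] {X X' Y Y' Z A W P P' : Subgroup Γ} {g h c c' : Γ}

theorem mem_cj {x : Γ} : x ∈ cj g X ↔ g⁻¹ * x * g ∈ X := by
  rw [cj, mem_map_equiv]
  simp

theorem conj_mem_cj {x : Γ} : g * x * g⁻¹ ∈ cj g X ↔ x ∈ X := by
  rw [mem_cj]
  simp [mul_assoc]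

theorem cj_one (X : Subgroup Γ) : cj 1 X = X := by
  ext x
  simp [mem_cj]

theorem cj_mul (g h : Γ) (X : Subgroup Γ) : cj (g * h) X = cj g (cj h X) := by
  ext x
  simp [mem_cj, mul_assoc]

theorem cj_inf (g : Γ) (X Y : Subgroup Γ) : cj g (X ⊓ Y) = cj g X ⊓ cj g Y := by
  ext x
  simp [mem_cj]

theorem cj_sup (g : Γ) (X Y : Subgroup Γ) : cj g (X ⊔ Y) = cj g X ⊔ cj g Y :=
  Subgroup.map_sup _ _ _

theorem cj_mono (g : Γ) (h : X ≤ Y) : cj g X ≤ cj g Y := map_mono h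

theorem cj_closure (g : Γ) (K : Set Γ) :
    cj g (closure K) = closure ((fun s => g * s * g⁻¹) '' K) :=
  MonoidHom.map_closure _ _

theorem cj_eq_iff : cj g X = X ↔ g ∈ normalizer (X : Set Γ) := by
  rw [mem_normalizer_iff'', SetLike.ext_iff]
  simp only [mem_cj]
  exact forall_congr' fun _ => Iff.comm

theorem card_cj (g : Γ) (X : Subgroup Γ) : Nat.card (cj g X) = Nat.card X :=
  card_map_of_injective (MulAut.conj g).injective

theorem fin_cj (g : Γ) (X : Subgroup Γ) [Finite X] : Finite (cj g X) :=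
  Finite.of_equiv _ (X.equivMapOfInjective _ (MulAut.conj g).injective).toEquiv

theorem fin_of_le [Finite Y] (h : X ≤ Y) : Finite X :=
  Finite.of_injective _ (inclusion_injective h)

theorem Ab.mono (hA : Ab A) (h : X ≤ A) : Ab X := fun a ha b hb => hA a (h ha) b (h hb)

theorem Ab.cj (hA : Ab A) (g : Γ) : Ab (cj g A) := fun a ha b hb => by
  have := congrArg (fun x => g * x * g⁻¹) (hA _ (mem_cj.1 ha) _ (mem_cj.1 hb))
  simpa [mul_assoc] using this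

theorem cnt_log_le {a b : ℕ} (h : a ≤ b) : Real.log a ≤ Real.log b := by
  rcases a.eq_zero_or_pos with rfl | ha
  · simpa using Real.log_natCast_nonneg b
  · exact Real.log_le_log (by exact_mod_cast ha) (by exact_mod_cast h)

theorem cnt_log_mul {a b : ℕ} (ha : a ≠ 0) (hb : b ≠ 0) :
    Real.log (a * b : ℕ) = Real.log a + Real.log b := by
  rw [Nat.cast_mul, Real.log_mul (by exact_mod_cast ha) (by exact_mod_cast hb)]

theorem cnt_ne (X Y : Subgroup Γ) [Finite X] : Y.relIndex X ≠ 0 := index_ne_zero_of_finite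

theorem lc_nonneg (X : Subgroup Γ) : 0 ≤ lc X := Real.log_natCast_nonneg _

theorem lc_bot : lc (⊥ : Subgroup Γ) = 0 := by simp [lc]

theorem lc_mono [Finite Y] (h : X ≤ Y) : lc X ≤ lc Y := cnt_log_le (card_le_of_le h)

theorem lc_cj (g : Γ) (X : Subgroup Γ) : lc (cj g X) = lc X := by rw [lc, card_cj, lc]

theorem ld_nonneg (X Y : Subgroup Γ) : 0 ≤ ld X Y := Real.log_natCast_nonneg _

theorem ld_eq (X Y : Subgroup Γ) [Finite X] : ld X Y = lc X - lc (X ⊓ Y) := by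
  have := fin_of_le (inf_le_left : X ⊓ Y ≤ X)
  have h := relIndex_mul_relIndex ⊥ (X ⊓ Y) X bot_le inf_le_left
  rw [relIndex_bot_left, relIndex_bot_left, inf_relIndex_left] at h
  rw [lc, lc, ld, ← h, cnt_log_mul Nat.card_pos.ne' (cnt_ne X Y)]
  ring

theorem ld_of_le (h : X ≤ Y) : ld X Y = 0 := by simp [ld, relIndex_eq_one.2 h]

theorem log_two_le_ld [Finite X] (h : ¬ X ≤ Y) : Real.log 2 ≤ ld X Y := by
  have h1 := cnt_ne X Y
  have h2 : Y.relIndex X ≠ 1 := fun e => h (relIndex_eq_one.1 e)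
  exact_mod_cast cnt_log_le (show 2 ≤ Y.relIndex X by omega)

theorem ld_inf_self (X Y : Subgroup Γ) : ld X (X ⊓ Y) = ld X Y := by rw [ld, inf_relIndex_left, ld]

theorem cnt_congr (h : X ⊓ Y = X ⊓ Y') : ld X Y = ld X Y' := by
  rw [← ld_inf_self X Y, h, ld_inf_self]

theorem ld_le_lc (X Y : Subgroup Γ) [Finite X] : ld X Y ≤ lc X := by
  linarith [ld_eq X Y, lc_nonneg (X ⊓ Y)]

theorem ld_tri (X Y Z : Subgroup Γ) [Finite X] [Finite Y] : ld X Z ≤ ld X Y + ld Y Z := by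
  rw [ld, ld, ld, ← cnt_log_mul (cnt_ne X Y) (cnt_ne Y Z)]
  refine cnt_log_le ((relIndex_le_of_le_left (inf_le_left : Z ⊓ Y ≤ Z) (cnt_ne _ _)).trans ?_)
  rw [← relIndex_inf_mul_relIndex, mul_comm]
  exact Nat.mul_le_mul_left _ (relIndex_le_of_le_right inf_le_left (cnt_ne _ _))

theorem ld_add [Finite X] (h1 : Y ≤ X) (h2 : Z ≤ Y) : ld X Z = ld X Y + ld Y Z := by
  have := fin_of_le h1
  rw [ld, ld, ld, ← cnt_log_mul (cnt_ne X Y) (cnt_ne Y Z), mul_comm,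
    relIndex_mul_relIndex Z Y X h2 h1]

theorem ld_inf (X Y Z : Subgroup Γ) [Finite X] : ld X (Y ⊓ Z) ≤ ld X Y + ld X Z := by
  rw [ld, ld, ld, ← cnt_log_mul (cnt_ne X Y) (cnt_ne X Z)]
  exact cnt_log_le relIndex_inf_le

theorem ld_mono_left (Y : Subgroup Γ) [Finite X'] (h : X ≤ X') : ld X Y ≤ ld X' Y :=
  cnt_log_le (relIndex_le_of_le_right h (cnt_ne _ _))

theorem ld_mono_right (X : Subgroup Γ) [Finite X] (h : Y ≤ Y') : ld X Y' ≤ ld X Y :=
  cnt_log_le (relIndex_le_of_le_left h (cnt_ne _ _))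

theorem ld_inf_inf (X Y W : Subgroup Γ) [Finite X] : ld (X ⊓ W) (Y ⊓ W) ≤ ld X Y := by
  rw [cnt_congr (Y' := Y) (by ext; simp only [mem_inf]; tauto)]
  exact ld_mono_left Y inf_le_left

theorem ld_cj (g : Γ) (X Y : Subgroup Γ) : ld (cj g X) (cj g Y) = ld X Y :=
  congrArg (fun n : ℕ => Real.log n) (relIndex_map_map_of_injective Y X (MulAut.conj g).injective)

theorem ld_cj_symm (g : Γ) (X : Subgroup Γ) [Finite X] : ld X (cj g X) = ld (cj g X) X := by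
  have := fin_cj g X
  rw [ld_eq, ld_eq, lc_cj, inf_comm]

theorem ld_cj_mul (g h : Γ) (X : Subgroup Γ) [Finite X] :
    ld (cj (g * h) X) X ≤ ld (cj g X) X + ld (cj h X) X := by
  have := fin_cj (g * h) X
  have := fin_cj g X
  have := ld_tri (cj (g * h) X) (cj g X) X
  rw [cj_mul, ld_cj] at this
  rw [cj_mul]
  linarith

theorem ld_cj_inv (g : Γ) (X : Subgroup Γ) [Finite X] : ld (cj g⁻¹ X) X = ld (cj g X) X := by
  rw [← ld_cj g, ← cj_mul, mul_inv_cancel, cj_one, ld_cj_symm]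

theorem lc_sub [Finite Z] (h1 : X ≤ Z) (h2 : Y ≤ Z) : lc X + lc Y ≤ lc (X ⊓ Y) + lc Z := by
  have := fin_of_le h1
  have h := ld_mono_left Y h1
  rw [ld_eq, ld_eq, inf_eq_right.2 h2] at h
  linarith

theorem cnt_sup (hA : Ab A) (h1 : X ≤ A) (h2 : Y ≤ A) : ld (X ⊔ Y) Y = ld X Y := by
  have : (Y.subgroupOf A).Normal := ⟨fun n hn a => by
    rw [mem_subgroupOf] at hn ⊢
    rwa [coe_mul, coe_mul, hA _ a.2 _ n.2, coe_inv, mul_inv_cancel_right]⟩
  rw [ld, ld, ← relIndex_subgroupOf (sup_le h1 h2), ← relIndex_subgroupOf h1,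
    subgroupOf_sup h1 h2, relIndex_sup_right]

theorem lc_sup_ab [Finite A] (hA : Ab A) (h1 : X ≤ A) (h2 : Y ≤ A) :
    lc (X ⊔ Y) + lc (X ⊓ Y) = lc X + lc Y := by
  have := fin_of_le h1
  have := fin_of_le (sup_le h1 h2)
  have h := cnt_sup hA h1 h2
  rw [ld_eq, ld_eq, inf_eq_right.2 le_sup_right] at h
  linarith

theorem ld_sup_ab (Z : Subgroup Γ) [Finite A] (hA : Ab A) (h1 : X ≤ A) (h2 : Y ≤ A) :
    ld (X ⊔ Y) Z ≤ ld X Z + ld Y Z := by
  have := fin_of_le h1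
  have := fin_of_le h2
  have := fin_of_le (sup_le h1 h2)
  have a1 : X ⊓ Z ≤ A := inf_le_left.trans h1
  have a2 : Y ⊓ Z ≤ A := inf_le_left.trans h2
  have e1 := ld_mono_right (X ⊔ Y) (sup_le inf_le_right inf_le_right : X ⊓ Z ⊔ Y ⊓ Z ≤ Z)
  rw [ld_add (Y := X ⊓ Z ⊔ Y) (sup_le_sup_right inf_le_left _) (sup_le_sup_left inf_le_left _)] at e1
  have e2 := cnt_sup hA h1 (sup_le a1 h2)
  rw [← sup_assoc, sup_inf_self] at e2
  have e3 := cnt_sup hA h2 (sup_le a1 a2)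
  rw [sup_left_comm, sup_inf_self] at e3
  have e4 := ld_mono_right X (le_sup_left : X ⊓ Z ≤ X ⊓ Z ⊔ Y)
  have e5 := ld_mono_right Y (le_sup_right : Y ⊓ Z ≤ X ⊓ Z ⊔ Y ⊓ Z)
  rw [ld_inf_self] at e4 e5
  linarith

theorem ld_le_incr [Finite A] (hA : Ab A) (h0 : X ≤ X') (h1 : X' ≤ A) (h2 : Y ≤ A) :
    ld X Y ≤ lc (X' ⊔ Y) - lc Y := by
  have := fin_of_le h1
  have := fin_of_le (sup_le h1 h2)
  have h := cnt_sup hA h1 h2
  rw [ld_eq, inf_eq_right.2 le_sup_right] at h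
  linarith [ld_mono_left Y h0]

/-- mutual information bound -/
theorem ld_le_info {F B L : Subgroup Γ} [Finite A] (hA : Ab A) (h1 : F ≤ A) (h2 : B ≤ A)
    (h3 : L ≤ A) (h4 : Y ≤ F) (h5 : Y ≤ B ⊔ L) :
    ld Y L ≤ lc (F ⊔ L) + lc (B ⊔ L) - lc (F ⊔ B ⊔ L) - lc L := by
  have := fin_of_le (inf_le_left.trans (sup_le h1 h3) : (F ⊔ L) ⊓ (B ⊔ L) ≤ A)
  have e1 := ld_mono_left L (le_inf (h4.trans le_sup_left) h5 : Y ≤ (F ⊔ L) ⊓ (B ⊔ L))
  rw [ld_eq ((F ⊔ L) ⊓ (B ⊔ L)), inf_eq_right.2 (le_inf le_sup_right le_sup_right)] at e1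
  have e2 := lc_sup_ab hA (sup_le h1 h3) (sup_le h2 h3)
  rw [← sup_sup_distrib_right] at e2
  linarith

/-- graded pieces of a filtration restricted to two nested subgroups -/
theorem ld_gr {L L' W' : Subgroup Γ} [Finite W'] (hA : Ab W') (hW : W ≤ W') (hL : L ≤ L') :
    ld (L' ⊓ W') ((L ⊓ W') ⊔ (L' ⊓ W)) = ld (L' ⊓ W') L - ld (L' ⊓ W) L := by
  have := fin_of_le (inf_le_right : L' ⊓ W' ≤ W')
  have e1 := ld_add (X := L' ⊓ W') (Y := L ⊓ W' ⊔ L' ⊓ W) (Z := L ⊓ W')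
    (sup_le (inf_le_inf_right _ hL) (inf_le_inf_left _ hW)) le_sup_left
  have e2 := cnt_sup hA (inf_le_right.trans hW : L' ⊓ W ≤ W') (inf_le_right : L ⊓ W' ≤ W')
  rw [sup_comm] at e2
  have e3 : ld (L' ⊓ W') (L ⊓ W') = ld (L' ⊓ W') L :=
    cnt_congr (by ext; simp only [mem_inf]; tauto)
  have e4 : ld (L' ⊓ W) (L ⊓ W') = ld (L' ⊓ W) L := cnt_congr (by
    ext x
    have := @hW x
    simp only [mem_inf]
    tauto)
  linarith

theorem rk_nonneg (X : Subgroup Γ) (c : Γ) : 0 ≤ rk X c := ld_nonneg _ _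

theorem rk_of_cent (h : ∀ m ∈ X, c * m = m * c) : rk X c = 0 :=
  ld_of_le fun m hm => mem_centralizer_singleton_iff.2 (h m hm).symm

theorem rk_mul (X : Subgroup Γ) [Finite X] (c c' : Γ) : rk X (c * c') ≤ rk X c + rk X c' := by
  refine le_trans (ld_mono_right X fun m hm => ?_) (ld_inf X _ _)
  have h1 := mem_centralizer_singleton_iff.1 hm.1
  have h2 := mem_centralizer_singleton_iff.1 hm.2
  rw [mem_centralizer_singleton_iff, ← mul_assoc, h1, mul_assoc, h2, mul_assoc]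

theorem rk_inv (X : Subgroup Γ) (c : Γ) : rk X c⁻¹ = rk X c := by
  rw [rk, rk]
  congr 1
  ext m
  rw [mem_centralizer_singleton_iff, mem_centralizer_singleton_iff]
  exact Commute.inv_right_iff

theorem rk_cj (g : Γ) (X : Subgroup Γ) (c : Γ) : rk (cj g X) (g * c * g⁻¹) = rk X c := by
  rw [rk, rk, ← ld_cj g X]
  congr 1
  ext m
  rw [mem_cj, mem_centralizer_singleton_iff, mem_centralizer_singleton_iff,
    ← (MulAut.conj g⁻¹).injective.eq_iff]
  simp [mul_assoc]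

theorem rk_mono [Finite X'] (h : X ≤ X') (c : Γ) : rk X c ≤ rk X' c := ld_mono_left _ h

theorem rk_le_add (X Y : Subgroup Γ) [Finite X] [Finite Y] (c : Γ) :
    rk X c ≤ rk Y c + ld X Y := by
  rw [add_comm]
  exact ld_tri X Y _

theorem rk_conj_le (X : Subgroup Γ) [Finite X] (g c : Γ) :
    rk X (g * c * g⁻¹) ≤ rk X c + ld (cj g X) X := by
  have := fin_cj g X
  have h := rk_le_add X (cj g X) (g * c * g⁻¹)
  rwa [rk_cj, ld_cj_symm] at h

theorem rk_sup_ab [Finite A] (hA : Ab A) (h1 : X ≤ A) (h2 : Y ≤ A) (c : Γ) :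
    rk (X ⊔ Y) c ≤ rk X c + rk Y c := ld_sup_ab _ hA h1 h2

theorem ld_cj_le_rk (X : Subgroup Γ) [Finite X] (c : Γ) : ld (cj c X) X ≤ rk X c := by
  rw [← ld_cj_symm, rk, ← ld_inf_self X (centralizer _)]
  refine ld_mono_right X fun m hm => mem_cj.2 ?_
  rw [mul_assoc, mem_centralizer_singleton_iff.1 hm.2, inv_mul_cancel_left]
  exact hm.1

/-- the conjugates of `c` under `X` lie in `W` -/
theorem rk_le_lc [Finite X] [Finite W] (h : ∀ m ∈ X, m * c * m⁻¹ ∈ W) : rk X c ≤ lc W := by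
  refine cnt_log_le (Nat.card_le_card_of_injective
    (fun q : X ⧸ (centralizer {c}).subgroupOf X => (⟨_, h q.out.1 q.out.2⟩ : W)) fun q q' e => ?_)
  have e1 := congrArg (fun x => q.out.1⁻¹ * x * q'.out.1) (congrArg Subtype.val e)
  rw [← q.out_eq', ← q'.out_eq']
  refine QuotientGroup.eq.2 (mem_subgroupOf.2 (mem_centralizer_singleton_iff.2 ?_))
  simpa [mul_assoc] using e1.symm

theorem Out.mono {ε ε' : ℝ} (h : Out W c P ε) (h1 : P ≤ P') (h2 : ε ≤ ε') : Out W c P' ε' := by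
  obtain ⟨W', a, b, d⟩ := h
  exact ⟨W', a, b.trans h2, fun m hm => h1 (d m hm)⟩

theorem Out.restrict {ε : ℝ} {W0 : Subgroup Γ} [Finite W] (h : Out W c P ε) (h1 : W0 ≤ W) :
    Out W0 c P ε := by
  obtain ⟨W', -, b, d⟩ := h
  refine ⟨W0 ⊓ W', inf_le_left, ?_, fun m hm => d m hm.2⟩
  rw [ld_inf_self]
  exact (ld_mono_left W' h1).trans b

theorem cnt_comm (hc : c ∈ normalizer (W : Set Γ)) {m : Γ} (hm : m ∈ W) : ⁅c, m⁆ ∈ W :=
  W.mul_mem ((mem_normalizer_iff.1 hc m).1 hm) (W.inv_mem hm)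

theorem Out.inf {ε : ℝ} (h : Out W c P ε) (hc : c ∈ normalizer (W : Set Γ)) :
    Out W c (P ⊓ W) ε := by
  obtain ⟨W', a, b, d⟩ := h
  exact ⟨W', a, b, fun m hm => ⟨d m hm, cnt_comm hc (a hm)⟩⟩

theorem Out.of_ld {ε : ℝ} [Finite W] [Finite P] (hW : Ab W) (hc : c ∈ normalizer (W : Set Γ))
    (h : Out W c P ε) (P' : Subgroup Γ) : Out W c P' (ε + ld P P') := by
  obtain ⟨W', a, b, d⟩ := h
  let φ : W' →* Γ := MonoidHom.mk' (fun m => ⁅c, m.1⁆) fun m m' => by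
    have e : ⁅c, m.1 * m'.1⁆ = ⁅c, m.1⁆ * (m.1 * ⁅c, m'.1⁆ * m.1⁻¹) := by
      simp only [commutatorElement_def]; group
    rw [coe_mul, e, hW _ (a m.2) _ (cnt_comm hc (a m'.2)), mul_inv_cancel_right]
  refine ⟨(P'.comap φ).map W'.subtype, (map_subtype_le _).trans a, ?_, ?_⟩
  · rw [ld_add a (map_subtype_le _)]
    refine add_le_add b (cnt_log_le ?_)
    rw [relIndex, subgroupOf, comap_map_eq_self_of_injective W'.subtype_injective, index_comap]
    refine relIndex_le_of_le_right ?_ (cnt_ne _ _)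
    rintro _ ⟨m, rfl⟩
    exact d m.1 m.2
  · rintro _ ⟨m, hm, rfl⟩
    exact hm

theorem Out.conj {ε : ℝ} (h : Out W c P ε) (g : Γ) :
    Out (cj g W) (g * c * g⁻¹) (cj g P) ε := by
  obtain ⟨W', a, b, d⟩ := h
  refine ⟨cj g W', cj_mono g a, by rwa [ld_cj], fun m hm => mem_cj.2 ?_⟩
  have e : g⁻¹ * ⁅g * c * g⁻¹, m⁆ * g = ⁅c, g⁻¹ * m * g⁆ := by
    simp only [commutatorElement_def]; group
  rw [e]
  exact d _ (mem_cj.1 hm)

theorem Out.inv {ε : ℝ} (h : Out W c P ε) : Out W c⁻¹ (cj c⁻¹ P) ε := by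
  obtain ⟨W', a, b, d⟩ := h
  refine ⟨W', a, b, fun m hm => mem_cj.2 ?_⟩
  have e : c⁻¹⁻¹ * ⁅c⁻¹, m⁆ * c⁻¹ = ⁅c, m⁆⁻¹ := by
    simp only [commutatorElement_def]; group
  rw [e]
  exact P.inv_mem (d m hm)

theorem Out.mul {ε ε' : ℝ} [Finite W] (h : Out W c P ε) (h' : Out W c' P' ε') :
    Out W (c * c') (P ⊔ cj c P') (ε + ε') := by
  obtain ⟨W1, a, b, d⟩ := h
  obtain ⟨W2, -, b', d'⟩ := h'
  refine ⟨W1 ⊓ W2, inf_le_left.trans a, (ld_inf W _ _).trans (add_le_add b b'), fun m hm => ?_⟩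
  have e : ⁅c * c', m⁆ = c * ⁅c', m⁆ * c⁻¹ * ⁅c, m⁆ := by
    simp only [commutatorElement_def]; group
  rw [e]
  exact mul_mem (mem_sup_right (conj_mem_cj.2 (d' m hm.2))) (mem_sup_left (d m hm.1))

/-- two elements that are quadratic with respect to `P` almost commute on `W` -/
theorem rk_comm {ε : ℝ} [Finite W] [Finite P] (hW : Ab W) (hc : c ∈ normalizer (W : Set Γ))
    (hc' : c' ∈ normalizer (W : Set Γ)) (h1 : Out W c P ε) (h2 : Out W c' P ε)
    (h3 : rk P c ≤ ε) (h4 : rk P c' ≤ ε) : rk W ⁅c, c'⁆ ≤ 4 * ε := by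
  obtain ⟨W1, a, b, d⟩ := h1.of_ld hW hc (centralizer {c'})
  obtain ⟨W2, -, b', d'⟩ := h2.of_ld hW hc' (centralizer {c})
  have e : ⁅c, c'⁆ = c' * c * ((c' * c)⁻¹ * (c * c')) * (c' * c)⁻¹ := by
    simp only [commutatorElement_def]; group
  have e1 := rk_cj (c' * c) W ((c' * c)⁻¹ * (c * c'))
  rw [cj_eq_iff.2 (mul_mem hc' hc), ← e] at e1
  have e2 : rk W ((c' * c)⁻¹ * (c * c')) ≤ ld W (W1 ⊓ W2) := ld_mono_right W fun m hm => by
    have k1 := mem_centralizer_singleton_iff.1 (d m hm.1)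
    have k2 := mem_centralizer_singleton_iff.1 (d' m hm.2)
    have k3 := hW _ (cnt_comm hc (a hm.1)) _ (cnt_comm hc' (a hm.1))
    have k4 : c * c' * m = ⁅c', m⁆ * ⁅c, m⁆ * m * (c * c') := by
      calc c * c' * m = c * ⁅c', m⁆ * m * c' := by simp only [commutatorElement_def]; group
        _ = _ := by rw [← k2, commutatorElement_def c]; group
    have k5 : c' * c * m = ⁅c, m⁆ * ⁅c', m⁆ * m * (c' * c) := by
      calc c' * c * m = c' * ⁅c, m⁆ * m * c := by simp only [commutatorElement_def]; group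
        _ = _ := by rw [← k1, commutatorElement_def c']; group
    rw [mem_centralizer_singleton_iff, mul_assoc, k4, ← k3, eq_mul_inv_of_mul_eq k5.symm]
    group
  have e3 := ld_inf W W1 W2
  rw [rk] at h3 h4
  linarith

end Pool.Agent.PSV
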