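import Pool.Agent.Lib.MP_607584_al.PSV.Cnt

/-! Counting in finite groups, part 2: dense sets. -/

namespace Pool.Agent.PSV

open Subgroup
open scoped Pointwise commutatorElement

variable {Γ : Type*} [Group Γ] {X Y A B G N : Subgroup Γ} {S S' : Set Γ} {η η' : ℝ}

theorem cnt2_card (X : Subgroup Γ) : ((X : Set Γ).ncard : ℝ) = Nat.card X := by
  rw [← Nat.card_coe_set_eq]; rfl

theorem cnt2_fin (X : Subgroup Γ) [h : Finite X] : (X : Set Γ).Finite := h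

theorem cnt2_pos (X : Subgroup Γ) [Finite X] : (0 : ℝ) < Nat.card X := by
  exact_mod_cast Nat.card_pos

theorem cnt2_exp_lc (X : Subgroup Γ) [Finite X] : Real.exp (lc X) = Nat.card X :=
  Real.exp_log (cnt2_pos X)

theorem cnt2_exp_ld (X Y : Subgroup Γ) [Finite X] :
    Real.exp (-ld X Y) * Nat.card X = Nat.card (X ⊓ Y : Subgroup Γ) := by
  have : Finite (X ⊓ Y : Subgroup Γ) := fin_of_le inf_le_left
  rw [← cnt2_exp_lc, ← cnt2_exp_lc, ← Real.exp_add, ld_eq]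
  congr 1; ring

omit [Group Γ] in
theorem cnt2_le {S S' : Set Γ} (h : S ⊆ S') (hf : S'.Finite) : (S.ncard : ℝ) ≤ S'.ncard := by
  exact_mod_cast Set.ncard_le_ncard h hf

/-- double counting -/
theorem cnt2_sum [Finite X] (hS : S.Finite) (f : Γ → Γ) (hf : ∀ s ∈ S, f s ∈ X) (h' : S' ⊆ X) :
    ∑ g ∈ (cnt2_fin X).toFinset, ({s | s ∈ S ∧ g⁻¹ * f s ∈ S'}.ncard : ℝ)
      = S.ncard * S'.ncard := by
  classical
  have hS' : S'.Finite := (cnt2_fin X).subset h'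
  have e1 : ∀ g : Γ, ({s | s ∈ S ∧ g⁻¹ * f s ∈ S'}.ncard : ℝ)
      = ∑ s ∈ hS.toFinset, if g⁻¹ * f s ∈ S' then (1 : ℝ) else 0 := by
    intro g
    rw [Finset.sum_boole, ← Set.ncard_coe_finset]
    congr 2
    ext s
    simp
  have e2 : ∀ s ∈ hS.toFinset,
      (∑ g ∈ (cnt2_fin X).toFinset, if g⁻¹ * f s ∈ S' then (1 : ℝ) else 0) = S'.ncard := by
    intro s hs
    rw [Set.Finite.mem_toFinset] at hs
    rw [Finset.sum_boole, ← Set.ncard_coe_finset]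
    have hinj : Function.Injective fun y : Γ => f s * y⁻¹ := by
      intro y y' e
      simpa using e
    rw [← Set.ncard_image_of_injective S' hinj]
    congr 2
    ext g
    simp only [Finset.coe_filter, Set.Finite.mem_toFinset, SetLike.mem_coe, Set.mem_ofPred_eq,
      Set.mem_image]
    constructor
    · rintro ⟨-, h2⟩
      exact ⟨_, h2, by group⟩
    · rintro ⟨y, hy, rfl⟩
      refine ⟨X.mul_mem (hf s hs) (X.inv_mem (h' hy)), ?_⟩
      have e : (f s * y⁻¹)⁻¹ * f s = y := by group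
      rwa [e]
  simp_rw [e1]
  rw [Finset.sum_comm, Finset.sum_congr rfl e2, Finset.sum_const, nsmul_eq_mul,
    Set.ncard_eq_toFinset_card S hS]

/-- some translate is at least average -/
theorem cnt2_avg [Finite X] (hS : S.Finite) (f : Γ → Γ) (hf : ∀ s ∈ S, f s ∈ X) (h' : S' ⊆ X) :
    ∃ g ∈ X, (S.ncard : ℝ) * S'.ncard
      ≤ Nat.card X * ({s | s ∈ S ∧ g⁻¹ * f s ∈ S'}.ncard : ℝ) := by
  have hne : (cnt2_fin X).toFinset.Nonempty := ⟨1, by simp⟩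
  have hc : ((cnt2_fin X).toFinset.card : ℝ) = Nat.card X := by
    rw [← Set.ncard_eq_toFinset_card _ (cnt2_fin X), cnt2_card]
  obtain ⟨g, hg, hle⟩ := Finset.exists_le_of_sum_le (f := fun _ : Γ => (S.ncard : ℝ) * S'.ncard)
    (g := fun g : Γ => Nat.card X * ({s | s ∈ S ∧ g⁻¹ * f s ∈ S'}.ncard : ℝ)) hne (by
      rw [Finset.sum_const, nsmul_eq_mul, hc, ← Finset.mul_sum, cnt2_sum hS f hf h'])
  exact ⟨g, by simpa using hg, hle⟩

/-- representatives of the cosets met by a set -/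
theorem cnt2_reps [Finite X] (h : S ⊆ X) (Y : Subgroup Γ) :
    ∃ F : Finset Γ, (F : Set Γ) ⊆ S ∧
      (S.ncard : ℝ) ≤ F.card * Nat.card (X ⊓ Y : Subgroup Γ) ∧
      ∀ a ∈ F, ∀ a' ∈ F, a ≠ a' → a⁻¹ * a' ∉ Y := by
  classical
  have : Finite (X ⊓ Y : Subgroup Γ) := fin_of_le inf_le_left
  have hS : S.Finite := (cnt2_fin X).subset h
  obtain ⟨R, hR, hb⟩ := Set.exists_subset_bijOn S (QuotientGroup.mk : Γ → Γ ⧸ Y)
  have hRf : R.Finite := hS.subset hR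
  refine ⟨hRf.toFinset, by simpa using hR, ?_, ?_⟩
  · rw [← Set.ncard_eq_toFinset_card R hRf, ← cnt2_card, ← Nat.cast_mul, ← Set.ncard_prod]
    have hsub : S ⊆ (fun p : Γ × Γ => p.1 * p.2) '' (R ×ˢ ((X ⊓ Y : Subgroup Γ) : Set Γ)) := by
      intro s hs
      obtain ⟨r, hr, e⟩ := hb.surjOn ⟨s, hs, rfl⟩
      refine ⟨(r, r⁻¹ * s), ⟨hr, ?_, QuotientGroup.eq.1 e⟩, by simp⟩
      exact X.mul_mem (X.inv_mem (h (hR hr))) (h hs)
    have hpf : (R ×ˢ ((X ⊓ Y : Subgroup Γ) : Set Γ)).Finite := hRf.prod (cnt2_fin _)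
    exact_mod_cast (Set.ncard_le_ncard hsub (hpf.image _)).trans (Set.ncard_image_le hpf)
  · intro a ha a' ha' hne hm
    rw [Set.Finite.mem_toFinset] at ha ha'
    exact hne (hb.injOn ha ha' (QuotientGroup.eq.2 hm))

/-- disjoint translates -/
theorem cnt2_disj (F : Finset Γ) {E Z : Set Γ} (hZ : Z.Finite)
    (h : ∀ a ∈ F, ∀ a' ∈ F, ∀ x ∈ E, ∀ x' ∈ E, a * x = a' * x' → a = a')
    (hs : ∀ a ∈ F, ∀ x ∈ E, a * x ∈ Z) : (F.card : ℝ) * E.ncard ≤ Z.ncard := by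
  rw [← Set.ncard_coe_finset, ← Nat.cast_mul, ← Set.ncard_prod]
  have := Set.ncard_le_ncard_of_injOn (s := (F : Set Γ) ×ˢ E) (t := Z)
    (fun p : Γ × Γ => p.1 * p.2) (fun p hp => hs _ hp.1 _ hp.2) (by
      rintro ⟨a, x⟩ ⟨h1, h2⟩ ⟨a', x'⟩ ⟨h3, h4⟩ e
      have e1 : a = a' := h a h1 a' h3 x h2 x' h4 e
      subst e1
      have e2 : x = x' := mul_left_cancel e
      rw [e2]) hZ
  exact_mod_cast this

/-- the size of a product of two subgroups -/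
theorem cnt2_prod (A B : Subgroup Γ) [Finite A] [Finite B] :
    (Nat.card A : ℝ) * Nat.card B
      ≤ ((B : Set Γ) * (A : Set Γ)).ncard * Nat.card (B ⊓ A : Subgroup Γ) := by
  have : Finite (B ⊓ A : Subgroup Γ) := fin_of_le inf_le_left
  obtain ⟨F, hF, hc, hd⟩ := cnt2_reps (X := B) (S := (B : Set Γ)) subset_rfl A
  have h2 := cnt2_disj F (E := (A : Set Γ)) ((cnt2_fin B).mul (cnt2_fin A))
    (by
      intro a ha a' ha' x hx x' hx' e
      by_contra hne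
      apply hd a ha a' ha' hne
      have e2 : a⁻¹ * a' = x * x'⁻¹ := by
        calc a⁻¹ * a' = a⁻¹ * (a' * x') * x'⁻¹ := by group
          _ = a⁻¹ * (a * x) * x'⁻¹ := by rw [e]
          _ = x * x'⁻¹ := by group
      rw [e2]
      exact A.mul_mem hx (A.inv_mem hx'))
    (fun a ha x hx => Set.mul_mem_mul (hF ha) hx)
  rw [cnt2_card] at hc h2
  have p1 := cnt2_pos A
  have p2 := cnt2_pos (B ⊓ A : Subgroup Γ)
  calc (Nat.card A : ℝ) * Nat.card B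
      ≤ Nat.card A * (F.card * Nat.card (B ⊓ A : Subgroup Γ)) := by gcongr
    _ = (F.card * Nat.card A) * Nat.card (B ⊓ A : Subgroup Γ) := by ring
    _ ≤ _ := by gcongr

/-- left translation keeps the size -/
theorem cnt2_ncard_tr (g : Γ) (S : Set Γ) : ((fun s => g * s) '' S).ncard = S.ncard :=
  Set.ncard_image_of_injective S (mul_right_injective g)

theorem cnt2_cj_iSup (g : Γ) (T : Set Γ) (C : Subgroup Γ) :
    (⨆ t ∈ (fun s => g * s) '' T, cj t C) = cj g (⨆ t ∈ T, cj t C) := by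
  rw [iSup_image]
  simp only [cj_mul]
  simp only [cj, Subgroup.map_iSup]

theorem Dn.mono [Finite X] (h : Dn S X η) (h1 : S ⊆ S') (h2 : S' ⊆ X) (h3 : η ≤ η') :
    Dn S' X η' := by
  refine ⟨h2, ?_⟩
  have e1 : Real.exp (-η') ≤ Real.exp (-η) := Real.exp_le_exp.2 (by linarith)
  have p := cnt2_pos X
  calc Real.exp (-η') * (Nat.card X : ℝ) ≤ Real.exp (-η) * Nat.card X := by gcongr
    _ ≤ S.ncard := h.2
    _ ≤ _ := cnt2_le h1 ((cnt2_fin X).subset h2)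

theorem Dn.nonempty [Finite X] (h : Dn S X η) : S.Nonempty := by
  have p : (0 : ℝ) < S.ncard := (mul_pos (Real.exp_pos _) (cnt2_pos X)).trans_le h.2
  exact Set.nonempty_of_ncard_ne_zero (by exact_mod_cast p.ne')

theorem Dn.nonneg [Finite X] (h : Dn S X η) : 0 ≤ η := by
  have h1 := h.2.trans (cnt2_le h.1 (cnt2_fin X))
  rw [cnt2_card] at h1
  have h2 : Real.exp (-η) ≤ 1 := by
    by_contra hc
    have := cnt2_pos X
    nlinarith
  have := Real.exp_le_one_iff.1 h2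
  linarith

theorem Dn.self [Finite X] (h : Y ≤ X) : Dn (Y : Set Γ) X (ld X Y) := by
  refine ⟨h, ?_⟩
  rw [cnt2_exp_ld, inf_eq_right.2 h, cnt2_card]

theorem Dn.le_ld [Finite X] (h : Dn S X η) (h1 : S ⊆ Y) : ld X Y ≤ η := by
  have : Finite (X ⊓ Y : Subgroup Γ) := fin_of_le inf_le_left
  have h2 : S ⊆ (X ⊓ Y : Subgroup Γ) := fun s hs => ⟨h.1 hs, h1 hs⟩
  have h3 := h.2.trans (cnt2_le h2 (cnt2_fin _))
  rw [cnt2_card, ← cnt2_exp_ld] at h3
  have h4 := Real.exp_le_exp.1 (le_of_mul_le_mul_right h3 (cnt2_pos X))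
  linarith

theorem Dn.up [Finite X] (h : Dn S Y η) (h1 : Y ≤ X) : Dn S X (η + ld X Y) := by
  refine ⟨fun s hs => h1 (h.1 hs), ?_⟩
  rw [neg_add, Real.exp_add, mul_assoc, cnt2_exp_ld, inf_eq_right.2 h1]
  exact h.2

theorem Dn.conj (h : Dn S X η) (g : Γ) : Dn ((fun s => g * s * g⁻¹) '' S) (cj g X) η := by
  refine ⟨?_, ?_⟩
  · rintro _ ⟨s, hs, rfl⟩
    exact conj_mem_cj.2 (h.1 hs)
  · have hinj : Function.Injective fun s : Γ => g * s * g⁻¹ := by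
      intro y y' e
      simpa using e
    rw [card_cj, Set.ncard_image_of_injective S hinj]
    exact h.2

/-- common form of the two averaging statements -/
theorem cnt2_quot {T Z : Set Γ} {c : ℝ} (hc : 0 < c) (hT : c ≤ T.ncard) (hZ : Z.Finite)
    (h : ∀ t ∈ T, ∀ t' ∈ T, t⁻¹ * t' ∈ Z) : c ≤ Z.ncard := by
  have p : (0 : ℝ) < T.ncard := hc.trans_le hT
  obtain ⟨t, ht⟩ : T.Nonempty := Set.nonempty_of_ncard_ne_zero (by exact_mod_cast p.ne')
  refine hT.trans ?_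
  rw [← cnt2_ncard_tr t⁻¹ T]
  refine cnt2_le ?_ hZ
  rintro _ ⟨t', ht', rfl⟩
  exact h t ht t' ht'

theorem Dn.inter [Finite X] (h : Dn S X η) (h' : Dn S' X η') :
    Dn ((S⁻¹ * S) ∩ (S'⁻¹ * S')) X (η + η') := by
  have hsub : (S⁻¹ * S) ∩ (S'⁻¹ * S') ⊆ X := by
    rintro _ ⟨⟨a, ha, b, hb, rfl⟩, -⟩
    exact X.mul_mem (X.inv_mem_iff.1 (h.1 ha)) (h.1 hb)
  refine ⟨hsub, ?_⟩
  obtain ⟨g, -, hle⟩ := cnt2_avg ((cnt2_fin X).subset h.1) id (fun s hs => h.1 hs) h'.1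
  have p := cnt2_pos X
  refine cnt2_quot (T := {s | s ∈ S ∧ g⁻¹ * id s ∈ S'}) (mul_pos (Real.exp_pos _) p) ?_
    ((cnt2_fin X).subset hsub) ?_
  · refine le_of_mul_le_mul_left (le_trans ?_ hle) p
    calc (Nat.card X : ℝ) * (Real.exp (-(η + η')) * Nat.card X)
        = (Real.exp (-η) * Nat.card X) * (Real.exp (-η') * Nat.card X) := by
          rw [neg_add, Real.exp_add]; ring
      _ ≤ _ := mul_le_mul h.2 h'.2 (mul_pos (Real.exp_pos _) p).le (Nat.cast_nonneg _)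
  · rintro t ⟨h1, h2⟩ t' ⟨h3, h4⟩
    refine ⟨Set.mul_mem_mul (Set.inv_mem_inv.2 h1) h3, ?_⟩
    have e : t⁻¹ * t' = (g⁻¹ * t)⁻¹ * (g⁻¹ * t') := by group
    rw [e]
    exact Set.mul_mem_mul (Set.inv_mem_inv.2 h2) h4

theorem Dn.sub [Finite X] (h : Dn S X η) (h1 : Y ≤ X) : Dn ((S⁻¹ * S) ∩ Y) Y η := by
  have : Finite Y := fin_of_le h1
  refine ⟨Set.inter_subset_right, ?_⟩
  obtain ⟨g, -, hle⟩ := cnt2_avg (S' := (Y : Set Γ)) ((cnt2_fin X).subset h.1) id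
    (fun s hs => h.1 hs) h1
  have p := cnt2_pos X
  have q := cnt2_pos Y
  rw [cnt2_card] at hle
  refine cnt2_quot (T := {s | s ∈ S ∧ g⁻¹ * id s ∈ (Y : Set Γ)}) (mul_pos (Real.exp_pos _) q) ?_
    ((cnt2_fin Y).subset Set.inter_subset_right) ?_
  · refine le_of_mul_le_mul_left (le_trans ?_ hle) p
    calc (Nat.card X : ℝ) * (Real.exp (-η) * Nat.card Y)
        = (Real.exp (-η) * Nat.card X) * Nat.card Y := by ring
      _ ≤ _ := mul_le_mul_of_nonneg_right h.2 q.le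
  · rintro t ⟨h1, h2⟩ t' ⟨h3, h4⟩
    refine ⟨Set.mul_mem_mul (Set.inv_mem_inv.2 h1) h3, ?_⟩
    have e : t⁻¹ * t' = (g⁻¹ * t)⁻¹ * (g⁻¹ * t') := by group
    rw [e]
    exact Y.mul_mem (Y.inv_mem h2) h4

theorem Dn.prod [Finite G] (hA : A ≤ G) (hB : B ≤ G) :
    Dn ((B : Set Γ) * (A : Set Γ)) G (lc G - lc A - lc B + lc (A ⊓ B)) := by
  have : Finite A := fin_of_le hA
  have : Finite B := fin_of_le hB
  have : Finite (A ⊓ B : Subgroup Γ) := fin_of_le inf_le_left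
  refine ⟨?_, ?_⟩
  · rintro _ ⟨b, hb, a, ha, rfl⟩
    exact G.mul_mem (hB hb) (hA ha)
  · have h1 := cnt2_prod A B
    rw [inf_comm B A] at h1
    refine le_of_mul_le_mul_right (le_trans (le_of_eq ?_) h1) (cnt2_pos (A ⊓ B : Subgroup Γ))
    simp only [← cnt2_exp_lc, ← Real.exp_add]
    congr 1; ring

/-- a dense set meets many cosets -/
theorem Dn.classes [Finite X] (h : Dn S X η) (Y : Subgroup Γ) :
    ∃ F : Finset Γ, (F : Set Γ) ⊆ S ∧ Real.exp (ld X Y - η) ≤ F.card ∧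
      ∀ a ∈ F, ∀ a' ∈ F, a ≠ a' → a⁻¹ * a' ∉ Y := by
  have : Finite (X ⊓ Y : Subgroup Γ) := fin_of_le inf_le_left
  obtain ⟨F, hF, hc, hd⟩ := cnt2_reps h.1 Y
  refine ⟨F, hF, ?_, hd⟩
  refine le_of_mul_le_mul_right (le_trans (le_of_eq ?_) (h.2.trans hc))
    (cnt2_pos (X ⊓ Y : Subgroup Γ))
  rw [← cnt2_exp_ld, ← mul_assoc, ← Real.exp_add]
  congr 2; ring

/-- pigeonhole over the cosets of `N` in `A` -/
theorem Dn.fibre [Finite X] [Finite A] (h : Dn S X η) (f : Γ → Γ) (hf : ∀ σ ∈ S, f σ ∈ A)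
    (N : Subgroup Γ) : ∃ S0 ⊆ S, Dn S0 X (η + ld A N) ∧
      ∀ σ ∈ S0, ∀ σ' ∈ S0, (f σ)⁻¹ * f σ' ∈ N := by
  obtain ⟨g, -, hle⟩ := cnt2_avg (X := A) (S' := ((A ⊓ N : Subgroup Γ) : Set Γ))
    ((cnt2_fin X).subset h.1) f hf (fun s hs => hs.1)
  have p := cnt2_pos A
  rw [cnt2_card, ← cnt2_exp_ld] at hle
  refine ⟨{s | s ∈ S ∧ g⁻¹ * f s ∈ ((A ⊓ N : Subgroup Γ) : Set Γ)}, fun s hs => hs.1,
    ⟨fun s hs => h.1 hs.1, ?_⟩, ?_⟩
  · refine le_of_mul_le_mul_left (le_trans ?_ hle) p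
    calc (Nat.card A : ℝ) * (Real.exp (-(η + ld A N)) * Nat.card X)
        = (Real.exp (-η) * Nat.card X) * (Real.exp (-ld A N) * Nat.card A) := by
          rw [neg_add, Real.exp_add]; ring
      _ ≤ _ := mul_le_mul_of_nonneg_right h.2 (mul_pos (Real.exp_pos _) p).le
  · rintro t ⟨-, -, h2⟩ t' ⟨-, -, h4⟩
    have e : (f t)⁻¹ * f t' = (g⁻¹ * f t)⁻¹ * (g⁻¹ * f t') := by group
    rw [e]
    exact N.mul_mem (N.inv_mem h2) h4

/-- a large finite set has two points in one translate of a dense set -/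
theorem Dn.translate [Finite X] (h : Dn S X η) (F : Finset Γ) (hF : (F : Set Γ) ⊆ X)
    (hc : Real.exp η < F.card) : ∃ a ∈ F, ∃ a' ∈ F, a ≠ a' ∧ a * a'⁻¹ ∈ S * S⁻¹ := by
  obtain ⟨g, -, hle⟩ := cnt2_avg (X := X) (S := (F : Set Γ)) (S' := S⁻¹) F.finite_toSet
    (fun s => s⁻¹) (fun s hs => X.inv_mem (hF hs)) (fun s hs => X.inv_mem_iff.1 (h.1 hs))
  have p := cnt2_pos X
  rw [Set.ncard_inv, Set.ncard_coe_finset] at hle
  have h1 : (1 : ℝ) < ({s | s ∈ (F : Set Γ) ∧ g⁻¹ * s⁻¹ ∈ S⁻¹}.ncard : ℝ) := by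
    refine lt_of_mul_lt_mul_left (lt_of_lt_of_le ?_ hle) p.le
    calc (Nat.card X : ℝ) * 1 = Real.exp η * (Real.exp (-η) * Nat.card X) := by
          rw [← mul_assoc, ← Real.exp_add, add_neg_cancel, Real.exp_zero, mul_comm]
      _ < F.card * (Real.exp (-η) * Nat.card X) :=
          mul_lt_mul_of_pos_right hc (mul_pos (Real.exp_pos _) p)
      _ ≤ _ := mul_le_mul_of_nonneg_left h.2 (Nat.cast_nonneg _)
  have hfin : {s | s ∈ (F : Set Γ) ∧ g⁻¹ * s⁻¹ ∈ S⁻¹}.Finite :=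
    F.finite_toSet.subset fun s hs => hs.1
  obtain ⟨a, ⟨h2, h3⟩, a', ⟨h4, h5⟩, hne⟩ := (Set.one_lt_ncard hfin).1 (by exact_mod_cast h1)
  refine ⟨a, h2, a', h4, hne, ?_⟩
  have e : a * a'⁻¹ = (g⁻¹ * a⁻¹)⁻¹ * (g⁻¹ * a'⁻¹) := by group
  rw [e]
  exact Set.mul_mem_mul (Set.mem_inv.1 h3) h5

theorem Sym.pow (h : Sym S) (m : ℕ) : Sym (S ^ m) :=
  ⟨Set.one_mem_pow h.1, by rw [← inv_pow, h.2]⟩

theorem Sym.pow_mono (h : Sym S) {m m' : ℕ} (hm : m ≤ m') : S ^ m ⊆ S ^ m' :=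
  Set.pow_subset_pow_right h.1 hm

theorem sym_inv_mul (h : S.Nonempty) : Sym (S⁻¹ * S) := by
  obtain ⟨s, hs⟩ := h
  refine ⟨?_, by rw [mul_inv_rev, inv_inv]⟩
  rw [← inv_mul_cancel s]
  exact Set.mul_mem_mul (Set.inv_mem_inv.2 hs) hs

theorem Sym.inter (h : Sym S) (h' : Sym S') : Sym (S ∩ S') :=
  ⟨⟨h.1, h'.1⟩, by rw [Set.inter_inv, h.2, h'.2]⟩

theorem Sym.subgroup (X : Subgroup Γ) : Sym (X : Set Γ) := ⟨X.one_mem, inv_coe_set⟩

theorem pow_subset_subgroup (h : S ⊆ X) (m : ℕ) : S ^ m ⊆ X := by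
  induction m with
  | zero =>
    intro x hx
    rw [pow_zero, Set.mem_one] at hx
    rw [hx]
    exact X.one_mem
  | succ m ih =>
    rw [pow_succ]
    rintro _ ⟨a, ha, b, hb, rfl⟩
    exact X.mul_mem (ih ha) (h hb)

/-- many double cosets force a deficit -/
theorem ld_deficit [Finite G] (hY : Y ≤ G) (hX : X ≤ G) (F : Finset Γ) (hF : (F : Set Γ) ⊆ G)
    (hne : F.Nonempty)
    (h : ∀ a ∈ F, ∀ a' ∈ F, a ≠ a' → a'⁻¹ * a ∉ (Y : Set Γ) * (X : Set Γ) * (Y : Set Γ)) :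
    ld Y X + Real.log F.card ≤ ld G X := by
  have : Finite Y := fin_of_le hY
  have : Finite X := fin_of_le hX
  have : Finite (Y ⊓ X : Subgroup Γ) := fin_of_le inf_le_left
  have h1 := cnt2_prod X Y
  have h2 := cnt2_disj F (E := (Y : Set Γ) * (X : Set Γ)) (cnt2_fin G)
    (by
      rintro a ha a' ha' _ ⟨y, hy, x, hx, rfl⟩ _ ⟨y', hy', x', hx', rfl⟩ e
      by_contra hne'
      apply h a ha a' ha' hne'
      have e2 : a'⁻¹ * a = y' * (x' * x⁻¹) * y⁻¹ := by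
        calc a'⁻¹ * a = a'⁻¹ * (a * (y * x)) * (y * x)⁻¹ := by group
          _ = a'⁻¹ * (a' * (y' * x')) * (y * x)⁻¹ := by rw [e]
          _ = y' * (x' * x⁻¹) * y⁻¹ := by group
      rw [e2]
      exact Set.mul_mem_mul (Set.mul_mem_mul hy' (X.mul_mem hx' (X.inv_mem hx))) (Y.inv_mem hy))
    (by
      rintro a ha _ ⟨y, hy, x, hx, rfl⟩
      exact G.mul_mem (hF ha) (G.mul_mem (hY hy) (hX hx)))
  rw [cnt2_card] at h2
  have pF : (0 : ℝ) < F.card := by exact_mod_cast hne.card_pos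
  have p := cnt2_pos (Y ⊓ X : Subgroup Γ)
  have h3 : (F.card : ℝ) * (Nat.card X * Nat.card Y)
      ≤ Nat.card G * Nat.card (Y ⊓ X : Subgroup Γ) := by
    calc (F.card : ℝ) * (Nat.card X * Nat.card Y)
        ≤ F.card * (((Y : Set Γ) * (X : Set Γ)).ncard * Nat.card (Y ⊓ X : Subgroup Γ)) := by
          gcongr
      _ = (F.card * ((Y : Set Γ) * (X : Set Γ)).ncard) * Nat.card (Y ⊓ X : Subgroup Γ) := by ring
      _ ≤ _ := by gcongr
  rw [← Real.exp_log pF] at h3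
  simp only [← cnt2_exp_lc, ← Real.exp_add] at h3
  have h4 := Real.exp_le_exp.1 h3
  rw [ld_eq, ld_eq, inf_eq_right.2 hX]
  linarith

/-- a set has large intersection with many of its translates -/
theorem cnt2_many [Finite G] {E : Set Γ} {τ : ℝ} (h : Dn E G τ) :
    ∃ S : Set Γ, Dn S G (τ + 1) ∧
      ∀ g ∈ S, Dn {s | s ∈ E ∧ g⁻¹ * s ∈ E} G (2 * τ + 1) := by
  classical
  have hE : E.Finite := (cnt2_fin G).subset h.1
  have p := cnt2_pos G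
  have pE : (0 : ℝ) < E.ncard := (mul_pos (Real.exp_pos _) p).trans_le h.2
  have hhalf : Real.exp (-1) ≤ 1 / 2 := by
    have h1 := Real.add_one_le_exp 1
    rw [Real.exp_neg, one_div]
    exact inv_anti₀ (by norm_num) (by linarith)
  set I : Γ → ℝ := fun g => ({s | s ∈ E ∧ g⁻¹ * s ∈ E}.ncard : ℝ) with hI
  set c : ℝ := (E.ncard : ℝ) * E.ncard / (2 * Nat.card G) with hc
  have hsum : ∑ g ∈ (cnt2_fin G).toFinset, I g = E.ncard * E.ncard :=
    cnt2_sum hE id (fun s hs => h.1 hs) h.1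
  have hcard : ((cnt2_fin G).toFinset.card : ℝ) = Nat.card G := by
    rw [← Set.ncard_eq_toFinset_card _ (cnt2_fin G), cnt2_card]
  have hc0 : 0 ≤ c := by positivity
  have hle : ∀ g ∈ (cnt2_fin G).toFinset,
      I g ≤ c + E.ncard * (if c ≤ I g then (1 : ℝ) else 0) := by
    intro g _
    split_ifs with hg
    · have : I g ≤ E.ncard := cnt2_le (fun s hs => hs.1) hE
      linarith
    · linarith [not_le.1 hg]
  have h2 := Finset.sum_le_sum hle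
  rw [hsum, Finset.sum_add_distrib, Finset.sum_const, nsmul_eq_mul, hcard, ← Finset.mul_sum,
    Finset.sum_boole] at h2
  have h3 : (Nat.card G : ℝ) * c = E.ncard * E.ncard / 2 := by
    rw [hc]; field_simp
  have h4 : (E.ncard : ℝ) / 2 ≤ ((cnt2_fin G).toFinset.filter fun g => c ≤ I g).card := by
    refine le_of_mul_le_mul_left ?_ pE
    linarith
  refine ⟨((cnt2_fin G).toFinset.filter fun g => c ≤ I g : Finset Γ), ⟨?_, ?_⟩, ?_⟩
  · intro g hg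
    simpa using (Finset.mem_filter.1 hg).1
  · rw [Set.ncard_coe_finset]
    refine le_trans ?_ h4
    calc Real.exp (-(τ + 1)) * (Nat.card G : ℝ)
        = Real.exp (-1) * (Real.exp (-τ) * Nat.card G) := by
          rw [neg_add, Real.exp_add]; ring
      _ ≤ 1 / 2 * E.ncard :=
          mul_le_mul hhalf h.2 (mul_pos (Real.exp_pos _) p).le (by norm_num)
      _ = _ := by ring
  · intro g hg
    refine ⟨fun s hs => h.1 hs.1, le_trans ?_ (Finset.mem_filter.1 hg).2⟩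
    refine le_of_mul_le_mul_left ?_ p
    rw [h3]
    have h5 : (Real.exp (-τ) * Nat.card G) * (Real.exp (-τ) * Nat.card G)
        ≤ (E.ncard : ℝ) * E.ncard :=
      mul_le_mul h.2 h.2 (mul_pos (Real.exp_pos _) p).le pE.le
    calc (Nat.card G : ℝ) * (Real.exp (-(2 * τ + 1)) * Nat.card G)
        = Real.exp (-1) * ((Real.exp (-τ) * Nat.card G) * (Real.exp (-τ) * Nat.card G)) := by
          rw [show -(2 * τ + 1) = -1 + (-τ + -τ) by ring, Real.exp_add, Real.exp_add]; ring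
      _ ≤ 1 / 2 * (E.ncard * E.ncard) :=
          mul_le_mul hhalf h5 (by positivity) (by norm_num)
      _ = _ := by ring

/-- the robust span -/
theorem robust {C U : Subgroup Γ} [Finite G] [Finite U] (hA : A ≤ G) (hB : B ≤ G)
    (hC : A ≤ normalizer (C : Set Γ)) (hU : ∀ g ∈ G, cj g C ≤ U) (J : ℕ) (hJ : 0 < J)
    (hη : 1 ≤ η) (hd : Dn ((B : Set Γ) * (A : Set Γ)) G η) :
    ∃ (T S : Set Γ), T ⊆ B ∧ 1 ∈ T ∧ Dn S G (3 ^ (J + 1) * η) ∧
      ∀ σ ∈ S, ld (cj σ (⨆ t ∈ T, cj t C)) (⨆ t ∈ T, cj t C) ≤ lc U / J := by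
  have : Finite B := fin_of_le hB
  have hNU : ∀ T : Set Γ, T ⊆ B → (⨆ t ∈ T, cj t C) ≤ U := fun T hT =>
    iSup₂_le fun t ht => hU t (hB (hT ht))
  have hpow : ∀ j : ℕ, η ≤ 3 ^ j * η := fun j =>
    le_mul_of_one_le_left (by linarith) (one_le_pow₀ (by norm_num))
  have hopt : ∀ j : ℕ, ∃ T : Set Γ, (T ⊆ B ∧ Dn (T * (A : Set Γ)) G (3 ^ j * η)) ∧ 1 ∈ T ∧
      ∀ T' : Set Γ, T' ⊆ B → Dn (T' * (A : Set Γ)) G (3 ^ j * η) →
        lc (⨆ t ∈ T, cj t C) ≤ lc (⨆ t ∈ T', cj t C) := by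
    intro j
    obtain ⟨T, ⟨h1, h2⟩, h3⟩ := Set.exists_min_image
      {T : Set Γ | T ⊆ B ∧ Dn (T * (A : Set Γ)) G (3 ^ j * η)}
      (fun T => lc (⨆ t ∈ T, cj t C))
      ((cnt2_fin B).finite_subsets.subset fun T hT => hT.1)
      ⟨B, subset_rfl, hd.mono subset_rfl hd.1 (hpow j)⟩
    obtain ⟨_, t0, ht0, -⟩ := h2.nonempty
    have e : ((fun s => t0⁻¹ * s) '' T) * (A : Set Γ)
        = (fun s => t0⁻¹ * s) '' (T * (A : Set Γ)) := by
      ext x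
      constructor
      · rintro ⟨_, ⟨t, ht, rfl⟩, a, ha, rfl⟩
        exact ⟨t * a, Set.mul_mem_mul ht ha, (mul_assoc _ _ _).symm⟩
      · rintro ⟨_, ⟨t, ht, a, ha, rfl⟩, rfl⟩
        exact ⟨_, ⟨t, ht, rfl⟩, a, ha, mul_assoc _ _ _⟩
    refine ⟨(fun s => t0⁻¹ * s) '' T, ⟨?_, ?_, ?_⟩, ⟨t0, ht0, inv_mul_cancel t0⟩, ?_⟩
    · rintro _ ⟨t, ht, rfl⟩
      exact B.mul_mem (B.inv_mem (h1 ht0)) (h1 ht)
    · rw [e]
      rintro _ ⟨x, hx, rfl⟩
      exact G.mul_mem (G.inv_mem (hB (h1 ht0))) (h2.1 hx)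
    · rw [e, cnt2_ncard_tr]
      exact h2.2
    · intro T' h4 h5
      rw [cnt2_cj_iSup, lc_cj]
      exact h3 T' ⟨h4, h5⟩
  choose T hT hT1 hTmin using hopt
  have hJ' : (0 : ℝ) < J := by exact_mod_cast hJ
  obtain ⟨j, hj, hstep⟩ : ∃ j ∈ Finset.range J,
      lc (⨆ t ∈ T j, cj t C) - lc (⨆ t ∈ T (j + 1), cj t C) ≤ lc U / J := by
    apply Finset.exists_le_of_sum_le (Finset.nonempty_range_iff.2 hJ.ne')
    rw [Finset.sum_range_sub' (fun j => lc (⨆ t ∈ T j, cj t C)), Finset.sum_const,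
      Finset.card_range, nsmul_eq_mul, mul_div_cancel₀ _ hJ'.ne']
    have h1 := lc_mono (hNU _ (hT 0).1)
    have h2 := lc_nonneg (⨆ t ∈ T J, cj t C)
    linarith
  rw [Finset.mem_range] at hj
  obtain ⟨S, hS, hSg⟩ := cnt2_many (hT j).2
  have hτ : 1 ≤ 3 ^ j * η := hη.trans (hpow j)
  refine ⟨T j, S, (hT j).1, hT1 j, hS.mono subset_rfl hS.1 ?_, ?_⟩
  · have h1 : (3 : ℝ) ^ j * η ≤ 3 ^ J * η :=
      mul_le_mul_of_nonneg_right (pow_le_pow_right₀ (by norm_num) hj.le) (by linarith)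
    rw [pow_succ]
    linarith
  · intro g hg
    have : Finite (⨆ t ∈ T j, cj t C : Subgroup Γ) := fin_of_le (hNU _ (hT j).1)
    have : Finite ((⨆ t ∈ T j, cj t C) ⊓ cj g (⨆ t ∈ T j, cj t C) : Subgroup Γ) :=
      fin_of_le inf_le_left
    have hsub : {t | t ∈ T j ∧ g⁻¹ * t ∈ T j * (A : Set Γ)} ⊆ B := fun t ht => (hT j).1 ht.1
    have h1 : Dn ({t | t ∈ T j ∧ g⁻¹ * t ∈ T j * (A : Set Γ)} * (A : Set Γ)) G
        (3 ^ (j + 1) * η) := by
      refine (hSg g hg).mono ?_ ?_ ?_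
      · rintro _ ⟨⟨t, ht, a, ha, rfl⟩, t', ht', a', ha', e⟩
        refine Set.mul_mem_mul (a := t) ⟨ht, t', ht', a' * a⁻¹, A.mul_mem ha' (A.inv_mem ha), ?_⟩ ha
        have e' : t' * a' = g⁻¹ * (t * a) := e
        show t' * (a' * a⁻¹) = g⁻¹ * t
        rw [← mul_assoc, e']; group
      · rintro _ ⟨t, ht, a, ha, rfl⟩
        exact G.mul_mem (hB (hsub ht)) (hA ha)
      · rw [pow_succ]
        linarith
    have h2 := hTmin (j + 1) _ hsub h1
    have h3 : (⨆ t ∈ {t | t ∈ T j ∧ g⁻¹ * t ∈ T j * (A : Set Γ)}, cj t C)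
        ≤ (⨆ t ∈ T j, cj t C) ⊓ cj g (⨆ t ∈ T j, cj t C) := by
      refine iSup₂_le ?_
      rintro t ⟨ht, t', ht', a', ha', e⟩
      refine le_inf (le_iSup₂_of_le t ht le_rfl) ?_
      have e' : t' * a' = g⁻¹ * t := e
      have e2 : t = g * (t' * a') := by rw [e']; group
      rw [e2, cj_mul, cj_mul, cj_eq_iff.2 (hC ha')]
      exact cj_mono g (le_iSup₂_of_le t' ht' le_rfl)
    have h4 := lc_mono h3
    rw [← ld_cj_symm, ld_eq]
    linarith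

end Pool.Agent.PSV
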