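import Pool.Agent.Lib.MP_607584_al.PSV.Ult

/-! Averages over scales and positions. -/

namespace Pool.Agent.PSV

open Filter Topology

/-- ranges of scales and positions -/
structure Sch where
  E : ℕ → ℕ
  N : ℕ → ℕ
  hE : Tendsto E om atTop
  hN : ∀ c : ℕ, ∀ᶠ k in om, c * 2 ^ (2 * E k) ≤ N k

/-- functions of the index, the exponent of the scale and the position -/
abbrev Fn := ℕ → ℕ → ℤ → ℝ

/-- events -/
abbrev Evt := ℕ → ℕ → ℤ → Prop

namespace Sch

variable (s : Sch)

/-- finite average -/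
noncomputable def avg (F : Fn) (k : ℕ) : ℝ :=
  (∑ e ∈ Finset.Ico (s.E k) (2 * s.E k), ∑ i ∈ Finset.range (s.N k), F k e i) /
    (s.E k * s.N k)

/-- the mean -/
noncomputable def Ex (F : Fn) : ℝ := ulim (s.avg F)

/-- bounded functions -/
def Bd (F : Fn) : Prop := ∃ B : ℝ, ∀ᶠ k in om, ∀ e, e ≤ 2 * s.E k → ∀ i, |F k e i| ≤ B

open Classical in
/-- the probability -/
noncomputable def Pr (A : Evt) : ℝ := s.Ex fun k e i => if A k e i then 1 else 0

/-- the property holds at all scales and positions in the range, for almost all indices -/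
def All (A : Evt) : Prop :=
  ∀ᶠ k in om, ∀ e, s.E k ≤ e → e < 2 * s.E k → ∀ i : ℤ, 0 ≤ i → i < s.N k → A k e i

variable {s} {F G : Fn} {A B : Evt}

private theorem mean_pos (s : Sch) : ∀ᶠ k in om, 0 < s.E k ∧ 0 < s.N k := by
  filter_upwards [s.hE.eventually (eventually_ge_atTop 1), s.hN 1] with k h1 h2
  refine ⟨h1, lt_of_lt_of_le ?_ h2⟩
  positivity

private theorem mean_ge (s : Sch) (m : ℕ) : ∀ᶠ k in om, m ≤ s.E k :=
  s.hE.eventually (eventually_ge_atTop m)

private theorem mean_abs_sum {ι : Type*} (t : Finset ι) (f : ι → ℝ) {C : ℝ}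
    (h : ∀ j ∈ t, |f j| ≤ C) : |∑ j ∈ t, f j| ≤ t.card * C := by
  refine (Finset.abs_sum_le_sum_abs _ _).trans ?_
  have := Finset.sum_le_card_nsmul t (fun j => |f j|) C h
  simpa [nsmul_eq_mul] using this

private theorem mean_card (k : ℕ) : (Finset.Ico (s.E k) (2 * s.E k)).card = s.E k := by
  rw [Nat.card_Ico]; omega

private theorem mean_bd1 (hF : s.Bd F) : Bd1 (s.avg F) := by
  obtain ⟨C, hC⟩ := hF
  refine ⟨C, ?_⟩
  filter_upwards [hC, mean_pos s] with k h ⟨h1, h2⟩
  have hE : (0 : ℝ) < s.E k := by exact_mod_cast h1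
  have hN : (0 : ℝ) < s.N k := by exact_mod_cast h2
  unfold avg
  rw [abs_div, abs_of_pos (mul_pos hE hN), div_le_iff₀ (mul_pos hE hN)]
  have := mean_abs_sum (Finset.Ico (s.E k) (2 * s.E k))
    (fun e => ∑ i ∈ Finset.range (s.N k), F k e i) (C := s.N k * C) (by
      intro e he
      have := mean_abs_sum (Finset.range (s.N k)) (fun i : ℕ => F k e i) (C := C)
        (fun i _ => h e (Finset.mem_Ico.1 he).2.le i)
      simpa using this)
  rw [mean_card] at this
  calc _ ≤ _ := this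
    _ = _ := by ring

private theorem mean_sh (f : ℕ → ℝ) (N n : ℕ) {C : ℝ} (h : ∀ j < N + n, |f j| ≤ C) :
    |∑ j ∈ Finset.range N, f (n + j) - ∑ j ∈ Finset.range N, f j| ≤ 2 * C * n := by
  have h1 := Finset.sum_range_add f N n
  have h2 := Finset.sum_range_add f n N
  rw [add_comm n N] at h2
  have h3 : ∑ j ∈ Finset.range N, f (n + j) - ∑ j ∈ Finset.range N, f j =
      ∑ j ∈ Finset.range n, f (N + j) - ∑ j ∈ Finset.range n, f j := by linarith
  have h4 := mean_abs_sum (Finset.range n) (fun j => f (N + j)) (C := C)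
    (fun j hj => h _ (by have := Finset.mem_range.1 hj; omega))
  have h5 := mean_abs_sum (Finset.range n) f (C := C)
    (fun j hj => h _ (by have := Finset.mem_range.1 hj; omega))
  rw [Finset.card_range] at h4 h5
  rw [h3]
  refine (abs_sub _ _).trans ?_
  linarith

private theorem mean_shZ (g : ℤ → ℝ) (N : ℕ) (c : ℤ) {C : ℝ} (h : ∀ j, |g j| ≤ C) :
    |∑ j ∈ Finset.range N, g (j + c) - ∑ j ∈ Finset.range N, g j| ≤ 2 * C * |(c : ℝ)| := by
  obtain ⟨n, rfl | rfl⟩ := Int.eq_nat_or_neg c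
  · have := mean_sh (fun j : ℕ => g j) N n (C := C) (fun j _ => h _)
    simp only [Nat.cast_add, add_comm (n : ℤ)] at this
    simpa using this
  · have := mean_sh (fun j : ℕ => g (j + -(n : ℤ))) N n (C := C) (fun j _ => h _)
    rw [abs_sub_comm] at this
    have e : ∀ j : ℕ, (((n + j : ℕ) : ℤ) + -(n : ℤ)) = j := by
      intro j; push_cast; ring
    simp only [e] at this
    simpa using this

private theorem mean_ratio (s : Sch) :
    Tendsto (fun k => (2 : ℝ) ^ (2 * s.E k) / s.N k) om (𝓝 0) := by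
  rw [Metric.tendsto_nhds]
  intro ε hε
  obtain ⟨c, hc⟩ := exists_nat_gt (1 / ε)
  filter_upwards [s.hN c, mean_pos s] with k h ⟨_, h2⟩
  have hN : (0 : ℝ) < s.N k := by exact_mod_cast h2
  have h' : (c : ℝ) * 2 ^ (2 * s.E k) ≤ s.N k := by exact_mod_cast h
  have hp : (0 : ℝ) < 2 ^ (2 * s.E k) := by positivity
  rw [Real.dist_eq, sub_zero, abs_of_pos (div_pos hp hN), div_lt_iff₀ hN]
  rw [div_lt_iff₀ hε] at hc
  nlinarith

private theorem mean_invE (s : Sch) : Tendsto (fun k => ((s.E k : ℝ))⁻¹) om (𝓝 0) :=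
  tendsto_inv_atTop_zero.comp (tendsto_natCast_atTop_atTop.comp s.hE)

open Classical in
private theorem mean_bd_ind (A : Evt) : s.Bd fun k e i => if A k e i then 1 else 0 := by
  refine ⟨1, Eventually.of_forall fun k e _ i => ?_⟩
  dsimp only
  split_ifs <;> simp

private theorem mean_all (h : ∀ k e i, A k e i) : s.All A :=
  Eventually.of_forall fun k e _ _ i _ _ => h k e i

theorem Bd.add (hF : s.Bd F) (hG : s.Bd G) : s.Bd fun k e i => F k e i + G k e i := by
  obtain ⟨C, hC⟩ := hF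
  obtain ⟨D, hD⟩ := hG
  refine ⟨C + D, ?_⟩
  filter_upwards [hC, hD] with k h1 h2 e he i
  exact (abs_add_le _ _).trans (add_le_add (h1 e he i) (h2 e he i))

theorem Bd.sub (hF : s.Bd F) (hG : s.Bd G) : s.Bd fun k e i => F k e i - G k e i := by
  obtain ⟨C, hC⟩ := hF
  obtain ⟨D, hD⟩ := hG
  refine ⟨C + D, ?_⟩
  filter_upwards [hC, hD] with k h1 h2 e he i
  exact (abs_sub _ _).trans (add_le_add (h1 e he i) (h2 e he i))

theorem Bd.mul (hF : s.Bd F) (a : ℝ) : s.Bd fun k e i => a * F k e i := by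
  obtain ⟨C, hC⟩ := hF
  refine ⟨|a| * C, ?_⟩
  filter_upwards [hC] with k h1 e he i
  rw [abs_mul]
  exact mul_le_mul_of_nonneg_left (h1 e he i) (abs_nonneg a)

theorem Bd.const (a : ℝ) : s.Bd fun _ _ _ => a :=
  ⟨|a|, Eventually.of_forall fun _ _ _ _ => le_rfl⟩

theorem Bd.shift (hF : s.Bd F) (m : ℕ) (c : ℕ → ℤ) :
    s.Bd fun k e i => F k (e - m) (i + c e) := by
  obtain ⟨C, hC⟩ := hF
  refine ⟨C, ?_⟩
  filter_upwards [hC] with k h1 e he i
  exact h1 _ (by omega) _

theorem Bd.sum {ι : Type*} (t : Finset ι) {F : ι → Fn} (h : ∀ j ∈ t, s.Bd (F j)) :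
    s.Bd fun k e i => ∑ j ∈ t, F j k e i := by
  classical
  induction t using Finset.induction_on with
  | empty => simpa using Bd.const (s := s) 0
  | insert a t ha ih =>
    simp only [Finset.sum_insert ha]
    exact (h a (Finset.mem_insert_self _ _)).add
      (ih fun j hj => h j (Finset.mem_insert_of_mem hj))

theorem Ex_const (a : ℝ) : s.Ex (fun _ _ _ => a) = a := by
  unfold Ex
  refine (ulim_congr ?_).trans (ulim_const a)
  filter_upwards [mean_pos s] with k ⟨h1, h2⟩
  have hE : (s.E k : ℝ) ≠ 0 := by exact_mod_cast h1.ne'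
  have hN : (s.N k : ℝ) ≠ 0 := by exact_mod_cast h2.ne'
  simp only [avg, Finset.sum_const, Finset.card_range, mean_card, nsmul_eq_mul]
  field_simp

theorem Ex_add (hF : s.Bd F) (hG : s.Bd G) :
    s.Ex (fun k e i => F k e i + G k e i) = s.Ex F + s.Ex G := by
  unfold Ex
  rw [← ulim_add (mean_bd1 hF) (mean_bd1 hG)]
  congr 1
  funext k
  simp only [avg, Finset.sum_add_distrib, add_div]

private theorem mean_mul (hF : s.Bd F) (a : ℝ) :
    s.Ex (fun k e i => a * F k e i) = a * s.Ex F := by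
  unfold Ex
  rw [← ulim_mul (mean_bd1 hF)]
  congr 1
  funext k
  simp only [avg, ← Finset.mul_sum, mul_div_assoc]

theorem Ex_sub (hF : s.Bd F) (hG : s.Bd G) :
    s.Ex (fun k e i => F k e i - G k e i) = s.Ex F - s.Ex G := by
  have h := Ex_add hF (hG.mul (-1))
  rw [mean_mul hG] at h
  simpa [sub_eq_add_neg] using h

theorem Ex_mul (hF : s.Bd F) (a : ℝ) : s.Ex (fun k e i => a * F k e i) = a * s.Ex F :=
  mean_mul hF a

theorem Ex_sum {ι : Type*} (t : Finset ι) {F : ι → Fn} (h : ∀ j ∈ t, s.Bd (F j)) :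
    s.Ex (fun k e i => ∑ j ∈ t, F j k e i) = ∑ j ∈ t, s.Ex (F j) := by
  classical
  induction t using Finset.induction_on with
  | empty => simpa using Ex_const (s := s) 0
  | insert a t ha ih =>
    simp only [Finset.sum_insert ha]
    have h' : ∀ j ∈ t, s.Bd (F j) := fun j hj => h j (Finset.mem_insert_of_mem hj)
    rw [Ex_add (h a (Finset.mem_insert_self _ _)) (Bd.sum t h'), ih h']

theorem Ex_mono (hF : s.Bd F) (hG : s.Bd G) (h : s.All fun k e i => F k e i ≤ G k e i) :
    s.Ex F ≤ s.Ex G := by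
  refine ulim_mono (mean_bd1 hF) (mean_bd1 hG) ?_
  filter_upwards [h] with k hk
  unfold avg
  refine div_le_div_of_nonneg_right ?_ (by positivity)
  refine Finset.sum_le_sum fun e he => Finset.sum_le_sum fun i hi => ?_
  exact hk e (Finset.mem_Ico.1 he).1 (Finset.mem_Ico.1 he).2 i (Int.natCast_nonneg i)
    (by exact_mod_cast Finset.mem_range.1 hi)

theorem Ex_congr (h : s.All fun k e i => F k e i = G k e i) : s.Ex F = s.Ex G := by
  refine ulim_congr ?_
  filter_upwards [h] with k hk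
  unfold avg
  congr 1
  refine Finset.sum_congr rfl fun e he => Finset.sum_congr rfl fun i hi => ?_
  exact hk e (Finset.mem_Ico.1 he).1 (Finset.mem_Ico.1 he).2 i (Int.natCast_nonneg i)
    (by exact_mod_cast Finset.mem_range.1 hi)

/-- invariance under translation and change of scale -/
theorem Ex_shift (hF : s.Bd F) (m X : ℕ) (c : ℕ → ℤ) (hc : ∀ e, |c e| ≤ X * 2 ^ e) :
    s.Ex (fun k e i => F k (e - m) (i + c e)) = s.Ex F := by
  have hl := ulim_tendsto (mean_bd1 hF)
  obtain ⟨C, hC⟩ := hF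
  refine ulim_eq ?_
  have hδ : Tendsto (fun k => 2 * C * X * ((2 : ℝ) ^ (2 * s.E k) / s.N k) +
      2 * C * m * ((s.E k : ℝ))⁻¹) om (𝓝 0) := by
    have := ((mean_ratio s).const_mul (2 * C * X)).add ((mean_invE s).const_mul (2 * C * m))
    simpa using this
  have hd : Tendsto (fun k => s.avg (fun k e i => F k (e - m) (i + c e)) k - s.avg F k) om
      (𝓝 0) := by
    refine squeeze_zero_norm' ?_ hδ
    filter_upwards [hC, mean_pos s, mean_ge s m] with k h ⟨h1, h2⟩ hm
    have hE : (0 : ℝ) < s.E k := by exact_mod_cast h1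
    have hN : (0 : ℝ) < s.N k := by exact_mod_cast h2
    have hC0 : 0 ≤ C := (abs_nonneg _).trans (h 0 (Nat.zero_le _) 0)
    have a1 : |∑ e ∈ Finset.Ico (s.E k) (2 * s.E k), (∑ i ∈ Finset.range (s.N k),
        F k (e - m) (i + c e) - ∑ i ∈ Finset.range (s.N k), F k (e - m) i)| ≤
        s.E k * (2 * C * (X * 2 ^ (2 * s.E k))) := by
      have := mean_abs_sum (Finset.Ico (s.E k) (2 * s.E k)) (fun e => ∑ i ∈ Finset.range (s.N k),
        F k (e - m) (i + c e) - ∑ i ∈ Finset.range (s.N k), F k (e - m) i)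
        (C := 2 * C * (X * 2 ^ (2 * s.E k))) (by
          intro e he
          have he' := (Finset.mem_Ico.1 he).2
          refine (mean_shZ (F k (e - m)) (s.N k) (c e) (C := C)
            (fun j => h _ (by omega) j)).trans ?_
          refine mul_le_mul_of_nonneg_left ?_ (by positivity)
          have b1 : |(c e : ℝ)| ≤ X * 2 ^ e := by exact_mod_cast hc e
          refine b1.trans (mul_le_mul_of_nonneg_left ?_ (by positivity))
          exact pow_le_pow_right₀ (by norm_num) he'.le)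
      rwa [mean_card] at this
    have a2 : |∑ e ∈ Finset.Ico (s.E k) (2 * s.E k), ∑ i ∈ Finset.range (s.N k), F k e i -
        ∑ e ∈ Finset.Ico (s.E k) (2 * s.E k), ∑ i ∈ Finset.range (s.N k), F k (e - m) i| ≤
        2 * (s.N k * C) * m := by
      rw [Finset.sum_Ico_eq_sum_range, Finset.sum_Ico_eq_sum_range,
        show 2 * s.E k - s.E k = s.E k by omega]
      have := mean_sh (fun j => ∑ i ∈ Finset.range (s.N k), F k (s.E k + j - m) i) (s.E k) m
        (C := s.N k * C) (by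
          intro j hj
          have := mean_abs_sum (Finset.range (s.N k)) (fun i : ℕ => F k (s.E k + j - m) i)
            (C := C) (fun i _ => h _ (by omega) i)
          simpa using this)
      have e : ∀ j, s.E k + (m + j) - m = s.E k + j := by intro j; omega
      simpa only [e] using this
    rw [Finset.sum_sub_distrib] at a1
    rw [abs_sub_comm] at a2
    rw [Real.norm_eq_abs]
    unfold avg
    rw [← sub_div, abs_div, abs_of_pos (mul_pos hE hN), div_le_iff₀ (mul_pos hE hN)]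
    refine ((abs_sub_le _ _ _).trans (add_le_add a1 a2)).trans (le_of_eq ?_)
    field_simp
  have := hd.add hl
  simpa [Ex] using this

theorem Pr_shift (A : Evt) (m X : ℕ) (c : ℕ → ℤ) (hc : ∀ e, |c e| ≤ X * 2 ^ e) :
    s.Pr (fun k e i => A k (e - m) (i + c e)) = s.Pr A :=
  Ex_shift (mean_bd_ind A) m X c hc

theorem Pr_nonneg (A : Evt) : 0 ≤ s.Pr A := by
  rw [← Ex_const (s := s) 0]
  refine Ex_mono (Bd.const 0) (mean_bd_ind A) (mean_all fun k e i => ?_)
  split_ifs <;> simp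

theorem Pr_le_one (A : Evt) : s.Pr A ≤ 1 := by
  rw [← Ex_const (s := s) 1]
  refine Ex_mono (mean_bd_ind A) (Bd.const 1) (mean_all fun k e i => ?_)
  split_ifs <;> simp

theorem Pr_not (A : Evt) : s.Pr (fun k e i => ¬ A k e i) = 1 - s.Pr A := by
  have h := Ex_sub (Bd.const (s := s) 1) (mean_bd_ind A)
  rw [Ex_const] at h
  refine Eq.trans ?_ h
  refine Ex_congr (mean_all fun k e i => ?_)
  dsimp only
  by_cases hA : A k e i <;> simp [hA]

theorem Pr_mono (h : s.All fun k e i => A k e i → B k e i) : s.Pr A ≤ s.Pr B := by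
  refine Ex_mono (mean_bd_ind A) (mean_bd_ind B) ?_
  filter_upwards [h] with k hk e h1 h2 i h3 h4
  have := hk e h1 h2 i h3 h4
  by_cases hA : A k e i
  · simp [hA, this hA]
  · by_cases hB : B k e i <;> simp [hA, hB]

theorem Pr_split (A B : Evt) :
    s.Pr A = s.Pr (fun k e i => A k e i ∧ B k e i) + s.Pr fun k e i => A k e i ∧ ¬ B k e i := by
  refine Eq.trans ?_ (Ex_add (mean_bd_ind _) (mean_bd_ind _))
  refine Ex_congr (mean_all fun k e i => ?_)
  dsimp only
  by_cases hA : A k e i <;> by_cases hB : B k e i <;> simp [hA, hB]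

theorem Pr_or (A B : Evt) : s.Pr (fun k e i => A k e i ∨ B k e i) ≤ s.Pr A + s.Pr B := by
  refine le_of_le_of_eq ?_ (Ex_add (mean_bd_ind _) (mean_bd_ind _))
  refine Ex_mono (mean_bd_ind _) ((mean_bd_ind _).add (mean_bd_ind _)) (mean_all fun k e i => ?_)
  dsimp only
  by_cases hA : A k e i <;> by_cases hB : B k e i <;> simp [hA, hB]

private theorem mean_zero (h : s.All fun k e i => ¬ A k e i) : s.Pr A = 0 := by
  rw [← Ex_const (s := s) 0]
  refine Ex_congr ?_
  filter_upwards [h] with k hk e h1 h2 i h3 h4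
  simp [hk e h1 h2 i h3 h4]

theorem Pr_exists {ι : Type*} (t : Finset ι) (A : ι → Evt) :
    s.Pr (fun k e i => ∃ j ∈ t, A j k e i) ≤ ∑ j ∈ t, s.Pr (A j) := by
  classical
  induction t using Finset.induction_on with
  | empty => exact le_of_eq ((mean_zero (mean_all fun k e i => by simp)).trans (by simp))
  | insert a t ha ih =>
    rw [Finset.sum_insert ha]
    refine le_trans (Pr_mono (B := fun k e i => A a k e i ∨ ∃ j ∈ t, A j k e i)
      (mean_all fun k e i => ?_)) ((Pr_or _ _).trans (by linarith))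
    rintro ⟨j, hj, h⟩
    rcases Finset.mem_insert.1 hj with rfl | hj
    · exact Or.inl h
    · exact Or.inr ⟨j, hj, h⟩

theorem Pr_and_ge (A B : Evt) :
    s.Pr A - s.Pr (fun k e i => ¬ B k e i) ≤ s.Pr fun k e i => A k e i ∧ B k e i := by
  have h1 := Pr_split (s := s) A B
  have h2 : s.Pr (fun k e i => A k e i ∧ ¬ B k e i) ≤ s.Pr fun k e i => ¬ B k e i :=
    Pr_mono (mean_all fun k e i h => h.2)
  linarith

theorem markov (hF : s.Bd F) (h0 : s.All fun k e i => 0 ≤ F k e i) {a : ℝ} (ha : 0 < a) :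
    s.Pr (fun k e i => a < F k e i) ≤ s.Ex F / a := by
  rw [div_eq_inv_mul, ← Ex_mul hF]
  refine Ex_mono (mean_bd_ind _) (hF.mul _) ?_
  filter_upwards [h0] with k hk e h1 h2 i h3 h4
  have := hk e h1 h2 i h3 h4
  split_ifs with h
  · rw [← div_eq_inv_mul, le_div_iff₀ ha]
    linarith
  · positivity

open Classical in
/-- few of finitely many unlikely events occur -/
theorem Pr_count {ι : Type*} (t : Finset ι) (A : ι → Evt) {ε a : ℝ} (ha : 0 < a)
    (h : ∀ j ∈ t, s.Pr (A j) ≤ ε) :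
    s.Pr (fun k e i => a < ((t.filter fun j => A j k e i).card : ℝ)) ≤ t.card * ε / a := by
  have e : ∀ k e i, ((t.filter fun j => A j k e i).card : ℝ) =
      ∑ j ∈ t, if A j k e i then (1 : ℝ) else 0 := by
    intro k e i
    rw [Finset.card_filter]
    push_cast
    rfl
  simp only [e]
  have hb : ∀ j ∈ t, s.Bd fun k e i => if A j k e i then (1 : ℝ) else 0 :=
    fun j _ => mean_bd_ind _
  refine (markov (Bd.sum t hb) (mean_all fun k e i => Finset.sum_nonneg fun j _ => ?_)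
    ha).trans ?_
  · split_ifs <;> simp
  · rw [Ex_sum t hb]
    refine div_le_div_of_nonneg_right ?_ ha.le
    have := Finset.sum_le_card_nsmul t (fun j => s.Pr (A j)) ε h
    simpa [nsmul_eq_mul, Pr] using this

theorem exists_of_Pr_pos (h : 0 < s.Pr A) : ∀ᶠ k in om, ∃ (e : ℕ) (i : ℤ), s.E k ≤ e ∧
    e < 2 * s.E k ∧ 0 ≤ i ∧ i < s.N k ∧ A k e i := by
  by_contra hn
  refine h.ne' (mean_zero ?_)
  filter_upwards [ev_of_not hn] with k hk e h1 h2 i h3 h4 hA
  exact hk ⟨e, i, h1, h2, h3, h4, hA⟩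

/-- the boundary is negligible -/
theorem Pr_bdry (X : ℕ) :
    s.Pr (fun k e i => i < X * 2 ^ e ∨ (s.N k : ℤ) ≤ i + X * 2 ^ e) = 0 := by
  refine le_antisymm ((Pr_or _ _).trans ?_) (Pr_nonneg _)
  have h1 := Pr_shift (s := s) (fun _ _ i => i < 0) 0 X (fun e => -(X * 2 ^ e))
    (fun e => by rw [abs_neg, abs_of_nonneg (by positivity)])
  have h2 := Pr_shift (s := s) (fun k _ i => (s.N k : ℤ) ≤ i) 0 X (fun e => X * 2 ^ e)
    (fun e => by rw [abs_of_nonneg (by positivity)])
  rw [mean_zero (A := fun _ _ i => i < 0)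
    (Eventually.of_forall fun k e _ _ i h _ => not_lt.2 h)] at h1
  rw [mean_zero (A := fun k _ i => (s.N k : ℤ) ≤ i)
    (Eventually.of_forall fun k e _ _ i _ h => not_le.2 h)] at h2
  have h3 : s.Pr (fun _ e i => i < X * 2 ^ e) ≤ 0 :=
    (Pr_mono (mean_all fun k e i h => by linarith)).trans h1.le
  linarith

private theorem mean_good (good : ℕ → Finset ℕ) (h1 : ∀ k, ∀ p ∈ good k, p < s.N k)
    (h2 : ∀ k, s.N k ≤ 2 * (good k).card) :
    1 / 2 ≤ s.Pr fun k _ i => ∃ p ∈ good k, (p : ℤ) = i := by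
  classical
  rw [← ulim_const (1 / 2)]
  refine ulim_mono ⟨|1 / 2|, Eventually.of_forall fun _ => le_rfl⟩ (mean_bd1 (mean_bd_ind _)) ?_
  filter_upwards [mean_pos s] with k ⟨hE, hN⟩
  have hE : (0 : ℝ) < s.E k := by exact_mod_cast hE
  have hN : (0 : ℝ) < s.N k := by exact_mod_cast hN
  unfold avg
  rw [le_div_iff₀ (mul_pos hE hN), Finset.sum_const, mean_card, nsmul_eq_mul]
  have h3 : (s.N k : ℝ) ≤ 2 * (good k).card := by exact_mod_cast h2 k
  have h4 : ((good k).card : ℝ) = ∑ p ∈ good k, (1 : ℝ) := by simp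
  have h5 : good k ⊆ Finset.range (s.N k) := fun p hp => Finset.mem_range.2 (h1 k p hp)
  refine le_trans ?_ (mul_le_mul_of_nonneg_left
    (Finset.sum_le_sum_of_subset_of_nonneg h5 ?_) hE.le)
  · refine le_trans ?_ (mul_le_mul_of_nonneg_left (Finset.sum_le_sum (f := fun _ => (1 : ℝ))
      fun p hp => le_of_eq (if_pos ⟨p, hp, rfl⟩).symm) hE.le)
    rw [← h4]
    nlinarith
  · intro i _ _
    split_ifs <;> simp

/-- long gaps of a set of density at least one half -/
theorem Pr_gap (good : ℕ → Finset ℕ) (h1 : ∀ k, ∀ p ∈ good k, p < s.N k)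
    (h2 : ∀ k, s.N k ≤ 2 * (good k).card) (X m : ℕ) :
    s.Pr (fun k e i => ∃ c : ℤ, -(X * 2 ^ m : ℤ) ≤ c ∧ c < X * 2 ^ m ∧ ¬ ∃ p ∈ good k,
      i + c * 2 ^ (e - m) ≤ p ∧ (p : ℤ) < i + (c + 1) * 2 ^ (e - m)) ≤ 1 / 2 := by
  set A : Evt := fun k e i => ¬ ∃ p ∈ good k, i ≤ p ∧ (p : ℤ) < i + 2 ^ e with hA
  have hγ : s.Pr A ≤ 1 / 2 := by
    have h3 := mean_good (s := s) good h1 h2
    have h4 := Pr_not (s := s) fun k _ i => ∃ p ∈ good k, (p : ℤ) = i
    have h5 : s.Pr A ≤ s.Pr fun k _ i => ¬ ∃ p ∈ good k, (p : ℤ) = i := by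
      refine Pr_mono (mean_all fun k e i h => ?_)
      rintro ⟨p, hp, rfl⟩
      exact h ⟨p, hp, le_rfl, lt_add_of_pos_right _ (by positivity)⟩
    linarith
  set a := X + 1 with ha
  have ha2 : 2 * (X : ℤ) ≤ 2 ^ a := by
    have : X < 2 ^ X := Nat.lt_two_pow_self
    have h' : (X : ℤ) ≤ 2 ^ X := by exact_mod_cast this.le
    rw [ha, pow_succ]
    linarith
  have hA' : s.Pr (fun k e i => A k (e + a) i) = s.Pr A := by
    rw [← Pr_shift (fun k e i => A k (e + a) i) a 0 (fun _ => 0) (fun e => by simp)]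
    refine le_antisymm (Pr_mono ?_) (Pr_mono ?_)
    · filter_upwards [mean_ge s a] with k hk e h3 _ i _ _ h
      rwa [Nat.sub_add_cancel (hk.trans h3), add_zero] at h
    · filter_upwards [mean_ge s a] with k hk e h3 _ i _ _ h
      rwa [Nat.sub_add_cancel (hk.trans h3), add_zero]
  set Big : Evt := fun k e i => A k (e + a) (i + -(X * 2 ^ e)) with hBig
  have hB : s.Pr Big = s.Pr A := by
    rw [← hA']
    exact Pr_shift (fun k e i => A k (e + a) i) 0 X (fun e => -(X * 2 ^ e))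
      (fun e => by rw [abs_neg, abs_of_nonneg (by positivity)])
  set Cell : ℤ → Evt := fun c k e i => A k (e - m) (i + c * 2 ^ (e - m)) with hCell
  have hz : ∀ c ∈ Finset.Ico (-(X * 2 ^ m : ℤ)) (X * 2 ^ m),
      s.Pr (fun k e i => Cell c k e i ∧ ¬ Big k e i) ≤ 0 := by
    intro c hc
    obtain ⟨c1, c2⟩ := Finset.mem_Ico.1 hc
    have hC : s.Pr (Cell c) = s.Pr A := by
      refine Pr_shift A m (X * 2 ^ m) (fun e => c * 2 ^ (e - m)) fun e => ?_
      rw [abs_mul, abs_of_nonneg (a := (2 : ℤ) ^ (e - m)) (by positivity)]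
      push_cast
      exact mul_le_mul (abs_le.2 ⟨c1, c2.le⟩) (pow_le_pow_right₀ (by norm_num) (by omega))
        (by positivity) (by positivity)
    have h3 := Pr_split (s := s) (Cell c) Big
    have h4 : s.Pr Big ≤ s.Pr fun k e i => Cell c k e i ∧ Big k e i := by
      refine Pr_mono ?_
      filter_upwards [mean_ge s m] with k hk e h5 _ i _ _ h
      refine ⟨?_, h⟩
      rintro ⟨p, hp, p1, p2⟩
      have e1 : (2 : ℤ) ^ e = 2 ^ m * 2 ^ (e - m) := by
        rw [← pow_add, Nat.add_sub_cancel' (hk.trans h5)]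
      have e2 : (0 : ℤ) < 2 ^ (e - m) := by positivity
      have e3 : (0 : ℤ) < 2 ^ e := by positivity
      have q1 : -(X * 2 ^ e : ℤ) ≤ c * 2 ^ (e - m) := by rw [e1]; nlinarith
      have q2 : (c + 1) * 2 ^ (e - m) ≤ (X * 2 ^ e : ℤ) := by
        rw [e1, ← mul_assoc]
        exact mul_le_mul_of_nonneg_right c2 e2.le
      have q3 : 2 * (X : ℤ) * 2 ^ e ≤ 2 ^ (e + a) := by
        rw [pow_add, mul_comm ((2 : ℤ) ^ e)]
        exact mul_le_mul_of_nonneg_right ha2 e3.le
      exact h ⟨p, hp, by linarith, by linarith⟩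
    linarith
  have h6 := Pr_exists (s := s) (Finset.Ico (-(X * 2 ^ m : ℤ)) (X * 2 ^ m))
    fun c k e i => Cell c k e i ∧ ¬ Big k e i
  have h7 := Finset.sum_nonpos hz
  have h8 := Pr_or (s := s) Big fun k e i => ∃ c ∈ Finset.Ico (-(X * 2 ^ m : ℤ)) (X * 2 ^ m),
    Cell c k e i ∧ ¬ Big k e i
  refine le_trans (Pr_mono (mean_all fun k e i => ?_)) (h8.trans (by linarith))
  rintro ⟨c, c1, c2, h⟩
  by_cases hb : Big k e i
  · exact Or.inl hb
  · refine Or.inr ⟨c, Finset.mem_Ico.2 ⟨c1, c2⟩, ?_, hb⟩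
    rintro ⟨p, hp, p1, p2⟩
    exact h ⟨p, hp, p1, by linarith⟩

end Sch

end Pool.Agent.PSV
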