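import Mathlib

/-! Submodular, translation invariant and scale invariant functionals on profiles. -/

namespace Pool.Agent.PSV

/-- the profile with value `r` on the cells `a ≤ c < a'` -/
def box (r : ℕ) (a a' : ℤ) : ℤ → ℕ := fun c => if a ≤ c ∧ c < a' then r else 0

/-- finitely supported non-zero profiles -/
def Prof (ψ : ℤ → ℕ) : Prop := (Function.support ψ).Finite ∧ ψ ≠ 0

/-- the axioms -/
structure PhiAx (Φ : (ℤ → ℕ) → ℝ) : Prop where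
  nonneg : ∀ ψ, Prof ψ → 0 ≤ Φ ψ
  mono : ∀ ψ ψ', Prof ψ → Prof ψ' → ψ ≤ ψ' → Φ ψ ≤ Φ ψ'
  sub : ∀ ψ ψ', Prof ψ → Prof ψ' → ψ ⊓ ψ' ≠ 0 → Φ (ψ ⊔ ψ') + Φ (ψ ⊓ ψ') ≤ Φ ψ + Φ ψ'
  shift : ∀ ψ, Prof ψ → Φ (fun c => ψ (c + 1)) = Φ ψ
  dbl : ∀ ψ, Prof ψ → Φ (fun c => 2 * ψ (c / 2)) = 2 * Φ ψ

/-- subadditivity for profiles with disjoint supports -/
def PhiAdd (Φ : (ℤ → ℕ) → ℝ) : Prop := ∀ ψ ψ', Prof ψ → Prof ψ' → Φ (ψ ⊔ ψ') ≤ Φ ψ + Φ ψ'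

variable {Φ : (ℤ → ℕ) → ℝ}

/-- finite support -/
def phiFs (ψ : ℤ → ℕ) : Prop := (Function.support ψ).Finite

theorem phi_fs_box (r : ℕ) (a a' : ℤ) : phiFs (box r a a') := by
  refine (Set.finite_Ico a a').subset fun c hc => ?_
  by_contra h
  exact hc (if_neg h)

theorem phiFs.sup {ψ ψ' : ℤ → ℕ} (h : phiFs ψ) (h' : phiFs ψ') : phiFs (ψ ⊔ ψ') := by
  refine (Set.Finite.union h h').subset fun c hc => ?_
  by_contra hn
  simp only [Set.mem_union, Function.mem_support, not_or, not_not] at hn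
  exact hc (by simp [hn.1, hn.2])

theorem phiFs.of_le {ψ ψ' : ℤ → ℕ} (h : phiFs ψ') (hle : ψ ≤ ψ') : phiFs ψ := by
  refine Set.Finite.subset h fun c hc => ?_
  have h1 : ψ c ≠ 0 := hc
  have h2 : ψ c ≤ ψ' c := hle c
  show ψ' c ≠ 0
  omega

theorem phi_ne {ψ ψ' : ℤ → ℕ} (h : ψ ≠ 0) (hle : ψ ≤ ψ') : ψ' ≠ 0 := by
  rintro rfl
  exact h (le_antisymm hle bot_le)

theorem phi_prof_box {r : ℕ} {a a' : ℤ} (hr : 1 ≤ r) (ha : a < a') : Prof (box r a a') := by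
  refine ⟨phi_fs_box r a a', fun h => ?_⟩
  have := congrFun h a
  simp only [box, le_refl, ha, and_self, if_true, Pi.zero_apply] at this
  omega

theorem phi_prof_l {ψ ψ' : ℤ → ℕ} (h : Prof ψ) (h' : phiFs ψ') : Prof (ψ ⊔ ψ') :=
  ⟨phiFs.sup h.1 h', phi_ne h.2 le_sup_left⟩

theorem phi_prof_r {ψ ψ' : ℤ → ℕ} (h : phiFs ψ) (h' : Prof ψ') : Prof (ψ ⊔ ψ') :=
  ⟨phiFs.sup h h'.1, phi_ne h'.2 le_sup_right⟩

theorem phi_fs_comp {e : ℤ → ℤ} (hi : Function.Injective e) {ψ : ℤ → ℕ} (h : phiFs ψ) :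
    phiFs fun c => ψ (e c) := Set.Finite.preimage hi.injOn h

theorem phi_ne_comp {e : ℤ → ℤ} (hs : Function.Surjective e) {ψ : ℤ → ℕ} (h : ψ ≠ 0) :
    (fun c => ψ (e c)) ≠ 0 := by
  intro h0
  refine h (funext fun c => ?_)
  obtain ⟨d, rfl⟩ := hs c
  exact congrFun h0 d

theorem phi_prof_sh {ψ : ℤ → ℕ} (h : Prof ψ) (n : ℤ) : Prof fun c => ψ (c + n) :=
  ⟨phi_fs_comp (e := fun c => c + n) (add_left_injective n) h.1,
    phi_ne_comp (e := fun c => c + n) (fun c => ⟨c - n, by simp⟩) h.2⟩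

theorem phi_prof_rf {ψ : ℤ → ℕ} (h : Prof ψ) (n : ℤ) : Prof fun c => ψ (n - c) :=
  ⟨phi_fs_comp (e := fun c => n - c) (sub_right_injective) h.1,
    phi_ne_comp (e := fun c => n - c) (fun c => ⟨n - c, by simp⟩) h.2⟩

theorem phi_shift (h : PhiAx Φ) {ψ : ℤ → ℕ} (hψ : Prof ψ) (n : ℤ) :
    Φ (fun c => ψ (c + n)) = Φ ψ := by
  have step : ∀ n : ℤ, Φ (fun c => ψ (c + (n + 1))) = Φ (fun c => ψ (c + n)) := by
    intro n
    rw [← h.shift _ (phi_prof_sh hψ n)]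
    congr 1
    funext c
    congr 1
    ring
  induction n using Int.induction_on with
  | zero => simp
  | succ n ih => rw [step, ih]
  | pred n ih => rw [← step, sub_add_cancel, ih]

/-- monotonicity up to a shift -/
theorem phi_le (h : PhiAx Φ) (n : ℤ) {ψ ψ' : ℤ → ℕ} (h1 : Prof ψ) (h2 : phiFs ψ')
    (hle : ∀ c, ψ (c + n) ≤ ψ' c) : Φ ψ ≤ Φ ψ' := by
  rw [← phi_shift h h1 n]
  exact h.mono _ _ (phi_prof_sh h1 n) ⟨h2, phi_ne (phi_prof_sh h1 n).2 hle⟩ hle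

/-- diminishing returns up to a shift -/
theorem phi_inc (h : PhiAx Φ) (n : ℤ) {Y Z Y' Z' : ℤ → ℕ} (hY' : Prof Y') (hZ' : phiFs Z')
    (hY : phiFs Y) (hZ : Prof Z) (h1 : ∀ c, Y' (c + n) ≤ Y c) (h2 : ∀ c, Y' c ≤ Z' c)
    (h3 : ∀ c, Z c ≤ Y c ∨ Z c ≤ Z' (c + n)) : Φ Z - Φ Y ≤ Φ Z' - Φ Y' := by
  have pZ' : Prof Z' := ⟨hZ', phi_ne hY'.2 h2⟩
  have p1 := phi_prof_sh hY' n
  have p2 := phi_prof_sh pZ' n
  have pY : Prof Y := ⟨hY, phi_ne p1.2 h1⟩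
  have hle : (fun c => Y' (c + n)) ≤ Y ⊓ fun c => Z' (c + n) :=
    le_inf h1 fun c => h2 _
  have hne := phi_ne p1.2 hle
  have a1 := h.sub _ _ pY p2 hne
  have a2 := h.mono _ _ p1 ⟨phiFs.of_le hY inf_le_left, hne⟩ hle
  have a3 := h.mono Z _ hZ (phi_prof_l pY p2.1) fun c => le_sup_iff.2 (h3 c)
  rw [phi_shift h pZ'] at a1
  rw [phi_shift h hY'] at a2
  linarith

theorem phi_dbl (h : PhiAx Φ) {r : ℕ} {a a' : ℤ} (hr : 1 ≤ r) (ha : a < a') (m : ℕ) :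
    Φ (box (r * 2 ^ m) (a * 2 ^ m) (a' * 2 ^ m)) = 2 ^ m * Φ (box r a a') := by
  induction m with
  | zero => simp
  | succ m ih =>
    have p : Prof (box (r * 2 ^ m) (a * 2 ^ m) (a' * 2 ^ m)) :=
      phi_prof_box (Nat.mul_pos hr (by positivity)) (mul_lt_mul_of_pos_right ha (by positivity))
    have e := h.dbl _ p
    rw [ih] at e
    rw [pow_succ (2 : ℝ), mul_comm _ (2 : ℝ), mul_assoc, ← e]
    congr 1
    funext c
    rw [pow_succ, pow_succ, ← mul_assoc, ← mul_assoc, ← mul_assoc]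
    generalize a * 2 ^ m = u
    generalize a' * 2 ^ m = v
    generalize r * 2 ^ m = w
    simp only [box]
    split_ifs <;> omega

theorem phi_tel (f : ℕ → ℝ) (T : ℝ) (Q : ℕ) (h : ∀ q < Q, T ≤ f (q + 1) - f q) :
    Q * T ≤ f Q - f 0 := by
  induction Q with
  | zero => simp
  | succ Q ih =>
    have a := ih fun q hq => h q (by omega)
    have b := h Q (by omega)
    push_cast
    linarith

theorem phi_tel' (f : ℕ → ℝ) (T : ℝ) (Q : ℕ) (h : ∀ q < Q, f (q + 1) - f q ≤ T) :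
    f Q - f 0 ≤ Q * T := by
  have := phi_tel (fun q => -f q) (-T) Q fun q hq => by linarith [h q hq]
  linarith

theorem phi_lim {a b : ℝ} (h : ∀ ε : ℝ, 0 < ε → ∃ y0 : ℕ, ∀ y : ℕ, y0 ≤ y → y * a ≤ (1 + y) * (b + ε)) :
    a ≤ b := by
  by_contra hc
  have he : 0 < (a - b) / 2 := by linarith [not_le.1 hc]
  obtain ⟨y0, hy⟩ := h _ he
  obtain ⟨n, hn⟩ := exists_nat_gt ((b + (a - b) / 2) / ((a - b) / 2))
  have h1 := hy (n + y0) (by omega)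
  rw [div_lt_iff₀ he] at hn
  have h2 : (0 : ℝ) ≤ y0 * ((a - b) / 2) := by positivity
  push_cast at h1
  nlinarith

theorem phi_rate1 (h : PhiAx Φ) {r : ℕ} (hr : 1 ≤ r) : ∃ ρ : ℝ, 0 ≤ ρ ∧
    (∀ m y : ℕ, 1 ≤ m → Φ (box r 0 m) + y * ρ ≤ Φ (box r 0 (m + y))) ∧
    (∀ ε : ℝ, 0 < ε → ∃ m0 : ℕ, 1 ≤ m0 ∧ ∀ m y : ℕ, m0 ≤ m →
      Φ (box r 0 (m + y)) ≤ Φ (box r 0 m) + y * (ρ + ε)) ∧
    ∀ ε : ℝ, 0 < ε → ∃ m0 : ℕ, ∀ m : ℕ, m0 ≤ m → Φ (box r 0 m) ≤ m * (ρ + ε) := by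
  obtain ⟨d, hd⟩ : ∃ d : ℕ → ℝ, ∀ m : ℕ,
      d m = Φ (box r 0 (m + 1 + 1)) - Φ (box r 0 (m + 1)) := ⟨_, fun _ => rfl⟩
  have d0 : ∀ m, 0 ≤ d m := fun m => by
    rw [hd, sub_nonneg]
    refine phi_le h 0 (phi_prof_box hr (by omega)) (phi_fs_box _ _ _) fun c => ?_
    simp only [box]; split_ifs <;> omega
  have d1 : Antitone d := antitone_nat_of_succ_le fun m => by
    rw [hd, hd]
    push_cast
    refine phi_inc h (-1) (phi_prof_box hr (by omega)) (phi_fs_box _ _ _) (phi_fs_box _ _ _)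
      (phi_prof_box hr (by omega)) (fun c => ?_) (fun c => ?_) fun c => ?_
    all_goals simp only [box]; split_ifs <;> omega
  have hb : BddBelow (Set.range d) := ⟨0, by rintro _ ⟨m, rfl⟩; exact d0 m⟩
  have hs : ∀ m y : ℕ, 1 ≤ m → Φ (box r 0 (m + (y + 1 : ℕ))) - Φ (box r 0 (m + y)) =
      d (m - 1 + y) := by
    intro m y hm
    rw [hd]
    congr 3 <;> push_cast [hm] <;> ring
  have up : ∀ ε : ℝ, 0 < ε → ∃ m0 : ℕ, 1 ≤ m0 ∧ ∀ m y : ℕ, m0 ≤ m →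
      Φ (box r 0 (m + y)) ≤ Φ (box r 0 m) + y * ((⨅ m, d m) + ε) := by
    intro ε hε
    obtain ⟨m1, hm1⟩ := exists_lt_of_ciInf_lt (show (⨅ m, d m) < (⨅ m, d m) + ε by linarith)
    refine ⟨m1 + 1, by omega, fun m y hm => ?_⟩
    have := phi_tel' (fun y => Φ (box r 0 (m + y))) ((⨅ m, d m) + ε) y fun q _ => by
      rw [hs m q (by omega)]
      exact (d1 (by omega)).trans hm1.le
    simp only [Nat.cast_zero, add_zero] at this
    linarith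
  have r0 : 0 ≤ ⨅ m, d m := le_ciInf d0
  refine ⟨⨅ m, d m, r0, fun m y hm => ?_, up, fun ε hε => ?_⟩
  · have := phi_tel (fun y => Φ (box r 0 (m + y))) (⨅ m, d m) y fun q _ => by
      rw [hs m q hm]
      exact ciInf_le hb _
    simp only [Nat.cast_zero, add_zero] at this
    linarith
  · obtain ⟨m0, -, hm0⟩ := up (ε / 2) (by linarith)
    obtain ⟨n, hn⟩ := exists_nat_gt (Φ (box r 0 m0) / (ε / 2))
    refine ⟨m0 + n, fun m hm => ?_⟩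
    obtain ⟨y, rfl⟩ : ∃ y, m = m0 + y := ⟨m - m0, by omega⟩
    have h1 := hm0 m0 y le_rfl
    rw [div_lt_iff₀ (by linarith)] at hn
    have h2 : (n : ℝ) * (ε / 2) ≤ y * (ε / 2) :=
      mul_le_mul_of_nonneg_right (by exact_mod_cast (by omega : n ≤ y)) (by linarith)
    have h3 : (0 : ℝ) ≤ m0 * ((⨅ m, d m) + ε) := by positivity
    push_cast
    linarith

theorem phi_rate (h : PhiAx Φ) : ∃ ρ : ℝ, 0 ≤ ρ ∧
    (∀ r m y : ℕ, 1 ≤ r → 1 ≤ m → Φ (box r 0 m) + y * ρ ≤ Φ (box r 0 (m + y))) ∧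
    (∀ r : ℕ, 1 ≤ r → ∀ ε : ℝ, 0 < ε → ∃ m0 : ℕ, 1 ≤ m0 ∧ ∀ m y : ℕ, m0 ≤ m →
      Φ (box r 0 (m + y)) ≤ Φ (box r 0 m) + y * (ρ + ε)) ∧
    ∀ r : ℕ, 1 ≤ r → ∀ ε : ℝ, 0 < ε → ∃ m0 : ℕ, ∀ m : ℕ, m0 ≤ m → Φ (box r 0 m) ≤ m * (ρ + ε) := by
  obtain ⟨ρ, r0, a1, a2, a3⟩ := phi_rate1 h (le_refl 1)
  have key : ∀ r : ℕ, 1 ≤ r →
      (∀ m y : ℕ, 1 ≤ m → Φ (box r 0 m) + y * ρ ≤ Φ (box r 0 (m + y))) ∧
      (∀ ε : ℝ, 0 < ε → ∃ m0 : ℕ, 1 ≤ m0 ∧ ∀ m y : ℕ, m0 ≤ m →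
        Φ (box r 0 (m + y)) ≤ Φ (box r 0 m) + y * (ρ + ε)) ∧
      ∀ ε : ℝ, 0 < ε → ∃ m0 : ℕ, ∀ m : ℕ, m0 ≤ m → Φ (box r 0 m) ≤ m * (ρ + ε) := by
    intro r hr
    obtain ⟨ρ', -, b1, b2, b3⟩ := phi_rate1 h hr
    have c1 : ρ ≤ ρ' := phi_lim fun ε hε => by
      obtain ⟨m0, hm0⟩ := b3 ε hε
      refine ⟨m0, fun y hy => ?_⟩
      have e1 := a1 1 y le_rfl
      have e2 := hm0 (1 + y) (by omega)
      have e3 := h.nonneg _ (phi_prof_box (a := 0) (a' := 1) (le_refl 1) one_pos)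
      have e4 : Φ (box 1 0 (1 + y)) ≤ Φ (box r 0 (1 + y)) := by
        refine phi_le h 0 (phi_prof_box le_rfl (by omega)) (phi_fs_box _ _ _) fun c => ?_
        simp only [box]; split_ifs <;> omega
      push_cast at e1 e2
      linarith
    have c2 : ρ' ≤ ρ := phi_lim fun ε hε => by
      obtain ⟨m0, hm0⟩ := a3 ε hε
      refine ⟨m0, fun y hy => ?_⟩
      have e1 := b1 (2 ^ r) (y * 2 ^ r) Nat.one_le_two_pow
      have e2 := hm0 (1 + y) (by omega)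
      have e3 := h.nonneg _ (phi_prof_box (a := 0) (a' := 2 ^ r) hr (by positivity))
      have e4 := phi_dbl h (r := 1) (a := 0) (a' := 1 + y) le_rfl (by omega) r
      have e5 : Φ (box r 0 (2 ^ r + y * 2 ^ r)) ≤ Φ (box (1 * 2 ^ r) (0 * 2 ^ r) ((1 + y) * 2 ^ r)) := by
        refine phi_le h 0 (phi_prof_box hr (by positivity)) (phi_fs_box _ _ _) fun c => ?_
        have := (Nat.lt_two_pow_self (n := r)).le
        rw [zero_mul, add_mul, one_mul, one_mul]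
        simp only [box]; split_ifs <;> omega
      push_cast at e1 e2
      have e6 : (0 : ℝ) < 2 ^ r := by positivity
      refine le_of_mul_le_mul_left ?_ e6
      have e7 := mul_le_mul_of_nonneg_left e2 e6.le
      linarith
    obtain rfl : ρ = ρ' := le_antisymm c1 c2
    exact ⟨b1, b2, b3⟩
  exact ⟨ρ, r0, fun r m y hr hm => (key r hr).1 m y hm, fun r hr => (key r hr).2.1,
    fun r hr => (key r hr).2.2⟩

theorem PhiAx.refl (h : PhiAx Φ) : PhiAx fun ψ => Φ fun c => ψ (-1 - c) := by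
  refine ⟨fun ψ p => h.nonneg _ (phi_prof_rf p _),
    fun ψ ψ' p p' hle => h.mono _ _ (phi_prof_rf p _) (phi_prof_rf p' _) fun c => hle _,
    fun ψ ψ' p p' hne => h.sub _ _ (phi_prof_rf p _) (phi_prof_rf p' _)
      (phi_ne_comp (e := fun c => -1 - c) (fun c => ⟨-1 - c, by simp⟩) hne),
    fun ψ p => ?_, fun ψ p => ?_⟩
  · have := h.shift _ (phi_prof_rf p 0)
    have e1 : (fun c : ℤ => ψ (0 - (c + 1))) = fun c => ψ (-1 - c) := funext fun c => by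
      congr 1; ring
    have e2 : (fun c : ℤ => ψ (0 - c)) = fun c => ψ (-1 - c + 1) := funext fun c => by
      congr 1; ring
    rw [e1, e2] at this
    exact this.symm
  · have := h.dbl _ (phi_prof_rf p (-1))
    have e1 : (fun c : ℤ => 2 * ψ (-1 - c / 2)) = fun c => 2 * ψ ((-1 - c) / 2) := funext fun c => by
      congr 2; omega
    rw [e1] at this
    exact this

theorem PhiAdd.refl (h : PhiAdd Φ) : PhiAdd fun ψ => Φ fun c => ψ (-1 - c) := by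
  exact fun ψ ψ' p p' => h _ _ (phi_prof_rf p _) (phi_prof_rf p' _)

theorem box_refl (r : ℕ) (a a' : ℤ) : (fun c => box r a a' (-1 - c)) = box r (-a') (-a) := by
  funext c
  simp only [box]; split_ifs <;> omega

/-- the rate -/
theorem PhiAx.rate (h : PhiAx Φ) : ∃ ρ : ℝ, 0 ≤ ρ ∧
    (∀ (r m y : ℕ), 1 ≤ r → 1 ≤ m → Φ (box r 0 m) + y * ρ ≤ Φ (box r 0 (m + y))) ∧
    ∀ r : ℕ, 1 ≤ r → ∀ ε : ℝ, 0 < ε → ∃ m0 : ℕ, ∀ m : ℕ, m0 ≤ m → Φ (box r 0 m) ≤ m * (ρ + ε) := by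
  obtain ⟨ρ, r0, a1, -, a3⟩ := phi_rate h
  exact ⟨ρ, r0, a1, a3⟩

theorem phi_dec_step (h : PhiAx Φ) {a R : ℕ} {u A L L1 : ℤ} (ha : 1 ≤ a) (hu : 0 ≤ u) (hA : 0 < A)
    (h1 : u + A ≤ L1) (h2 : L1 ≤ L) :
    Φ (box R 0 A ⊔ (box a (-L) L ⊔ box R (-L) 0)) - Φ (box a (-L) L ⊔ box R (-L) 0) ≤
      Φ (box a 0 L1 ⊔ box R 0 (u + A)) - Φ (box a 0 L1 ⊔ box R 0 u) := by
  refine phi_inc h u (phi_prof_l (phi_prof_box ha (by omega)) (phi_fs_box _ _ _))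
    ((phi_fs_box _ _ _).sup (phi_fs_box _ _ _)) ((phi_fs_box _ _ _).sup (phi_fs_box _ _ _))
    (phi_prof_r (phi_fs_box _ _ _) (phi_prof_l (phi_prof_box ha (by omega)) (phi_fs_box _ _ _)))
    (fun c => ?_) (fun c => ?_) fun c => ?_
  all_goals simp only [box, Pi.sup_apply]; split_ifs <;> omega

/-- thickening a block costs little given a thick past and a long thin neighbourhood -/
theorem PhiAx.dec (h : PhiAx Φ) (r G : ℕ) (hr : 1 ≤ r) (hG : 1 ≤ G) {ε : ℝ} (hε : 0 < ε) :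
    ∃ l0 : ℕ, 1 ≤ l0 ∧ ∀ l m a : ℕ, l0 ≤ l → 1 ≤ a → a ≤ r * 2 ^ m →
      Φ (box (r * 2 ^ m) 0 (G * 2 ^ m) ⊔ (box a (-(l * 2 ^ m)) (l * 2 ^ m) ⊔
          box (r * 2 ^ m) (-(l * 2 ^ m)) 0)) -
        Φ (box a (-(l * 2 ^ m)) (l * 2 ^ m) ⊔ box (r * 2 ^ m) (-(l * 2 ^ m)) 0) ≤ ε * 2 ^ m := by
  obtain ⟨ρ, r0, a1, -, a3⟩ := phi_rate h
  have hG' : (0 : ℝ) < G := by exact_mod_cast hG
  obtain ⟨m0, hm0⟩ := a3 r hr (ε / (2 * G)) (by positivity)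
  obtain ⟨n, hn⟩ := exists_nat_gt (ρ / (ε / 2))
  obtain ⟨Q, q1, q2, q3⟩ : ∃ Q : ℕ, 1 ≤ Q ∧ m0 ≤ Q ∧ n ≤ Q := ⟨m0 + n + 1, by omega, by omega, by omega⟩
  have q4 : Q ≤ Q * G := Nat.le_mul_of_pos_right _ hG
  refine ⟨Q * G, by omega, fun l m a hl ha har => ?_⟩
  have s0 : (0 : ℤ) < 2 ^ m := by positivity
  have s1 : (1 : ℝ) ≤ 2 ^ m := one_le_pow₀ (by norm_num)
  have A0 : (0 : ℤ) < G * 2 ^ m := by positivity
  have hL : (Q : ℤ) * (G * 2 ^ m) ≤ l * 2 ^ m := by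
    rw [← mul_assoc]
    exact mul_le_mul_of_nonneg_right (by exact_mod_cast hl) s0.le
  have t := phi_tel (fun q => Φ (box a 0 (Q * (G * 2 ^ m)) ⊔ box (r * 2 ^ m) 0 (q * (G * 2 ^ m))))
    _ Q fun q hq => by
      have e : ((q + 1 : ℕ) : ℤ) * (G * 2 ^ m) = q * (G * 2 ^ m) + G * 2 ^ m := by
        push_cast; ring
      have e' : ((q + 1 : ℕ) : ℤ) * (G * 2 ^ m) ≤ Q * (G * 2 ^ m) :=
        mul_le_mul_of_nonneg_right (by exact_mod_cast hq) A0.le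
      simp only [e]
      exact phi_dec_step h ha (by positivity) A0 (e ▸ e') hL
  have L0 : (0 : ℤ) < Q * (G * 2 ^ m) := by positivity
  have b1 : Φ (box a 0 (Q * (G * 2 ^ m)) ⊔ box (r * 2 ^ m) 0 (Q * (G * 2 ^ m))) ≤
      Φ (box (r * 2 ^ m) (0 * 2 ^ m) ((Q * G : ℕ) * 2 ^ m)) := by
    refine phi_le h 0 (phi_prof_l (phi_prof_box ha L0) (phi_fs_box _ _ _)) (phi_fs_box _ _ _)
      fun c => ?_
    rw [zero_mul, Nat.cast_mul Q G, mul_assoc (Q : ℤ)]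
    simp only [box, Pi.sup_apply]; split_ifs <;> omega
  rw [phi_dbl h hr (by positivity)] at b1
  have b2 := mul_le_mul_of_nonneg_left (hm0 (Q * G) (by omega)) (show (0 : ℝ) ≤ 2 ^ m by positivity)
  obtain ⟨y, hy⟩ : ∃ y : ℕ, Q * (G * 2 ^ m) = 1 + y :=
    Nat.exists_eq_add_of_le (Nat.mul_pos q1 (by positivity))
  have hy1 : (Q : ℤ) * (G * 2 ^ m) = 1 + y := by exact_mod_cast hy
  have hy2 : (Q : ℝ) * (G * 2 ^ m) = 1 + y := by exact_mod_cast hy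
  have b3 := a1 a 1 y ha le_rfl
  have b4 := h.nonneg _ (phi_prof_box (a := 0) (a' := 1) ha one_pos)
  have b5 : Φ (box a 0 (1 + y)) ≤
      Φ (box a 0 (Q * (G * 2 ^ m)) ⊔ box (r * 2 ^ m) 0 ((0 : ℕ) * (G * 2 ^ m))) := by
    rw [hy1]
    exact h.mono _ _ (phi_prof_box ha (by omega))
      (phi_prof_l (phi_prof_box ha (by omega)) (phi_fs_box _ _ _)) le_sup_left
  have hQ : (0 : ℝ) < Q := by exact_mod_cast q1
  refine le_of_mul_le_mul_left ?_ hQ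
  rw [div_lt_iff₀ (by linarith)] at hn
  have c1 : (n : ℝ) * (ε / 2) ≤ Q * (ε / 2) :=
    mul_le_mul_of_nonneg_right (by exact_mod_cast q3) (by linarith)
  have c2 : (Q : ℝ) * (ε / 2) * 1 ≤ Q * (ε / 2) * 2 ^ m :=
    mul_le_mul_of_nonneg_left s1 (by positivity)
  have c3 : (2 : ℝ) ^ m * ((Q * G : ℕ) * (ρ + ε / (2 * G))) =
      Q * (G * 2 ^ m) * ρ + Q * (ε / 2) * 2 ^ m := by
    push_cast; field_simp
  rw [c3, hy2] at b2
  simp only [Nat.cast_one] at b3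
  linarith

theorem phi_ts_step (h : PhiAx Φ) {r : ℕ} {u R' R0 R X Λ : ℤ} (hr : 1 ≤ r) (hu : 0 ≤ u)
    (h0 : 0 < R') (h1 : u + R' ≤ R0) (h2 : R0 ≤ R) (h3 : R < X) (h4 : R' < Λ) :
    Φ (box r (-(X + R0)) (-R0) ⊔ box r (-(u + R')) Λ) - Φ (box r (-(X + R0)) (-R0) ⊔ box r (-u) Λ) ≤
      Φ (box r (-X) (-R) ⊔ box r 0 R' ⊔ box r R' Λ) - Φ (box r (-X) (-R) ⊔ box r R' Λ) := by
  refine phi_inc h (u + R') (phi_prof_l (phi_prof_box hr (by omega)) (phi_fs_box _ _ _))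
    (((phi_fs_box _ _ _).sup (phi_fs_box _ _ _)).sup (phi_fs_box _ _ _))
    ((phi_fs_box _ _ _).sup (phi_fs_box _ _ _))
    (phi_prof_l (phi_prof_box hr (by omega)) (phi_fs_box _ _ _))
    (fun c => ?_) (fun c => ?_) fun c => ?_
  all_goals simp only [box, Pi.sup_apply]; split_ifs <;> omega

/-- a block and the far past are almost independent given the near future -/
theorem PhiAx.ts (h : PhiAx Φ) (h' : PhiAdd Φ) (r R' : ℕ) (hr : 1 ≤ r) (hR : 1 ≤ R') {ε : ℝ}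
    (hε : 0 < ε) : ∃ Λ R0 : ℕ, R' < Λ ∧ ∀ R X : ℕ, R0 ≤ R → R < X →
      Φ (box r (-X) (-R) ⊔ box r R' Λ) + Φ (box r 0 R' ⊔ box r R' Λ) -
        Φ (box r (-X) (-R) ⊔ box r 0 R' ⊔ box r R' Λ) - Φ (box r R' Λ) ≤ ε := by
  obtain ⟨ρ, r0, a1, a2, -⟩ := phi_rate h
  have hR' : (0 : ℝ) < R' := by exact_mod_cast hR
  obtain ⟨m0, m1, hm0⟩ := a2 r hr (ε / (2 * R')) (by positivity)
  obtain ⟨n, hn⟩ := exists_nat_gt (Φ (box r 0 (m0 + R' : ℕ)) / (ε / 2))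
  obtain ⟨Q, q1, q3⟩ : ∃ Q : ℕ, 1 ≤ Q ∧ n ≤ Q := ⟨n + 1, by omega, by omega⟩
  refine ⟨m0 + R', Q * R', by omega, fun R X h1 h2 => ?_⟩
  generalize hΛ : m0 + R' = Λ at hn ⊢
  have t := phi_tel' (fun q => Φ (box r (-(X + Q * R')) (-(Q * R')) ⊔ box r (-(q * R')) Λ))
    _ Q fun q hq => by
      have e : ((q + 1 : ℕ) : ℤ) * R' = q * R' + R' := by push_cast; ring
      have e' : ((q + 1 : ℕ) : ℤ) * R' ≤ Q * R' :=
        mul_le_mul_of_nonneg_right (by exact_mod_cast hq) (by positivity)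
      simp only [e]
      exact phi_ts_step h (R := R) hr (by positivity) (by omega) (e ▸ e') (by exact_mod_cast h1)
        (by omega) (by omega)
  have R0 : (0 : ℤ) ≤ Q * R' := by positivity
  have b1 := a1 r X (Q * R' + Λ) hr (by omega)
  have b2 : Φ (box r 0 (X + (Q * R' + Λ : ℕ))) ≤
      Φ (box r (-(X + Q * R')) (-(Q * R')) ⊔ box r (-(Q * R')) Λ) := by
    refine phi_le h (X + Q * R') (phi_prof_box hr (by omega))
      ((phi_fs_box _ _ _).sup (phi_fs_box _ _ _)) fun c => ?_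
    push_cast
    simp only [box, Pi.sup_apply]; split_ifs <;> omega
  have b3 := h' (box r (-(X + Q * R')) (-(Q * R'))) (box r (-((0 : ℕ) * R')) Λ)
    (phi_prof_box hr (by omega)) (phi_prof_box hr (by omega))
  have b4 : Φ (box r (-(X + Q * R')) (-(Q * R'))) ≤ Φ (box r 0 X) := by
    refine phi_le h (-(X + Q * R')) (phi_prof_box hr (by omega)) (phi_fs_box _ _ _) fun c => ?_
    simp only [box]; split_ifs <;> omega
  have b5 : Φ (box r (-((0 : ℕ) * R')) Λ) = Φ (box r 0 Λ) := by simp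
  have b6 := hm0 m0 R' le_rfl
  have b7 : Φ (box r 0 R' ⊔ box r R' Λ) ≤ Φ (box r 0 (m0 + R')) := by
    refine phi_le h 0 (phi_prof_l (phi_prof_box hr (by omega)) (phi_fs_box _ _ _))
      (phi_fs_box _ _ _) fun c => ?_
    simp only [box, Pi.sup_apply]; split_ifs <;> omega
  have b8 : Φ (box r 0 m0) ≤ Φ (box r R' Λ) := by
    refine phi_le h (-R') (phi_prof_box hr (by omega)) (phi_fs_box _ _ _) fun c => ?_
    simp only [box]; split_ifs <;> omega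
  have c0 : (R' : ℝ) * (ρ + ε / (2 * R')) = R' * ρ + ε / 2 := by field_simp
  rw [c0] at b6
  rw [div_lt_iff₀ (by linarith)] at hn
  have c1 : (n : ℝ) * (ε / 2) ≤ Q * (ε / 2) :=
    mul_le_mul_of_nonneg_right (by exact_mod_cast q3) (by linarith)
  have c2 : (0 : ℝ) ≤ Λ * ρ := by positivity
  have hQ : (0 : ℝ) < Q := by exact_mod_cast q1
  have c3 : R' * ρ - ε / 2 ≤ Φ (box r (-X) (-R) ⊔ box r 0 R' ⊔ box r R' Λ) -
      Φ (box r (-X) (-R) ⊔ box r R' Λ) := by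
    refine le_of_mul_le_mul_left (le_trans ?_ t) hQ
    push_cast at b1 b2
    have e : ((Q : ℝ) * R' + Λ) * ρ = Q * (R' * ρ - ε / 2) + Λ * ρ + Q * (ε / 2) := by ring
    have f1 := b1.trans b2
    have f2 := b3.trans (add_le_add b4 b5.le)
    refine le_trans ?_ (sub_le_sub f1 f2)
    linarith
  linarith

theorem phi_fwd_step (h : PhiAx Φ) {a R : ℕ} {u y A L : ℤ} (ha : 1 ≤ a) (haR : a ≤ R) (hu : 0 ≤ u)
    (hy : 0 < y) (h1 : u + y ≤ A) (h2 : A < L) :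
    Φ (box R (-L) 0 ⊔ box a 0 (u + y)) - Φ (box R (-L) 0 ⊔ box a 0 u) ≤
      Φ (box a 0 y ⊔ (box R (-L) (-A) ⊔ box a (-A) 0)) - Φ (box R (-L) (-A) ⊔ box a (-A) 0) := by
  refine phi_inc h (-u) (phi_prof_r (phi_fs_box _ _ _) (phi_prof_box ha (by omega)))
    ((phi_fs_box _ _ _).sup ((phi_fs_box _ _ _).sup (phi_fs_box _ _ _)))
    ((phi_fs_box _ _ _).sup (phi_fs_box _ _ _))
    (phi_prof_r (phi_fs_box _ _ _) (phi_prof_box ha (by omega)))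
    (fun c => ?_) (fun c => ?_) fun c => ?_
  all_goals simp only [box, Pi.sup_apply]; split_ifs <;> omega

theorem phi_thick_step (h : PhiAx Φ) {a R : ℕ} {u s A L L1 : ℤ} (ha : 1 ≤ a) (haR : a ≤ R)
    (hu : 0 ≤ u) (hs : 0 < s) (h0 : s ≤ L1) (h1 : u + L1 ≤ A) (h2 : A < L) :
    Φ (box R (-L) (u + s) ⊔ box a 0 A) - Φ (box R (-L) u ⊔ box a 0 A) ≤
      Φ (box R 0 s ⊔ (box a (-L1) L1 ⊔ box R (-L1) 0)) - Φ (box a (-L1) L1 ⊔ box R (-L1) 0) := by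
  refine phi_inc h (-u) (phi_prof_l (phi_prof_box ha (by omega)) (phi_fs_box _ _ _))
    ((phi_fs_box _ _ _).sup ((phi_fs_box _ _ _).sup (phi_fs_box _ _ _)))
    ((phi_fs_box _ _ _).sup (phi_fs_box _ _ _))
    (phi_prof_r (phi_fs_box _ _ _) (phi_prof_box ha (by omega)))
    (fun c => ?_) (fun c => ?_) fun c => ?_
  all_goals simp only [box, Pi.sup_apply]; split_ifs <;> omega

theorem phi_thick_end (h : PhiAx Φ) {a R : ℕ} {u s A L L1 : ℤ} (hR : 1 ≤ R)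
    (hu : 0 ≤ u) (hs : 0 < s) (h0 : s ≤ L1) (h1 : u + L1 = A) (h2 : A < L) :
    Φ (box R 0 (L + A)) - Φ (box R (-L) u ⊔ box a 0 A) ≤ Φ (box R 0 (L1 + s)) := by
  have a1 : Φ (box R 0 (L + A)) ≤ Φ (box R (-L) A) := by
    refine phi_le h L (phi_prof_box hR (by omega)) (phi_fs_box _ _ _) fun c => ?_
    simp only [box]; split_ifs <;> omega
  have a2 : Φ (box R (-L) A) - Φ (box R (-L) u ⊔ box a 0 A) ≤
      Φ (box R 0 (L1 + s)) - Φ (box R 0 s) := by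
    refine phi_inc h (s - u) (phi_prof_box hR hs) (phi_fs_box _ _ _)
      ((phi_fs_box _ _ _).sup (phi_fs_box _ _ _)) (phi_prof_box hR (by omega))
      (fun c => ?_) (fun c => ?_) fun c => ?_
    all_goals simp only [box, Pi.sup_apply]; split_ifs <;> omega
  have a3 := h.nonneg _ (phi_prof_box hR hs)
  linarith

/-- a thin block keeps almost all of its entropy given a thin near past and a thick far past -/
theorem PhiAx.fwd (h : PhiAx Φ) (r a : ℕ) (hr : 1 ≤ r) (ha : 1 ≤ a) {ε : ℝ} (hε : 0 < ε) :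
    ∃ m0 G0 : ℕ, 1 ≤ G0 ∧ ∀ m1 m G l : ℕ, m0 ≤ m1 → m1 ≤ m → a ≤ r * 2 ^ m → G0 ≤ G → G < l →
      Φ (box a 0 (2 ^ m1)) -
        (Φ (box a 0 (2 ^ m1) ⊔ (box (r * 2 ^ m) (-(l * 2 ^ m)) (-(G * 2 ^ m)) ⊔
            box a (-(G * 2 ^ m)) 0)) -
          Φ (box (r * 2 ^ m) (-(l * 2 ^ m)) (-(G * 2 ^ m)) ⊔ box a (-(G * 2 ^ m)) 0)) ≤
        ε * 2 ^ m1 := by
  obtain ⟨ρ, r0, a1, -, a3⟩ := phi_rate h
  obtain ⟨m0, hm0⟩ := a3 a ha (ε / 3) (by positivity)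
  obtain ⟨l0, l1, hl0⟩ := h.dec r 1 hr le_rfl (show 0 < ε / 3 by positivity)
  obtain ⟨n, hn⟩ := exists_nat_gt (Φ (box r 0 (l0 + 1)) / (ε / 3))
  refine ⟨m0, l0 + n, by omega, fun m1 m G l h1 h2 har h3 h4 => ?_⟩
  obtain ⟨j, rfl⟩ := Nat.exists_eq_add_of_le h2
  obtain ⟨t0, rfl⟩ : ∃ t0, G = t0 + l0 := ⟨G - l0, by omega⟩
  have hd := hl0 l0 (m1 + j) a le_rfl ha har
  have hR : 1 ≤ r * 2 ^ (m1 + j) := ha.trans har
  have b0 := hm0 (2 ^ m1) (h1.trans (Nat.lt_two_pow_self).le)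
  have s0 : (0 : ℤ) < 2 ^ (m1 + j) := by positivity
  have hAL : ((t0 + l0 : ℕ) : ℤ) * 2 ^ (m1 + j) < l * 2 ^ (m1 + j) :=
    mul_lt_mul_of_pos_right (by exact_mod_cast h4) s0
  have hs1 : (2 : ℤ) ^ (m1 + j) ≤ l0 * 2 ^ (m1 + j) :=
    le_mul_of_one_le_left s0.le (by exact_mod_cast l1)
  have eA : (((t0 + l0) * 2 ^ j : ℕ) : ℤ) * 2 ^ m1 = (t0 + l0 : ℕ) * 2 ^ (m1 + j) := by
    push_cast; ring
  have t1 := phi_tel' (fun q => Φ (box (r * 2 ^ (m1 + j)) (-(l * 2 ^ (m1 + j))) 0 ⊔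
      box a 0 (q * 2 ^ m1))) _ ((t0 + l0) * 2 ^ j) fun q hq => by
      have e : ((q + 1 : ℕ) : ℤ) * 2 ^ m1 = q * 2 ^ m1 + 2 ^ m1 := by push_cast; ring
      have e' : ((q + 1 : ℕ) : ℤ) * 2 ^ m1 ≤ (t0 + l0 : ℕ) * 2 ^ (m1 + j) := by
        rw [← eA]
        exact mul_le_mul_of_nonneg_right (by exact_mod_cast hq) (by positivity)
      simp only [e]
      exact phi_fwd_step h ha har (by positivity) (by positivity) (e ▸ e') hAL
  have t2 := phi_tel' (fun q => Φ (box (r * 2 ^ (m1 + j)) (-(l * 2 ^ (m1 + j))) (q * 2 ^ (m1 + j)) ⊔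
      box a 0 ((t0 + l0 : ℕ) * 2 ^ (m1 + j)))) (ε / 3 * 2 ^ (m1 + j)) t0 fun q hq => by
      have e : ((q + 1 : ℕ) : ℤ) * 2 ^ (m1 + j) = q * 2 ^ (m1 + j) + 2 ^ (m1 + j) := by
        push_cast; ring
      have e' : (q : ℤ) * 2 ^ (m1 + j) + l0 * 2 ^ (m1 + j) ≤ (t0 + l0 : ℕ) * 2 ^ (m1 + j) := by
        rw [← add_mul]
        exact mul_le_mul_of_nonneg_right (by omega) s0.le
      simp only [e]
      refine (phi_thick_step h ha har (by positivity) s0 hs1 e' hAL).trans ?_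
      simpa only [Nat.cast_one, one_mul] using hd
  have t3 := phi_thick_end h (a := a) (u := t0 * 2 ^ (m1 + j)) hR (by positivity) s0 hs1
    (show _ = ((t0 + l0 : ℕ) : ℤ) * 2 ^ (m1 + j) by push_cast; ring) hAL
  have t4 := phi_dbl h (a := 0) (a' := l0 + 1) hr (by omega) (m1 + j)
  rw [zero_mul, add_mul, one_mul] at t4
  have t5 := a1 (r * 2 ^ (m1 + j)) (l * 2 ^ (m1 + j)) ((t0 + l0) * 2 ^ (m1 + j)) hR
    (Nat.mul_pos (by omega) (by positivity))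
  have t6 : Φ (box (r * 2 ^ (m1 + j)) (-(l * 2 ^ (m1 + j))) 0 ⊔ box a 0 ((0 : ℕ) * 2 ^ m1)) ≤
      Φ (box (r * 2 ^ (m1 + j)) 0 (l * 2 ^ (m1 + j))) := by
    have : (0 : ℤ) < l * 2 ^ (m1 + j) := lt_of_le_of_lt (by positivity) hAL
    refine phi_le h (-(l * 2 ^ (m1 + j))) (phi_prof_l (phi_prof_box hR (by omega))
      (phi_fs_box _ _ _)) (phi_fs_box _ _ _) fun c => ?_
    rw [Nat.cast_zero, zero_mul]
    simp only [box, Pi.sup_apply]; split_ifs <;> omega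
  rw [eA] at t1
  rw [div_lt_iff₀ (by positivity)] at hn
  have c1 : (n : ℝ) * (ε / 3) ≤ (t0 + l0) * (ε / 3) :=
    mul_le_mul_of_nonneg_right (by exact_mod_cast (by omega : n ≤ t0 + l0)) (by positivity)
  have c2 : (2 : ℝ) ^ (m1 + j) * Φ (box r 0 (l0 + 1)) ≤ 2 ^ (m1 + j) * ((t0 + l0) * (ε / 3)) :=
    mul_le_mul_of_nonneg_left (by linarith) (by positivity)
  have c3 : (0 : ℝ) ≤ l0 * (ε / 3 * 2 ^ (m1 + j)) := by positivity
  have hQ : (0 : ℝ) < ((t0 + l0) * 2 ^ j : ℕ) := by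
    exact_mod_cast Nat.mul_pos (by omega) (by positivity)
  have c4 : 2 ^ m1 * (ρ - 2 * (ε / 3)) ≤ Φ (box a 0 (2 ^ m1) ⊔
      (box (r * 2 ^ (m1 + j)) (-(l * 2 ^ (m1 + j))) (-((t0 + l0 : ℕ) * 2 ^ (m1 + j))) ⊔
        box a (-((t0 + l0 : ℕ) * 2 ^ (m1 + j))) 0)) -
      Φ (box (r * 2 ^ (m1 + j)) (-(l * 2 ^ (m1 + j))) (-((t0 + l0 : ℕ) * 2 ^ (m1 + j))) ⊔
        box a (-((t0 + l0 : ℕ) * 2 ^ (m1 + j))) 0) := by
    refine le_of_mul_le_mul_left (le_trans ?_ t1) hQ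
    have e : (((t0 + l0) * 2 ^ j : ℕ) : ℝ) * (2 ^ m1 * (ρ - 2 * (ε / 3))) =
        (t0 + l0) * 2 ^ (m1 + j) * (ρ - 2 * (ε / 3)) := by
      push_cast; ring
    rw [e]
    simp only [Nat.cast_zero, zero_mul] at t2 t6 ⊢
    push_cast at t2 t3 t5 t6 ⊢
    linarith
  push_cast at b0
  linarith

end Pool.Agent.PSV
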