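import Pool.Agent.Lib.MP_607584_al.PSV.Line
import Pool.Agent.Lib.MP_607584_al.PSV.Mean
import Pool.Agent.Lib.MP_607584_al.PSV.Phi

/-! A sequence of groups with lines, and the two entropy functionals. -/

namespace Pool.Agent.PSV

open Subgroup Filter
open scoped Pointwise commutatorElement

variable {V : Type} {T : SimpleGraph V}

/-- a sequence of groups with lines -/
structure Ctx (T : SimpleGraph V) (d : ℕ) (C : ℝ) (L : ℕ) where
  H : ℕ → Subgroup (T ≃g T)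
  b : ℕ → ℕ
  s : Sch
  std : ∀ k, Std T d C (H k) (b k)
  D : ∀ k, UData (H k) (b k) L (s.N k)
  hb : ∀ k, 100 * s.N k ≤ b k

namespace Ctx

variable {d : ℕ} {C : ℝ} {L : ℕ} (c : Ctx T d C L)

/-- the region described by a profile -/
def Reg (k e : ℕ) (i : ℤ) (ψ : ℤ → ℕ) : Set V :=
  ⋃ t ∈ Function.support ψ, Nb T ((c.D k).Seg (i + t * 2 ^ e) (i + (t + 1) * 2 ^ e)) (ψ t * 2 ^ e)

/-- normalised size of the top groups of a region -/
noncomputable def fM (ψ : ℤ → ℕ) : Fn := fun k e i =>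
  lc (Md (c.H k) (c.b k) (c.Reg k e i ψ)) / 2 ^ e

/-- normalised cost of fixing a region -/
noncomputable def fH (ψ : ℤ → ℕ) : Fn := fun k e i =>
  (lc (Gb (c.H k) ((c.D k).xz i) 0) - lc (Fx (c.H k) (c.Reg k e i ψ))) / 2 ^ e

theorem ctx_mem {k e : ℕ} {i : ℤ} {ψ : ℤ → ℕ} {v : V} : v ∈ c.Reg k e i ψ ↔
    ∃ t p : ℤ, ψ t ≠ 0 ∧ i + t * 2 ^ e ≤ p ∧ p ≤ i + (t + 1) * 2 ^ e ∧
      T.dist ((c.D k).xz p) v ≤ ψ t * 2 ^ e := by
  simp only [Reg, Set.mem_iUnion, Function.mem_support, exists_prop]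
  constructor
  · rintro ⟨t, h0, _, ⟨p, hp, rfl⟩, h1⟩
    exact ⟨t, p, h0, hp.1, hp.2, h1⟩
  · rintro ⟨t, p, h0, h1, h2, h3⟩
    exact ⟨t, h0, _, ⟨p, ⟨h1, h2⟩, rfl⟩, h3⟩

theorem ctx_mono (k e : ℕ) (i : ℤ) {ψ ψ' : ℤ → ℕ} (h : ψ ≤ ψ') :
    c.Reg k e i ψ ⊆ c.Reg k e i ψ' := by
  intro v hv
  obtain ⟨t, p, h0, h1, h2, h3⟩ := c.ctx_mem.1 hv
  have h4 : ψ t ≤ ψ' t := h t
  exact c.ctx_mem.2 ⟨t, p, by omega, h1, h2, h3.trans (Nat.mul_le_mul_right _ h4)⟩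

theorem Reg_sup (k e : ℕ) (i : ℤ) (ψ ψ' : ℤ → ℕ) :
    c.Reg k e i (ψ ⊔ ψ') = c.Reg k e i ψ ∪ c.Reg k e i ψ' := by
  refine Set.Subset.antisymm (fun v hv => ?_)
    (Set.union_subset (c.ctx_mono k e i le_sup_left) (c.ctx_mono k e i le_sup_right))
  obtain ⟨t, p, h0, h1, h2, h3⟩ := c.ctx_mem.1 hv
  rw [Pi.sup_apply] at h0 h3
  rcases le_total (ψ t) (ψ' t) with h | h
  · rw [sup_of_le_right h] at h0 h3
    exact Or.inr (c.ctx_mem.2 ⟨t, p, h0, h1, h2, h3⟩)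
  · rw [sup_of_le_left h] at h0 h3
    exact Or.inl (c.ctx_mem.2 ⟨t, p, h0, h1, h2, h3⟩)

theorem ctx_cell {u a a' p : ℤ} (hu : 0 < u) (h : a < a') (h1 : a * u ≤ p) (h2 : p ≤ a' * u) :
    ∃ t, a ≤ t ∧ t < a' ∧ t * u ≤ p ∧ p ≤ (t + 1) * u := by
  rcases h2.eq_or_lt with h3 | h3
  · exact ⟨a' - 1, by omega, by omega, by nlinarith, by rw [sub_add_cancel]; exact h2⟩
  · exact ⟨p / u, (Int.le_ediv_iff_mul_le hu).2 h1, (Int.ediv_lt_iff_lt_mul hu).2 h3,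
      Int.ediv_mul_le p hu.ne', (Int.lt_ediv_add_one_mul_self p hu).le⟩

theorem Reg_box (k e : ℕ) (i : ℤ) {r : ℕ} {a a' : ℤ} (hr : 1 ≤ r) (h : a < a') :
    c.Reg k e i (box r a a') =
      Nb T ((c.D k).Seg (i + a * 2 ^ e) (i + a' * 2 ^ e)) (r * 2 ^ e) := by
  have hu : (0 : ℤ) < 2 ^ e := by positivity
  ext v
  rw [c.ctx_mem]
  constructor
  · rintro ⟨t, p, h0, h1, h2, h3⟩
    have h4 : a ≤ t ∧ t < a' := by
      by_contra h5
      exact h0 (if_neg h5)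
    rw [box, if_pos h4] at h3
    have h5 : a * 2 ^ e ≤ t * 2 ^ e := mul_le_mul_of_nonneg_right h4.1 hu.le
    have h6 : (t + 1) * 2 ^ e ≤ a' * 2 ^ e := mul_le_mul_of_nonneg_right h4.2 hu.le
    exact ⟨_, ⟨p, ⟨by omega, by omega⟩, rfl⟩, h3⟩
  · rintro ⟨_, ⟨p, ⟨h1, h2⟩, rfl⟩, h3⟩
    obtain ⟨t, t1, t2, t3, t4⟩ := ctx_cell (p := p - i) hu h (by omega) (by omega)
    have e1 : box r a a' t = r := if_pos ⟨t1, t2⟩
    exact ⟨t, p, by omega, by omega, by omega, by rwa [e1]⟩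

/-- every window of bounded size is small compared with the length of the line -/
theorem small (X : ℕ) : ∀ᶠ k in om, ∀ e, e ≤ 2 * c.s.E k → X * 2 ^ e ≤ c.s.N k := by
  filter_upwards [c.s.hN X] with k hk e he
  exact (Nat.mul_le_mul_left _ (Nat.pow_le_pow_right two_pos he)).trans hk

theorem ctx_small (X : ℕ) : ∀ᶠ k in om, ∀ e, e ≤ 2 * c.s.E k → 2 * (X * 2 ^ e) + 2 ≤ c.b k := by
  filter_upwards [c.small (X + 1)] with k hk e he
  have h1 := hk e he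
  have h2 := c.hb k
  have h3 : 1 ≤ 2 ^ e := Nat.one_le_two_pow
  rw [add_mul, one_mul] at h1
  omega

theorem ctx_ball {ψ : ℤ → ℕ} (h : (Function.support ψ).Finite) : ∃ X : ℕ, ∀ k e i,
    c.Reg k e i ψ ⊆ Ball T ((c.D k).xz i) (X * 2 ^ e) := by
  obtain ⟨A, hA⟩ := (h.image fun t => t.natAbs + ψ t).bddAbove
  refine ⟨A + 1, fun k e i v hv => ?_⟩
  obtain ⟨t, p, h0, h1, h2, h3⟩ := c.ctx_mem.1 hv
  have h4 : t.natAbs + ψ t ≤ A := hA ⟨t, h0, rfl⟩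
  have hu : (0 : ℤ) < 2 ^ e := by positivity
  have h5 := (c.D k).dist_le (c.std k).tree i p
  have h6 : |i - p| ≤ ((t.natAbs + 1) * 2 ^ e : ℕ) := by
    push_cast
    have h7 := le_abs_self t
    have h8 := neg_abs_le t
    rw [abs_le]
    constructor <;> nlinarith
  have h7 : T.dist ((c.D k).xz i) ((c.D k).xz p) ≤ (t.natAbs + 1) * 2 ^ e := by
    exact_mod_cast h5.trans h6
  have h8 := (c.std k).tree.connected.dist_triangle (u := (c.D k).xz i) (v := (c.D k).xz p) (w := v)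
  have h9 : (t.natAbs + 1 + ψ t) * 2 ^ e ≤ (A + 1) * 2 ^ e := Nat.mul_le_mul_right _ (by omega)
  rw [add_mul] at h9
  change T.dist _ v ≤ _
  omega

theorem ctx_ne {ψ : ℤ → ℕ} (h : ψ ≠ 0) (k e : ℕ) (i : ℤ) : (c.Reg k e i ψ).Nonempty := by
  obtain ⟨t, ht⟩ := Function.ne_iff.1 h
  have hu : (0 : ℤ) < 2 ^ e := by positivity
  exact ⟨(c.D k).xz (i + t * 2 ^ e),
    c.ctx_mem.2 ⟨t, i + t * 2 ^ e, ht, le_rfl, by nlinarith, by simp⟩⟩

theorem ctx_shift (k e : ℕ) (i : ℤ) (ψ : ℤ → ℕ) :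
    c.Reg k e i (fun t => ψ (t + 1)) = c.Reg k e (i + -2 ^ e) ψ := by
  ext v
  rw [c.ctx_mem, c.ctx_mem]
  constructor
  · rintro ⟨t, p, h0, h1, h2, h3⟩
    exact ⟨t + 1, p, h0, by linarith, by linarith, h3⟩
  · rintro ⟨t, p, h0, h1, h2, h3⟩
    exact ⟨t - 1, p, by rwa [sub_add_cancel], by linarith, by linarith, by rwa [sub_add_cancel]⟩

theorem ctx_dbl (k e : ℕ) (i : ℤ) (ψ : ℤ → ℕ) :
    c.Reg k e i (fun t => 2 * ψ (t / 2)) = c.Reg k (e + 1) i ψ := by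
  have hu : (0 : ℤ) < 2 ^ e := by positivity
  have e1 : ∀ n : ℕ, 2 * n * 2 ^ e = n * 2 ^ (e + 1) := fun n => by ring
  ext v
  rw [c.ctx_mem, c.ctx_mem]
  constructor
  · rintro ⟨t, p, h0, h1, h2, h3⟩
    have h4 : t / 2 * 2 * 2 ^ e ≤ t * 2 ^ e := mul_le_mul_of_nonneg_right (by omega) hu.le
    have h5 : (t + 1) * 2 ^ e ≤ (t / 2 + 1) * 2 * 2 ^ e :=
      mul_le_mul_of_nonneg_right (by omega) hu.le
    refine ⟨t / 2, p, by omega, ?_, ?_, by rwa [← e1]⟩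
    · rw [pow_succ]
      linarith
    · rw [pow_succ]
      linarith
  · rintro ⟨t, p, h0, h1, h2, h3⟩
    rw [pow_succ] at h1 h2
    obtain ⟨t', t1, t2, t3, t4⟩ := ctx_cell (a := 2 * t) (a' := 2 * t + 2) (p := p - i) hu
      (by omega) (by linarith) (by linarith)
    have e2 : t' / 2 = t := by omega
    exact ⟨t', p, by rw [e2]; omega, by omega, by omega, by rwa [e2, e1]⟩

theorem ctx_div {x C : ℝ} {X e : ℕ} (hC : 1 ≤ C) (h0 : 0 ≤ x)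
    (h : x ≤ C * (((X * 2 ^ e : ℕ) : ℝ) + 1)) : |x / 2 ^ e| ≤ C * (X + 1) := by
  have h1 : (1 : ℝ) ≤ 2 ^ e := one_le_pow₀ one_le_two
  rw [abs_of_nonneg (by positivity), div_le_iff₀ (by positivity)]
  push_cast at h
  nlinarith

theorem bd_fM {ψ : ℤ → ℕ} (h : (Function.support ψ).Finite) : c.s.Bd (c.fM ψ) := by
  obtain ⟨X, hX⟩ := c.ctx_ball h
  refine ⟨C * (X + 1), ?_⟩
  filter_upwards [c.ctx_small X] with k hk e he i
  have h1 := hk e he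
  have := (c.std k).toHyp.finWd ((c.D k).xz i) (r := X * 2 ^ e) (by omega)
  exact ctx_div (c.std k).one_le (lc_nonneg _)
    ((lc_mono (Y := Wd _ _ _ _) (Md_mono (hX k e i))).trans ((c.std k).grow _ _ (by omega)))

theorem ctx_lc (k : ℕ) (x y : V) : lc (Gb (c.H k) x 0) = lc (Gb (c.H k) y 0) := by
  rw [lc, lc, (c.std k).toHyp.card_Gb x y]

theorem ctx_fH {ψ : ℤ → ℕ} (h : ψ ≠ 0) (k e : ℕ) (i : ℤ) :
    0 ≤ lc (Gb (c.H k) ((c.D k).xz i) 0) - lc (Fx (c.H k) (c.Reg k e i ψ)) := by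
  obtain ⟨y, hy⟩ := c.ctx_ne h k e i
  have := (c.std k).toHyp.finGb y 0
  rw [c.ctx_lc k _ y, sub_nonneg]
  exact lc_mono fun g hg => (mem_Gb_zero (c.std k).tree).2 ⟨hg.1, hg.2 y hy⟩

theorem bd_fH {ψ : ℤ → ℕ} (h : Prof ψ) : c.s.Bd (c.fH ψ) := by
  obtain ⟨X, hX⟩ := c.ctx_ball h.1
  refine ⟨C * (X + 1), ?_⟩
  filter_upwards [c.ctx_small X] with k hk e he i
  have h1 := hk e he
  have := (c.std k).toHyp.finGb ((c.D k).xz i) 0
  have := (c.std k).toHyp.finFx (c.ctx_ne h.2 k e i)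
  refine ctx_div (c.std k).one_le (c.ctx_fH h.2 k e i) ?_
  have h2 := (c.std k).width ((c.D k).xz i) (X * 2 ^ e) (by omega)
  rw [ld_eq, inf_of_le_right (Gb_anti' (Nat.zero_le _))] at h2
  have h3 : lc (Gb (c.H k) ((c.D k).xz i) (X * 2 ^ e)) ≤ lc (Fx (c.H k) (c.Reg k e i ψ)) :=
    lc_mono (Fx_anti (hX k e i))
  linarith

theorem ctx_sup {ψ ψ' : ℤ → ℕ} (h : Prof ψ) (h' : Prof ψ') : Prof (ψ ⊔ ψ') := by
  refine ⟨(h.1.union h'.1).subset fun t ht => ?_, fun h0 => h.2 (funext fun t => ?_)⟩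
  · by_contra h1
    simp only [Set.mem_union, Function.mem_support, not_or, not_not] at h1
    exact ht (by rw [Pi.sup_apply, h1.1, h1.2, sup_idem])
  · have h1 : ψ t ≤ (ψ ⊔ ψ') t := le_sup_left
    rw [h0] at h1
    exact Nat.le_zero.1 h1

theorem ctx_inf {ψ : ℤ → ℕ} (h : Prof ψ) (ψ' : ℤ → ℕ) : (Function.support (ψ ⊓ ψ')).Finite := by
  refine h.1.subset fun t ht h0 => ht ?_
  have h1 : (ψ ⊓ ψ') t ≤ ψ t := inf_le_left
  omega

theorem ctx_two {ψ : ℤ → ℕ} (h : Prof ψ) : Prof fun t => 2 * ψ (t / 2) := by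
  refine ⟨(h.1.preimage' (f := fun t : ℤ => t / 2) fun a _ =>
    (Set.finite_Icc (2 * a) (2 * a + 1)).subset fun t ht => ?_).subset fun t ht h0 => ht ?_,
    fun h0 => h.2 (funext fun t => ?_)⟩
  · have h1 : t / 2 = a := ht
    constructor <;> omega
  · change 2 * ψ (t / 2) = 0
    rw [h0, mul_zero]
  · have h1 : 2 * ψ (2 * t / 2) = 0 := congrFun h0 (2 * t)
    rw [Int.mul_ediv_cancel_left _ two_ne_zero] at h1
    change ψ t = 0
    omega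

theorem ctx_nonneg {s : Sch} {F : Fn} (hF : s.Bd F) (h : ∀ k e i, 0 ≤ F k e i) : 0 ≤ s.Ex F := by
  rw [← Sch.Ex_const (s := s) 0]
  exact Sch.Ex_mono (Sch.Bd.const 0) hF (Eventually.of_forall fun k e _ _ i _ _ => h k e i)

theorem ctx_ex_shift {s : Sch} {F G : Fn} (hF : s.Bd F) (h : ∀ k e i, G k e i = F k e (i + -2 ^ e)) :
    s.Ex G = s.Ex F := by
  rw [← Sch.Ex_shift hF 0 1 (fun e => -2 ^ e) fun e => by simp]
  exact Sch.Ex_congr (Eventually.of_forall fun k e _ _ i _ _ => h k e i)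

theorem ctx_ex_dbl {s : Sch} {F G : Fn} (hF : s.Bd F) (hG : s.Bd G)
    (h : ∀ k e i, G k e i = 2 * F k (e + 1) i) : s.Ex G = 2 * s.Ex F := by
  rw [← Sch.Ex_shift hG 1 0 (fun _ => 0) fun e => by simp, ← Sch.Ex_mul hF]
  refine Sch.Ex_congr ?_
  filter_upwards [s.hE.eventually_ge_atTop 1] with k hk e he _ i _ _
  rw [h, add_zero, Nat.sub_add_cancel (hk.trans he)]

theorem ctx_half (x : ℝ) (e : ℕ) : x / 2 ^ e = 2 * (x / 2 ^ (e + 1)) := by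
  rw [pow_succ]
  field_simp

theorem ctx_subM {ψ ψ' : ℤ → ℕ} (h : Prof ψ) (h' : Prof ψ') :
    c.s.Ex (c.fM (ψ ⊔ ψ')) + c.s.Ex (c.fM (ψ ⊓ ψ')) ≤ c.s.Ex (c.fM ψ) + c.s.Ex (c.fM ψ') := by
  have b1 := c.bd_fM (ctx_sup h h').1
  have b2 := c.bd_fM (ctx_inf h ψ')
  have b3 := c.bd_fM h.1
  have b4 := c.bd_fM h'.1
  rw [← Sch.Ex_add b1 b2, ← Sch.Ex_add b3 b4]
  refine Sch.Ex_mono (b1.add b2) (b3.add b4) ?_
  obtain ⟨X, hX⟩ := c.ctx_ball (ctx_sup h h').1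
  filter_upwards [c.ctx_small X] with k hk e _ he i _ _
  have h1 := hk e he.le
  have := (c.std k).toHyp.finWd ((c.D k).xz i) (r := X * 2 ^ e) (by omega)
  have l1 : Md (c.H k) (c.b k) (c.Reg k e i ψ) ≤ Wd (c.H k) (c.b k) ((c.D k).xz i) (X * 2 ^ e) :=
    Md_mono ((c.ctx_mono k e i le_sup_left).trans (hX k e i))
  have l2 : Md (c.H k) (c.b k) (c.Reg k e i ψ') ≤ Wd (c.H k) (c.b k) ((c.D k).xz i) (X * 2 ^ e) :=
    Md_mono ((c.ctx_mono k e i le_sup_right).trans (hX k e i))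
  have h2 := lc_sup_ab (Wd_ab (c.std k).tree h1) l1 l2
  have := fin_of_le ((inf_le_left (b := Md (c.H k) (c.b k) (c.Reg k e i ψ'))).trans l1)
  have h3 : lc (Md (c.H k) (c.b k) (c.Reg k e i (ψ ⊓ ψ'))) ≤
      lc (Md (c.H k) (c.b k) (c.Reg k e i ψ) ⊓ Md (c.H k) (c.b k) (c.Reg k e i ψ')) :=
    lc_mono (le_inf (Md_mono (c.ctx_mono k e i inf_le_left))
      (Md_mono (c.ctx_mono k e i inf_le_right)))
  simp only [fM]
  rw [c.Reg_sup, Md_union, ← add_div, ← add_div]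
  exact div_le_div_of_nonneg_right (by linarith) (by positivity)

theorem ctx_nonnegM {ψ : ℤ → ℕ} (h : (Function.support ψ).Finite) : 0 ≤ c.s.Ex (c.fM ψ) :=
  ctx_nonneg (c.bd_fM h) fun _ _ _ => div_nonneg (lc_nonneg _) (by positivity)

theorem phiM : PhiAx fun ψ => c.s.Ex (c.fM ψ) := by
  refine ⟨fun ψ h => c.ctx_nonnegM h.1, fun ψ ψ' h h' hle => ?_,
    fun ψ ψ' h h' _ => c.ctx_subM h h', fun ψ h => ctx_ex_shift (c.bd_fM h.1) fun k e i => ?_,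
    fun ψ h => ctx_ex_dbl (c.bd_fM h.1) (c.bd_fM (ctx_two h).1) fun k e i => ?_⟩
  · refine Sch.Ex_mono (c.bd_fM h.1) (c.bd_fM h'.1) ?_
    obtain ⟨X, hX⟩ := c.ctx_ball h'.1
    filter_upwards [c.ctx_small X] with k hk e _ he i _ _
    have h1 := hk e he.le
    have := (c.std k).toHyp.finWd ((c.D k).xz i) (r := X * 2 ^ e) (by omega)
    have := fin_of_le (Y := Wd (c.H k) (c.b k) _ _) (Md_mono (hX k e i))
    exact div_le_div_of_nonneg_right (lc_mono (Md_mono (c.ctx_mono k e i hle))) (by positivity)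
  · simp only [fM]
    rw [c.ctx_shift]
  · simp only [fM]
    rw [c.ctx_dbl, ctx_half]

theorem phiM_add : PhiAdd fun ψ => c.s.Ex (c.fM ψ) := by
  intro ψ ψ' h h'
  have h1 := c.ctx_subM h h'
  have h2 := c.ctx_nonnegM (ctx_inf h ψ')
  change c.s.Ex (c.fM (ψ ⊔ ψ')) ≤ c.s.Ex (c.fM ψ) + c.s.Ex (c.fM ψ')
  linarith

theorem phiH : PhiAx fun ψ => c.s.Ex (c.fH ψ) := by
  refine ⟨fun ψ h => ctx_nonneg (c.bd_fH h) fun k e i =>
      div_nonneg (c.ctx_fH h.2 k e i) (by positivity), fun ψ ψ' h h' hle => ?_,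
    fun ψ ψ' h h' h0 => ?_, fun ψ h => ctx_ex_shift (c.bd_fH h) fun k e i => ?_,
    fun ψ h => ctx_ex_dbl (c.bd_fH h) (c.bd_fH (ctx_two h)) fun k e i => ?_⟩
  · refine Sch.Ex_mono (c.bd_fH h) (c.bd_fH h') (Eventually.of_forall fun k e _ _ i _ _ => ?_)
    have := (c.std k).toHyp.finFx (c.ctx_ne h.2 k e i)
    exact div_le_div_of_nonneg_right
      (sub_le_sub_left (lc_mono (Fx_anti (c.ctx_mono k e i hle))) _) (by positivity)
  · have b1 := c.bd_fH (ctx_sup h h')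
    have b2 := c.bd_fH ⟨ctx_inf h ψ', h0⟩
    have b3 := c.bd_fH h
    have b4 := c.bd_fH h'
    rw [← Sch.Ex_add b1 b2, ← Sch.Ex_add b3 b4]
    refine Sch.Ex_mono (b1.add b2) (b3.add b4) (Eventually.of_forall fun k e _ _ i _ _ => ?_)
    have := (c.std k).toHyp.finFx (c.ctx_ne h0 k e i)
    have h2 := lc_sub (Fx_anti (H := c.H k) (c.ctx_mono k e i (inf_le_left (a := ψ) (b := ψ'))))
      (Fx_anti (c.ctx_mono k e i inf_le_right))
    simp only [fH]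
    rw [c.Reg_sup, Fx_union, ← add_div, ← add_div]
    exact div_le_div_of_nonneg_right (by linarith) (by positivity)
  · simp only [fH]
    rw [c.ctx_shift, c.ctx_lc k _ ((c.D k).xz (i + -2 ^ e))]
  · simp only [fH]
    rw [c.ctx_dbl, ctx_half]

end Ctx

end Pool.Agent.PSV
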