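import Mathlib

/-! Definitions for the proof of the conjecture of Potocnik, Spiga and Verret. -/

namespace Pool.Agent.PSV

open Subgroup Filter
open scoped Pointwise commutatorElement

section Grp

variable {Γ : Type*} [Group Γ]

/-- logarithm of the order -/
noncomputable def lc (X : Subgroup Γ) : ℝ := Real.log (Nat.card X)

/-- logarithm of the index of `X ⊓ Y` in `X` -/
noncomputable def ld (X Y : Subgroup Γ) : ℝ := Real.log (Y.relIndex X)

/-- the conjugate subgroup `g X g⁻¹` -/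
def cj (g : Γ) (X : Subgroup Γ) : Subgroup Γ := X.map (MulAut.conj g).toMonoidHom

/-- logarithm of the number of conjugates of `c` under `X` -/
noncomputable def rk (X : Subgroup Γ) (c : Γ) : ℝ := ld X (centralizer {c})

/-- up to index `exp ε`, the commutators of `c` with `W` lie in `P` -/
def Out (W : Subgroup Γ) (c : Γ) (P : Subgroup Γ) (ε : ℝ) : Prop :=
  ∃ W' : Subgroup Γ, W' ≤ W ∧ ld W W' ≤ ε ∧ ∀ m ∈ W', ⁅c, m⁆ ∈ P

/-- `S` is a subset of `X` of density at least `exp (-η)` -/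
def Dn (S : Set Γ) (X : Subgroup Γ) (η : ℝ) : Prop :=
  S ⊆ X ∧ Real.exp (-η) * (Nat.card X : ℝ) ≤ (S.ncard : ℝ)

/-- `X` is abelian -/
def Ab (X : Subgroup Γ) : Prop := ∀ a ∈ X, ∀ b ∈ X, a * b = b * a

/-- elements of `A` that normalise `N` and centralise the set `K` modulo `N` -/
def CM (A N : Subgroup Γ) (K : Set Γ) : Subgroup Γ where
  carrier := {g | g ∈ A ∧ g ∈ normalizer (N : Set Γ) ∧ ∀ c ∈ K, ⁅g, c⁆ ∈ N}
  one_mem' := ⟨A.one_mem, (normalizer (N : Set Γ)).one_mem, fun c _ => by simp⟩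
  mul_mem' := by
    rintro g g' ⟨h1, h2, h3⟩ ⟨h4, h5, h6⟩
    refine ⟨A.mul_mem h1 h4, (normalizer (N : Set Γ)).mul_mem h2 h5, fun c hc => ?_⟩
    have e : ⁅g * g', c⁆ = g * ⁅g', c⁆ * g⁻¹ * ⁅g, c⁆ := by
      simp only [commutatorElement_def]; group
    rw [e]
    exact N.mul_mem ((mem_normalizer_iff.1 h2 _).1 (h6 c hc)) (h3 c hc)
  inv_mem' := by
    rintro g ⟨h1, h2, h3⟩
    refine ⟨A.inv_mem h1, (normalizer (N : Set Γ)).inv_mem h2, fun c hc => ?_⟩
    have e : ⁅g⁻¹, c⁆ = g⁻¹ * ⁅g, c⁆⁻¹ * g⁻¹⁻¹ := by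
      simp only [commutatorElement_def]; group
    rw [e]
    exact (mem_normalizer_iff.1 ((normalizer (N : Set Γ)).inv_mem h2) _).1 (N.inv_mem (h3 c hc))

/-- the conjugates of `a` by the elements of `S` -/
def cls (S : Set Γ) (a : Γ) : Set Γ := {g | ∃ σ ∈ S, g = σ * a * σ⁻¹}

/-- `S` is symmetric and contains the identity -/
def Sym (S : Set Γ) : Prop := 1 ∈ S ∧ S⁻¹ = S

end Grp

section Tr

variable {V : Type} {T : SimpleGraph V}

/-- closed ball -/
def Ball (T : SimpleGraph V) (x : V) (r : ℕ) : Set V := {v | T.dist x v ≤ r}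

/-- closed neighbourhood of a set -/
def Nb (T : SimpleGraph V) (S : Set V) (r : ℕ) : Set V := {v | ∃ s ∈ S, T.dist s v ≤ r}

/-- `z` lies on the geodesic from `u` to `v` -/
def Btw (T : SimpleGraph V) (u z v : V) : Prop := T.dist u z + T.dist z v = T.dist u v

/-- pointwise fixer of a set of vertices inside `H` -/
def Fx (H : Subgroup (T ≃g T)) (S : Set V) : Subgroup (T ≃g T) where
  carrier := {g | g ∈ H ∧ ∀ v ∈ S, g v = v}
  one_mem' := ⟨H.one_mem, fun _ _ => rfl⟩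
  mul_mem' := by
    rintro g g' ⟨h1, h2⟩ ⟨h3, h4⟩
    exact ⟨H.mul_mem h1 h3, fun v hv => by
      rw [RelIso.mul_apply, h4 v hv, h2 v hv]⟩
  inv_mem' := by
    rintro g ⟨h1, h2⟩
    refine ⟨H.inv_mem h1, fun v hv => ?_⟩
    have e : g⁻¹ (g v) = v := by
      rw [← RelIso.mul_apply, inv_mul_cancel]; rfl
    rwa [h2 v hv] at e

/-- pointwise stabiliser of a ball -/
def Gb (H : Subgroup (T ≃g T)) (x : V) (r : ℕ) : Subgroup (T ≃g T) := Fx H (Ball T x r)

/-- the top group of a vertex -/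
def Zt (H : Subgroup (T ≃g T)) (b : ℕ) (x : V) : Subgroup (T ≃g T) :=
  Gb H x b ⊓ centralizer (Gb H x 2 : Set (T ≃g T))

/-- the group generated by the top groups of a set of vertices -/
def Md (H : Subgroup (T ≃g T)) (b : ℕ) (S : Set V) : Subgroup (T ≃g T) := ⨆ w ∈ S, Zt H b w

/-- the group generated by the top groups of a ball -/
def Wd (H : Subgroup (T ≃g T)) (b : ℕ) (x : V) (r : ℕ) : Subgroup (T ≃g T) := Md H b (Ball T x r)

/-- `c` fixes `w` and a neighbour of `w` and moves another neighbour -/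
def Active (c : T ≃g T) (w : V) : Prop :=
  c w = w ∧ (∃ y, T.Adj w y ∧ c y = y) ∧ ∃ y, T.Adj w y ∧ c y ≠ y

/-- `R` is transitive on the neighbours of `w` -/
def LTr (R : Subgroup (T ≃g T)) (w : V) : Prop :=
  ∀ y y', T.Adj w y → T.Adj w y' → ∃ g ∈ R, g y = y'

/-- standing hypotheses; `b` is the largest radius with non-trivial ball stabiliser -/
structure Hyp (T : SimpleGraph V) (d : ℕ) (H : Subgroup (T ≃g T)) (b : ℕ) : Prop where
  tree : T.IsTree
  nfin : ∀ v, (T.neighborSet v).Finite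
  deg : ∀ v, (T.neighborSet v).ncard ≤ d
  fin : ∀ v, Finite (Gb H v 0)
  vtr : ∀ u v, ∃ g ∈ H, g u = v
  ltr : ∀ w, LTr (Gb H w 0) w
  sp : ∀ (w : V) (N : Subgroup (T ≃g T)), N ≤ Gb H w 0 →
    Gb H w 0 ≤ normalizer (N : Set (T ≃g T)) → (∃ c ∈ N, Active c w) → LTr N w
  pgrp : ∃ p : ℕ, p.Prime ∧ ∀ x, IsPGroup p (Gb H x 2)
  two : 2 ≤ b
  bne : ∀ x, Gb H x b ≠ ⊥
  btop : ∀ x, Gb H x (b + 1) = ⊥

/-- standing hypotheses together with linear growth and finite width -/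
structure Std (T : SimpleGraph V) (d : ℕ) (C : ℝ) (H : Subgroup (T ≃g T)) (b : ℕ) : Prop
    extends Hyp T d H b where
  one_le : 1 ≤ C
  grow : ∀ x r, r + 1 ≤ b → lc (Wd H b x r) ≤ C * (r + 1)
  width : ∀ x r, r + 1 ≤ b → ld (Gb H x 0) (Gb H x r) ≤ C * (r + 1)

/-- no shallow element has many commuting conjugates -/
def NAf (H : Subgroup (T ≃g T)) (b M : ℕ) : Prop :=
  ∀ (x : V) (n : ℕ) (S : Set (T ≃g T)) (ζ : T ≃g T), M ≤ n → 4 * n ≤ b →
    Dn S (Gb H x 0) ((n : ℝ) / M) → Sym S → ζ ∈ Gb H x 1 →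
    (∀ a ∈ cls (S ^ M) ζ, ∀ a' ∈ cls (S ^ M) ζ, ⁅a, a'⁆ ∈ Gb H x n) → ζ ∈ Gb H x (n / M)

/-- no shallow element acts quadratically with respect to an almost invariant subgroup -/
def FQf (H : Subgroup (T ≃g T)) (b M : ℕ) : Prop :=
  ∀ (x : V) (n : ℕ) (P : Subgroup (T ≃g T)) (S : Set (T ≃g T)) (ζ : T ≃g T), M ≤ n →
    4 * n ≤ b → P ≤ Wd H b x n → Dn S (Gb H x 0) ((n : ℝ) / M) →
    (∀ σ ∈ S, ld (cj σ P) P ≤ (n : ℝ) / M) → ζ ∈ Gb H x 1 → rk P ζ ≤ (n : ℝ) / M →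
    Out (Wd H b x n) ζ P ((n : ℝ) / M) → ζ ∈ Gb H x (n / M)

end Tr

section Ul

/-- the fixed non-principal ultrafilter -/
noncomputable abbrev om : Filter ℕ := (hyperfilter ℕ : Filter ℕ)

/-- limit along the ultrafilter -/
noncomputable def ulim (f : ℕ → ℝ) : ℝ := limUnder om f

/-- `f` is at most `o(n)` along the ultrafilter -/
def Sm (n : ℕ → ℕ) (f : ℕ → ℝ) : Prop := ∀ ε : ℝ, 0 < ε → ∀ᶠ k in om, f k ≤ ε * n k

/-- every sequence that almost always lies in `E k` belongs to `X` -/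
def Inn {Γ : Type*} (E : ℕ → Set Γ) (X : Set (ℕ → Γ)) : Prop :=
  ∀ g : ℕ → Γ, (∀ᶠ k in om, g k ∈ E k) → g ∈ X

/-- a countable intersection of sets given coordinatewise -/
def Wedge {Γ : Type*} (X : Set (ℕ → Γ)) : Prop :=
  ∃ lev : ℕ → ℕ → Set Γ, ∀ g : ℕ → Γ, g ∈ X ↔ ∀ m, ∀ᶠ k in om, g k ∈ lev m k

end Ul

section Sq

variable {V : Type} {T : SimpleGraph V}

/-- a sequence of groups with base vertices and scales -/
structure Seq (T : SimpleGraph V) (d : ℕ) (C : ℝ) where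
  H : ℕ → Subgroup (T ≃g T)
  b : ℕ → ℕ
  x : ℕ → V
  n : ℕ → ℕ
  std : ∀ k, Std T d C (H k) (b k)
  hn : Tendsto n om atTop
  hb : ∀ᶠ k in om, 4 * n k ≤ b k

variable {d : ℕ} {C : ℝ} (Q : Seq T d C)

/-- ball stabilisers at the base vertex -/
def Seq.G (k r : ℕ) : Subgroup (T ≃g T) := Gb (Q.H k) (Q.x k) r

/-- sequences of group elements that move the base vertex by `o(n)` -/
def Seq.Short (g : ℕ → T ≃g T) : Prop :=
  (∀ᶠ k in om, g k ∈ Q.H k) ∧ Sm Q.n fun k => (T.dist (Q.x k) (g k (Q.x k)) : ℝ)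

/-- sequences that move a vertex at distance `o(n)` from the base vertex -/
def Seq.Shal (z : ℕ → T ≃g T) : Prop := ∀ m : ℕ, ∀ᶠ k in om, z k ∉ Q.G k (Q.n k / (m + 1))

/-- shallow sequences that fix the neighbours of the base vertex -/
def Seq.Dep0 (z : ℕ → T ≃g T) : Prop := (∀ᶠ k in om, z k ∈ Q.G k 1) ∧ Q.Shal z

/-- symmetric subsets of the base stabiliser of density `exp (-o(n))` -/
def Seq.DS (S : ℕ → Set (T ≃g T)) : Prop :=
  ∃ η : ℕ → ℝ, Sm Q.n η ∧ ∀ᶠ k in om, Dn (S k) (Q.G k 0) (η k) ∧ Sym (S k)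

/-- groups of sequences that contain a dense symmetric set -/
def Seq.Dense (D : Subgroup (ℕ → T ≃g T)) : Prop := ∃ S, Q.DS S ∧ Inn S D

end Sq

end Pool.Agent.PSV
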