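import Pool.Agent.Lib.MP_607584_al.PSV.SeqL

/-! The endgame, part a: a maximal almost invariant subgroup. -/

namespace Pool.Agent.PSV

open Subgroup Filter
open scoped Pointwise commutatorElement

variable {V : Type} {T : SimpleGraph V} {d : ℕ} {C : ℝ}

/-- `c` has rank `o(n)` on `P` -/
def Seq.Rk (Q : Seq T d C) (P : ℕ → Subgroup (T ≃g T)) (c : ℕ → T ≃g T) : Prop :=
  Sm Q.n fun k => rk (P k) (c k)

/-- `P` lies in `P'` up to index `exp (o(n))` -/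
def Seq.Le (Q : Seq T d C) (P P' : ℕ → Subgroup (T ≃g T)) : Prop :=
  Sm Q.n fun k => ld (P k) (P' k)

/-- `P` is almost invariant under a dense set -/
def Seq.QI (Q : Seq T d C) (P : ℕ → Subgroup (T ≃g T)) : Prop :=
  ∃ S, Q.DS S ∧ ∀ σ : ℕ → T ≃g T, (∀ᶠ k in om, σ k ∈ S k) → Q.Le (fun k => cj (σ k) (P k)) P

/-- the group of short sequences that almost stabilise `P` -/
def Seq.StG (Q : Seq T d C) (P : ℕ → Subgroup (T ≃g T)) (hP : ∀ᶠ k in om, Finite (P k)) :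
    Subgroup (ℕ → T ≃g T) where
  carrier := {g | Q.Short g ∧ Q.Le (fun k => cj (g k) (P k)) P}
  one_mem' := ⟨Q.SG.one_mem, (Sm.const Q.hn 0).of_le (Eventually.of_forall fun k =>
    (ld_of_le (cj_one (P k)).le).le)⟩
  mul_mem' := fun {g g'} h h' => ⟨Q.SG.mul_mem h.1 h'.1, (Sm.add h.2 h'.2).of_le (by
    filter_upwards [hP] with k hk
    exact ld_cj_mul (g k) (g' k) (P k))⟩
  inv_mem' := fun {g} h => ⟨Q.SG.inv_mem h.1, Sm.of_le h.2 (by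
    filter_upwards [hP] with k hk
    exact (ld_cj_inv (g k) (P k)).le)⟩

theorem Seq.wedge_StG (Q : Seq T d C) (P : ℕ → Subgroup (T ≃g T))
    (hP : ∀ᶠ k in om, Finite (P k)) : Wedge (Q.StG P hP : Set (ℕ → T ≃g T)) := by
  have h : Wedge {g : ℕ → T ≃g T | Q.Le (fun k => cj (g k) (P k)) P} :=
    ⟨fun m k => {σ | ld (cj σ (P k)) (P k) ≤ (Q.n k : ℝ) / (m + 1)}, fun g => sm_iff⟩
  exact Q.wedge_SG.inter h

theorem Seq.QI.dense {Q : Seq T d C} {P : ℕ → Subgroup (T ≃g T)} (h : Q.QI P)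
    (hP : ∀ᶠ k in om, Finite (P k)) : Q.Dense (Q.StG P hP) := by
  obtain ⟨S, hS, h'⟩ := h
  refine ⟨S, hS, fun σ hσ => ⟨Q.GG_le_SG (fun _ => 0) ?_, h' σ hσ⟩⟩
  obtain ⟨η, -, h2⟩ := hS
  change ∀ᶠ k in om, σ k ∈ Q.G k 0
  filter_upwards [h2, hσ] with k a b using a.1.1 b

/-- the properties of the maximal subgroup -/
structure Seq.MaxP (Q : Seq T d C) (lam : ℕ) (P : ℕ → Subgroup (T ≃g T)) (ζ : ℕ → T ≃g T) :
    Prop where
  hb : ∀ᶠ k in om, 4 * (lam + 1) * Q.n k ≤ Q.b k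
  le : ∀ᶠ k in om, P k ≤ Wd (Q.H k) (Q.b k) (Q.x k) (lam * Q.n k)
  qi : Q.QI P
  dep : Q.Dep0 ζ
  rk : Q.Rk P ζ
  max : ∀ g z : ℕ → T ≃g T, Q.Short g → Q.Dep0 z → Q.Rk P z →
    Q.Rk (fun k => cj (g k) (P k)) z → Q.Le (fun k => cj (g k) (P k)) P

/-- candidates for the maximal subgroup -/
structure Seq.EndaVal (Q : Seq T d C) (lam : ℕ) (P0 P : ℕ → Subgroup (T ≃g T)) : Prop where
  le : ∀ m : ℕ, ∀ᶠ k in om,
    P k ≤ Wd (Q.H k) (Q.b k) (Q.x k) (lam * Q.n k + Q.n k / (m + 1))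
  le0 : Q.Le P0 P
  qi : Q.QI P
  ex : ∃ ζ, Q.Dep0 ζ ∧ Q.Rk P ζ

/-- the conditions on a candidate at one level of precision -/
structure Seq.EndaLev (Q : Seq T d C) (lam : ℕ) (P0 : ℕ → Subgroup (T ≃g T)) (m k : ℕ)
    (P : Subgroup (T ≃g T)) (S : Set (T ≃g T)) (ζ : T ≃g T) : Prop where
  le : P ≤ Wd (Q.H k) (Q.b k) (Q.x k) (lam * Q.n k + Q.n k / (m + 1))
  le0 : ld (P0 k) P ≤ (Q.n k : ℝ) / (m + 1)
  dn : Dn S (Q.G k 0) ((Q.n k : ℝ) / (m + 1))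
  sym : Sym S
  qi : ∀ σ ∈ S, ld (cj σ P) P ≤ (Q.n k : ℝ) / (m + 1)
  one : ζ ∈ Q.G k 1
  sh : ζ ∉ Q.G k (Q.n k / (m + 1))
  rk : rk P ζ ≤ (Q.n k : ℝ) / (m + 1)

theorem enda_Wd_mono {H : Subgroup (T ≃g T)} {b : ℕ} (hT : T.IsTree) (x : V) {r r' : ℕ}
    (h : r ≤ r') : Wd H b x r ≤ Wd H b x r' :=
  Wd_le hT (by rwa [SimpleGraph.dist_self, zero_add])

variable {Q : Seq T d C} {lam : ℕ} {P0 P : ℕ → Subgroup (T ≃g T)}

theorem Seq.EndaVal.lev (h : Q.EndaVal lam P0 P) :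
    ∃ (S : ℕ → Set (T ≃g T)) (ζ : ℕ → T ≃g T), ∀ m, ∀ᶠ k in om,
      Q.EndaLev lam P0 m k (P k) (S k) (ζ k) := by
  obtain ⟨S, ⟨η, hη, hS⟩, hq⟩ := h.qi
  obtain ⟨ζ, hζ, hr⟩ := h.ex
  obtain ⟨e, he, he'⟩ := Sm.unif Q.hn (E := S) (F := fun k σ => ld (cj σ (P k)) (P k)) hq
  refine ⟨S, ζ, fun m => ?_⟩
  filter_upwards [h.le m, sm_iff.1 h.le0 m, sm_iff.1 hη m, hS, sm_iff.1 he m, he', hζ.1, hζ.2 m,
    sm_iff.1 hr m] with k a1 a2 a3 a4 a5 a6 a7 a8 a9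
  have : Finite (Q.G k 0) := (Q.std k).toHyp.finGb _ _
  exact ⟨a1, a2, a4.1.mono subset_rfl a4.1.1 a3, a4.2, fun σ hσ => (a6 σ hσ).trans a5, a7, a8, a9⟩

theorem enda_of_lev {S : ℕ → Set (T ≃g T)} {ζ : ℕ → T ≃g T} {μ : ℕ → ℕ}
    (hμ : Tendsto μ om atTop)
    (h : ∀ᶠ k in om, Q.EndaLev lam P0 (μ k) k (P k) (S k) (ζ k)) : Q.EndaVal lam P0 P := by
  have hs : Sm Q.n fun k => (Q.n k : ℝ) / (μ k + 1) :=
    (Sm.div Q.hn hμ 1).of_le (Eventually.of_forall fun k => by rw [one_mul])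
  have hd : ∀ m : ℕ, ∀ᶠ k in om, Q.n k / (μ k + 1) ≤ Q.n k / (m + 1) := fun m => by
    filter_upwards [hμ.eventually_ge_atTop m] with k hk
    exact Nat.div_le_div_left (by omega) (by omega)
  refine ⟨fun m => ?_, hs.of_le (h.mono fun k a => a.le0),
    ⟨S, ⟨_, hs, h.mono fun k a => ⟨a.dn, a.sym⟩⟩, fun σ hσ => hs.of_le ?_⟩,
    ζ, ⟨h.mono fun k a => a.one, fun m => ?_⟩, hs.of_le (h.mono fun k a => a.rk)⟩
  · filter_upwards [h, hd m] with k a e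
    exact a.le.trans (enda_Wd_mono (Q.std k).tree _ (by omega))
  · filter_upwards [h, hσ] with k a e using a.qi _ e
  · filter_upwards [h, hd m] with k a e
    exact fun c => a.sh (Gb_anti' e c)

theorem enda_pos (Q : Seq T d C) : ∀ᶠ k in om, 1 ≤ Q.n k := Q.hn.eventually_ge_atTop 1

theorem Seq.EndaVal.le1 (h : Q.EndaVal lam P0 P) :
    ∀ᶠ k in om, P k ≤ Wd (Q.H k) (Q.b k) (Q.x k) ((lam + 1) * Q.n k) := by
  filter_upwards [h.le 0] with k a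
  rwa [zero_add, Nat.div_one, ← add_one_mul] at a

theorem enda_W (hb : ∀ᶠ k in om, 4 * (lam + 2) * Q.n k ≤ Q.b k) :
    ∀ᶠ k in om, Finite (Wd (Q.H k) (Q.b k) (Q.x k) ((lam + 1) * Q.n k)) ∧
      Ab (Wd (Q.H k) (Q.b k) (Q.x k) ((lam + 1) * Q.n k)) ∧
      lc (Wd (Q.H k) (Q.b k) (Q.x k) ((lam + 1) * Q.n k)) ≤ C * (lam + 2) * Q.n k := by
  filter_upwards [hb, enda_pos Q] with k a e
  have e1 : 2 * ((lam + 1) * Q.n k) + 2 ≤ Q.b k := by nlinarith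
  refine ⟨(Q.std k).toHyp.finWd _ (by omega), Wd_ab (Q.std k).tree e1,
    ((Q.std k).grow _ _ (by omega)).trans ?_⟩
  have e2 : (1 : ℝ) ≤ Q.n k := by exact_mod_cast e
  have e3 := (Q.std k).one_le
  push_cast
  nlinarith

theorem Seq.EndaVal.fin (hb : ∀ᶠ k in om, 4 * (lam + 2) * Q.n k ≤ Q.b k)
    (h : Q.EndaVal lam P0 P) : ∀ᶠ k in om, Finite (P k) := by
  filter_upwards [enda_W hb, h.le1] with k a e
  have := a.1
  exact fin_of_le e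

/-- a candidate of maximal size -/
theorem enda_max (hb : ∀ᶠ k in om, 4 * (lam + 2) * Q.n k ≤ Q.b k) (h : Q.EndaVal lam P0 P0) :
    ∃ P, Q.EndaVal lam P0 P ∧ ∀ P', Q.EndaVal lam P0 P' →
      Sm Q.n fun k => lc (P' k) - lc (P k) := by
  let A : Set ℝ := {a | ∃ P, Q.EndaVal lam P0 P ∧ ∀ᶠ k in om, a * Q.n k ≤ lc (P k)}
  have hne : A.Nonempty := ⟨0, P0, h, Eventually.of_forall fun k => by
    rw [zero_mul]; exact lc_nonneg _⟩
  have hbd : BddAbove A := by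
    refine ⟨C * (lam + 2), ?_⟩
    rintro a ⟨P, hP, ha⟩
    obtain ⟨k, a1, a2, a3, a4⟩ := (ha.and (hP.le1.and ((enda_W hb).and (enda_pos Q)))).exists
    have := a3.1
    have e : (0 : ℝ) < Q.n k := by exact_mod_cast a4
    exact le_of_mul_le_mul_right (a1.trans ((lc_mono a2).trans a3.2.2)) e
  have hj : ∀ j : ℕ, ∃ P, Q.EndaVal lam P0 P ∧
      ∀ᶠ k in om, (sSup A - 1 / (j + 1)) * Q.n k ≤ lc (P k) := fun j => by
    obtain ⟨a, ⟨P, hP, ha⟩, h'⟩ := exists_lt_of_lt_csSup hne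
      (sub_lt_self (sSup A) (Nat.one_div_pos_of_nat (n := j)))
    exact ⟨P, hP, ha.mono fun k e =>
      (mul_le_mul_of_nonneg_right h'.le (Nat.cast_nonneg _)).trans e⟩
  choose P hP hs using hj
  choose S ζ hL using fun j => (hP j).lev
  obtain ⟨μ, hμ, hd⟩ := slow_diag fun j => (hL j j).and (hs j)
  refine ⟨fun k => P (μ k) k, enda_of_lev (S := fun k => S (μ k) k) (ζ := fun k => ζ (μ k) k) hμ
    (hd.mono fun k a => (a _ le_rfl).1), fun P' hP' ε hε => ?_⟩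
  have h1 : ∀ᶠ k in om, ¬ (sSup A + ε / 2) * Q.n k ≤ lc (P' k) := ev_of_not fun e => by
    have := le_csSup hbd (⟨P', hP', e⟩ : sSup A + ε / 2 ∈ A)
    linarith
  filter_upwards [h1, hd, Sm.div Q.hn hμ 1 (ε / 2) (half_pos hε)] with k a1 a2 a3
  have a4 := (a2 _ le_rfl).2
  rw [not_le] at a1
  have e : (1 : ℝ) / (μ k + 1) * Q.n k = 1 * (Q.n k / (μ k + 1)) := by ring
  nlinarith

/-- the join with a conjugate is again a candidate -/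
theorem Seq.EndaVal.sup (hb : ∀ᶠ k in om, 4 * (lam + 2) * Q.n k ≤ Q.b k)
    (h0 : ∀ᶠ k in om, Finite (P0 k)) (h : Q.EndaVal lam P0 P) {g z : ℕ → T ≃g T}
    (hg : Q.Short g) (hz : Q.Dep0 z) (h1 : Q.Rk P z) (h2 : Q.Rk (fun k => cj (g k) (P k)) z) :
    Q.EndaVal lam P0 fun k => cj (g k) (P k) ⊔ P k := by
  have hle : ∀ m : ℕ, ∀ᶠ k in om, cj (g k) (P k) ⊔ P k ≤
      Wd (Q.H k) (Q.b k) (Q.x k) (lam * Q.n k + Q.n k / (m + 1)) := fun m => by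
    filter_upwards [h.le m, h.le (2 * m + 1), hg.1, sm_iff.1 hg.2 (2 * m + 1)] with k a1 a2 a3 a4
    refine sup_le ((cj_mono _ a2).trans ?_) a1
    rw [cj_Wd a3]
    refine Wd_le (Q.std k).tree ?_
    have e1 : T.dist (Q.x k) (g k (Q.x k)) ≤ Q.n k / (2 * m + 1 + 1) := by
      rw [Nat.le_div_iff_mul_le (by omega)]
      rw [le_div_iff₀ (by positivity)] at a4
      exact_mod_cast a4
    have e2 : 2 * (Q.n k / (2 * m + 1 + 1)) ≤ Q.n k / (m + 1) := by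
      rw [Nat.le_div_iff_mul_le (by omega)]
      have := Nat.div_mul_le_self (Q.n k) (2 * m + 1 + 1)
      nlinarith
    omega
  have hle1 : ∀ᶠ k in om, cj (g k) (P k) ⊔ P k ≤
      Wd (Q.H k) (Q.b k) (Q.x k) ((lam + 1) * Q.n k) := by
    filter_upwards [hle 0] with k a
    rwa [zero_add, Nat.div_one, ← add_one_mul] at a
  have hP := h.fin hb
  obtain ⟨S, hS, hD⟩ := (h.qi.dense hP).inf ((h.qi.dense hP).conj hg)
  refine ⟨hle, Sm.of_le h.le0 ?_, ⟨S, hS, fun σ hσ => ?_⟩, z, hz, (Sm.add h2 h1).of_le ?_⟩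
  · filter_upwards [h0] with k a using ld_mono_right _ le_sup_right
  · obtain ⟨a1, a2⟩ := hD σ hσ
    refine (Sm.add (mem_cj.1 a2).2 a1.2).of_le ?_
    filter_upwards [hP, hle1, enda_W hb] with k b1 b2 b3
    have f1 := b3.1
    have f2 := fin_cj (σ k) (Wd (Q.H k) (Q.b k) (Q.x k) ((lam + 1) * Q.n k))
    have f3 := fin_cj (σ k) (P k)
    have f4 := fin_cj (g k) (P k)
    have f5 := fin_cj (σ k) (cj (g k) (P k))
    have e : ld (cj (σ k) (cj (g k) (P k))) (cj (g k) (P k)) =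
        ld (cj ((g⁻¹ * σ * g) k) (P k)) (P k) := by
      rw [← ld_cj (g k) (cj ((g⁻¹ * σ * g) k) (P k)), ← cj_mul, ← cj_mul]
      simp only [Pi.mul_apply, Pi.inv_apply, mul_assoc, mul_inv_cancel_left]
    change ld (cj (σ k) (cj (g k) (P k) ⊔ P k)) (cj (g k) (P k) ⊔ P k) ≤
      ld (cj ((g⁻¹ * σ * g) k) (P k)) (P k) + ld (cj (σ k) (P k)) (P k)
    rw [cj_sup, ← e]
    exact (ld_sup_ab _ (b3.2.1.cj (σ k)) (cj_mono _ (le_sup_left.trans b2))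
      (cj_mono _ (le_sup_right.trans b2))).trans
      (add_le_add (ld_mono_right _ le_sup_left) (ld_mono_right _ le_sup_right))
  · filter_upwards [hle1, enda_W hb] with k b2 b3
    have f1 := b3.1
    exact rk_sup_ab b3.2.1 (le_sup_left.trans b2) (le_sup_right.trans b2) _

theorem Seq.exists_max (Q : Seq T d C) (lam : ℕ)
    (hb : ∀ᶠ k in om, 4 * (lam + 2) * Q.n k ≤ Q.b k) {P0 : ℕ → Subgroup (T ≃g T)}
    (h0 : ∀ᶠ k in om, P0 k ≤ Wd (Q.H k) (Q.b k) (Q.x k) (lam * Q.n k)) (h1 : Q.QI P0)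
    {u : ℕ → T ≃g T} (h2 : Q.Dep0 u) (h3 : Q.Rk P0 u) :
    ∃ P ζ, Q.MaxP (lam + 1) P ζ ∧ Q.Le P0 P := by
  have hv : Q.EndaVal lam P0 P0 :=
    ⟨fun m => h0.mono fun k a => a.trans (enda_Wd_mono (Q.std k).tree _ (Nat.le_add_right _ _)),
      (Sm.const Q.hn 0).of_le (Eventually.of_forall fun k => (ld_of_le le_rfl).le), h1, u, h2, h3⟩
  obtain ⟨P, hP, hm⟩ := enda_max hb hv
  obtain ⟨ζ, hζ, hr⟩ := hP.ex
  refine ⟨P, ζ, ⟨hb, hP.le1, hP.qi, hζ, hr, fun g z a1 a2 a3 a4 => ?_⟩, hP.le0⟩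
  have hs := hP.sup hb (hv.fin hb) a1 a2 a3 a4
  refine (hm _ hs).of_le ?_
  filter_upwards [hs.le1, enda_W hb] with k b2 b3
  have f1 := b3.1
  exact ld_le_incr b3.2.1 le_rfl (le_sup_left.trans b2) (le_sup_right.trans b2)

end Pool.Agent.PSV
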