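import Pool.Agent.Lib.MP_607584_al.PSV.EndA

/-! The endgame, part b: finitely many classes. -/

namespace Pool.Agent.PSV

open Subgroup Filter
open scoped Pointwise commutatorElement

section Fin

variable {Γ : Type*} [Group Γ]

theorem endb_card {U Y : Subgroup Γ} [Finite U] (F : Finset Γ) (hF : (F : Set Γ) ⊆ U)
    (h : ∀ a ∈ F, ∀ a' ∈ F, a ≠ a' → a⁻¹ * a' ∉ Y) : Real.log F.card ≤ ld U Y := by
  have key : F.card ≤ Y.relIndex U := by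
    let f : F → U ⧸ Y.subgroupOf U := fun a => QuotientGroup.mk ⟨a.1, hF a.2⟩
    have hf : Function.Injective f := by
      intro a a' e
      by_contra hne
      have e1 := QuotientGroup.eq.1 e
      rw [mem_subgroupOf] at e1
      exact h a.1 a.2 a'.1 a'.2 (fun e2 => hne (Subtype.ext e2)) e1
    have h2 := Nat.card_le_card_of_injective f hf
    rw [Nat.card_eq_fintype_card, Fintype.card_coe] at h2
    exact h2
  rcases Nat.eq_zero_or_pos F.card with h0 | h0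
  · rw [h0, Nat.cast_zero, Real.log_zero]
    exact ld_nonneg U Y
  · exact Real.log_le_log (by exact_mod_cast h0) (by exact_mod_cast key)

theorem endb_chain {ι : Type*} {X : Subgroup Γ} [Finite X] (Y : ι → Subgroup Γ)
    (F : ι → Finset Γ) (hX : ∀ i, (F i : Set Γ) ⊆ X)
    (hY : ∀ i j, i ≠ j → (F i : Set Γ) ⊆ Y j)
    (hF : ∀ i, ∀ a ∈ F i, ∀ a' ∈ F i, a ≠ a' → a⁻¹ * a' ∉ Y i) (s : Finset ι) :
    ∑ i ∈ s, Real.log (F i).card ≤ ld X (X ⊓ ⨅ i ∈ s, Y i) := by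
  classical
  induction s using Finset.induction_on with
  | empty => simpa using ld_nonneg X X
  | insert a s ha ih =>
    rw [Finset.sum_insert ha, Finset.iInf_insert]
    have e : X ⊓ (Y a ⊓ ⨅ i ∈ s, Y i) = (X ⊓ ⨅ i ∈ s, Y i) ⊓ Y a := by
      rw [inf_comm (Y a), inf_assoc]
    have : Finite (X ⊓ ⨅ i ∈ s, Y i : Subgroup Γ) := fin_of_le (Y := X) inf_le_left
    rw [e, ld_add (X := X) (Y := X ⊓ ⨅ i ∈ s, Y i) inf_le_left inf_le_left,
      ld_inf_self (X ⊓ ⨅ i ∈ s, Y i) (Y a)]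
    have h2 : Real.log (F a).card ≤ ld (X ⊓ ⨅ i ∈ s, Y i) (Y a) := by
      refine endb_card (F a) (fun x hx => ?_) (hF a)
      refine ⟨hX a hx, ?_⟩
      refine mem_iInf.2 fun i => mem_iInf.2 fun hi => hY a i ?_ hx
      rintro rfl
      exact ha hi
    linarith

theorem endb_fin {ι : Type*} [Fintype ι] {X X1 N N' : Subgroup Γ} [Finite X] (hN : N ≤ X)
    (hXN : X ≤ normalizer (N : Set Γ)) (h1 : X1 ≤ X) (hX1 : X ≤ normalizer (X1 : Set Γ))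
    {S : Set Γ} (hS : S ⊆ X) (M : ℕ) (κ : ι → Γ) (hκ : ∀ i, κ i ∈ X1)
    (hc : ∀ i j, i ≠ j → ∀ σ ∈ S ^ (M + 1), ∀ σ' ∈ S ^ (M + 1),
      ⁅σ * κ i * σ⁻¹, σ' * κ j * σ'⁻¹⁆ ∈ N)
    (hna : ∀ y ∈ X1, (∀ a ∈ cls (S ^ M) y, ∀ a' ∈ cls (S ^ M) y, ⁅a, a'⁆ ∈ N) → y ∈ N')
    (F : ι → Finset Γ) (hF : ∀ i, (F i : Set Γ) ⊆ cls S (κ i))
    (hF' : ∀ i, ∀ a ∈ F i, ∀ a' ∈ F i, a ≠ a' → a⁻¹ * a' ∉ N') :
    ∑ i, Real.log (F i).card ≤ ld X N := by
  have hcj : ∀ u ∈ X, ∀ v ∈ N, u * v * u⁻¹ ∈ N := fun u hu v hv =>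
    (mem_normalizer_iff.1 (hXN hu) v).1 hv
  have hSM : ∀ m : ℕ, ∀ σ ∈ S ^ m, σ ∈ X := fun m σ hσ => pow_subset_subgroup hS m hσ
  let K : ι → Set Γ := fun i =>
    {c | ∃ σ ∈ S ^ M, ∃ τ ∈ S ^ (M + 1), c = σ⁻¹ * (τ * κ i * τ⁻¹) * σ}
  have hKX : ∀ i, ∀ c ∈ K i, c ∈ X := by
    rintro i c ⟨σ, hσ, τ, hτ, rfl⟩
    exact X.mul_mem (X.mul_mem (X.inv_mem (hSM _ _ hσ))
      (X.mul_mem (X.mul_mem (hSM _ _ hτ) (h1 (hκ i))) (X.inv_mem (hSM _ _ hτ)))) (hSM _ _ hσ)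
  have hFX1 : ∀ i, ∀ a ∈ F i, a ∈ X1 := by
    intro i a ha
    obtain ⟨τ, hτ, rfl⟩ := hF i ha
    exact (mem_normalizer_iff.1 (hX1 (hS hτ)) _).1 (hκ i)
  have hmul : ∀ σ ∈ S ^ M, ∀ τ ∈ S, σ * τ ∈ S ^ (M + 1) := fun σ hσ τ hτ => by
    rw [pow_succ]
    exact Set.mul_mem_mul hσ hτ
  have main := endb_chain (X := X) (fun i => CM X N (K i)) F
    (fun i a ha => h1 (hFX1 i a ha)) ?_ ?_ Finset.univ
  · refine main.trans (ld_mono_right X ?_)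
    refine le_inf hN (le_iInf fun i => le_iInf fun _ => fun v hv => ?_)
    refine ⟨hN hv, hXN (hN hv), fun c hc => ?_⟩
    have e : ⁅v, c⁆ = v * (c * v⁻¹ * c⁻¹) := by
      simp only [commutatorElement_def]; group
    rw [e]
    exact N.mul_mem hv (hcj c (hKX i c hc) _ (N.inv_mem hv))
  · intro i j hij a ha
    have haX := h1 (hFX1 i a ha)
    refine ⟨haX, hXN haX, ?_⟩
    rintro c ⟨σ, hσ, τ, hτ, rfl⟩
    obtain ⟨ρ, hρ, rfl⟩ := hF i ha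
    have h3 := hc i j hij (σ * ρ) (hmul σ hσ ρ hρ) τ hτ
    have e : ⁅ρ * κ i * ρ⁻¹, σ⁻¹ * (τ * κ j * τ⁻¹) * σ⁆ =
        σ⁻¹ * ⁅σ * ρ * κ i * (σ * ρ)⁻¹, τ * κ j * τ⁻¹⁆ * σ⁻¹⁻¹ := by
      simp only [commutatorElement_def]; group
    rw [e]
    exact hcj _ (X.inv_mem (hSM _ _ hσ)) _ h3
  · intro i a ha a' ha' hne hmem
    refine hF' i a ha a' ha' hne (hna _ (X1.mul_mem (X1.inv_mem (hFX1 i a ha)) (hFX1 i a' ha')) ?_)
    rintro _ ⟨σ, hσ, rfl⟩ _ ⟨σ', hσ', rfl⟩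
    obtain ⟨ρ, hρ, hρe⟩ := hF i ha
    obtain ⟨ρ', hρ', hρe'⟩ := hF i ha'
    have haX := h1 (hFX1 i a ha)
    have h3 := hmem.2.2 _ ⟨σ, hσ, σ' * ρ, hmul σ' hσ' ρ hρ, rfl⟩
    have h4 := hmem.2.2 _ ⟨σ, hσ, σ' * ρ', hmul σ' hσ' ρ' hρ', rfl⟩
    have e3 : σ' * ρ * κ i * (σ' * ρ)⁻¹ = σ' * a * σ'⁻¹ := by rw [hρe]; group
    have e4 : σ' * ρ' * κ i * (σ' * ρ')⁻¹ = σ' * a' * σ'⁻¹ := by rw [hρe']; group
    rw [e3] at h3
    rw [e4] at h4
    have e : ⁅σ * (a⁻¹ * a') * σ⁻¹, σ' * (a⁻¹ * a') * σ'⁻¹⁆ =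
        (σ' * a⁻¹ * σ'⁻¹ * σ) * (⁅a⁻¹ * a', σ⁻¹ * (σ' * a * σ'⁻¹) * σ⁆⁻¹ *
          ⁅a⁻¹ * a', σ⁻¹ * (σ' * a' * σ'⁻¹) * σ⁆) * (σ' * a⁻¹ * σ'⁻¹ * σ)⁻¹ := by
      simp only [commutatorElement_def]; group
    rw [e]
    refine hcj _ ?_ _ (N.mul_mem (N.inv_mem h3) h4)
    exact X.mul_mem (X.mul_mem (X.mul_mem (hSM _ _ hσ') (X.inv_mem haX))
      (X.inv_mem (hSM _ _ hσ'))) (hSM _ _ hσ)

end Fin

variable {V : Type} {T : SimpleGraph V} {d : ℕ} {C : ℝ} {Q : Seq T d C}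

theorem endb_rk_mul {P : ℕ → Subgroup (T ≃g T)} (hP : ∀ᶠ k in om, Finite (P k))
    {c c' : ℕ → T ≃g T} (h : Q.Rk P c) (h' : Q.Rk P c') : Q.Rk P (c * c') := by
  refine Sm.of_le (Sm.add h h') ?_
  filter_upwards [hP] with k hk
  exact rk_mul (P k) (c k) (c' k)

theorem endb_rk_inv {P : ℕ → Subgroup (T ≃g T)} {c : ℕ → T ≃g T} (h : Q.Rk P c) :
    Q.Rk P c⁻¹ := by
  refine Sm.of_le h (Eventually.of_forall fun k => ?_)
  exact (rk_inv (P k) (c k)).le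

theorem endb_rk_conj {P : ℕ → Subgroup (T ≃g T)} (hP : ∀ᶠ k in om, Finite (P k))
    {σ c : ℕ → T ≃g T} (hσ : Q.Le (fun k => cj (σ k) (P k)) P) (h : Q.Rk P c) :
    Q.Rk P (σ * c * σ⁻¹) := by
  refine Sm.of_le (Sm.add h hσ) ?_
  filter_upwards [hP] with k hk
  exact rk_conj_le (P k) (σ k) (c k)

theorem endb_rk_cj {P : ℕ → Subgroup (T ≃g T)} {g c : ℕ → T ≃g T} :
    Q.Rk (fun k => cj (g k) (P k)) (g * c * g⁻¹) ↔ Q.Rk P c := by
  have e : (fun k => rk (cj (g k) (P k)) ((g * c * g⁻¹) k)) = fun k => rk (P k) (c k) :=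
    funext fun k => rk_cj (g k) (P k) (c k)
  unfold Seq.Rk
  rw [e]

theorem endb_le_cj {P P' : ℕ → Subgroup (T ≃g T)} {g : ℕ → T ≃g T} :
    Q.Le (fun k => cj (g k) (P k)) (fun k => cj (g k) (P' k)) ↔ Q.Le P P' := by
  have e : (fun k => ld (cj (g k) (P k)) (cj (g k) (P' k))) = fun k => ld (P k) (P' k) :=
    funext fun k => ld_cj (g k) (P k) (P' k)
  unfold Seq.Le
  rw [e]

/-- the conjugate of the almost stabiliser almost stabilises the conjugate -/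
theorem endb_st {P : ℕ → Subgroup (T ≃g T)} (hP : ∀ᶠ k in om, Finite (P k))
    {g σ : ℕ → T ≃g T} (h : σ ∈ cj g (Q.StG P hP)) :
    Q.Le (fun k => cj (σ k) (cj (g k) (P k))) fun k => cj (g k) (P k) := by
  have h1 : Q.Le (fun k => cj ((g⁻¹ * σ * g) k) (P k)) P := (mem_cj.1 h).2
  have h2 := (endb_le_cj (g := g)).2 h1
  have e : (fun k => cj (g k) (cj ((g⁻¹ * σ * g) k) (P k))) =
      fun k => cj (σ k) (cj (g k) (P k)) := by
    funext k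
    rw [← cj_mul, ← cj_mul]
    have e1 : g k * (g⁻¹ * σ * g) k = σ k * g k := by
      simp only [Pi.mul_apply, Pi.inv_apply]; group
    rw [e1]
  rw [e] at h2
  exact h2

/-- a shallow element of small rank on two conjugates makes them equivalent -/
theorem endb_max {lam : ℕ} {P : ℕ → Subgroup (T ≃g T)} {ζ : ℕ → T ≃g T}
    (h : Q.MaxP lam P ζ) {g g' z : ℕ → T ≃g T} (hg : Q.Short g) (hg' : Q.Short g')
    {r : ℕ → ℕ} (hr : ∀ k, T.dist (Q.x k) (g' k (Q.x k)) + 1 ≤ r k) (hz : z ∈ Q.GG r)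
    (hs : Q.Shal z) (h1 : Q.Rk (fun k => cj (g k) (P k)) z)
    (h2 : Q.Rk (fun k => cj (g' k) (P k)) z) :
    Q.Le (fun k => cj (g k) (P k)) fun k => cj (g' k) (P k) := by
  have hi : Q.Short g'⁻¹ := Q.SG.inv_mem (x := g') hg'
  have hm : Q.Short (g'⁻¹ * g) := Q.SG.mul_mem (x := g'⁻¹) (y := g) hi hg
  have ez : g' * (g'⁻¹ * z * g'⁻¹⁻¹) * g'⁻¹ = z := by group
  have ec : (fun k => cj (g' k) (cj ((g'⁻¹ * g) k) (P k))) = fun k => cj (g k) (P k) := by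
    funext k
    rw [← cj_mul]
    have e1 : g' k * (g'⁻¹ * g) k = g k := by
      simp only [Pi.mul_apply, Pi.inv_apply]; group
    rw [e1]
  have hd : Q.Dep0 (g'⁻¹ * z * g'⁻¹⁻¹) := by
    refine ⟨?_, hs.conj hi⟩
    have hz' : ∀ᶠ k in om, z k ∈ Q.G k (r k) := hz
    filter_upwards [hz', hg'.1] with k h3 h4
    have h5 : z k ∈ Gb (Q.H k) (g' k (Q.x k)) 1 := Gb_anti (Q.std k).tree (hr k) h3
    rw [← cj_Gb h4, mem_cj] at h5
    simp only [Pi.mul_apply, Pi.inv_apply, inv_inv]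
    exact h5
  have h3 : Q.Rk P (g'⁻¹ * z * g'⁻¹⁻¹) := by
    rw [← endb_rk_cj (g := g'), ez]
    exact h2
  have h4 : Q.Rk (fun k => cj ((g'⁻¹ * g) k) (P k)) (g'⁻¹ * z * g'⁻¹⁻¹) := by
    rw [← endb_rk_cj (g := g'), ez, ec]
    exact h1
  have h5 := (endb_le_cj (g := g')).2 (h.max _ _ hm hd h3 h4)
  rw [ec] at h5
  exact h5

theorem endb_GG_conj {r : ℕ → ℕ} {σ z : ℕ → T ≃g T} (hσ : ∀ᶠ k in om, σ k ∈ Q.G k 0)
    (hz : z ∈ Q.GG r) : σ * z * σ⁻¹ ∈ Q.GG r := by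
  have hz' : ∀ᶠ k in om, z k ∈ Q.G k (r k) := hz
  show ∀ᶠ k in om, (σ * z * σ⁻¹) k ∈ Q.G k (r k)
  filter_upwards [hz', hσ] with k h1 h2
  exact (mem_normalizer_iff.1 (Gb_nz_Gb (Q.std k).tree (Q.x k) (r k) h2) _).1 h1

theorem endb_num {C s n t M m : ℝ} (hC : 1 ≤ C) (hM : 0 < M) (hm : 0 < m) (hs : 8 * C * M < s)
    (ht : t ≤ n / m) (hn : m ≤ n) (h : s * (n / (4 * (m * M))) ≤ C * (t + 1)) : False := by
  have h1 : 1 ≤ n / m := by rwa [le_div_iff₀ hm, one_mul]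
  have e : s * (n / (4 * (m * M))) = s / (4 * M) * (n / m) := by
    field_simp
  have h2 : 2 * C < s / (4 * M) := by
    rw [lt_div_iff₀ (by positivity)]
    linarith
  rw [e] at h
  nlinarith

theorem Seq.MaxP.classes {lam M : ℕ} {P : ℕ → Subgroup (T ≃g T)} {ζ : ℕ → T ≃g T}
    (h : Q.MaxP lam P ζ) (hM : 0 < M) (hna : ∀ k, NAf (Q.H k) (Q.b k) M) :
    ∃ A0 : ℕ, ∀ g : Fin (A0 + 1) → ℕ → T ≃g T, (∀ i, Q.Short (g i)) →
      ∃ i j, i ≠ j ∧ Q.Le (fun k => cj (g i k) (P k)) fun k => cj (g j k) (P k) := by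
  refine ⟨⌈8 * C * M⌉₊, fun g hg => ?_⟩
  by_contra hcon
  push Not at hcon
  have hP : ∀ᶠ k in om, Finite (P k) := by
    filter_upwards [h.hb, h.le] with k h1 h2
    have := (Q.std k).toHyp.finWd (r := lam * Q.n k) (Q.x k) (by nlinarith)
    exact fin_of_le h2
  have hPj : ∀ j, ∀ᶠ k in om, Finite (cj (g j k) (P k)) := fun j => by
    filter_upwards [hP] with k hk
    exact fin_cj _ _
  have hSt : Q.Dense (Q.StG P hP) := h.qi.dense hP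
  have hD : Q.Dense (⨅ j ∈ Finset.univ, cj (g j) (Q.StG P hP)) :=
    Seq.Dense.iInf Finset.univ fun j _ => hSt.conj (hg j)
  set D : Subgroup (ℕ → T ≃g T) := ⨅ j ∈ Finset.univ, cj (g j) (Q.StG P hP) with hDdef
  have hDle : ∀ j, ∀ σ ∈ D,
      Q.Le (fun k => cj (σ k) (cj (g j k) (P k))) fun k => cj (g j k) (P k) := fun j σ hσ =>
    endb_st hP (mem_iInf.1 (mem_iInf.1 hσ j) (Finset.mem_univ j))
  let r : ℕ → ℕ := fun k => ∑ j, T.dist (Q.x k) (g j k (Q.x k)) + 1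
  have hr : Sm Q.n fun k => (r k : ℝ) := by
    refine Sm.of_le (Sm.add (Sm.sum Finset.univ fun j _ => (hg j).2) (Sm.const Q.hn 1)) ?_
    refine Eventually.of_forall fun k => le_of_eq ?_
    simp only [r]
    push_cast
    rfl
  have hrj : ∀ j k, T.dist (Q.x k) (g j k (Q.x k)) + 1 ≤ r k := fun j k =>
    Nat.succ_le_succ (Finset.single_le_sum (f := fun j => T.dist (Q.x k) (g j k (Q.x k)))
      (fun _ _ => Nat.zero_le _) (Finset.mem_univ j))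
  have hκ : ∀ i, ∃ κ : ℕ → T ≃g T, κ ∈ D ∧ κ ∈ Q.GG r ∧ Q.Dep0 κ ∧
      Q.Rk (fun k => cj (g i k) (P k)) κ := by
    intro i
    obtain ⟨u, hu, u', hu', h1, h2⟩ := Seq.localise (hg i) h.dep hSt hD hr
    refine ⟨_, h1.1, h1.2, h2, endb_rk_cj.2 ?_⟩
    exact endb_rk_mul hP (endb_rk_conj hP hu.2 h.rk) (endb_rk_inv (endb_rk_conj hP hu'.2 h.rk))
  choose κ hκD hκG hκ0 hκR using hκ
  obtain ⟨S, hS, hSD⟩ := hD
  obtain ⟨η, hη, hSe⟩ := hS
  have hSne : ∀ᶠ k in om, (S k).Nonempty := by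
    filter_upwards [hSe] with k hk
    exact ⟨1, hk.2.1⟩
  have hpow := hSD.pow hSne (M + 1)
  have hover : ∃ m : ℕ, ∀ᶠ k in om, ∀ i j, i ≠ j → ∀ σ ∈ S k ^ (M + 1), ∀ σ' ∈ S k ^ (M + 1),
      ⁅σ * κ i k * σ⁻¹, σ' * κ j k * σ'⁻¹⁆ ∈ Q.G k (Q.n k / (m + 1)) := by
    refine overspill fun μ hμ => ?_
    refine eventually_all.2 fun i => eventually_all.2 fun j => ?_
    by_cases hij : i = j
    · exact Eventually.of_forall fun k h1 => absurd hij h1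
    have key : ∀ᶠ k in om, ∀ y : (T ≃g T) × (T ≃g T), y.1 ∈ S k ^ (M + 1) →
        y.2 ∈ S k ^ (M + 1) →
        ⁅y.1 * κ i k * y.1⁻¹, y.2 * κ j k * y.2⁻¹⁆ ∈ Q.G k (Q.n k / (μ k + 1)) := by
      refine ev_forall fun y => ?_
      rcases ev_or_not (fun k => (y k).1 ∈ S k ^ (M + 1) ∧ (y k).2 ∈ S k ^ (M + 1)) with hy | hy
      · let σ : ℕ → T ≃g T := fun k => (y k).1
        let σ' : ℕ → T ≃g T := fun k => (y k).2
        have h1 : σ ∈ D := hpow σ (hy.mono fun k hk => hk.1)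
        have h2 : σ' ∈ D := hpow σ' (hy.mono fun k hk => hk.2)
        have h3 : ∀ᶠ k in om, σ k ∈ Q.G k 0 := by
          filter_upwards [hy, hSe] with k h3 h4
          exact pow_subset_subgroup h4.1.1 _ h3.1
        have h4 : ∀ᶠ k in om, σ' k ∈ Q.G k 0 := by
          filter_upwards [hy, hSe] with k h3 h4
          exact pow_subset_subgroup h4.1.1 _ h3.2
        have c1 : σ * κ i * σ⁻¹ ∈ D := D.mul_mem (D.mul_mem h1 (hκD i)) (D.inv_mem h1)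
        have c2 : σ' * κ j * σ'⁻¹ ∈ D := D.mul_mem (D.mul_mem h2 (hκD j)) (D.inv_mem h2)
        have g1 := endb_GG_conj h3 (hκG i)
        have g2 := endb_GG_conj h4 (hκG j)
        have r1 := endb_rk_conj (hPj i) (hDle i σ h1) (hκR i)
        have r2 := endb_rk_conj (hPj j) (hDle j σ' h2) (hκR j)
        generalize hc : σ * κ i * σ⁻¹ = c at c1 g1 r1
        generalize hc' : σ' * κ j * σ'⁻¹ = c' at c2 g2 r2
        have gz : c * c' * c⁻¹ * c'⁻¹ ∈ Q.GG r :=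
          (Q.GG r).mul_mem ((Q.GG r).mul_mem ((Q.GG r).mul_mem g1 g2) ((Q.GG r).inv_mem g1))
            ((Q.GG r).inv_mem g2)
        have rz1 : Q.Rk (fun k => cj (g i k) (P k)) (c * c' * c⁻¹ * c'⁻¹) := by
          have e : c * c' * c⁻¹ * c'⁻¹ = c * (c' * c⁻¹ * c'⁻¹) := by group
          rw [e]
          exact endb_rk_mul (hPj i) r1 (endb_rk_conj (hPj i) (hDle i c' c2) (endb_rk_inv r1))
        have rz2 : Q.Rk (fun k => cj (g j k) (P k)) (c * c' * c⁻¹ * c'⁻¹) :=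
          endb_rk_mul (hPj j) (endb_rk_conj (hPj j) (hDle j c c1) r2) (endb_rk_inv r2)
        have hns : ¬ Q.Shal (c * c' * c⁻¹ * c'⁻¹) := fun hs =>
          hcon i j hij (endb_max h (hg i) (hg j) (hrj j) gz hs rz1 rz2)
        obtain ⟨m, hm⟩ := Seq.not_shal hns
        filter_upwards [hm, hμ.eventually_ge_atTop m] with k h5 h6 _ _
        rw [← hc, ← hc'] at h5
        exact Gb_anti' (Nat.div_le_div_left (Nat.succ_le_succ h6) (Nat.succ_pos m)) h5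
      · filter_upwards [hy] with k hk h1 h2
        exact absurd ⟨h1, h2⟩ hk
    filter_upwards [key] with k hk _ σ hσ σ' hσ'
    exact hk (σ, σ') hσ hσ'
  obtain ⟨m, hm⟩ := hover
  have hmany := eventually_all.2 fun i =>
    Seq.Dep0.many (hκ0 i) ⟨η, hη, hSe⟩ ((m + 1) * M - 1)
  have hone := eventually_all.2 fun i => (hκ0 i).1
  have hmM : (m + 1) * M - 1 + 1 = (m + 1) * M := Nat.sub_add_cancel (Nat.mul_pos m.succ_pos hM)
  have hMr : (0 : ℝ) < M := by exact_mod_cast hM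
  have hη' := hη (1 / (2 * (m + 1) * M)) (by positivity)
  have hall := hm.and (hmany.and (hone.and (hη'.and (hSe.and (Q.hb.and
    (Q.hn.eventually_ge_atTop (2 * (m + 1) * M)))))))
  obtain ⟨k, k1, k2, k3, k4, k5, k6, k7⟩ := hall.exists
  choose F hF1 hF2 hF3 using k2
  have hstd := Q.std k
  have : Finite (Q.G k 0) := hstd.fin _
  have n1 : 2 * M ≤ Q.n k / (m + 1) := by
    rw [Nat.le_div_iff_mul_le m.succ_pos]
    nlinarith
  have n2 : Q.n k / (m + 1) ≤ Q.n k := Nat.div_le_self _ _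
  have n3 : Q.n k < (Q.n k / (m + 1) + 1) * (m + 1) := by
    rw [← Nat.div_lt_iff_lt_mul m.succ_pos]
    exact Nat.lt_succ_self _
  have n4 : η k ≤ ((Q.n k / (m + 1) : ℕ) : ℝ) / M := by
    refine k4.trans ?_
    have n5 : Q.n k ≤ 2 * (m + 1) * (Q.n k / (m + 1)) := by nlinarith
    have n6 : (Q.n k : ℝ) ≤ 2 * (m + 1) * ((Q.n k / (m + 1) : ℕ) : ℝ) := by exact_mod_cast n5
    rw [one_div_mul_eq_div, div_le_div_iff₀ (by positivity) hMr]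
    nlinarith
  have fin := endb_fin (X := Q.G k 0) (X1 := Q.G k 1) (N := Q.G k (Q.n k / (m + 1)))
    (N' := Q.G k (Q.n k / (m + 1) / M)) (Gb_anti' (Nat.zero_le _))
    (Gb_nz_Gb hstd.tree _ _) (Gb_anti' (Nat.zero_le _)) (Gb_nz_Gb hstd.tree _ _) k5.1.1 M
    (fun i => κ i k) k3 k1
    (fun y hy hc => hna k (Q.x k) _ (S k) y (by omega) (by omega)
      (k5.1.mono subset_rfl k5.1.1 n4) k5.2 hy hc) F hF1
    (fun i a ha a' ha' hne => by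
      have h1 := hF3 i a ha a' ha' hne
      rwa [hmM, ← Nat.div_div_eq_div_mul] at h1)
  have wid := hstd.width (Q.x k) (Q.n k / (m + 1)) (by omega)
  have low : ∑ _i : Fin (⌈8 * C * M⌉₊ + 1), (Q.n k : ℝ) / (4 * ((m + 1) * M)) ≤
      ∑ i, Real.log (F i).card := by
    refine Finset.sum_le_sum fun i _ => ?_
    have h1 := hF2 i
    have e : (((m + 1) * M - 1 : ℕ) : ℝ) + 1 = (m + 1) * M := by exact_mod_cast hmM
    rw [e] at h1
    have h2 := Real.log_le_log (Real.exp_pos _) h1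
    rwa [Real.log_exp] at h2
  rw [Finset.sum_const, Finset.card_univ, Fintype.card_fin, nsmul_eq_mul] at low
  refine endb_num (t := ((Q.n k / (m + 1) : ℕ) : ℝ)) (m := (m : ℝ) + 1) hstd.one_le hMr
    (by positivity) ?_ ?_ ?_ (low.trans (fin.trans wid))
  · push_cast
    have := Nat.le_ceil (8 * C * M)
    linarith
  · have := Nat.cast_div_le (α := ℝ) (m := Q.n k) (n := m + 1)
    push_cast at this
    exact this
  · have h1 : m + 1 ≤ Q.n k := by nlinarith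
    exact_mod_cast h1

end Pool.Agent.PSV
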