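import Pool.Agent.Lib.MP_607584_al.PSV.Bas2
import Pool.Agent.Lib.MP_607584_al.PSV.Cnt2

/-! The modular chain: the finite form of the final contradiction. -/

namespace Pool.Agent.PSV

open Subgroup
open scoped Pointwise commutatorElement

variable {V : Type} {T : SimpleGraph V}

/-- local data on a geodesic of length `2 σ` with midpoint `x` -/
structure LocD (H : Subgroup (T ≃g T)) (b M : ℕ) (x : V) (n : ℕ) (P0 : Subgroup (T ≃g T))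
    (σ ρ j j1 : ℕ) (v : ℕ → V) (Y : Subgroup (T ≃g T)) : Prop where
  geo : ∀ s t, s ≤ 2 * σ → t ≤ 2 * σ → T.dist (v s) (v t) = Nat.dist s t
  mid : v σ = x
  even : Even σ
  h1 : M * (j1 + 1) ≤ j
  h2 : 100 * M * j ≤ ρ
  h3 : ρ ≤ σ
  le : Y ≤ Gb H (v 0) j
  full : ld (Gb H (v 0) j) (Fx H (Nb T (v '' Set.Iic (2 * σ)) j)) ≤
    ld Y (Fx H (Nb T (v '' Set.Iic (2 * σ)) j)) + (ρ : ℝ) / (100 * M)
  out1 : ∀ h ∈ Y, Out (Wd H b (v 0) (n - σ)) h (P0 ⊔ cj h P0) ((n : ℝ) / (10 * M))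
  out2 : ∀ c ∈ Fx H (Nb T (v '' Set.Iic (2 * σ)) j1), Out (Wd H b x ρ) c P0 ((ρ : ℝ) / (10 * M))

/-- normal subgroups of bounded index and copies of a shallow element in a ball -/
structure GS (H : Subgroup (T ≃g T)) (x : V) (Λ : ℕ) (A τ e : ℝ) (P : Subgroup (T ≃g T))
    (ζ : T ≃g T) (G0 : V → Subgroup (T ≃g T)) (Ξ : V → Set (T ≃g T)) : Prop where
  le : ∀ w ∈ Ball T x Λ, G0 w ≤ Gb H w 0
  idx : ∀ w ∈ Ball T x Λ, ld (Gb H w 0) (G0 w) ≤ A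
  eqv : ∀ f ∈ H, ∀ w ∈ Ball T x Λ, f w ∈ Ball T x Λ → cj f (G0 w) = G0 (f w)
  cpt : ∀ w ∈ Ball T x Λ, ∀ w' ∈ Ball T x Λ, G0 w ⊓ Gb H w' 0 ≤ G0 w'
  inv : ∀ w ∈ Ball T x Λ, ∀ f ∈ G0 w, ∀ v ∈ Ball T x Λ, f v ∈ Ball T x Λ →
    ∀ ξ ∈ Ξ v, f * ξ * f⁻¹ ∈ Ξ (f v)
  mem : ζ ∈ Ξ x
  rk1 : ∀ v ∈ Ball T x Λ, ∀ ξ ∈ Ξ v, rk P ξ ≤ τ
  rk2 : ∀ ξ ∈ Ξ x, rk P ξ ≤ e
  st1 : ∀ w ∈ Ball T x Λ, ∀ f ∈ G0 w, ld (cj f P) P ≤ τ
  st2 : ∀ f ∈ G0 x, ld (cj f P) P ≤ e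

/-- words of length at most eight in the copies near `w` that fix a ball -/
def Kn (H : Subgroup (T ≃g T)) (Ξ : V → Set (T ≃g T)) (σ : ℕ) (w : V) (β : ℕ) : Set (T ≃g T) :=
  {c | c ∈ Gb H w (2 * σ + 1 - β) ∧
    c ∈ ({1} ∪ (⋃ v ∈ Ball T w (σ + β), Ξ v) ∪ (⋃ v ∈ Ball T w (σ + β), Ξ v)⁻¹) ^ 8}

/-- their centraliser modulo a deep level -/
def Yn (H : Subgroup (T ≃g T)) (G0 : V → Subgroup (T ≃g T)) (Ξ : V → Set (T ≃g T)) (σ t : ℕ)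
    (w : V) (β : ℕ) : Subgroup (T ≃g T) := CM (G0 w) (Gb H w (t + β)) (Kn H Ξ σ w β)

/-- all hypotheses of the finite contradiction -/
structure ModH (d : ℕ) (C : ℝ) (H : Subgroup (T ≃g T)) (b M lam : ℕ) (x : V) (n : ℕ)
    (P0 P : Subgroup (T ≃g T)) (σ ρ j j1 : ℕ) (v : ℕ → V) (Y : Subgroup (T ≃g T)) (Λ δ : ℕ)
    (A e : ℝ) (ζ : T ≃g T) (G0 : V → Subgroup (T ≃g T)) (Ξ : V → Set (T ≃g T)) : Prop where
  std : Std T d C H b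
  na : NAf H b M
  fq : FQf H b M
  hM : 100 ≤ M
  loc : LocD H b M x n P0 σ ρ j j1 v Y
  gs : GS H x Λ A ((n : ℝ) / (1000 * M)) e P ζ G0 Ξ
  hΛ : 10 * σ ≤ Λ
  hb : 4 * (lam + 1) * n ≤ b
  hσ : 1000 * M ^ 2 * σ ≤ n
  hA : 0 ≤ A
  he : 0 ≤ e
  hsm : 1000 * M * (A + e + δ + M + 1) ≤ j1
  p0 : P0 ≤ Wd H b x (lam * n)
  p1 : P ≤ Wd H b x (lam * n)
  p2 : ld P0 P ≤ e
  z1 : ζ ∈ Gb H x 1
  z2 : ζ ∉ Gb H x (δ + 1)

variable {d : ℕ} {C : ℝ} {H : Subgroup (T ≃g T)} {b M lam : ℕ} {x : V} {n : ℕ}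
  {P0 P : Subgroup (T ≃g T)} {σ ρ j j1 : ℕ} {v : ℕ → V} {Y : Subgroup (T ≃g T)} {Λ δ : ℕ}
  {A e : ℝ} {ζ : T ≃g T} {G0 : V → Subgroup (T ≃g T)} {Ξ : V → Set (T ≃g T)}

theorem mod_pow_conj {Γ : Type*} [Group Γ] {L : Set Γ} {f : Γ} (hL : ∀ a ∈ L, f * a * f⁻¹ ∈ L)
    (k : ℕ) : ∀ c ∈ L ^ k, f * c * f⁻¹ ∈ L ^ k := by
  induction k with
  | zero =>
    intro c hc
    rw [pow_zero, Set.mem_one] at hc ⊢
    rw [hc, mul_one, mul_inv_cancel]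
  | succ k ih =>
    intro c hc
    rw [pow_succ] at hc ⊢
    obtain ⟨a, ha, a', ha', rfl⟩ := Set.mem_mul.1 hc
    exact Set.mem_mul.2 ⟨_, ih a ha, _, hL a' ha', by group⟩

theorem mod_mono (h : ModH d C H b M lam x n P0 P σ ρ j j1 v Y Λ δ A e ζ G0 Ξ) (t : ℕ)
    {w w' : V} (hw : w ∈ Ball T x Λ) (hw' : w' ∈ Ball T x Λ) {β β' : ℕ}
    (h1 : β' + T.dist w w' ≤ β) (h2 : β ≤ 2 * σ) :
    Yn H G0 Ξ σ t w β ⊓ Gb H w' 0 ≤ Yn H G0 Ξ σ t w' β' := by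
  have hT := h.std.tree
  rintro g ⟨⟨g1, -, g3⟩, g4⟩
  refine ⟨h.gs.cpt w hw w' hw' ⟨g1, g4⟩, Gb_nz_Gb hT w' _ g4, fun c hc => ?_⟩
  have hU : (⋃ u ∈ Ball T w' (σ + β'), Ξ u) ⊆ ⋃ u ∈ Ball T w (σ + β), Ξ u := by
    refine Set.biUnion_subset_biUnion_left fun u hu => ?_
    have h3 : T.dist w' u ≤ σ + β' := hu
    have h4 := hT.connected.dist_triangle (u := w) (v := w') (w := u)
    show T.dist w u ≤ σ + β
    omega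
  refine Gb_anti hT (by omega) (g3 c ⟨Gb_anti hT ?_ hc.1, Set.pow_subset_pow_left ?_ hc.2⟩)
  · rw [SimpleGraph.dist_comm]
    omega
  · exact Set.union_subset_union (Set.union_subset_union_right _ hU) (Set.inv_subset_inv.2 hU)

theorem mod_Kn (h : ModH d C H b M lam x n P0 P σ ρ j j1 v Y Λ δ A e ζ G0 Ξ)
    {w : V} (hw : T.dist x w ≤ σ) {β : ℕ} (h2 : β ≤ 2 * σ) {f : T ≃g T} (hf : f ∈ G0 w)
    {c : T ≃g T} (hc : c ∈ Kn H Ξ σ w β) : f * c * f⁻¹ ∈ Kn H Ξ σ w β := by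
  have hT := h.std.tree
  have hΛ := h.hΛ
  have hwΛ : w ∈ Ball T x Λ := show T.dist x w ≤ Λ by omega
  have hf0 := h.gs.le w hwΛ hf
  have hfw : f w = w := ((mem_Gb_zero hT).1 hf0).2
  have hB : ∀ u ∈ Ball T w (σ + β), u ∈ Ball T x Λ := by
    intro u hu
    have h3 : T.dist w u ≤ σ + β := hu
    have h4 := hT.connected.dist_triangle (u := x) (v := w) (w := u)
    show T.dist x u ≤ Λ
    omega
  have hU : ∀ a ∈ ⋃ u ∈ Ball T w (σ + β), Ξ u, f * a * f⁻¹ ∈ ⋃ u ∈ Ball T w (σ + β), Ξ u := by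
    intro a ha
    obtain ⟨u, hu, ha⟩ := Set.mem_iUnion₂.1 ha
    have h3 : f u ∈ Ball T w (σ + β) := by
      show T.dist w (f u) ≤ σ + β
      rw [← congrArg (T.dist · (f u)) hfw, dist_map]
      exact hu
    exact Set.mem_iUnion₂.2 ⟨f u, h3, h.gs.inv w hwΛ f hf u (hB u hu) (hB _ h3) a ha⟩
  refine ⟨(mem_normalizer_iff.1 (Gb_nz_Gb hT w _ hf0) c).1 hc.1, mod_pow_conj ?_ 8 c hc.2⟩
  rintro a ((ha | ha) | ha)
  · rw [Set.mem_singleton_iff.1 ha, mul_one, mul_inv_cancel]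
    exact Or.inl (Or.inl rfl)
  · exact Or.inl (Or.inr (hU a ha))
  · refine Or.inr (Set.mem_inv.2 ?_)
    rw [show (f * a * f⁻¹)⁻¹ = f * a⁻¹ * f⁻¹ by group]
    exact hU _ (Set.mem_inv.1 ha)

theorem mod_conj (h : ModH d C H b M lam x n P0 P σ ρ j j1 v Y Λ δ A e ζ G0 Ξ) (t : ℕ)
    {w : V} (hw : T.dist x w ≤ σ) {β : ℕ} (h2 : β ≤ 2 * σ) {f : T ≃g T} (hf : f ∈ G0 w) :
    cj f (Yn H G0 Ξ σ t w β) = Yn H G0 Ξ σ t w β := by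
  have hT := h.std.tree
  have hΛ := h.hΛ
  have hwΛ : w ∈ Ball T x Λ := show T.dist x w ≤ Λ by omega
  have key : ∀ f ∈ G0 w, ∀ g ∈ Yn H G0 Ξ σ t w β, f * g * f⁻¹ ∈ Yn H G0 Ξ σ t w β := by
    rintro f hf g ⟨g1, g2, g3⟩
    have hn := Gb_nz_Gb hT w (t + β) (h.gs.le w hwΛ hf)
    refine ⟨mul_mem (mul_mem hf g1) (inv_mem hf), mul_mem (mul_mem hn g2) (inv_mem hn),
      fun c hc => ?_⟩
    have e1 : ⁅f * g * f⁻¹, c⁆ = f * ⁅g, f⁻¹ * c * f⁻¹⁻¹⁆ * f⁻¹ := by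
      simp only [commutatorElement_def]
      group
    rw [e1]
    exact (mem_normalizer_iff.1 hn _).1 (g3 _ (mod_Kn h hw h2 (inv_mem hf) hc))
  refine cj_eq_iff.2 (mem_normalizer_iff.2 fun g => ⟨key f hf g, fun hg => ?_⟩)
  have h3 := key _ (inv_mem hf) _ hg
  rwa [show f⁻¹ * (f * g * f⁻¹) * f⁻¹⁻¹ = g by group] at h3

theorem mod_A_lt (h : ModH d C H b M lam x n P0 P σ ρ j j1 v Y Λ δ A e ζ G0 Ξ) :
    A < b * Real.log 2 := by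
  have hM := h.hM
  have h1 : j1 + 1 ≤ j := le_trans (Nat.le_mul_of_pos_left _ (by omega)) h.loc.h1
  have h2 : j ≤ ρ := le_trans (Nat.le_mul_of_pos_left _ (by omega)) h.loc.h2
  have h3 : σ ≤ n := le_trans (Nat.le_mul_of_pos_left _ (by positivity)) h.hσ
  have h4 : n ≤ b := le_trans (Nat.le_mul_of_pos_left _ (by omega)) h.hb
  have h5 := h.loc.h3
  have h6 : (j1 : ℝ) + 1 ≤ b := by exact_mod_cast (show j1 + 1 ≤ b by omega)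
  have h7 : (100 : ℝ) ≤ M := by exact_mod_cast hM
  have h8 : (0 : ℝ) ≤ δ := Nat.cast_nonneg _
  have h9 : 1000 * 100 * A ≤ 1000 * M * (A + e + δ + M + 1) :=
    mul_le_mul (by linarith) (by linarith [h.he]) h.hA (by positivity)
  have h10 := Real.log_two_gt_d9
  have h11 : (0 : ℝ) ≤ j1 := Nat.cast_nonneg _
  have h12 : (b : ℝ) * (1 / 2) ≤ b * Real.log 2 :=
    mul_le_mul_of_nonneg_left (by linarith) (Nat.cast_nonneg _)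
  linarith [h.hsm]

theorem mod_ltr (h : ModH d C H b M lam x n P0 P σ ρ j j1 v Y Λ δ A e ζ G0 Ξ) {w y : V}
    (hw : w ∈ Ball T x Λ) (hy : y ∈ Ball T x Λ) (hwy : T.Adj w y) : LTr (G0 w) w := by
  obtain ⟨f, hf, hfw⟩ := h.std.vtr w y
  have e1 : G0 y = cj f (G0 w) := by rw [h.gs.eqv f hf w hw (hfw ▸ hy), hfw]
  refine h.std.toHyp.ltr_of_index hwy hf hfw e1 (h.gs.le w hw) (fun g hg => ?_)
    (h.gs.cpt w hw y hy) (h.gs.cpt y hy w hw) ((h.gs.idx w hw).trans_lt (mod_A_lt h))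
  obtain ⟨g1, g2⟩ := (mem_Gb_zero h.std.tree).1 hg
  refine cj_eq_iff.1 ?_
  rw [h.gs.eqv g g1 w hw (g2.symm ▸ hw), g2]

theorem mod_step (h : ModH d C H b M lam x n P0 P σ ρ j j1 v Y Λ δ A e ζ G0 Ξ) (t : ℕ) {s β : ℕ}
    (hs : s + 2 ≤ 2 * σ) (hβ : β + 2 ≤ 2 * σ) :
    ld (Yn H G0 Ξ σ t (v s) (β + 2) ⊓ Gb H (v s) j) (Fx H (Nb T (v '' Set.Iic (2 * σ)) j)) ≤
      ld (Yn H G0 Ξ σ t (v (s + 2)) β ⊓ Gb H (v (s + 2)) j)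
        (Fx H (Nb T (v '' Set.Iic (2 * σ)) j)) := by
  have hT := h.std.tree
  have hΛ := h.hΛ
  have hM := h.hM
  have hj : 1 ≤ j := le_trans (Nat.mul_pos (by omega) (by omega)) h.loc.h1
  have hd : ∀ r, r ≤ 2 * σ → T.dist x (v r) ≤ σ := by
    intro r hr
    rw [← h.loc.mid, h.loc.geo σ r (by omega) hr, Nat.dist]
    omega
  have hB : ∀ r, r ≤ 2 * σ → v r ∈ Ball T x Λ := fun r hr =>
    show T.dist x (v r) ≤ Λ from (hd r hr).trans (by omega)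
  have d1 : T.dist (v s) (v (s + 1)) = 1 := by
    rw [h.loc.geo s (s + 1) (by omega) (by omega), Nat.dist]
    omega
  have d2 : T.dist (v (s + 1)) (v (s + 2)) = 1 := by
    rw [h.loc.geo (s + 1) (s + 2) (by omega) (by omega), Nat.dist]
    omega
  have a1 := (SimpleGraph.dist_eq_one_iff_adj.1 d1).symm
  have a2 := SimpleGraph.dist_eq_one_iff_adj.1 d2
  have fin : ∀ (Z : Subgroup (T ≃g T)) (u : V), Finite (Z ⊓ Gb H u j : Subgroup (T ≃g T)) :=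
    fun Z u => by
      have := h.std.toHyp.finGb u j
      exact fin_of_le inf_le_right
  have eq : ∀ (Z : Subgroup (T ≃g T)) (r : ℕ), r ≤ 2 * σ →
      ld (Z ⊓ Gb H (v r) j) (Fx H (Nb T (v '' Set.Iic (2 * σ)) j)) =
        lc (Z ⊓ Gb H (v r) j) - lc (Z ⊓ Fx H (Nb T (v '' Set.Iic (2 * σ)) j)) := by
    intro Z r hr
    have := fin Z (v r)
    rw [ld_eq, inf_assoc, inf_eq_right.2 (Fx_Nb_le (Set.mem_image_of_mem v (Set.mem_Iic.2 hr)))]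
  obtain ⟨f, hf, hfv⟩ := mod_ltr h (hB (s + 1) (by omega)) (hB s (by omega)) a1 _ _ a1 a2
  have hfH : f ∈ H := (h.gs.le _ (hB (s + 1) (by omega)) hf).1
  have e1 : lc (Yn H G0 Ξ σ t (v (s + 1)) (β + 1) ⊓ Gb H (v s) j) =
      lc (Yn H G0 Ξ σ t (v (s + 1)) (β + 1) ⊓ Gb H (v (s + 2)) j) := by
    rw [← lc_cj f, cj_inf, mod_conj h t (hd _ (by omega)) (by omega) hf, cj_Gb hfH, hfv]
  have f1 := fin (Yn H G0 Ξ σ t (v (s + 1)) (β + 1)) (v s)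
  have f2 := fin (Yn H G0 Ξ σ t (v (s + 2)) β) (v (s + 2))
  have m1 : Yn H G0 Ξ σ t (v s) (β + 2) ⊓ Gb H (v s) j ≤
      Yn H G0 Ξ σ t (v (s + 1)) (β + 1) ⊓ Gb H (v s) j :=
    le_inf ((inf_le_inf_left _ (Gb_anti hT (by omega))).trans
      (mod_mono h t (hB s (by omega)) (hB (s + 1) (by omega)) (by omega) hβ)) inf_le_right
  have m2 : Yn H G0 Ξ σ t (v (s + 1)) (β + 1) ⊓ Gb H (v (s + 2)) j ≤
      Yn H G0 Ξ σ t (v (s + 2)) β ⊓ Gb H (v (s + 2)) j :=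
    le_inf ((inf_le_inf_left _ (Gb_anti' (Nat.zero_le _))).trans
      (mod_mono h t (hB (s + 1) (by omega)) (hB (s + 2) hs) (by omega) (by omega))) inf_le_right
  refine (ld_mono_left _ m1).trans (le_trans (le_of_eq ?_) (ld_mono_left _ m2))
  rw [eq _ s (by omega), eq _ (s + 2) hs, e1]

/-- the chain along the geodesic -/
theorem ModH.chain (h : ModH d C H b M lam x n P0 P σ ρ j j1 v Y Λ δ A e ζ G0 Ξ) (t : ℕ) :
    ld (Yn H G0 Ξ σ t (v 0) (2 * σ) ⊓ Gb H (v 0) j) (Fx H (Nb T (v '' Set.Iic (2 * σ)) j)) ≤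
      ld (Yn H G0 Ξ σ t x σ ⊓ Gb H x j) (Fx H (Nb T (v '' Set.Iic (2 * σ)) j)) := by
  have key : ∀ k, 2 * k ≤ σ →
      ld (Yn H G0 Ξ σ t (v 0) (2 * σ) ⊓ Gb H (v 0) j) (Fx H (Nb T (v '' Set.Iic (2 * σ)) j)) ≤
        ld (Yn H G0 Ξ σ t (v (2 * k)) (2 * σ - 2 * k) ⊓ Gb H (v (2 * k)) j)
          (Fx H (Nb T (v '' Set.Iic (2 * σ)) j)) := by
    intro k
    induction k with
    | zero => exact fun _ => le_rfl
    | succ k ih =>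
      intro hk
      have h1 := mod_step h t (s := 2 * k) (β := 2 * σ - 2 * (k + 1)) (by omega) (by omega)
      rw [show 2 * σ - 2 * (k + 1) + 2 = 2 * σ - 2 * k by omega] at h1
      exact (ih (by omega)).trans h1
  obtain ⟨k, hk⟩ := h.loc.even
  have h1 := key k (by omega)
  rwa [show 2 * k = σ by omega, show 2 * σ - σ = σ by omega, h.loc.mid] at h1

theorem ModH.Yn_mono (h : ModH d C H b M lam x n P0 P σ ρ j j1 v Y Λ δ A e ζ G0 Ξ) (t : ℕ)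
    {w w' : V} (hw : w ∈ Ball T x Λ) (hw' : w' ∈ Ball T x Λ) {β β' : ℕ}
    (h1 : β' + T.dist w w' ≤ β) (h2 : β ≤ 2 * σ) :
    Yn H G0 Ξ σ t w β ⊓ Gb H w' 0 ≤ Yn H G0 Ξ σ t w' β' :=
  mod_mono h t hw hw' h1 h2

theorem ModH.Yn_conj (h : ModH d C H b M lam x n P0 P σ ρ j j1 v Y Λ δ A e ζ G0 Ξ) (t : ℕ)
    {w : V} (hw : T.dist x w ≤ σ) {β : ℕ} (h2 : β ≤ 2 * σ) {f : T ≃g T} (hf : f ∈ G0 w) :
    cj f (Yn H G0 Ξ σ t w β) = Yn H G0 Ξ σ t w β :=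
  mod_conj h t hw h2 hf

end Pool.Agent.PSV
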