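import Pool.Agent.Lib.MP_607584_al.PSV.EndA
import Pool.Agent.Lib.MP_607584_al.PSV.Mod

/-! The endgame, part c: normal subgroups of bounded index. -/

namespace Pool.Agent.PSV

open Subgroup Filter
open scoped Pointwise commutatorElement

section

variable {Γ : Type*} [Group Γ]

/-- the left invariant distance defined by a finite subgroup -/
noncomputable def endC_D (P : Subgroup Γ) (a b : Γ) : ℝ := ld (cj a P) (cj b P)

theorem endC_left (P : Subgroup Γ) (h a b : Γ) : endC_D P (h * a) (h * b) = endC_D P a b := by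
  unfold endC_D; rw [cj_mul, cj_mul, ld_cj]

theorem endC_tri (P : Subgroup Γ) [Finite P] (a b c : Γ) :
    endC_D P a c ≤ endC_D P a b + endC_D P b c := by
  have := fin_cj a P
  have := fin_cj b P
  exact ld_tri _ _ _

theorem endC_symm (P : Subgroup Γ) [Finite P] (a b : Γ) : endC_D P a b = endC_D P b a := by
  have := fin_cj a P
  have := fin_cj b P
  unfold endC_D
  rw [ld_eq, ld_eq, lc_cj, lc_cj, inf_comm]

theorem endC_self (P : Subgroup Γ) (a : Γ) : endC_D P a a = 0 := ld_of_le le_rfl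

theorem endC_one (P : Subgroup Γ) (a : Γ) : endC_D P a 1 = ld (cj a P) P := by
  unfold endC_D; rw [cj_one]

theorem endC_inv (P : Subgroup Γ) (h a b : Γ) : endC_D P (h⁻¹ * a) b = endC_D P a (h * b) := by
  rw [← endC_left P h, mul_inv_cancel_left]

/-- an index bound from a map to a finite type -/
theorem endC_index {X Y : Subgroup Γ} {κ : Type} [Finite κ] (F : X → κ)
    (h : ∀ a b : X, F a = F b → (a : Γ)⁻¹ * b ∈ Y) : ld X Y ≤ Real.log (Nat.card κ) := by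
  have inj : Function.Injective fun q : X ⧸ Y.subgroupOf X => F q.out := by
    intro q q' e
    rw [← QuotientGroup.out_eq' q, ← QuotientGroup.out_eq' q', QuotientGroup.eq, mem_subgroupOf]
    exact h _ _ e
  have := Finite.of_injective _ inj
  have h1 : Y.relIndex X ≤ Nat.card κ := Nat.card_le_card_of_injective _ inj
  have h2 : 0 < Y.relIndex X := Nat.card_pos (α := X ⧸ Y.subgroupOf X)
  exact Real.log_le_log (by exact_mod_cast h2) (by exact_mod_cast h1)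

end

variable {V : Type} {T : SimpleGraph V} {d : ℕ} {C : ℝ} {Q : Seq T d C}

theorem endC_dmul (hT : T.IsTree) (f g : T ≃g T) (x : V) :
    T.dist x ((f * g) x) ≤ T.dist x (f x) + T.dist x (g x) := by
  rw [RelIso.mul_apply, ← dist_map f x (g x)]
  exact hT.connected.dist_triangle

theorem endC_dinv (f : T ≃g T) (x : V) : T.dist x (f⁻¹ x) = T.dist x (f x) := by
  rw [← dist_map f, RelIso.apply_inv_self, SimpleGraph.dist_comm]

theorem endC_dtwo (hT : T.IsTree) (f : T ≃g T) {x w : V} {Λ : ℕ} (h1 : w ∈ Ball T x Λ)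
    (h2 : f w ∈ Ball T x Λ) : T.dist x (f x) ≤ 2 * Λ := by
  have a : T.dist x (f x) ≤ T.dist x (f w) + T.dist (f w) (f x) := hT.connected.dist_triangle
  rw [dist_map, SimpleGraph.dist_comm (u := w)] at a
  have b : T.dist x w ≤ Λ := h1
  have c : T.dist x (f w) ≤ Λ := h2
  omega

/-- representatives of the classes of conjugates in a ball -/
structure endC_Rep (H : Subgroup (T ≃g T)) (x : V) (Λ : ℕ) (P : Subgroup (T ≃g T)) {ι : Type}
    (g : ι → T ≃g T) (ε : ℝ) : Prop where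
  tree : T.IsTree
  fin : Finite P
  e0 : 0 ≤ ε
  mem : ∀ i, g i ∈ H ∧ T.dist x (g i x) ≤ Λ
  sep : ∀ i j, endC_D P (g i) (g j) ≤ 4 * ε → i = j
  cov : ∀ f ∈ H, T.dist x (f x) ≤ 3 * Λ → ∃ i, endC_D P f (g i) ≤ ε

/-- elements that fix all the classes -/
def endC_Ga (H : Subgroup (T ≃g T)) (P : Subgroup (T ≃g T)) {ι : Type} (g : ι → T ≃g T) (ε : ℝ) :
    Set (T ≃g T) := {f | f ∈ H ∧ ∀ i, endC_D P (f * g i) (g i) ≤ ε}

section

variable {H : Subgroup (T ≃g T)} {x : V} {Λ : ℕ} {P : Subgroup (T ≃g T)} {ι : Type}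
  {g : ι → T ≃g T} {ε : ℝ}

theorem endC_Rep.cov2 (h : endC_Rep H x Λ P g ε) {f : T ≃g T} (hf : f ∈ H)
    (h1 : T.dist x (f x) ≤ 2 * Λ) (i : ι) : ∃ j, endC_D P (f * g i) (g j) ≤ ε := by
  refine h.cov _ (H.mul_mem hf (h.mem i).1) ?_
  have := endC_dmul h.tree f (g i) x
  have := (h.mem i).2
  omega

theorem endC_Rep.snap (h : endC_Rep H x Λ P g ε) {f : T ≃g T} (hf : f ∈ H)
    (h1 : T.dist x (f x) ≤ 2 * Λ) (h2 : ∀ i, endC_D P (f * g i) (g i) ≤ 3 * ε) :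
    f ∈ endC_Ga H P g ε := by
  have := h.fin
  refine ⟨hf, fun i => ?_⟩
  obtain ⟨j, hj⟩ := h.cov2 hf h1 i
  have a := endC_tri P (g i) (f * g i) (g j)
  rw [endC_symm P (g i) (f * g i)] at a
  have e := h.sep i j (by linarith [h2 i])
  subst e
  exact hj

theorem endC_Rep.one (h : endC_Rep H x Λ P g ε) : 1 ∈ endC_Ga H P g ε :=
  ⟨H.one_mem, fun i => by rw [one_mul, endC_self]; exact h.e0⟩

theorem endC_Rep.inv (h : endC_Rep H x Λ P g ε) {f : T ≃g T} (hf : f ∈ endC_Ga H P g ε) :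
    f⁻¹ ∈ endC_Ga H P g ε := by
  have := h.fin
  exact ⟨H.inv_mem hf.1, fun i => by rw [endC_inv, endC_symm]; exact hf.2 i⟩

theorem endC_Rep.mul (h : endC_Rep H x Λ P g ε) {f f' : T ≃g T} (hf : f ∈ endC_Ga H P g ε)
    (hf' : f' ∈ endC_Ga H P g ε) (h1 : T.dist x ((f * f') x) ≤ 2 * Λ) :
    f * f' ∈ endC_Ga H P g ε := by
  have := h.fin
  refine h.snap (H.mul_mem hf.1 hf'.1) h1 fun i => ?_
  have a := endC_tri P (f * f' * g i) (f * g i) (g i)
  rw [mul_assoc, endC_left] at a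
  rw [mul_assoc]
  linarith [hf.2 i, hf'.2 i, h.e0]

theorem endC_Rep.conj (h : endC_Rep H x Λ P g ε) {f a : T ≃g T} (hf : f ∈ endC_Ga H P g ε)
    (ha : a ∈ H) (h0 : T.dist x (a x) ≤ 2 * Λ) (h1 : T.dist x ((a * f * a⁻¹) x) ≤ 2 * Λ) :
    a * f * a⁻¹ ∈ endC_Ga H P g ε := by
  have := h.fin
  refine h.snap (H.mul_mem (H.mul_mem ha hf.1) (H.inv_mem ha)) h1 fun i => ?_
  obtain ⟨j, hj⟩ := h.cov2 (H.inv_mem ha) (by rwa [endC_dinv]) i
  have e : endC_D P (a * f * a⁻¹ * g i) (g i) = endC_D P (f * (a⁻¹ * g i)) (a⁻¹ * g i) := by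
    rw [← endC_left P a⁻¹]
    congr 1
    group
  have a1 := endC_tri P (f * (a⁻¹ * g i)) (f * g j) (a⁻¹ * g i)
  have a2 := endC_tri P (f * g j) (g j) (a⁻¹ * g i)
  rw [endC_left] at a1
  rw [endC_symm P (g j)] at a2
  linarith [hf.2 j]

theorem endC_Rep.st (h : endC_Rep H x Λ P g ε) {f : T ≃g T} (hf : f ∈ endC_Ga H P g ε) :
    ld (cj f P) P ≤ 3 * ε := by
  have := h.fin
  obtain ⟨j, hj⟩ := h.cov 1 H.one_mem (by simp)
  have a1 := endC_tri P (f * 1) (f * g j) 1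
  have a2 := endC_tri P (f * g j) (g j) 1
  rw [endC_left, mul_one, endC_one] at a1
  rw [endC_symm P (g j)] at a2
  linarith [hf.2 j]

theorem endC_Rep.two (h : endC_Rep H x Λ P g ε) {w : V} (hw : w ∈ Ball T x Λ) {f : T ≃g T}
    (hf : f ∈ Gb H w 0) : T.dist x (f x) ≤ 2 * Λ :=
  endC_dtwo h.tree f hw (by rwa [((mem_Gb_zero h.tree).1 hf).2])

theorem endC_Rep.mem_cl (h : endC_Rep H x Λ P g ε) {w : V} (hw : w ∈ Ball T x Λ) {f : T ≃g T} :
    f ∈ closure (endC_Ga H P g ε ∩ Gb H w 0) ↔ f ∈ endC_Ga H P g ε ∧ f ∈ Gb H w 0 := by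
  refine ⟨fun hf => ?_, fun hf => subset_closure hf⟩
  induction hf using closure_induction with
  | mem y hy => exact hy
  | one => exact ⟨h.one, one_mem _⟩
  | mul y z _ _ hy hz =>
    exact ⟨h.mul hy.1 hz.1 (h.two hw (mul_mem hy.2 hz.2)), mul_mem hy.2 hz.2⟩
  | inv y _ hy => exact ⟨h.inv hy.1, inv_mem hy.2⟩

theorem endC_Rep.gs [Finite ι] (h : endC_Rep H x Λ P g ε) {τ e : ℝ} {ζ : T ≃g T}
    (h1 : rk P ζ + 3 * ε ≤ τ)
    (h2 : ∀ f ∈ Gb H x 0, ld (cj f P) P ≤ 3 * ε → rk P ζ + ld (cj f P) P ≤ e) :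
    ∃ G0 Ξ, GS H x Λ (Real.log (Nat.card (ι → ι))) τ e P ζ G0 Ξ := by
  have := h.fin
  have hx : x ∈ Ball T x Λ := by simp [Ball]
  have r0 := rk_nonneg P ζ
  have cv : ∀ f ∈ H, ∀ w ∈ Ball T x Λ, f w ∈ Ball T x Λ → ∀ y, y ∈ endC_Ga H P g ε ∧ y ∈ Gb H w 0 →
      f * y * f⁻¹ ∈ endC_Ga H P g ε ∧ f * y * f⁻¹ ∈ Gb H (f w) 0 := by
    intro f hf w hw hw' y hy
    have a : f * y * f⁻¹ ∈ Gb H (f w) 0 := by rw [← cj_Gb hf, conj_mem_cj]; exact hy.2
    exact ⟨h.conj hy.1 hf (endC_dtwo h.tree f hw hw') (h.two hw' a), a⟩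
  refine ⟨fun w => closure (endC_Ga H P g ε ∩ Gb H w 0),
    fun v => {ξ | ∃ a ∈ endC_Ga H P g ε, a x = v ∧ ξ = a * ζ * a⁻¹}, ?_, ?_, ?_, ?_, ?_, ?_, ?_,
    ?_, ?_, ?_⟩
  · intro w hw f hf
    exact ((h.mem_cl hw).1 hf).2
  · intro w hw
    have ex : ∀ (a : Gb H w 0) (i : ι), ∃ j, endC_D P ((a : T ≃g T) * g i) (g j) ≤ ε :=
      fun a i => h.cov2 a.2.1 (h.two hw a.2) i
    choose F hF using ex
    refine endC_index F fun a b e => ?_
    have m : (a : T ≃g T)⁻¹ * b ∈ Gb H w 0 := mul_mem (inv_mem a.2) b.2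
    refine (h.mem_cl hw).2 ⟨h.snap m.1 (h.two hw m) fun i => ?_, m⟩
    have a1 := endC_tri P ((b : T ≃g T) * g i) (g (F b i)) ((a : T ≃g T) * g i)
    rw [endC_symm P (g (F b i))] at a1
    have a2 := hF a i
    rw [e] at a2
    rw [mul_assoc, endC_inv]
    linarith [hF b i, h.e0]
  · intro f hf w hw hw'
    ext y
    rw [mem_cj, h.mem_cl hw, h.mem_cl hw']
    constructor
    · intro hy
      have := cv f hf w hw hw' _ hy
      rwa [show f * (f⁻¹ * y * f) * f⁻¹ = y by group] at this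
    · intro hy
      have := cv f⁻¹ (H.inv_mem hf) (f w) hw' (by rwa [RelIso.inv_apply_self]) _ hy
      rwa [inv_inv, RelIso.inv_apply_self] at this
  · intro w hw w' hw' f hf
    exact (h.mem_cl hw').2 ⟨((h.mem_cl hw).1 hf.1).1, hf.2⟩
  · rintro w hw f hf v hv hv' ξ ⟨a, ha, rfl, rfl⟩
    refine ⟨f * a, h.mul ((h.mem_cl hw).1 hf).1 ha ?_, rfl, by group⟩
    have : T.dist x ((f * a) x) ≤ Λ := hv'
    omega
  · exact ⟨1, h.one, rfl, by group⟩
  · rintro v hv ξ ⟨a, ha, -, rfl⟩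
    linarith [rk_conj_le P a ζ, h.st ha]
  · rintro ξ ⟨a, ha, hax, rfl⟩
    exact (rk_conj_le P a ζ).trans (h2 a ((mem_Gb_zero h.tree).2 ⟨ha.1, hax⟩) (h.st ha))
  · intro w hw f hf
    linarith [h.st ((h.mem_cl hw).1 hf).1]
  · intro f hf
    obtain ⟨a1, a2⟩ := (h.mem_cl hx).1 hf
    linarith [h2 f a2 (h.st a1)]

end

/-- a maximal family of pairwise inequivalent elements -/
theorem endC_max {α : Type*} (p : α → Prop) (r : α → α → Prop) (hs : ∀ a b, r a b → r b a)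
    (A0 : ℕ) (hA : ∀ g : Fin (A0 + 1) → α, (∀ i, p (g i)) → ∃ i j, i ≠ j ∧ r (g i) (g j)) :
    ∃ (s : ℕ) (g : Fin s → α), (∀ i, p (g i)) ∧ (∀ i j, i ≠ j → ¬ r (g i) (g j)) ∧
      ∀ y, p y → ∃ i, r y (g i) := by
  by_contra hc
  have key : ∀ s : ℕ, ∃ g : Fin s → α, (∀ i, p (g i)) ∧ ∀ i j, i ≠ j → ¬ r (g i) (g j) := by
    intro s
    induction s with
    | zero => exact ⟨Fin.elim0, fun i => i.elim0, fun i => i.elim0⟩
    | succ s ih =>
      obtain ⟨g, h1, h2⟩ := ih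
      have : ∃ y, p y ∧ ∀ i, ¬ r y (g i) := by
        by_contra hn
        refine hc ⟨s, g, h1, h2, fun y hy => ?_⟩
        by_contra hy'
        exact hn ⟨y, hy, fun i hi => hy' ⟨i, hi⟩⟩
      obtain ⟨y, y1, y2⟩ := this
      refine ⟨Fin.cons y g, fun i => ?_, fun i j hij => ?_⟩
      · induction i using Fin.cases with
        | zero => exact y1
        | succ i => exact h1 i
      · induction i using Fin.cases with
        | zero =>
          induction j using Fin.cases with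
          | zero => exact absurd rfl hij
          | succ j => exact y2 j
        | succ i =>
          induction j using Fin.cases with
          | zero => exact fun e => y2 i (hs _ _ e)
          | succ j => exact h2 i j fun e => hij (by rw [e])
  obtain ⟨g, h1, h2⟩ := key (A0 + 1)
  obtain ⟨i, j, hij, h⟩ := hA g h1
  exact h2 i j hij h

theorem endC_pos {ι : Type} [Finite ι] (ε : ι → ℝ) (h : ∀ i, 0 < ε i) : ∃ γ > 0, ∀ i, γ ≤ ε i := by
  have : ∀ᶠ γ in nhdsWithin (0 : ℝ) (Set.Ioi 0), ∀ i, γ ∈ Set.Ioo 0 (ε i) :=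
    eventually_all.2 fun i => Ioo_mem_nhdsGT (h i)
  obtain ⟨γ, h1, h2⟩ := (this.and self_mem_nhdsWithin).exists
  exact ⟨γ, h2, fun i => (h1 i).2.le⟩

theorem Seq.MaxP.gs {lam A0 : ℕ} {P : ℕ → Subgroup (T ≃g T)} {ζ : ℕ → T ≃g T}
    (h : Q.MaxP lam P ζ)
    (hA : ∀ g : Fin (A0 + 1) → ℕ → T ≃g T, (∀ i, Q.Short (g i)) →
      ∃ i j, i ≠ j ∧ Q.Le (fun k => cj (g i k) (P k)) fun k => cj (g j k) (P k))
    {τ : ℝ} (hτ : 0 < τ) :
    ∃ (A : ℝ) (m : ℕ) (e : ℕ → ℝ), 0 ≤ A ∧ Sm Q.n e ∧ ∀ᶠ k in om, 0 ≤ e k ∧ ∃ G0 Ξ,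
      GS (Q.H k) (Q.x k) (Q.n k / (m + 1)) A (τ * Q.n k) (e k) (P k) (ζ k) G0 Ξ := by
  have hfin : ∀ᶠ k in om, Finite (P k) := by
    filter_upwards [h.hb, h.le] with k h1 h2
    have := (Q.std k).toHyp.finWd (Q.x k) (r := lam * Q.n k) (by nlinarith)
    exact fin_of_le h2
  obtain ⟨s, g, g1, g2, g3⟩ := endC_max Q.Short
    (fun a b => Sm Q.n fun k => endC_D (P k) (a k) (b k))
    (fun a b hab => hab.of_le (by
      filter_upwards [hfin] with k hk
      exact (endC_symm _ _ _).le)) A0 hA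
  have ex : ∀ p : Fin s × Fin s, ∃ c : ℝ, 0 < c ∧
      ∀ᶠ k in om, endC_D (P k) (g p.1 k) (g p.2 k) ≤ c * Q.n k → p.1 = p.2 := by
    rintro ⟨i, j⟩
    by_cases e : i = j
    · exact ⟨1, one_pos, Eventually.of_forall fun _ _ => e⟩
    · obtain ⟨c, c0, hc⟩ := not_sm (g2 i j e)
      exact ⟨c, c0, hc.mono fun k hk hk' => absurd hk' (not_le.2 hk)⟩
  choose c c0 hc using ex
  obtain ⟨γ, γ0, hγ⟩ := endC_pos c c0
  obtain ⟨ε, e0, e1, e2⟩ : ∃ ε : ℝ, 0 < ε ∧ 5 * ε ≤ γ ∧ 4 * ε ≤ τ :=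
    ⟨min (γ / 5) (τ / 4), lt_min (by linarith) (by linarith),
      by linarith [min_le_left (γ / 5) (τ / 4)], by linarith [min_le_right (γ / 5) (τ / 4)]⟩
  have sep : ∀ᶠ k in om, ∀ i j, endC_D (P k) (g i k) (g j k) ≤ 5 * (ε * Q.n k) → i = j := by
    filter_upwards [eventually_all.2 hc] with k hk i j hij
    refine hk (i, j) (hij.trans ?_)
    have := mul_le_mul_of_nonneg_right (e1.trans (hγ (i, j))) (Nat.cast_nonneg (α := ℝ) (Q.n k))
    linarith
  obtain ⟨m, hm⟩ := overspill (P := fun m k => ∀ f : T ≃g T, f ∈ Q.H k →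
      T.dist (Q.x k) (f (Q.x k)) ≤ 3 * (Q.n k / (m + 1)) →
      ∃ i, endC_D (P k) f (g i k) ≤ ε * Q.n k) (by
    intro μ hμ
    refine ev_forall fun y => ?_
    rcases ev_or_not (fun k => y k ∈ Q.H k ∧
      T.dist (Q.x k) (y k (Q.x k)) ≤ 3 * (Q.n k / (μ k + 1))) with a | a
    · have sh : Q.Short y := by
        refine ⟨a.mono fun k hk => hk.1, (Sm.div Q.hn hμ 3).of_le (a.mono fun k hk => ?_)⟩
        have b1 : (T.dist (Q.x k) (y k (Q.x k)) : ℝ) ≤ 3 * ((Q.n k / (μ k + 1) : ℕ) : ℝ) := by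
          exact_mod_cast hk.2
        have b2 : ((Q.n k / (μ k + 1) : ℕ) : ℝ) ≤ (Q.n k : ℝ) / ((μ k + 1 : ℕ) : ℝ) :=
          Nat.cast_div_le
        push_cast at b2
        linarith
      obtain ⟨i, hi⟩ := g3 y sh
      exact (hi ε e0).mono fun k hk _ _ => ⟨i, hk⟩
    · exact a.mono fun k hk b1 b2 => absurd ⟨b1, b2⟩ hk)
  obtain ⟨i0, hi0⟩ := g3 1 Q.SG.one_mem
  obtain ⟨e, he1, he2⟩ := Sm.unif Q.hn
    (E := fun k => {f | f ∈ Q.G k 0 ∧ ld (cj f (P k)) (P k) ≤ 3 * (ε * Q.n k)})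
    (F := fun k f => ld (cj f (P k)) (P k)) (by
      intro y hy
      obtain ⟨i, hi⟩ := g3 y (Q.GG_le_SG (fun _ => 0) (hy.mono fun k hk => hk.1))
      have ei : i = i0 := by
        have : ∀ᶠ k in om, i = i0 := by
          filter_upwards [hfin, hy, sep, hi ε e0, hi0 ε e0] with k hk b1 b2 b3 b4
          refine b2 i i0 ?_
          have a1 := endC_tri (P k) (g i k) (y k) (g i0 k)
          have a2 := endC_tri (P k) (y k) 1 (g i0 k)
          rw [endC_symm (P k) (g i k) (y k)] at a1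
          rw [endC_one] at a2
          have b5 : endC_D (P k) 1 (g i0 k) ≤ ε * Q.n k := b4
          linarith [b1.2]
        exact this.exists.choose_spec
      subst ei
      refine (hi.add hi0).of_le ?_
      filter_upwards [hfin] with k hk
      have a1 := endC_tri (P k) (y k) (g i k) 1
      rw [endC_one, endC_symm (P k) (g i k)] at a1
      exact a1)
  have hg : ∀ᶠ k in om, ∀ i, g i k ∈ Q.H k ∧
      T.dist (Q.x k) (g i k (Q.x k)) ≤ Q.n k / (m + 1) := by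
    refine eventually_all.2 fun i => ?_
    filter_upwards [(g1 i).1, sm_iff.1 (g1 i).2 m] with k b1 b2
    refine ⟨b1, (Nat.le_div_iff_mul_le (Nat.succ_pos m)).2 ?_⟩
    rw [le_div_iff₀ (by positivity)] at b2
    exact_mod_cast b2
  refine ⟨Real.log (Nat.card (Fin s → Fin s)), m, fun k => PSV.rk (P k) (ζ k) + Max.max (e k) 0,
    Real.log_natCast_nonneg _, Sm.add h.rk (he1.max (Sm.const Q.hn 0)), ?_⟩
  filter_upwards [hfin, sep, hm, he2, hg, h.rk ε e0] with k b1 b2 b3 b4 b5 b6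
  have n0 : 0 ≤ ε * Q.n k := by positivity
  refine ⟨add_nonneg (rk_nonneg _ _) (le_max_right _ _), endC_Rep.gs (g := fun i => g i k)
    (ε := ε * Q.n k) ⟨(Q.std k).tree, b1, n0, b5, fun i j hij => b2 i j (by linarith), b3⟩ ?_ ?_⟩
  · have := mul_le_mul_of_nonneg_right e2 (Nat.cast_nonneg (α := ℝ) (Q.n k))
    linarith
  · intro f f1 f2
    linarith [b4 f ⟨f1, f2⟩, le_max_left (e k) 0]

end Pool.Agent.PSV
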