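import Pool.Agent.Lib.MP_607584_al.PSV.Mod

/-! The modular chain, part 2: the two ends. -/

namespace Pool.Agent.PSV

open Subgroup
open scoped Pointwise commutatorElement

variable {V : Type} {T : SimpleGraph V}
variable {d : ℕ} {C : ℝ} {H : Subgroup (T ≃g T)} {b M lam : ℕ} {x : V} {n : ℕ}
  {P0 P : Subgroup (T ≃g T)} {σ ρ j j1 : ℕ} {v : ℕ → V} {Y : Subgroup (T ≃g T)} {Λ δ : ℕ}
  {A e : ℝ} {ζ : T ≃g T} {G0 : V → Subgroup (T ≃g T)} {Ξ : V → Set (T ≃g T)}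

/-- the letters near `w` -/
def mod2_L (Ξ : V → Set (T ≃g T)) (w : V) (r : ℕ) : Set (T ≃g T) :=
  {1} ∪ (⋃ v ∈ Ball T w r, Ξ v) ∪ (⋃ v ∈ Ball T w r, Ξ v)⁻¹

theorem mod2_Kn {w : V} {β : ℕ} {c : T ≃g T} :
    c ∈ Kn H Ξ σ w β ↔ c ∈ Gb H w (2 * σ + 1 - β) ∧ c ∈ mod2_L Ξ w (σ + β) ^ 8 := Iff.rfl

theorem mod2_Yn {t : ℕ} {w : V} {β : ℕ} {g : T ≃g T} :
    g ∈ Yn H G0 Ξ σ t w β ↔ g ∈ G0 w ∧ g ∈ normalizer (Gb H w (t + β) : Set (T ≃g T)) ∧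
      ∀ c ∈ Kn H Ξ σ w β, ⁅g, c⁆ ∈ Gb H w (t + β) := Iff.rfl

theorem mod2_CM {A' N : Subgroup (T ≃g T)} {K : Set (T ≃g T)} {g : T ≃g T} :
    g ∈ CM A' N K ↔ g ∈ A' ∧ g ∈ normalizer (N : Set (T ≃g T)) ∧ ∀ c ∈ K, ⁅g, c⁆ ∈ N := Iff.rfl

theorem mod2_mem_L {w : V} {r : ℕ} {a : T ≃g T} :
    a ∈ mod2_L Ξ w r ↔ a = 1 ∨ (∃ u, T.dist w u ≤ r ∧ a ∈ Ξ u) ∨ ∃ u, T.dist w u ≤ r ∧ a⁻¹ ∈ Ξ u := by
  simp only [mod2_L, Set.mem_union, Set.mem_singleton_iff, Set.mem_iUnion, Set.mem_inv, Ball,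
    Set.mem_ofPred_eq, exists_prop, or_assoc]

theorem mod2_L_sym (w : V) (r : ℕ) : Sym (mod2_L Ξ w r) := by
  refine ⟨mod2_mem_L.2 (Or.inl rfl), ?_⟩
  ext a
  rw [Set.mem_inv, mod2_mem_L, mod2_mem_L, inv_eq_one, inv_inv]
  exact or_congr Iff.rfl or_comm

theorem mod2_L_inv {w : V} {r k : ℕ} {a : T ≃g T} (ha : a ∈ mod2_L Ξ w r ^ k) :
    a⁻¹ ∈ mod2_L Ξ w r ^ k := by
  rw [← ((mod2_L_sym w r).pow k).2] at ha
  exact Set.mem_inv.1 ha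

theorem mod2_L_mul {w : V} {r k l : ℕ} {a a' : T ≃g T} (ha : a ∈ mod2_L Ξ w r ^ k)
    (ha' : a' ∈ mod2_L Ξ w r ^ l) : a * a' ∈ mod2_L Ξ w r ^ (k + l) := by
  rw [pow_add]; exact Set.mul_mem_mul ha ha'

theorem mod2_conj_Gb (hT : T.IsTree) {w : V} {r : ℕ} {f a : T ≃g T} (hf : f ∈ Gb H w 0)
    (ha : a ∈ Gb H w r) : f * a * f⁻¹ ∈ Gb H w r :=
  (mem_normalizer_iff.1 (Gb_nz_Gb hT w r hf) a).1 ha

theorem mod2_comm_right (hT : T.IsTree) {w : V} {r : ℕ} {f a : T ≃g T} (hf : f ∈ Gb H w 0)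
    (ha : a ∈ Gb H w r) : ⁅f, a⁆ ∈ Gb H w r := by
  rw [commutatorElement_def]
  exact mul_mem (mod2_conj_Gb hT hf ha) (inv_mem ha)

theorem mod2_comm_left (hT : T.IsTree) {w : V} {r : ℕ} {f a : T ≃g T} (hf : f ∈ Gb H w 0)
    (ha : a ∈ Gb H w r) : ⁅a, f⁆ ∈ Gb H w r := by
  rw [← commutatorElement_inv]
  exact inv_mem (mod2_comm_right hT hf ha)

theorem mod2_dist_fix (hT : T.IsTree) {w : V} {f : T ≃g T} (hf : f ∈ Gb H w 0) (u : V) :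
    T.dist w (f u) = T.dist w u := by
  have h1 := ((mem_Gb_zero hT).1 hf).2
  conv_lhs => rw [← h1]
  exact dist_map f w u

theorem mod2_tri (hT : T.IsTree) (a u z : V) : T.dist a z ≤ T.dist a u + T.dist u z :=
  hT.connected.dist_triangle

/-- numerical consequences of the hypotheses -/
structure mod2_Num (b M n σ ρ j j1 δ : ℕ) (A e : ℝ) : Prop where
  a1 : 100000 * (A + e + 1) ≤ j1
  a2 : δ ≤ j1
  a3 : M ≤ j1
  a4 : 100 * (j1 + 1) ≤ j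
  a5 : j1 + 1 ≤ j / M
  a6 : 100 * j ≤ ρ / M
  a7 : ρ / M ≤ ρ
  a8 : 100000 * σ ≤ n / M
  a9 : n / M ≤ n
  a10 : 250 * σ ≤ n / (4 * M) / M
  a11 : n / (4 * M) / M ≤ n / (4 * M)
  a12 : 100 * (n / (4 * M)) ≤ n
  a13 : n / (4 * M) + 2 * σ ≤ (n - σ) / M
  a14 : 4 * n ≤ b

theorem ModH.mod2_num (h : ModH d C H b M lam x n P0 P σ ρ j j1 v Y Λ δ A e ζ G0 Ξ) :
    mod2_Num b M n σ ρ j j1 δ A e := by
  have hM := h.hM
  have hM0 : 0 < M := by omega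
  have hMr : (100 : ℝ) ≤ M := by exact_mod_cast hM
  have hA := h.hA
  have he := h.he
  have hδ : (0 : ℝ) ≤ δ := Nat.cast_nonneg δ
  have hs : 100000 * (A + e + δ + M + 1) ≤ (j1 : ℝ) := by
    refine le_trans ?_ h.hsm
    have : 0 ≤ A + e + δ + M + 1 := by linarith
    nlinarith
  have h1 := h.loc.h1
  have h2 := h.loc.h2
  have h3 := h.loc.h3
  have hσ := h.hσ
  have hb := h.hb
  have hq : 4 * M * (n / (4 * M)) ≤ n := Nat.mul_div_le n (4 * M)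
  have hMσ : 100 * (M * σ) ≤ M ^ 2 * σ := by nlinarith [Nat.zero_le (M * σ)]
  have hσM : 100 * σ ≤ M * σ := Nat.mul_le_mul_right σ hM
  refine ⟨by linarith, ?_, ?_, ?_, ?_, ?_, Nat.div_le_self _ _, ?_, Nat.div_le_self _ _, ?_,
    Nat.div_le_self _ _, ?_, ?_, ?_⟩
  · have : (δ : ℝ) ≤ j1 := by linarith
    exact_mod_cast this
  · have : (M : ℝ) ≤ j1 := by linarith
    exact_mod_cast this
  · exact (Nat.mul_le_mul_right _ hM).trans h1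
  · rw [Nat.le_div_iff_mul_le hM0]; linarith
  · rw [Nat.le_div_iff_mul_le hM0]; linarith
  · rw [Nat.le_div_iff_mul_le hM0]; linarith
  · rw [Nat.le_div_iff_mul_le hM0, Nat.le_div_iff_mul_le (by omega)]; linarith
  · nlinarith [Nat.zero_le (n / (4 * M))]
  · rw [Nat.le_div_iff_mul_le hM0]
    have : (n / (4 * M) + 2 * σ) * M + σ ≤ n := by linarith
    omega
  · nlinarith [Nat.zero_le (lam * n)]

theorem mod2_div_ge {a k : ℕ} {y : ℝ} (hy : y ≤ a) (h : a ≤ k / M) : y ≤ (k : ℝ) / M :=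
  hy.trans ((Nat.cast_le.2 h).trans Nat.cast_div_le)

theorem ModH.mod2_tr (h : ModH d C H b M lam x n P0 P σ ρ j j1 v Y Λ δ A e ζ G0 Ξ) : T.IsTree :=
  h.std.tree

theorem ModH.mod2_ball (h : ModH d C H b M lam x n P0 P σ ρ j j1 v Y Λ δ A e ζ G0 Ξ) {w u : V}
    (hw : T.dist x w ≤ σ) (hu : T.dist w u ≤ 3 * σ) : u ∈ Ball T x Λ := by
  have := mod2_tri h.mod2_tr x w u
  have := h.hΛ
  show T.dist x u ≤ Λ
  omega

theorem ModH.mod2_ball0 (h : ModH d C H b M lam x n P0 P σ ρ j j1 v Y Λ δ A e ζ G0 Ξ) {w : V}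
    (hw : T.dist x w ≤ σ) : w ∈ Ball T x Λ := h.mod2_ball hw (by simp)

theorem ModH.mod2_G0_le (h : ModH d C H b M lam x n P0 P σ ρ j j1 v Y Λ δ A e ζ G0 Ξ) {w : V}
    (hw : T.dist x w ≤ σ) : G0 w ≤ Gb H w 0 := h.gs.le w (h.mod2_ball0 hw)

theorem ModH.mod2_dv (h : ModH d C H b M lam x n P0 P σ ρ j j1 v Y Λ δ A e ζ G0 Ξ) {p : ℕ}
    (hp : p ≤ 2 * σ) : T.dist x (v p) ≤ σ := by
  have := h.loc.geo σ p (by omega) hp
  rw [h.loc.mid] at this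
  rw [this, Nat.dist]
  omega

theorem ModH.mod2_dn (h : ModH d C H b M lam x n P0 P σ ρ j j1 v Y Λ δ A e ζ G0 Ξ) {w : V}
    (hw : T.dist x w ≤ σ) {η : ℝ} (hη : A ≤ η) : Dn (G0 w : Set (T ≃g T)) (Gb H w 0) η := by
  have := h.std.finGb w 0
  exact (Dn.self (h.mod2_G0_le hw)).mono subset_rfl (h.mod2_G0_le hw) ((h.gs.idx w (h.mod2_ball0 hw)).trans hη)

theorem ModH.mod2_Xi_conj (h : ModH d C H b M lam x n P0 P σ ρ j j1 v Y Λ δ A e ζ G0 Ξ) {w u : V}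
    (hw : T.dist x w ≤ σ) (hu : T.dist w u ≤ 3 * σ) {f a : T ≃g T} (hf : f ∈ G0 w)
    (ha : a ∈ Ξ u) : f * a * f⁻¹ ∈ Ξ (f u) :=
  h.gs.inv w (h.mod2_ball0 hw) f hf u (h.mod2_ball hw hu)
    (h.mod2_ball hw (by rw [mod2_dist_fix h.mod2_tr (h.mod2_G0_le hw hf)]; exact hu)) a ha

theorem ModH.mod2_L_conj (h : ModH d C H b M lam x n P0 P σ ρ j j1 v Y Λ δ A e ζ G0 Ξ) {w : V}
    (hw : T.dist x w ≤ σ) {r : ℕ} (hr : r ≤ 3 * σ) {f : T ≃g T} (hf : f ∈ G0 w) (k : ℕ) :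
    ∀ a ∈ mod2_L Ξ w r ^ k, f * a * f⁻¹ ∈ mod2_L Ξ w r ^ k := by
  have h1 : ∀ a ∈ mod2_L Ξ w r, f * a * f⁻¹ ∈ mod2_L Ξ w r := by
    intro a ha
    rcases mod2_mem_L.1 ha with rfl | ⟨u, hu, ha⟩ | ⟨u, hu, ha⟩
    · exact mod2_mem_L.2 (Or.inl (by simp))
    · exact mod2_mem_L.2 (Or.inr (Or.inl ⟨f u, by rwa [mod2_dist_fix h.mod2_tr (h.mod2_G0_le hw hf)],
        h.mod2_Xi_conj hw (hu.trans hr) hf ha⟩))
    · refine mod2_mem_L.2 (Or.inr (Or.inr ⟨f u, by rwa [mod2_dist_fix h.mod2_tr (h.mod2_G0_le hw hf)], ?_⟩))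
      have e1 : (f * a * f⁻¹)⁻¹ = f * a⁻¹ * f⁻¹ := by group
      rw [e1]
      exact h.mod2_Xi_conj hw (hu.trans hr) hf ha
  induction k with
  | zero =>
    intro a ha
    rw [pow_zero, Set.mem_one] at ha ⊢
    rw [ha]; simp
  | succ k ih =>
    intro a ha
    rw [pow_succ] at ha ⊢
    obtain ⟨a1, ha1, a2, ha2, rfl⟩ := Set.mem_mul.1 ha
    have e1 : f * (a1 * a2) * f⁻¹ = (f * a1 * f⁻¹) * (f * a2 * f⁻¹) := by group
    rw [e1]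
    exact Set.mul_mem_mul (ih a1 ha1) (h1 a2 ha2)

theorem ModH.mod2_finP (h : ModH d C H b M lam x n P0 P σ ρ j j1 v Y Λ δ A e ζ G0 Ξ) : Finite P := by
  have hb := h.hb
  have := h.std.finWd x (r := lam * n) (by nlinarith [Nat.zero_le n, Nat.zero_le (lam * n)])
  exact fin_of_le h.p1

theorem ModH.mod2_finP0 (h : ModH d C H b M lam x n P0 P σ ρ j j1 v Y Λ δ A e ζ G0 Ξ) : Finite P0 := by
  have hb := h.hb
  have := h.std.finWd x (r := lam * n) (by nlinarith [Nat.zero_le n, Nat.zero_le (lam * n)])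
  exact fin_of_le h.p0

theorem ModH.mod2_L_rk (h : ModH d C H b M lam x n P0 P σ ρ j j1 v Y Λ δ A e ζ G0 Ξ) {w : V}
    (hw : T.dist x w ≤ σ) {r : ℕ} (hr : r ≤ 3 * σ) (k : ℕ) :
    ∀ a ∈ mod2_L Ξ w r ^ k, rk P a ≤ k * ((n : ℝ) / (1000 * M)) := by
  have := h.mod2_finP
  have h0 : rk P (1 : T ≃g T) = 0 := rk_of_cent fun m _ => by simp
  have h1 : ∀ a ∈ mod2_L Ξ w r, rk P a ≤ (n : ℝ) / (1000 * M) := by
    intro a ha
    rcases mod2_mem_L.1 ha with rfl | ⟨u, hu, ha⟩ | ⟨u, hu, ha⟩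
    · rw [h0]; positivity
    · exact h.gs.rk1 u (h.mod2_ball hw (hu.trans hr)) a ha
    · rw [← rk_inv]; exact h.gs.rk1 u (h.mod2_ball hw (hu.trans hr)) _ ha
  induction k with
  | zero =>
    intro a ha
    rw [pow_zero, Set.mem_one] at ha
    rw [ha, h0]; simp
  | succ k ih =>
    intro a ha
    rw [pow_succ] at ha
    obtain ⟨a1, ha1, a2, ha2, rfl⟩ := Set.mem_mul.1 ha
    have := rk_mul P a1 a2
    have := ih a1 ha1
    have := h1 a2 ha2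
    push_cast
    linarith

theorem ModH.mod2_Y_conj (h : ModH d C H b M lam x n P0 P σ ρ j j1 v Y Λ δ A e ζ G0 Ξ) {t : ℕ}
    {w : V} (hw : T.dist x w ≤ σ) {β : ℕ} (h2 : β ≤ 2 * σ) {f y : T ≃g T} (hf : f ∈ G0 w)
    (hy : y ∈ Yn H G0 Ξ σ t w β) : f * y * f⁻¹ ∈ Yn H G0 Ξ σ t w β := by
  rw [← h.Yn_conj t hw h2 hf]
  exact conj_mem_cj.2 hy

theorem mod2_ld_stab (hT : T.IsTree) {w : V} {r : ℕ} {s : T ≃g T} (hs : s ∈ Gb H w 0)
    (Q : Subgroup (T ≃g T)) [Finite Q] :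
    ld (cj s (Q ⊓ Wd H b w r)) (Q ⊓ Wd H b w r) ≤ ld (cj s Q) Q := by
  have := fin_cj s Q
  rw [cj_inf, cj_eq_iff.2 (Gb_nz_Wd hT w r hs)]
  exact ld_inf_inf _ _ _

/-- the left end: the given group centralises the words -/
theorem ModH.left (h : ModH d C H b M lam x n P0 P σ ρ j j1 v Y Λ δ A e ζ G0 Ξ) :
    Y ⊓ G0 (v 0) ≤ Yn H G0 Ξ σ (n / (4 * M)) (v 0) (2 * σ) := by
  rintro g ⟨hgY, hg⟩
  have hT := h.mod2_tr
  have N := h.mod2_num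
  obtain ⟨a1, a2, a3, a4, a5, a6, a7, a8, a9, a10, a11, a12, a13, a14⟩ := N
  have h3 := h.loc.h3
  have hM := h.hM
  have hw : T.dist x (v 0) ≤ σ := h.mod2_dv (by omega)
  have hg0 : g ∈ Gb H (v 0) 0 := h.mod2_G0_le hw hg
  refine mod2_Yn.2 ⟨hg, Gb_nz_Gb hT _ _ hg0, fun c hc => ?_⟩
  obtain ⟨hc1, hc8⟩ := mod2_Kn.1 hc
  have e0 : 2 * σ + 1 - 2 * σ = 1 := by omega
  rw [e0] at hc1
  have hc0 : c ∈ Gb H (v 0) 0 := Gb_anti' (by omega) hc1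
  have := h.mod2_finP
  have := h.mod2_finP0
  have hb := h.hb
  have hln : 2 * (lam * n + σ) + 2 ≤ b := by nlinarith [Nat.zero_le (lam * n)]
  have hW : Ab (Wd H b (v 0) (n - σ)) := Wd_ab hT (by omega)
  have := h.std.finWd (v 0) (r := n - σ) (by omega)
  have hWA : Ab (Wd H b (v 0) (lam * n + σ)) := Wd_ab hT hln
  have := h.std.finWd (v 0) (r := lam * n + σ) (by omega)
  -- numerics
  obtain ⟨u, hu⟩ : ∃ u : ℝ, u = (n : ℝ) / M := ⟨_, rfl⟩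
  have hMr : (100 : ℝ) ≤ M := by exact_mod_cast hM
  have eτ : (n : ℝ) / (1000 * M) = u / 1000 := by rw [hu]; field_simp
  have e10 : (n : ℝ) / (10 * M) = u / 10 := by rw [hu]; field_simp
  have hσu : 100000 * (σ : ℝ) ≤ u := by
    rw [hu]; exact mod2_div_ge (a := 100000 * σ) (by push_cast; exact le_rfl) a8
  have hj1σ : (j1 : ℝ) ≤ σ := by exact_mod_cast (by omega : j1 ≤ σ)
  have hσ0 : (0 : ℝ) ≤ σ := Nat.cast_nonneg σ
  have hA := h.hA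
  have he := h.he
  have hnσ : u - σ ≤ ((n - σ : ℕ) : ℝ) / M := by
    rw [Nat.cast_sub (by omega), sub_div, ← hu]
    have : (σ : ℝ) / M ≤ σ := div_le_self hσ0 (by linarith)
    linarith
  have hrc : rk P c ≤ 8 * (u / 1000) := by
    have := h.mod2_L_rk hw (r := σ + 2 * σ) (by omega) 8 c hc8
    rw [eτ] at this
    exact_mod_cast this
  have hst : ∀ f ∈ G0 (v 0), ld (cj f P) P ≤ u / 1000 := fun f hf => by
    rw [← eτ]; exact h.gs.st1 _ (h.mod2_ball0 hw) f hf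
  have hsc : ld (cj c P) P ≤ 8 * (u / 1000) := (ld_cj_le_rk P c).trans hrc
  have hq1 : ⁅g, c⁆ ∈ Gb H (v 0) 1 := mod2_comm_right hT hg0 hc1
  refine Gb_anti' a13 (h.fq (v 0) (n - σ) (P ⊓ Wd H b (v 0) (n - σ)) (G0 (v 0)) ⁅g, c⁆ (by omega)
    (by omega) inf_le_right (h.mod2_dn hw (by linarith)) (fun s hs => ?_) hq1 ?_ ?_)
  · refine (mod2_ld_stab hT (h.mod2_G0_le hw hs) P).trans ((hst s hs).trans ?_)
    linarith
  · refine (rk_mono inf_le_left _).trans ?_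
    rw [commutatorElement_def]
    have h1 := rk_mul P (g * c * g⁻¹) c⁻¹
    have h2 := rk_conj_le P g c
    have h4 := hst g hg
    rw [rk_inv] at h1
    linarith
  · have o1 := h.loc.out1 g hgY
    rw [e10] at o1
    have o2 := o1.inv.conj c
    rw [cj_eq_iff.2 (Gb_nz_Wd hT _ _ hc0), cj_sup, ← cj_mul, inv_mul_cancel, cj_one, cj_sup,
      ← cj_mul] at o2
    have o3 := o1.mul o2
    rw [cj_sup, ← cj_mul, ← cj_mul] at o3
    have e1 : g * (c * g⁻¹ * c⁻¹) = ⁅g, c⁆ := by rw [commutatorElement_def]; group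
    rw [e1] at o3
    have hle : ∀ f ∈ Gb H (v 0) 0, cj f P0 ≤ Wd H b (v 0) (lam * n + σ) := by
      intro f hf
      refine (cj_mono f h.p0).trans ?_
      rw [cj_Wd (Fx_le _ _ hf)]
      refine Wd_le hT ?_
      rw [mod2_dist_fix hT hf, T.dist_comm]
      omega
    have hld : ∀ f : T ≃g T, ld (cj f P0) P ≤ e + ld (cj f P) P := by
      intro f
      have := fin_cj f P0
      have := fin_cj f P
      have h1 := ld_tri (cj f P0) (cj f P) P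
      rw [ld_cj] at h1
      have := h.p2
      linarith
    have l1 : P0 ≤ Wd H b (v 0) (lam * n + σ) := by
      have := hle 1 (one_mem _)
      rwa [cj_one] at this
    have l2 := hle g hg0
    have l3 := hle (g * (c * g⁻¹)) (mul_mem hg0 (mul_mem hc0 (inv_mem hg0)))
    have l4 := hle (g * c) (mul_mem hg0 hc0)
    have l12 := sup_le l1 l2
    have l34 := sup_le l3 l4
    have : Finite ↥(P0 ⊔ cj g P0 ⊔ (cj (g * (c * g⁻¹)) P0 ⊔ cj (g * c) P0)) :=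
      fin_of_le (sup_le l12 l34)
    have hnz := Gb_nz_Wd (b := b) hT (v 0) (n - σ) (Gb_anti' (by omega) hq1)
    refine ((o3.of_ld hW hnz P).inf hnz).mono le_rfl ?_
    have b0 := ld_sup_ab P hWA l12 l34
    have b1 := ld_sup_ab P hWA l1 l2
    have b2 := ld_sup_ab P hWA l3 l4
    have b3 := h.p2
    have b4 := hld g
    have b5 := hld (g * (c * g⁻¹))
    have b6 := hld (g * c)
    have b7 := ld_cj_mul g (c * g⁻¹) P
    have b8 := ld_cj_mul c g⁻¹ P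
    have b9 := ld_cj_inv g P
    have b10 := ld_cj_mul g c P
    have b11 := hst g hg
    linarith

/-- shallow words of length two are also centralised, up to level `j` -/
theorem ModH.cs (h : ModH d C H b M lam x n P0 P σ ρ j j1 v Y Λ δ A e ζ G0 Ξ) {w : V}
    (hw : T.dist x w ≤ σ) {β : ℕ} (hβ : β ≤ 2 * σ) {c y : T ≃g T} (hc : c ∈ G0 w)
    (hc1 : c ∈ Gb H w 1)
    (hc2 : ∃ ξ ∈ ⋃ u ∈ Ball T w σ, Ξ u, ∃ ξ' ∈ ⋃ u ∈ Ball T w σ, Ξ u, c = ξ⁻¹ * ξ')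
    (hy : y ∈ Yn H G0 Ξ σ (n / (4 * M)) w β) : ⁅c, y⁆ ∈ Gb H w j := by
  have hT := h.mod2_tr
  obtain ⟨a1, a2, a3, a4, a5, a6, a7, a8, a9, a10, a11, a12, a13, a14⟩ := h.mod2_num
  have h3 := h.loc.h3
  have hM := h.hM
  have hA := h.hA
  have he := h.he
  have hr : σ + β ≤ 3 * σ := by omega
  have hyG : y ∈ G0 w := (mod2_Yn.1 hy).1
  have hy0 := h.mod2_G0_le hw hyG
  have hc0 := h.mod2_G0_le hw hc
  have hcL : c ∈ mod2_L Ξ w (σ + β) ^ 2 := by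
    obtain ⟨ξ, hξ, ξ', hξ', rfl⟩ := hc2
    simp only [Set.mem_iUnion, exists_prop] at hξ hξ'
    obtain ⟨u, hu, hξ⟩ := hξ
    obtain ⟨u', hu', hξ'⟩ := hξ'
    have hu : T.dist w u ≤ σ := hu
    have hu' : T.dist w u' ≤ σ := hu'
    rw [pow_two]
    exact Set.mul_mem_mul (mod2_mem_L.2 (Or.inr (Or.inr ⟨u, by omega, by simpa using hξ⟩)))
      (mod2_mem_L.2 (Or.inr (Or.inl ⟨u', by omega, hξ'⟩)))
  obtain ⟨z, hz⟩ : ∃ z, z = ⁅c, y⁆ := ⟨_, rfl⟩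
  rw [← hz]
  have hzY : z ∈ Yn H G0 Ξ σ (n / (4 * M)) w β := by
    rw [hz, commutatorElement_def]
    exact mul_mem (h.mod2_Y_conj hw hβ hc hy) (inv_mem hy)
  have hz1 : z ∈ Gb H w 1 := by rw [hz]; exact mod2_comm_left hT hy0 hc1
  have hz0 : z ∈ Gb H w 0 := Gb_anti' (by omega) hz1
  have hzL : z ∈ mod2_L Ξ w (σ + β) ^ 4 := by
    have e1 : z = c * (y * c⁻¹ * y⁻¹) := by rw [hz, commutatorElement_def]; group
    rw [e1]
    exact mod2_L_mul hcL (h.mod2_L_conj hw hr hyG 2 _ (mod2_L_inv hcL))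
  have hdiv : n / (4 * M) / M ≤ (n / (4 * M) + β) / M := Nat.div_le_div_right (by omega)
  have hAj : A ≤ (j1 : ℝ) := by linarith
  have key : ∀ s ∈ G0 w, s ∈ Gb H w (2 * σ + 1 - β) → ⁅s, z⁆ ∈ Gb H w (250 * σ) := by
    intro s hs hs'
    have hq : ∀ f ∈ G0 w, f * ⁅s, z⁆ * f⁻¹ ∈ Kn H Ξ σ w β ∧
        f * ⁅s, z⁆ * f⁻¹ ∈ Yn H G0 Ξ σ (n / (4 * M)) w β := by
      intro f hf
      refine ⟨mod2_Kn.2 ⟨mod2_conj_Gb hT (h.mod2_G0_le hw hf) (mod2_comm_left hT hz0 hs'),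
        h.mod2_L_conj hw hr hf 8 _ ?_⟩, h.mod2_Y_conj hw hβ hf ?_⟩
      · rw [commutatorElement_def]
        exact mod2_L_mul (h.mod2_L_conj hw hr hs 4 _ hzL) (mod2_L_inv hzL)
      · rw [commutatorElement_def]
        exact mul_mem (h.mod2_Y_conj hw hβ hs hzY) (inv_mem hzY)
    refine Gb_anti' (a10.trans hdiv) (h.na w (n / (4 * M) + β) (G0 w) ⁅s, z⁆ (by omega) (by omega)
      (h.mod2_dn hw (mod2_div_ge hAj (by omega))) (Sym.subgroup _)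
      (mod2_comm_right hT (h.mod2_G0_le hw hs) hz1) ?_)
    rintro _ ⟨f, hf, rfl⟩ _ ⟨f', hf', rfl⟩
    exact (mod2_Yn.1 (hq f (pow_subset_subgroup subset_rfl M hf)).2).2.2 _
      (hq f' (pow_subset_subgroup subset_rfl M hf')).1
  by_contra hzj
  have ej : j - 1 + 1 = j := by omega
  have hac := h.std.ac (x := w) (c := z) (i0 := 2 * σ + 1 - β) (i := j - 1) (m := j) hz1
    (by rwa [ej]) (by omega)
  have := h.std.finGb w (2 * σ + 1 - β)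
  have := h.std.finGb w 0
  have hle : Gb H w (2 * σ + 1 - β) ⊓ G0 w ≤
      CM (Gb H w 0) (Gb H w (2 * σ + 1 - β + 2 * (j - 1) + 2 * j)) {z} := by
    rintro s ⟨hs', hs⟩
    refine mod2_CM.2 ⟨h.mod2_G0_le hw hs, Gb_nz_Gb hT _ _ (h.mod2_G0_le hw hs), ?_⟩
    rintro _ rfl
    exact Gb_anti' (by omega) (key s hs hs')
  have b1 := ld_mono_right (Gb H w (2 * σ + 1 - β)) hle
  rw [ld_inf_self] at b1
  have b2 := ld_mono_left (G0 w) (Gb_anti' (H := H) (x := w) (Nat.zero_le (2 * σ + 1 - β)))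
  have b3 := h.gs.idx w (h.mod2_ball0 hw)
  have b4 : (100 : ℝ) * (j1 + 1) ≤ j := by exact_mod_cast a4
  have b5 := Real.log_two_gt_d9
  have b6 : (0 : ℝ) ≤ j1 := Nat.cast_nonneg j1
  nlinarith

/-- discrete intermediate value statement -/
theorem mod2_ivt (Q : ℕ → Prop) (N a : ℕ) (ha : a ≤ N) (h1 : Q a) :
    ∀ (k s : ℕ), Nat.dist a s = k → s ≤ N → ¬ Q s →
      ∃ p p', p ≤ N ∧ p' ≤ N ∧ Nat.dist p' p = 1 ∧ Q p' ∧ ¬ Q p := by
  intro k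
  induction k with
  | zero =>
    intro s hs _ hQ
    have : s = a := by rw [Nat.dist] at hs; omega
    exact absurd (this ▸ h1) hQ
  | succ k ih =>
    intro s hs hN hQ
    rw [Nat.dist] at hs
    by_cases hlt : a < s
    · by_cases hq : Q (s - 1)
      · exact ⟨s, s - 1, hN, by omega, by rw [Nat.dist]; omega, hq, hQ⟩
      · exact ih (s - 1) (by rw [Nat.dist]; omega) (by omega) hq
    · by_cases hq : Q (s + 1)
      · exact ⟨s, s + 1, hN, by omega, by rw [Nat.dist]; omega, hq, hQ⟩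
      · exact ih (s + 1) (by rw [Nat.dist]; omega) (by omega) hq

/-- a word of length two that agrees with an element of the centraliser is deep -/
theorem ModH.deep (h : ModH d C H b M lam x n P0 P σ ρ j j1 v Y Λ δ A e ζ G0 Ξ)
    {c y : T ≃g T} (hc : c ∈ G0 x) (hc1 : c ∈ Gb H x j)
    (hc2 : ∃ ξ ∈ Ξ x, ∃ ξ' ∈ Ξ x, c = ξ⁻¹ * ξ')
    (hy : y ∈ Yn H G0 Ξ σ (n / (4 * M)) x σ)
    (hcy : y⁻¹ * c ∈ Fx H (Nb T (v '' Set.Iic (2 * σ)) j)) : c ∈ Gb H x (ρ / M) := by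
  have hT := h.mod2_tr
  obtain ⟨a1, a2, a3, a4, a5, a6, a7, a8, a9, a10, a11, a12, a13, a14⟩ := h.mod2_num
  have h3 := h.loc.h3
  have hM := h.hM
  have hA := h.hA
  have he := h.he
  have hx : T.dist x x ≤ σ := by simp
  obtain ⟨ξ, hξ, ξ', hξ', hcξ⟩ := hc2
  by_cases hcase : c ∈ Fx H (Nb T (v '' Set.Iic (2 * σ)) j1)
  · have := h.mod2_finP
    have := h.mod2_finP0
    have := h.std.finWd x (r := ρ) (by omega)
    have hW : Ab (Wd H b x ρ) := Wd_ab hT (by omega)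
    obtain ⟨u, hu⟩ : ∃ u : ℝ, u = (ρ : ℝ) / M := ⟨_, rfl⟩
    have hMr : (100 : ℝ) ≤ M := by exact_mod_cast hM
    have e10 : (ρ : ℝ) / (10 * M) = u / 10 := by rw [hu]; field_simp
    have hju : (j1 : ℝ) ≤ u := by rw [hu]; exact mod2_div_ge (a := j1) le_rfl (by omega)
    have hnz := Gb_nz_Wd (b := b) hT x ρ (h.mod2_G0_le hx hc)
    refine h.fq x ρ (P ⊓ Wd H b x ρ) (G0 x) c (by omega) (by omega) inf_le_right
      (h.mod2_dn hx (by linarith)) (fun s hs => ?_) (Gb_anti' (by omega) hc1) ?_ ?_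
    · refine (mod2_ld_stab hT (h.mod2_G0_le hx hs) P).trans ((h.gs.st2 s hs).trans ?_)
      linarith
    · refine (rk_mono inf_le_left _).trans ?_
      have h1 := rk_mul P ξ⁻¹ ξ'
      rw [rk_inv, ← hcξ] at h1
      have := h.gs.rk2 ξ hξ
      have := h.gs.rk2 ξ' hξ'
      linarith
    · have o1 := h.loc.out2 c hcase
      rw [e10] at o1
      refine ((o1.of_ld hW hnz P).inf hnz).mono le_rfl ?_
      have := h.p2
      linarith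
  · exfalso
    have hne : (v '' Set.Iic (2 * σ)).Nonempty := ⟨v 0, 0, Nat.zero_le _, rfl⟩
    rw [mem_Fx_Nb hne] at hcase hcy
    push Not at hcase
    obtain ⟨_, ⟨s, hs, rfl⟩, hcs⟩ := hcase
    obtain ⟨p, p', hp, hp', hpp, hQ', hQ⟩ := mod2_ivt (fun p => c ∈ Gb H (v p) (j1 + 1)) (2 * σ) σ
      (by omega) (by rw [h.loc.mid]; exact Gb_anti' (by omega) hc1) _ s rfl hs
      (fun hh => hcs (Gb_anti' (by omega) hh))
    have hw : T.dist x (v p) ≤ σ := h.mod2_dv hp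
    obtain ⟨w, hwp⟩ : ∃ w, w = v p := ⟨_, rfl⟩
    have hcw : c ∈ Gb H w j1 := by
      rw [hwp]
      refine Gb_anti hT ?_ hQ'
      rw [h.loc.geo p' p hp' hp]; omega
    have hx1 : y⁻¹ * c ∈ Gb H w j := by rw [hwp]; exact hcy _ ⟨p, hp, rfl⟩
    rw [← hwp] at hw hQ
    have hc0 : c ∈ Gb H w 0 := Gb_anti' (by omega) hcw
    have hcw1 : c ∈ Gb H w 1 := Gb_anti' (by omega) hcw
    have hy0 : y ∈ Gb H w 0 := by
      have e1 : y = c * (y⁻¹ * c)⁻¹ := by group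
      rw [e1]
      exact mul_mem hc0 (inv_mem (Gb_anti' (by omega) hx1))
    have hyw : y ∈ Yn H G0 Ξ σ (n / (4 * M)) w 0 :=
      h.Yn_mono _ (h.mod2_ball0 hx) (h.mod2_ball0 hw) (by omega) (by omega) ⟨hy, hy0⟩
    have hcG : c ∈ G0 w := h.gs.cpt x (h.mod2_ball0 hx) w (h.mod2_ball0 hw) ⟨hc, hc0⟩
    have hwx : T.dist w x ≤ σ := by rwa [T.dist_comm]
    have hAj : A ≤ ((j1 + 1 : ℕ) : ℝ) := by push_cast; linarith
    refine hQ (Gb_anti' a5 (h.na w j (G0 w) c (by omega) (by omega)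
      (h.mod2_dn hw (mod2_div_ge hAj a5)) (Sym.subgroup _) hcw1 ?_))
    rintro _ ⟨f, hf, rfl⟩ _ ⟨f', hf', rfl⟩
    have hf : f ∈ G0 w := pow_subset_subgroup subset_rfl M hf
    have hf' : f' ∈ G0 w := pow_subset_subgroup subset_rfl M hf'
    have hf0 := h.mod2_G0_le hw hf
    have hf0' := h.mod2_G0_le hw hf'
    have hXi : ∀ a ∈ Ξ x, f * a * f⁻¹ ∈ ⋃ u ∈ Ball T w σ, Ξ u := by
      intro a ha
      simp only [Set.mem_iUnion, exists_prop]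
      refine ⟨f x, ?_, h.mod2_Xi_conj hw (by omega) hf ha⟩
      show T.dist w (f x) ≤ σ
      rwa [mod2_dist_fix hT hf0]
    have k1 : ⁅f * c * f⁻¹, f' * y * f'⁻¹⁆ ∈ Gb H w j :=
      h.cs hw (Nat.zero_le _) (mul_mem (mul_mem hf hcG) (inv_mem hf)) (mod2_conj_Gb hT hf0 hcw1)
        ⟨_, hXi ξ hξ, _, hXi ξ' hξ', by rw [hcξ]; group⟩ (h.mod2_Y_conj hw (Nat.zero_le _) hf' hyw)
    have k2 : ⁅f * c * f⁻¹, f' * (y⁻¹ * c) * f'⁻¹⁆ ∈ Gb H w j :=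
      mod2_comm_right hT (mod2_conj_Gb hT hf0 hc0) (mod2_conj_Gb hT hf0' hx1)
    have e2 : ⁅f * c * f⁻¹, f' * c * f'⁻¹⁆ = ⁅f * c * f⁻¹, f' * y * f'⁻¹⁆ *
        ((f' * y * f'⁻¹) * ⁅f * c * f⁻¹, f' * (y⁻¹ * c) * f'⁻¹⁆ * (f' * y * f'⁻¹)⁻¹) := by
      simp only [commutatorElement_def]; group
    rw [e2]
    exact mul_mem k1 (mod2_conj_Gb hT (mod2_conj_Gb hT hf0' hy0) k2)

theorem ModH.false (h : ModH d C H b M lam x n P0 P σ ρ j j1 v Y Λ δ A e ζ G0 Ξ) : False := by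
  classical
  have hT := h.mod2_tr
  obtain ⟨a1, a2, a3, a4, a5, a6, a7, a8, a9, a10, a11, a12, a13, a14⟩ := h.mod2_num
  have h3 := h.loc.h3
  have hM := h.hM
  have hA := h.hA
  have he := h.he
  have hx : T.dist x x ≤ σ := by simp
  have hw : T.dist x (v 0) ≤ σ := h.mod2_dv (by omega)
  obtain ⟨R, hR⟩ : ∃ R, R = ρ / M := ⟨_, rfl⟩
  obtain ⟨m, hm⟩ : ∃ m, m = R / 4 := ⟨_, rfl⟩
  rw [← hR] at a6 a7
  have hζ0 : ζ ∈ Gb H x 0 := Gb_anti' (by omega) h.z1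
  have hac := h.std.ac (x := x) (c := ζ) (i0 := j) (i := δ) (m := m) h.z1 h.z2 (by omega)
  have := h.std.finGb x j
  have := h.std.finGb x 0
  have := h.std.finGb (v 0) j
  have := h.std.finGb (v 0) 0
  have hidx : ld (Gb H x j) (Gb H x j ⊓ G0 x) ≤ A := by
    rw [ld_inf_self]
    exact (ld_mono_left (G0 x) (Gb_anti' (Nat.zero_le j))).trans (h.gs.idx x (h.mod2_ball0 hx))
  obtain ⟨F, hF, hcard, hsep⟩ := (Dn.self (inf_le_left : Gb H x j ⊓ G0 x ≤ Gb H x j)).classes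
    (CM (Gb H x 0) (Gb H x (j + 2 * δ + 2 * m)) {ζ})
  have hFj : ∀ a ∈ F, a ∈ Gb H x j := fun a ha => (hF ha).1
  have hFG : ∀ a ∈ F, a ∈ G0 x := fun a ha => (hF ha).2
  have hF0 : ∀ a ∈ F, a ∈ Gb H x 0 := fun a ha => h.mod2_G0_le hx (hFG a ha)
  have hζG : ∀ g ∈ G0 x, ζ⁻¹ * g * ζ ∈ G0 x := by
    intro g hg
    have h1 := ((mem_Gb_zero hT).1 hζ0)
    have h2 := h.gs.eqv ζ h1.1 x (h.mod2_ball0 hx) (by rw [h1.2]; exact h.mod2_ball0 hx)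
    rw [h1.2] at h2
    rw [← h2] at hg
    exact mem_cj.1 hg
  -- separation
  have hsep' : ∀ a ∈ F, ∀ a' ∈ F, a ≠ a' →
      (a' * ζ * a'⁻¹)⁻¹ * (a * ζ * a⁻¹) ∉ Gb H x R := by
    intro a ha a' ha' hne hk
    have h0 : a⁻¹ * a' ∈ Gb H x 0 := mul_mem (inv_mem (hF0 a ha)) (hF0 a' ha')
    refine hsep a ha a' ha' hne (mod2_CM.2 ⟨h0, Gb_nz_Gb hT _ _ h0, ?_⟩)
    intro z hz
    rw [Set.mem_singleton_iff.1 hz]
    have e1 : ⁅a⁻¹ * a', ζ⁆ = (ζ * a⁻¹) * ((a' * ζ * a'⁻¹)⁻¹ * (a * ζ * a⁻¹))⁻¹ * (ζ * a⁻¹)⁻¹ := by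
      simp only [commutatorElement_def]; group
    rw [e1]
    exact mod2_conj_Gb hT (mul_mem hζ0 (inv_mem (hF0 a ha)))
      (inv_mem (Gb_anti' (by omega) hk))
  have hcj : ∀ a ∈ F, ζ⁻¹ * a * ζ * a⁻¹ ∈ Gb H x j := by
    intro a ha
    refine mul_mem ?_ (inv_mem (hFj a ha))
    have := mod2_conj_Gb hT (inv_mem hζ0) (hFj a ha)
    rwa [inv_inv] at this
  have hquot : ∀ a a' : T ≃g T, (ζ⁻¹ * a' * ζ * a'⁻¹)⁻¹ * (ζ⁻¹ * a * ζ * a⁻¹) =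
      (a' * ζ * a'⁻¹)⁻¹ * (a * ζ * a⁻¹) := fun a a' => by group
  have hinj : Set.InjOn (fun a : T ≃g T => ζ⁻¹ * a * ζ * a⁻¹) F := by
    intro a ha a' ha' hEq
    by_contra hne
    refine hsep' a ha a' ha' hne ?_
    have hEq' : ζ⁻¹ * a * ζ * a⁻¹ = ζ⁻¹ * a' * ζ * a'⁻¹ := hEq
    rw [← hquot, hEq', inv_mul_cancel]
    exact one_mem _
  have hX0 : Fx H (Nb T (v '' Set.Iic (2 * σ)) j) ≤ Gb H x j :=
    Fx_Nb_le ⟨σ, (by omega : σ ≤ 2 * σ), h.loc.mid⟩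
  have hX0' : Fx H (Nb T (v '' Set.Iic (2 * σ)) j) ≤ Gb H (v 0) j :=
    Fx_Nb_le ⟨0, Nat.zero_le _, rfl⟩
  have hpos : (0 : ℝ) < F.card := (Real.exp_pos _).trans_le hcard
  have hFne : F.Nonempty := Finset.card_pos.1 (by exact_mod_cast hpos)
  have hdef := ld_deficit (G := Gb H x j)
    (Y := Yn H G0 Ξ σ (n / (4 * M)) x σ ⊓ Gb H x j) inf_le_right hX0
    (F.image fun a : T ≃g T => ζ⁻¹ * a * ζ * a⁻¹)
    (by
      intro k hk
      obtain ⟨a, ha, rfl⟩ := Finset.mem_image.1 (Finset.mem_coe.1 hk)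
      exact hcj a ha)
    (hFne.image _)
    (by
      intro k hk k' hk' hne hmem
      obtain ⟨a, ha, rfl⟩ := Finset.mem_image.1 hk
      obtain ⟨a', ha', rfl⟩ := Finset.mem_image.1 hk'
      have hne' : a ≠ a' := fun hh => hne (by rw [hh])
      have hkj := mul_mem (inv_mem (hcj a' ha')) (hcj a ha)
      have hkG : (ζ⁻¹ * a' * ζ * a'⁻¹)⁻¹ * (ζ⁻¹ * a * ζ * a⁻¹) ∈ G0 x :=
        mul_mem (inv_mem (mul_mem (hζG _ (hFG a' ha')) (inv_mem (hFG a' ha'))))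
          (mul_mem (hζG _ (hFG a ha)) (inv_mem (hFG a ha)))
      rw [hquot] at hmem hkj hkG
      refine hsep' a ha a' ha' hne' ?_
      obtain ⟨_, ⟨y1, hy1, x0, hx0, rfl⟩, y2, hy2, hk⟩ := hmem
      have hk : y1 * x0 * y2 = (a' * ζ * a'⁻¹)⁻¹ * (a * ζ * a⁻¹) := hk
      have hy1G : y1 ∈ G0 x := (mod2_Yn.1 hy1.1).1
      have hXi : ∀ g ∈ F, (y1⁻¹ * g) * ζ * (y1⁻¹ * g)⁻¹ ∈ Ξ x := by
        intro g hg
        have hgG : y1⁻¹ * g ∈ G0 x := mul_mem (inv_mem hy1G) (hFG g hg)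
        have := h.mod2_Xi_conj hx (u := x) (by simp) hgG h.gs.mem
        rwa [((mem_Gb_zero hT).1 (h.mod2_G0_le hx hgG)).2] at this
      have hd := h.deep (c := y1⁻¹ * ((a' * ζ * a'⁻¹)⁻¹ * (a * ζ * a⁻¹))⁻¹ * y1) (y := (y2 * y1)⁻¹)
        (mul_mem (mul_mem (inv_mem hy1G) (inv_mem hkG)) hy1G)
        (mul_mem (mul_mem (inv_mem hy1.2) (inv_mem hkj)) hy1.2)
        ⟨_, hXi a ha, _, hXi a' ha', by group⟩ (inv_mem (mul_mem hy2.1 hy1.1))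
        (by
          rw [← hk]
          have e1 : (y2 * y1)⁻¹⁻¹ * (y1⁻¹ * (y1 * x0 * y2)⁻¹ * y1) = y2 * (y2⁻¹ * x0⁻¹) := by group
          rw [e1, mul_inv_cancel_left]
          exact inv_mem hx0)
      rw [← hR] at hd
      have := inv_mem (mod2_conj_Gb hT (h.mod2_G0_le hx hy1G) hd)
      have e2 : (y1 * (y1⁻¹ * ((a' * ζ * a'⁻¹)⁻¹ * (a * ζ * a⁻¹))⁻¹ * y1) * y1⁻¹)⁻¹ =
          (a' * ζ * a'⁻¹)⁻¹ * (a * ζ * a⁻¹) := by group
      rwa [e2] at this)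
  rw [Finset.card_image_of_injOn hinj] at hdef
  have hlog := (Real.le_log_iff_exp_le hpos).2 hcard
  have hchain := h.chain (n / (4 * M))
  have hfull := h.loc.full
  have : Finite Y := fin_of_le h.loc.le
  have : Finite ↥(Y ⊓ G0 (v 0)) := fin_of_le inf_le_left
  have : Finite ↥(Yn H G0 Ξ σ (n / (4 * M)) (v 0) (2 * σ) ⊓ Gb H (v 0) j) := fin_of_le inf_le_right
  have b1 := ld_tri Y (Y ⊓ G0 (v 0)) (Fx H (Nb T (v '' Set.Iic (2 * σ)) j))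
  rw [ld_inf_self] at b1
  have b2 := ld_mono_left (G0 (v 0)) (h.loc.le.trans (Gb_anti' (Nat.zero_le j)))
  have b3 := h.gs.idx _ (h.mod2_ball0 hw)
  have b4 := ld_mono_left (Fx H (Nb T (v '' Set.Iic (2 * σ)) j))
    (le_inf h.left (inf_le_left.trans h.loc.le))
  have b5 := ld_eq (Gb H (v 0) j) (Fx H (Nb T (v '' Set.Iic (2 * σ)) j))
  have b6 := ld_eq (Gb H x j) (Fx H (Nb T (v '' Set.Iic (2 * σ)) j))
  rw [inf_eq_right.2 hX0'] at b5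
  rw [inf_eq_right.2 hX0] at b6
  have b7 : lc (Gb H (v 0) j) = lc (Gb H x j) := by
    unfold lc; rw [h.std.card_Gb (v 0) x j]
  have hMr : (100 : ℝ) ≤ M := by exact_mod_cast hM
  have c1 : (ρ : ℝ) / (100 * M) ≤ ((R : ℝ) + 1) / 100 := by
    have h1 : ρ < M * (R + 1) := by rw [hR]; exact Nat.lt_mul_div_succ ρ (by omega)
    have h2 : (ρ : ℝ) ≤ M * (R + 1) := by exact_mod_cast h1.le
    rw [div_le_div_iff₀ (by positivity) (by norm_num)]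
    nlinarith
  have c2 : (R : ℝ) ≤ 4 * m + 3 := by exact_mod_cast (by omega : R ≤ 4 * m + 3)
  have c3 : (10000 : ℝ) * (j1 + 1) ≤ R := by exact_mod_cast (by omega : 10000 * (j1 + 1) ≤ R)
  have c4 := Real.log_two_gt_d9
  have c5 : (0 : ℝ) ≤ m := Nat.cast_nonneg m
  have c6 : (m : ℝ) * (1 / 2) ≤ m * Real.log 2 := mul_le_mul_of_nonneg_left (by linarith) c5
  linarith

end Pool.Agent.PSV
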