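import Pool.Agent.Lib.MP_607584_al.PSV.EndB
import Pool.Agent.Lib.MP_607584_al.PSV.EndC
import Pool.Agent.Lib.MP_607584_al.PSV.Mod2

/-! The endgame, part d: assembly. -/

namespace Pool.Agent.PSV

open Subgroup Filter
open scoped Pointwise commutatorElement

variable {V : Type} {T : SimpleGraph V} {d : ℕ} {C : ℝ}

/-- an almost invariant subgroup centralised by a shallow element -/
def PData (H : Subgroup (T ≃g T)) (b : ℕ) (x : V) (r : ℕ) (ε : ℝ) (dep : ℕ)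
    (P0 : Subgroup (T ≃g T)) : Prop :=
  P0 ≤ Wd H b x r ∧ (∃ S, Dn S (Gb H x 0) ε ∧ Sym S ∧ ∀ σ ∈ S, ld (cj σ P0) P0 ≤ ε) ∧
    ∃ u ∈ Gb H x 1, u ∉ Gb H x dep ∧ u ∈ centralizer (P0 : Set (T ≃g T))

/-- the input of the endgame -/
structure EndData (Q : Seq T d C) (M lam : ℕ) (P0 : ℕ → Subgroup (T ≃g T)) : Prop where
  hM : 100 ≤ M
  na : ∀ k, NAf (Q.H k) (Q.b k) M ∧ FQf (Q.H k) (Q.b k) M
  hb : ∀ᶠ k in om, 4 * (lam + 2) * Q.n k ≤ Q.b k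
  pd : ∀ m : ℕ, ∀ᶠ k in om, PData (Q.H k) (Q.b k) (Q.x k) (lam * Q.n k)
    ((Q.n k : ℝ) / (m + 1)) (Q.n k / (m + 1)) (P0 k)
  loc : ∀ m : ℕ, ∃ m' : ℕ, ∀ᶠ k in om, ∃ σ ρ j j1 v Y, (m + 1) * σ ≤ Q.n k ∧
    Q.n k ≤ (m' + 1) * j1 ∧ LocD (Q.H k) (Q.b k) M (Q.x k) (Q.n k) (P0 k) σ ρ j j1 v Y

theorem endD_gs {H : Subgroup (T ≃g T)} {x : V} {Λ : ℕ} {A τ e e' : ℝ} {P : Subgroup (T ≃g T)}
    {ζ : T ≃g T} {G0 : V → Subgroup (T ≃g T)} {Ξ : V → Set (T ≃g T)}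
    (h : GS H x Λ A τ e P ζ G0 Ξ) (he : e ≤ e') : GS H x Λ A τ e' P ζ G0 Ξ :=
  { h with
    rk2 := fun ξ hξ => (h.rk2 ξ hξ).trans he
    st2 := fun f hf => (h.st2 f hf).trans he }

theorem EndData.false {Q : Seq T d C} {M lam : ℕ} {P0 : ℕ → Subgroup (T ≃g T)}
    (h : EndData Q M lam P0) : False := by
  obtain ⟨μ, hμ, hP⟩ := slow_diag h.pd
  have hP1 := hP.mono fun k hk => hk (μ k) le_rfl
  obtain ⟨S, hS⟩ := ev_choice (hP1.mono fun k hk => hk.2.1)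
  obtain ⟨u, hu⟩ := ev_choice (hP1.mono fun k hk => hk.2.2)
  have hη : Sm Q.n fun k => (Q.n k : ℝ) / (μ k + 1) :=
    (Sm.div Q.hn hμ 1).of_le (Eventually.of_forall fun k => (one_mul _).ge)
  have hqi : Q.QI P0 := ⟨S, ⟨_, hη, hS.mono fun k hk => ⟨hk.1, hk.2.1⟩⟩, fun σ hσ =>
    hη.of_le ((hS.and hσ).mono fun k hk => hk.1.2.2 _ hk.2)⟩
  have hdep : Q.Dep0 u := ⟨hu.mono fun k hk => hk.1, fun m =>
    (hu.and (hμ.eventually_ge_atTop m)).mono fun k hk hm =>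
      hk.1.2.1 (Gb_anti' (Nat.div_le_div_left (Nat.succ_le_succ hk.2) (Nat.succ_pos m)) hm)⟩
  have hrk : Q.Rk P0 u := (Sm.const Q.hn 0).of_le (hu.mono fun k hk =>
    (rk_of_cent fun m hm => (mem_centralizer_iff.mp hk.2.2 m hm).symm).le)
  obtain ⟨P, ζ, hmax, hle⟩ := Q.exists_max lam h.hb (hP1.mono fun k hk => hk.1) hqi hdep hrk
  have hM0 : 0 < M := by have := h.hM; omega
  obtain ⟨A0, hA0⟩ := hmax.classes hM0 fun k => (h.na k).1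
  obtain ⟨A, m, e, hA, he, hgs⟩ := hmax.gs hA0 (τ := 1 / (1000 * M)) (by positivity)
  obtain ⟨m', hloc⟩ := h.loc (10 * (m + 1) + 1000 * M ^ 2)
  obtain ⟨δ, hδ, hζ⟩ := hmax.dep.2.depth
  have hsm : Sm Q.n fun k => (1000 * M : ℝ) * (A + (e k + ld (P0 k) (P k)) + δ k + M + 1) :=
    (((((Sm.const Q.hn A).add (he.add hle)).add hδ).add (Sm.const Q.hn M)).add
      (Sm.const Q.hn 1)).mul (by positivity)
  obtain ⟨k, ⟨he0, G0, Ξ, hg⟩, ⟨σ, ρ, j, j1, v, Y, l1, l2, l3⟩, z2, s1, b1, p1, p0, z1⟩ :=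
    (hgs.and (hloc.and (hζ.and ((sm_iff.mp hsm m').and (hmax.hb.and (hmax.le.and
      (hP1.and hmax.dep.1))))))).exists
  have e1 : 1 / (1000 * (M : ℝ)) * Q.n k = (Q.n k : ℝ) / (1000 * M) := by ring
  rw [e1] at hg
  have d0 := ld_nonneg (P0 k) (P k)
  refine ModH.false (d := d) (C := C) (lam := lam + 1) (P := P k) (Λ := Q.n k / (m + 1))
    (δ := δ k) (A := A) (e := e k + ld (P0 k) (P k)) (ζ := ζ k) (G0 := G0) (Ξ := Ξ)
    ⟨Q.std k, (h.na k).1, (h.na k).2, h.hM, l3, endD_gs hg (by linarith), ?_, b1, ?_, hA,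
      by linarith, s1.trans ?_, p0.1.trans (Wd_le (Q.std k).tree ?_), p1, by linarith, z1, z2⟩
  · rw [Nat.le_div_iff_mul_le (Nat.succ_pos m)]
    refine le_trans ?_ l1
    nlinarith [Nat.zero_le (M ^ 2 * σ), Nat.zero_le σ]
  · refine le_trans (Nat.mul_le_mul_right σ ?_) l1
    omega
  · rw [div_le_iff₀ (by positivity)]
    have : (Q.n k : ℝ) ≤ ((m' + 1) * j1 : ℕ) := by exact_mod_cast l2
    push_cast at this
    linarith
  · rw [SimpleGraph.dist_self, zero_add]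
    exact Nat.mul_le_mul_right _ (Nat.le_succ lam)

end Pool.Agent.PSV
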