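import Pool.Agent.Lib.MP_607584_al.PSV.ChC
import Pool.Agent.Lib.MP_607584_al.PSV.Bas2
import Pool.Agent.Lib.MP_607584_al.PSV.Cnt2

/-! Segments of the line and the groups attached to them. -/

namespace Pool.Agent.PSV

open Subgroup
open scoped Pointwise commutatorElement

variable {V : Type} {T : SimpleGraph V} {H : Subgroup (T ≃g T)} {b L N : ℕ}

/-- the window of radius `X` around `i` lies inside the good range -/
def Inside (N X : ℕ) (i : ℤ) : Prop := (X : ℤ) ≤ i ∧ i + X < N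

namespace UData

variable (D : UData H b L N)

/-- the line, extended by constants -/
def xz (t : ℤ) : V := D.x (min t.toNat (2 * N))

/-- a segment of the line -/
def Seg (a a' : ℤ) : Set V := D.xz '' Set.Icc a a'

/-- the top groups near a segment -/
def Sg (r : ℕ) (a a' : ℤ) : Subgroup (T ≃g T) := Md H b (Nb T (D.Seg a a') r)

/-- the fixer of a neighbourhood of a segment -/
def Fg (r : ℕ) (a a' : ℤ) : Subgroup (T ≃g T) := Fx H (Nb T (D.Seg a a') r)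

/-- the top groups near a point of the line -/
def Wz (i : ℤ) (r : ℕ) : Subgroup (T ≃g T) := Wd H b (D.xz i) r

/-- the far groups -/
def Uz (t : ℤ) : Subgroup (T ≃g T) := D.U t.toNat

/-- their centralisers -/
def Lam (t : ℤ) : Subgroup (T ≃g T) := centralizer (D.Uz t : Set (T ≃g T))

/-- every cell of size `u` within `X` cells of `i` contains a good position -/
def NoGap (u X : ℕ) (i : ℤ) : Prop :=
  ∀ c : ℤ, -(X : ℤ) ≤ c → c < X → ∃ p ∈ D.good, i + c * u ≤ p ∧ (p : ℤ) < i + (c + 1) * u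

theorem dist_le (hT : T.IsTree) (s t : ℤ) : (T.dist (D.xz s) (D.xz t) : ℤ) ≤ |s - t| := by
  have _ := hT
  rw [xz, xz, D.geo _ _ (min_le_right _ _) (min_le_right _ _), Nat.dist]
  rcases abs_cases (s - t) with h | h <;> omega

theorem dist_eq {s t : ℤ} (h1 : 0 ≤ s) (h2 : s ≤ 2 * N) (h3 : 0 ≤ t) (h4 : t ≤ 2 * N) :
    (T.dist (D.xz s) (D.xz t) : ℤ) = |s - t| := by
  rw [xz, xz, D.geo _ _ (min_le_right _ _) (min_le_right _ _), Nat.dist]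
  rcases abs_cases (s - t) with h | h <;> omega

theorem Seg_mono {a a' c c' : ℤ} (h1 : c ≤ a) (h2 : a' ≤ c') : D.Seg a a' ⊆ D.Seg c c' :=
  Set.image_mono (Set.Icc_subset_Icc h1 h2)

theorem Seg_union {a a' a'' : ℤ} (h1 : a ≤ a') (h2 : a' ≤ a'') :
    D.Seg a a'' = D.Seg a a' ∪ D.Seg a' a'' := by
  rw [Seg, Seg, Seg, ← Set.image_union, Set.Icc_union_Icc_eq_Icc h1 h2]

theorem Sg_mono {r r' : ℕ} {a a' c c' : ℤ} (h : r ≤ r') (h1 : c ≤ a) (h2 : a' ≤ c') :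
    D.Sg r a a' ≤ D.Sg r' c c' := Md_mono (Nb_mono (D.Seg_mono h1 h2) h)

theorem Fg_anti {r r' : ℕ} {a a' c c' : ℤ} (h : r ≤ r') (h1 : c ≤ a) (h2 : a' ≤ c') :
    D.Fg r' c c' ≤ D.Fg r a a' := Fx_anti (Nb_mono (D.Seg_mono h1 h2) h)

theorem Sg_union (r : ℕ) {a a' a'' : ℤ} (h1 : a ≤ a') (h2 : a' ≤ a'') :
    D.Sg r a a'' = D.Sg r a a' ⊔ D.Sg r a' a'' := by
  rw [Sg, Sg, Sg, D.Seg_union h1 h2, Nb_union, Md_union]

theorem Wz_le_Sg {r r' : ℕ} {i a a' : ℤ} (h : r ≤ r') (h1 : a ≤ i) (h2 : i ≤ a') :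
    D.Wz i r ≤ D.Sg r' a a' :=
  Md_mono fun _ hv => ⟨_, ⟨i, ⟨h1, h2⟩, rfl⟩, le_trans hv h⟩

theorem Sg_le_Wz (hT : T.IsTree) {r r' X : ℕ} {i a a' : ℤ} (h1 : i - X ≤ a) (h2 : a' ≤ i + X)
    (h : X + r ≤ r') : D.Sg r a a' ≤ D.Wz i r' := by
  refine Md_mono ((Nb_subset_Ball hT (x := D.xz i) (r := X) ?_).trans fun v hv => le_trans hv h)
  rintro _ ⟨t, ⟨h3, h4⟩, rfl⟩
  have h5 := (D.dist_le hT i t).trans (abs_le.2 ⟨by omega, by omega⟩ : |i - t| ≤ X)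
  exact_mod_cast h5

theorem Wz_le_Wz (hT : T.IsTree) {r r' X : ℕ} {i t : ℤ} (h1 : |i - t| ≤ X) (h : X + r ≤ r') :
    D.Wz t r ≤ D.Wz i r' := by
  have h2 := (D.dist_le hT i t).trans h1
  exact Wd_le hT (by omega)

theorem Fg_le_Gb {r r' : ℕ} {i a a' : ℤ} (h : r ≤ r') (h1 : a ≤ i) (h2 : i ≤ a') :
    D.Fg r' a a' ≤ Gb H (D.xz i) r :=
  (Fx_Nb_le (S := D.Seg a a') ⟨i, ⟨h1, h2⟩, rfl⟩).trans (Gb_anti' h)

theorem Fg_cent (hT : T.IsTree) {r r' : ℕ} {a a' c c' : ℤ} (h : r + 2 ≤ r') (h1 : c ≤ a)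
    (h2 : a' ≤ c') : D.Fg r' c c' ≤ centralizer (D.Sg r a a' : Set (T ≃g T)) :=
  (D.Fg_anti h h1 h2).trans ((Fx_anti (Nb_Nb hT)).trans (Fx_cent_Md hT _))

theorem Fg_nz (hT : T.IsTree) (r r' : ℕ) {a a' c c' : ℤ} (h1 : c ≤ a) (h2 : a' ≤ c') :
    D.Fg r' c c' ≤ normalizer (D.Sg r a a' : Set (T ≃g T)) :=
  (D.Fg_anti (Nat.zero_le r') h1 h2).trans ((Fx_anti (Nb_zero hT _).ge).trans (Fx_nz_Md _ r))

theorem Uz_mono : Monotone D.Uz := fun _ _ h => D.mono (Int.toNat_le_toNat h)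

theorem Lam_anti : Antitone D.Lam := fun _ _ h => centralizer_le (D.Uz_mono h)

theorem Uz_le_Fg {r : ℕ} {t a a' : ℤ} (h0 : 0 ≤ t) (h1 : t + L * r ≤ a) (h2 : a ≤ a')
    (h3 : a' ≤ 2 * N) (h4 : r ≤ N) : D.Uz t ≤ D.Fg r a a' := by
  intro g hg
  refine (mem_Fx_Nb (S := D.Seg a a') ⟨_, a, ⟨le_rfl, h2⟩, rfl⟩).2 ?_
  rintro _ ⟨s, ⟨h5, h6⟩, rfl⟩
  refine D.cone t.toNat _ r ?_ (min_le_right _ _) h4 hg
  rw [← Nat.cast_mul] at h1
  omega

/-- the graded piece at `t` is generated near `t` -/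
def GoodT (u K r r' : ℕ) (ε : ℝ) (t : ℤ) : Prop :=
  ld (D.Lam (t - K * u) ⊓ D.Wz t (r' * u))
    ((D.Lam t ⊓ D.Wz t (r' * u)) ⊔ (D.Lam (t - K * u) ⊓ D.Wz t (r * u))) ≤ ε

/-- plateau towards the past -/
def PlM (u s r R1 R X : ℕ) (ε : ℝ) (i : ℤ) : Prop :=
  ld (D.Wz i (s * u) ⊓ D.Sg (r * u) (i - X * u) (i - R1 * u))
    (D.Sg (r * u) (i - X * u) (i - R * u)) ≤ ε

/-- plateau towards the future -/
def PlP (u s r R1 R X : ℕ) (ε : ℝ) (i : ℤ) : Prop :=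
  ld (D.Wz i (s * u) ⊓ D.Sg (r * u) (i + R1 * u) (i + X * u))
    (D.Sg (r * u) (i + R * u) (i + X * u)) ≤ ε

/-- from the past to the future -/
def TsM (u s r R X R' X' : ℕ) (ε : ℝ) (i : ℤ) : Prop :=
  ld (D.Wz i (s * u) ⊓ D.Sg (r * u) (i - X * u) (i - R * u))
    (D.Sg (r * u) (i + R' * u) (i + X' * u)) ≤ ε

/-- from the future to the past -/
def TsP (u s r R X R' X' : ℕ) (ε : ℝ) (i : ℤ) : Prop :=
  ld (D.Wz i (s * u) ⊓ D.Sg (r * u) (i + R' * u) (i + X' * u))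
    (D.Sg (r * u) (i - X * u) (i - R * u)) ≤ ε

/-- the product of the stabilisers of the past and of the future is dense -/
def Path (X : ℕ) (ε : ℝ) (i : ℤ) : Prop :=
  Dn ((D.Fg 0 (i - X) i : Set (T ≃g T)) * (D.Fg 0 i (i + X) : Set (T ≃g T))) (Gb H (D.xz i) 0) ε

/-- decomposition with a thick past -/
def DecM (a n G l : ℕ) (ε : ℝ) (i : ℤ) : Prop :=
  ld (D.Wz i n) (D.Sg a (i - l * n) (i + l * n) ⊔ D.Sg n (i - l * n) (i - G * n)) ≤ ε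

/-- decomposition with a thick future -/
def DecP (a n G l : ℕ) (ε : ℝ) (i : ℤ) : Prop :=
  ld (D.Wz i n) (D.Sg a (i - l * n) (i + l * n) ⊔ D.Sg n (i + G * n) (i + l * n)) ≤ ε

/-- fixing a thick far past costs little freedom in the near future -/
def Fwd (j y n G l : ℕ) (ε : ℝ) (i : ℤ) : Prop :=
  ld (Gb H (D.xz i) j) (D.Fg j i (i + y)) ≤
    ld (D.Fg (2 * n) (i - l * n) (i - G * n) ⊓ D.Fg j (i - G * n) i) (D.Fg j i (i + y)) + ε

/-- the far group fixes thin neighbourhoods of all continuations of the past -/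
def Fixes (r Mp Dp Bf : ℕ) (i : ℤ) : Prop :=
  ∀ h ∈ D.Fg 0 (i - Mp) i, D.Uz (i - Dp) ≤ cj h (D.Fg r i (i + Bf))

end UData

end Pool.Agent.PSV
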