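import Pool.Agent.Lib.MP_607584_al.PSV.Ctx

/-! Typical positions, part b: decompositions and graded pieces. -/

namespace Pool.Agent.PSV

open Subgroup Filter
open scoped Pointwise commutatorElement

variable {V : Type} {T : SimpleGraph V} {d : ℕ} {C : ℝ} {L : ℕ}

private theorem mlb_ev (c : Ctx T d C L) (R : ℕ) :
    ∀ᶠ k in om, ∀ e, e ≤ 2 * c.s.E k → 2 * (R * 2 ^ e) + 2 ≤ c.b k := by
  filter_upwards [c.small (R + 1)] with k hk e he
  have h1 := hk e he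
  have h2 := c.hb k
  have h3 : 1 ≤ 2 ^ e := Nat.one_le_two_pow
  have h4 : (R + 1) * 2 ^ e = R * 2 ^ e + 2 ^ e := by ring
  omega

private theorem mlb_fin (c : Ctx T d C L) {k r : ℕ} (h : 2 * r + 2 ≤ c.b k) (i : ℤ) :
    Finite ((c.D k).Wz i r) := (c.std k).toHyp.finWd _ (by omega)

private theorem mlb_ab (c : Ctx T d C L) {k r : ℕ} (h : 2 * r + 2 ≤ c.b k) (i : ℤ) :
    Ab ((c.D k).Wz i r) := Wd_ab (c.std k).tree h

private theorem mlb_lc (c : Ctx T d C L) {k R e : ℕ} (h : 2 * (R * 2 ^ e) + 2 ≤ c.b k) (i : ℤ) :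
    lc ((c.D k).Wz i (R * 2 ^ e)) ≤ C * (R + 1) * 2 ^ e := by
  have h1 := (c.std k).grow ((c.D k).xz i) (R * 2 ^ e) (by omega)
  have h2 := (c.std k).one_le
  have h3 : (1 : ℝ) ≤ 2 ^ e := one_le_pow₀ (by norm_num)
  refine h1.trans ?_
  push_cast
  rw [mul_assoc]
  refine mul_le_mul_of_nonneg_left ?_ (by linarith)
  linarith

private theorem mlb_bd (c : Ctx T d C L) (R : ℕ) {X Y : ℕ → ℕ → ℤ → Subgroup (T ≃g T)}
    (hX : ∀ k e i, X k e i ≤ (c.D k).Wz i (R * 2 ^ e)) :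
    c.s.Bd fun k e i => ld (X k e i) (Y k e i) / 2 ^ e := by
  refine ⟨C * (R + 1), ?_⟩
  filter_upwards [mlb_ev c R] with k hk e he i
  have h := hk e he
  have := mlb_fin c h i
  have : Finite (X k e i) := fin_of_le (hX k e i)
  have h0 : (0 : ℝ) < 2 ^ e := by positivity
  rw [abs_of_nonneg (div_nonneg (ld_nonneg _ _) h0.le), div_le_iff₀ h0]
  exact (ld_le_lc _ _).trans ((lc_mono (hX k e i)).trans (mlb_lc c h i))

private theorem mlb_markov (c : Ctx T d C L) (R : ℕ) {X Y : ℕ → ℕ → ℤ → Subgroup (T ≃g T)}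
    (hX : ∀ k e i, X k e i ≤ (c.D k).Wz i (R * 2 ^ e)) {ε : ℝ} (hε : 0 < ε)
    (h : c.s.Ex (fun k e i => ld (X k e i) (Y k e i) / 2 ^ e) ≤ ε ^ 2) :
    c.s.Pr (fun k e i => ¬ ld (X k e i) (Y k e i) ≤ ε * 2 ^ e) ≤ ε := by
  have h1 := Sch.markov (mlb_bd c R (Y := Y) hX)
    (Eventually.of_forall fun k e _ _ i _ _ => div_nonneg (ld_nonneg _ _) (by positivity)) hε
  have h2 : c.s.Pr (fun k e i => ¬ ld (X k e i) (Y k e i) ≤ ε * 2 ^ e) ≤
      c.s.Pr (fun k e i => ε < ld (X k e i) (Y k e i) / 2 ^ e) :=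
    Sch.Pr_mono (Eventually.of_forall fun k e _ _ i _ _ hh => by
      rw [lt_div_iff₀ (by positivity)]
      exact not_le.1 hh)
  refine h2.trans (h1.trans ?_)
  rw [div_le_iff₀ hε]
  linarith [sq ε]

private theorem mlb_box_fin (r : ℕ) (a a' : ℤ) : (Function.support (box r a a')).Finite := by
  refine (Set.finite_Ico a a').subset fun t ht => ?_
  by_contra hcon
  exact ht (if_neg hcon)

private theorem mlb_sup_fin {ψ χ : ℤ → ℕ} (h : (Function.support ψ).Finite)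
    (h' : (Function.support χ).Finite) : (Function.support (ψ ⊔ χ)).Finite := by
  refine (h.union h').subset fun t ht => ?_
  by_contra hcon
  rw [Set.mem_union, not_or, Function.notMem_support, Function.notMem_support] at hcon
  apply ht
  simp [hcon.1, hcon.2]

/-- the increment of the entropy functional bounds the mean of the index -/
private theorem mlb_key (c : Ctx T d C L) {ψ χ : ℤ → ℕ} (hψ : (Function.support ψ).Finite)
    (hχ : (Function.support χ).Finite) (m X R : ℕ) (s : ℕ → ℤ) (hs : ∀ e, |s e| ≤ X * 2 ^ e)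
    {Y : ℕ → ℕ → ℤ → Subgroup (T ≃g T)}
    (h1 : ∀ k e i, m ≤ e → (c.D k).Wz i (2 ^ e) ≤
      Md (c.H k) (c.b k) (c.Reg k (e - m) (i + s e) ψ))
    (h2 : ∀ k e i, m ≤ e → Md (c.H k) (c.b k) (c.Reg k (e - m) (i + s e) χ) ≤ Y k e i)
    (h3 : ∀ k e i, m ≤ e → Md (c.H k) (c.b k) (c.Reg k (e - m) (i + s e) ψ) ≤
      (c.D k).Wz i (R * 2 ^ e))
    (h4 : ∀ k e i, m ≤ e → Md (c.H k) (c.b k) (c.Reg k (e - m) (i + s e) χ) ≤
      (c.D k).Wz i (R * 2 ^ e))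
    {ε : ℝ} (hε : 0 < ε) (h : c.s.Ex (c.fM (ψ ⊔ χ)) - c.s.Ex (c.fM χ) ≤ ε ^ 2 * 2 ^ m) :
    c.s.Pr (fun k e i => ¬ ld ((c.D k).Wz i (2 ^ e)) (Y k e i) ≤ ε * 2 ^ e) ≤ ε := by
  have hX : ∀ k e i, (c.D k).Wz i (2 ^ e) ≤ (c.D k).Wz i (1 * 2 ^ e) := fun k e i => by
    rw [one_mul]
  refine mlb_markov c 1 hX hε ?_
  have b1 := c.bd_fM (mlb_sup_fin hψ hχ)
  have b2 := c.bd_fM hχ
  have b3 := (b1.shift m s).sub (b2.shift m s)
  have hm : ∀ᶠ k in om, m ≤ c.s.E k := c.s.hE.eventually (eventually_ge_atTop m)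
  have key := Sch.Ex_mono (mlb_bd c 1 (Y := Y) hX) (b3.mul (1 / 2 ^ m)) (by
    filter_upwards [mlb_ev c R, mlb_ev c 1, hm] with k hk hk1 hkm e he he' i _ _
    have hme : m ≤ e := hkm.trans he
    have hR := hk e he'.le
    have hR1 := hk1 e he'.le
    rw [one_mul] at hR1
    have := mlb_fin c hR i
    have := mlb_fin c hR1 i
    have a1 := ld_le_incr (mlb_ab c hR i) (h1 k e i hme) (h3 k e i hme) (h4 k e i hme)
    have a2 := ld_mono_right ((c.D k).Wz i (2 ^ e)) (h2 k e i hme)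
    have e1 : (2 : ℝ) ^ e = 2 ^ m * 2 ^ (e - m) := by
      rw [← pow_add, Nat.add_sub_cancel' hme]
    simp only [Ctx.fM]
    rw [c.Reg_sup, Md_union, ← sub_div, e1, div_mul_div_comm, one_mul]
    exact div_le_div_of_nonneg_right (a2.trans a1) (by positivity))
  refine key.trans ?_
  rw [Sch.Ex_mul b3, Sch.Ex_sub (b1.shift m s) (b2.shift m s), Sch.Ex_shift b1 m X s hs,
    Sch.Ex_shift b2 m X s hs, one_div, inv_mul_le_iff₀ (by positivity)]
  linarith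

private theorem mlb_Md_box (c : Ctx T d C L) (k e : ℕ) (i : ℤ) {r : ℕ} {a a' : ℤ} (hr : 1 ≤ r)
    (h : a < a') : Md (c.H k) (c.b k) (c.Reg k e i (box r a a')) =
      (c.D k).Sg (r * 2 ^ e) (i + a * 2 ^ e) (i + a' * 2 ^ e) := by
  rw [c.Reg_box k e i hr h]; rfl

private theorem mlb_pow {m e : ℕ} (h : m ≤ e) : 2 ^ m * 2 ^ (e - m) = 2 ^ e := by
  rw [← pow_add, Nat.add_sub_cancel' h]

private theorem mlb_powz {m e : ℕ} (h : m ≤ e) : (2 : ℤ) ^ m * 2 ^ (e - m) = 2 ^ e := by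
  rw [← pow_add, Nat.add_sub_cancel' h]

/-- a box at the finer scale whose ends are multiples of the coarser scale -/
private theorem mlb_Md_box' (c : Ctx T d C L) (k : ℕ) {m e : ℕ} (hme : m ≤ e) (i : ℤ) {r : ℕ}
    {a a' : ℤ} (x x' : ℤ) (hr : 1 ≤ r) (h : x < x') (ha : a = x * 2 ^ m) (ha' : a' = x' * 2 ^ m) :
    Md (c.H k) (c.b k) (c.Reg k (e - m) i (box r a a')) =
      (c.D k).Sg (r * 2 ^ (e - m)) (i + x * 2 ^ e) (i + x' * 2 ^ e) := by
  have h0 : (0 : ℤ) < 2 ^ m := by positivity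
  rw [mlb_Md_box c k _ i hr (by rw [ha, ha']; exact mul_lt_mul_of_pos_right h h0), ha, ha',
    mul_assoc x, mul_assoc x', mlb_powz hme]

theorem Ctx.decM (c : Ctx T d C L) (G : ℕ) (hG : 1 ≤ G) {ε : ℝ} (hε : 0 < ε) :
    ∃ l0 : ℕ, G < l0 ∧ ∀ l m : ℕ, l0 ≤ l →
      c.s.Pr (fun k e i => ¬ (c.D k).DecM (2 ^ (e - m)) (2 ^ e) G l (ε * 2 ^ e) i) ≤ ε := by
  obtain ⟨l0, hl0, H⟩ := c.phiM.dec 1 G le_rfl hG (pow_pos hε 2)
  refine ⟨G + l0, by omega, fun l m hl => ?_⟩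
  have hm1 : 1 ≤ 1 * 2 ^ m := by rw [one_mul]; exact Nat.one_le_two_pow
  have h := H l0 m 1 le_rfl le_rfl hm1
  have hG' : (0 : ℤ) < G := by exact_mod_cast hG
  have hl0' : (0 : ℤ) < l0 := by exact_mod_cast hl0
  have hl' : (G : ℤ) + l0 ≤ l := by exact_mod_cast hl
  have e1 : ∀ k e i, m ≤ e → Md (c.H k) (c.b k) (c.Reg k (e - m) (i + -(G * 2 ^ e))
      (box (1 * 2 ^ m) 0 (G * 2 ^ m))) = (c.D k).Sg (2 ^ e) (i - G * 2 ^ e) i := by
    intro k e i hme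
    rw [mlb_Md_box' c k hme _ 0 G hm1 hG' (by ring) rfl, one_mul, mlb_pow hme]
    congr 1 <;> ring
  have e2 : ∀ k e i, m ≤ e → Md (c.H k) (c.b k) (c.Reg k (e - m) (i + -(G * 2 ^ e))
      (box 1 (-(l0 * 2 ^ m)) (l0 * 2 ^ m) ⊔ box (1 * 2 ^ m) (-(l0 * 2 ^ m)) 0)) =
      (c.D k).Sg (2 ^ (e - m)) (i - (G + l0) * 2 ^ e) (i + (l0 - G) * 2 ^ e) ⊔
        (c.D k).Sg (2 ^ e) (i - (G + l0) * 2 ^ e) (i - G * 2 ^ e) := by
    intro k e i hme
    rw [c.Reg_sup, Md_union, mlb_Md_box' c k hme _ (-l0) l0 le_rfl (by linarith) (by ring) rfl,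
      mlb_Md_box' c k hme _ (-l0) 0 hm1 (by linarith) (by ring) (by ring), one_mul, one_mul,
      mlb_pow hme]
    congr 2 <;> ring
  refine mlb_key c (mlb_box_fin _ _ _) (mlb_sup_fin (mlb_box_fin _ _ _) (mlb_box_fin _ _ _)) m G
    (G + l0 + 1) (fun e => -(G * 2 ^ e)) (fun e => by rw [abs_neg, abs_of_nonneg (by positivity)])
    ?_ ?_ ?_ ?_ hε h
  · intro k e i hme
    have h0 : (0 : ℤ) < 2 ^ e := by positivity
    rw [e1 k e i hme]
    exact (c.D k).Wz_le_Sg le_rfl (by nlinarith) le_rfl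
  · intro k e i hme
    have h0 : (0 : ℤ) < 2 ^ e := by positivity
    rw [e2 k e i hme]
    refine sup_le_sup ((c.D k).Sg_mono le_rfl ?_ ?_) ((c.D k).Sg_mono le_rfl ?_ ?_) <;>
      push_cast <;> nlinarith
  · intro k e i hme
    have h0 : (0 : ℤ) < 2 ^ e := by positivity
    rw [e1 k e i hme]
    refine (c.D k).Sg_le_Wz (c.std k).tree (X := (G + l0) * 2 ^ e) ?_ ?_ (le_of_eq (by ring)) <;>
      push_cast <;> nlinarith
  · intro k e i hme
    have h0 : (0 : ℤ) < 2 ^ e := by positivity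
    have h1 : 2 ^ (e - m) ≤ 2 ^ e := Nat.pow_le_pow_right (by norm_num) (Nat.sub_le e m)
    rw [e2 k e i hme]
    refine sup_le ((c.D k).Sg_le_Wz (c.std k).tree (X := (G + l0) * 2 ^ e) ?_ ?_ (by nlinarith))
      ((c.D k).Sg_le_Wz (c.std k).tree (X := (G + l0) * 2 ^ e) ?_ ?_ (le_of_eq (by ring))) <;>
      push_cast <;> nlinarith

theorem Ctx.decP (c : Ctx T d C L) (G : ℕ) (hG : 1 ≤ G) {ε : ℝ} (hε : 0 < ε) :
    ∃ l0 : ℕ, G < l0 ∧ ∀ l m : ℕ, l0 ≤ l →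
      c.s.Pr (fun k e i => ¬ (c.D k).DecP (2 ^ (e - m)) (2 ^ e) G l (ε * 2 ^ e) i) ≤ ε := by
  obtain ⟨l0, hl0, H⟩ := c.phiM.refl.dec 1 G le_rfl hG (pow_pos hε 2)
  refine ⟨G + l0, by omega, fun l m hl => ?_⟩
  have hm1 : 1 ≤ 1 * 2 ^ m := by rw [one_mul]; exact Nat.one_le_two_pow
  have h := H l0 m 1 le_rfl le_rfl hm1
  have hrefl : ∀ ψ χ : ℤ → ℕ, (fun t => (ψ ⊔ χ) (-1 - t)) =
      (fun t => ψ (-1 - t)) ⊔ fun t => χ (-1 - t) := fun _ _ => rfl
  simp only [hrefl, box_refl] at h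
  have hG' : (0 : ℤ) < G := by exact_mod_cast hG
  have hl0' : (0 : ℤ) < l0 := by exact_mod_cast hl0
  have hl' : (G : ℤ) + l0 ≤ l := by exact_mod_cast hl
  have e1 : ∀ k e i, m ≤ e → Md (c.H k) (c.b k) (c.Reg k (e - m) (i + G * 2 ^ e)
      (box (1 * 2 ^ m) (-(G * 2 ^ m)) (-0))) = (c.D k).Sg (2 ^ e) i (i + G * 2 ^ e) := by
    intro k e i hme
    rw [mlb_Md_box' c k hme _ (-G) 0 hm1 (by linarith) (by ring) (by ring), one_mul, mlb_pow hme]
    congr 1 <;> ring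
  have e2 : ∀ k e i, m ≤ e → Md (c.H k) (c.b k) (c.Reg k (e - m) (i + G * 2 ^ e)
      (box 1 (-(l0 * 2 ^ m)) (- -(l0 * 2 ^ m)) ⊔ box (1 * 2 ^ m) (-0) (- -(l0 * 2 ^ m)))) =
      (c.D k).Sg (2 ^ (e - m)) (i - (l0 - G) * 2 ^ e) (i + (G + l0) * 2 ^ e) ⊔
        (c.D k).Sg (2 ^ e) (i + G * 2 ^ e) (i + (G + l0) * 2 ^ e) := by
    intro k e i hme
    rw [c.Reg_sup, Md_union,
      mlb_Md_box' c k hme _ (-l0) l0 le_rfl (by linarith) (by ring) (by ring),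
      mlb_Md_box' c k hme _ 0 l0 hm1 (by linarith) (by ring) (by ring), one_mul, one_mul,
      mlb_pow hme]
    congr 2 <;> ring
  refine mlb_key c (mlb_box_fin _ _ _) (mlb_sup_fin (mlb_box_fin _ _ _) (mlb_box_fin _ _ _)) m G
    (G + l0 + 1) (fun e => G * 2 ^ e) (fun e => by rw [abs_of_nonneg (by positivity)])
    ?_ ?_ ?_ ?_ hε h
  · intro k e i hme
    have h0 : (0 : ℤ) < 2 ^ e := by positivity
    rw [e1 k e i hme]
    exact (c.D k).Wz_le_Sg le_rfl le_rfl (by nlinarith)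
  · intro k e i hme
    have h0 : (0 : ℤ) < 2 ^ e := by positivity
    rw [e2 k e i hme]
    refine sup_le_sup ((c.D k).Sg_mono le_rfl ?_ ?_) ((c.D k).Sg_mono le_rfl ?_ ?_) <;>
      push_cast <;> nlinarith
  · intro k e i hme
    have h0 : (0 : ℤ) < 2 ^ e := by positivity
    rw [e1 k e i hme]
    refine (c.D k).Sg_le_Wz (c.std k).tree (X := (G + l0) * 2 ^ e) ?_ ?_ (le_of_eq (by ring)) <;>
      push_cast <;> nlinarith
  · intro k e i hme
    have h0 : (0 : ℤ) < 2 ^ e := by positivity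
    have h1 : 2 ^ (e - m) ≤ 2 ^ e := Nat.pow_le_pow_right (by norm_num) (Nat.sub_le e m)
    rw [e2 k e i hme]
    refine sup_le ((c.D k).Sg_le_Wz (c.std k).tree (X := (G + l0) * 2 ^ e) ?_ ?_ (by nlinarith))
      ((c.D k).Sg_le_Wz (c.std k).tree (X := (G + l0) * 2 ^ e) ?_ ?_ (le_of_eq (by ring))) <;>
      push_cast <;> nlinarith

/-- the normalised size of a graded piece -/
private noncomputable def mlbF (c : Ctx T d C L) (K r : ℕ) : Fn := fun k e i =>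
  ld ((c.D k).Lam (i - K * (2 ^ e : ℕ)) ⊓ (c.D k).Wz i (r * 2 ^ e)) ((c.D k).Lam i) / 2 ^ e

private theorem mlbF_bd (c : Ctx T d C L) (K r : ℕ) : c.s.Bd (mlbF c K r) :=
  mlb_bd c r fun _ _ _ => inf_le_right

private theorem mlbF_mono (c : Ctx T d C L) (K : ℕ) : Monotone fun r => c.s.Ex (mlbF c K r) := by
  intro r r' h
  refine Sch.Ex_mono (mlbF_bd c K r) (mlbF_bd c K r') ?_
  filter_upwards [mlb_ev c r'] with k hk e _ he i _ _
  have := mlb_fin c (hk e he.le) i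
  have : Finite ((c.D k).Lam (i - K * (2 ^ e : ℕ)) ⊓ (c.D k).Wz i (r' * 2 ^ e) :
    Subgroup (T ≃g T)) := fin_of_le inf_le_right
  refine div_le_div_of_nonneg_right (ld_mono_left _ (inf_le_inf_left _ ?_)) (by positivity)
  exact (c.D k).Wz_le_Wz (c.std k).tree (X := 0) (by simp)
    (by rw [zero_add]; exact Nat.mul_le_mul_right _ h)

private theorem mlbF_le (c : Ctx T d C L) (K r : ℕ) : c.s.Ex (mlbF c K r) ≤ C * (K + 1) := by
  have hb := mlbF_bd c K r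
  have hs : ∀ j ∈ Finset.range (r + 1),
      c.s.Bd fun k e i => mlbF c K r k (e - 0) (i + (j * K) * 2 ^ e) :=
    fun j _ => hb.shift 0 fun e => (j * K) * 2 ^ e
  have h1 := Sch.Ex_sum (Finset.range (r + 1)) hs
  have h2 : ∀ j ∈ Finset.range (r + 1),
      c.s.Ex (fun k e i => mlbF c K r k (e - 0) (i + (j * K) * 2 ^ e)) = c.s.Ex (mlbF c K r) :=
    fun j _ => Sch.Ex_shift hb 0 (j * K) (fun e => (j * K) * 2 ^ e) fun e => by
      rw [abs_of_nonneg (by positivity)]; push_cast; exact le_rfl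
  rw [Finset.sum_congr rfl h2, Finset.sum_const, Finset.card_range, nsmul_eq_mul] at h1
  have h3 := Sch.Ex_mono (Sch.Bd.sum _ hs) (Sch.Bd.const (C * ((r * K + r : ℕ) + 1))) (by
    filter_upwards [mlb_ev c (r * K + r)] with k hk e _ he i _ _
    have hR := hk e he.le
    have := mlb_fin c hR i
    have h0 : (0 : ℝ) < 2 ^ e := by positivity
    have h0' : (0 : ℤ) < 2 ^ e := by positivity
    set W := (c.D k).Wz i ((r * K + r) * 2 ^ e) with hW
    set a : ℕ → ℝ := fun j => lc ((c.D k).Lam (i + (j * K) * 2 ^ e - K * (2 ^ e : ℕ)) ⊓ W) with ha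
    have hterm : ∀ j ∈ Finset.range (r + 1),
        mlbF c K r k (e - 0) (i + (j * K) * 2 ^ e) ≤ (a j - a (j + 1)) / 2 ^ e := by
      intro j hj
      have hj' : j ≤ r := Nat.lt_succ_iff.1 (Finset.mem_range.1 hj)
      have : Finite ((c.D k).Lam (i + (j * K) * 2 ^ e - K * (2 ^ e : ℕ)) ⊓ W :
        Subgroup (T ≃g T)) := fin_of_le inf_le_right
      have hle : (c.D k).Wz (i + (j * K) * 2 ^ e) (r * 2 ^ e) ≤ W := by
        refine (c.D k).Wz_le_Wz (c.std k).tree (X := j * K * 2 ^ e) ?_ ?_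
        · rw [sub_add_cancel_left, abs_neg, abs_of_nonneg (by positivity)]
          push_cast
          exact le_rfl
        · rw [add_mul]
          exact Nat.add_le_add_right
            (Nat.mul_le_mul_right _ (Nat.mul_le_mul_right _ hj')) _
      have hL : (c.D k).Lam (i + (j * K) * 2 ^ e) ≤
          (c.D k).Lam (i + (j * K) * 2 ^ e - K * (2 ^ e : ℕ)) :=
        (c.D k).Lam_anti (sub_le_self _ (by positivity))
      have e1 : (c.D k).Lam (i + (j * K) * 2 ^ e - K * (2 ^ e : ℕ)) ⊓ W ⊓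
          (c.D k).Lam (i + (j * K) * 2 ^ e) = (c.D k).Lam (i + (j * K) * 2 ^ e) ⊓ W := by
        rw [inf_right_comm, inf_eq_right.2 hL]
      have e2 : i + (((j + 1 : ℕ) : ℤ) * K) * 2 ^ e - K * (2 ^ e : ℕ) = i + (j * K) * 2 ^ e := by
        push_cast; ring
      simp only [mlbF, Nat.sub_zero, ha]
      rw [e2, ← e1, ← ld_eq]
      exact div_le_div_of_nonneg_right (ld_mono_left _ (inf_le_inf_left _ hle)) h0.le
    refine (Finset.sum_le_sum hterm).trans ?_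
    rw [← Finset.sum_div, Finset.sum_range_sub', div_le_iff₀ h0]
    have b1 : a 0 ≤ lc W := lc_mono inf_le_right
    have b2 : 0 ≤ a (r + 1) := lc_nonneg _
    have b3 := mlb_lc c hR i
    linarith)
  rw [h1, Sch.Ex_const] at h3
  have hC := (c.std 0).one_le
  have hr : (0 : ℝ) < (r + 1 : ℕ) := by positivity
  refine le_of_mul_le_mul_left (h3.trans ?_) hr
  push_cast
  have hK : (0 : ℝ) ≤ K := Nat.cast_nonneg K
  nlinarith

theorem Ctx.gr (c : Ctx T d C L) (K : ℕ) {ε : ℝ} (hε : 0 < ε) :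
    ∃ r0 : ℕ, ∀ r r' : ℕ, r0 ≤ r → r ≤ r' →
      c.s.Pr (fun k e i => ¬ (c.D k).GoodT (2 ^ e) K r r' (ε * 2 ^ e) i) ≤ ε := by
  have hbdd : BddAbove (Set.range fun r => c.s.Ex (mlbF c K r)) :=
    ⟨C * (K + 1), by rintro _ ⟨r, rfl⟩; exact mlbF_le c K r⟩
  obtain ⟨r0, hr0⟩ := exists_lt_of_lt_ciSup
    (sub_lt_self (⨆ r, c.s.Ex (mlbF c K r)) (pow_pos hε 2))
  refine ⟨r0, fun r r' h h' => ?_⟩
  have h1 := mlbF_mono c K h
  have h2 := le_ciSup hbdd r'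
  refine mlb_markov c r' (fun _ _ _ => inf_le_right) hε ?_
  have h3 := Sch.Ex_sub (mlbF_bd c K r') (mlbF_bd c K r)
  refine le_trans (le_of_eq ((Sch.Ex_congr ?_).trans h3)) (by simp only at h1; linarith)
  filter_upwards [mlb_ev c r'] with k hk e _ he i _ _
  have hR := hk e he.le
  have := mlb_fin c hR i
  have hW : (c.D k).Wz i (r * 2 ^ e) ≤ (c.D k).Wz i (r' * 2 ^ e) :=
    (c.D k).Wz_le_Wz (c.std k).tree (X := 0) (by simp)
      (by rw [zero_add]; exact Nat.mul_le_mul_right _ h')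
  have hL : (c.D k).Lam i ≤ (c.D k).Lam (i - K * (2 ^ e : ℕ)) :=
    (c.D k).Lam_anti (sub_le_self _ (by positivity))
  simp only [mlbF]
  rw [ld_gr (mlb_ab c hR i) hW hL, sub_div]

end Pool.Agent.PSV
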