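import Pool.Agent.Lib.MP_607584_al.PSV.Ctx

/-! Typical positions, part c: the part shared by the past and the future. -/

namespace Pool.Agent.PSV

open Subgroup Filter
open scoped Pointwise commutatorElement

variable {V : Type} {T : SimpleGraph V} {d : ℕ} {C : ℝ} {L : ℕ}

/-- families of groups indexed by the index, the scale and the position -/
private abbrev mlcFam (T : SimpleGraph V) := ℕ → ℕ → ℤ → Subgroup (T ≃g T)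

/-- families that live in a window of bounded size -/
private def mlcLoc (c : Ctx T d C L) (X : mlcFam T) : Prop :=
  ∃ B : ℕ, ∀ k e i, X k e i ≤ (c.D k).Wz i (B * 2 ^ e)

private noncomputable def mlcC (X : mlcFam T) : Fn := fun k e i => lc (X k e i) / 2 ^ e

private noncomputable def mlcD (X Y : mlcFam T) : Fn :=
  fun k e i => ld (X k e i) (Y k e i) / 2 ^ e

private def mlcW (c : Ctx T d C L) (s : ℕ) : mlcFam T := fun k e i => (c.D k).Wz i (s * 2 ^ e)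

private def mlcG (c : Ctx T d C L) (r : ℕ) (a a' : ℤ) : mlcFam T :=
  fun k e i => (c.D k).Sg (r * 2 ^ e) (i + a * 2 ^ e) (i + a' * 2 ^ e)

private def mlcM (c : Ctx T d C L) (ψ : ℤ → ℕ) : mlcFam T :=
  fun k e i => Md (c.H k) (c.b k) (c.Reg k e i ψ)

variable {c : Ctx T d C L} {X Y Y' : mlcFam T}

private lemma mlc_big (c : Ctx T d C L) (B : ℕ) : ∀ᶠ k in om, ∀ e, e ≤ 2 * c.s.E k → ∀ i,
    Finite ((c.D k).Wz i (B * 2 ^ e)) ∧ Ab ((c.D k).Wz i (B * 2 ^ e)) ∧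
      lc ((c.D k).Wz i (B * 2 ^ e)) ≤ C * (B + 1) * 2 ^ e := by
  filter_upwards [c.small (B + 1)] with k hk e he i
  have h1 := hk e he
  have h2 := c.hb k
  have h3 : 1 ≤ 2 ^ e := Nat.one_le_two_pow
  rw [add_mul, one_mul] at h1
  refine ⟨(c.std k).toHyp.finWd _ (by omega), Wd_ab (c.std k).tree (by omega), ?_⟩
  refine ((c.std k).grow _ _ (by omega)).trans ?_
  have h4 : (1 : ℝ) ≤ 2 ^ e := one_le_pow₀ one_le_two
  have h5 := (c.std k).one_le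
  push_cast
  nlinarith

private lemma mlc_all {A : Evt} (h : ∀ᶠ k in om, ∀ e, e ≤ 2 * c.s.E k → ∀ i, A k e i) :
    c.s.All A := h.mono fun _ hk e _ he i _ _ => hk e he.le i

private lemma mlcLoc.mono (h : mlcLoc c Y) (h' : X ≤ Y) : mlcLoc c X :=
  h.imp fun _ hB k e i => (h' k e i).trans (hB k e i)

private lemma mlc_W_mono (c : Ctx T d C L) {s s' : ℕ} (h : s ≤ s') : mlcW c s ≤ mlcW c s' :=
  fun k e i => (c.D k).Wz_le_Wz (c.std k).tree (X := 0) (by simp)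
    (by rw [zero_add]; exact Nat.mul_le_mul_right _ h)

private lemma mlcLoc.sup (h : mlcLoc c X) (h' : mlcLoc c Y) : mlcLoc c (X ⊔ Y) := by
  obtain ⟨B, hB⟩ := h
  obtain ⟨B', hB'⟩ := h'
  exact ⟨max B B', fun k e i => sup_le ((hB k e i).trans (mlc_W_mono c (le_max_left _ _) k e i))
    ((hB' k e i).trans (mlc_W_mono c (le_max_right _ _) k e i))⟩

private lemma mlc_locW (c : Ctx T d C L) (s : ℕ) : mlcLoc c (mlcW c s) := ⟨s, fun _ _ _ => le_rfl⟩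

private lemma mlc_locG (c : Ctx T d C L) (r : ℕ) (a a' : ℤ) : mlcLoc c (mlcG c r a a') := by
  refine ⟨a.natAbs + a'.natAbs + r, fun k e i =>
    (c.D k).Sg_le_Wz (c.std k).tree (X := (a.natAbs + a'.natAbs) * 2 ^ e) ?_ ?_ (by rw [← add_mul])⟩
  · have h : (0 : ℤ) < 2 ^ e := by positivity
    push_cast
    nlinarith [neg_abs_le a, abs_nonneg a']
  · have h : (0 : ℤ) < 2 ^ e := by positivity
    push_cast
    nlinarith [le_abs_self a', abs_nonneg a]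

private lemma mlc_G_mono (c : Ctx T d C L) (r : ℕ) {a a' b b' : ℤ} (h : b ≤ a) (h' : a' ≤ b') :
    mlcG c r a a' ≤ mlcG c r b b' := fun k e i => by
  have h0 : (0 : ℤ) ≤ 2 ^ e := by positivity
  exact (c.D k).Sg_mono le_rfl (by nlinarith) (by nlinarith)

private lemma mlc_W_le_G (c : Ctx T d C L) {s r : ℕ} (hs : s ≤ r) {a a' : ℤ} (h : a ≤ 0)
    (h' : 0 ≤ a') : mlcW c s ≤ mlcG c r a a' := fun k e i => by
  have h0 : (0 : ℤ) ≤ 2 ^ e := by positivity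
  exact (c.D k).Wz_le_Sg (Nat.mul_le_mul_right _ hs) (by nlinarith) (by nlinarith)

private lemma mlcLoc.fin (h : mlcLoc c X) :
    ∀ᶠ k in om, ∀ e, e ≤ 2 * c.s.E k → ∀ i, Finite (X k e i) := by
  obtain ⟨B, hB⟩ := h
  filter_upwards [mlc_big c B] with k hk e he i
  have := (hk e he i).1
  exact fin_of_le (hB k e i)

private lemma mlcLoc.le (h : mlcLoc c X) :
    ∃ B : ℝ, ∀ᶠ k in om, ∀ e, e ≤ 2 * c.s.E k → ∀ i, mlcC X k e i ≤ B := by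
  obtain ⟨B, hB⟩ := h
  refine ⟨C * (B + 1), ?_⟩
  filter_upwards [mlc_big c B] with k hk e he i
  have := (hk e he i).1
  exact (div_le_iff₀ (by positivity)).2 ((lc_mono (hB k e i)).trans (hk e he i).2.2)

private lemma mlcC_nonneg (X : mlcFam T) (k e : ℕ) (i : ℤ) : 0 ≤ mlcC X k e i :=
  div_nonneg (lc_nonneg _) (by positivity)

private lemma mlcD_nonneg (X Y : mlcFam T) (k e : ℕ) (i : ℤ) : 0 ≤ mlcD X Y k e i :=
  div_nonneg (ld_nonneg _ _) (by positivity)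

private lemma mlcLoc.bdC (h : mlcLoc c X) : c.s.Bd (mlcC X) := by
  obtain ⟨B, hB⟩ := h.le
  refine ⟨B, hB.mono fun k hk e he i => ?_⟩
  rw [abs_of_nonneg (mlcC_nonneg _ _ _ _)]
  exact hk e he i

private lemma mlcLoc.bdD (h : mlcLoc c X) (Y : mlcFam T) : c.s.Bd (mlcD X Y) := by
  obtain ⟨B, hB⟩ := h.le
  refine ⟨B, ?_⟩
  filter_upwards [hB, h.fin] with k hk hf e he i
  rw [abs_of_nonneg (mlcD_nonneg _ _ _ _ _)]
  have := hf e he i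
  exact (div_le_div_of_nonneg_right (ld_le_lc _ _) (by positivity)).trans (hk e he i)

private lemma mlcLoc.markov (h : mlcLoc c X) {ε : ℝ} (hε : 0 < ε)
    (h' : c.s.Ex (mlcD X Y) ≤ ε ^ 2) :
    c.s.Pr (fun k e i => ¬ ld (X k e i) (Y k e i) ≤ ε * 2 ^ e) ≤ ε := by
  have h1 := Sch.markov (h.bdD Y) (mlc_all (.of_forall fun k e _ i => mlcD_nonneg X Y k e i)) hε
  have h2 : (fun k e i => ¬ ld (X k e i) (Y k e i) ≤ ε * 2 ^ e) =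
      fun k e i => ε < mlcD X Y k e i := by
    funext k e i
    rw [not_le, mlcD, lt_div_iff₀ (by positivity)]
  rw [h2]
  refine h1.trans ((div_le_iff₀ hε).2 ?_)
  rwa [← sq]

private lemma mlcLoc.exD (h : mlcLoc c X) (Y : mlcFam T) :
    c.s.Ex (mlcD X Y) = c.s.Ex (mlcC X) - c.s.Ex (mlcC (X ⊓ Y)) := by
  rw [← Sch.Ex_sub h.bdC (h.mono inf_le_left).bdC]
  refine Sch.Ex_congr (mlc_all (h.fin.mono fun k hk e he i => ?_))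
  have := hk e he i
  simp only [mlcD, mlcC, Pi.inf_apply]
  rw [ld_eq, sub_div]

private lemma mlcLoc.exC (h : mlcLoc c Y) (h' : X ≤ Y) : c.s.Ex (mlcC X) ≤ c.s.Ex (mlcC Y) := by
  refine Sch.Ex_mono (h.mono h').bdC h.bdC (mlc_all (h.fin.mono fun k hk e he i => ?_))
  have := hk e he i
  exact div_le_div_of_nonneg_right (lc_mono (h' k e i)) (by positivity)

private lemma mlcLoc.exD_anti (h : mlcLoc c X) (h' : Y ≤ Y') :
    c.s.Ex (mlcD X Y') ≤ c.s.Ex (mlcD X Y) := by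
  rw [h.exD, h.exD]
  exact sub_le_sub_left ((h.mono inf_le_left).exC (inf_le_inf_left _ h')) _

private lemma mlc_exC_nonneg (h : mlcLoc c X) : 0 ≤ c.s.Ex (mlcC X) := by
  rw [← Sch.Ex_const (s := c.s) 0]
  exact Sch.Ex_mono (Sch.Bd.const 0) h.bdC
    (mlc_all (.of_forall fun k e _ i => mlcC_nonneg X k e i))

private lemma mlc_info {F B Z : mlcFam T} (hF : mlcLoc c F) (hB : mlcLoc c B) (hZ : mlcLoc c Z)
    (h1 : Y ≤ F) (h2 : Y ≤ B ⊔ Z) :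
    c.s.Ex (mlcD Y Z) ≤ c.s.Ex (mlcC (F ⊔ Z)) + c.s.Ex (mlcC (B ⊔ Z)) -
      c.s.Ex (mlcC (F ⊔ B ⊔ Z)) - c.s.Ex (mlcC Z) := by
  have b1 := (hF.sup hZ).bdC
  have b2 := (hB.sup hZ).bdC
  have b3 := ((hF.sup hB).sup hZ).bdC
  rw [← Sch.Ex_add b1 b2, ← Sch.Ex_sub (b1.add b2) b3, ← Sch.Ex_sub ((b1.add b2).sub b3) hZ.bdC]
  refine Sch.Ex_mono ((hF.mono h1).bdD Z) (((b1.add b2).sub b3).sub hZ.bdC) (mlc_all ?_)
  obtain ⟨A, hA⟩ := (hF.sup hB).sup hZ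
  filter_upwards [mlc_big c A] with k hk e he i
  obtain ⟨f, ab, -⟩ := hk e he i
  have h3 := hA k e i
  simp only [Pi.sup_apply, sup_le_iff] at h3
  simp only [mlcD, mlcC, Pi.sup_apply]
  rw [← add_div, ← sub_div, ← sub_div]
  exact div_le_div_of_nonneg_right (ld_le_info ab h3.1.1 h3.1.2 h3.2 (h1 k e i) (h2 k e i))
    (by positivity)

private lemma mlc_M_sup (c : Ctx T d C L) (ψ ψ' : ℤ → ℕ) :
    mlcM c (ψ ⊔ ψ') = mlcM c ψ ⊔ mlcM c ψ' := by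
  funext k e i
  simp only [mlcM, Pi.sup_apply]
  rw [c.Reg_sup, Md_union]

private lemma mlc_M_box (c : Ctx T d C L) {r : ℕ} {a a' : ℤ} (hr : 1 ≤ r) (h : a < a') :
    mlcM c (box r a a') = mlcG c r a a' := by
  funext k e i
  simp only [mlcM, mlcG]
  rw [c.Reg_box k e i hr h]
  rfl

private lemma mlc_fM (c : Ctx T d C L) (ψ : ℤ → ℕ) : c.fM ψ = mlcC (mlcM c ψ) := rfl

private lemma mlc_info_box (c : Ctx T d C L) {r s : ℕ} (hr : 1 ≤ r) (hs : s ≤ r)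
    {a a' b b' l l' : ℤ} (ha : a < a') (hb : b < b') (hl : l < l') (h1 : b ≤ 0) (h2 : 0 ≤ b') :
    c.s.Ex (mlcD (mlcW c s ⊓ mlcG c r a a') (mlcG c r l l')) ≤
      c.s.Ex (c.fM (box r a a' ⊔ box r l l')) + c.s.Ex (c.fM (box r b b' ⊔ box r l l')) -
        c.s.Ex (c.fM (box r a a' ⊔ box r b b' ⊔ box r l l')) - c.s.Ex (c.fM (box r l l')) := by
  simp only [mlc_fM, mlc_M_sup, mlc_M_box c hr ha, mlc_M_box c hr hb, mlc_M_box c hr hl]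
  exact mlc_info (mlc_locG c _ _ _) (mlc_locG c _ _ _) (mlc_locG c _ _ _) inf_le_right
    (inf_le_left.trans ((mlc_W_le_G c hs h1 h2).trans le_sup_left))

/-- the past -/
private def mlcM' (c : Ctx T d C L) (r R X : ℕ) : mlcFam T := mlcG c r (-X) (-R)

/-- the future -/
private def mlcP' (c : Ctx T d C L) (r R X : ℕ) : mlcFam T := mlcG c r R X

private lemma mlc_M'_mono (c : Ctx T d C L) (r : ℕ) {R R' X X' : ℕ} (h : R' ≤ R) (h' : X ≤ X') :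
    mlcM' c r R X ≤ mlcM' c r R' X' := mlc_G_mono c r (by omega) (by omega)

private lemma mlc_P'_mono (c : Ctx T d C L) (r : ℕ) {R R' X X' : ℕ} (h : R' ≤ R) (h' : X ≤ X') :
    mlcP' c r R X ≤ mlcP' c r R' X' := mlc_G_mono c r (by omega) (by omega)

private lemma mlc_meanM (c : Ctx T d C L) {s r R' : ℕ} (hs : s ≤ r) (hr : 1 ≤ r) (hR : 1 ≤ R')
    {ε : ℝ} (hε : 0 < ε) : ∃ Λ R0 : ℕ, R' < Λ ∧ ∀ R X : ℕ, R0 ≤ R → R < X →
      c.s.Ex (mlcD (mlcW c s ⊓ mlcM' c r R X) (mlcP' c r R' Λ)) ≤ ε := by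
  obtain ⟨Λ, R0, h1, h2⟩ := c.phiM.ts c.phiM_add r R' hr hR hε
  refine ⟨Λ, R0, h1, fun R X h3 h4 => le_trans ?_ (h2 R X h3 h4)⟩
  exact mlc_info_box c hr hs (by omega) (by omega) (by omega) le_rfl (by omega)

private lemma mlc_meanP (c : Ctx T d C L) {s r R' : ℕ} (hs : s ≤ r) (hr : 1 ≤ r) (hR : 1 ≤ R')
    {ε : ℝ} (hε : 0 < ε) : ∃ Λ R0 : ℕ, R' < Λ ∧ ∀ R X : ℕ, R0 ≤ R → R < X →
      c.s.Ex (mlcD (mlcW c s ⊓ mlcP' c r R X) (mlcM' c r R' Λ)) ≤ ε := by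
  obtain ⟨Λ, R0, h1, h2⟩ := c.phiM.refl.ts c.phiM_add.refl r R' hr hR hε
  refine ⟨Λ, R0, h1, fun R X h3 h4 => le_trans ?_ (h2 R X h3 h4)⟩
  have e : ∀ ψ ψ' : ℤ → ℕ, (fun t => (ψ ⊔ ψ') (-1 - t)) =
      (fun t => ψ (-1 - t)) ⊔ fun t => ψ' (-1 - t) := fun _ _ => rfl
  simp only [e, box_refl, neg_neg, neg_zero]
  exact mlc_info_box c hr hs (by omega) (by omega) (by omega) (by omega) le_rfl

/-- the double limit of a bounded monotone double sequence -/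
private lemma mlc_lim {π : ℕ → ℕ → ℝ} {B : ℝ} (h0 : ∀ R X, 0 ≤ π R X) (hB : ∀ R X, π R X ≤ B)
    (hm : ∀ R R' X X', R' ≤ R → X ≤ X' → π R X ≤ π R' X') : ∃ p : ℝ,
    (∀ δ > 0, ∃ R1, ∀ R, R1 ≤ R → ∀ X, π R X ≤ p + δ) ∧
      ∀ R, ∀ δ > 0, ∃ X0, ∀ X, X0 ≤ X → p - δ ≤ π R X := by
  have b1 : ∀ R, BddAbove (Set.range (π R)) := fun R => ⟨B, by rintro _ ⟨X, rfl⟩; exact hB R X⟩
  have b2 : BddBelow (Set.range fun R => ⨆ X, π R X) :=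
    ⟨0, by rintro _ ⟨R, rfl⟩; exact (h0 R 0).trans (le_ciSup (b1 R) 0)⟩
  refine ⟨⨅ R, ⨆ X, π R X, fun δ hδ => ?_, fun R δ hδ => ?_⟩
  · obtain ⟨R1, h⟩ := exists_lt_of_ciInf_lt (lt_add_of_pos_right (⨅ R, ⨆ X, π R X) hδ)
    exact ⟨R1, fun R hR X => (hm _ _ _ _ hR le_rfl).trans ((le_ciSup (b1 R1) X).trans h.le)⟩
  · obtain ⟨X0, h⟩ := exists_lt_of_lt_ciSup
      ((sub_lt_self (⨅ R, ⨆ X, π R X) hδ).trans_le (ciInf_le b2 R))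
    exact ⟨X0, fun X hX => h.le.trans (hm _ _ _ _ le_rfl hX)⟩

private lemma mlc_lim' (c : Ctx T d C L) (s : ℕ) {P : ℕ → ℕ → mlcFam T}
    (hm : ∀ R R' X X', R' ≤ R → X ≤ X' → P R X ≤ P R' X') : ∃ p : ℝ,
    (∀ δ > 0, ∃ R1, ∀ R, R1 ≤ R → ∀ X, c.s.Ex (mlcC (mlcW c s ⊓ P R X)) ≤ p + δ) ∧
      ∀ R, ∀ δ > 0, ∃ X0, ∀ X, X0 ≤ X → p - δ ≤ c.s.Ex (mlcC (mlcW c s ⊓ P R X)) :=
  mlc_lim (B := c.s.Ex (mlcC (mlcW c s)))
    (fun _ _ => mlc_exC_nonneg ((mlc_locW c s).mono inf_le_left))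
    (fun _ _ => (mlc_locW c s).exC inf_le_left)
    fun _ _ _ _ h h' => ((mlc_locW c s).mono inf_le_left).exC (inf_le_inf_left _ (hm _ _ _ _ h h'))

private lemma mlc_pl (c : Ctx T d C L) (s : ℕ) {P : ℕ → ℕ → mlcFam T}
    (hm : ∀ R R' X X', R' ≤ R → X ≤ X' → P R X ≤ P R' X') {ε : ℝ} (hε : 0 < ε) :
    ∃ R1 : ℕ, 1 ≤ R1 ∧ ∀ R : ℕ, R1 ≤ R → ∃ X0 : ℕ, ∀ X : ℕ, X0 ≤ X →
      c.s.Pr (fun k e i => ¬ ld ((mlcW c s ⊓ P R1 X) k e i) (P R X k e i) ≤ ε * 2 ^ e) ≤ ε := by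
  obtain ⟨p, h1, h2⟩ := mlc_lim' c s hm
  obtain ⟨R1, h1⟩ := h1 (ε ^ 2 / 2) (by positivity)
  refine ⟨max R1 1, le_max_right _ _, fun R hR => ?_⟩
  obtain ⟨X0, h2⟩ := h2 R (ε ^ 2 / 2) (by positivity)
  refine ⟨X0, fun X hX => ?_⟩
  have hl : mlcLoc c (mlcW c s ⊓ P (max R1 1) X) := (mlc_locW c s).mono inf_le_left
  refine hl.markov hε ?_
  rw [hl.exD, inf_assoc, inf_eq_right.2 (hm _ _ _ _ hR le_rfl)]
  linarith [h1 _ (le_max_left R1 1) X, h2 X hX]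

private lemma mlc_TsM (c : Ctx T d C L) (s r R X R' X' : ℕ) (ε : ℝ) :
    (fun k e i => ¬ (c.D k).TsM (2 ^ e) s r R X R' X' (ε * 2 ^ e) i) = fun k e i =>
      ¬ ld ((mlcW c s ⊓ mlcM' c r R X) k e i) (mlcP' c r R' X' k e i) ≤ ε * 2 ^ e := by
  funext k e i
  simp only [UData.TsM, mlcW, mlcM', mlcP', mlcG, Pi.inf_apply, Nat.cast_pow, Nat.cast_ofNat,
    neg_mul, sub_eq_add_neg]

private lemma mlc_TsP (c : Ctx T d C L) (s r R X R' X' : ℕ) (ε : ℝ) :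
    (fun k e i => ¬ (c.D k).TsP (2 ^ e) s r R X R' X' (ε * 2 ^ e) i) = fun k e i =>
      ¬ ld ((mlcW c s ⊓ mlcP' c r R' X') k e i) (mlcM' c r R X k e i) ≤ ε * 2 ^ e := by
  funext k e i
  simp only [UData.TsP, mlcW, mlcM', mlcP', mlcG, Pi.inf_apply, Nat.cast_pow, Nat.cast_ofNat,
    neg_mul, sub_eq_add_neg]

private lemma mlc_PlM (c : Ctx T d C L) (s r R1 R X : ℕ) (ε : ℝ) :
    (fun k e i => ¬ (c.D k).PlM (2 ^ e) s r R1 R X (ε * 2 ^ e) i) = fun k e i =>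
      ¬ ld ((mlcW c s ⊓ mlcM' c r R1 X) k e i) (mlcM' c r R X k e i) ≤ ε * 2 ^ e := by
  funext k e i
  simp only [UData.PlM, mlcW, mlcM', mlcG, Pi.inf_apply, Nat.cast_pow, Nat.cast_ofNat,
    neg_mul, sub_eq_add_neg]

private lemma mlc_PlP (c : Ctx T d C L) (s r R1 R X : ℕ) (ε : ℝ) :
    (fun k e i => ¬ (c.D k).PlP (2 ^ e) s r R1 R X (ε * 2 ^ e) i) = fun k e i =>
      ¬ ld ((mlcW c s ⊓ mlcP' c r R1 X) k e i) (mlcP' c r R X k e i) ≤ ε * 2 ^ e := by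
  funext k e i
  simp only [UData.PlP, mlcW, mlcP', mlcG, Pi.inf_apply, Nat.cast_pow, Nat.cast_ofNat]

theorem Ctx.tsM (c : Ctx T d C L) (r R' : ℕ) (hr : 1 ≤ r) (hR : 1 ≤ R') {ε : ℝ} (hε : 0 < ε) :
    ∃ Λ R0 : ℕ, R' < Λ ∧ ∀ R X : ℕ, R0 ≤ R → R < X →
      c.s.Pr (fun k e i => ¬ (c.D k).TsM (2 ^ e) r r R X R' Λ (ε * 2 ^ e) i) ≤ ε := by
  obtain ⟨Λ, R0, h1, h2⟩ := mlc_meanM c le_rfl hr hR (pow_pos hε 2)
  refine ⟨Λ, R0, h1, fun R X h3 h4 => ?_⟩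
  rw [mlc_TsM]
  exact ((mlc_locW c r).mono inf_le_left).markov hε (h2 R X h3 h4)

theorem Ctx.plM (c : Ctx T d C L) (s r : ℕ) (hs : 1 ≤ s) (hr : s ≤ r) {ε : ℝ} (hε : 0 < ε) :
    ∃ R1 : ℕ, 1 ≤ R1 ∧ ∀ R : ℕ, R1 ≤ R → ∃ X0 : ℕ, ∀ X : ℕ, X0 ≤ X →
      c.s.Pr (fun k e i => ¬ (c.D k).PlM (2 ^ e) s r R1 R X (ε * 2 ^ e) i) ≤ ε := by
  simp only [mlc_PlM]
  exact mlc_pl c s (fun _ _ _ _ => mlc_M'_mono c r) hε

theorem Ctx.plP (c : Ctx T d C L) (s r : ℕ) (hs : 1 ≤ s) (hr : s ≤ r) {ε : ℝ} (hε : 0 < ε) :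
    ∃ R1 : ℕ, 1 ≤ R1 ∧ ∀ R : ℕ, R1 ≤ R → ∃ X0 : ℕ, ∀ X : ℕ, X0 ≤ X →
      c.s.Pr (fun k e i => ¬ (c.D k).PlP (2 ^ e) s r R1 R X (ε * 2 ^ e) i) ≤ ε := by
  simp only [mlc_PlP]
  exact mlc_pl c s (fun _ _ _ _ => mlc_P'_mono c r) hε

theorem Ctx.two (c : Ctx T d C L) (s r Rm : ℕ) (hs : 1 ≤ s) (hr : s ≤ r) {ε : ℝ} (hε : 0 < ε) :
    ∃ R' R0 : ℕ, Rm ≤ R' ∧ ∀ R : ℕ, R0 ≤ R → ∃ X0 : ℕ, ∀ X X' : ℕ, X0 ≤ X → X0 ≤ X' →
      c.s.Pr (fun k e i => ¬ (c.D k).TsM (2 ^ e) s r R X R' X' (ε * 2 ^ e) i) ≤ ε ∧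
      c.s.Pr (fun k e i => ¬ (c.D k).TsP (2 ^ e) s r R X R' X' (ε * 2 ^ e) i) ≤ ε := by
  have hr1 := hs.trans hr
  have hl : ∀ Y, mlcLoc c (mlcW c s ⊓ Y) := fun _ => (mlc_locW c s).mono inf_le_left
  obtain ⟨p, p1, p2⟩ := mlc_lim' c s (P := mlcP' c r) fun _ _ _ _ => mlc_P'_mono c r
  obtain ⟨q, q1, q2⟩ := mlc_lim' c s (P := mlcM' c r) fun _ _ _ _ => mlc_M'_mono c r
  have pq : p ≤ q := by
    refine le_of_forall_pos_le_add fun δ hδ => ?_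
    obtain ⟨R1, h1⟩ := q1 (δ / 3) (by positivity)
    obtain ⟨Λ, R0, -, h2⟩ := mlc_meanP c hr hr1 (le_max_right R1 1) (ε := δ / 3) (by positivity)
    obtain ⟨X0, h3⟩ := p2 R0 (δ / 3) (by positivity)
    have h4 := h2 R0 (max X0 (R0 + 1)) le_rfl (by omega)
    rw [(hl _).exD] at h4
    have h5 := (hl (mlcM' c r (max R1 1) Λ)).exC
      (inf_le_inf_right _ (inf_le_left (b := mlcP' c r R0 (max X0 (R0 + 1)))))
    linarith [h1 _ (le_max_left R1 1) Λ, h3 _ (le_max_left X0 (R0 + 1))]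
  obtain ⟨R1, h1⟩ := p1 (ε ^ 2 / 3) (by positivity)
  obtain ⟨R', hR1, hR2, hR3⟩ : ∃ R', R1 ≤ R' ∧ Rm ≤ R' ∧ 1 ≤ R' :=
    ⟨R1 + Rm + 1, by omega, by omega, by omega⟩
  obtain ⟨Λ, R0, -, h2⟩ := mlc_meanM c hr hr1 hR3 (ε := ε ^ 2 / 3) (by positivity)
  refine ⟨R', R0, hR2, fun R hR => ?_⟩
  obtain ⟨X0, h3⟩ := q2 R (ε ^ 2 / 3) (by positivity)
  refine ⟨X0 + Λ + R + 1, fun X X' hX hX' => ?_⟩
  have h4 := ((hl (mlcM' c r R X)).exD_anti (mlc_P'_mono c r (le_refl R') (X := Λ) (X' := X')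
    (by omega))).trans (h2 R X hR (by omega))
  rw [mlc_TsM, mlc_TsP]
  refine ⟨(hl _).markov hε (h4.trans (by nlinarith)), (hl _).markov hε ?_⟩
  rw [(hl _).exD] at h4 ⊢
  rw [inf_right_comm]
  linarith [h1 R' hR1 X', h3 X (by omega)]

end Pool.Agent.PSV
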