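import Pool.Agent.Lib.MP_607584_al.PSV.Ctx

/-! Typical positions, part d: stabilisers. -/

namespace Pool.Agent.PSV

open Subgroup Filter
open scoped Pointwise commutatorElement

variable {V : Type} {T : SimpleGraph V} {d : ℕ} {C : ℝ} {L : ℕ}

/-- normalised cost of fixing a forward segment -/
noncomputable def mldF (c : Ctx T d C L) (X : ℕ) : Fn := fun k e i =>
  (lc (Gb (c.H k) ((c.D k).xz i) 0) - lc ((c.D k).Fg 0 i (i + X * 2 ^ e))) / 2 ^ e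

theorem mld_all (s : Sch) (m : ℕ) {A : Evt} (h : ∀ k e i, m ≤ e → A k e i) : s.All A :=
  (s.hE.eventually (eventually_ge_atTop m)).mono fun k hk e he _ i _ _ => h k e i (hk.trans he)

theorem mld_lc_Gb (c : Ctx T d C L) (k : ℕ) (x y : V) :
    lc (Gb (c.H k) x 0) = lc (Gb (c.H k) y 0) := by
  unfold lc
  rw [(c.std k).toHyp.card_Gb x y 0]

theorem mld_ld {Γ : Type*} [Group Γ] {X Y : Subgroup Γ} [Finite X] (h : Y ≤ X) :
    ld X Y = lc X - lc Y := by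
  rw [ld_eq, inf_eq_right.2 h]

theorem mld_bd (c : Ctx T d C L) (X : ℕ) : c.s.Bd (mldF c X) := by
  refine ⟨C * (X + 1), (c.small (X + 1)).mono fun k hk e he i => ?_⟩
  have hH := c.std k
  have := hH.toHyp.finGb ((c.D k).xz i) 0
  have p1 : 1 ≤ 2 ^ e := Nat.one_le_two_pow
  have h1 := hk e he
  have h2 := c.hb k
  have p2 : (0 : ℤ) ≤ X * 2 ^ e := by positivity
  have h3 : (c.D k).Fg 0 i (i + X * 2 ^ e) ≤ Gb (c.H k) ((c.D k).xz i) 0 :=
    (c.D k).Fg_le_Gb le_rfl le_rfl (by omega)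
  have h4 : Gb (c.H k) ((c.D k).xz i) (X * 2 ^ e) ≤ (c.D k).Fg 0 i (i + X * 2 ^ e) := by
    refine Fx_anti ?_
    rw [Nb_zero hH.tree]
    rintro _ ⟨t, ⟨t1, t2⟩, rfl⟩
    have h5 := (c.D k).dist_le hH.tree i t
    rw [abs_sub_comm, abs_of_nonneg (by omega)] at h5
    have h6 : ((T.dist ((c.D k).xz i) ((c.D k).xz t) : ℕ) : ℤ) ≤ ((X * 2 ^ e : ℕ) : ℤ) := by
      push_cast; omega
    exact Int.ofNat_le.1 h6
  have h5 := (ld_mono_right (Gb (c.H k) ((c.D k).xz i) 0) h4).trans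
    (hH.width _ (X * 2 ^ e) (by nlinarith))
  have h6 := ld_nonneg (Gb (c.H k) ((c.D k).xz i) 0) ((c.D k).Fg 0 i (i + X * 2 ^ e))
  rw [mld_ld h3] at h5 h6
  have p3 : (1 : ℝ) ≤ 2 ^ e := one_le_pow₀ (by norm_num)
  have hC := hH.one_le
  unfold mldF
  rw [abs_of_nonneg (by positivity), div_le_iff₀ (by positivity)]
  push_cast at h5
  nlinarith

theorem mld_dbl (c : Ctx T d C L) (X : ℕ) : c.s.Ex (mldF c (2 * X)) = 2 * c.s.Ex (mldF c X) := by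
  rw [← Sch.Ex_shift (mld_bd c (2 * X)) 1 0 (fun _ => 0) (by simp), ← Sch.Ex_mul (mld_bd c X)]
  refine Sch.Ex_congr (mld_all _ 1 fun k e i he => ?_)
  obtain ⟨e, rfl⟩ : ∃ e', e = e' + 1 := ⟨e - 1, by omega⟩
  have e1 : ((2 * X : ℕ) : ℤ) * 2 ^ e = X * 2 ^ (e + 1) := by push_cast; ring
  simp only [mldF, add_zero, Nat.add_sub_cancel, e1]
  field_simp
  ring

/-- the defect of the product of the two stabilisers -/
noncomputable def mldI (c : Ctx T d C L) (X : ℕ) : Fn := fun k e i =>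
  mldF c X k e i + mldF c X k (e - 0) (i + -(X * 2 ^ e)) -
    mldF c (2 * X) k (e - 0) (i + -(X * 2 ^ e))

theorem mld_dn (c : Ctx T d C L) (X k e : ℕ) (i : ℤ) :
    (c.D k).Path (X * 2 ^ e) (mldI c X k e i * 2 ^ e) i := by
  have hH := c.std k
  have := hH.toHyp.finGb ((c.D k).xz i) 0
  have p2 : (0 : ℤ) ≤ X * 2 ^ e := by positivity
  have h1 : (c.D k).Fg 0 i (i + X * 2 ^ e) ≤ Gb (c.H k) ((c.D k).xz i) 0 :=
    (c.D k).Fg_le_Gb le_rfl le_rfl (by omega)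
  have h2 : (c.D k).Fg 0 (i - X * 2 ^ e) i ≤ Gb (c.H k) ((c.D k).xz i) 0 :=
    (c.D k).Fg_le_Gb le_rfl (by omega) le_rfl
  have h3 : (c.D k).Fg 0 i (i + X * 2 ^ e) ⊓ (c.D k).Fg 0 (i - X * 2 ^ e) i =
      (c.D k).Fg 0 (i - X * 2 ^ e) (i + X * 2 ^ e) := by
    unfold UData.Fg
    rw [(c.D k).Seg_union (a := i - X * 2 ^ e) (a' := i) (a'' := i + X * 2 ^ e) (by omega)
      (by omega), Nb_union, Fx_union, inf_comm]
  have h4 := Dn.prod h1 h2
  rw [h3] at h4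
  have e1 : i + -((X : ℤ) * 2 ^ e) = i - X * 2 ^ e := by ring
  have e2 : i - (X : ℤ) * 2 ^ e + X * 2 ^ e = i := by ring
  have e3 : i - (X : ℤ) * 2 ^ e + ((2 * X : ℕ) : ℤ) * 2 ^ e = i + X * 2 ^ e := by push_cast; ring
  have e4 : mldI c X k e i * 2 ^ e = lc (Gb (c.H k) ((c.D k).xz i) 0) -
      lc ((c.D k).Fg 0 i (i + X * 2 ^ e)) - lc ((c.D k).Fg 0 (i - X * 2 ^ e) i) +
      lc ((c.D k).Fg 0 (i - X * 2 ^ e) (i + X * 2 ^ e)) := by
    simp only [mldI, mldF, Nat.sub_zero, e1, e2, e3]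
    field_simp
    ring
  unfold UData.Path
  rw [e4]
  push_cast
  exact h4

theorem Ctx.path (c : Ctx T d C L) (X : ℕ) {ε : ℝ} (hε : 0 < ε) :
    c.s.Pr (fun k e i => ¬ (c.D k).Path (X * 2 ^ e) (ε * 2 ^ e) i) = 0 := by
  have hc : ∀ e : ℕ, |-((X : ℤ) * 2 ^ e)| ≤ X * 2 ^ e := fun e => by
    rw [abs_neg, abs_of_nonneg (by positivity)]
  have b1 := mld_bd c X
  have b2 := (mld_bd c X).shift 0 fun e => -((X : ℤ) * 2 ^ e)
  have b3 := (mld_bd c (2 * X)).shift 0 fun e => -((X : ℤ) * 2 ^ e)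
  have b4 : c.s.Bd (mldI c X) := (b1.add b2).sub b3
  have h0 : c.s.Ex (mldI c X) = 0 := by
    unfold mldI
    rw [Sch.Ex_sub (b1.add b2) b3, Sch.Ex_add b1 b2, Sch.Ex_shift b1 0 X _ hc,
      Sch.Ex_shift (mld_bd c (2 * X)) 0 X _ hc, mld_dbl]
    ring
  have h1 : c.s.All fun k e i => 0 ≤ mldI c X k e i := mld_all _ 0 fun k e i _ => by
    have := (c.std k).toHyp.finGb ((c.D k).xz i) 0
    exact nonneg_of_mul_nonneg_left (Dn.nonneg (mld_dn c X k e i)) (by positivity)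
  have h2 := Sch.markov b4 h1 hε
  rw [h0, zero_div] at h2
  refine le_antisymm (le_trans (Sch.Pr_mono (mld_all _ 0 fun k e i _ hn => ?_)) h2)
    (Sch.Pr_nonneg _)
  by_contra h3
  have := (c.std k).toHyp.finGb ((c.D k).xz i) 0
  have h4 := mld_dn c X k e i
  exact hn (Dn.mono h4 subset_rfl h4.1
    (mul_le_mul_of_nonneg_right (not_lt.1 h3) (by positivity)))

theorem mld_prof_box {r : ℕ} {a a' : ℤ} (hr : 1 ≤ r) (h : a < a') : Prof (box r a a') := by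
  refine ⟨(Set.finite_Ico a a').subset fun t ht => ?_, fun h0 => ?_⟩
  · by_contra h1
    exact ht (if_neg h1)
  · have h1 : box r a a' a = r := if_pos ⟨le_rfl, h⟩
    rw [h0] at h1
    simp at h1
    omega

theorem mld_prof_sup {ψ ψ' : ℤ → ℕ} (h : Prof ψ) (h' : Prof ψ') : Prof (ψ ⊔ ψ') := by
  refine ⟨(h.1.union h'.1).subset fun t ht => ?_, fun h0 => h.2 ?_⟩
  · by_contra h1
    simp only [Set.mem_union, Function.mem_support, not_or, not_not] at h1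
    exact ht (by simp [h1.1, h1.2])
  · exact le_antisymm (h0 ▸ le_sup_left) zero_le

theorem mld_fx_box (c : Ctx T d C L) (k e : ℕ) (i : ℤ) {r r' : ℕ} {a a' s s' : ℤ} (hr : 1 ≤ r)
    (h : a < a') (h1 : r * 2 ^ e = r') (h2 : i + a * 2 ^ e = s) (h3 : i + a' * 2 ^ e = s') :
    Fx (c.H k) (c.Reg k e i (box r a a')) = (c.D k).Fg r' s s' := by
  rw [c.Reg_box k e i hr h, h1, h2, h3]
  rfl

/-- the profile of the past -/
def mldP (a m G l : ℕ) : ℤ → ℕ :=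
  box (2 * 2 ^ m) (-(l * 2 ^ m)) (-(G * 2 ^ m)) ⊔ box a (-(G * 2 ^ m)) 0

/-- the loss of freedom caused by the past -/
noncomputable def mldD (c : Ctx T d C L) (a m1 m G l : ℕ) : Fn := fun k e i =>
  c.fH (box a 0 (2 ^ m1)) k e i -
    (c.fH (box a 0 (2 ^ m1) ⊔ mldP a m G l) k e i - c.fH (mldP a m G l) k e i)

theorem mld_pt (c : Ctx T d C L) {a m1 m G l : ℕ} (ha : 1 ≤ a) (hG : 1 ≤ G) (hl : G < l)
    (k e n : ℕ) (i : ℤ) (hn : 2 ^ m * 2 ^ e = n) : 0 ≤ mldD c a m1 m G l k e i ∧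
      (c.D k).Fwd (a * 2 ^ e) (2 ^ m1 * 2 ^ e) n G l (mldD c a m1 m G l k e i * 2 ^ e) i := by
  have hH := c.std k
  have := hH.toHyp.finGb ((c.D k).xz i) 0
  have p1 : (0 : ℤ) < 2 ^ m := by positivity
  have p2 : 1 ≤ 2 ^ m := Nat.one_le_two_pow
  have p3 : (0 : ℤ) < G := by exact_mod_cast hG
  have p4 : (G : ℤ) < l := by exact_mod_cast hl
  have hn' : (n : ℤ) = 2 ^ m * 2 ^ e := by rw [← hn]; push_cast; rfl
  have e1 : Fx (c.H k) (c.Reg k e i (box a 0 (2 ^ m1))) =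
      (c.D k).Fg (a * 2 ^ e) i (i + (2 ^ m1 * 2 ^ e : ℕ)) :=
    mld_fx_box c k e i ha (by positivity) rfl (by ring) (by push_cast; ring)
  have e2 : Fx (c.H k) (c.Reg k e i (mldP a m G l)) =
      (c.D k).Fg (2 * n) (i - l * n) (i - G * n) ⊓ (c.D k).Fg (a * 2 ^ e) (i - G * n) i := by
    unfold mldP
    rw [c.Reg_sup, Fx_union,
      mld_fx_box c k e i (r' := 2 * n) (s := i - l * n) (s' := i - G * n) (by omega)
        (by nlinarith) (by rw [← hn]; ring) (by rw [hn']; ring) (by rw [hn']; ring),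
      mld_fx_box c k e i (r' := a * 2 ^ e) (s := i - G * n) (s' := i) ha
        (by nlinarith) rfl (by rw [hn']; ring) (by ring)]
  unfold UData.Fwd
  set X0 := (c.D k).Fg (a * 2 ^ e) i (i + (2 ^ m1 * 2 ^ e : ℕ)) with hX0
  set W := (c.D k).Fg (2 * n) (i - l * n) (i - G * n) ⊓ (c.D k).Fg (a * 2 ^ e) (i - G * n) i
    with hW
  have h1 : X0 ≤ Gb (c.H k) ((c.D k).xz i) 0 :=
    (c.D k).Fg_le_Gb (Nat.zero_le _) le_rfl (by omega)
  have p5 : (0 : ℤ) ≤ G * n := by positivity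
  have h2 : W ≤ Gb (c.H k) ((c.D k).xz i) 0 :=
    inf_le_right.trans ((c.D k).Fg_le_Gb (Nat.zero_le _) (by omega) le_rfl)
  have := fin_of_le h2
  have e3 : mldD c a m1 m G l k e i * 2 ^ e = ld (Gb (c.H k) ((c.D k).xz i) 0) X0 - ld W X0 := by
    simp only [mldD, Ctx.fH, c.Reg_sup, Fx_union, e1, e2]
    rw [mld_ld h1, ld_eq W X0, inf_comm W X0]
    field_simp
    ring
  have h3 := ld_mono_left X0 h2
  have h4 := ld_mono_left X0 (Gb_anti' (H := c.H k) (x := (c.D k).xz i) (Nat.zero_le (a * 2 ^ e)))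
  refine ⟨nonneg_of_mul_nonneg_left (b := 2 ^ e) (by linarith) (by positivity), by linarith⟩

theorem Ctx.fwd (c : Ctx T d C L) (a : ℕ) (ha : 1 ≤ a) {ε : ℝ} (hε : 0 < ε) :
    ∃ m0 G0 : ℕ, ∀ m1 m G l : ℕ, m0 ≤ m1 → m1 ≤ m → a ≤ 2 ^ m → G0 ≤ G → G < l →
      c.s.Pr (fun k e i => ¬ (c.D k).Fwd (a * 2 ^ (e - m)) (2 ^ m1 * 2 ^ (e - m)) (2 ^ e) G l
        (ε * (2 ^ m1 * 2 ^ (e - m))) i) ≤ ε := by
  obtain ⟨m0, G0, hG0, h⟩ := c.phiH.fwd 2 a (by norm_num) ha (mul_pos hε hε)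
  refine ⟨m0, G0, fun m1 m G l h1 h2 h3 h4 h5 => ?_⟩
  have hG : 1 ≤ G := hG0.trans h4
  have h6 := h m1 m G l h1 h2 (by omega) h4 h5
  have p1 : (0 : ℤ) < 2 ^ m := by positivity
  have p2 : 1 ≤ 2 ^ m := Nat.one_le_two_pow
  have p3 : (0 : ℤ) < G := by exact_mod_cast hG
  have p4 : (G : ℤ) < l := by exact_mod_cast h5
  have q1 : Prof (box a 0 (2 ^ m1)) := mld_prof_box ha (by positivity)
  have q2 : Prof (mldP a m G l) :=
    mld_prof_sup (mld_prof_box (by omega) (by nlinarith)) (mld_prof_box ha (by nlinarith))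
  have b1 := c.bd_fH q1
  have b2 := c.bd_fH (mld_prof_sup q1 q2)
  have b3 := c.bd_fH q2
  have b4 : c.s.Bd (mldD c a m1 m G l) := b1.sub (b2.sub b3)
  have h7 : c.s.Ex (mldD c a m1 m G l) ≤ ε * ε * 2 ^ m1 := by
    unfold mldD
    rw [Sch.Ex_sub b1 (b2.sub b3), Sch.Ex_sub b2 b3]
    exact h6
  have h8 := Sch.markov b4 (mld_all _ 0 fun k e i _ => (mld_pt c ha hG h5 k e _ i rfl).1)
    (a := ε * 2 ^ m1) (by positivity)
  have h9 : c.s.Ex (mldD c a m1 m G l) / (ε * 2 ^ m1) ≤ ε := by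
    rw [div_le_iff₀ (by positivity)]
    linarith
  rw [← Sch.Pr_shift _ m 0 (fun _ => 0) (by simp)] at h8
  refine le_trans (Sch.Pr_mono (mld_all _ m fun k e i he hn => ?_)) (h8.trans h9)
  by_contra h10
  rw [add_zero] at h10
  have h11 := (mld_pt c (m1 := m1) ha hG h5 k (e - m) (2 ^ e) i
    (by rw [← pow_add, Nat.add_sub_cancel' he])).2
  refine hn (le_trans h11 ?_)
  have h12 := mul_le_mul_of_nonneg_right (not_lt.1 h10) (by positivity : (0 : ℝ) ≤ 2 ^ (e - m))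
  linarith

theorem Ctx.gap (c : Ctx T d C L) (X m : ℕ) :
    1 / 2 ≤ c.s.Pr fun k e i => (c.D k).NoGap (2 ^ (e - m)) (X * 2 ^ m) i := by
  have h1 := Sch.Pr_gap (s := c.s) (fun k => (c.D k).good) (fun k => (c.D k).lt)
    (fun k => (c.D k).card) X m
  have h2 := Sch.Pr_not (s := c.s) fun k e i => (c.D k).NoGap (2 ^ (e - m)) (X * 2 ^ m) i
  have h3 : c.s.Pr (fun k e i => ¬ (c.D k).NoGap (2 ^ (e - m)) (X * 2 ^ m) i) ≤ 1 / 2 := by
    refine le_trans (Sch.Pr_mono (mld_all _ 0 fun k e i _ hn => ?_)) h1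
    by_contra h4
    refine hn fun t t1 t2 => ?_
    by_contra h5
    push_cast at t1 t2 h5
    exact h4 ⟨t, t1, t2, h5⟩
  linarith

theorem Ctx.inside (c : Ctx T d C L) (X : ℕ) :
    c.s.Pr (fun k e i => ¬ Inside (c.s.N k) (X * 2 ^ e) i) = 0 := by
  refine le_antisymm (le_trans (Sch.Pr_mono (mld_all _ 0 fun k e i _ hn => ?_))
    (Sch.Pr_bdry (s := c.s) X).le) (Sch.Pr_nonneg _)
  by_contra h
  refine hn ⟨?_, ?_⟩ <;> push_cast <;> omega

end Pool.Agent.PSV
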