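import Pool.Agent.Lib.MP_607584_al.PSV.NAc

/-! The finite forms. -/

namespace Pool.Agent.PSV

open Subgroup Filter
open scoped Pointwise commutatorElement

variable {V : Type} {T : SimpleGraph V} {d : ℕ} {C : ℝ}

private theorem naf_cls_mono {Γ : Type*} [Group Γ] {S S' : Set Γ} (h : S ⊆ S') (a : Γ) :
    cls S a ⊆ cls S' a := fun _ ⟨σ, h1, h2⟩ => ⟨σ, h h1, h2⟩

private theorem naf_pow {Γ : Type*} [Group Γ] {S : Set Γ} {P : Subgroup Γ} [Finite P] {ε : ℝ}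
    (h : ∀ σ ∈ S, ld (cj σ P) P ≤ ε) (m : ℕ) : ∀ σ ∈ S ^ m, ld (cj σ P) P ≤ m * ε := by
  induction m with
  | zero =>
    intro σ hσ
    rw [pow_zero, Set.mem_one] at hσ
    rw [hσ, cj_one, ld_of_le le_rfl, Nat.cast_zero, zero_mul]
  | succ m ih =>
    intro σ hσ
    rw [pow_succ] at hσ
    obtain ⟨a, ha, c, hc, rfl⟩ := hσ
    have h1 := ld_cj_mul a c P
    have h2 := ih a ha
    have h3 := h c hc
    push_cast
    linarith

theorem NAf.mono {H : Subgroup (T ≃g T)} {b M M' : ℕ} (hH : Std T d C H b) (h : NAf H b M)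
    (h0 : 0 < M) (hM : M ≤ M') : NAf H b M' := by
  intro x n S ζ h1 h2 h3 h4 h5 h6
  have := hH.finGb x 0
  refine Gb_anti' (Nat.div_le_div_left hM h0) (h x n S ζ (hM.trans h1) h2
    (h3.mono subset_rfl h3.1 ?_) h4 h5 fun a ha a' ha' =>
      h6 a (naf_cls_mono (h4.pow_mono hM) ζ ha) a' (naf_cls_mono (h4.pow_mono hM) ζ ha'))
  exact div_le_div_of_nonneg_left (Nat.cast_nonneg n) (Nat.cast_pos.2 h0) (Nat.cast_le.2 hM)

theorem exists_NAf (T : SimpleGraph V) (d : ℕ) (C : ℝ) :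
    ∃ M, 0 < M ∧ ∀ (H : Subgroup (T ≃g T)) (b : ℕ), Std T d C H b → NAf H b M := by
  by_contra hc
  have key : ∀ k : ℕ, ∃ (H : Subgroup (T ≃g T)) (b : ℕ) (x : V) (n : ℕ) (S : Set (T ≃g T))
      (ζ : T ≃g T), Std T d C H b ∧ k + 1 ≤ n ∧ 4 * n ≤ b ∧
      Dn S (Gb H x 0) ((n : ℝ) / (k + 1 : ℕ)) ∧ Sym S ∧ ζ ∈ Gb H x 1 ∧
      (∀ a ∈ cls (S ^ (k + 1)) ζ, ∀ a' ∈ cls (S ^ (k + 1)) ζ, ⁅a, a'⁆ ∈ Gb H x n) ∧
      ζ ∉ Gb H x (n / (k + 1)) := fun k => by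
    by_contra h
    refine hc ⟨k + 1, k.succ_pos, fun H b hH x n S ζ h1 h2 h3 h4 h5 h6 => by_contra fun h7 => ?_⟩
    exact h ⟨H, b, x, n, S, ζ, hH, h1, h2, h3, h4, h5, h6, h7⟩
  choose H b x n S ζ hH h1 h2 h3 h4 h5 h6 h7 using key
  have hid : Tendsto (fun k : ℕ => k) om atTop :=
    tendsto_atTop.2 fun m => ev_of_atTop (eventually_ge_atTop m)
  have hn : Tendsto n om atTop :=
    tendsto_atTop_mono (fun k => (Nat.le_succ k).trans (h1 k)) hid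
  let Q : Seq T d C := ⟨H, b, x, n, hH, hn, Eventually.of_forall h2⟩
  have hV : Q.Val ζ S fun k => k + 1 := by
    refine ⟨⟨Eventually.of_forall h5, fun m => ?_⟩,
      ⟨fun k => 1 * ((n k : ℝ) / (k + 1)), Sm.div hn hid 1, Eventually.of_forall fun k => ⟨?_, h4 k⟩⟩,
      tendsto_atTop_mono (fun k => Nat.le_succ k) hid, Eventually.of_forall h6⟩
    · filter_upwards [ev_of_atTop (eventually_ge_atTop m)] with k hk h
      exact h7 k (Gb_anti' (Nat.div_le_div_left (Nat.succ_le_succ hk) m.succ_pos) h)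
    · have h := h3 k
      rw [Nat.cast_succ, ← one_mul (_ / _)] at h
      exact h
  obtain ⟨N⟩ := exists_NAS Q hV
  exact N.false

theorem exists_NAQ (T : SimpleGraph V) (d : ℕ) (C : ℝ) :
    ∃ M, 100 ≤ M ∧ ∀ (H : Subgroup (T ≃g T)) (b : ℕ), Std T d C H b → NAf H b M ∧ FQf H b M := by
  obtain ⟨M, hM, hNA⟩ := exists_NAf T d C
  refine ⟨100 * (M + 1), by omega, fun H b hH => ⟨(hNA H b hH).mono hH hM (by omega), ?_⟩⟩
  intro x n P S ζ h1 h2 h3 h4 h5 h6 h7 h8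
  have hT := hH.tree
  have := hH.finGb x 0
  have := hH.finWd x (r := n) (by omega)
  have : Finite P := fin_of_le h3
  obtain ⟨ε, hε⟩ : ∃ ε : ℝ, ε = (n : ℝ) / (100 * (M + 1) : ℕ) := ⟨_, rfl⟩
  rw [← hε] at h4 h5 h7 h8
  have e0 : 0 ≤ ε := by rw [hε]; positivity
  have e1 : 100 * ((M + 1) * ε) = n := by rw [hε]; push_cast; field_simp
  have s1 : S ∪ S⁻¹ ∪ {1} ⊆ Gb H x 0 := by
    rintro σ ((h | h) | h)
    · exact h4.1 h
    · exact (inv_mem_iff (H := Gb H x 0)).1 (h4.1 h)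
    · exact h ▸ one_mem _
  have s2 : Sym (S ∪ S⁻¹ ∪ {1}) := by
    refine ⟨Or.inr rfl, ?_⟩
    rw [Set.union_inv, Set.union_inv, inv_inv, Set.inv_singleton, inv_one, Set.union_comm S⁻¹]
  have s3 : ∀ σ ∈ S ∪ S⁻¹ ∪ {1}, ld (cj σ P) P ≤ ε := by
    rintro σ ((h | h) | h)
    · exact h5 σ h
    · exact ld_cj_inv σ P ▸ h5 _ h
    · rw [h, cj_one, ld_of_le le_rfl]; exact e0
  have hW : Ab (Wd H b x n) := Wd_ab hT (by omega)
  have key : ∀ a ∈ cls ((S ∪ S⁻¹ ∪ {1}) ^ M) ζ, a ∈ Gb H x 1 ∧ rk P a ≤ (M + 1) * ε ∧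
      Out (Wd H b x n) a P ((M + 1) * ε) := by
    rintro a ⟨σ, hσ, rfl⟩
    have a1 := pow_subset_subgroup s1 M hσ
    have a2 := naf_pow s3 M σ hσ
    have a3 : σ * ζ * σ⁻¹ ∈ Gb H x 1 := (mem_normalizer_iff.1 (Gb_nz_Gb hT x 1 a1) ζ).1 h6
    have a4 := h8.conj σ
    have := fin_cj σ P
    rw [cj_eq_iff.2 (Gb_nz_Wd hT x n a1)] at a4
    refine ⟨a3, (rk_conj_le P σ ζ).trans (by linarith), (a4.of_ld hW
      (Gb_nz_Wd hT x n (Gb_anti' (Nat.zero_le 1) a3)) P).mono le_rfl (by linarith)⟩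
  have n1 : (n : ℝ) ≤ 2 * (n / 2 : ℕ) + 1 := by exact_mod_cast (by omega : n ≤ 2 * (n / 2) + 1)
  have n2 : 2 * ((n / 2 : ℕ) : ℝ) ≤ n := by exact_mod_cast (by omega : 2 * (n / 2) ≤ n)
  have n3 : (100 : ℝ) ≤ n := by exact_mod_cast (by omega : 100 ≤ n)
  have h9 := hNA H b hH x (n / 2) (S ∪ S⁻¹ ∪ {1}) ζ (by omega) (by omega)
    (h4.mono (Set.subset_union_left.trans Set.subset_union_left) s1 ?_) s2 h6 ?_
  · refine Gb_anti' ?_ h9
    rw [Nat.div_div_eq_div_mul]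
    exact Nat.div_le_div_left (by omega) (by omega)
  · rw [le_div_iff₀ (Nat.cast_pos.2 hM)]
    linarith
  · intro a ha a' ha'
    obtain ⟨a1, a2, a3⟩ := key a ha
    obtain ⟨b1, b2, b3⟩ := key a' ha'
    have c1 := rk_comm hW (Gb_nz_Wd hT x n (Gb_anti' (Nat.zero_le 1) a1))
      (Gb_nz_Wd hT x n (Gb_anti' (Nat.zero_le 1) b1)) a3 b3 a2 b2
    have c2 : ⁅a, a'⁆ ∈ Gb H x 1 := by
      rw [commutatorElement_def]
      exact mul_mem (mul_mem (mul_mem a1 b1) (inv_mem a1)) (inv_mem b1)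
    refine Gb_anti' (Nat.le_succ _) (hH.deep_of_rk c2 (r := n) (i := n / 2) (by omega)
      (Nat.div_le_self _ _) (c1.trans_lt ?_))
    have c3 := mul_le_mul_of_nonneg_left Real.log_two_gt_d9.le
      (show (0 : ℝ) ≤ n - (n / 2 : ℕ) by linarith)
    linarith

end Pool.Agent.PSV
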