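import Pool.Agent.Lib.MP_607584_al.PSV.STd
import Pool.Agent.Lib.MP_607584_al.PSV.NAf
import Pool.Agent.Lib.MP_607584_al.Final

/-! The bound on the depth and the main theorem. -/

namespace Pool.Agent.PSV

open Subgroup Filter
open scoped Pointwise commutatorElement

theorem depth_bound {V : Type} (T : SimpleGraph V) (d : ℕ) :
    ∃ B : ℕ, ∀ (H : Subgroup (T ≃g T)) (b : ℕ), Hyp T d H b → b ≤ B := by
  by_contra hcon
  push Not at hcon
  obtain ⟨C, hC⟩ := exists_std T d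
  obtain ⟨L, c, hL, hU⟩ := exists_UData T d C
  obtain ⟨M, hM, hQ⟩ := exists_NAQ T d C
  have key : ∀ k : ℕ, ∃ (H : Subgroup (T ≃g T)) (b N : ℕ), Std T d C H b ∧
      (k + 1) * 2 ^ (2 * (k + 1)) ≤ N ∧ 100 * N ≤ b ∧ Nonempty (UData H b L N) := by
    intro k
    obtain ⟨H, b, hH, hb⟩ := hcon (100 * (c * (c + (k + 1) * 2 ^ (2 * (k + 1)))))
    obtain ⟨N, h1, h2, h3⟩ := hU H b (c + (k + 1) * 2 ^ (2 * (k + 1))) (hC H b hH)
      (Nat.le_add_right _ _) (by omega)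
    exact ⟨H, b, N, hC H b hH, by omega, by omega, h3⟩
  choose H b N h1 h2 h3 h4 using key
  have hom : om ≤ (atTop : Filter ℕ) := by
    rw [← Nat.cofinite_eq_atTop]; exact hyperfilter_le_cofinite
  let s : Sch :=
    { E := fun k => k + 1
      N := N
      hE := (tendsto_add_atTop_nat 1).mono_left hom
      hN := fun c' => by
        refine hom ?_
        filter_upwards [eventually_ge_atTop c'] with k hk
        exact (Nat.mul_le_mul_right _ (by omega)).trans (h2 k) }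
  let X : Ctx T d C L :=
    { H := H
      b := b
      s := s
      std := h1
      D := fun k => (h4 k).some
      hb := h3 }
  exact X.false hL hM fun k => hQ _ _ (h1 k)

private theorem main_bot_iff {V : Type} {T : SimpleGraph V} {H : Subgroup (T ≃g T)}
    (h2 : ∀ u v : V, ∃ g ∈ H, g u = v) (x y : V) (r : ℕ) : Gb H y r = ⊥ ↔ Gb H x r = ⊥ := by
  obtain ⟨g, hg, rfl⟩ := h2 x y
  rw [← cj_Gb hg]
  exact Subgroup.map_eq_bot_iff_of_injective _ (MulAut.conj g).injective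

private theorem main_exists_top {V : Type} {T : SimpleGraph V} (H : Subgroup (T ≃g T)) (x : V)
    (h1 : Set.Finite {g : T ≃g T | g ∈ H ∧ g x = x}) : ∃ R, Gb H x R = ⊥ := by
  classical
  have e : ∀ g : T ≃g T, ∃ n : ℕ, (∀ v, T.dist x v ≤ n → g v = v) → g = 1 := by
    intro g
    by_cases hg : ∀ v, g v = v
    · exact ⟨0, fun _ => RelIso.ext hg⟩
    · push Not at hg
      obtain ⟨v, hv⟩ := hg
      exact ⟨T.dist x v, fun h => absurd (h v le_rfl) hv⟩
  choose n hn using e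
  refine ⟨h1.toFinset.sup n, eq_bot_iff.2 fun g hg => ?_⟩
  rw [Subgroup.mem_bot]
  have hx : g x = x := hg.2 x (by simp [Ball])
  have hm : n g ≤ h1.toFinset.sup n := Finset.le_sup (h1.mem_toFinset.2 ⟨hg.1, hx⟩)
  exact hn g fun v hv => hg.2 v (hv.trans hm)

private theorem main_dist_le {V : Type} {T : SimpleGraph V} {n : ℕ} {x v : V}
    (hT : T.IsTree) (h : T.dist x v ≤ n) : v ∈ Pool.Agent.Lib.MP_607584_al.Bl T n x := by
  obtain ⟨w, hw⟩ := hT.connected.exists_walk_length_eq_dist x v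
  exact ⟨w.length, hw ▸ h, Pool.Agent.Lib.MP_607584_al.wk_of_walk w⟩

/-- the standing hypotheses hold for a group with a non-trivial stabiliser of a ball -/
theorem exists_hyp {d : ℕ} (F : Subgroup (Equiv.Perm (Fin d)))
    (hF1 : ∀ a b : Fin d, ∃ f ∈ F, f a = b)
    (hF2 : ∀ N : Subgroup (Equiv.Perm (Fin d)), N ≤ F →
      (∀ n ∈ N, ∀ f ∈ F, f * n * f⁻¹ ∈ N) →
      ((∀ a b : Fin d, ∃ n ∈ N, n a = b) ∨ (∀ n ∈ N, ∀ a : Fin d, n a = a → n = 1)))
    {V : Type} {T : SimpleGraph V} (hT : T.IsTree) (H : Subgroup (T ≃g T))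
    (h1 : ∀ v : V, Set.Finite {g : T ≃g T | g ∈ H ∧ g v = v})
    (h2 : ∀ u v : V, ∃ g ∈ H, g u = v)
    (h3 : ∀ v : V, ∃ e : T.neighborSet v ≃ Fin d, ∀ σ : Equiv.Perm (Fin d),
      σ ∈ F ↔ ∃ g ∈ H, g v = v ∧ ∀ w : T.neighborSet v,
        g (w : V) = ((e.symm (σ (e w)) : T.neighborSet v) : V))
    {x : V} {r : ℕ} (hr : 2 ≤ r) (h : Gb H x r ≠ ⊥) : ∃ b, r ≤ b ∧ Hyp T d H b := by
  classical
  let _inst := Pool.Agent.Lib.MP_607584_al.act H
  let S : Pool.Agent.Lib.MP_607584_al.Setup H V :=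
    { adj := T.Adj
      symm := fun h => h.symm
      inv := fun g _ _ h => (g : T ≃g T).map_adj_iff.2 h
      conn := fun x y => (hT.connected x y).elim fun w =>
        ⟨_, Pool.Agent.Lib.MP_607584_al.wk_of_walk w⟩
      faithful := fun g hg => Subtype.ext (RelIso.ext hg)
      fin := fun x => by
        have := (h1 x).to_subtype
        exact Finite.of_injective (fun g : MulAction.stabilizer H x =>
          (⟨g.1.1, g.1.2, g.2⟩ : {g : T ≃g T | g ∈ H ∧ g x = x}))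
          fun a b hab => Subtype.ext (Subtype.ext (by simpa using hab))
      arc := fun {x y x' y'} ha hb => by
        obtain ⟨g, hg, rfl⟩ := h2 x x'
        obtain ⟨e, he⟩ := h3 (g x)
        obtain ⟨f, hf, hf'⟩ := hF1 (e ⟨g y, g.map_adj_iff.2 ha⟩) (e ⟨y', hb⟩)
        obtain ⟨k, hk, hl⟩ := (he f).1 hf
        have hl' : Pool.Agent.Lib.MP_607584_al.Loc (g x) e k f := hl
        exact ⟨⟨k * g, H.mul_mem hk hg⟩, hl'.1,
          (hl'.apply_iff ⟨g y, g.map_adj_iff.2 ha⟩ ⟨y', hb⟩).1 hf'⟩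
      sp := fun x N hN hn g hg c hc hgc hK y y' hy hy' => by
        obtain ⟨e, he⟩ := h3 x
        have a1 : Pool.Agent.Lib.MP_607584_al.img e N ≤ F := by
          rintro σ ⟨k, -, hl⟩
          exact (he σ).2 ⟨k, k.2, hl⟩
        have a2 : ∀ n ∈ Pool.Agent.Lib.MP_607584_al.img e N, ∀ f ∈ F,
            f * n * f⁻¹ ∈ Pool.Agent.Lib.MP_607584_al.img e N := by
          rintro σ ⟨k, hk, hl⟩ f hf
          obtain ⟨a, ha, hl0⟩ := (he f).1 hf
          have hl' : Pool.Agent.Lib.MP_607584_al.Loc x e a f := hl0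
          have a3 : (⟨a, ha⟩ : H) ∈ MulAction.stabilizer H x := hl'.1
          exact ⟨⟨a, ha⟩ * k * ⟨a, ha⟩⁻¹, Pool.Agent.Lib.MP_607584_al.nz_conj (hn a3) hk,
            (hl'.mul hl).mul hl'.inv⟩
        rcases hF2 (Pool.Agent.Lib.MP_607584_al.img e N) a1 a2 with h | h
        · obtain ⟨σ, ⟨k, hk, hl⟩, hσ⟩ := h (e ⟨y, hy⟩) (e ⟨y', hy'⟩)
          exact ⟨k, hk, (hl.apply_iff ⟨y, hy⟩ ⟨y', hy'⟩).1 hσ⟩
        · have a4 : (g : T ≃g T) x = x := hN hg
          obtain ⟨σ, hl⟩ := Pool.Agent.Lib.MP_607584_al.exists_Loc e a4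
          exact absurd (hl.eq_one_iff.1 (h σ ⟨g, hg, hl⟩ (e ⟨c, hc⟩)
            ((hl.apply_iff ⟨c, hc⟩ ⟨c, hc⟩).2 hgc))) hK }
  have hK : ∀ (u v : V) (g : T ≃g T) (hg : g ∈ Gb H u 2), T.Adj u v →
      (⟨g, hg.1⟩ : H) ∈ S.K u ⊓ S.K v := by
    intro u v g hg huv
    have d1 : T.dist u v = 1 := SimpleGraph.dist_eq_one_iff_adj.2 huv
    refine ⟨⟨hg.2 u (by simp [Ball]), fun y hy => hg.2 y ?_⟩,
      ⟨hg.2 v (by simp [Ball, d1]), fun y hy => hg.2 y ?_⟩⟩
    · have d2 : T.dist u y = 1 := SimpleGraph.dist_eq_one_iff_adj.2 hy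
      simp [Ball, d2]
    · have d2 : T.dist v y = 1 := SimpleGraph.dist_eq_one_iff_adj.2 hy
      have d3 : T.dist u y ≤ T.dist u v + T.dist v y := hT.connected.dist_triangle
      change T.dist u y ≤ 2
      omega
  obtain ⟨g0, hg0, hg1⟩ : ∃ g ∈ Gb H x r, g ≠ 1 := by
    by_contra hc
    push Not at hc
    exact h (eq_bot_iff.2 fun g hg => Subgroup.mem_bot.2 (hc g hg))
  obtain ⟨y, hxy⟩ : ∃ y, T.Adj x y := by
    by_contra hc
    push Not at hc
    refine hg1 (RelIso.ext fun v => ?_)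
    obtain ⟨w⟩ := hT.connected x v
    cases w with
    | nil => exact hg0.2 x (by simp [Ball])
    | cons ha _ => exact absurd ha (hc _)
  have hD : S.K x ⊓ S.K y ≠ ⊥ := by
    intro hb
    have := hK x y g0 (Gb_anti' hr hg0) hxy
    rw [hb, Subgroup.mem_bot] at this
    exact hg1 (congrArg Subtype.val this)
  obtain ⟨p, hp, hP⟩ := Pool.Agent.Lib.MP_607584_al.Setup.tw (S := S) hxy hD
  obtain ⟨R, hR⟩ := main_exists_top H x (h1 x)
  have hex : ∃ n, Gb H x (r + n + 1) = ⊥ :=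
    ⟨R, eq_bot_iff.2 ((Gb_anti' (by omega)).trans hR.le)⟩
  refine ⟨r + Nat.find hex, by omega, ?_⟩
  refine
    { tree := hT
      nfin := fun v => ?_
      deg := fun v => ?_
      fin := fun v => ?_
      vtr := h2
      ltr := fun w a a' ha ha' => ?_
      sp := fun w N hN hn hc a a' ha ha' => ?_
      pgrp := ⟨p, hp, fun u => ?_⟩
      two := by omega
      bne := fun u => ?_
      btop := fun u => (main_bot_iff h2 x u _).2 (Nat.find_spec hex) }
  · obtain ⟨e, -⟩ := h3 v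
    exact Set.finite_coe_iff.1 (Finite.of_equiv _ e.symm)
  · obtain ⟨e, -⟩ := h3 v
    rw [← Nat.card_coe_set_eq, Nat.card_congr e]
    simp
  · have := (h1 v).to_subtype
    exact Finite.of_injective (fun g : Gb H v 0 =>
      (⟨g.1, (mem_Gb_zero hT).1 g.2⟩ : {g : T ≃g T | g ∈ H ∧ g v = v}))
      fun a b hab => Subtype.ext (by simpa using hab)
  · obtain ⟨g, e1, e2⟩ := S.arc (x := w) (y := a) (x' := w) (y' := a') ha ha'
    exact ⟨g, (mem_Gb_zero hT).2 ⟨g.2, e1⟩, e2⟩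
  · obtain ⟨c, hcN, c1, ⟨z, hz, c2⟩, z', hz', c3⟩ := hc
    have hcH : c ∈ H := (hN hcN).1
    obtain ⟨n, hn1, hn2⟩ := S.sp w (N.subgroupOf H)
      (fun g hg => ((mem_Gb_zero hT).1 (hN hg)).2)
      (Pool.Agent.Lib.MP_607584_al.le_nz fun g hg k hk =>
        Pool.Agent.Lib.MP_607584_al.nz_conj (X := N)
          (hn ((mem_Gb_zero hT).2 ⟨g.2, hg⟩)) hk)
      ⟨c, hcH⟩ hcN z hz c2 (fun hall => c3 (hall z' hz')) a a' ha ha'
    exact ⟨n, hn1, hn2⟩
  · obtain ⟨k, hk, rfl⟩ := h2 x u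
    have huv : T.Adj (k x) (k y) := k.map_adj_iff.2 hxy
    rintro ⟨g, hg⟩
    obtain ⟨n, hn⟩ := (hP _ _ huv).2 ⟨⟨g, hg.1⟩, hK _ _ g hg huv⟩
    refine ⟨n, Subtype.ext ?_⟩
    simpa using congrArg (fun z : (S.K (k x) ⊓ S.K (k y) : Subgroup H) => ((z : H) : T ≃g T)) hn
  · rw [Ne, main_bot_iff h2 x u]
    rcases Nat.eq_zero_or_pos (Nat.find hex) with h0 | h0
    · rw [h0]; exact h
    · have := Nat.find_min hex (m := Nat.find hex - 1) (by omega)
      rwa [show r + (Nat.find hex - 1) + 1 = r + Nat.find hex by omega] at this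

theorem main :
  ∀ (d : ℕ) (F : Subgroup (Equiv.Perm (Fin d))),
    (∀ a b : Fin d, ∃ f ∈ F, f a = b) →
    (∀ N : Subgroup (Equiv.Perm (Fin d)), N ≤ F →
      (∀ n ∈ N, ∀ f ∈ F, f * n * f⁻¹ ∈ N) →
      ((∀ a b : Fin d, ∃ n ∈ N, n a = b) ∨
        (∀ n ∈ N, ∀ a : Fin d, n a = a → n = 1))) →
    ∀ (V : Type) (T : SimpleGraph V), T.IsTree →
    ∃ S : Set (Subgroup (T ≃g T)), S.Finite ∧
      ∀ H : Subgroup (T ≃g T),
        (∀ v : V, Set.Finite {g : T ≃g T | g ∈ H ∧ g v = v}) →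
        (∀ u v : V, ∃ g ∈ H, g u = v) →
        (∀ v : V, ∃ e : T.neighborSet v ≃ Fin d, ∀ σ : Equiv.Perm (Fin d),
            σ ∈ F ↔ ∃ g ∈ H, g v = v ∧
              ∀ w : T.neighborSet v,
                g (w : V) = ((e.symm (σ (e w)) : T.neighborSet v) : V)) →
        ∃ K ∈ S, ∃ τ : T ≃g T, ∀ g : T ≃g T, g ∈ H ↔ τ⁻¹ * g * τ ∈ K := by
  intro d F hF1 hF2 V T hT
  obtain ⟨x⟩ := hT.connected.nonempty
  obtain ⟨B, hB⟩ := depth_bound T d
  by_cases hfin : ∀ v, (T.neighborSet v).Finite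
  · obtain ⟨S, hS, h⟩ := Pool.Agent.Lib.MP_607584_al.finite_classes hT hfin (B + 2) x
    refine ⟨S, hS, fun H h1 h2 h3 => h H ⟨fun g hg hfix => ?_, h2 x⟩⟩
    have hb : Gb H x (B + 2) = ⊥ := by
      by_contra hne
      obtain ⟨b, hb1, hb2⟩ := exists_hyp F hF1 hF2 hT H h1 h2 h3 (by omega) hne
      have := hB H b hb2
      omega
    have : g ∈ Gb H x (B + 2) := ⟨hg, fun v hv => hfix v (main_dist_le hT hv)⟩
    rwa [hb, Subgroup.mem_bot] at this
  · refine ⟨∅, Set.finite_empty, fun H _ _ h3 => absurd (fun v => ?_) hfin⟩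
    obtain ⟨e, -⟩ := h3 v
    exact Set.finite_coe_iff.1 (Finite.of_equiv _ e.symm)

end Pool.Agent.PSV
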