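import Pool.Agent.Lib.MP_607584_al.PSV.SeqL

/-! No almost normal abelian subgroup, part a: the minimal structure. -/

namespace Pool.Agent.PSV

open Subgroup Filter
open scoped Pointwise commutatorElement

variable {V : Type} {T : SimpleGraph V} {d : ℕ} {C : ℝ}

/-- a shallow element whose conjugates by long words in a dense set commute modulo level `n` -/
structure Seq.Val (Q : Seq T d C) (a : ℕ → T ≃g T) (S : ℕ → Set (T ≃g T)) (L : ℕ → ℕ) : Prop where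
  dep : Q.Dep0 a
  ds : Q.DS S
  hL : Tendsto L om atTop
  comm : ∀ᶠ k in om, ∀ u ∈ cls (S k ^ L k) (a k), ∀ u' ∈ cls (S k ^ L k) (a k),
    ⁅u, u'⁆ ∈ Q.G k (Q.n k)

/-- a minimal almost normal abelian structure -/
structure NAS (Q : Seq T d C) where
  D : Subgroup (ℕ → T ≃g T)
  A : Subgroup (ℕ → T ≃g T)
  top : ℕ → Subgroup (T ≃g T)
  wD : Wedge (D : Set (ℕ → T ≃g T))
  wA : Wedge (A : Set (ℕ → T ≃g T))
  D_le : D ≤ Q.GG fun _ => 0
  dense : Q.Dense D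
  nz : ∀ σ ∈ D, ∀ a ∈ A, σ * a * σ⁻¹ ∈ A
  gen : ∀ E : ℕ → Set (T ≃g T), Inn E A → Inn (fun k => (closure (E k) : Set (T ≃g T))) A
  A_top : ∀ E : ℕ → Set (T ≃g T), Inn E A → ∀ᶠ k in om, E k ⊆ top k
  top_le : ∀ᶠ k in om, top k ≤ Q.G k 1
  ab : ∀ᶠ k in om, ∀ u ∈ top k, ∀ u' ∈ top k, ⁅u, u'⁆ ∈ Q.G k (Q.n k)
  ex : ∃ a ∈ A, Q.Dep0 a
  ml : ∀ (z : ℕ → T ≃g T) (S : ℕ → Set (T ≃g T)) (L : ℕ → ℕ), z ∈ A → Q.Dep0 z → Q.DS S →
    Tendsto L om atTop → Inn (fun k => S k ^ L k) D →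
    Sm Q.n fun k => ld (top k) (closure (cls (S k ^ L k) (z k)) ⊔ Q.G k (Q.n k))

section Grp

variable {Γ : Type*} [Group Γ] {G N M : Subgroup Γ} {K S : Set Γ} {a : Γ}

theorem naa_comm (hN : G ≤ normalizer (N : Set Γ)) {g c : Γ} (hg : g ∈ N) (hc : c ∈ G) :
    ⁅g, c⁆ ∈ N := by
  have e : ⁅g, c⁆ = g * (c * g⁻¹ * c⁻¹) := by
    simp only [commutatorElement_def]
    group
  rw [e]
  exact N.mul_mem hg ((mem_normalizer_iff.1 (hN hc) _).1 (N.inv_mem hg))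

theorem naa_ab (hN : G ≤ normalizer (N : Set Γ)) (hNG : N ≤ G) (hK : K ⊆ G)
    (h : ∀ u ∈ K, ∀ u' ∈ K, ⁅u, u'⁆ ∈ N) :
    ∀ u ∈ closure K ⊔ N, ∀ u' ∈ closure K ⊔ N, ⁅u, u'⁆ ∈ N := by
  have hG : closure K ⊔ N ≤ G := sup_le ((closure_le _).2 hK) hNG
  have h1 : closure K ⊔ N ≤ CM G N K :=
    sup_le ((closure_le _).2 fun u hu => ⟨hK hu, hN (hK hu), h u hu⟩)
      fun g hg => ⟨hNG hg, hN (hNG hg), fun c hc => naa_comm hN hg (hK hc)⟩
  have h2 : closure K ⊔ N ≤ CM G N (closure K ⊔ N : Subgroup Γ) :=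
    sup_le ((closure_le _).2 fun u hu => ⟨hK hu, hN (hK hu), fun c hc => by
        rw [← commutatorElement_inv]
        exact N.inv_mem ((h1 hc).2.2 u hu)⟩)
      fun g hg => ⟨hNG hg, hN (hNG hg), fun c hc => naa_comm hN hg (hG hc)⟩
  exact fun u hu => (h2 hu).2.2

theorem naa_cls (hM : G ≤ normalizer (M : Set Γ)) (hS : S ⊆ G) (ha : a ∈ M) : cls S a ⊆ M := by
  rintro _ ⟨σ, hσ, rfl⟩
  exact (mem_normalizer_iff.1 (hM (hS hσ)) _).1 ha

theorem naa_half (L m : ℕ) : L / (2 * m + 1 + 1) + L / (2 * m + 1 + 1) ≤ L / (m + 1) := by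
  have e : L / (2 * m + 1 + 1) = L / (m + 1) / 2 := by
    rw [Nat.div_div_eq_div_mul]
    congr 1
    ring
  omega

theorem naa_mul (hS : Sym S) {i j : ℕ} (h : i + i ≤ j) {σ σ' : Γ} (h1 : σ ∈ S ^ i)
    (h2 : σ' ∈ S ^ i) : σ * σ' ∈ S ^ j := by
  refine hS.pow_mono h ?_
  rw [pow_add]
  exact Set.mul_mem_mul h1 h2

theorem naa_conj (hN : G ≤ normalizer (N : Set Γ)) (hS : Sym S) (hG : S ⊆ G) {i j : ℕ}
    (h : i + i ≤ j) {σ g : Γ} (h1 : σ ∈ S ^ i) (h2 : g ∈ closure (cls (S ^ i) a) ⊔ N) :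
    σ * g * σ⁻¹ ∈ closure (cls (S ^ j) a) ⊔ N := by
  have h3 : cj σ (closure (cls (S ^ i) a) ⊔ N) ≤ closure (cls (S ^ j) a) ⊔ N := by
    rw [cj_sup, cj_closure, cj_eq_iff.2 (hN (pow_subset_subgroup hG i h1))]
    refine sup_le_sup_right (Subgroup.closure_mono ?_) _
    rintro _ ⟨_, ⟨τ, hτ, rfl⟩, rfl⟩
    exact ⟨σ * τ, naa_mul hS h h1 hτ, by group⟩
  exact h3 (conj_mem_cj.2 h2)

/-- a coordinatewise subset of a level lies in the level -/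
theorem naa_inn {E F : ℕ → Set Γ} (h : ∀ g : ℕ → Γ, (∀ᶠ k in om, g k ∈ E k) →
    ∀ᶠ k in om, g k ∈ F k) : ∀ᶠ k in om, E k ⊆ F k := by
  refine (ev_forall (P := fun k y => y ∈ E k → y ∈ F k) fun y => ?_).mono fun k hk y => hk y
  rcases ev_or_not fun k => y k ∈ E k with h1 | h1
  · exact (h y h1).mono fun k hk _ => hk
  · exact h1.mono fun k hk h2 => absurd h2 hk

end Grp

/-- the group generated by the conjugates and the deep stabiliser -/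
def naaA (Q : Seq T d C) (a : ℕ → T ≃g T) (S : ℕ → Set (T ≃g T)) (l k : ℕ) :
    Subgroup (T ≃g T) := closure (cls (S k ^ l) (a k)) ⊔ Q.G k (Q.n k)

/-- the size of a triple -/
noncomputable def naaSz (Q : Seq T d C) (a : ℕ → T ≃g T) (S : ℕ → Set (T ≃g T)) (L : ℕ → ℕ)
    (k : ℕ) : ℝ := ld (naaA Q a S (L k) k) (Q.G k (Q.n k))

variable {Q : Seq T d C} {a : ℕ → T ≃g T} {S : ℕ → Set (T ≃g T)} {L : ℕ → ℕ}

theorem naa_nz (Q : Seq T d C) (k r : ℕ) : Q.G k 0 ≤ normalizer (Q.G k r : Set (T ≃g T)) :=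
  Gb_nz_Gb (Q.std k).tree _ _

theorem naa_fin (Q : Seq T d C) (k r : ℕ) : Finite (Q.G k r) := (Q.std k).toHyp.finGb _ _

theorem naa_anti (Q : Seq T d C) (k : ℕ) {r r' : ℕ} (h : r ≤ r') : Q.G k r' ≤ Q.G k r :=
  Gb_anti' h

theorem naa_pos (Q : Seq T d C) : ∀ᶠ k in om, 1 ≤ Q.n k := Q.hn.eventually_ge_atTop 1

theorem naa_sym (h : Q.DS S) : ∀ᶠ k in om, Sym (S k) ∧ S k ⊆ Q.G k 0 := by
  obtain ⟨η, -, h1⟩ := h
  exact h1.mono fun k hk => ⟨hk.2, hk.1.1⟩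

theorem naa_le (h : Q.Val a S L) : ∀ᶠ k in om, ∀ l, naaA Q a S l k ≤ Q.G k 1 := by
  filter_upwards [naa_sym h.ds, h.dep.1, naa_pos Q] with k h1 h2 h3 l
  exact sup_le ((closure_le _).2 (naa_cls (naa_nz Q k 1) (pow_subset_subgroup h1.2 l) h2))
    (naa_anti Q k h3)

theorem naa_bound (h : Q.Val a S L) : ∀ᶠ k in om, naaSz Q a S L k ≤ 2 * C * Q.n k := by
  filter_upwards [naa_le h, naa_pos Q, Q.hb] with k h1 h2 h3
  have := naa_fin Q k 0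
  have h4 := ld_mono_left (Q.G k (Q.n k)) ((h1 (L k)).trans (naa_anti Q k (Nat.zero_le 1)))
  have h5 := (Q.std k).width (Q.x k) (Q.n k) (by omega)
  have h6 : (1 : ℝ) ≤ Q.n k := by exact_mod_cast h2
  have h7 := (Q.std k).one_le
  refine (h4.trans h5).trans ?_
  nlinarith

/-- a valid triple of minimal size -/
theorem naa_min (h : Q.Val a S L) : ∃ a S L, Q.Val a S L ∧ ∀ a' S' L', Q.Val a' S' L' →
    ∀ ε : ℝ, 0 < ε → ∀ᶠ k in om, naaSz Q a S L k ≤ naaSz Q a' S' L' k + ε * Q.n k := by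
  obtain ⟨I, hI⟩ : ∃ I : Set ℝ, ∀ t, t ∈ I ↔
      ∃ a S L, Q.Val a S L ∧ ∀ᶠ k in om, naaSz Q a S L k ≤ t * Q.n k :=
    ⟨{t | ∃ a S L, Q.Val a S L ∧ ∀ᶠ k in om, naaSz Q a S L k ≤ t * Q.n k}, fun _ => Iff.rfl⟩
  have hne : I.Nonempty := ⟨2 * C, (hI _).2 ⟨a, S, L, h, naa_bound h⟩⟩
  have hbd : BddBelow I := by
    refine ⟨0, fun t ht => ?_⟩
    obtain ⟨a, S, L, -, h1⟩ := (hI t).1 ht
    obtain ⟨k, h2, h3⟩ := (h1.and (naa_pos Q)).exists
    have h4 : (0 : ℝ) < Q.n k := by exact_mod_cast h3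
    exact le_of_mul_le_mul_right (by rw [zero_mul]; exact (ld_nonneg _ _).trans h2) h4
  have hlow : ∀ a' S' L', Q.Val a' S' L' → ∀ ε : ℝ, 0 < ε →
      ∀ᶠ k in om, (sInf I - ε) * Q.n k ≤ naaSz Q a' S' L' k := by
    intro a' S' L' h' ε hε
    rcases ev_or_not fun k => naaSz Q a' S' L' k ≤ (sInf I - ε) * Q.n k with h1 | h1
    · have := csInf_le hbd ((hI _).2 ⟨a', S', L', h', h1⟩)
      linarith
    · exact h1.mono fun k hk => (not_le.1 hk).le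
  have hex : ∀ m : ℕ, ∃ a S L, Q.Val a S L ∧
      ∀ᶠ k in om, naaSz Q a S L k ≤ (sInf I + 1 / ((m : ℝ) + 1)) * Q.n k := by
    intro m
    obtain ⟨t, ht, h1⟩ := exists_lt_of_csInf_lt hne
      (lt_add_of_pos_right (sInf I) (show (0 : ℝ) < 1 / ((m : ℝ) + 1) by positivity))
    obtain ⟨a, S, L, h2, h3⟩ := (hI t).1 ht
    exact ⟨a, S, L, h2, h3.mono fun k hk =>
      hk.trans (mul_le_mul_of_nonneg_right h1.le (Nat.cast_nonneg _))⟩
  choose a S L hv hs using hex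
  obtain ⟨μ, hμ, hP⟩ := slow_diag (P := fun m k => a m k ∈ Q.G k 1 ∧
      a m k ∉ Q.G k (Q.n k / (m + 1)) ∧ Dn (S m k) (Q.G k 0) ((Q.n k : ℝ) / (m + 1)) ∧
      Sym (S m k) ∧ m ≤ L m k ∧
      (∀ u ∈ cls (S m k ^ L m k) (a m k), ∀ u' ∈ cls (S m k ^ L m k) (a m k),
        ⁅u, u'⁆ ∈ Q.G k (Q.n k)) ∧
      naaSz Q (a m) (S m) (L m) k ≤ (sInf I + 1 / ((m : ℝ) + 1)) * Q.n k) fun m => by
    obtain ⟨η, h1, h2⟩ := (hv m).ds
    filter_upwards [(hv m).dep.1, (hv m).dep.2 m, sm_iff.1 h1 m, h2,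
      (hv m).hL.eventually_ge_atTop m, (hv m).comm, hs m] with k k1 k2 k3 k4 k5 k6 k7
    have := naa_fin Q k 0
    exact ⟨k1, k2, k4.1.mono subset_rfl k4.1.1 k3, k4.2, k5, k6, k7⟩
  have hP' := hP.mono fun k hk => hk (μ k) le_rfl
  refine ⟨fun k => a (μ k) k, fun k => S (μ k) k, fun k => L (μ k) k,
    ⟨⟨hP'.mono fun k hk => hk.1, fun m => ?_⟩, ⟨fun k => 1 * ((Q.n k : ℝ) / (μ k + 1)),
      Sm.div Q.hn hμ 1, hP'.mono fun k hk => ⟨by simpa only [one_mul] using hk.2.2.1, hk.2.2.2.1⟩⟩,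
      tendsto_atTop_mono' _ (hP'.mono fun k hk => hk.2.2.2.2.1) hμ,
      hP'.mono fun k hk => hk.2.2.2.2.2.1⟩, fun a' S' L' h' ε hε => ?_⟩
  · filter_upwards [hP', hμ.eventually_ge_atTop m] with k k1 k2 k3
    exact k1.2.1 (naa_anti Q k (Nat.div_le_div_left (by omega) (Nat.succ_pos m)) k3)
  · obtain ⟨m, hm⟩ := exists_nat_one_div_lt (half_pos hε)
    filter_upwards [hP', hμ.eventually_ge_atTop m, hlow a' S' L' h' _ (half_pos hε)]
      with k k1 k2 k3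
    have k4 : naaSz Q (fun k => a (μ k) k) (fun k => S (μ k) k) (fun k => L (μ k) k) k ≤
        (sInf I + 1 / ((μ k : ℝ) + 1)) * Q.n k := k1.2.2.2.2.2.2
    have k5 : 1 / ((μ k : ℝ) + 1) ≤ 1 / ((m : ℝ) + 1) := Nat.one_div_le_one_div k2
    have k6 : 1 / ((μ k : ℝ) + 1) * Q.n k ≤ ε / 2 * Q.n k :=
      mul_le_mul_of_nonneg_right (k5.trans hm.le) (Nat.cast_nonneg _)
    linarith

/-- sequences of words of length `o(L)` -/
def naaD (hS : Q.DS S) (L : ℕ → ℕ) : Subgroup (ℕ → T ≃g T) where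
  carrier := {σ | ∀ m, ∀ᶠ k in om, σ k ∈ S k ^ (L k / (m + 1))}
  one_mem' := fun _ => (naa_sym hS).mono fun _ hk => (hk.1.pow _).1
  mul_mem' := fun {σ σ'} h1 h2 m => by
    filter_upwards [naa_sym hS, h1 (2 * m + 1), h2 (2 * m + 1)] with k k1 k2 k3
    exact naa_mul k1.1 (naa_half _ m) k2 k3
  inv_mem' := fun {σ} h1 m => by
    filter_upwards [naa_sym hS, h1 m] with k k1 k2
    rw [← (k1.1.pow _).2]
    exact Set.inv_mem_inv.2 k2

/-- sequences in the groups generated by conjugates under words of length `o(L)` -/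
def naaB (Q : Seq T d C) (a : ℕ → T ≃g T) (S : ℕ → Set (T ≃g T)) (L : ℕ → ℕ) :
    Subgroup (ℕ → T ≃g T) where
  carrier := {g | ∀ m, ∀ᶠ k in om, g k ∈ naaA Q a S (L k / (m + 1)) k}
  one_mem' := fun _ => Eventually.of_forall fun _ => one_mem _
  mul_mem' := fun {σ σ'} h1 h2 m => by
    filter_upwards [h1 m, h2 m] with k k2 k3
    exact mul_mem k2 k3
  inv_mem' := fun {σ} h1 m => by
    filter_upwards [h1 m] with k k2
    exact inv_mem k2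

theorem exists_NAS (Q : Seq T d C) {a : ℕ → T ≃g T} {S : ℕ → Set (T ≃g T)} {L : ℕ → ℕ}
    (h : Q.Val a S L) : Nonempty (NAS Q) := by
  obtain ⟨a, S, L, h, hmin⟩ := naa_min h
  have hnz : ∀ σ ∈ naaD h.ds L, ∀ g ∈ naaB Q a S L, σ * g * σ⁻¹ ∈ naaB Q a S L := by
    intro σ hσ g hg m
    filter_upwards [naa_sym h.ds, hσ (2 * m + 1), hg (2 * m + 1)] with k k1 k2 k3
    exact naa_conj (naa_nz Q k _) k1.1 k1.2 (naa_half _ m) k2 k3
  have hlev : ∀ E : ℕ → Set (T ≃g T), Inn E (naaB Q a S L) → ∀ m,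
      ∀ᶠ k in om, E k ⊆ naaA Q a S (L k / (m + 1)) k := fun E hE m =>
    naa_inn fun g hg => hE g hg m
  have htop : ∀ E : ℕ → Set (T ≃g T), Inn E (naaB Q a S L) →
      ∀ᶠ k in om, E k ⊆ naaA Q a S (L k) k := fun E hE =>
    (hlev E hE 0).mono fun k hk => by rwa [zero_add, Nat.div_one] at hk
  have hab : ∀ᶠ k in om, ∀ u ∈ naaA Q a S (L k) k, ∀ u' ∈ naaA Q a S (L k) k,
      ⁅u, u'⁆ ∈ Q.G k (Q.n k) := by
    filter_upwards [naa_sym h.ds, h.dep.1, h.comm] with k k1 k2 k3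
    exact naa_ab (naa_nz Q k _) (naa_anti Q k (Nat.zero_le _))
      (naa_cls (naa_nz Q k 0) (pow_subset_subgroup k1.2 _) (naa_anti Q k (Nat.zero_le 1) k2)) k3
  refine ⟨⟨naaD h.ds L, naaB Q a S L, fun k => naaA Q a S (L k) k,
    ⟨fun m k => S k ^ (L k / (m + 1)), fun _ => Iff.rfl⟩,
    ⟨fun m k => naaA Q a S (L k / (m + 1)) k, fun _ => Iff.rfl⟩, fun σ hσ => ?_,
    ⟨S, h.ds, fun g hg m => ?_⟩, hnz, fun E hE g hg m => ?_, htop,
    (naa_le h).mono fun k hk => hk _, hab, ⟨a, fun m => ?_, h.dep⟩,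
    fun z S' L' hz hd hS' hL' hI ε hε => ?_⟩⟩
  · change ∀ᶠ k in om, σ k ∈ Q.G k 0
    filter_upwards [naa_sym h.ds, hσ 0] with k k1 k2
    exact pow_subset_subgroup k1.2 _ k2
  · filter_upwards [naa_sym h.ds, hg, h.hL.eventually_ge_atTop (m + 1)] with k k1 k2 k3
    refine k1.1.pow_mono ((Nat.one_le_div_iff (Nat.succ_pos m)).2 k3) ?_
    rwa [pow_one]
  · filter_upwards [hlev E hE m, hg] with k k1 k2
    exact (closure_le _).2 k1 k2
  · filter_upwards [naa_sym h.ds] with k k1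
    exact mem_sup_left (subset_closure ⟨1, (k1.1.pow _).1, by group⟩)
  · have h1 : Inn (fun k => cls (S' k ^ L' k) (z k)) (naaB Q a S L) := by
      intro g hg m
      obtain ⟨σ, hσ⟩ := ev_choice (P := fun k σ => σ ∈ S' k ^ L' k ∧ g k = σ * z k * σ⁻¹) hg
      filter_upwards [hσ, hnz σ (hI σ (hσ.mono fun k hk => hk.1)) z hz m] with k k1 k2
      rw [k1.2]
      exact k2
    have h2 := htop _ h1
    have h3 : Q.Val z S' L' := ⟨hd, hS', hL', by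
      filter_upwards [h2, hab] with k k1 k2 u hu u' hu'
      exact k2 u (k1 hu) u' (k1 hu')⟩
    filter_upwards [h2, naa_le h, hmin z S' L' h3 ε hε] with k k1 k2 k3
    have := naa_fin Q k 1
    have := fin_of_le (k2 (L k))
    have k4 : naaA Q z S' (L' k) k ≤ naaA Q a S (L k) k :=
      sup_le ((closure_le _).2 k1) le_sup_right
    have k5 : naaSz Q a S L k = ld (naaA Q a S (L k) k) (naaA Q z S' (L' k) k) +
        naaSz Q z S' L' k := ld_add k4 le_sup_right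
    change ld (naaA Q a S (L k) k) (naaA Q z S' (L' k) k) ≤ ε * Q.n k
    linarith

end Pool.Agent.PSV
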