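import Pool.Agent.Lib.MP_607584_al.PSV.NAa

/-! No almost normal abelian subgroup, part b: conjugates commute locally. -/

namespace Pool.Agent.PSV

open Subgroup Filter
open scoped Pointwise commutatorElement

section Fin

variable {Γ : Type*} [Group Γ]

private theorem nab_conj_pow (g : Γ) (S : Set Γ) (L : ℕ) :
    ((fun s => g * s * g⁻¹) '' S) ^ L = (fun s => g * s * g⁻¹) '' (S ^ L) := by
  have h := Set.image_pow (MulAut.conj g) S L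
  exact h.symm

private theorem nab_nz {X M : Subgroup Γ} (hM : X ≤ normalizer (M : Set Γ)) {x m : Γ}
    (hx : x ∈ X) (hm : m ∈ M) : x * m * x⁻¹ ∈ M :=
  (mem_normalizer_iff.1 (hM hx) m).1 hm

private theorem nab_le_CM {X M : Subgroup Γ} (hM : X ≤ normalizer (M : Set Γ)) (hMX : M ≤ X)
    {c : Γ} (hc : c ∈ X) : M ≤ CM X M {c} := by
  intro m hm
  refine ⟨hMX hm, hM (hMX hm), ?_⟩
  rintro c' rfl
  have e : ⁅m, c'⁆ = m * (c' * m⁻¹ * c'⁻¹) := by simp only [commutatorElement_def]; group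
  rw [e]
  exact M.mul_mem hm (nab_nz hM hc (M.inv_mem hm))

/-- the finite step: a dense symmetric set all of whose conjugates of the commutator agree
modulo `M` -/
private theorem nab_fin {X M Gn top A1 A2 : Subgroup Γ} [Finite X] {g a a' : Γ} {S : Set Γ}
    {η : ℝ} (hS : Dn S X η) (hM : X ≤ normalizer (M : Set Γ)) (hMX : M ≤ X) (htop : top ≤ X)
    (hab : ∀ u ∈ top, ∀ u' ∈ top, ⁅u, u'⁆ ∈ Gn) (hGn : Gn ≤ M)
    (hGn' : ∀ y ∈ Gn, g * y * g⁻¹ ∈ M) (ha' : a' ∈ X)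
    (h1 : ∀ σ ∈ S, σ * a * σ⁻¹ ∈ top) (h2 : ∀ σ ∈ S, g⁻¹ * (σ * a' * σ⁻¹) * g ∈ top)
    (hA1 : A1 ≤ top) (hA1' : A1 ≤ cj g top) (hA2' : cj g A2 ≤ top) :
    ∃ S3 : Set Γ, Dn S3 X (η + ld top (A1 ⊔ Gn) + ld top (A2 ⊔ Gn)) ∧ Sym S3 ∧
      ∀ u ∈ cls S3 ⁅a, a'⁆, ∀ u' ∈ cls S3 ⁅a, a'⁆, u⁻¹ * u' ∈ M := by
  have : Finite top := fin_of_le htop
  obtain ⟨S1, hS1, hD1, hf1⟩ := hS.fibre (fun σ => σ * a * σ⁻¹) h1 (A1 ⊔ Gn)
  obtain ⟨S0, hS0, hD0, hf2⟩ := hD1.fibre (fun σ => g⁻¹ * (σ * a' * σ⁻¹) * g)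
    (fun σ hσ => h2 σ (hS1 hσ)) (A2 ⊔ Gn)
  have hX : S0 ⊆ X := hD0.1
  -- congruence of the conjugates of the commutator
  have key : ∀ σ ∈ S0, ∀ σ' ∈ S0,
      (σ * ⁅a, a'⁆ * σ⁻¹)⁻¹ * (σ' * ⁅a, a'⁆ * σ'⁻¹) ∈ M := by
    intro σ hσ σ' hσ'
    have hp : σ * a * σ⁻¹ ∈ top := h1 σ (hS1 (hS0 hσ))
    have hq : σ * a' * σ⁻¹ ∈ X := X.mul_mem (X.mul_mem (hX hσ) ha') (X.inv_mem (hX hσ))
    have hq' : σ' * a' * σ'⁻¹ ∈ X := X.mul_mem (X.mul_mem (hX hσ') ha') (X.inv_mem (hX hσ'))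
    have hq't : g⁻¹ * (σ' * a' * σ'⁻¹) * g ∈ top := h2 σ' (hS1 (hS0 hσ'))
    have hu := hf1 σ (hS0 hσ) σ' (hS0 hσ')
    have hv := hf2 σ hσ σ' hσ'
    have c1 : A1 ⊔ Gn ≤ CM X M {σ' * a' * σ'⁻¹} := by
      refine sup_le ?_ (hGn.trans (nab_le_CM hM hMX hq'))
      intro α hα
      refine ⟨htop (hA1 hα), hM (htop (hA1 hα)), ?_⟩
      rintro c rfl
      have h3 := hGn' _ (hab _ (mem_cj.1 (hA1' hα)) _ hq't)
      have e : g * ⁅g⁻¹ * α * g, g⁻¹ * (σ' * a' * σ'⁻¹) * g⁆ * g⁻¹ = ⁅α, σ' * a' * σ'⁻¹⁆ := by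
        simp only [commutatorElement_def]; group
      rwa [e] at h3
    have c2 : cj g (A2 ⊔ Gn) ≤ CM X M {σ * a * σ⁻¹} := by
      rw [cj_sup]
      refine sup_le ?_ (le_trans ?_ (nab_le_CM hM hMX (htop hp)))
      · intro α hα
        refine ⟨htop (hA2' hα), hM (htop (hA2' hα)), ?_⟩
        rintro c rfl
        exact hGn (hab _ (hA2' hα) _ hp)
      · intro y hy
        have h3 := hGn' _ (mem_cj.1 hy)
        have e : g * (g⁻¹ * y * g) * g⁻¹ = y := by group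
        rwa [e] at h3
    have m1 := (c1 hu).2.2 _ rfl
    have m2 := (c2 (conj_mem_cj.2 hv)).2.2 _ rfl
    set p := σ * a * σ⁻¹ with hpdef
    set q := σ * a' * σ⁻¹ with hqdef
    set p' := σ' * a * σ'⁻¹ with hp'def
    set q' := σ' * a' * σ'⁻¹ with hq'def
    have e1 : σ * ⁅a, a'⁆ * σ⁻¹ = ⁅p, q⁆ := by
      simp only [hpdef, hqdef, commutatorElement_def]; group
    have e2 : σ' * ⁅a, a'⁆ * σ'⁻¹ = ⁅p', q'⁆ := by
      simp only [hp'def, hq'def, commutatorElement_def]; group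
    have hpq : ⁅p, q⁆⁻¹ * p ∈ X := by
      rw [commutatorElement_def]
      exact X.mul_mem (X.inv_mem (X.mul_mem (X.mul_mem (X.mul_mem (htop hp) hq)
        (X.inv_mem (htop hp))) (X.inv_mem hq))) (htop hp)
    have e3 : ⁅p, q⁆⁻¹ * ⁅p', q'⁆ = (⁅p, q⁆⁻¹ * p) * ⁅p⁻¹ * p', q'⁆ * (⁅p, q⁆⁻¹ * p)⁻¹ *
        (q * ⁅g * ((g⁻¹ * q * g)⁻¹ * (g⁻¹ * q' * g)) * g⁻¹, p⁆⁻¹ * q⁻¹) := by
      simp only [commutatorElement_def]; group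
    rw [e1, e2, e3]
    exact M.mul_mem (nab_nz hM hpq m1) (nab_nz hM hq (M.inv_mem m2))
  have hsub : S0⁻¹ * S0 ⊆ X := by
    rintro _ ⟨s, hs, t, ht, rfl⟩
    have : s ∈ X := by
      have := X.inv_mem (hX hs)
      rwa [inv_inv] at this
    exact X.mul_mem this (hX ht)
  refine ⟨S0⁻¹ * S0, (hD0.sub le_rfl).mono Set.inter_subset_left hsub le_rfl,
    sym_inv_mul hD0.nonempty, ?_⟩
  have one : ∀ u ∈ cls (S0⁻¹ * S0) ⁅a, a'⁆, ⁅a, a'⁆⁻¹ * u ∈ M := by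
    rintro _ ⟨_, ⟨s, hs, t, ht, rfl⟩, rfl⟩
    have h3 := nab_nz hM (X.inv_mem (hX hs)) (key _ hs _ ht)
    have e : s⁻¹⁻¹ * ((s⁻¹ * ⁅a, a'⁆ * s⁻¹⁻¹)⁻¹ * (t * ⁅a, a'⁆ * t⁻¹)) * s⁻¹⁻¹⁻¹ =
        ⁅a, a'⁆⁻¹ * (s * t * ⁅a, a'⁆ * (s * t)⁻¹) := by group
    rwa [e] at h3
  intro u hu u' hu'
  have e : u⁻¹ * u' = (⁅a, a'⁆⁻¹ * u)⁻¹ * (⁅a, a'⁆⁻¹ * u') := by group
  rw [e]
  exact M.mul_mem (M.inv_mem (one u hu)) (one u' hu')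

end Fin

variable {V : Type} {T : SimpleGraph V} {d : ℕ} {C : ℝ} {Q : Seq T d C}

private theorem nab_inn_ev {Y : Type*} [Nonempty Y] {E : ℕ → Set Y} {P : ℕ → Y → Prop}
    (h : ∀ y : ℕ → Y, (∀ᶠ k in om, y k ∈ E k) → ∀ᶠ k in om, P k (y k)) :
    ∀ᶠ k in om, ∀ y ∈ E k, P k y := by
  refine ev_forall (P := fun k y => y ∈ E k → P k y) fun y => ?_
  rcases ev_or_not (fun k => y k ∈ E k) with h1 | h1
  · exact (h y h1).mono fun k hk _ => hk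
  · exact h1.mono fun k hk h2 => absurd h2 hk

private theorem nab_cls_top (N : NAS Q) {E : ℕ → Set (T ≃g T)} (hE : Inn E N.D)
    {a : ℕ → T ≃g T} (ha : a ∈ N.A) : ∀ᶠ k in om, cls (E k) (a k) ⊆ N.top k := by
  refine N.A_top (fun k => cls (E k) (a k)) fun y hy => ?_
  obtain ⟨σ, hσ⟩ := ev_choice (P := fun k σ => σ ∈ E k ∧ y k = σ * a k * σ⁻¹) hy
  have h1 : σ ∈ N.D := hE σ (hσ.mono fun k hk => hk.1)
  exact N.wA.congr (N.nz σ h1 a ha) (hσ.mono fun k hk => hk.2.symm)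

private theorem nab_dep (N : NAS Q) {z : ℕ → T ≃g T} (hz : z ∈ N.A) (hs : Q.Shal z) :
    Q.Dep0 z := by
  refine ⟨?_, hs⟩
  have h1 := N.A_top (fun k => {z k}) fun y hy =>
    N.wA.congr hz (hy.mono fun k hk => (Set.mem_singleton_iff.1 hk).symm)
  filter_upwards [h1, N.top_le] with k h1 h2
  exact h2 (h1 rfl)

private theorem nab_inn_conj {D : Subgroup (ℕ → T ≃g T)} {g : ℕ → T ≃g T}
    {E : ℕ → Set (T ≃g T)} (hE : Inn E (cj g D : Subgroup (ℕ → T ≃g T))) :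
    Inn (fun k => (fun s => g⁻¹ k * s * (g⁻¹ k)⁻¹) '' E k) D := by
  intro y hy
  have h1 : g * y * g⁻¹ ∈ cj g D := by
    refine hE _ (hy.mono ?_)
    rintro k ⟨s, hs, e⟩
    have e2 : (g * y * g⁻¹) k = s := by
      simp only [Pi.mul_apply, Pi.inv_apply] at e ⊢
      rw [← e]; group
    rwa [e2]
  exact conj_mem_cj.1 h1

theorem NAS.not_shal (N : NAS Q) {g a a' : ℕ → T ≃g T} (hg : Q.Short g)
    (ha : a ∈ N.A ⊓ cj g N.D) (ha' : a' ∈ cj g N.A ⊓ N.D) : ¬ Q.Shal ⁅a, a'⁆ := by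
  intro hz
  have hgi : Q.Short g⁻¹ := Q.SG.inv_mem hg
  have hb : g⁻¹ * a * g ∈ N.D := mem_cj.1 ha.2
  have hb' : g⁻¹ * a' * g⁻¹⁻¹ ∈ N.A := by rw [inv_inv]; exact mem_cj.1 ha'.1
  have hzA : ⁅a, a'⁆ ∈ N.A := by
    have e : ⁅a, a'⁆ = a * (a' * a⁻¹ * a'⁻¹) := by simp only [commutatorElement_def]; group
    rw [e]
    exact N.A.mul_mem ha.1 (N.nz a' ha'.2 _ (N.A.inv_mem ha.1))
  have hzA' : g⁻¹ * ⁅a, a'⁆ * g⁻¹⁻¹ ∈ N.A := by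
    have e : g⁻¹ * ⁅a, a'⁆ * g⁻¹⁻¹ = (g⁻¹ * a * g) * (g⁻¹ * a' * g⁻¹⁻¹) * (g⁻¹ * a * g)⁻¹ *
        (g⁻¹ * a' * g⁻¹⁻¹)⁻¹ := by simp only [commutatorElement_def]; group
    rw [e]
    exact N.A.mul_mem (N.nz _ hb _ hb') (N.A.inv_mem hb')
  have hd : Q.Dep0 ⁅a, a'⁆ := nab_dep N hzA hz
  have hd' : Q.Dep0 (g⁻¹ * ⁅a, a'⁆ * g⁻¹⁻¹) := nab_dep N hzA' (hz.conj hgi)
  obtain ⟨S, hS, hSD⟩ := N.dense.inf (N.dense.conj hg)
  have hW : Wedge ((N.D ⊓ cj g N.D : Subgroup (ℕ → T ≃g T)) : Set (ℕ → T ≃g T)) := by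
    rw [Subgroup.coe_inf]
    exact N.wD.inter (N.wD.cj g)
  obtain ⟨L, hL, hSL⟩ := hW.slow_pow hSD
  have i1 : Inn S N.D := fun y hy => (hSD y hy).1
  have i2 : Inn S (cj g N.D : Subgroup (ℕ → T ≃g T)) := fun y hy => (hSD y hy).2
  have i3 : Inn (fun k => S k ^ L k) N.D := fun y hy => (hSL y hy).1
  have i4 : Inn (fun k => S k ^ L k) (cj g N.D : Subgroup (ℕ → T ≃g T)) :=
    fun y hy => (hSL y hy).2
  have j2 := nab_inn_conj i2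
  have j4 : Inn (fun k => ((fun s => g⁻¹ k * s * (g⁻¹ k)⁻¹) '' S k) ^ L k) N.D := by
    have := nab_inn_conj i4
    simpa only [nab_conj_pow] using this
  have hS' : Q.DS fun k => (fun s => g⁻¹ k * s * (g⁻¹ k)⁻¹) '' S k := by
    refine hS.conj hgi (nab_inn_ev fun y hy => ?_)
    have h1 : g⁻¹ * y * g ∈ N.D := mem_cj.1 (i2 y hy)
    have h2 : ∀ᶠ k in om, (g⁻¹ * y * g) k ∈ Q.G k 0 := N.D_le h1
    refine h2.mono fun k hk => ?_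
    simpa only [Pi.mul_apply, Pi.inv_apply, inv_inv] using hk
  have m1 := N.ml _ S L hzA hd hS hL i3
  have m2 := N.ml _ _ L hzA' hd' hS' hL j4
  obtain ⟨η, hη, hDn⟩ := hS
  have t1 := nab_cls_top N i1 ha.1
  have t2 := nab_cls_top N j2 hb'
  have t3 := nab_cls_top N i3 hzA
  have t4 := nab_cls_top N j4 hzA'
  have t5 := hg.shift (m := 0) (m' := 1) (a := 1) (a' := 1) (by norm_num)
  have t6 : ∀ᶠ k in om, a' k ∈ Q.G k 0 := N.D_le ha'.2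
  have main : ∀ᶠ k in om, ∃ S3 : Set (T ≃g T), Dn S3 (Q.G k 0) (η k +
      ld (N.top k) (closure (cls (S k ^ L k) (⁅a, a'⁆ k)) ⊔ Q.G k (Q.n k)) +
      ld (N.top k) (closure (cls (((fun s => g⁻¹ k * s * (g⁻¹ k)⁻¹) '' S k) ^ L k)
        ((g⁻¹ * ⁅a, a'⁆ * g⁻¹⁻¹) k)) ⊔ Q.G k (Q.n k))) ∧ Sym S3 ∧
      ∀ u ∈ cls S3 (⁅a, a'⁆ k), ∀ u' ∈ cls S3 (⁅a, a'⁆ k), u⁻¹ * u' ∈ Q.G k (Q.n k / 2) := by
    filter_upwards [hDn, t1, t2, t3, t4, t5, t6, N.top_le, N.ab] with k hDn t1 t2 t3 t4 t5 t6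
      t7 t8
    have : Finite (Q.G k 0) := (Q.std k).toHyp.finGb _ _
    have hT : T.IsTree := (Q.std k).tree
    refine nab_fin (g := g k) hDn.1 (Gb_nz_Gb hT _ _) (Gb_anti' (Nat.zero_le _))
      (t7.trans (Gb_anti' (Nat.zero_le _))) t8 (Gb_anti' (Nat.div_le_self _ _)) ?_ t6 ?_ ?_
      ((closure_le _).2 t3) ?_ ?_
    · intro y hy
      have h1 := t5 y (by simpa using hy)
      simpa using h1
    · intro σ hσ
      exact t1 ⟨σ, hσ, rfl⟩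
    · intro σ hσ
      refine t2 ⟨_, ⟨σ, hσ, rfl⟩, ?_⟩
      simp only [Pi.mul_apply, Pi.inv_apply]; group
    · refine (closure_le _).2 ?_
      rintro _ ⟨σ, hσ, rfl⟩
      refine mem_cj.2 (t4 ⟨(g⁻¹ k) * σ * (g⁻¹ k)⁻¹, ?_, ?_⟩)
      · rw [nab_conj_pow]; exact ⟨σ, hσ, rfl⟩
      · simp only [Pi.mul_apply, Pi.inv_apply]; group
    · rw [cj_closure]
      refine (closure_le _).2 ?_
      rintro _ ⟨_, ⟨τ, hτ, rfl⟩, rfl⟩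
      rw [nab_conj_pow] at hτ
      obtain ⟨σ, hσ, rfl⟩ := hτ
      refine t3 ⟨σ, hσ, ?_⟩
      simp only [Pi.mul_apply, Pi.inv_apply]; group
  obtain ⟨S3, hS3⟩ := ev_choice main
  have hds : Q.DS S3 := ⟨_, (hη.add m1).add m2, hS3.mono fun k hk => ⟨hk.1, hk.2.1⟩⟩
  have hn : ∀ᶠ k in om, 1 ≤ Q.n k := Q.hn.eventually_ge_atTop 1
  have hfalse : ∀ᶠ k in om, False := by
    filter_upwards [hS3, hd.many hds 1, hn] with k h1 h2 h3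
    obtain ⟨F, hF, hc, hne⟩ := h2
    have h4 : (1 : ℝ) < F.card := by
      refine lt_of_lt_of_le ?_ hc
      refine Real.one_lt_exp_iff.2 ?_
      have : (1 : ℝ) ≤ Q.n k := by exact_mod_cast h3
      positivity
    obtain ⟨u, hu, u', hu', huu⟩ := Finset.one_lt_card.1 (by exact_mod_cast h4)
    exact hne u hu u' hu' huu (h1.2.2 u (hF hu) u' (hF hu'))
  exact hfalse.exists.elim fun _ h => h

private theorem nab_tend_min {μ ν : ℕ → ℕ} (h1 : Tendsto μ om atTop) (h2 : Tendsto ν om atTop) :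
    Tendsto (fun k => min (μ k) (ν k)) om atTop := by
  refine tendsto_atTop.2 fun b => ?_
  filter_upwards [h1.eventually_ge_atTop b, h2.eventually_ge_atTop b] with k k1 k2
  exact le_min k1 k2

/-- uniform depth, for two arbitrary short conjugates -/
theorem NAS.unif (N : NAS Q) : ∃ m : ℕ, ∀ g g' a a' : ℕ → T ≃g T, Q.Short g → Q.Short g' →
    a ∈ cj g N.A ⊓ cj g' N.D → a' ∈ cj g' N.A ⊓ cj g N.D →
    ∀ᶠ k in om, ⁅a k, a' k⁆ ∈ Q.G k (Q.n k / (m + 1)) := by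
  by_contra hcon
  push Not at hcon
  choose g g' a a' hg hg' ha ha' hne using hcon
  obtain ⟨μ1, l1, d1⟩ := Q.wedge_SG.diag (a := g) hg
  obtain ⟨μ2, l2, d2⟩ := Q.wedge_SG.diag (a := g') hg'
  obtain ⟨μ3, l3, d3⟩ := N.wA.diag (a := fun m => (g m)⁻¹ * a m * g m)
    fun m => mem_cj.1 (ha m).1
  obtain ⟨μ4, l4, d4⟩ := N.wD.diag (a := fun m => (g' m)⁻¹ * a m * g' m)
    fun m => mem_cj.1 (ha m).2
  obtain ⟨μ5, l5, d5⟩ := N.wA.diag (a := fun m => (g' m)⁻¹ * a' m * g' m)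
    fun m => mem_cj.1 (ha' m).1
  obtain ⟨μ6, l6, d6⟩ := N.wD.diag (a := fun m => (g m)⁻¹ * a' m * g m)
    fun m => mem_cj.1 (ha' m).2
  obtain ⟨μ7, l7, d7⟩ := slow_diag
    (P := fun m k => ⁅a m k, a' m k⁆ ∉ Q.G k (Q.n k / (m + 1))) hne
  obtain ⟨ν, hν, k1, k2, k3, k4, k5, k6, k7⟩ : ∃ ν : ℕ → ℕ, Tendsto ν om atTop ∧
      (∀ k, ν k ≤ μ1 k) ∧ (∀ k, ν k ≤ μ2 k) ∧ (∀ k, ν k ≤ μ3 k) ∧ (∀ k, ν k ≤ μ4 k) ∧
      (∀ k, ν k ≤ μ5 k) ∧ (∀ k, ν k ≤ μ6 k) ∧ (∀ k, ν k ≤ μ7 k) := by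
    refine ⟨fun k => min (μ1 k) (min (μ2 k) (min (μ3 k) (min (μ4 k) (min (μ5 k)
      (min (μ6 k) (μ7 k)))))), nab_tend_min l1 (nab_tend_min l2 (nab_tend_min l3
      (nab_tend_min l4 (nab_tend_min l5 (nab_tend_min l6 l7))))), ?_, ?_, ?_, ?_, ?_, ?_, ?_⟩ <;>
    intro k <;> beta_reduce <;> omega
  set γ : ℕ → T ≃g T := fun k => g (ν k) k with hγdef
  set γ' : ℕ → T ≃g T := fun k => g' (ν k) k with hγ'def
  set α : ℕ → T ≃g T := fun k => a (ν k) k with hαdef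
  set α' : ℕ → T ≃g T := fun k => a' (ν k) k with hα'def
  have e1 : γ ∈ Q.SG := d1 ν hν (Eventually.of_forall k1)
  have e2 : γ' ∈ Q.SG := d2 ν hν (Eventually.of_forall k2)
  have e3 : γ⁻¹ * α * γ ∈ N.A := d3 ν hν (Eventually.of_forall k3)
  have e4 : γ'⁻¹ * α * γ' ∈ N.D := d4 ν hν (Eventually.of_forall k4)
  have e5 : γ'⁻¹ * α' * γ' ∈ N.A := d5 ν hν (Eventually.of_forall k5)
  have e6 : γ⁻¹ * α' * γ ∈ N.D := d6 ν hν (Eventually.of_forall k6)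
  have hsh : Q.Shal ⁅α, α'⁆ := by
    intro m
    filter_upwards [d7, hν.eventually_ge_atTop m] with k h1 h2
    intro h3
    refine h1 (ν k) (k7 k) (Gb_anti' ?_ h3)
    exact Nat.div_le_div_left (by omega) (by omega)
  have hγi : Q.Short γ⁻¹ := Q.SG.inv_mem e1
  have hγγ : Q.Short (γ⁻¹ * γ') := Q.SG.mul_mem (Q.SG.inv_mem e1) e2
  refine N.not_shal (a := γ⁻¹ * α * γ) (a' := γ⁻¹ * α' * γ) hγγ ⟨e3, mem_cj.2 ?_⟩
    ⟨mem_cj.2 ?_, e6⟩ ?_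
  · have e : (γ⁻¹ * γ')⁻¹ * (γ⁻¹ * α * γ) * (γ⁻¹ * γ') = γ'⁻¹ * α * γ' := by group
    rwa [e]
  · have e : (γ⁻¹ * γ')⁻¹ * (γ⁻¹ * α' * γ) * (γ⁻¹ * γ') = γ'⁻¹ * α' * γ' := by group
    rwa [e]
  · have e : ⁅γ⁻¹ * α * γ, γ⁻¹ * α' * γ⁆ = γ⁻¹ * ⁅α, α'⁆ * γ⁻¹⁻¹ := by
      simp only [commutatorElement_def]; group
    rw [e]
    exact hsh.conj hγi

end Pool.Agent.PSV
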