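import Pool.Agent.Lib.MP_607584_al.PSV.NAb

/-! No almost normal abelian subgroup, part c: the contradiction. -/

namespace Pool.Agent.PSV

open Subgroup Filter
open scoped Pointwise commutatorElement

section Fin

variable {Γ : Type*} [Group Γ]

theorem nac_ld_sup {Y M : Subgroup Γ} (h : Y ≤ normalizer (M : Set Γ)) :
    ld (Y ⊔ M) M = ld Y M := by
  have h1 : Y ⊔ M ≤ normalizer (M : Set Γ) := sup_le h le_normalizer
  unfold ld
  rw [← relIndex_subgroupOf h1, ← relIndex_subgroupOf h, subgroupOf_sup h le_normalizer,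
    relIndex_sup_right]

theorem nac_nz {B Z M : Subgroup Γ} (hc : ∀ a ∈ B, ∀ b ∈ B, ⁅a, b⁆ ∈ Z) (h1 : M ≤ B)
    (h2 : Z ⊓ B ≤ M) : B ≤ normalizer (M : Set Γ) := by
  have key : ∀ b ∈ B, ∀ y ∈ M, b * y * b⁻¹ ∈ M := fun b hb y hy => by
    have e : b * y * b⁻¹ = ⁅b, y⁆ * y := by
      rw [commutatorElement_def]
      group
    rw [e]
    refine M.mul_mem (h2 ⟨hc b hb y (h1 hy), ?_⟩) hy
    exact B.mul_mem (B.mul_mem (B.mul_mem hb (h1 hy)) (B.inv_mem hb)) (B.inv_mem (h1 hy))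
  intro b hb
  refine mem_normalizer_iff.2 fun y => ⟨key b hb y, fun hy => ?_⟩
  have h3 := key b⁻¹ (B.inv_mem hb) _ hy
  have e : b⁻¹ * (b * y * b⁻¹) * b⁻¹⁻¹ = y := by group
  rwa [e] at h3

theorem nac_ld_sup2 {B B1 B2 Z : Subgroup Γ} [Finite B] (h1 : B1 ≤ B) (h2 : B2 ≤ B)
    (hc : ∀ a ∈ B, ∀ b ∈ B, ⁅a, b⁆ ∈ Z) : ld (B1 ⊔ B2) Z ≤ ld B1 Z + ld B2 Z := by
  have f1 : Finite B1 := fin_of_le h1
  have m1 : B2 ⊔ Z ⊓ B ≤ B := sup_le h2 inf_le_right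
  have m2 : B1 ⊔ (B2 ⊔ Z ⊓ B) ≤ B := sup_le h1 m1
  have f2 : Finite (B1 ⊔ (B2 ⊔ Z ⊓ B) : Subgroup Γ) := fin_of_le m2
  have f3 : Finite (B1 ⊔ B2 : Subgroup Γ) := fin_of_le (sup_le h1 h2)
  have e : ∀ Y : Subgroup Γ, Y ≤ B → ld Y (Z ⊓ B) = ld Y Z := fun Y hY => by
    rw [← ld_inf_self Y (Z ⊓ B), ← ld_inf_self Y Z, inf_comm Z B, ← inf_assoc, inf_eq_left.2 hY]
  have a1 := ld_mono_left (Z ⊓ B) (show B1 ⊔ B2 ≤ B1 ⊔ (B2 ⊔ Z ⊓ B) from
    sup_le_sup_left le_sup_left _)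
  have a2 := ld_add (show B2 ⊔ Z ⊓ B ≤ B1 ⊔ (B2 ⊔ Z ⊓ B) from le_sup_right)
    (show Z ⊓ B ≤ B2 ⊔ Z ⊓ B from le_sup_right)
  have a3 := nac_ld_sup (h1.trans (nac_nz hc m1 le_sup_right))
  have a4 := nac_ld_sup (h2.trans (nac_nz hc inf_le_right le_rfl))
  have a5 := ld_mono_right B1 (show Z ⊓ B ≤ B2 ⊔ Z ⊓ B from le_sup_right)
  rw [← e _ (sup_le h1 h2), ← e _ h1, ← e _ h2]
  linarith

theorem nac_ld_iSup {ι : Type} [Fintype ι] {B Z : Subgroup Γ} [Finite B] {F : ι → Subgroup Γ}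
    (h1 : ∀ i, F i ≤ B) (hc : ∀ a ∈ B, ∀ b ∈ B, ⁅a, b⁆ ∈ Z) :
    ld (⨆ i, F i) Z ≤ ∑ i, ld (F i) Z := by
  classical
  have key : ∀ s : Finset ι, ld (⨆ i ∈ s, F i) Z ≤ ∑ i ∈ s, ld (F i) Z := fun s => by
    induction s using Finset.induction_on with
    | empty => exact (ld_of_le (iSup₂_le fun i hi => absurd hi (Finset.notMem_empty i))).le
    | insert a s ha ih =>
      rw [Finset.iSup_insert, Finset.sum_insert ha]
      exact (nac_ld_sup2 (h1 a) (iSup₂_le fun i _ => h1 i) hc).trans (add_le_add le_rfl ih)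
  have e : ⨆ i, F i = ⨆ i ∈ (Finset.univ : Finset ι), F i :=
    iSup_congr fun i => (iSup_pos (f := fun _ => F i) (Finset.mem_univ i)).symm
  rw [e]
  exact key _

theorem nac_ld_iInf {ι : Type} {B : Subgroup Γ} [Finite B] (F : ι → Subgroup Γ) (s : Finset ι) :
    ld B (⨅ i ∈ s, F i) ≤ ∑ i ∈ s, ld B (F i) := by
  classical
  induction s using Finset.induction_on with
  | empty => exact (ld_of_le (le_iInf₂ fun i hi => absurd hi (Finset.notMem_empty i))).le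
  | insert a s ha ih =>
    rw [Finset.iInf_insert, Finset.sum_insert ha]
    exact (ld_inf _ _ _).trans (add_le_add le_rfl ih)

theorem nac_comm {X N : Subgroup Γ} (hN : X ≤ normalizer (N : Set Γ)) {K : Set Γ} (hK : K ⊆ X)
    (h : ∀ a ∈ K, ∀ b ∈ K, ⁅a, b⁆ ∈ N) : ∀ a ∈ closure K, ∀ b ∈ closure K, ⁅a, b⁆ ∈ N := by
  have h1 : closure K ≤ CM X N K := (closure_le _).2 fun a ha => ⟨hK ha, hN (hK ha), h a ha⟩
  intro a ha b hb
  have h2 : closure K ≤ CM X N {b} := (closure_le _).2 fun u hu => ⟨hK hu, hN (hK hu), by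
    rintro c rfl
    rw [← commutatorElement_inv]
    exact N.inv_mem ((h1 hb).2.2 u hu)⟩
  exact (h2 ha).2.2 b rfl

theorem nac_size {ι : Type} [Fintype ι] {X N' N'' M top : Subgroup Γ} [Finite X]
    {B B' : ι → Subgroup Γ} {g : ι → Γ} {γ : Γ} (hN : X ≤ normalizer (N' : Set Γ)) (hN' : N' ≤ X)
    (hB : ∀ i, B i ≤ X) (hB' : ∀ i, B' i ≤ X) (hc : ∀ a ∈ ⨆ i, B i, ∀ b ∈ ⨆ i, B i, ⁅a, b⁆ ∈ N')
    (ht : top ≤ X) (hM : X ≤ normalizer (M : Set Γ)) (h1 : ∀ i, cj (g i)⁻¹ (B i) ≤ top)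
    (h2 : ∀ i, cj (γ * g i)⁻¹ (B' i) ≤ top) (h3 : ∀ i, ∀ y ∈ M, g i * y * (g i)⁻¹ ∈ N')
    (h4 : ∀ y ∈ N'', γ⁻¹ * y * γ⁻¹⁻¹ ∈ N') :
    ld (⨆ i, B i) N' - ld (⨆ i, B' i) N'' ≤ ∑ i, ld top (cj (γ * g i)⁻¹ (B' i) ⊔ M) := by
  have f1 : Finite (⨆ i, B i : Subgroup Γ) := fin_of_le (iSup_le hB)
  have f2 : Finite (⨆ i, B' i : Subgroup Γ) := fin_of_le (iSup_le hB')
  have f3 : Finite (cj γ⁻¹ (⨆ i, B' i)) := fin_cj _ _
  have f4 : Finite (cj γ⁻¹ (⨆ i, B' i) ⊓ X ⊔ N' : Subgroup Γ) := fin_of_le (sup_le inf_le_right hN')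
  have f5 : Finite top := fin_of_le ht
  have a1 := ld_tri (⨆ i, B i) (cj γ⁻¹ (⨆ i, B' i) ⊓ X ⊔ N') N'
  have a2 := nac_ld_sup ((inf_le_right (a := cj γ⁻¹ (⨆ i, B' i))).trans hN)
  have a3 := ld_mono_left N' (inf_le_left (a := cj γ⁻¹ (⨆ i, B' i)) (b := X))
  have a4 := ld_mono_right (cj γ⁻¹ (⨆ i, B' i)) (show cj γ⁻¹ N'' ≤ N' from fun y hy => by
    have := h4 _ (mem_cj.1 hy)
    have e : γ⁻¹ * (γ⁻¹⁻¹ * y * γ⁻¹) * γ⁻¹⁻¹ = y := by group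
    rwa [e] at this)
  rw [ld_cj] at a4
  have a5 := nac_ld_iSup (Z := cj γ⁻¹ (⨆ i, B' i) ⊓ X ⊔ N') (le_iSup B)
    fun a ha b hb => mem_sup_right (hc a ha b hb)
  have a6 : ∀ i, ld (B i) (cj γ⁻¹ (⨆ i, B' i) ⊓ X ⊔ N') ≤
      ld top (cj (γ * g i)⁻¹ (B' i) ⊔ M) := fun i => by
    have f6 : Finite (cj (g i)⁻¹ (B i)) := fin_of_le (h1 i)
    rw [← ld_cj (g i)⁻¹]
    refine le_trans ?_ (ld_mono_left _ (h1 i))
    rw [← ld_inf_self _ (cj (γ * g i)⁻¹ (B' i) ⊔ M)]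
    refine ld_mono_right _ fun α hα => ?_
    have b1 : α ∈ ((cj (γ * g i)⁻¹ (B' i) ⊔ M : Subgroup Γ) : Set Γ) := hα.2
    rw [coe_mul_of_left_le_normalizer_right _ _ ((h2 i).trans (ht.trans hM))] at b1
    obtain ⟨u, hu, ν, hν, rfl⟩ := b1
    have b2 := hB i (mem_cj.1 hα.1)
    have b3 := h3 i ν hν
    have e1 : (g i)⁻¹⁻¹ * (u * ν) * (g i)⁻¹ = g i * u * (g i)⁻¹ * (g i * ν * (g i)⁻¹) := by group
    rw [mem_cj, e1]
    rw [e1] at b2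
    refine mul_mem (mem_sup_left ⟨mem_cj.2 (le_iSup B' i ?_),
      (X.mul_mem_cancel_right (hN' b3)).1 b2⟩) (mem_sup_right b3)
    have e2 : γ⁻¹⁻¹ * (g i * u * (g i)⁻¹) * γ⁻¹ = (γ * g i)⁻¹⁻¹ * u * (γ * g i)⁻¹ := by group
    rw [e2]
    exact mem_cj.1 hu
  linarith [Finset.sum_le_sum fun i (_ : i ∈ Finset.univ) => a6 i]

theorem nac_fin {L : Type} [Fintype L] {X N B Y : Subgroup Γ} [Finite X] {F : L → Subgroup Γ}
    (hN : X ≤ normalizer (N : Set Γ)) (hN' : N ≤ X) (hB : B ≤ X) (hl : ∀ l, F l ≤ B)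
    (h : ∀ a ∈ B, (∀ l, a ∈ F l ⊔ N) → a ∈ Y) {e : ℝ} (he : ∀ l, ld B N - ld (F l) N ≤ e) :
    ld B Y ≤ Fintype.card L * e := by
  have f1 : Finite B := fin_of_le hB
  have f2 : Finite (B ⊔ N : Subgroup Γ) := fin_of_le (sup_le hB hN')
  have a1 := ld_mono_right B (show B ⊓ ⨅ l ∈ (Finset.univ : Finset L), (F l ⊔ N) ≤ Y from
    fun a ha => h a ha.1 fun l => mem_iInf.1 (mem_iInf.1 ha.2 l) (Finset.mem_univ l))
  rw [ld_inf_self] at a1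
  refine a1.trans ((nac_ld_iInf _ _).trans ?_)
  rw [← nsmul_eq_mul, ← Finset.card_univ]
  refine Finset.sum_le_card_nsmul _ _ _ fun l _ => ?_
  have a2 := ld_mono_left (F l ⊔ N) (show B ≤ B ⊔ N from le_sup_left)
  have a3 := ld_add (sup_le_sup_right (hl l) N) (show N ≤ F l ⊔ N from le_sup_right)
  rw [nac_ld_sup (hB.trans hN), nac_ld_sup ((hl l).trans (hB.trans hN))] at a3
  linarith [he l]

theorem nac_log_le {B Y : Subgroup Γ} [Finite B] (F : Finset Γ) (hF : (F : Set Γ) ⊆ B) {e : ℝ}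
    (he : Real.exp e ≤ F.card) (h : ∀ a ∈ F, ∀ a' ∈ F, a ≠ a' → a⁻¹ * a' ∉ Y) : e ≤ ld B Y := by
  have h0 : (0 : ℝ) < F.card := (Real.exp_pos e).trans_le he
  have h1 := ld_deficit (G := B) (Y := ⊥) (X := B ⊓ Y) bot_le inf_le_left F hF
    (Finset.card_pos.1 (Nat.cast_pos.1 h0)) fun a ha a' ha' hne hm => by
      rw [coe_bot, ← Set.singleton_one.symm, one_mul, mul_one] at hm
      exact h a' ha' a ha hne.symm hm.2
  rw [ld_inf_self] at h1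
  linarith [ld_nonneg (⊥ : Subgroup Γ) (B ⊓ Y), (Real.le_log_iff_exp_le h0).2 he]

theorem nac_cls_conj (h a : Γ) (E : Set Γ) :
    cls ((fun s => h * s * h⁻¹) '' E) (h * a * h⁻¹) = (fun s => h * s * h⁻¹) '' cls E a := by
  ext u
  constructor
  · rintro ⟨_, ⟨σ, hσ, rfl⟩, rfl⟩
    exact ⟨_, ⟨σ, hσ, rfl⟩, by simp only; group⟩
  · rintro ⟨_, ⟨σ, hσ, rfl⟩, rfl⟩
    exact ⟨_, ⟨σ, hσ, rfl⟩, by simp only; group⟩

theorem nac_pow_conj (h : Γ) (E : Set Γ) (n : ℕ) :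
    ((fun s => h * s * h⁻¹) '' E) ^ n = (fun s => h * s * h⁻¹) '' E ^ n :=
  (Set.image_pow (MulAut.conj h) E n).symm

theorem nac_div_le {a a' c c' : ℕ} (n : ℕ) (h : a * (c' + 1) ≤ a' * (c + 1)) :
    a * n / (c + 1) ≤ a' * n / (c' + 1) := by
  rw [Nat.le_div_iff_mul_le (Nat.succ_pos c')]
  refine Nat.le_of_mul_le_mul_right ?_ (Nat.succ_pos c)
  have h1 := Nat.mul_le_mul_right (c' + 1) (Nat.div_mul_le_self (a * n) (c + 1))
  have h2 := Nat.mul_le_mul_right n h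
  simp only [Nat.succ_eq_add_one]
  linarith

end Fin

variable {V : Type} {T : SimpleGraph V} {d : ℕ} {C : ℝ} {Q : Seq T d C}

/-- a realisation of a finite family of short conjugates -/
structure NAS.Real (N : NAS Q) {ι : Type} (g : ι → ℕ → T ≃g T) (r : ℕ → ℕ) where
  a : ι → ℕ → T ≃g T
  S : ℕ → Set (T ≃g T)
  L : ℕ → ℕ
  ds : Q.DS S
  hL : Tendsto L om atTop
  inn : ∀ i, Inn (fun k => S k ^ L k) (cj (g i) N.D : Subgroup (ℕ → T ≃g T))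
  mem : ∀ i, a i ∈ cj (g i) N.A
  memD : ∀ i j, a i ∈ cj (g j) N.D
  dep : ∀ i, Q.Dep0 (a i)
  fix : ∀ i, a i ∈ Q.GG r

/-- the group attached to one member of the family -/
def NAS.Real.grp {N : NAS Q} {ι : Type} {g : ι → ℕ → T ≃g T} {r : ℕ → ℕ} (R : N.Real g r)
    (i : ι) (k : ℕ) : Subgroup (T ≃g T) := closure (cls (R.S k ^ R.L k) (R.a i k))

theorem nac_ev {Y : Type*} [Nonempty Y] {E : ℕ → Set Y} {P : ℕ → Y → Prop}
    (h : ∀ y : ℕ → Y, (∀ᶠ k in om, y k ∈ E k) → ∀ᶠ k in om, P k (y k)) :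
    ∀ᶠ k in om, ∀ y ∈ E k, P k y :=
  ev_forall (P := fun k y => y ∈ E k → P k y) fun y => by
    rcases ev_or_not (fun k => y k ∈ E k) with h1 | h1
    · exact (h y h1).mono fun k hk _ => hk
    · exact h1.mono fun k hk hy => absurd hy hk

theorem nac_inn_cls {X : Set (ℕ → T ≃g T)} (hX : Wedge X) {E : ℕ → Set (T ≃g T)}
    {a : ℕ → T ≃g T} (h : ∀ σ : ℕ → T ≃g T, (∀ᶠ k in om, σ k ∈ E k) → σ * a * σ⁻¹ ∈ X) :
    Inn (fun k => cls (E k) (a k)) X := by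
  intro u hu
  obtain ⟨σ, hσ⟩ := ev_choice (P := fun k s => s ∈ E k ∧ u k = s * a k * s⁻¹) hu
  exact hX.congr (h σ (hσ.mono fun k hk => hk.1)) (hσ.mono fun k hk => hk.2.symm)

theorem nac_fin_G (Q : Seq T d C) (k r : ℕ) : Finite (Q.G k r) := (Q.std k).toHyp.finGb _ _

theorem nac_nz_G (Q : Seq T d C) (k r : ℕ) : Q.G k 0 ≤ normalizer (Q.G k r : Set (T ≃g T)) :=
  Gb_nz_Gb (Q.std k).tree _ _

theorem nac_A_G (N : NAS Q) {z : ℕ → T ≃g T} (hz : z ∈ N.A) : ∀ᶠ k in om, z k ∈ Q.G k 1 := by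
  have h := N.A_top (fun k => {z k}) fun y hy => N.wA.congr hz (hy.mono fun k hk => hk.symm)
  filter_upwards [h, N.top_le] with k h1 h2
  exact h2 (h1 rfl)

section Real

variable {N : NAS Q} {ι : Type} {g : ι → ℕ → T ≃g T} {r : ℕ → ℕ} (R : N.Real g r)

theorem NAS.Real.nac_genA (i : ι) : Inn (fun k => cls (R.S k ^ R.L k) (R.a i k))
    (cj (g i) N.A : Subgroup (ℕ → T ≃g T)) :=
  nac_inn_cls (N.wA.cj _) fun σ hσ => by
    have h := N.nz _ (mem_cj.1 (R.inn i σ hσ)) _ (mem_cj.1 (R.mem i))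
    have e : (g i)⁻¹ * (σ * R.a i * σ⁻¹) * g i =
        (g i)⁻¹ * σ * g i * ((g i)⁻¹ * R.a i * g i) * ((g i)⁻¹ * σ * g i)⁻¹ := by group
    refine mem_cj.2 ?_
    rw [e]
    exact h

theorem NAS.Real.nac_genD (i j : ι) : Inn (fun k => cls (R.S k ^ R.L k) (R.a i k))
    (cj (g j) N.D : Subgroup (ℕ → T ≃g T)) :=
  nac_inn_cls (N.wD.cj _) fun σ hσ =>
    mul_mem (mul_mem (R.inn j σ hσ) (R.memD i j)) (inv_mem (R.inn j σ hσ))

theorem NAS.Real.nac_sub : ∀ᶠ k in om, R.S k ⊆ R.S k ^ R.L k ∧ R.S k ^ R.L k ⊆ Q.G k 0 := by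
  obtain ⟨η, -, h⟩ := R.ds
  filter_upwards [h, R.hL.eventually (eventually_ge_atTop 1)] with k h1 h2
  refine ⟨?_, pow_subset_subgroup h1.1.1 _⟩
  have := h1.2.pow_mono h2
  rwa [pow_one] at this

theorem NAS.Real.nac_le (i : ι) {ρ : ℕ → ℕ} (h : ∀ᶠ k in om, R.a i k ∈ Q.G k (ρ k)) :
    ∀ᶠ k in om, R.grp i k ≤ Q.G k (ρ k) := by
  filter_upwards [h, R.nac_sub] with k h1 h2
  refine (closure_le _).2 ?_
  rintro _ ⟨σ, hσ, rfl⟩
  exact (mem_normalizer_iff.1 (nac_nz_G Q k (ρ k) (h2.2 hσ)) _).1 h1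

theorem NAS.Real.nac_le0 (i : ι) : ∀ᶠ k in om, R.grp i k ≤ Q.G k 0 :=
  (R.nac_le i (ρ := fun _ => 1) (R.dep i).1).mono fun _ h => h.trans (Gb_anti' zero_le_one)

theorem NAS.Real.nac_top (i : ι) : ∀ᶠ k in om, cj (g i k)⁻¹ (R.grp i k) ≤ N.top k := by
  have h := N.A_top
    (fun k => (fun s => (g i k)⁻¹ * s * (g i k)⁻¹⁻¹) '' cls (R.S k ^ R.L k) (R.a i k))
    fun y hy => conj_mem_cj.1 (R.nac_genA i (g i * y * (g i)⁻¹) (hy.mono fun k hk => by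
      obtain ⟨u, hu, e⟩ := hk
      have e2 : (g i * y * (g i)⁻¹) k = u := by
        show g i k * y k * (g i k)⁻¹ = u
        rw [← e]
        simp only
        group
      rw [e2]
      exact hu))
  refine h.mono fun k hk => ?_
  rw [NAS.Real.grp, cj_closure]
  exact (closure_le _).2 hk

theorem NAS.Real.nac_ml (i : ι) (hg : Q.Short (g i)) :
    Sm Q.n fun k => ld (N.top k) (cj (g i k)⁻¹ (R.grp i k) ⊔ Q.G k (Q.n k)) := by
  have hg' : Q.Short (g i)⁻¹ := Q.SG.inv_mem (x := g i) hg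
  have cjD : ∀ s : ℕ → T ≃g T, (∀ᶠ k in om, s k ∈ R.S k ^ R.L k) →
      (g i)⁻¹ * s * (g i)⁻¹⁻¹ ∈ N.D := fun s hs => by
    rw [inv_inv]
    exact mem_cj.1 (R.inn i s hs)
  have hz : (g i)⁻¹ * R.a i * (g i)⁻¹⁻¹ ∈ N.A := by
    rw [inv_inv]
    exact mem_cj.1 (R.mem i)
  have h := N.ml _ _ R.L hz ⟨nac_A_G N hz, (R.dep i).2.conj hg'⟩
    (R.ds.conj hg' (nac_ev fun s hs => N.D_le (cjD s (by
      filter_upwards [hs, R.nac_sub] with k h1 h2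
      exact h2.1 h1)))) R.hL fun y hy => by
      obtain ⟨s, hs⟩ := ev_choice (P := fun k s => s ∈ R.S k ^ R.L k ∧
          (g i k)⁻¹ * s * (g i k)⁻¹⁻¹ = y k) (hy.mono fun k hk =>
        (nac_pow_conj ((g i k)⁻¹) (R.S k) (R.L k)).subset hk)
      exact N.wD.congr (cjD s (hs.mono fun k hk => hk.1)) (hs.mono fun k hk => hk.2)
  refine h.of_le (Eventually.of_forall fun k => le_of_eq ?_)
  rw [NAS.Real.grp, cj_closure, nac_pow_conj, ← nac_cls_conj]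
  rfl

theorem NAS.Real.nac_comm {m : ℕ}
    (hm : ∀ g g' a a' : ℕ → T ≃g T, Q.Short g → Q.Short g' →
      a ∈ cj g N.A ⊓ cj g' N.D → a' ∈ cj g' N.A ⊓ cj g N.D →
      ∀ᶠ k in om, ⁅a k, a' k⁆ ∈ Q.G k (Q.n k / (m + 1))) [Finite ι] (hg : ∀ i, Q.Short (g i)) :
    ∀ᶠ k in om, ∀ a ∈ ⨆ i, R.grp i k, ∀ b ∈ ⨆ i, R.grp i k,
      ⁅a, b⁆ ∈ Q.G k (Q.n k / (m + 1)) := by
  have h1 : ∀ᶠ k in om, ∀ i j, ∀ y ∈ cls (R.S k ^ R.L k) (R.a i k) ×ˢ
      cls (R.S k ^ R.L k) (R.a j k), ⁅y.1, y.2⁆ ∈ Q.G k (Q.n k / (m + 1)) :=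
    eventually_all.2 fun i => eventually_all.2 fun j => nac_ev fun y hy =>
      hm (g i) (g j) (fun k => (y k).1) (fun k => (y k).2) (hg i) (hg j)
        ⟨R.nac_genA i _ (hy.mono fun k hk => hk.1), R.nac_genD i j _ (hy.mono fun k hk => hk.1)⟩
        ⟨R.nac_genA j _ (hy.mono fun k hk => hk.2), R.nac_genD j i _ (hy.mono fun k hk => hk.2)⟩
  filter_upwards [h1, eventually_all.2 R.nac_le0] with k h2 h3
  unfold NAS.Real.grp at h3 ⊢
  rw [← Subgroup.closure_iUnion]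
  refine PSV.nac_comm (nac_nz_G Q k _)
    (Set.iUnion_subset fun i => Subgroup.subset_closure.trans (h3 i)) fun a ha b hb => ?_
  obtain ⟨i, hi⟩ := Set.mem_iUnion.1 ha
  obtain ⟨j, hj⟩ := Set.mem_iUnion.1 hb
  exact h2 i j (a, b) ⟨hi, hj⟩

end Real

theorem NAS.exists_real (N : NAS Q) {ι : Type} [Finite ι] {g : ι → ℕ → T ≃g T}
    (hg : ∀ i, Q.Short (g i)) {r : ℕ → ℕ} (hr : Sm Q.n fun k => (r k : ℝ)) :
    Nonempty (N.Real g r) := by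
  classical
  have := Fintype.ofFinite ι
  obtain ⟨z, hz, hd⟩ := N.ex
  have h1 : Q.Dense (⨅ j ∈ (Finset.univ : Finset ι), cj (g j) N.D) :=
    Seq.Dense.iInf _ fun j _ => N.dense.conj (hg j)
  have h2 := Wedge.iInf (Finset.univ : Finset ι) (F := fun j => cj (g j) N.D)
    fun j _ => N.wD.cj (g j)
  have h3 : ∀ i, (⨅ j ∈ (Finset.univ : Finset ι), cj (g j) N.D) ≤ cj (g i) N.D := fun i =>
    iInf₂_le (f := fun j (_ : j ∈ (Finset.univ : Finset ι)) => cj (g j) N.D) i (Finset.mem_univ i)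
  choose h hh h' hh' a1 a2 using fun i => Seq.localise (hg i) hd N.dense h1 hr
  obtain ⟨S, hS, hS'⟩ := h1
  obtain ⟨L, hL, hL'⟩ := h2.slow_pow hS'
  exact ⟨⟨_, S, L, hS, hL, fun i y hy => h3 i (hL' y hy), fun i => conj_mem_cj.2
    (mul_mem (N.nz _ (hh i) _ hz) (inv_mem (N.nz _ (hh' i) _ hz))),
    fun i j => h3 j (a1 i).1, a2, fun i => (a1 i).2⟩⟩

/-- the size of a realised family does not drop under a short conjugation -/
theorem NAS.size_le (N : NAS Q) {m : ℕ}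
    (hm : ∀ g g' a a' : ℕ → T ≃g T, Q.Short g → Q.Short g' →
      a ∈ cj g N.A ⊓ cj g' N.D → a' ∈ cj g' N.A ⊓ cj g N.D →
      ∀ᶠ k in om, ⁅a k, a' k⁆ ∈ Q.G k (Q.n k / (m + 1)))
    {ι κ : Type} [Finite ι] {g : ι → ℕ → T ≃g T} {g' : κ → ℕ → T ≃g T} (hg : ∀ i, Q.Short (g i))
    {r r' : ℕ → ℕ} (R : N.Real g r) (R' : N.Real g' r') {γ : ℕ → T ≃g T} (hγ : Q.Short γ)
    (φ : ι → κ) (hφ : ∀ i, g' (φ i) = γ * g i) {s t u v : ℕ} (h1 : s * (v + 1) < u * (t + 1))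
    (h2 : u * (m + 1) ≤ v + 1) :
    Sm Q.n fun k => ld (⨆ i, R.grp i k) (Q.G k (s * Q.n k / (t + 1))) -
      ld (⨆ i, R'.grp (φ i) k) (Q.G k (u * Q.n k / (v + 1))) := by
  classical
  have := Fintype.ofFinite ι
  have h3 : s * (m + 1) < t + 1 := by
    refine Nat.lt_of_mul_lt_mul_right (a := v + 1) ?_
    have a1 := Nat.mul_lt_mul_of_pos_right h1 (Nat.succ_pos m)
    have a2 := Nat.mul_le_mul_right (t + 1) h2
    simp only [Nat.succ_eq_add_one] at a1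
    linarith
  have h4 : s * (0 + 1) < 1 * (t + 1) := by
    have := Nat.mul_le_mul_left s (show 0 + 1 ≤ m + 1 by omega)
    omega
  have hg' : ∀ i, Q.Short (g' (φ i)) := fun i => by
    rw [hφ i]
    exact Q.SG.mul_mem (x := γ) (y := g i) hγ (hg i)
  have hγ' : Q.Short γ⁻¹ := Q.SG.inv_mem (x := γ) hγ
  refine (Sm.sum Finset.univ fun i _ => R'.nac_ml (φ i) (hg' i)).of_le ?_
  filter_upwards [R.nac_comm hm hg, eventually_all.2 R.nac_le0,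
    eventually_all.2 fun i => R'.nac_le0 (φ i), N.top_le, eventually_all.2 R.nac_top,
    eventually_all.2 fun i => R'.nac_top (φ i), eventually_all.2 fun i => (hg i).shift h4,
    hγ'.shift h1] with k b1 b2 b3 b4 b5 b6 b7 b8
  have := nac_fin_G Q k 0
  simp only [hφ, Pi.mul_apply] at b6 ⊢
  have c1 : s * Q.n k / (t + 1) ≤ Q.n k / (m + 1) := by
    have := nac_div_le (a := s) (a' := 1) (c := t) (c' := m) (Q.n k) (by omega)
    rwa [one_mul] at this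
  refine nac_size (X := Q.G k 0) (nac_nz_G Q k _) (Gb_anti' (Nat.zero_le _)) b2 b3
    (fun a ha b hb => Gb_anti' c1 (b1 a ha b hb)) (b4.trans (Gb_anti' zero_le_one))
    (nac_nz_G Q k _) b5 b6 (fun i y hy => b7 i y ?_) b8
  rwa [one_mul, zero_add, Nat.div_one]

theorem nac_num {n i m : ℕ} (h1 : i * (100 * m + 99 + 1) ≤ n) (h2 : 100 * (m + 1) ≤ n) :
    i + (n / (2 * m + 1 + 1) + i + 1) ≤ 2 * n / (3 * m + 2 + 1) := by
  rw [Nat.le_div_iff_mul_le (Nat.succ_pos _)]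
  have h3 := Nat.div_mul_le_self n (2 * m + 1 + 1)
  generalize n / (2 * m + 1 + 1) = q at h3 ⊢
  simp only [Nat.succ_eq_add_one]
  linarith [Nat.zero_le n]

theorem nac_num2 {n : ℕ} (m d : ℕ) (hn : 0 < n) :
    ((2 * d : ℕ) : ℝ) * (2 * (1 / (100 * ((d : ℝ) + 1) * ((m : ℝ) + 1)) * n)) <
      (n : ℝ) / (4 * (((2 * m + 1 : ℕ) : ℝ) + 1)) := by
  have h0 : (0 : ℝ) < n := Nat.cast_pos.2 hn
  have h1 : (0 : ℝ) < 1 / (100 * ((d : ℝ) + 1) * ((m : ℝ) + 1)) * n := by positivity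
  have h2 : (n : ℝ) / (4 * (((2 * m + 1 : ℕ) : ℝ) + 1)) =
      25 / 2 * ((d : ℝ) + 1) * (1 / (100 * ((d : ℝ) + 1) * ((m : ℝ) + 1)) * n) := by
    push_cast
    field_simp
    ring
  rw [h2]
  generalize 1 / (100 * ((d : ℝ) + 1) * ((m : ℝ) + 1)) * n = w at h1 ⊢
  have h3 := mul_nonneg (Nat.cast_nonneg (α := ℝ) d) h1.le
  push_cast
  linarith

/-- the finite core of the contradiction -/
theorem nac_deep {H : Subgroup (T ≃g T)} (hT : T.IsTree) {x w : V} {i ρ ρ1 ρ2 ρ3 : ℕ}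
    {ι : Type} {K : ι → Set (T ≃g T)} {c a : T ≃g T} (hw : T.dist x w ≤ i)
    (h1 : i + (ρ + 1) ≤ ρ1) (h2 : ρ1 ≤ ρ2) (h3 : ρ1 ≤ ρ3)
    (hK : ∀ j, Subgroup.closure (K j) ≤ Gb H x (i + 1)) (hc : ∀ j, ∀ u ∈ K j, ⁅c, u⁆ ∈ Gb H x ρ3)
    (hs : ∀ y ∈ Gb H x ρ2, c * y * c⁻¹ ∈ Gb H x ρ1)
    (ha : a ∈ (⨆ j, Subgroup.closure (K j)) ⊔ Gb H x ρ2) : ⁅c, a⁆ ∈ Gb H w (ρ + 1) := by
  have b1 : Gb H x ρ1 ≤ Gb H w (ρ + 1) := Gb_anti hT (by omega)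
  have key : ∀ u ∈ Gb H w 0, ⁅c, u⁆ ∈ Gb H w (ρ + 1) →
      u ∈ CM (Gb H w 0) (Gb H w (ρ + 1)) {c} := fun u hu h => ⟨hu, Gb_nz_Gb hT _ _ hu, by
    rintro _ rfl
    rw [← commutatorElement_inv]
    exact inv_mem h⟩
  have b2 : (⨆ j, Subgroup.closure (K j)) ⊔ Gb H x ρ2 ≤
      CM (Gb H w 0) (Gb H w (ρ + 1)) {c} := by
    refine sup_le (iSup_le fun j => (closure_le _).2 fun u hu => key u
      (Gb_anti hT (by omega) (hK j (Subgroup.subset_closure hu))) (b1 (Gb_anti' h3 (hc j u hu))))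
      fun y hy => key y (Gb_anti hT (by omega) hy) (b1 ?_)
    rw [commutatorElement_def]
    exact mul_mem (hs y hy) (inv_mem (Gb_anti' h2 hy))
  rw [← commutatorElement_inv]
  exact inv_mem ((b2 ha).2.2 c rfl)

/-- every realised family can be replaced by a definitely larger one -/
theorem NAS.nac_step (N : NAS Q) {m : ℕ}
    (hm : ∀ g g' a a' : ℕ → T ≃g T, Q.Short g → Q.Short g' →
      a ∈ cj g N.A ⊓ cj g' N.D → a' ∈ cj g' N.A ⊓ cj g N.D →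
      ∀ᶠ k in om, ⁅a k, a' k⁆ ∈ Q.G k (Q.n k / (m + 1)))
    {ι : Type} [Finite ι] {g : ι → ℕ → T ≃g T} (hg : ∀ i, Q.Short (g i)) {r : ℕ → ℕ}
    (R : N.Real g r) {s t : ℕ} (hst : s * (m + 1) < t + 1) {y : ℝ}
    (hy : ∀ᶠ k in om, y * Q.n k ≤ ld (⨆ i, R.grp i k) (Q.G k (s * Q.n k / (t + 1)))) :
    ∃ (κ : Type) (_ : Finite κ) (g' : κ → ℕ → T ≃g T) (r' : ℕ → ℕ) (R' : N.Real g' r') (u v : ℕ),
      (∀ j, Q.Short (g' j)) ∧ u * (m + 1) < v + 1 ∧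
      ∀ᶠ k in om, (y + 1 / (100 * ((d : ℝ) + 1) * ((m : ℝ) + 1))) * Q.n k ≤
        ld (⨆ j, R'.grp j k) (Q.G k (u * Q.n k / (v + 1))) := by
  classical
  have s1 : Q.Short 1 := Q.SG.one_mem
  obtain ⟨g0, g1, hg0⟩ : ∃ g0 : Option ι → ℕ → T ≃g T, (∀ i, g0 (some i) = g i) ∧
      ∀ o, Q.Short (g0 o) := ⟨fun o => o.elim 1 g, fun _ => rfl, fun o => by
    cases o
    exacts [s1, hg _]⟩
  obtain ⟨R0⟩ := N.exists_real hg0 (r := fun _ => 0) (Sm.const Q.hn _)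
  obtain ⟨c, cA, cD, cdep⟩ : ∃ c, c ∈ cj (g0 none) N.A ∧ (∀ j, c ∈ cj (g0 j) N.D) ∧ Q.Dep0 c :=
    ⟨R0.a none, R0.mem none, R0.memD none, R0.dep none⟩
  have cs : Q.Short c := Q.GG_le_SG (fun _ => 1) cdep.1
  obtain ⟨i, hi, hi'⟩ := cdep.2.depth
  have : Nonempty V := ⟨Q.x 0⟩
  obtain ⟨p, hp⟩ := ev_choice (Y := V × (Fin (2 * d) → T ≃g T))
    (P := fun k p => T.dist (Q.x k) p.1 ≤ i k ∧
      (∀ l, p.2 l ∈ Q.H k ∧ T.dist p.1 (p.2 l p.1) ≤ 1) ∧ ∀ (n : ℕ) (a : T ≃g T),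
        a ∈ Gb (Q.H k) p.1 1 → (∀ l, ⁅p.2 l * c k * (p.2 l)⁻¹, a⁆ ∈ Gb (Q.H k) p.1 (n + 1)) →
        a ∈ Gb (Q.H k) p.1 n) (by
    filter_upwards [cdep.1, hi'] with k h1 h2
    obtain ⟨w, w1, w2⟩ := exists_active (Q.std k).tree h1 h2
    obtain ⟨γ, a1, a2⟩ := (Q.std k).toHyp.etc h1.1 w2
    exact ⟨(w, γ), w1, a1, a2⟩)
  obtain ⟨γ, eγ⟩ : ∃ γ : Fin (2 * d) → ℕ → T ≃g T, ∀ l k, γ l k = (p k).2 l := ⟨_, fun _ _ => rfl⟩
  simp only [← eγ] at hp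
  have hγ : ∀ l, Q.Short (γ l) := fun l => ⟨hp.mono fun k hk => (hk.2.1 l).1,
    ((hi.mul zero_le_two).add (Sm.const Q.hn 1)).of_le (hp.mono fun k hk => by
      have hc := (Q.std k).tree.connected
      have a1 := hc.dist_triangle (u := Q.x k) (v := (p k).1) (w := γ l k (Q.x k))
      have a2 := hc.dist_triangle (u := (p k).1) (v := γ l k (p k).1) (w := γ l k (Q.x k))
      rw [dist_map, SimpleGraph.dist_comm (u := (p k).1) (v := Q.x k)] at a2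
      have a3 : T.dist (Q.x k) (γ l k (Q.x k)) ≤ 2 * i k + 1 := by
        have := hk.1
        have := (hk.2.1 l).2
        omega
      exact_mod_cast a3)⟩
  obtain ⟨g', g2, hg'⟩ : ∃ g' : Option (Fin (2 * d) × Option ι) → ℕ → T ≃g T,
      (∀ l o, g' (some (l, o)) = γ l * g0 o) ∧ ∀ j, Q.Short (g' j) :=
    ⟨fun o => o.elim 1 fun q => γ q.1 * g0 q.2, fun _ _ => rfl, fun o => by
      cases o
      exacts [s1, Q.SG.mul_mem (x := γ _) (y := g0 _) (hγ _) (hg0 _)]⟩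
  obtain ⟨R'⟩ := N.exists_real hg' (r := fun k => i k + 1)
    ((hi.add (Sm.const Q.hn 1)).of_le (Eventually.of_forall fun k => by push_cast; exact le_rfl))
  have n1 : (t + 3) * (m + 1) < (t + 4) * m + (t + 3) + 1 := by linarith [Nat.zero_le m]
  have n2 : s * ((t + 4) * m + (t + 3) + 1) < (t + 3) * (t + 1) := by
    linarith [Nat.mul_le_mul_right (t + 4) (Nat.lt_succ_iff.1 hst)]
  have n3 : 2 * ((t + 4) * m + (t + 3) + 1) < (t + 3) * (3 * m + 2 + 1) := by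
    linarith [Nat.zero_le m, Nat.zero_le t, Nat.zero_le (t * m)]
  refine ⟨_, inferInstance, g', _, R', t + 3, (t + 4) * m + (t + 3), hg', n1, ?_⟩
  generalize (t + 4) * m + (t + 3) = v at n1 n2 n3 ⊢
  generalize t + 3 = u at n1 n2 n3 ⊢
  by_contra hc
  have e2 := eventually_all.2 fun l => N.size_le hm hg R R' (hγ l) (fun i => some (l, some i))
    (fun i => by rw [g2, g1]) n2 n1.le (1 / (100 * ((d : ℝ) + 1) * ((m : ℝ) + 1))) (by positivity)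
  have e3 : ∀ᶠ k in om, ∀ l j, ∀ z ∈ cls (R'.S k ^ R'.L k) (R'.a (some (l, some j)) k),
      ⁅γ l k * c k * (γ l k)⁻¹, z⁆ ∈ Q.G k (Q.n k / (m + 1)) :=
    eventually_all.2 fun l => eventually_all.2 fun j => nac_ev fun z hz =>
      hm (g' (some (l, none))) (g' (some (l, some j))) (γ l * c * (γ l)⁻¹) z (hg' _) (hg' _)
        (by
          rw [g2, g2, cj_mul, cj_mul]
          exact ⟨conj_mem_cj.2 cA, conj_mem_cj.2 (cD _)⟩)
        ⟨R'.nac_genA _ z hz, R'.nac_genD _ _ z hz⟩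
  have e4 := eventually_all.2 fun l => Seq.Short.shift (g := γ l * c * (γ l)⁻¹)
    (Q.SG.mul_mem (Q.SG.mul_mem (x := γ l) (y := c) (hγ l) cs) (Q.SG.inv_mem (x := γ l) (hγ l))) n3
  have e5 := eventually_all.2 fun j => R'.nac_le j (R'.fix j)
  refine ev_false hy ?_
  filter_upwards [ev_of_not hc, e2, e3, e4, e5, (R'.dep none).many R'.ds (2 * m + 1), hp,
    sm_iff.1 hi (100 * m + 99), Q.hn.eventually (eventually_ge_atTop (100 * (m + 1))), R'.nac_sub]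
    with k b1 b2 b3 b4 b5 b6 b7 b8 b9 b10 b11
  have hT := (Q.std k).tree
  have := nac_fin_G Q k 0
  have c0 : ∀ j, R'.grp j k ≤ Q.G k 0 := fun j => (b5 j).trans (Gb_anti' (Nat.zero_le _))
  have : Finite (⨆ j, R'.grp j k : Subgroup (T ≃g T)) := fin_of_le (iSup_le c0)
  have c1 : i k * (100 * m + 99 + 1) ≤ Q.n k := by
    rw [le_div_iff₀ (by positivity)] at b8
    exact_mod_cast b8
  have c2 := nac_num c1 b9
  have c3 := nac_div_le (Q.n k) n3.le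
  have c4 : 2 * Q.n k / (3 * m + 2 + 1) ≤ Q.n k / (m + 1) := by
    have := nac_div_le (a := 2) (a' := 1) (c := 3 * m + 2) (c' := m) (Q.n k) (by omega)
    rwa [one_mul] at this
  have c5 := nac_fin (X := Q.G k 0) (N := Q.G k (u * Q.n k / (v + 1))) (B := ⨆ j, R'.grp j k)
    (Y := Q.G k (Q.n k / (2 * m + 1 + 1))) (F := fun l => ⨆ j, R'.grp (some (l, some j)) k)
    (nac_nz_G Q k _) (Gb_anti' (Nat.zero_le _)) (iSup_le c0)
    (fun l => iSup_le fun j => le_iSup (fun j => R'.grp j k) _)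
    (fun a ha h => Gb_anti hT (r' := Q.n k / (2 * m + 1 + 1) + i k)
      (by rw [SimpleGraph.dist_comm]; linarith [b7.1])
      (b7.2.2 _ a (Gb_anti hT (by linarith [b7.1]) (iSup_le b5 ha)) fun l =>
        nac_deep hT b7.1 c2 c3 c4 (fun j => b5 (some (l, some j))) (b3 l) (b4 l) (h l)))
    (e := 2 * (1 / (100 * ((d : ℝ) + 1) * ((m : ℝ) + 1)) * Q.n k)) fun l => by
      linarith [b2 l, not_le.1 b1]
  obtain ⟨F, f1, f2, f3⟩ := b6
  have c6 := nac_log_le (B := ⨆ j, R'.grp j k) F (fun z hz => by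
    obtain ⟨σ, hσ, e⟩ := f1 hz
    exact le_iSup (fun j => R'.grp j k) none
      (Subgroup.subset_closure ⟨σ, b10.1 hσ, e⟩)) f2 f3
  rw [Fintype.card_fin] at c5
  exact absurd (c6.trans c5) (not_le.2 (nac_num2 m d (by omega)))

theorem NAS.false (N : NAS Q) : False := by
  obtain ⟨m, hm⟩ := N.unif
  have η0 : 0 < 1 / (100 * ((d : ℝ) + 1) * ((m : ℝ) + 1)) := by positivity
  have key : ∀ j : ℕ, ∃ (ι : Type) (_ : Finite ι) (g : ι → ℕ → T ≃g T) (r : ℕ → ℕ)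
      (R : N.Real g r) (s t : ℕ), (∀ i, Q.Short (g i)) ∧ s * (m + 1) < t + 1 ∧
      ∀ᶠ k in om, j * (1 / (100 * ((d : ℝ) + 1) * ((m : ℝ) + 1))) * Q.n k ≤
        ld (⨆ i, R.grp i k) (Q.G k (s * Q.n k / (t + 1))) := by
    intro j
    induction j with
    | zero =>
      have hg : ∀ i : Empty, Q.Short ((fun _ => 1 : Empty → ℕ → T ≃g T) i) := fun i => i.elim
      obtain ⟨R⟩ := N.exists_real hg (r := fun _ => 0) (Sm.const Q.hn _)
      refine ⟨Empty, inferInstance, _, _, R, 0, 0, hg, by omega, Eventually.of_forall fun k => ?_⟩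
      rw [Nat.cast_zero, zero_mul, zero_mul]
      exact ld_nonneg _ _
    | succ j ih =>
      obtain ⟨ι, _, g, r, R, s, t, hg, hst, hy⟩ := ih
      rw [Nat.cast_succ, add_mul (j : ℝ), one_mul]
      exact N.nac_step hm hg R hst hy
  generalize 1 / (100 * ((d : ℝ) + 1) * ((m : ℝ) + 1)) = η at η0 key
  obtain ⟨j, hj⟩ := exists_nat_gt (2 * C / η)
  rw [div_lt_iff₀ η0] at hj
  obtain ⟨ι, _, g, r, R, s, t, hg, hst, hy⟩ := key j
  refine ev_false hy ?_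
  filter_upwards [eventually_all.2 R.nac_le0, Q.hb, Q.hn.eventually (eventually_ge_atTop 1)]
    with k b1 b2 b3
  have := nac_fin_G Q k 0
  have c1 : s * Q.n k / (t + 1) ≤ Q.n k := by
    have h1 := Nat.mul_le_mul_left s (show 0 + 1 ≤ m + 1 by omega)
    have h2 := nac_div_le (a := s) (a' := 1) (c := t) (c' := 0) (Q.n k) (by omega)
    rwa [one_mul, zero_add, Nat.div_one] at h2
  have c2 := (ld_mono_left (Q.G k (s * Q.n k / (t + 1))) (iSup_le b1)).trans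
    ((Q.std k).width (Q.x k) (s * Q.n k / (t + 1)) (by omega))
  have c3 : ((s * Q.n k / (t + 1) : ℕ) : ℝ) + 1 ≤ 2 * Q.n k := by
    exact_mod_cast (show s * Q.n k / (t + 1) + 1 ≤ 2 * Q.n k by omega)
  have c4 := mul_le_mul_of_nonneg_left c3 (zero_le_one.trans (Q.std k).one_le)
  have c5 := mul_lt_mul_of_pos_right hj (show (0 : ℝ) < Q.n k by exact_mod_cast b3)
  exact not_le.2 (by linarith)

end Pool.Agent.PSV
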