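import Pool.Agent.Lib.MP_607584_al.PSV.Step4
import Pool.Agent.Lib.MP_607584_al.PSV.MLb
import Pool.Agent.Lib.MP_607584_al.PSV.MLc
import Pool.Agent.Lib.MP_607584_al.PSV.MLd

/-! At a typical position without gaps the far group fixes all continuations. -/

namespace Pool.Agent.PSV

open Subgroup Filter
open scoped Pointwise commutatorElement

variable {V : Type} {T : SimpleGraph V} {d : ℕ} {C : ℝ} {L : ℕ}

theorem sta_shift {s : Sch} (A : Evt) (a : ℤ) :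
    s.Pr (fun k e i => A k e (i + a * ((2 ^ e : ℕ) : ℤ))) = s.Pr A :=
  Sch.Pr_shift A 0 a.natAbs (fun e => a * ((2 ^ e : ℕ) : ℤ)) fun e => by
    rw [abs_mul, Int.natCast_natAbs, Nat.cast_pow, Nat.cast_ofNat,
      abs_of_nonneg (by positivity : (0 : ℤ) ≤ 2 ^ e)]

theorem sta_mono {s : Sch} {A B : Evt} (h : ∀ k e i, A k e i → B k e i) : s.Pr A ≤ s.Pr B :=
  Sch.Pr_mono (Eventually.of_forall fun k e _ _ i _ _ => h k e i)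

theorem sta_or {s : Sch} {A B : Evt} {x y : ℝ} (hA : s.Pr A ≤ x) (hB : s.Pr B ≤ y) :
    s.Pr (fun k e i => A k e i ∨ B k e i) ≤ x + y :=
  (Sch.Pr_or A B).trans (add_le_add hA hB)

theorem sta_card (t : Finset ℕ) (p : ℕ → Prop) (h1 h2 : DecidablePred p) :
    (@Finset.filter _ p h1 t).card = (@Finset.filter _ p h2 t).card := by
  rw [Subsingleton.elim h1 h2]

open Classical in
theorem sta_card' (km : ℕ) (p : ℤ → Prop) (h1 : DecidablePred p)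
    (h2 : DecidablePred fun j : ℕ => p j) : (@Finset.filter _ p h1 (Finset.range km)).card ≤
      (@Finset.filter _ (fun j : ℕ => p j) h2 (Finset.range km)).card := by
  refine Finset.card_le_card_of_surjOn (fun j : ℕ => (j : ℤ)) fun z hz => ?_
  simp at hz
  obtain ⟨⟨a, ha, rfl⟩, h⟩ := hz
  exact ⟨a, by simpa using ⟨ha, h⟩, rfl⟩

theorem sta_core (c : Ctx T d C L) (hL : 1 ≤ L)
    {M κ k0 K km Dd Bf r r' r2 R1 R2 X2 R3 X3 R4 X4 X5 Xw : ℕ}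
    (hq : ∀ k, FQf (c.H k) (c.b k) M)
    (hp : Par4 C L M κ k0 K km Dd Bf r r' r2 R1 R2 X2 R3 X3 R4 X4 X5 Xw) (hkm : 0 < km)
    {η : ℝ} (hη : η ≤ κ / (10 * M))
    (h3 : c.s.Pr (fun k e i =>
      ¬ (c.D k).TsM (2 ^ e) r2 r2 (R2 - Bf) X2 R3 X3 (η * 2 ^ e) i) ≤ η)
    (hg : c.s.Pr (fun k e i => ¬ (c.D k).GoodT (2 ^ e) K r r' (η * 2 ^ e) i) ≤ η)
    (hpl : c.s.Pr (fun k e i => ¬ (c.D k).PlM (2 ^ e) κ r R1 R2 X2 (η * 2 ^ e) i) ≤ η)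
    (hm : c.s.Pr (fun k e i => ¬ (c.D k).TsM (2 ^ e) κ r R2 X2 R4 X4 (η * 2 ^ e) i) ≤ η)
    (hP : c.s.Pr (fun k e i => ¬ (c.D k).TsP (2 ^ e) κ r R2 X2 R4 X4 (η * 2 ^ e) i) ≤ η) :
    c.s.Pr (fun k e i => 1 ≤ e ∧ (c.D k).NoGap (2 ^ e) Xw i ∧
      ¬ (c.D k).Fixes (2 * 2 ^ e) (X5 * 2 ^ e) (2 * Dd * 2 ^ e) (Bf * 2 ^ e) i) ≤
      5 * η + 12 * Bf * η / km := by
  classical
  have hM : (0 : ℝ) < M := by exact_mod_cast hp.hM
  have hκ : (0 : ℝ) < κ := by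
    have h := hp.hκ
    have h' := hp.hM
    exact_mod_cast (show 0 < κ by omega)
  have hkm' : (0 : ℝ) < km := by exact_mod_cast hkm
  have heq : ∀ e : ℕ, ((κ : ℝ) * ((2 ^ e : ℕ) : ℝ)) / (10 * M) = κ / (10 * M) * 2 ^ e := fun e => by
    rw [Nat.cast_pow, Nat.cast_ofNat]; ring
  have hle : ∀ e : ℕ, η * 2 ^ e ≤ ((κ : ℝ) * ((2 ^ e : ℕ) : ℝ)) / (10 * M) := fun e => by
    rw [heq]; exact mul_le_mul_of_nonneg_right hη (by positivity)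
  let B1 : Evt := fun k e i =>
    ¬ (c.D k).GoodT (2 ^ e) K r r' (((κ : ℝ) * ((2 ^ e : ℕ) : ℝ)) / (10 * M)) i
  let B2 : Evt := fun k e i =>
    ¬ ((c.D k).PlM (2 ^ e) κ r R1 R2 X2 (((κ : ℝ) * ((2 ^ e : ℕ) : ℝ)) / (10 * M)) i ∧
      (c.D k).TsM (2 ^ e) κ r R2 X2 R4 X4 (((κ : ℝ) * ((2 ^ e : ℕ) : ℝ)) / (10 * M)) i ∧
      (c.D k).TsP (2 ^ e) κ r R2 X2 R4 X4 (((κ : ℝ) * ((2 ^ e : ℕ) : ℝ)) / (10 * M)) i ∧
      (c.D k).Path (X5 * 2 ^ e) (((κ : ℝ) * ((2 ^ e : ℕ) : ℝ)) / (10 * M)) i)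
  have hB1 : c.s.Pr B1 ≤ η :=
    (sta_mono fun k e i h h' => h (le_trans h' (hle e))).trans hg
  have hB2 : c.s.Pr B2 ≤ η + (η + (η + 0)) := by
    refine (sta_mono fun k e i h => ?_).trans (sta_or hpl (sta_or hm (sta_or hP
      (c.path X5 (show (0 : ℝ) < κ / (10 * M) by positivity)).le)))
    by_contra h'
    simp only [not_or, not_not] at h'
    refine h ⟨le_trans h'.1 (hle e), le_trans h'.2.1 (hle e), le_trans h'.2.2.1 (hle e), ?_⟩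
    rw [heq]
    exact h'.2.2.2
  have hc1 := Sch.Pr_count (s := c.s) (Finset.range km)
    (fun j k e i => B1 k e (i + (-((Dd : ℤ) + (j : ℕ) * K)) * ((2 ^ e : ℕ) : ℤ)))
    (a := km / 4) (by positivity) fun j _ => (sta_shift B1 _).le.trans hB1
  have hc2 := Sch.Pr_count (s := c.s) (Finset.range Bf)
    (fun j k e i => B2 k e (i + ((j : ℕ) : ℤ) * ((2 ^ e : ℕ) : ℤ)))
    (a := km / 4) (by positivity) fun j _ => (sta_shift B2 _).le.trans hB2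
  refine ((sta_mono fun k e i h => ?_).trans
    (sta_or (c.inside Xw).le (sta_or h3 (sta_or hc1 hc2)))).trans (le_of_eq ?_)
  · by_contra h'
    simp only [not_or, not_not, not_lt] at h'
    obtain ⟨g1, g2, g3, g4⟩ := h'
    refine h.2.2 (UData.step4 (c.std k) (c.D k) hL (c.hb k) (hq k) hp ?_ g1 h.2.1
      (le_trans g2 (hle e)) ?_)
    · calc 2 = 2 ^ 1 := rfl
        _ ≤ 2 ^ e := Nat.pow_le_pow_right (by norm_num) h.1
    · simp only [neg_mul, ← sub_eq_add_neg] at g3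
      have g5 := add_le_add g3 g4
      rw [← Nat.cast_add] at g5
      have g6 := Nat.cast_lt.1 (g5.trans_lt (by linarith : (km : ℝ) / 4 + km / 4 < km))
      first
        | exact lt_of_le_of_lt (add_le_add (sta_card' _ _ _ _) (sta_card _ _ _ _).le) g6
        | exact lt_of_le_of_lt (add_le_add (sta_card _ _ _ _).le (sta_card _ _ _ _).le) g6
  · rw [Finset.card_range, Finset.card_range]
    field_simp
    ring

theorem Ctx.fixes (c : Ctx T d C L) (hL : 1 ≤ L) {M : ℕ} (hM : 1 ≤ M)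
    (hq : ∀ k, FQf (c.H k) (c.b k) M) (l q m0 : ℕ) (hl : 1 ≤ l) {ε : ℝ} (hε : 0 < ε) :
    ∃ m Dd Mp Xg : ℕ, m0 ≤ m ∧ (2 * Dd + 5) * (q + 1) ≤ 2 ^ m ∧ 2 ≤ Xg ∧
      c.s.Pr (fun k e i => (c.D k).NoGap (2 ^ (e - m)) (Xg * 2 ^ m) i ∧
        ¬ (c.D k).Fixes (2 * 2 ^ (e - m)) (Mp * 2 ^ e) (2 * Dd * 2 ^ (e - m)) (l * 2 ^ e) i) ≤ ε := by
  obtain ⟨κ, hκ⟩ : ∃ κ : ℕ, κ = 4 * M := ⟨_, rfl⟩
  obtain ⟨k0, hk0⟩ : ∃ k0 : ℕ, C * (2 * κ + 1) < k0 * Real.log 2 := by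
    obtain ⟨k0, h⟩ := exists_nat_gt (C * (2 * κ + 1) / Real.log 2)
    exact ⟨k0, (div_lt_iff₀ (Real.log_pos one_lt_two)).1 h⟩
  obtain ⟨K, hK⟩ : ∃ K : ℕ, K = L * (k0 + 2) := ⟨_, rfl⟩
  have hK1 : 1 ≤ K := by rw [hK]; exact Nat.mul_pos hL (by omega)
  have hMr : (0 : ℝ) < M := by exact_mod_cast hM
  have hκr : (0 : ℝ) < κ := by exact_mod_cast (show 0 < κ by omega)
  have hKr : (1 : ℝ) ≤ K := by exact_mod_cast hK1
  have hlr : (1 : ℝ) ≤ l := by exact_mod_cast hl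
  have hqr : (1 : ℝ) ≤ q + 1 := by linarith [Nat.cast_nonneg (α := ℝ) q]
  obtain ⟨Z, hZ⟩ : ∃ Z : ℝ, Z = l * (q + 1) * K := ⟨_, rfl⟩
  have hZ1 : 1 ≤ Z := by
    rw [hZ]; exact one_le_mul_of_one_le_of_one_le (one_le_mul_of_one_le_of_one_le hlr hqr) hKr
  obtain ⟨η, hη0, hη1, hη2⟩ : ∃ η : ℝ, 0 < η ∧ η ≤ κ / (10 * M) ∧ η ≤ ε / (1000 * Z) :=
    ⟨min _ _, lt_min (by positivity) (by positivity), min_le_left _ _, min_le_right _ _⟩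
  have hη3 : η * (1000 * Z) ≤ ε := (le_div_iff₀ (by positivity)).1 hη2
  obtain ⟨r0, hr0⟩ := c.gr K hη0
  obtain ⟨r, hr⟩ : ∃ r : ℕ, r = r0 + κ := ⟨_, rfl⟩
  obtain ⟨R1, -, hR1⟩ := c.plM κ r (by omega) (by omega) hη0
  obtain ⟨R4, R0, -, hR4⟩ := c.two κ r 0 (by omega) (by omega) hη0
  obtain ⟨km, hkm⟩ : ∃ km : ℕ, km = R1 + 2 * L + 2 ^ m0 + 1 := ⟨_, rfl⟩
  have hw : 0 < 2 ^ m0 := by positivity
  obtain ⟨Dd, hDd⟩ : ∃ Dd : ℕ, Dd = K * km := ⟨_, rfl⟩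
  have hD1 : km ≤ Dd := by rw [hDd]; exact Nat.le_mul_of_pos_left _ hK1
  obtain ⟨m, hm1, hm2⟩ : ∃ m : ℕ, (2 * Dd + 5) * (q + 1) < 2 ^ m ∧
      2 ^ m ≤ 14 * Dd * (q + 1) := by
    refine ⟨Nat.log 2 ((2 * Dd + 5) * (q + 1)) + 1, Nat.lt_pow_succ_log_self one_lt_two _, ?_⟩
    have h := Nat.pow_log_le_self 2 (show (2 * Dd + 5) * (q + 1) ≠ 0 by positivity)
    have h' : (2 * Dd + 5) * 2 ≤ 14 * Dd := by omega
    calc _ = 2 ^ Nat.log 2 ((2 * Dd + 5) * (q + 1)) * 2 := pow_succ _ _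
      _ ≤ (2 * Dd + 5) * (q + 1) * 2 := Nat.mul_le_mul_right _ h
      _ = (2 * Dd + 5) * 2 * (q + 1) := by ring
      _ ≤ _ := Nat.mul_le_mul_right _ h'
  have hm0 : m0 ≤ m := by
    have h : 2 * Dd + 5 ≤ (2 * Dd + 5) * (q + 1) := Nat.le_mul_of_pos_right _ (by omega)
    exact (Nat.pow_le_pow_iff_right one_lt_two).1 (by omega)
  obtain ⟨Bf, hBf⟩ : ∃ Bf : ℕ, Bf = l * 2 ^ m := ⟨_, rfl⟩
  obtain ⟨r2, hr2⟩ : ∃ r2 : ℕ, r2 = r + Bf + κ := ⟨_, rfl⟩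
  obtain ⟨X3, R0', hX3, hts⟩ := c.tsM r2 (L * (r2 + 1)) (by omega) (Nat.mul_pos hL (by omega)) hη0
  obtain ⟨R2, hR2⟩ : ∃ R2 : ℕ, R2 = R0 + R1 + Bf + R0' := ⟨_, rfl⟩
  obtain ⟨Xa, hXa⟩ := hR1 R2 (by omega)
  obtain ⟨X4, hX4⟩ := hR4 R2 (by omega)
  obtain ⟨X2, hX2⟩ : ∃ X2 : ℕ, X2 = Xa + X4 + R2 + 1 + 2 * Dd + Bf := ⟨_, rfl⟩
  obtain ⟨r', hr'⟩ : ∃ r' : ℕ, r' = 2 * Dd + Bf + κ + r := ⟨_, rfl⟩
  obtain ⟨Xw, hXw⟩ : ∃ Xw : ℕ,
    Xw = L * (Bf + 2 * κ + 3) + k0 + K + 2 * Dd + Bf + r' + r2 + X3 + X2 + 3 := ⟨_, rfl⟩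
  have hp : Par4 C L M κ k0 K km Dd Bf r r' r2 R1 R2 X2 (L * (r2 + 1)) X3 R4 X4 X2 Xw :=
    ⟨hM, hκ.ge, hk0, hK.ge, hDd, by omega, by omega, by omega, by omega, by omega, by omega,
      by omega, le_rfl, hX3.le, by omega, hXw.ge⟩
  have hcore := sta_core c hL hq hp (by omega) hη1 (hts _ _ (by omega) (by omega))
    (hr0 r r' (by omega) (by omega)) (hXa X2 (by omega)) (hX4 X2 X4 (by omega) le_rfl).1
    (hX4 X2 X4 (by omega) le_rfl).2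
  refine ⟨m, Dd, X2, Xw + 2, hm0, hm1.le, by omega, ?_⟩
  have hsh := (Sch.Pr_shift (s := c.s) _ m 0 (fun _ => 0) fun e => by simp).le.trans hcore
  refine ((Sch.Pr_mono ?_).trans hsh).trans ?_
  · filter_upwards [c.s.hE.eventually_ge_atTop (m + 1)] with k hk e he _ i _ _ h
    have he2 : 2 ^ e = 2 ^ m * 2 ^ (e - m) := by rw [← pow_add]; congr 1; omega
    rw [add_zero]
    refine ⟨by omega, fun a h1 h2 => ?_, fun hF => h.2 fun g hg => ?_⟩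
    · have h3 : Xw ≤ (Xw + 2) * 2 ^ m :=
        (Nat.le_add_right _ _).trans (Nat.le_mul_of_pos_right _ (by positivity))
      have h4 : (Xw : ℤ) ≤ (((Xw + 2) * 2 ^ m : ℕ) : ℤ) := by exact_mod_cast h3
      exact h.1 a (by linarith) (by linarith)
    · have h3 : X2 * 2 ^ (e - m) ≤ X2 * 2 ^ e :=
        Nat.mul_le_mul_left _ (Nat.pow_le_pow_right (by norm_num) (Nat.sub_le _ _))
      have h4 : ((X2 * 2 ^ (e - m) : ℕ) : ℤ) ≤ ((X2 * 2 ^ e : ℕ) : ℤ) := by exact_mod_cast h3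
      have h5 : l * 2 ^ e = Bf * 2 ^ (e - m) := by rw [he2, hBf, mul_assoc]
      rw [h5]
      exact hF g ((c.D k).Fg_anti le_rfl (by linarith) le_rfl hg)
  · have hkr : (0 : ℝ) < km := by exact_mod_cast (show 0 < km by omega)
    have h1 : Bf ≤ l * (14 * (K * km) * (q + 1)) := by
      rw [hBf, ← hDd]; exact Nat.mul_le_mul_left _ hm2
    have h2 : (Bf : ℝ) ≤ 14 * Z * km := by
      have h3 : (Bf : ℝ) ≤ l * (14 * (K * km) * (q + 1)) := by exact_mod_cast h1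
      rw [hZ]; linarith
    have h4 : 12 * Bf * η / km ≤ 168 * (η * Z) := by
      rw [div_le_iff₀ hkr]
      nlinarith
    nlinarith

end Pool.Agent.PSV
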