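import Pool.Agent.Lib.MP_607584_al.PSV.Line
import Pool.Agent.Lib.MP_607584_al.PSV.EndD

/-! Finite constructions at a typical position. -/

namespace Pool.Agent.PSV

open Subgroup
open scoped Pointwise commutatorElement

variable {V : Type} {T : SimpleGraph V} {H : Subgroup (T ≃g T)} {b L N : ℕ}

section Helpers

variable {Γ : Type*} [Group Γ]

private theorem stb_mem_sup {A X Y : Subgroup Γ} (hA : Ab A) (h1 : X ≤ A) (h2 : Y ≤ A) {m : Γ}
    (hm : m ∈ X ⊔ Y) : ∃ m1 ∈ X, ∃ m2 ∈ Y, m = m1 * m2 := by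
  let K : Subgroup Γ :=
    { carrier := {m | ∃ m1 ∈ X, ∃ m2 ∈ Y, m = m1 * m2}
      one_mem' := ⟨1, X.one_mem, 1, Y.one_mem, by simp⟩
      mul_mem' := by
        rintro _ _ ⟨a, ha, c, hc, rfl⟩ ⟨a', ha', c', hc', rfl⟩
        refine ⟨a * a', X.mul_mem ha ha', c * c', Y.mul_mem hc hc', ?_⟩
        have e := hA c (h2 hc) a' (h1 ha')
        calc a * c * (a' * c') = a * (c * a') * c' := by group
          _ = a * (a' * c) * c' := by rw [e]
          _ = a * a' * (c * c') := by group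
      inv_mem' := by
        rintro _ ⟨a, ha, c, hc, rfl⟩
        refine ⟨a⁻¹, X.inv_mem ha, c⁻¹, Y.inv_mem hc, ?_⟩
        rw [hA a (h1 ha) c (h2 hc), mul_inv_rev] }
  have hK : X ⊔ Y ≤ K :=
    sup_le (fun a ha => ⟨a, ha, 1, Y.one_mem, by simp⟩) (fun c hc => ⟨1, X.one_mem, c, hc, by simp⟩)
  exact hK hm

/-- commutators only see the part that is not centralised -/
private theorem stb_out {A W Z Q P : Subgroup Γ} {c : Γ} {ε : ℝ} (hA : Ab A) (h1 : Z ≤ A)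
    (h2 : Q ≤ A) (hZ : Z ≤ centralizer {c}) (hP : ∀ m ∈ Q, ⁅c, m⁆ ∈ P) (h : ld W (Z ⊔ Q) ≤ ε) :
    Out W c P ε := by
  refine ⟨W ⊓ (Z ⊔ Q), inf_le_left, by rw [ld_inf_self]; exact h, fun m hm => ?_⟩
  obtain ⟨m1, hm1, m2, hm2, rfl⟩ := stb_mem_sup hA h1 h2 hm.2
  have e1 : c * m1 = m1 * c := mem_centralizer_iff.1 (hZ hm1) c rfl
  have e2 : m1 * m2 = m2 * m1 := hA m1 (h1 hm1) m2 (h2 hm2)
  have e : ⁅c, m1 * m2⁆ = ⁅c, m2⁆ := by
    have e3 : m1 * c⁻¹ = c⁻¹ * m1 := by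
      calc m1 * c⁻¹ = c⁻¹ * (c * m1) * c⁻¹ := by group
        _ = c⁻¹ * (m1 * c) * c⁻¹ := by rw [e1]
        _ = c⁻¹ * m1 := by group
    simp only [commutatorElement_def]
    calc c * (m1 * m2) * c⁻¹ * (m1 * m2)⁻¹ = c * (m2 * m1) * c⁻¹ * (m2 * m1)⁻¹ := by rw [e2]
      _ = c * m2 * (m1 * c⁻¹) * m1⁻¹ * m2⁻¹ := by group
      _ = c * m2 * (c⁻¹ * m1) * m1⁻¹ * m2⁻¹ := by rw [e3]
      _ = c * m2 * c⁻¹ * m2⁻¹ := by group
  rw [e]
  exact hP m2 hm2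

private theorem stb_cent {X : Subgroup Γ} {c : Γ} (h : c ∈ centralizer (X : Set Γ)) :
    X ≤ centralizer {c} := by
  intro m hm
  rw [mem_centralizer_iff]
  rintro _ rfl
  exact (mem_centralizer_iff.1 h m hm).symm

private theorem stb_cent' {X : Subgroup Γ} {c : Γ} (h : X ≤ centralizer {c}) :
    c ∈ centralizer (X : Set Γ) := by
  rw [mem_centralizer_iff]
  intro m hm
  exact (mem_centralizer_iff.1 (h hm) c rfl).symm

private theorem stb_cent_cj {X Y : Subgroup Γ} {c t : Γ} (hXY : Y ≤ centralizer (X : Set Γ))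
    (h : c ∈ cj t Y) : cj t X ≤ centralizer {c} := by
  intro m hm
  rw [mem_centralizer_iff]
  intro c' hc'
  rw [Set.mem_singleton_iff.1 hc']
  have e := mem_centralizer_iff.1 (hXY (mem_cj.1 h)) _ (mem_cj.1 hm)
  calc c * m = t * (t⁻¹ * c * t * (t⁻¹ * m * t)) * t⁻¹ := by group
    _ = t * (t⁻¹ * m * t * (t⁻¹ * c * t)) * t⁻¹ := by rw [← e]
    _ = m * c := by group

/-- quotients of two almost stabilising elements -/
private theorem stb_quot {X : Subgroup Γ} [Finite X] {S : Set Γ} {ε : ℝ}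
    (h : ∀ s ∈ S, ld (cj s X) X ≤ ε) {σ : Γ} (hσ : σ ∈ S⁻¹ * S) : ld (cj σ X) X ≤ 2 * ε := by
  obtain ⟨s, hs, s', hs', rfl⟩ := hσ
  have h1 := h s⁻¹ hs
  have h2 := h s' hs'
  have h3 := ld_cj_mul s s' X
  rw [ld_cj_inv] at h1
  show ld (cj (s * s') X) X ≤ 2 * ε
  linarith

end Helpers

/-- the almost invariant subgroup -/
theorem UData.pdata {d : ℕ} {C : ℝ} (hH : Std T d C H b) (D : UData H b L N)
    (hb : 100 * N ≤ b) {a n l Mp Dp R X R' X' X5 J Xw dep : ℕ} {i : ℤ} {η ε : ℝ} (hl : 1 ≤ l)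
    (ha : 2 ≤ a) (han : a ≤ n) (h1 : Inside N Xw i) (hn : n + 2 ≤ Xw)
    (hX5 : Mp ≤ X5 ∧ l * n ≤ X5 ∧ X * n ≤ X5 ∧ X' * n ≤ X5) (hXw : (l + 1) * n + X5 + dep ≤ Xw)
    (hR : L * (n + 2) ≤ R * n) (hRX : R ≤ X) (h2 : D.Fixes (2 * a) Mp Dp (l * n) i)
    (h3 : ∃ p ∈ D.good, (p : ℤ) + L ≤ i - Dp ∧ i + L ≤ p + dep)
    (h4 : D.TsM n 1 1 R' X' R X ε i) (h5 : D.TsP n 1 1 R' X' R X ε i) (h6 : D.Path X5 η i)
    (hη : 1 ≤ η) (hJ : 0 < J) :
    ∃ P0, D.Sg a i (i + l * n) ≤ P0 ∧ D.Wz i n ⊓ D.Sg n (i + R * n) (i + X * n) ≤ P0 ∧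
      PData H b (D.xz i) ((l + 1) * n)
        (2 * 3 ^ (J + 1) * η + 4 * ε + 2 * C * ((l + 1) * n + 1) / J) dep P0 := by
  have hT := hH.tree
  obtain ⟨hi1, hi2⟩ := h1
  obtain ⟨x1, x2, x3, x4⟩ := hX5
  have hXN : Xw < N := by omega
  have hln : (l + 1) * n = l * n + n := by ring
  have hb1 : (l + 1) * n + 1 ≤ b := by omega
  have hb2 : 2 * ((l + 1) * n) + 2 ≤ b := by omega
  set G := Gb H (D.xz i) 0 with hG
  set A := D.Fg 0 i (i + X5) with hA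
  set B := D.Fg 0 (i - X5) i with hB
  set C0 := D.Sg a i (i + l * n) with hC0
  set U := D.Wz i ((l + 1) * n) with hU
  set W := D.Wz i n with hW
  set Sp := D.Sg n (i + R * n) (i + X * n) with hSp
  set Sm := D.Sg n (i - X' * n) (i - R' * n) with hSm
  have : Finite G := hH.toHyp.finGb _ _
  have : Finite U := hH.toHyp.finWd _ (by omega)
  have hUab : Ab U := Wd_ab hT hb2
  have hAG : A ≤ G := D.Fg_le_Gb le_rfl le_rfl (by omega)
  have hBG : B ≤ G := D.Fg_le_Gb le_rfl (by omega) le_rfl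
  have x2' : ((l : ℤ) * n) ≤ X5 := by exact_mod_cast x2
  have x3' : ((X : ℤ) * n) ≤ X5 := by exact_mod_cast x3
  have x4' : ((X' : ℤ) * n) ≤ X5 := by exact_mod_cast x4
  have q1 : (0 : ℤ) ≤ (R : ℤ) * n := by positivity
  have q2 : (0 : ℤ) ≤ (R' : ℤ) * n := by positivity
  have q3 : (0 : ℤ) ≤ (l : ℤ) * n := by positivity
  have hAC : A ≤ normalizer (C0 : Set (T ≃g T)) := D.Fg_nz hT a 0 le_rfl (by omega)
  have hGU : ∀ g ∈ G, cj g U = U := fun g hg => cj_eq_iff.2 (Gb_nz_Wd hT _ _ hg)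
  have hGW : ∀ g ∈ G, cj g W = W := fun g hg => cj_eq_iff.2 (Gb_nz_Wd hT _ _ hg)
  have hCU : C0 ≤ U := D.Sg_le_Wz hT (X := l * n) (by push_cast; omega) (by push_cast; omega)
    (by omega)
  have hWU : W ≤ U := D.Wz_le_Wz hT (X := 0) (by simp) (by omega)
  have hcU : ∀ g ∈ G, ∀ Z ≤ U, cj g Z ≤ U := fun g hg Z hZ => (cj_mono g hZ).trans (hGU g hg).le
  obtain ⟨T0, S1, hT0, hT1, hS1, hS2⟩ := robust hAG hBG hAC (fun g hg => hcU g hg _ hCU) J hJ hη h6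
  set Nn := ⨆ t ∈ T0, cj t C0 with hNn
  have hNU : Nn ≤ U := iSup₂_le fun t ht => hcU t (hBG (hT0 ht)) _ hCU
  have hPU : W ⊓ Sp ≤ U := inf_le_left.trans hWU
  have hMU : W ⊓ Sm ≤ U := inf_le_left.trans hWU
  have : Finite Nn := fin_of_le hNU
  have : Finite (W ⊓ Sp : Subgroup (T ≃g T)) := fin_of_le hPU
  have : Finite (W ⊓ Sm : Subgroup (T ≃g T)) := fin_of_le hMU
  have h4' : ld (W ⊓ Sm) Sp ≤ ε := by
    have := h4
    unfold UData.TsM at this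
    rwa [one_mul] at this
  have h5' : ld (W ⊓ Sp) Sm ≤ ε := by
    have := h5
    unfold UData.TsP at this
    rwa [one_mul] at this
  have hε : 0 ≤ ε := (ld_nonneg _ _).trans h4'
  have hpm : ld (W ⊓ Sp) (W ⊓ Sm) ≤ ε := by
    have := ld_inf (W ⊓ Sp) W Sm
    rw [ld_of_le inf_le_left] at this
    linarith
  have hmp : ld (W ⊓ Sm) (W ⊓ Sp) ≤ ε := by
    have := ld_inf (W ⊓ Sm) W Sp
    rw [ld_of_le inf_le_left] at this
    linarith
  have hS3 : ∀ s ∈ (B : Set (T ≃g T)) * (A : Set (T ≃g T)),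
      ld (cj s (W ⊓ Sp)) (W ⊓ Sp) ≤ 2 * ε := by
    rintro _ ⟨g, hg, g', hg', rfl⟩
    have e1 : cj g' (W ⊓ Sp) = W ⊓ Sp := by
      rw [cj_inf, hGW g' (hAG hg'), cj_eq_iff.2 (D.Fg_nz hT n 0 (by omega) (by omega) hg')]
    have e2 : cj g (W ⊓ Sm) = W ⊓ Sm := by
      rw [cj_inf, hGW g (hBG hg), cj_eq_iff.2 (D.Fg_nz hT n 0 (by omega) (by omega) hg)]
    have := fin_cj g (W ⊓ Sp)
    have e3 := ld_tri (cj g (W ⊓ Sp)) (W ⊓ Sm) (W ⊓ Sp)
    have e4 := ld_cj g (W ⊓ Sp) (W ⊓ Sm)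
    rw [e2] at e4
    show ld (cj (g * g') (W ⊓ Sp)) (W ⊓ Sp) ≤ 2 * ε
    rw [cj_mul, e1]
    linarith
  have hlc : lc U ≤ C * ((l + 1) * n + 1) := by
    have := hH.grow (D.xz i) ((l + 1) * n) hb1
    push_cast at this
    exact this
  have hJ' : (0 : ℝ) < J := by exact_mod_cast hJ
  have hlc' : 2 * (lc U / J) ≤ 2 * C * ((l + 1) * n + 1) / J := by
    rw [← mul_div_assoc]
    apply div_le_div_of_nonneg_right _ hJ'.le
    linarith
  have hlc0 : 0 ≤ lc U / J := div_nonneg (lc_nonneg _) hJ'.le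
  have h3p : (1 : ℝ) ≤ 3 ^ (J + 1) := one_le_pow₀ (by norm_num)
  have h3q : η ≤ 3 ^ (J + 1) * η := by nlinarith
  refine ⟨Nn ⊔ (W ⊓ Sp), ?_, le_sup_right, sup_le hNU hPU, ?_, ?_⟩
  · refine le_trans ?_ le_sup_left
    refine le_iSup₂_of_le 1 hT1 ?_
    rw [cj_one]
  · have hd := hS1.inter h6
    refine ⟨_, hd.mono subset_rfl hd.1 (by linarith),
      (sym_inv_mul hS1.nonempty).inter (sym_inv_mul (Dn.nonempty h6)), fun σ hσ => ?_⟩
    have hσG : σ ∈ G := hd.1 hσ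
    have a1 := stb_quot hS2 hσ.1
    have a2 := stb_quot hS3 hσ.2
    have := fin_cj σ Nn
    have := fin_cj σ (W ⊓ Sp)
    have a3 := ld_sup_ab (Nn ⊔ (W ⊓ Sp)) hUab (hcU σ hσG _ hNU) (hcU σ hσG _ hPU)
    have a4 := ld_mono_right (cj σ Nn) (le_sup_left : Nn ≤ Nn ⊔ (W ⊓ Sp))
    have a5 := ld_mono_right (cj σ (W ⊓ Sp)) (le_sup_right : W ⊓ Sp ≤ Nn ⊔ (W ⊓ Sp))
    rw [cj_sup]
    linarith
  · obtain ⟨p, hp, hp1, hp2⟩ := h3
    obtain ⟨u, hu1, hu2⟩ := SetLike.not_le_iff_exists.1 (D.act p hp)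
    have hu3 : u ∈ D.Uz (i - Dp) := D.mono (show p + L ≤ (i - Dp).toNat by omega) hu1
    have hfix : ∀ t ∈ B, u ∈ cj t (D.Fg (2 * a) i (i + l * n)) := by
      intro t ht
      have := h2 t (D.Fg_anti le_rfl (by omega) le_rfl ht) hu3
      push_cast at this
      exact this
    refine ⟨u, ?_, ?_, stb_cent' (sup_le (iSup₂_le fun t ht => ?_) ?_)⟩
    · have := hfix 1 B.one_mem
      rw [cj_one] at this
      exact D.Fg_le_Gb (by omega) le_rfl (by omega) this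
    · intro hu
      have hpN := D.lt p hp
      have e : D.xz (p : ℤ) = D.x p := by
        unfold UData.xz
        rw [Int.toNat_natCast, min_eq_left (by omega)]
      have hd := D.dist_le hT i p
      rw [abs_of_nonneg (by omega), e] at hd
      exact hu2 (Gb_anti hT (by omega) hu)
    · exact stb_cent_cj (D.Fg_cent hT (by omega) le_rfl le_rfl) (hfix t (hT0 ht))
    · refine inf_le_right.trans (stb_cent ?_)
      have hR' : (L : ℤ) * ((n + 2 : ℕ) : ℤ) ≤ R * n := by exact_mod_cast hR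
      have hRX' : (R : ℤ) * n ≤ X * n := by exact_mod_cast Nat.mul_le_mul_right n hRX
      exact D.Fg_cent hT le_rfl le_rfl le_rfl (D.Uz_le_Fg (r := n + 2) (by omega) (by omega)
        (by omega) (by omega) (by omega) hu3)

/-- the local data at a small scale -/
theorem UData.locd {d : ℕ} {C : ℝ} (hH : Std T d C H b) (D : UData H b L N)
    (hb : 100 * N ≤ b) {M a n l G R X w κ κ' x R1 Xq Xw σ ρ : ℕ} {i : ℤ} {P0 : Subgroup (T ≃g T)}
    (hM : 1 ≤ M) (hρ : ρ = κ' * w) (hσ : σ = x * ρ) (he : Even σ) (hw : 2 ≤ w) (haw : a ≤ w)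
    (hκ : 3 * M ≤ κ) (hκ' : 100 * M * κ ≤ κ') (hx : R1 < x) (hG : G + 1 ≤ l)
    (hσn : 100 * M * C * (σ + a + 1) ≤ n) (h1 : Inside N Xw i)
    (hXw : (l + X + 4) * n ≤ Xw) (hXq : Xq * ρ ≤ X * n) (hxq : x ≤ Xq) {Rq : ℕ}
    (hRq : R * n ≤ Rq * ρ)
    (p1 : D.Sg a i (i + l * n) ≤ P0) (p2 : D.Wz i n ⊓ D.Sg n (i + R * n) (i + X * n) ≤ P0)
    (p3 : P0 ≤ D.Wz i ((l + 1) * n))
    (e1 : D.DecM a n (G + 1) l ((n : ℝ) / (20 * M)) i)
    (e2 : D.DecP w ρ R1 x ((ρ : ℝ) / (20 * M)) i)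
    (e3 : D.PlP ρ 1 1 R1 Rq Xq ((ρ : ℝ) / (20 * M)) i)
    (e4 : D.Fwd (κ * w) (2 * σ) n G l ((ρ : ℝ) / (100 * M)) (i - σ)) :
    ∃ v Y, LocD H b M (D.xz i) n P0 σ ρ (κ * w) (2 * w) v Y := by
  have hT := hH.tree
  obtain ⟨hi1, hi2⟩ := h1
  have hM' : (1 : ℝ) ≤ M := by exact_mod_cast hM
  have hC := hH.one_le
  have hs0 : (0 : ℝ) ≤ (σ : ℝ) + a + 1 := by positivity
  have hσn1 : 100 * (σ + a + 1) ≤ n := by
    have h1 : (1 : ℝ) ≤ M * C := by nlinarith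
    have h2 : (100 : ℝ) * (σ + a + 1) ≤ n := by nlinarith
    exact_mod_cast h2
  have hXN : Xw < N := by omega
  have hln : (l + X + 4) * n = l * n + X * n + 4 * n := by ring
  have hln1 : (l + 1) * n = l * n + n := by ring
  have hGn : G * n + n ≤ l * n := by
    have := Nat.mul_le_mul_right n hG
    rwa [add_mul, one_mul] at this
  have hx1 : 1 ≤ x := by omega
  have hρσ : ρ ≤ σ := by rw [hσ]; exact Nat.le_mul_of_pos_left ρ hx1
  have hκw : 3 * w ≤ κ * w := Nat.mul_le_mul_right w (by omega)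
  have hwρ : w ≤ ρ := by
    have h1 : 1 ≤ M * κ := Nat.mul_pos hM (by omega)
    have h2 : 100 * (M * κ) ≤ κ' := by rw [← mul_assoc]; exact hκ'
    rw [hρ]
    exact Nat.le_mul_of_pos_left w (by omega)
  have c1 : ((l * n : ℕ) : ℤ) = (l : ℤ) * n := by push_cast; rfl
  have c2 : ((G * n : ℕ) : ℤ) = (G : ℤ) * n := by push_cast; rfl
  have c3 : ((G + 1 : ℕ) : ℤ) * n = (G : ℤ) * n + n := by push_cast; ring
  have c4 : (x : ℤ) * ρ = σ := by rw [hσ]; push_cast; rfl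
  have c5 : ((X * n : ℕ) : ℤ) = (X : ℤ) * n := by push_cast; rfl
  have c6 : (0 : ℤ) ≤ (R1 : ℤ) * ρ := by positivity
  have c7 : (σ : ℤ) ≤ (Xq : ℤ) * ρ := by
    rw [← c4]; exact_mod_cast Nat.mul_le_mul_right ρ hxq
  have c8 : (R : ℤ) * n ≤ (Rq : ℤ) * ρ := by exact_mod_cast hRq
  have c9 : (Xq : ℤ) * ρ ≤ (X : ℤ) * n := by exact_mod_cast hXq
  have hseg : (fun s : ℕ => D.xz (i - σ + s)) '' Set.Iic (2 * σ) =
      D.Seg (i - σ) (i - σ + ((2 * σ : ℕ) : ℤ)) := by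
    ext y
    constructor
    · rintro ⟨s, hs, rfl⟩
      have hs' : s ≤ 2 * σ := hs
      exact ⟨i - σ + s, ⟨by omega, by omega⟩, rfl⟩
    · rintro ⟨t, ⟨ht1, ht2⟩, rfl⟩
      refine ⟨(t - (i - σ)).toNat, show (t - (i - σ)).toNat ≤ 2 * σ by omega, ?_⟩
      show D.xz _ = D.xz _
      congr 1
      omega
  have hv0 : D.xz (i - σ + ((0 : ℕ) : ℤ)) = D.xz (i - σ) := by simp
  refine ⟨fun s : ℕ => D.xz (i - σ + s),
    D.Fg (2 * n) (i - σ - l * n) (i - σ - G * n) ⊓ D.Fg (κ * w) (i - σ - G * n) (i - σ),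
    ?_, ?_, he, ?_, ?_, hρσ, ?_, ?_, ?_, ?_⟩
  · intro s t hs ht
    have := D.dist_eq (T := T) (s := i - σ + s) (t := i - σ + t) (by omega) (by omega) (by omega)
      (by omega)
    show T.dist (D.xz (i - σ + s)) (D.xz (i - σ + t)) = Nat.dist s t
    unfold Nat.dist
    rcases abs_cases (i - σ + s - (i - σ + t)) with h | h <;> omega
  · show D.xz (i - σ + σ) = D.xz i
    rw [sub_add_cancel]
  · have h1 : 3 * M * w ≤ κ * w := Nat.mul_le_mul_right w hκ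
    have h2 : M * 1 ≤ M * w := Nat.mul_le_mul_left M (by omega)
    nlinarith
  · rw [hρ, ← mul_assoc]
    exact Nat.mul_le_mul_right w hκ'
  · show _ ≤ Gb H (D.xz (i - σ + ((0 : ℕ) : ℤ))) (κ * w)
    rw [hv0]
    exact inf_le_right.trans (D.Fg_le_Gb le_rfl (by omega) le_rfl)
  · show ld (Gb H (D.xz (i - σ + ((0 : ℕ) : ℤ))) (κ * w)) _ ≤ _
    rw [hv0, hseg]
    exact e4
  · intro h hh
    show Out (Wd H b (D.xz (i - σ + ((0 : ℕ) : ℤ))) (n - σ)) _ _ _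
    rw [hv0]
    have : Finite (D.Wz i n) := hH.toHyp.finWd _ (by omega)
    have : Finite (D.Wz i ((l + 1) * n)) := hH.toHyp.finWd _ (by omega)
    have hAb : Ab (D.Wz i ((l + 1) * n)) := Wd_ab hT (by omega)
    have hW0 : D.Wz (i - σ) (n - σ) ≤ D.Wz i n :=
      D.Wz_le_Wz hT (X := σ) (by rw [sub_sub_cancel, abs_of_nonneg (by omega)]) (by omega)
    refine Out.restrict (W := D.Wz i n) ?_ hW0
    have s1 : D.Sg a (i - l * n) (i - σ) ≤ D.Wz i ((l + 1) * n) :=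
      D.Sg_le_Wz hT (X := l * n) (by omega) (by omega) (by omega)
    have s2 : D.Sg n (i - l * n) (i - ((G + 1 : ℕ) : ℤ) * n) ≤ D.Wz i ((l + 1) * n) :=
      D.Sg_le_Wz hT (X := l * n) (by omega) (by omega) (by omega)
    have s3 : D.Sg a i (i + l * n) ≤ D.Wz i ((l + 1) * n) :=
      D.Sg_le_Wz hT (X := l * n) (by omega) (by omega) (by omega)
    have s4 : D.Sg a (i - σ) i ≤ D.Wz i (σ + a) :=
      D.Sg_le_Wz hT (X := σ) (by omega) (by omega) le_rfl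
    have s5 : D.Wz i (σ + a) ≤ D.Wz i ((l + 1) * n) := D.Wz_le_Wz hT (X := 0) (by simp) (by omega)
    set Z := D.Sg a (i - l * n) (i - σ) ⊔ D.Sg n (i - l * n) (i - ((G + 1 : ℕ) : ℤ) * n) with hZ
    set C' := D.Sg a i (i + l * n) with hC'
    set E := D.Sg a (i - σ) i with hE
    have s6 : Z ⊔ C' ≤ D.Wz i ((l + 1) * n) := sup_le (sup_le s1 s2) s3
    refine stb_out (Z := Z) (Q := C') hAb (sup_le s1 s2) s3 (sup_le ?_ ?_) ?_ ?_
    · rw [D.Sg_union a (a' := i - σ - G * n) (by omega) (by omega)]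
      exact sup_le (stb_cent (D.Fg_cent hT (by omega) (by omega) le_rfl hh.1))
        (stb_cent (D.Fg_cent hT (by omega) le_rfl le_rfl hh.2))
    · exact stb_cent (D.Fg_cent hT (by omega) (by omega) (by omega) hh.1)
    · intro m hm
      rw [commutatorElement_def]
      exact mul_mem (mem_sup_right (conj_mem_cj.2 (p1 hm))) (mem_sup_left (inv_mem (p1 hm)))
    · have : Finite (D.Wz i (σ + a)) := fin_of_le s5
      have : Finite E := fin_of_le s4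
      have : Finite (Z ⊔ C' ⊔ E : Subgroup (T ≃g T)) := fin_of_le (sup_le s6 (s4.trans s5))
      have t1 := ld_tri (D.Wz i n) (Z ⊔ C' ⊔ E) (Z ⊔ C')
      have t2 := ld_sup_ab (Z ⊔ C') hAb s6 (s4.trans s5)
      rw [ld_of_le le_rfl] at t2
      have t3 := ld_le_lc E (Z ⊔ C')
      have t4 := lc_mono s4
      have t5 := hH.grow (D.xz i) (σ + a) (by omega)
      have t6 : ld (D.Wz i n) (Z ⊔ C' ⊔ E) ≤ (n : ℝ) / (20 * M) := by
        refine le_trans (ld_mono_right _ ?_) e1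
        rw [D.Sg_union a (a' := i - σ) (by omega) (by omega),
          D.Sg_union a (a := i - σ) (a' := i) (by omega) (by omega)]
        refine sup_le (sup_le ?_ (sup_le le_sup_right ?_)) ?_
        · exact le_sup_left.trans (le_sup_left.trans le_sup_left)
        · exact le_sup_right.trans le_sup_left
        · exact le_sup_right.trans (le_sup_left.trans le_sup_left)
      have t7 : C * ((σ : ℝ) + a + 1) ≤ (n : ℝ) / (20 * M) := by
        rw [le_div_iff₀ (by positivity)]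
        have : 0 ≤ M * C * ((σ : ℝ) + a + 1) := by positivity
        nlinarith
      have t8 : (n : ℝ) / (10 * M) = (n : ℝ) / (20 * M) + (n : ℝ) / (20 * M) := by
        field_simp; ring
      push_cast at t5
      have t9 : lc (D.Wz i (σ + a)) ≤ C * ((σ : ℝ) + a + 1) := t5
      linarith
  · intro c hc
    rw [hseg] at hc
    have hc' : c ∈ D.Fg (2 * w) (i - σ) (i - σ + ((2 * σ : ℕ) : ℤ)) := hc
    have : Finite (D.Wz i ρ) := hH.toHyp.finWd _ (by omega)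
    have hAb : Ab (D.Wz i (σ + ρ)) := Wd_ab hT (by omega)
    have hAbW : Ab (D.Wz i ρ) := Wd_ab hT (by omega)
    have hcW : c ∈ normalizer (D.Wz i ρ : Set (T ≃g T)) :=
      Gb_nz_Wd hT _ _ (D.Fg_le_Gb (Nat.zero_le _) (by omega) (by omega) hc')
    have s1 : D.Sg w (i - x * ρ) (i + x * ρ) ≤ D.Wz i (σ + ρ) :=
      D.Sg_le_Wz hT (X := σ) (by omega) (by omega) (by omega)
    have s2 : D.Sg ρ (i + R1 * ρ) (i + x * ρ) ≤ D.Wz i (σ + ρ) :=
      D.Sg_le_Wz hT (X := σ) (by omega) (by omega) le_rfl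
    have hcQ : c ∈ normalizer (D.Sg ρ (i + R1 * ρ) (i + x * ρ) : Set (T ≃g T)) :=
      D.Fg_nz hT ρ (2 * w) (by omega) (by omega) hc'
    have o1 : Out (D.Wz i ρ) c (D.Sg ρ (i + R1 * ρ) (i + x * ρ)) ((ρ : ℝ) / (20 * M)) := by
      refine stb_out hAb s1 s2 (stb_cent (D.Fg_cent hT (by omega) (by omega) (by omega) hc')) ?_ e2
      intro m hm
      rw [commutatorElement_def]
      exact mul_mem ((mem_normalizer_iff.1 hcQ m).1 hm) (inv_mem hm)
    have : Finite (D.Sg ρ (i + R1 * ρ) (i + x * ρ) ⊓ D.Wz i ρ : Subgroup (T ≃g T)) :=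
      fin_of_le inf_le_right
    have o2 := Out.of_ld hAbW hcW (o1.inf hcW) P0
    refine o2.mono le_rfl ?_
    have : Finite (D.Wz i ρ ⊓ D.Sg ρ (i + R1 * ρ) (i + Xq * ρ) : Subgroup (T ≃g T)) :=
      fin_of_le inf_le_left
    have t1 := ld_mono_left (X := D.Sg ρ (i + R1 * ρ) (i + x * ρ) ⊓ D.Wz i ρ)
      (X' := D.Wz i ρ ⊓ D.Sg ρ (i + R1 * ρ) (i + Xq * ρ)) P0
      (le_inf inf_le_right (inf_le_left.trans (D.Sg_mono le_rfl le_rfl (by omega))))
    have t2 := ld_mono_right (D.Wz i ρ ⊓ D.Sg ρ (i + R1 * ρ) (i + Xq * ρ))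
      (Y := D.Wz i ρ ⊓ D.Sg ρ (i + Rq * ρ) (i + Xq * ρ)) (Y' := P0)
      (le_trans (inf_le_inf (D.Wz_le_Wz hT (X := 0) (by simp) (by omega))
        (D.Sg_mono (by omega) (by omega) (by omega))) p2)
    have t3 := ld_inf (D.Wz i ρ ⊓ D.Sg ρ (i + R1 * ρ) (i + Xq * ρ)) (D.Wz i ρ)
      (D.Sg ρ (i + Rq * ρ) (i + Xq * ρ))
    rw [ld_of_le inf_le_left] at t3
    have t4 := e3
    unfold UData.PlP at t4
    rw [one_mul] at t4
    have t8 : (ρ : ℝ) / (10 * M) = (ρ : ℝ) / (20 * M) + (ρ : ℝ) / (20 * M) := by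
      field_simp; ring
    linarith

end Pool.Agent.PSV
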