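import Pool.Agent.Lib.MP_607584_al.PSV.STa
import Pool.Agent.Lib.MP_607584_al.PSV.STb

/-! The events that give the input of the endgame. -/

namespace Pool.Agent.PSV

open Subgroup Filter
open scoped Pointwise commutatorElement

variable {V : Type} {T : SimpleGraph V} {d : ℕ} {C : ℝ} {L : ℕ}

theorem stc_mono {H : Subgroup (T ≃g T)} {b r dep : ℕ} {x : V} {ε ε' : ℝ} {P : Subgroup (T ≃g T)}
    (h : PData H b x r ε dep P) (he : ε ≤ ε') : PData H b x r ε' dep P := by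
  obtain ⟨h1, ⟨S, h2, h3, h4⟩, h5⟩ := h
  refine ⟨h1, ⟨S, ⟨h2.1, le_trans ?_ h2.2⟩, h3, fun σ hσ => (h4 σ hσ).trans he⟩, h5⟩
  exact mul_le_mul_of_nonneg_right (Real.exp_le_exp.2 (neg_le_neg he)) (Nat.cast_nonneg _)

theorem stc_all (s : Sch) (e0 : ℕ) {A : Evt} (h : ∀ k e i, e0 ≤ e → A k e i) : s.All A := by
  filter_upwards [s.hE.eventually (eventually_ge_atTop e0)] with k hk e he _ i _ _
  exact h k e i (hk.trans he)

theorem stc_or (s : Sch) {A B : Evt} {a b : ℝ} (h1 : s.Pr A ≤ a) (h2 : s.Pr B ≤ b) :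
    s.Pr (fun k e i => A k e i ∨ B k e i) ≤ a + b := (Sch.Pr_or A B).trans (add_le_add h1 h2)

theorem stc_scale (s : Sch) (A : Evt) (m : ℕ) : s.Pr (fun k e i => A k (e - m) i) = s.Pr A := by
  have := Sch.Pr_shift (s := s) A m 0 (fun _ => 0) (by simp)
  simpa using this

/-- the main event of precision `q`, for the thin radius `2 ^ (e - m)` -/
def Ctx.EvA (c : Ctx T d C L) (l q m R X : ℕ) : Evt := fun k e i => ∃ P0,
  (c.D k).Sg (2 ^ (e - m)) i (i + l * 2 ^ e) ≤ P0 ∧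
  (c.D k).Wz i (2 ^ e) ⊓ (c.D k).Sg (2 ^ e) (i + R * 2 ^ e) (i + X * 2 ^ e) ≤ P0 ∧
  PData (c.H k) (c.b k) ((c.D k).xz i) ((l + 1) * 2 ^ e) ((2 ^ e : ℝ) / (q + 1))
    (2 ^ e / (q + 1)) P0

theorem Ctx.evA (c : Ctx T d C L) (hL : 1 ≤ L) {M : ℕ} (hM : 1 ≤ M)
    (hq : ∀ k, FQf (c.H k) (c.b k) M) (l q : ℕ) (hl : 1 ≤ l) :
    ∃ m R X0 : ℕ, q ≤ m ∧ 1 ≤ R ∧ ∀ X, X0 ≤ X → 2 / 5 ≤ c.s.Pr (c.EvA l q m R X) := by
  have hC := (c.std 0).one_le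
  have hq0 : (0 : ℝ) < q + 1 := by positivity
  obtain ⟨m, Dd, Mp, Xg, f1, f2, f3, f4⟩ := c.fixes hL hM hq l q q hl (ε := 1 / 30) (by norm_num)
  obtain ⟨R, R0, t1, t2⟩ := c.two 1 1 (2 * L) le_rfl le_rfl (ε := 1 / (30 * (q + 1)))
    (by positivity)
  obtain ⟨X0, t3⟩ := t2 R0 le_rfl
  refine ⟨m, R, max X0 R, f1, by omega, fun X hX => ?_⟩
  obtain ⟨t4, t5⟩ := t3 X X ((le_max_left _ _).trans hX) ((le_max_left _ _).trans hX)
  have t6 : (1 : ℝ) / (30 * (q + 1)) ≤ 1 / 30 :=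
    one_div_le_one_div_of_le (by norm_num) (by linarith [Nat.cast_nonneg (α := ℝ) q])
  obtain ⟨J, hJ⟩ := exists_nat_ge (6 * C * (l + 2) * (q + 1))
  have hJ0 : (0 : ℝ) < J := lt_of_lt_of_le (by positivity) hJ
  have p1 := c.path (Mp + l + X) (ε := 1 / (6 * (q + 1) * 3 ^ (J + 1))) (by positivity)
  have p2 := c.inside (l + 1 + (Mp + l + X) + 3)
  have key := (c.gap Xg m).trans ((Sch.Pr_mono (stc_all c.s (m + 1 + L + 6 * (q + 1) * 3 ^ (J + 1))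
    fun k e i he hg => ?_)).trans (stc_or c.s (le_refl (c.s.Pr (c.EvA l q m R X)))
      (stc_or c.s f4 (stc_or c.s (t4.trans t6) (stc_or c.s (t5.trans t6)
        (stc_or c.s p1.le p2.le))))))
  · linarith
  by_contra hc
  simp only [not_or, not_and, not_not] at hc
  obtain ⟨c1, c2, c3, c4, c5, c6⟩ := hc
  refine c1 ?_
  have u1 : e - m < 2 ^ (e - m) := Nat.lt_two_pow_self
  have u2 : 2 ^ e = 2 ^ m * 2 ^ (e - m) := by rw [← pow_add]; congr 1; omega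
  have u3 : e < 2 ^ e := Nat.lt_two_pow_self
  have u4 : (2 * Dd + 5) * 2 ^ (e - m) ≤ 2 ^ e / (q + 1) := by
    rw [Nat.le_div_iff_mul_le (by omega), u2, mul_right_comm]
    exact Nat.mul_le_mul_right _ f2
  have u5 : 2 ^ e / (q + 1) ≤ 2 ^ e := Nat.div_le_self _ _
  have u6 : 2 * Dd + 5 ≤ Xg * 2 ^ m := ((Nat.le_mul_of_pos_right _ (by omega)).trans f2).trans
    (Nat.le_mul_of_pos_left _ (by omega))
  have w1 : ∀ a b : ℕ, a ≤ b → a * 2 ^ e ≤ b * 2 ^ e := fun a b h => Nat.mul_le_mul_right _ h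
  have w2 := w1 3 (l + 1 + (Mp + l + X) + 3) (by omega)
  have w3 : L * (2 ^ e + 2) ≤ R * 2 ^ e :=
    ((Nat.mul_le_mul_left L (by omega : 2 ^ e + 2 ≤ 2 * 2 ^ e)).trans_eq (by ring)).trans (w1 _ _ t1)
  have u7 : (0 : ℝ) < 2 ^ e := by positivity
  have u8 : (1 : ℝ) ≤ 2 ^ e := one_le_pow₀ (by norm_num)
  obtain ⟨P0, g1, g2, g3⟩ := (c.D k).pdata (c.std k) (c.hb k) (a := 2 ^ (e - m)) (n := 2 ^ e)
    (dep := 2 ^ e / (q + 1)) (J := J) hl (by omega) (Nat.pow_le_pow_right (by omega) (by omega)) c6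
    (by omega) ⟨w1 _ _ (by omega), w1 _ _ (by omega), w1 _ _ (by omega), w1 _ _ (by omega)⟩
    (by rw [add_mul _ 3, add_mul (l + 1)]; omega) w3 ((le_max_right _ _).trans hX) (c2 hg) (by
      obtain ⟨p, hp, h1, h2⟩ := hg (-(2 * Dd + 2)) (by omega) (by omega)
      have u9 : (L : ℤ) ≤ (2 ^ (e - m) : ℕ) := by exact_mod_cast (by omega)
      have u10 : ((2 * Dd + 5) * (2 ^ (e - m) : ℕ) : ℤ) ≤ (2 ^ e / (q + 1) : ℕ) := by
        exact_mod_cast u4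
      refine ⟨p, hp, ?_, ?_⟩
      · rw [Nat.cast_mul, Nat.cast_mul, Nat.cast_ofNat]
        linarith
      · linarith) c3 c4 c5 (by
      have u9 : ((6 * (q + 1) * 3 ^ (J + 1) : ℕ) : ℝ) ≤ (2 ^ e : ℕ) := by exact_mod_cast (by omega)
      push_cast at u9
      rw [one_div, inv_mul_eq_div, le_div_iff₀ (by positivity)]
      linarith) (by exact_mod_cast hJ0)
  push_cast at g1 g2 g3
  refine ⟨P0, g1, g2, stc_mono g3 ?_⟩
  have v1 : 2 * 3 ^ (J + 1) * (1 / (6 * (q + 1) * 3 ^ (J + 1)) * 2 ^ e : ℝ) =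
      2 ^ e / (q + 1) / 3 := by
    field_simp
    ring
  have v2 : 4 * (1 / (30 * (q + 1)) * 2 ^ e : ℝ) = 2 ^ e / (q + 1) * (2 / 15) := by
    field_simp
    ring
  have v3 : 2 * C * ((l + 1) * 2 ^ e + 1) / J ≤ (2 ^ e / (q + 1) / 3 : ℝ) := by
    rw [div_div, div_le_div_iff₀ hJ0 (by positivity)]
    have v4 : ((l + 1) * 2 ^ e + 1 : ℝ) ≤ (l + 2) * 2 ^ e := by linarith
    calc 2 * C * ((l + 1) * 2 ^ e + 1) * ((q + 1) * 3)
        ≤ 2 * C * ((l + 2) * 2 ^ e) * ((q + 1) * 3) := by gcongr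
      _ = 2 ^ e * (6 * C * (l + 2) * (q + 1)) := by ring
      _ ≤ 2 ^ e * J := by gcongr
  have v5 : (0 : ℝ) ≤ 2 ^ e / (q + 1) := by positivity
  linarith

/-- the local event at the scale `2 ^ (e - t)` -/
def Ctx.EvB (c : Ctx T d C L) (M l m R X t : ℕ) : Evt := fun k e i => ∀ P0,
  (c.D k).Sg (2 ^ (e - m)) i (i + l * 2 ^ e) ≤ P0 →
  (c.D k).Wz i (2 ^ e) ⊓ (c.D k).Sg (2 ^ e) (i + R * 2 ^ e) (i + X * 2 ^ e) ≤ P0 →
  P0 ≤ (c.D k).Wz i ((l + 1) * 2 ^ e) →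
  ∃ σ ρ j j1 v Y, (t + 1) * σ ≤ 2 ^ e ∧ 2 ^ e ≤ 2 ^ (t + l) * j1 ∧
    LocD (c.H k) (c.b k) M ((c.D k).xz i) (2 ^ e) P0 σ ρ j j1 v Y

theorem Ctx.evB (c : Ctx T d C L) {M : ℕ} (hM : 1 ≤ M) :
    ∃ l t0 : ℕ, 1 ≤ l ∧ ∀ t R : ℕ, t0 ≤ t → 1 ≤ R → ∃ X0 : ℕ, ∀ m X : ℕ, t + l ≤ m → X0 ≤ X →
      c.s.Pr (fun k e i => ¬ c.EvB M l m R X t k e i) ≤ 1 / 5 := by
  have hC := (c.std 0).one_le
  have hM' : (1 : ℝ) ≤ M := by exact_mod_cast hM
  have h20 : (0 : ℝ) < 1 / (20 * M) := by positivity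
  have h20' : (1 : ℝ) / (20 * M) ≤ 1 / 20 := one_div_le_one_div_of_le (by norm_num) (by linarith)
  obtain ⟨R1, r1, r2⟩ := c.plP 1 1 le_rfl le_rfl h20
  obtain ⟨a1, d1, d2⟩ := c.decP R1 r1 h20
  obtain ⟨m0, G, f1⟩ := c.fwd (3 * M) (by omega) (ε := 1 / (200 * M * 2 ^ a1)) (by positivity)
  obtain ⟨l0, d3, d4⟩ := c.decM (G + 1) (by omega) h20
  obtain ⟨m2, hm2⟩ : ∃ m2, m2 = 100 * M * (3 * M) + m0 := ⟨_, rfl⟩
  obtain ⟨t0, ht0⟩ := exists_nat_ge (300 * M * C)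
  refine ⟨l0 + (a1 + m2 + 1), t0, by omega, fun t R ht hR => ?_⟩
  have a2 : a1 < 2 ^ a1 := Nat.lt_two_pow_self
  have a3 : 2 ^ a1 ≤ 2 ^ (t + a1 + 1) := Nat.pow_le_pow_right (by omega) (by omega)
  have a4 : m2 < 2 ^ m2 := Nat.lt_two_pow_self
  have a5 : 2 ^ m2 ≤ 2 ^ (t + (a1 + m2 + 1)) := Nat.pow_le_pow_right (by omega) (by omega)
  have a6 : 3 * M ≤ 100 * M * (3 * M) := Nat.le_mul_of_pos_left _ (by omega)
  obtain ⟨X0, r3⟩ := r2 (R * 2 ^ (t + a1 + 1))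
    (le_trans (by omega) (Nat.le_mul_of_pos_left (2 ^ (t + a1 + 1)) hR))
  refine ⟨X0 + 1, fun m X hm hX => ?_⟩
  have b1 := (d4 (l0 + (a1 + m2 + 1)) m (by omega)).trans h20'
  have b2 := (stc_scale c.s _ (t + a1 + 1)).trans_le ((d2 (2 ^ a1) m2 a2.le).trans h20')
  have b3 := (stc_scale c.s _ (t + a1 + 1)).trans_le
    ((r3 (X * 2 ^ (t + a1 + 1))
      (le_trans (by omega) (Nat.le_mul_of_pos_right X (by omega)))).trans h20')
  have b4 := (Sch.Pr_shift _ 0 1 (fun e => -2 ^ (e - t - 1)) (fun e => by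
    rw [abs_neg, abs_of_nonneg (by positivity), Nat.cast_one, one_mul]
    exact pow_le_pow_right₀ (by norm_num) (by omega))).trans_le
    ((f1 (a1 + m2 + 1) (t + (a1 + m2 + 1)) G (l0 + (a1 + m2 + 1)) (by omega) (by omega) (by omega)
      le_rfl (by omega)).trans (one_div_le_one_div_of_le (by norm_num : (0 : ℝ) < 20) (by
        have := one_le_mul_of_one_le_of_one_le hM' (one_le_pow₀ (n := a1) one_le_two)
        linarith)))
  have b5 := c.inside (l0 + (a1 + m2 + 1) + X + 4)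
  have key := (Sch.Pr_mono (A := fun k e i => ¬ c.EvB M (l0 + (a1 + m2 + 1)) m R X t k e i)
    (stc_all c.s (t + (a1 + m2 + 1) + 1) fun k e i he hn => ?_)).trans
      (stc_or c.s b1 (stc_or c.s b2 (stc_or c.s b3 (stc_or c.s b4 b5.le))))
  · linarith
  by_contra hc
  simp only [not_or, not_not] at hc
  obtain ⟨c1, c2, c3, c4, c5⟩ := hc
  refine hn fun P0 p1 p2 p3 => ?_
  obtain ⟨f, rfl⟩ : ∃ f, e = f + 1 + (t + (a1 + m2 + 1)) := ⟨e - (t + (a1 + m2 + 1)) - 1, by omega⟩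
  rw [show f + 1 + (t + (a1 + m2 + 1)) - (t + a1 + 1) = m2 + (f + 1) by omega] at c2 c3
  rw [Nat.add_sub_cancel_left] at c2
  rw [Nat.sub_zero, Nat.add_sub_cancel,
    show f + 1 + (t + (a1 + m2 + 1)) - t - 1 = a1 + (m2 + (f + 1)) by omega] at c4
  have u1 : 2 ^ (f + 1 + (t + (a1 + m2 + 1))) = 2 ^ (t + 1) * 2 ^ (a1 + (m2 + (f + 1))) := by
    rw [← pow_add]; congr 1; omega
  have u2 : 2 ^ (f + 1 + (t + (a1 + m2 + 1))) = 2 ^ (t + a1 + 1) * 2 ^ (m2 + (f + 1)) := by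
    rw [← pow_add]; congr 1; omega
  have u3 : 2 ^ (f + 1 + (t + (a1 + m2 + 1)) - m) ≤ 2 ^ (f + 1) :=
    Nat.pow_le_pow_right (by omega) (by omega)
  have u4 : 2 ^ (f + 1) ≤ 2 ^ (a1 + (m2 + (f + 1))) := Nat.pow_le_pow_right (by omega) (by omega)
  have u5 : t + 1 < 2 ^ (t + 1) := Nat.lt_two_pow_self
  have u6 : f + 1 < 2 ^ (f + 1) := Nat.lt_two_pow_self
  have u7 : 2 ^ (a1 + m2 + 1) * 2 ^ (f + 1) = 2 * 2 ^ (a1 + (m2 + (f + 1))) := by ring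
  obtain ⟨v, Y, h⟩ := (c.D k).locd (c.std k) (c.hb k) (M := M) (R := R) (X := X) (P0 := P0)
    (a := 2 ^ (f + 1 + (t + (a1 + m2 + 1)) - m)) (n := 2 ^ (f + 1 + (t + (a1 + m2 + 1))))
    (w := 2 ^ (f + 1)) (κ := 3 * M) (κ' := 2 ^ m2) (x := 2 ^ a1) (G := G) (R1 := R1)
    (σ := 2 ^ (a1 + (m2 + (f + 1)))) (ρ := 2 ^ (m2 + (f + 1))) (Xq := X * 2 ^ (t + a1 + 1))
    (Rq := R * 2 ^ (t + a1 + 1)) hM (pow_add _ _ _) (pow_add _ _ _)
    (Nat.even_pow.2 ⟨even_two, by omega⟩) (by omega) u3 le_rfl (by omega) (by omega) (by omega) (by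
      have v1 : ((2 ^ (a1 + (m2 + (f + 1))) + 2 ^ (f + 1 + (t + (a1 + m2 + 1)) - m) + 1 : ℕ) : ℝ) ≤
          (3 * 2 ^ (a1 + (m2 + (f + 1))) : ℕ) := by exact_mod_cast (by omega)
      have v2 : (t0 : ℝ) ≤ (2 ^ (t + 1) : ℕ) := by exact_mod_cast (by omega)
      rw [Nat.cast_add, Nat.cast_add, Nat.cast_one, Nat.cast_mul] at v1
      rw [u1, Nat.cast_mul]
      calc _ ≤ 100 * M * C * (((3 : ℕ) : ℝ) * (2 ^ (a1 + (m2 + (f + 1))) : ℕ)) := by gcongr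
        _ = 300 * M * C * (2 ^ (a1 + (m2 + (f + 1))) : ℕ) := by push_cast; ring
        _ ≤ _ := by gcongr; linarith) c5 le_rfl (by rw [u2, mul_assoc])
    (a3.trans (Nat.le_mul_of_pos_left _ (by omega))) (by rw [u2, mul_assoc]) (by exact_mod_cast p1) (by exact_mod_cast p2) p3
    (by rw [div_eq_inv_mul, ← one_div]; exact_mod_cast c1)
    (by rw [div_eq_inv_mul, ← one_div]; exact_mod_cast c2)
    (by rw [div_eq_inv_mul, ← one_div]; exact_mod_cast c3) (by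
      have v1 : (1 / (200 * M * 2 ^ a1) * (2 ^ (a1 + m2 + 1) * 2 ^ (f + 1)) : ℝ) =
          ((2 ^ (m2 + (f + 1)) : ℕ) : ℝ) / (100 * M) := by
        push_cast
        field_simp
        ring
      rw [u7, v1, ← sub_eq_add_neg] at c4
      exact_mod_cast c4)
  refine ⟨_, _, _, _, v, Y, ?_, ?_, h⟩
  · rw [u1]
    exact Nat.mul_le_mul_right _ u5.le
  · rw [← pow_succ', ← pow_add]
    exact Nat.pow_le_pow_right (by omega) (by omega)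

end Pool.Agent.PSV
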