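import Pool.Agent.Lib.MP_607584_al.PSV.STc

/-! Selection of the sequence. -/

namespace Pool.Agent.PSV

open Subgroup Filter
open scoped Pointwise commutatorElement

variable {V : Type} {T : SimpleGraph V} {d : ℕ} {C : ℝ} {L : ℕ}

private theorem std_bd (s : Sch) (A : ℕ → Evt) : Bd1 fun q => s.Pr (A q) :=
  ⟨1, Eventually.of_forall fun q => abs_le.2
    ⟨by linarith [Sch.Pr_nonneg (s := s) (A q)], Sch.Pr_le_one (s := s) (A q)⟩⟩

private theorem std_pdata_mono {H : Subgroup (T ≃g T)} {b r dep dep' : ℕ} {x : V} {ε ε' : ℝ}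
    {P0 : Subgroup (T ≃g T)} (h : PData H b x r ε dep P0) (h1 : ε ≤ ε') (h2 : dep ≤ dep') :
    PData H b x r ε' dep' P0 := by
  obtain ⟨a, ⟨S, ⟨s1, s2⟩, s3, s4⟩, u, u1, u2, u3⟩ := h
  refine ⟨a, ⟨S, ⟨s1, le_trans ?_ s2⟩, s3, fun σ hσ => (s4 σ hσ).trans h1⟩, u, u1,
    fun hu => u2 (Gb_anti' h2 hu), u3⟩
  exact mul_le_mul_of_nonneg_right (Real.exp_le_exp.2 (by linarith)) (Nat.cast_nonneg _)

/-- events of a family that have probability bounded below jointly with a main event -/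
private theorem std_select (s : Sch) (A : ℕ → Evt) (B : ℕ → ℕ → Evt) {δ : ℝ} (hδ : 0 < δ)
    (h : ∀ t q, t ≤ q → δ ≤ s.Pr fun k e i => A q k e i ∧ B q t k e i) :
    ∃ φ : ℕ → ℕ, StrictMono φ ∧ ∀ τ, ∃ q, τ ≤ q ∧
      0 < s.Pr fun k e i => A q k e i ∧ ∀ j < τ, B q (φ j) k e i := by
  let p : Set (ℕ × ℕ × ℕ × ℤ) → ℝ := fun X =>
    ulim fun q => s.Pr fun k e i => A q k e i ∧ (q, k, e, i) ∈ X
  let E : ℕ → Set (ℕ × ℕ × ℕ × ℤ) := fun t => {z | B z.1 t z.2.1 z.2.2.1 z.2.2.2}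
  have hc : ∀ a : ℝ, Bd1 fun _ => a := fun a => ⟨|a|, Eventually.of_forall fun _ => le_rfl⟩
  have h0 : ∀ X, 0 ≤ p X := fun X => by
    have := ulim_mono (hc 0) (std_bd s fun q k e i => A q k e i ∧ (q, k, e, i) ∈ X)
      (Eventually.of_forall fun q => Sch.Pr_nonneg _)
    rwa [ulim_const] at this
  have hadd : ∀ X Y, p X = p (X ∩ Y) + p (X \ Y) := fun X Y => by
    have e1 := ulim_add (std_bd s fun q k e i => A q k e i ∧ (q, k, e, i) ∈ X ∩ Y)
      (std_bd s fun q k e i => A q k e i ∧ (q, k, e, i) ∈ X \ Y)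
    refine Eq.trans (ulim_congr (Eventually.of_forall fun q => ?_)) e1
    have e2 := Sch.Pr_split (s := s) (fun k e i => A q k e i ∧ (q, k, e, i) ∈ X)
      fun k e i => (q, k, e, i) ∈ Y
    have e3 : (fun k e i => (A q k e i ∧ (q, k, e, i) ∈ X) ∧ (q, k, e, i) ∈ Y) =
        fun k e i => A q k e i ∧ (q, k, e, i) ∈ X ∩ Y := by
      funext k e i
      exact propext and_assoc
    have e4 : (fun k e i => (A q k e i ∧ (q, k, e, i) ∈ X) ∧ ¬ (q, k, e, i) ∈ Y) =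
        fun k e i => A q k e i ∧ (q, k, e, i) ∈ X \ Y := by
      funext k e i
      exact propext and_assoc
    rw [e3, e4] at e2
    exact e2
  have hE : ∀ t, δ ≤ p (E t) := fun t => by
    have := ulim_mono (hc δ) (std_bd s fun q k e i => A q k e i ∧ (q, k, e, i) ∈ E t)
      (ev_of_atTop ((eventually_ge_atTop t).mono fun q hq => h t q hq))
    rwa [ulim_const] at this
  obtain ⟨φ, hφ, hp⟩ := inf_often p h0 hadd E hδ hE
  refine ⟨φ, hφ, fun τ => ?_⟩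
  have e1 := ev_gt_of_lt_ulim (std_bd s fun q k e i =>
    A q k e i ∧ (q, k, e, i) ∈ ⋂ j ∈ Finset.range τ, E (φ j)) (hp τ)
  obtain ⟨q, hq1, hq2⟩ := (e1.and (ev_of_atTop (eventually_ge_atTop τ))).exists
  refine ⟨q, hq2, lt_of_lt_of_le hq1 (Sch.Pr_mono (Eventually.of_forall ?_))⟩
  intro k e _ _ i _ _ hz
  refine ⟨hz.1, fun j hj => ?_⟩
  have := Set.mem_iInter₂.1 hz.2 j (Finset.mem_range.2 hj)
  exact this

theorem Ctx.false (c : Ctx T d C L) (hL : 1 ≤ L) {M : ℕ} (hM : 100 ≤ M)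
    (hq : ∀ k, NAf (c.H k) (c.b k) M ∧ FQf (c.H k) (c.b k) M) : False := by
  have hM1 : 1 ≤ M := le_trans (by norm_num) hM
  obtain ⟨l, t0, hl, hB⟩ := c.evB hM1
  have hA := fun q : ℕ => c.evA hL hM1 (fun k => (hq k).2) l (q + l + t0) hl
  choose m R X0 hm hR hX using hA
  have hB' := fun t q : ℕ => hB (t0 + t) (R q) (Nat.le_add_right _ _) (hR q)
  choose XB hXB using hB'
  let X : ℕ → ℕ := fun q => X0 q + ∑ t ∈ Finset.range (q + 1), XB t q
  have hX1 : ∀ q, X0 q ≤ X q := fun q => Nat.le_add_right _ _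
  have hX2 : ∀ t q, t ≤ q → XB t q ≤ X q := fun t q h =>
    le_trans (Finset.single_le_sum (f := fun t => XB t q) (fun _ _ => Nat.zero_le _)
      (Finset.mem_range.2 (Nat.lt_succ_of_le h))) (Nat.le_add_left _ _)
  obtain ⟨φ, hφ, hsel⟩ := std_select c.s (fun q => c.EvA l (q + l + t0) (m q) (R q) (X q))
    (fun q t => c.EvB M l (m q) (R q) (X q) (t0 + t)) (δ := 1 / 5) (by norm_num)
    (fun t q h => by
      have e1 := Sch.Pr_and_ge (s := c.s) (c.EvA l (q + l + t0) (m q) (R q) (X q))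
        (c.EvB M l (m q) (R q) (X q) (t0 + t))
      have e2 := hX q (X q) (hX1 q)
      have e3 := hXB t q (m q) (X q) (by have := hm q; omega) (hX2 t q h)
      linarith)
  have hP : ∀ τ : ℕ, ∀ᶠ k in om, ∃ z : ℕ × ℤ × Subgroup (T ≃g T), c.s.E k ≤ z.1 ∧
      z.1 < 2 * c.s.E k ∧
      PData (c.H k) (c.b k) ((c.D k).xz z.2.1) ((l + 1) * 2 ^ z.1) ((2 ^ z.1 : ℝ) / (τ + 1))
        (2 ^ z.1 / (τ + 1)) z.2.2 ∧
      ∀ j < τ, ∃ σ ρ j0 j1 v Y, (t0 + φ j + 1) * σ ≤ 2 ^ z.1 ∧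
        2 ^ z.1 ≤ 2 ^ (t0 + φ j + l) * j1 ∧
        LocD (c.H k) (c.b k) M ((c.D k).xz z.2.1) (2 ^ z.1) z.2.2 σ ρ j0 j1 v Y := by
    intro τ
    obtain ⟨q, hτ, hpos⟩ := hsel τ
    refine (Sch.exists_of_Pr_pos hpos).mono ?_
    rintro k ⟨e, i, h1, h2, -, -, ⟨P0, a1, a2, a3⟩, hb⟩
    refine ⟨(e, i, P0), h1, h2, std_pdata_mono a3 ?_ ?_, fun j hj => hb j hj P0 a1 a2 a3.1⟩
    · refine div_le_div_of_nonneg_left (by positivity) (by positivity) ?_
      have : τ ≤ q + l + t0 := by omega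
      have : (τ : ℝ) ≤ ((q + l + t0 : ℕ) : ℝ) := Nat.cast_le.2 this
      linarith
    · exact Nat.div_le_div_left (by omega) (Nat.succ_pos _)
  obtain ⟨μ, hμ, hd⟩ := slow_diag hP
  obtain ⟨z, hz⟩ := ev_choice (hd.mono fun k hk => hk (μ k) le_rfl)
  have hsm : ∀ a : ℕ, ∀ᶠ k in om, a * 2 ^ (z k).1 ≤ c.b k := fun a =>
    ((c.small a).and hz).mono fun k hk => by
      have e1 := hk.1 (z k).1 hk.2.2.1.le
      have e2 := c.hb k
      omega
  let Q : Seq T d C :=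
    { H := c.H
      b := c.b
      x := fun k => (c.D k).xz (z k).2.1
      n := fun k => 2 ^ (z k).1
      std := c.std
      hn := tendsto_atTop_mono' _ (hz.mono fun k hk =>
        le_trans hk.1 (Nat.lt_two_pow_self).le) c.s.hE
      hb := hsm 4 }
  have hge : ∀ a : ℕ, ∀ᶠ k in om, a ≤ μ k := fun a => hμ.eventually_ge_atTop a
  refine EndData.false (Q := Q) (M := M) (lam := l + 1) (P0 := fun k => (z k).2.2)
    ⟨hM, hq, hsm _, fun a => ?_, fun a => ⟨2 ^ (t0 + φ a + l), ?_⟩⟩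
  · refine (hz.and (hge a)).mono fun k hk => ?_
    have e1 : ((Q.n k : ℕ) : ℝ) = (2 ^ (z k).1 : ℝ) := by
      simp only [Q, Nat.cast_pow, Nat.cast_ofNat]
    refine std_pdata_mono hk.1.2.2.1 ?_ (Nat.div_le_div_left (by have := hk.2; omega)
      (Nat.succ_pos _))
    rw [e1]
    refine div_le_div_of_nonneg_left (by positivity) (by positivity) ?_
    have : (a : ℝ) ≤ (μ k : ℝ) := Nat.cast_le.2 hk.2
    linarith
  · refine (hz.and (hge (a + 1))).mono fun k hk => ?_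
    obtain ⟨σ, ρ, j0, j1, v, Y, b1, b2, b3⟩ := hk.1.2.2.2 a hk.2
    refine ⟨σ, ρ, j0, j1, v, Y, le_trans (Nat.mul_le_mul_right _ ?_) b1,
      le_trans b2 (Nat.mul_le_mul_right _ (Nat.le_succ _)), b3⟩
    have := hφ.id_le a
    simp only [id] at this
    omega

end Pool.Agent.PSV
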