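import Pool.Agent.Lib.MP_607584_al.PSV.Def

/-! Limits along the ultrafilter and diagonal arguments. -/

namespace Pool.Agent.PSV

open Filter Topology

theorem ev_or_not (P : ℕ → Prop) : (∀ᶠ k in om, P k) ∨ ∀ᶠ k in om, ¬ P k :=
  (hyperfilter ℕ).em P

theorem ev_of_not {P : ℕ → Prop} (h : ¬ ∀ᶠ k in om, P k) : ∀ᶠ k in om, ¬ P k :=
  (ev_or_not P).resolve_left h

theorem ev_false {P : ℕ → Prop} (h : ∀ᶠ k in om, P k) (h' : ∀ᶠ k in om, ¬ P k) : False := by
  obtain ⟨k, h1, h2⟩ := (h.and h').exists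
  exact h2 h1

theorem ev_of_atTop {P : ℕ → Prop} (h : ∀ᶠ k in atTop, P k) : ∀ᶠ k in om, P k :=
  h.filter_mono Nat.hyperfilter_le_atTop

theorem ev_forall {Y : Type*} [Nonempty Y] {P : ℕ → Y → Prop}
    (h : ∀ y : ℕ → Y, ∀ᶠ k in om, P k (y k)) : ∀ᶠ k in om, ∀ y, P k y := by
  classical
  have key : ∀ k, ∃ y, P k y → ∀ y', P k y' := by
    intro k
    by_cases hk : ∀ y', P k y'
    · exact ⟨Classical.arbitrary Y, fun _ => hk⟩
    · obtain ⟨y, hy⟩ := not_forall.1 hk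
      exact ⟨y, fun h' => absurd h' hy⟩
  choose y hy using key
  exact (h y).mono hy

theorem ev_choice {Y : Type*} [Nonempty Y] {P : ℕ → Y → Prop}
    (h : ∀ᶠ k in om, ∃ y, P k y) : ∃ y : ℕ → Y, ∀ᶠ k in om, P k (y k) := by
  classical
  have key : ∀ k, ∃ y, (∃ y', P k y') → P k y := by
    intro k
    by_cases hk : ∃ y', P k y'
    · obtain ⟨y, hy⟩ := hk
      exact ⟨y, fun _ => hy⟩
    · exact ⟨Classical.arbitrary Y, fun h' => absurd h' hk⟩
  choose y hy using key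
  exact ⟨y, h.mono hy⟩

/-- slow diagonal -/
theorem slow_diag {P : ℕ → ℕ → Prop} (h : ∀ m, ∀ᶠ k in om, P m k) :
    ∃ μ : ℕ → ℕ, Tendsto μ om atTop ∧ ∀ᶠ k in om, ∀ m ≤ μ k, P m k := by
  classical
  have h1 : ∀ m0, ∀ᶠ k in om, ∀ m ≤ m0, P m k := by
    intro m0
    have := (Filter.eventually_all_finite (Set.finite_Iic m0)).2 (fun m _ => h m)
    exact this.mono fun k hk m hm => hk m hm
  refine ⟨fun k => Nat.findGreatest (fun m0 => ∀ m ≤ m0, P m k) k, ?_, ?_⟩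
  · rw [tendsto_atTop]
    intro m0
    filter_upwards [h1 m0, ev_of_atTop (eventually_ge_atTop m0)] with k hk hk'
    exact Nat.le_findGreatest hk' hk
  · filter_upwards [h1 0] with k hk
    exact Nat.findGreatest_spec (P := fun m0 => ∀ m ≤ m0, P m k) (Nat.zero_le k) hk

/-- overspill -/
theorem overspill {P : ℕ → ℕ → Prop}
    (h : ∀ μ : ℕ → ℕ, Tendsto μ om atTop → ∀ᶠ k in om, P (μ k) k) :
    ∃ m, ∀ᶠ k in om, P m k := by
  by_contra hc
  obtain ⟨μ, h1, h2⟩ := slow_diag (P := fun m k => ¬ P m k) fun m =>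
    ev_of_not fun h' => hc ⟨m, h'⟩
  exact ev_false (h μ h1) (h2.mono fun k hk => hk _ le_rfl)

/-- a sequence of reals is bounded almost everywhere -/
def Bd1 (f : ℕ → ℝ) : Prop := ∃ B : ℝ, ∀ᶠ k in om, |f k| ≤ B

theorem ulim_tendsto {f : ℕ → ℝ} (h : Bd1 f) : Tendsto f om (𝓝 (ulim f)) := by
  obtain ⟨B, hB⟩ := h
  have h1 : ((hyperfilter ℕ).map f : Filter ℝ) ≤ 𝓟 (Set.Icc (-B) B) := by
    rw [le_principal_iff]
    exact hB.mono fun k hk => abs_le.1 hk
  obtain ⟨a, -, ha⟩ := isCompact_Icc.ultrafilter_le_nhds ((hyperfilter ℕ).map f) h1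
  exact tendsto_nhds_limUnder ⟨a, ha⟩

theorem ulim_eq {f : ℕ → ℝ} {a : ℝ} (h : Tendsto f om (𝓝 a)) : ulim f = a :=
  h.limUnder_eq

theorem ulim_congr {f g : ℕ → ℝ} (h : ∀ᶠ k in om, f k = g k) : ulim f = ulim g := by
  unfold ulim limUnder
  rw [Filter.map_congr h]

theorem ulim_const (a : ℝ) : ulim (fun _ => a) = a := ulim_eq tendsto_const_nhds

theorem ulim_add {f g : ℕ → ℝ} (hf : Bd1 f) (hg : Bd1 g) :
    ulim (fun k => f k + g k) = ulim f + ulim g :=
  ulim_eq ((ulim_tendsto hf).add (ulim_tendsto hg))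

theorem ulim_mul {f : ℕ → ℝ} (hf : Bd1 f) (a : ℝ) : ulim (fun k => a * f k) = a * ulim f :=
  ulim_eq ((ulim_tendsto hf).const_mul a)

theorem ulim_mono {f g : ℕ → ℝ} (hf : Bd1 f) (hg : Bd1 g) (h : ∀ᶠ k in om, f k ≤ g k) :
    ulim f ≤ ulim g :=
  le_of_tendsto_of_tendsto (ulim_tendsto hf) (ulim_tendsto hg) h

theorem ev_lt_of_ulim_lt {f : ℕ → ℝ} (hf : Bd1 f) {a : ℝ} (h : ulim f < a) :
    ∀ᶠ k in om, f k < a :=
  (ulim_tendsto hf).eventually (gt_mem_nhds h)

theorem ev_gt_of_lt_ulim {f : ℕ → ℝ} (hf : Bd1 f) {a : ℝ} (h : a < ulim f) :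
    ∀ᶠ k in om, a < f k :=
  (ulim_tendsto hf).eventually (lt_mem_nhds h)

variable {n : ℕ → ℕ} {f g : ℕ → ℝ}

theorem Sm.add (hf : Sm n f) (hg : Sm n g) : Sm n fun k => f k + g k := by
  intro ε hε
  filter_upwards [hf (ε / 2) (by linarith), hg (ε / 2) (by linarith)] with k h1 h2
  linarith

theorem Sm.of_le (hg : Sm n g) (h : ∀ᶠ k in om, f k ≤ g k) : Sm n f := by
  intro ε hε
  filter_upwards [hg ε hε, h] with k h1 h2
  exact h2.trans h1

theorem Sm.mul (hf : Sm n f) {a : ℝ} (ha : 0 ≤ a) : Sm n fun k => a * f k := by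
  intro ε hε
  filter_upwards [hf (ε / (a + 1)) (by positivity)] with k h1
  have h2 : (0 : ℝ) ≤ n k := Nat.cast_nonneg _
  have h3 : a * (ε / (a + 1)) ≤ ε := by
    rw [← mul_div_assoc, div_le_iff₀ (by linarith)]
    nlinarith
  calc a * f k ≤ a * (ε / (a + 1) * n k) := mul_le_mul_of_nonneg_left h1 ha
    _ = a * (ε / (a + 1)) * n k := by ring
    _ ≤ ε * n k := mul_le_mul_of_nonneg_right h3 h2

theorem Sm.const (hn : Tendsto n om atTop) (a : ℝ) : Sm n fun _ => a := by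
  intro ε hε
  have h1 : Tendsto (fun k => ε * (n k : ℝ)) om atTop :=
    (tendsto_natCast_atTop_atTop.comp hn).const_mul_atTop hε
  exact h1.eventually_ge_atTop a

theorem Sm.max (hf : Sm n f) (hg : Sm n g) : Sm n fun k => max (f k) (g k) := by
  intro ε hε
  filter_upwards [hf ε hε, hg ε hε] with k h1 h2
  exact max_le h1 h2

theorem Sm.sum {ι : Type*} (s : Finset ι) {F : ι → ℕ → ℝ} (h : ∀ i ∈ s, Sm n (F i)) :
    Sm n fun k => ∑ i ∈ s, F i k := by
  classical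
  induction s using Finset.induction_on with
  | empty =>
    intro ε hε
    refine Eventually.of_forall fun k => ?_
    simp only [Finset.sum_empty]
    positivity
  | insert a s ha ih =>
    simp only [Finset.sum_insert ha]
    exact Sm.add (h a (Finset.mem_insert_self a s))
      (ih fun i hi => h i (Finset.mem_insert_of_mem hi))

theorem Sm.div (hn : Tendsto n om atTop) {μ : ℕ → ℕ} (hμ : Tendsto μ om atTop) (a : ℝ) :
    Sm n fun k => a * ((n k : ℝ) / (μ k + 1)) := by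
  intro ε hε
  have h1 : Tendsto (fun k => ε * (μ k : ℝ)) om atTop :=
    (tendsto_natCast_atTop_atTop.comp hμ).const_mul_atTop hε
  filter_upwards [h1.eventually_ge_atTop a] with k hk
  have h2 : (0 : ℝ) ≤ n k := Nat.cast_nonneg _
  have h3 : (0 : ℝ) < (μ k : ℝ) + 1 := by positivity
  rw [← mul_div_assoc, div_le_iff₀ h3]
  nlinarith [mul_le_mul_of_nonneg_right hk h2, mul_nonneg hε.le h2]

theorem sm_iff : Sm n f ↔ ∀ m : ℕ, ∀ᶠ k in om, f k ≤ (n k : ℝ) / (m + 1) := by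
  constructor
  · intro h m
    filter_upwards [h (1 / ((m : ℝ) + 1)) (by positivity)] with k hk
    rwa [one_div_mul_eq_div] at hk
  · intro h ε hε
    obtain ⟨m, hm⟩ := exists_nat_one_div_lt hε
    filter_upwards [h m] with k hk
    rw [← one_div_mul_eq_div] at hk
    exact hk.trans (mul_le_mul_of_nonneg_right hm.le (Nat.cast_nonneg _))

theorem not_sm (h : ¬ Sm n f) : ∃ ε : ℝ, 0 < ε ∧ ∀ᶠ k in om, ε * n k < f k := by
  by_contra hc
  refine h fun ε hε => ?_
  have h1 : ¬ ∀ᶠ k in om, ε * n k < f k := fun h' => hc ⟨ε, hε, h'⟩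
  exact (ev_of_not h1).mono fun k hk => not_lt.1 hk

/-- a uniform `o(n)` bound over a coordinatewise set -/
theorem Sm.unif {Y : Type*} [Nonempty Y] (hn : Tendsto n om atTop) {E : ℕ → Set Y}
    {F : ℕ → Y → ℝ} (h : ∀ y : ℕ → Y, (∀ᶠ k in om, y k ∈ E k) → Sm n fun k => F k (y k)) :
    ∃ e : ℕ → ℝ, Sm n e ∧ ∀ᶠ k in om, ∀ y ∈ E k, F k y ≤ e k := by
  have h1 : ∀ m : ℕ, ∀ᶠ k in om, ∀ y, y ∈ E k → F k y ≤ (n k : ℝ) / (m + 1) := by
    intro m
    refine ev_forall (P := fun k y => y ∈ E k → F k y ≤ (n k : ℝ) / (m + 1)) fun y => ?_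
    rcases ev_or_not (fun k => y k ∈ E k) with h2 | h2
    · exact (sm_iff.1 (h y h2) m).mono fun k hk _ => hk
    · exact h2.mono fun k hk h3 => absurd h3 hk
  obtain ⟨μ, h2, h3⟩ := slow_diag h1
  refine ⟨fun k => 1 * ((n k : ℝ) / (μ k + 1)), Sm.div hn h2 1, h3.mono fun k hk y hy => ?_⟩
  simp only [one_mul]
  exact hk _ le_rfl y hy

/-- events of probability bounded below occur together infinitely often -/
theorem inf_often {Ω : Type*} (p : Set Ω → ℝ) (h0 : ∀ A, 0 ≤ p A)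
    (hadd : ∀ A B, p A = p (A ∩ B) + p (A \ B)) (E : ℕ → Set Ω) {δ : ℝ} (hδ : 0 < δ)
    (hE : ∀ q, δ ≤ p (E q)) :
    ∃ φ : ℕ → ℕ, StrictMono φ ∧ ∀ t, 0 < p (⋂ j ∈ Finset.range t, E (φ j)) := by
  have mono : ∀ A B, A ⊆ B → p A ≤ p B := by
    intro A B hAB
    have h1 := hadd B A
    rw [Set.inter_eq_right.2 hAB] at h1
    linarith [h0 (B \ A)]
  have bd : ∀ A, Bd1 fun q => p (A ∩ E q) := fun A =>
    ⟨p Set.univ, Eventually.of_forall fun q => by
      rw [abs_of_nonneg (h0 _)]; exact mono _ _ (Set.subset_univ _)⟩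
  have bdc : ∀ a : ℝ, Bd1 fun _ => a := fun a => ⟨|a|, Eventually.of_forall fun _ => le_rfl⟩
  obtain ⟨ν, hν⟩ : ∃ ν : Set Ω → ℝ, ∀ A, ν A = ulim fun q => p (A ∩ E q) := ⟨_, fun _ => rfl⟩
  have νle : ∀ (A : Set Ω) (a : ℝ), (∀ᶠ q in om, p (A ∩ E q) ≤ a) → ν A ≤ a := by
    intro A a h
    rw [hν, ← ulim_const a]
    exact ulim_mono (bd A) (bdc a) h
  have νmono : ∀ A B, A ⊆ B → ν A ≤ ν B := by
    intro A B hAB
    rw [hν, hν]
    exact ulim_mono (bd A) (bd B) (Eventually.of_forall fun q =>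
      mono _ _ (Set.inter_subset_inter_left _ hAB))
  have νadd : ∀ A B, ν A = ν (A ∩ B) + ν (A \ B) := by
    intro A B
    rw [hν, hν, hν, ← ulim_add (bd _) (bd _)]
    refine ulim_congr (Eventually.of_forall fun q => ?_)
    have e1 : A ∩ B ∩ E q = A ∩ E q ∩ B := Set.inter_right_comm _ _ _
    have e2 : A \ B ∩ E q = (A ∩ E q) \ B := by
      ext x; simp only [Set.mem_inter_iff, Set.mem_sdiff]; tauto
    rw [e1, e2]
    exact hadd _ _
  have νuniv : 0 < ν Set.univ := by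
    refine lt_of_lt_of_le hδ ?_
    rw [hν, ← ulim_const δ]
    exact ulim_mono (bdc δ) (bd _) (Eventually.of_forall fun q => by
      rw [Set.univ_inter]; exact hE q)
  have claim : ∀ (A : Set Ω) (s : ℕ), ∃ q, 0 < ν A → s ≤ q ∧ 0 < ν (A ∩ E q) := by
    intro A s
    by_contra hc
    push Not at hc
    have hA : 0 < ν A := (hc 0).1
    have hz : ∀ q, s ≤ q → ν (A ∩ E q) ≤ 0 := fun q hq => (hc q).2 hq
    obtain ⟨Z, Z0, Zs⟩ : ∃ Z : ℕ → Set Ω, Z 0 = A ∧ ∀ M, Z (M + 1) = Z M \ E (s + M) :=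
      ⟨fun M => Nat.rec A (fun M Y => Y \ E (s + M)) M, rfl, fun _ => rfl⟩
    have Zanti : Antitone Z := antitone_nat_of_succ_le fun M => by
      rw [Zs]; exact Set.sdiff_subset
    have ZA : ∀ M, Z M ⊆ A := fun M => Z0 ▸ Zanti (Nat.zero_le M)
    have Zν : ∀ M, ν A ≤ ν (Z M) := by
      intro M
      induction M with
      | zero => rw [Z0]
      | succ M ih =>
        have h1 := νadd (Z M) (E (s + M))
        have h2 := νmono _ _ (Set.inter_subset_inter_left (E (s + M)) (ZA M))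
        have h3 := hz (s + M) (Nat.le_add_right s M)
        rw [Zs]
        linarith
    have hb : BddBelow (Set.range fun M => p (Z M)) := ⟨0, by rintro _ ⟨M, rfl⟩; exact h0 _⟩
    have h4 : ∀ M, (⨅ M, p (Z M)) + ν A ≤ p (Z M) := by
      intro M
      have h5 : ν (Z M) ≤ p (Z M) - ⨅ M, p (Z M) := by
        refine νle _ _ ((ev_of_atTop (eventually_ge_atTop (s + M))).mono fun q hq => ?_)
        obtain ⟨M', rfl⟩ : ∃ M', q = s + M' := ⟨q - s, by omega⟩
        have h6 := hadd (Z M) (E (s + M'))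
        have h7 : Z (M' + 1) ⊆ Z M \ E (s + M') := by
          rw [Zs]
          exact Set.sdiff_subset_sdiff_left (Zanti (by omega))
        have h8 := mono _ _ h7
        have h9 := ciInf_le hb (M' + 1)
        linarith
      linarith [Zν M]
    have h10 := le_ciInf h4
    linarith
  choose nx hnx using claim
  obtain ⟨st, s0, ss⟩ : ∃ st : ℕ → Set Ω × ℕ, st 0 = (Set.univ, 0) ∧
      ∀ t, st (t + 1) = ((st t).1 ∩ E (nx (st t).1 (st t).2), nx (st t).1 (st t).2 + 1) :=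
    ⟨fun t => Nat.rec (Set.univ, 0) (fun _ y => (y.1 ∩ E (nx y.1 y.2), nx y.1 y.2 + 1)) t,
      rfl, fun _ => rfl⟩
  have pos : ∀ t, 0 < ν (st t).1 := by
    intro t
    induction t with
    | zero => rw [s0]; exact νuniv
    | succ t ih => rw [ss]; exact (hnx _ _ ih).2
  have eq : ∀ t, (⋂ j ∈ Finset.range t, E (nx (st j).1 (st j).2)) = (st t).1 := by
    intro t
    induction t with
    | zero => rw [s0]; simp
    | succ t ih =>
      rw [Finset.range_add_one, Finset.set_biInter_insert, ih, ss, Set.inter_comm]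
  refine ⟨fun t => nx (st t).1 (st t).2, strictMono_nat_of_lt_succ fun t => ?_, fun t => ?_⟩
  · have h1 := (hnx _ (st (t + 1)).2 (pos (t + 1))).1
    have h2 : (st (t + 1)).2 = nx (st t).1 (st t).2 + 1 := by rw [ss]
    omega
  · rw [eq]
    exact lt_of_lt_of_le (pos t)
      (νle _ _ (Eventually.of_forall fun q => mono _ _ Set.inter_subset_left))

end Pool.Agent.PSV
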