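import Pool.Agent.Lib.MP_607584_al.PSV.Bas2
import Pool.Agent.Lib.MP_607584_al.PSV.Cnt2
import Pool.Agent.Lib.MP_607584_al.PSV.Ult

/-! Sequences of group elements: short, shallow and dense. -/

namespace Pool.Agent.PSV

open Subgroup Filter
open scoped Pointwise commutatorElement

variable {V : Type} {T : SimpleGraph V} {d : ℕ} {C : ℝ} {Q : Seq T d C}
  {g z : ℕ → T ≃g T} {D D' : Subgroup (ℕ → T ≃g T)} {S : ℕ → Set (T ≃g T)}

/-- the group of short sequences -/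
def Seq.SG (Q : Seq T d C) : Subgroup (ℕ → T ≃g T) where
  carrier := {g | Q.Short g}
  one_mem' := ⟨Eventually.of_forall fun _ => one_mem _,
    (Sm.const Q.hn 0).of_le (Eventually.of_forall fun k => by simp)⟩
  mul_mem' := fun {a b} ha hb => ⟨(ha.1.and hb.1).mono fun _ h => mul_mem h.1 h.2,
    (ha.2.add hb.2).of_le (Eventually.of_forall fun k => by
      have h := (Q.std k).tree.connected.dist_triangle (u := Q.x k) (v := a k (Q.x k))
        (w := a k (b k (Q.x k)))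
      rw [dist_map] at h
      exact_mod_cast h)⟩
  inv_mem' := fun {a} ha => ⟨ha.1.mono fun _ h => inv_mem h,
    ha.2.of_le (Eventually.of_forall fun k => by
      rw [← dist_map (a k), Pi.inv_apply, RelIso.apply_inv_self, SimpleGraph.dist_comm])⟩

/-- the group of sequences fixing a ball of radius `r k` around the base vertex -/
def Seq.GG (Q : Seq T d C) (r : ℕ → ℕ) : Subgroup (ℕ → T ≃g T) where
  carrier := {g | ∀ᶠ k in om, g k ∈ Q.G k (r k)}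
  one_mem' := Eventually.of_forall fun _ => one_mem _
  mul_mem' := fun ha hb => (ha.and hb).mono fun _ h => mul_mem h.1 h.2
  inv_mem' := fun ha => ha.mono fun _ h => inv_mem h

theorem seql_fin (Q : Seq T d C) (k r : ℕ) : Finite (Q.G k r) := (Q.std k).finGb _ _

theorem seql_nat {n f : ℕ → ℕ} (hf : Sm n fun k => (f k : ℝ)) (c : ℕ) :
    ∀ᶠ k in om, c * f k ≤ n k := by
  filter_upwards [sm_iff.1 hf c] with k h
  rw [le_div_iff₀ (by positivity)] at h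
  have : f k * (c + 1) ≤ n k := by exact_mod_cast h
  nlinarith

theorem seql_ev {Γ : Type*} [Nonempty Γ] {E F : ℕ → Set Γ}
    (h : ∀ t : ℕ → Γ, (∀ᶠ k in om, t k ∈ E k) → ∀ᶠ k in om, t k ∈ F k) :
    ∀ᶠ k in om, E k ⊆ F k :=
  ev_forall (P := fun k y => y ∈ E k → y ∈ F k) fun y => (ev_or_not fun k => y k ∈ E k).elim
    (fun a => (h y a).mono fun _ b _ => b) fun a => a.mono fun _ b c => absurd c b

theorem seql_slow {P : ℕ → ℕ → ℕ → Prop} (h : ∀ j m, ∀ᶠ k in om, P j m k) :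
    ∃ μ : ℕ → ℕ, Tendsto μ om atTop ∧ ∀ᶠ k in om, ∀ j ≤ μ k, ∀ m ≤ j, P j m k :=
  slow_diag fun j => (eventually_all_finite (Set.finite_le_nat j)).2 fun m _ => h j m

theorem seql_shift (hg : Q.Short g) {m m' a a' : ℕ} (h : a' * (m + 1) < a * (m' + 1)) :
    ∀ᶠ k in om, ∀ y ∈ Q.G k (a * Q.n k / (m + 1)),
      g k * y * (g k)⁻¹ ∈ Q.G k (a' * Q.n k / (m' + 1)) := by
  filter_upwards [hg.1, seql_nat hg.2 ((m + 1) * (m' + 1))] with k h1 h2 y hy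
  have h3 := (conj_mem_cj (g := g k)).2 hy
  rw [Seq.G, cj_Gb h1] at h3
  refine Gb_anti (Q.std k).tree ?_ h3
  have h4 := Nat.div_mul_le_self (a' * Q.n k) (m' + 1)
  rw [SimpleGraph.dist_comm, Nat.le_div_iff_mul_le m.succ_pos]
  refine Nat.le_of_mul_le_mul_right ?_ m'.succ_pos
  have h5 := Nat.mul_le_mul_right (m + 1) h4
  have h6 := Nat.mul_le_mul_right (Q.n k) (Nat.succ_le_of_lt h)
  simp only [Nat.succ_eq_add_one] at h6 ⊢
  linarith

theorem seql_inv_mul (h : Inn S D) : Inn (fun k => (S k)⁻¹ * S k) D := fun g hg => by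
  obtain ⟨a, ha⟩ := ev_choice (P := fun k a => a ∈ S k ∧ a * g k ∈ S k) (hg.mono fun k hk => by
    obtain ⟨a, ha, b, hb, e⟩ := hk
    exact ⟨a⁻¹, ha, by simpa [← e] using hb⟩)
  exact (D.mul_mem_cancel_left (h a (ha.mono fun _ h => h.1))).1 (h _ (ha.mono fun _ h => h.2))

theorem seql_pow (h : Inn S D) (h0 : ∀ g : ℕ → T ≃g T, (∀ᶠ k in om, g k = 1) → g ∈ D) (m : ℕ) :
    Inn (fun k => S k ^ m) D := by
  induction m with
  | zero => exact fun g hg => h0 g (hg.mono fun k hk => by simpa using hk)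
  | succ m ih =>
    intro g hg
    obtain ⟨a, ha⟩ := ev_choice (P := fun k a => a ∈ S k ∧ g k * a⁻¹ ∈ S k ^ m)
      (hg.mono fun k hk => by
        simp only [pow_succ] at hk
        obtain ⟨a, ha, b, hb, e⟩ := hk
        exact ⟨b, hb, by simpa [← e] using ha⟩)
    exact (D.mul_mem_cancel_right (inv_mem (h a (ha.mono fun _ h => h.1)))).1
      (ih _ (ha.mono fun _ h => h.2))

theorem seql_dense (Q : Seq T d C) {r : ℕ → ℕ} (hr : Sm Q.n fun k => (r k : ℝ)) :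
    Q.Dense (Q.GG r) := by
  refine ⟨fun k => Q.G k (r k), ⟨_, (hr.add (Sm.const Q.hn 1)).mul
    (zero_le_one.trans (Q.std 0).one_le), ?_⟩, fun _ h => h⟩
  filter_upwards [seql_nat hr 1, Q.hb, Q.hn.eventually_gt_atTop 0] with k a b c
  have := seql_fin Q k 0
  have h : Q.G k (r k) ≤ Q.G k 0 := Gb_anti' (Nat.zero_le (r k))
  exact ⟨(Dn.self h).mono subset_rfl h ((Q.std k).width _ _ (by omega)), Sym.subgroup _⟩

theorem seql_conj (h : Q.DS S) (h' : ∀ᶠ k in om, ∀ s ∈ S k, g k * s * (g k)⁻¹ ∈ Q.G k 0) :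
    Q.DS fun k => (fun s => g k * s * (g k)⁻¹) '' S k := by
  obtain ⟨η, e1, e2⟩ := h
  refine ⟨η, e1, ?_⟩
  filter_upwards [e2, h'] with k a b
  refine ⟨⟨Set.image_subset_iff.2 b, ?_⟩, ⟨1, a.2.1, by simp⟩, ?_⟩
  · rw [← card_cj (g k)]
    exact (a.1.conj (g k)).2
  · have i : ∀ s ∈ S k, s⁻¹ ∈ S k := fun s hs => by rw [← a.2.2]; simpa using hs
    ext t
    refine ⟨fun ⟨s, hs, e⟩ => ⟨s⁻¹, i s hs, ?_⟩, fun ⟨s, hs, e⟩ => ⟨s⁻¹, i s hs, ?_⟩⟩
    · rw [← inv_inv t, ← e]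
      simp [mul_assoc]
    · rw [← e]
      simp [mul_assoc]

theorem Seq.GG_le_SG (Q : Seq T d C) (r : ℕ → ℕ) : Q.GG r ≤ Q.SG := fun g hg =>
  ⟨hg.mono fun _ h => h.1, (Sm.const Q.hn 0).of_le (hg.mono fun k h => by
    rw [h.2 (Q.x k) (by simp [Ball])]
    simp)⟩

theorem Seq.Shal.conj (hz : Q.Shal z) (hg : Q.Short g) : Q.Shal (g * z * g⁻¹) := by
  intro m
  filter_upwards [hz (m + 1), seql_shift (Q.SG.inv_mem hg) (m := m) (m' := m + 1) (a := 1) (a' := 1)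
    (by omega)] with k h1 h2 h3
  rw [one_mul] at h2
  refine h1 ?_
  simpa [mul_assoc] using h2 _ h3

theorem Seq.Shal.inv (hz : Q.Shal z) : Q.Shal z⁻¹ := fun m =>
  (hz m).mono fun _ h h' => h (inv_mem_iff.1 h')

theorem Seq.not_shal (hz : ¬ Q.Shal z) : ∃ m : ℕ, ∀ᶠ k in om, z k ∈ Q.G k (Q.n k / (m + 1)) := by
  obtain ⟨m, hm⟩ := not_forall.1 hz
  exact ⟨m, (ev_of_not hm).mono fun _ h => not_not.1 h⟩

/-- a shallow sequence moves a vertex at distance `o(n)` -/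
theorem Seq.Shal.depth (hz : Q.Shal z) :
    ∃ i : ℕ → ℕ, Sm Q.n (fun k => (i k : ℝ)) ∧ ∀ᶠ k in om, z k ∉ Q.G k (i k + 1) := by
  obtain ⟨μ, h1, h2⟩ := slow_diag hz
  refine ⟨fun k => Q.n k / (μ k + 1), (Sm.div Q.hn h1 1).of_le (Eventually.of_forall fun k => ?_),
    h2.mono fun k h h' => h (μ k) le_rfl (Gb_anti' (Nat.le_succ _) h')⟩
  simpa using Nat.cast_div_le (α := ℝ) (m := Q.n k) (n := μ k + 1)

/-- conjugation by a short sequence shifts depths by `o(n)` -/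
theorem Seq.Short.shift (hg : Q.Short g) {m m' a a' : ℕ} (h : a' * (m + 1) < a * (m' + 1)) :
    ∀ᶠ k in om, ∀ y ∈ Q.G k (a * Q.n k / (m + 1)),
      g k * y * (g k)⁻¹ ∈ Q.G k (a' * Q.n k / (m' + 1)) := seql_shift hg h

theorem Seq.Dense.mono (h : Q.Dense D) (h' : D ≤ D') : Q.Dense D' :=
  h.imp fun _ h => ⟨h.1, fun g hg => h' (h.2 g hg)⟩

theorem Seq.Dense.inf (h : Q.Dense D) (h' : Q.Dense D') : Q.Dense (D ⊓ D') := by
  obtain ⟨S, ⟨η, a1, a2⟩, a3⟩ := h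
  obtain ⟨S', ⟨η', b1, b2⟩, b3⟩ := h'
  refine ⟨fun k => ((S k)⁻¹ * S k) ∩ ((S' k)⁻¹ * S' k), ⟨_, a1.add b1, ?_⟩, fun g hg =>
    ⟨seql_inv_mul a3 g (hg.mono fun _ h => h.1), seql_inv_mul b3 g (hg.mono fun _ h => h.2)⟩⟩
  filter_upwards [a2, b2] with k a b
  have := seql_fin Q k 0
  exact ⟨a.1.inter b.1, (sym_inv_mul a.1.nonempty).inter (sym_inv_mul b.1.nonempty)⟩

theorem Seq.Dense.iInf {ι : Type*} (s : Finset ι) {F : ι → Subgroup (ℕ → T ≃g T)}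
    (h : ∀ i ∈ s, Q.Dense (F i)) : Q.Dense (⨅ i ∈ s, F i) := by
  classical
  induction s using Finset.induction_on with
  | empty => exact (seql_dense Q (r := fun _ => 0) (Sm.const Q.hn _)).mono (by simp)
  | insert a s _ ih =>
    rw [Finset.iInf_insert]
    exact (h a (Finset.mem_insert_self a s)).inf (ih fun i hi => h i (Finset.mem_insert_of_mem hi))

theorem Seq.Dense.conj (h : Q.Dense D) (hg : Q.Short g) : Q.Dense (cj g D) := by
  obtain ⟨S, h1, h2⟩ := h.inf (seql_dense Q (Q.SG.inv_mem hg).2)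
  refine ⟨_, seql_conj (g := g) h1 ?_, fun t ht => mem_cj.2 (h2 _ (ht.mono fun k hk => ?_)).1⟩
  · filter_upwards [seql_ev fun t ht => (h2 t ht).2, hg.1] with k a b s hs
    refine (mem_Gb_zero (Q.std k).tree).2 ⟨mul_mem (mul_mem b (a hs).1) (inv_mem b), ?_⟩
    have e : s ((g k)⁻¹ (Q.x k)) = (g k)⁻¹ (Q.x k) := (a hs).2 _ (le_refl (T.dist _ _))
    rw [RelIso.mul_apply, RelIso.mul_apply, e, RelIso.apply_inv_self]
  · obtain ⟨s, hs, e⟩ := hk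
    simpa [← e, mul_assoc] using hs

theorem Seq.dense_GG (Q : Seq T d C) {r : ℕ → ℕ} (hr : Sm Q.n fun k => (r k : ℝ)) :
    Q.Dense (Q.GG r) := seql_dense Q hr

/-- a dense set conjugated by a short sequence, if it still fixes the base vertex -/
theorem Seq.DS.conj (h : Q.DS S) (hg : Q.Short g)
    (h' : ∀ᶠ k in om, ∀ s ∈ S k, g k * s * (g k)⁻¹ ∈ Q.G k 0) :
    Q.DS fun k => (fun s => g k * s * (g k)⁻¹) '' S k :=
  have _ := hg
  seql_conj h h'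

theorem Inn.pow (h : Inn S D) (hne : ∀ᶠ k in om, (S k).Nonempty) (m : ℕ) :
    Inn (fun k => S k ^ m) D := by
  refine seql_pow h (fun g hg => ?_) m
  obtain ⟨s, hs⟩ := ev_choice hne
  refine (D.mul_mem_cancel_left (h s hs)).1 (h _ ((hs.and hg).mono fun k hk => ?_))
  rw [Pi.mul_apply, hk.2, mul_one]
  exact hk.1

theorem Wedge.inter {Γ : Type*} {X Y : Set (ℕ → Γ)} (h : Wedge X) (h' : Wedge Y) :
    Wedge (X ∩ Y) := by
  obtain ⟨l, h⟩ := h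
  obtain ⟨l', h'⟩ := h'
  refine ⟨fun m k => l m k ∩ l' m k, fun g => ?_⟩
  simp only [Set.mem_inter_iff, h, h', eventually_and, forall_and]

theorem Wedge.iInf {ι : Type*} (s : Finset ι) {F : ι → Subgroup (ℕ → T ≃g T)}
    (h : ∀ i ∈ s, Wedge (F i : Set (ℕ → T ≃g T))) :
    Wedge ((⨅ i ∈ s, F i : Subgroup (ℕ → T ≃g T)) : Set (ℕ → T ≃g T)) := by
  classical
  induction s using Finset.induction_on with
  | empty => exact ⟨fun _ _ => Set.univ, by simp⟩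
  | insert a s _ ih =>
    rw [Finset.iInf_insert, coe_inf]
    exact (h a (Finset.mem_insert_self a s)).inter
      (ih fun i hi => h i (Finset.mem_insert_of_mem hi))

theorem Wedge.cj (h : Wedge (D : Set (ℕ → T ≃g T))) (g : ℕ → T ≃g T) :
    Wedge (cj g D : Set (ℕ → T ≃g T)) := by
  obtain ⟨l, h⟩ := h
  exact ⟨fun m k => {t | (g k)⁻¹ * t * g k ∈ l m k}, fun t => mem_cj.trans (h _)⟩

theorem Seq.wedge_GG (Q : Seq T d C) (r : ℕ → ℕ) : Wedge (Q.GG r : Set (ℕ → T ≃g T)) :=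
  ⟨fun _ k => Q.G k (r k), fun _ => ⟨fun h _ => h, fun h => h 0⟩⟩

theorem Seq.wedge_SG (Q : Seq T d C) : Wedge (Q.SG : Set (ℕ → T ≃g T)) :=
  ⟨fun m k => {t | t ∈ Q.H k ∧ (T.dist (Q.x k) (t (Q.x k)) : ℝ) ≤ (Q.n k : ℝ) / (m + 1)}, fun _ =>
    ⟨fun h m => h.1.and (sm_iff.1 h.2 m), fun h =>
      ⟨(h 0).mono fun _ h => h.1, sm_iff.2 fun m => (h m).mono fun _ h => h.2⟩⟩⟩

theorem Seq.wedge_Shal (Q : Seq T d C) : Wedge {z | Q.Shal z} :=
  ⟨fun m k => {t | t ∉ Q.G k (Q.n k / (m + 1))}, fun _ => Iff.rfl⟩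

theorem Wedge.congr {Γ : Type*} {X : Set (ℕ → Γ)} (h : Wedge X) {a a' : ℕ → Γ} (ha : a ∈ X)
    (e : ∀ᶠ k in om, a k = a' k) : a' ∈ X := by
  obtain ⟨l, h⟩ := h
  exact (h a').2 fun m => (((h a).1 ha m).and e).mono fun k hk => hk.2 ▸ hk.1

/-- slowly growing powers of a coordinatewise subset -/
theorem Wedge.slow_pow (h : Wedge (D : Set (ℕ → T ≃g T))) (hS : Inn S D) :
    ∃ L : ℕ → ℕ, Tendsto L om atTop ∧ Inn (fun k => S k ^ L k) D := by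
  have h0 := seql_pow hS fun g hg => h.congr D.one_mem (hg.mono fun _ e => e.symm)
  obtain ⟨l, h⟩ := h
  obtain ⟨μ, h1, h2⟩ := seql_slow (P := fun j m k => S k ^ j ⊆ l m k) fun j m =>
    seql_ev fun t ht => (h t).1 (h0 j t ht) m
  refine ⟨μ, h1, fun t ht => (h t).2 fun m => ?_⟩
  filter_upwards [h2, ht, h1.eventually_ge_atTop m] with k a b c
  exact a _ le_rfl m c b

/-- diagonal sequences stay in a countable intersection -/
theorem Wedge.diag {Γ : Type*} {X : Set (ℕ → Γ)} (h : Wedge X) {a : ℕ → ℕ → Γ}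
    (ha : ∀ m, a m ∈ X) : ∃ μ : ℕ → ℕ, Tendsto μ om atTop ∧
      ∀ ν : ℕ → ℕ, Tendsto ν om atTop → (∀ᶠ k in om, ν k ≤ μ k) → (fun k => a (ν k) k) ∈ X := by
  obtain ⟨l, h⟩ := h
  obtain ⟨μ, h1, h2⟩ := seql_slow (P := fun j m k => a j k ∈ l m k) fun j m => (h _).1 (ha j) m
  refine ⟨μ, h1, fun ν h3 h4 => (h _).2 fun m => ?_⟩
  filter_upwards [h2, h4, h3.eventually_ge_atTop m] with k a b c
  exact a _ b m c

/-- many classes of conjugates -/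
theorem Seq.Dep0.many (hz : Q.Dep0 z) (hS : Q.DS S) (m : ℕ) :
    ∀ᶠ k in om, ∃ F : Finset (T ≃g T), (F : Set (T ≃g T)) ⊆ cls (S k) (z k) ∧
      Real.exp ((Q.n k : ℝ) / (4 * (m + 1))) ≤ F.card ∧
      ∀ a ∈ F, ∀ a' ∈ F, a ≠ a' → a⁻¹ * a' ∉ Q.G k (Q.n k / (m + 1)) := by
  classical
  obtain ⟨i, i1, i2⟩ := hz.2.depth
  obtain ⟨η, e1, e2⟩ := hS
  have m0 : (0 : ℝ) < m + 1 := by positivity
  filter_upwards [hz.1, i2, e2, seql_nat i1 (2 * (m + 1)), Q.hb,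
    (e1.add i1).add (Sm.const Q.hn 1) (1 / (20 * (m + 1))) (by positivity)] with k z1 z2 hd b1 b2 b3
  have := seql_fin Q k 0
  have r1 : 2 * i k ≤ Q.n k / (m + 1) := (Nat.le_div_iff_mul_le m.succ_pos).2 (by linarith)
  have r2 : Q.n k / (m + 1) ≤ Q.n k := Nat.div_le_self _ _
  have r3 : (Q.n k : ℝ) / (m + 1) ≤ (Q.n k / (m + 1) : ℕ) + 1 := by
    rw [div_le_iff₀ m0]
    exact_mod_cast (Nat.lt_mul_div_succ (Q.n k) m.succ_pos).le.trans_eq (mul_comm _ _)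
  generalize Q.n k / (m + 1) = R at r1 r2 r3
  obtain ⟨j, j1, j2⟩ : ∃ j : ℕ, 0 + 2 * i k + 2 * j ≤ R ∧ R ≤ 2 * j + 1 + 2 * i k :=
    ⟨(R - 2 * i k) / 2, by omega, by omega⟩
  have ac := (Q.std k).ac (i0 := 0) (m := j) z1 z2 (by omega)
  obtain ⟨F, f1, f2, f3⟩ := hd.1.classes
    (CM (Q.G k 0) (Q.G k (0 + 2 * i k + 2 * j)) {z k})
  have nz := Gb_nz_Gb (H := Q.H k) (Q.std k).tree (Q.x k) (0 + 2 * i k + 2 * j)
  have key : ∀ s ∈ F, ∀ s' ∈ F, s ≠ s' →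
      (s * z k * s⁻¹)⁻¹ * (s' * z k * s'⁻¹) ∉ Q.G k R := fun s hs s' hs' hne hw => by
    have g1 : s ∈ Q.G k 0 := hd.1.1 (f1 hs)
    have g2 : s⁻¹ * s' ∈ Q.G k 0 := mul_mem (inv_mem g1) (hd.1.1 (f1 hs'))
    refine f3 s hs s' hs' hne ⟨g2, nz g2, fun c hc => ?_⟩
    have := (mem_normalizer_iff.1 (nz (mul_mem (Gb_anti' zero_le_one z1) (inv_mem g1))) _).1
      (Gb_anti' j1 hw)
    rw [hc, show ⁅s⁻¹ * s', z k⁆ = z k * s⁻¹ * ((s * z k * s⁻¹)⁻¹ * (s' * z k * s'⁻¹)) *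
      (z k * s⁻¹)⁻¹ by rw [commutatorElement_def]; group]
    exact this
  refine ⟨F.image fun s => s * z k * s⁻¹, fun a ha => ?_, ?_, fun a ha a' ha' hne => ?_⟩
  · obtain ⟨s, hs, rfl⟩ := Finset.mem_image.1 ha
    exact ⟨s, f1 hs, rfl⟩
  · rw [Finset.card_image_of_injOn fun s hs s' hs' e => by_contra fun hne =>
      key s hs s' hs' hne (by rw [show s * z k * s⁻¹ = _ from e, inv_mul_cancel]; exact one_mem _)]
    refine (Real.exp_le_exp.2 ?_).trans f2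
    have t1 : (Q.n k : ℝ) / (4 * (m + 1)) = (Q.n k : ℝ) / (m + 1) / 4 := by
      rw [div_div, mul_comm]
    have t2 : 1 / (20 * ((m : ℝ) + 1)) * Q.n k = (Q.n k : ℝ) / (m + 1) / 20 := by
      rw [div_div, mul_comm, mul_one_div, mul_comm]
    have t3 : (R : ℝ) ≤ 2 * j + 1 + 2 * i k := by exact_mod_cast j2
    have t4 : (j : ℝ) * (2 / 3) ≤ j * Real.log 2 :=
      mul_le_mul_of_nonneg_left (by linarith [Real.log_two_gt_d9]) j.cast_nonneg
    have t5 : (0 : ℝ) ≤ (Q.n k : ℝ) / (m + 1) := by positivity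
    have t6 : (0 : ℝ) ≤ i k := Nat.cast_nonneg _
    have t7 : j * Real.log 2 ≤ ld (Q.G k 0) (CM (Q.G k 0) (Q.G k (0 + 2 * i k + 2 * j)) {z k}) := ac
    rw [t2] at b3
    rw [t1]
    linarith
  · obtain ⟨s, hs, rfl⟩ := Finset.mem_image.1 ha
    obtain ⟨s', hs', rfl⟩ := Finset.mem_image.1 ha'
    exact key s hs s' hs' fun e => hne (by rw [e])

/-- localisation of a shallow element into a dense group -/
theorem Seq.localise (hg : Q.Short g) (hz : Q.Dep0 z) (h1 : Q.Dense D) (h2 : Q.Dense D')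
    {r : ℕ → ℕ} (hr : Sm Q.n fun k => (r k : ℝ)) :
    ∃ h ∈ D, ∃ h' ∈ D, g * (h * z * h⁻¹ * (h' * z * h'⁻¹)⁻¹) * g⁻¹ ∈ D' ⊓ Q.GG r ∧
      Q.Dep0 (g * (h * z * h⁻¹ * (h' * z * h'⁻¹)⁻¹) * g⁻¹) := by
  obtain ⟨S1, s1, i1⟩ := h1
  obtain ⟨S2, ⟨η, e1, e2⟩, i2⟩ := (h2.inf (Q.dense_GG (r := fun k => r k + 1)
    ((hr.add (Sm.const Q.hn 1)).of_le (Eventually.of_forall fun k => by simp)))).conj
      (Q.SG.inv_mem hg)
  have key : ∀ m : ℕ, ∀ᶠ k in om, ∃ p : (T ≃g T) × (T ≃g T), p.1 ∈ S1 k ∧ p.2 ∈ S1 k ∧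
      p.1 * z k * p.1⁻¹ * (p.2 * z k * p.2⁻¹)⁻¹ ∈ (S2 k)⁻¹ * S2 k ∧
      p.1 * z k * p.1⁻¹ * (p.2 * z k * p.2⁻¹)⁻¹ ∉ Q.G k (Q.n k / (m + 1)) := fun m => by
    obtain ⟨η1, -, e3⟩ := id s1
    filter_upwards [hz.many s1 m, e2, e3, hz.1, e1 (1 / (8 * (m + 1))) (by positivity),
      Q.hn.eventually_gt_atTop 0] with k ⟨F, f1, f2, f3⟩ d2 d1 z1 b1 b2
    have := seql_fin Q k 0
    have f4 : (F : Set (T ≃g T)) ⊆ Q.G k 0 := fun a ha => by
      obtain ⟨s, hs, rfl⟩ := f1 ha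
      exact mul_mem (mul_mem (d1.1.1 hs) (Gb_anti' zero_le_one z1)) (inv_mem (d1.1.1 hs))
    obtain ⟨a, ha, a', ha', hne, hm⟩ := d2.1.translate F f4 (by
      refine (Real.exp_lt_exp.2 (b1.trans_lt ?_)).trans_le f2
      have : (0 : ℝ) < Q.n k := by exact_mod_cast b2
      rw [mul_comm, mul_one_div]
      exact div_lt_div_of_pos_left this (by positivity) (by linarith [m.cast_nonneg (α := ℝ)]))
    have hn : a * a'⁻¹ ∉ Q.G k (Q.n k / (m + 1)) := fun hw => f3 a' ha' a ha hne.symm (by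
      have := (mem_normalizer_iff.1 (Gb_nz_Gb (Q.std k).tree (Q.x k) _ (inv_mem (f4 ha'))) _).1 hw
      simpa [mul_assoc, Seq.G] using this)
    rw [d2.2.2] at hm ⊢
    obtain ⟨s, hs, rfl⟩ := f1 ha
    obtain ⟨s', hs', rfl⟩ := f1 ha'
    exact ⟨(s, s'), hs, hs', hm, hn⟩
  obtain ⟨μ, m1, m2⟩ := slow_diag key
  obtain ⟨p, hp⟩ := ev_choice (m2.mono fun k h => h (μ k) le_rfl)
  have w1 := mem_cj.1 (seql_inv_mul i2 ((fun k => (p k).1) * z * (fun k => (p k).1)⁻¹ *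
    ((fun k => (p k).2) * z * (fun k => (p k).2)⁻¹)⁻¹) (hp.mono fun _ h => h.2.2.1))
  rw [inv_inv] at w1
  refine ⟨fun k => (p k).1, i1 _ (hp.mono fun _ h => h.1), fun k => (p k).2,
    i1 _ (hp.mono fun _ h => h.2.1), ⟨w1.1, w1.2.mono fun k h => Gb_anti' (Nat.le_succ _) h⟩,
    w1.2.mono fun k h => Gb_anti' (Nat.le_add_left _ _) h, Seq.Shal.conj (fun m => ?_) hg⟩
  filter_upwards [hp, m1.eventually_ge_atTop m] with k a b c
  exact a.2.2.2 (Gb_anti' (Nat.div_le_div_left (Nat.succ_le_succ b) m.succ_pos) c)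

end Pool.Agent.PSV
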