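import Pool.Agent.Lib.MP_607584_al.PSV.Line

/-! The far groups fix all continuations. -/

namespace Pool.Agent.PSV

open Subgroup
open scoped Pointwise commutatorElement

variable {V : Type} {T : SimpleGraph V} {H : Subgroup (T ≃g T)} {b L N : ℕ}

/-- numerical side conditions, all lengths in units of `u` -/
structure Par4 (C : ℝ) (L M κ k0 K km Dd Bf r r' r2 R1 R2 X2 R3 X3 R4 X4 X5 Xw : ℕ) : Prop where
  hM : 1 ≤ M
  hκ : 4 * M ≤ κ
  hk0 : C * (2 * κ + 1) < k0 * Real.log 2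
  hK : L * (k0 + 2) ≤ K
  hD : Dd = K * km
  hDL : 2 * L ≤ Dd
  hr : κ ≤ r
  hr' : 2 * Dd + Bf + κ ≤ r' ∧ r ≤ r'
  hr2 : r ≤ r2 ∧ Bf + κ ≤ r2
  hR1 : R1 ≤ Dd
  hR2 : Bf ≤ R2
  hX2 : 2 * Dd + Bf ≤ X2
  hR3 : L * (r2 + 1) ≤ R3
  hX3 : R3 ≤ X3
  hX5 : X2 ≤ X5 ∧ X4 ≤ X5
  hXw : L * (Bf + 2 * κ + 3) + k0 + K + 2 * Dd + Bf + r' + r2 + X3 + X5 + 3 ≤ Xw

private theorem step4_fin (D : UData H b L N) {t : ℤ} (h0 : 0 ≤ t)
    (h1 : t ≤ 2 * N) : D.Uz t ≤ Gb H (D.xz t) 0 :=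
  (D.Uz_le_Fg (r := 0) (a := t) (a' := t) h0 (by simp) le_rfl h1 (Nat.zero_le _)).trans
    (D.Fg_le_Gb le_rfl le_rfl le_rfl)

private theorem step4_nz {Γ : Type*} [Group Γ] {X : Subgroup Γ} {g m : Γ}
    (hg : g ∈ normalizer (X : Set Γ)) (hm : m ∈ X) : g * m * g⁻¹ ∈ X :=
  (mem_normalizer_iff.1 hg m).1 hm

/-- the top groups near the first moved vertex centralise the earlier far group -/
private theorem step4_A {d : ℕ} {C : ℝ} (hH : Std T d C H b) (D : UData H b L N) (hL : 1 ≤ L)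
    (hb : 100 * N ≤ b) {κ k0 K Bf Xw u : ℕ} (hu : 2 ≤ u) {i t : ℤ} {y : V}
    (h1 : Inside N (Xw * u) i) (h2 : D.NoGap u Xw i)
    (hk0 : C * (2 * κ + 1) < k0 * Real.log 2) (hK : L * (k0 + 2) ≤ K)
    (hX : L * (Bf + 2 * κ + 3) + k0 ≤ Xw) (ht0 : (K : ℤ) * u ≤ t) (hti : t ≤ i)
    (hy : T.dist (D.xz i) y ≤ Bf * u) (hU : D.Uz t ≤ Gb H y 0) :
    Wd H b y (2 * (κ * u)) ≤ D.Lam (t - K * u) := by
  intro m hm
  by_contra hn
  obtain ⟨h3, h4⟩ := h1
  have e1 : L * (Bf * u + 2 * (κ * u) + 2 * u) + L * u + k0 * u ≤ Xw * u :=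
    (le_of_eq (by ring)).trans (Nat.mul_le_mul_right u hX)
  have e2 : L * (k0 * u + 2 * u) ≤ K * u := (le_of_eq (by ring)).trans (Nat.mul_le_mul_right u hK)
  have e3 : Bf * u + 2 * (κ * u) + 2 * u ≤ L * (Bf * u + 2 * (κ * u) + 2 * u) :=
    Nat.le_mul_of_pos_left _ hL
  have e4 : D.xz i = D.x i.toNat := by
    rw [UData.xz, min_eq_left (by omega)]
  have hfar := D.far i.toNat (Bf * u + 2 * (κ * u)) (2 * u) (t - K * u).toNat (k0 * u) m
    (by omega) (by omega) (by omega) (by omega) (by omega) (fun s hs hs' => by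
      obtain ⟨q, e5, e6, e7⟩ : ∃ q : ℕ, q * u ≤ i.toNat - s ∧ i.toNat - s < q * u + u ∧ q ≤ Xw :=
        ⟨_, Nat.div_mul_le_self _ u, Nat.lt_div_mul_add (show 0 < u by omega),
          Nat.div_le_of_le_mul (by rw [mul_comm]; omega)⟩
      have e8 : 0 < Xw := Nat.pos_of_ne_zero fun h => by rw [h] at e1; omega
      obtain ⟨p, hp, h5, h6⟩ := h2 (-(q : ℤ)) (by omega) (by omega)
      refine ⟨p, hp, ?_, ?_⟩
      · rw [neg_mul] at h5; omega
      · rw [add_mul, neg_mul] at h6; omega)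
    (e4 ▸ Wd_le hH.tree (by omega) hm) hn
  have hfin := hH.toHyp.finGb y 0
  have : Finite (D.Uz t) := fin_of_le hU
  have : Finite (Wd H b y (2 * (κ * u))) := hH.toHyp.finWd y (by omega)
  have h5 : rk (D.U ((t - K * u).toNat + L * (k0 * u + 2 * u))) m ≤ rk (D.Uz t) m :=
    rk_mono (X' := D.Uz t) (D.mono (by omega)) m
  have h6 : rk (D.Uz t) m ≤ lc (Wd H b y (2 * (κ * u))) :=
    rk_le_lc fun g hg => step4_nz (Gb_nz_Wd hH.tree y _ (hU hg)) hm
  have h7 := hH.grow y (2 * (κ * u)) (by omega)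
  have h8 : (2 : ℝ) ≤ u := by exact_mod_cast hu
  have h9 := mul_lt_mul_of_pos_right hk0 (show (0 : ℝ) < u by linarith)
  have h10 := hH.one_le
  push_cast at hfar h7
  nlinarith

/-- almost invariance of the past part -/
private theorem step4_stab {d : ℕ} (hH : Hyp T d H b) (D : UData H b L N)
    {κ r R2 X2 R4 X4 X5 u : ℕ} {ε : ℝ} {j : ℤ} (hκ : κ * u ≤ b) (h5 : X2 ≤ X5 ∧ X4 ≤ X5)
    (hM : D.TsM u κ r R2 X2 R4 X4 ε j) (hP : D.TsP u κ r R2 X2 R4 X4 ε j) {g g' : T ≃g T}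
    (hg : g ∈ D.Fg 0 (j - (X5 * u : ℕ)) j) (hg' : g' ∈ D.Fg 0 j (j + (X5 * u : ℕ))) :
    ld (cj (g * g') (D.Wz j (κ * u) ⊓ D.Sg (r * u) (j - X2 * u) (j - R2 * u)))
      (D.Wz j (κ * u) ⊓ D.Sg (r * u) (j - X2 * u) (j - R2 * u)) ≤ 2 * ε := by
  have e1 := Nat.mul_le_mul_right u h5.1
  have e2 := Nat.mul_le_mul_right u h5.2
  have e3 := Nat.zero_le (R2 * u)
  have e4 := Nat.zero_le (R4 * u)
  have : Finite (D.Wz j (κ * u)) := hH.finWd _ hκ
  set A := D.Wz j (κ * u) ⊓ D.Sg (r * u) (j - X2 * u) (j - R2 * u) with hA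
  set B := D.Wz j (κ * u) ⊓ D.Sg (r * u) (j + R4 * u) (j + X4 * u) with hB
  have : Finite A := fin_of_le inf_le_left
  have : Finite B := fin_of_le inf_le_left
  have h1 : cj g A = A := by
    rw [hA, cj_inf, cj_eq_iff.2 (D.Fg_nz hH.tree _ 0 (by omega) (by omega) hg),
      (cj_eq_iff (X := D.Wz j (κ * u))).2
        (Gb_nz_Wd hH.tree _ _ (D.Fg_le_Gb le_rfl (by omega) le_rfl hg))]
  have h2 : cj g' B = B := by
    rw [hB, cj_inf, cj_eq_iff.2 (D.Fg_nz hH.tree _ 0 (by omega) (by omega) hg'),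
      (cj_eq_iff (X := D.Wz j (κ * u))).2
        (Gb_nz_Wd hH.tree _ _ (D.Fg_le_Gb le_rfl le_rfl (by omega) hg'))]
  have h3 := ld_cj_mul g g' A
  rw [h1, ld_of_le le_rfl] at h3
  have := fin_cj g' A
  have h4 := ld_tri (cj g' A) B A
  have h6 : ld (cj g' A) B = ld A B := by rw [← ld_cj g' A B, h2]
  have h7 := ld_inf A (D.Wz j (κ * u)) (D.Sg (r * u) (j + R4 * u) (j + X4 * u))
  have h8 := ld_inf B (D.Wz j (κ * u)) (D.Sg (r * u) (j - X2 * u) (j - R2 * u))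
  rw [ld_of_le inf_le_left] at h7 h8
  have h9 : ld A (D.Sg (r * u) (j + R4 * u) (j + X4 * u)) ≤ ε := hM
  have h10 : ld B (D.Sg (r * u) (j - X2 * u) (j - R2 * u)) ≤ ε := hP
  linarith

/-- commutators land near the base point of the far group -/
private theorem step4_out {d : ℕ} (hH : Hyp T d H b) (D : UData H b L N) {u K r r' : ℕ} {ε : ℝ}
    {t : ℤ} (h0 : 0 ≤ t) (h1 : t ≤ 2 * N) (hr : r * u ≤ r' * u) (hr' : r' * u ≤ b)
    (hg : D.GoodT u K r r' ε t) {W : Subgroup (T ≃g T)} (hW : W ≤ D.Lam (t - K * u))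
    (hW' : W ≤ D.Wz t (r' * u)) {a : T ≃g T} (ha : a ∈ D.Uz t) : Out W a (D.Wz t (r * u)) ε := by
  have : Finite (D.Wz t (r' * u)) := hH.finWd _ hr'
  have : Finite ↥(D.Lam (t - K * u) ⊓ D.Wz t (r' * u)) := fin_of_le inf_le_right
  have hn : Gb H (D.xz t) 0 ≤ normalizer (D.Wz t (r * u) : Set (T ≃g T)) := Gb_nz_Wd hH.tree _ _
  have hw : D.Wz t (r' * u) ≤ Gb H (D.xz t) 0 := Wd_le_Gb hH.tree (by simpa using hr')
  have hle : D.Wz t (r * u) ≤ D.Wz t (r' * u) := Wd_le hH.tree (by simpa using hr)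
  have key : (D.Lam t ⊓ D.Wz t (r' * u)) ⊔ (D.Lam (t - K * u) ⊓ D.Wz t (r * u)) ≤
      CM (D.Wz t (r' * u)) (D.Wz t (r * u)) {a} := by
    refine sup_le (fun g hg => ⟨hg.2, hn (hw hg.2), fun c hc => ?_⟩)
      fun g hg => ⟨hle hg.2, hn (hw (hle hg.2)), fun c hc => ?_⟩
    · rw [Set.mem_singleton_iff.1 hc,
        commutatorElement_eq_one_iff_mul_comm.2 (mem_centralizer_iff.1 hg.1 a ha).symm]
      exact one_mem _
    · rw [Set.mem_singleton_iff.1 hc]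
      have h2 : g ∈ D.Wz t (r * u) := hg.2
      have := mul_mem h2 (step4_nz (hn (step4_fin D h0 h1 ha)) (inv_mem h2))
      simpa only [commutatorElement_def, mul_assoc] using this
  refine ⟨W ⊓ ((D.Lam t ⊓ D.Wz t (r' * u)) ⊔ (D.Lam (t - K * u) ⊓ D.Wz t (r * u))), inf_le_left,
    ?_, fun m hm => ?_⟩
  · rw [ld_inf_self]
    exact (ld_mono_left _ (le_inf hW hW')).trans hg
  · rw [← commutatorElement_inv]
    exact inv_mem ((key hm.2).2.2 a rfl)

/-- the application of the quadratic lemma -/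
private theorem step4_fq {d : ℕ} {C : ℝ} (hH : Std T d C H b) (D : UData H b L N)
    (hb : 100 * N ≤ b) {M κ k0 K km Dd Bf r r' r2 R1 R2 X2 R3 X3 R4 X4 X5 Xw u : ℕ}
    (hq : FQf H b M) (hp : Par4 C L M κ k0 K km Dd Bf r r' r2 R1 R2 X2 R3 X3 R4 X4 X5 Xw)
    (hu : 2 ≤ u) {i t j : ℤ} (h1 : Inside N (Xw * u) i)
    (h3 : D.TsM u r2 r2 (R2 - Bf) X2 R3 X3 ((κ * u : ℝ) / (10 * M)) i)
    (ht : i - 2 * (Dd * u) ≤ t) (ht' : t ≤ i - Dd * u) (hj : i ≤ j) (hj' : j ≤ i + Bf * u)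
    (g0 : D.GoodT u K r r' ((κ * u : ℝ) / (10 * M)) t)
    (g1 : D.PlM u κ r R1 R2 X2 ((κ * u : ℝ) / (10 * M)) j)
    (g2 : D.TsM u κ r R2 X2 R4 X4 ((κ * u : ℝ) / (10 * M)) j)
    (g3 : D.TsP u κ r R2 X2 R4 X4 ((κ * u : ℝ) / (10 * M)) j)
    (g4 : D.Path (X5 * u) ((κ * u : ℝ) / (10 * M)) j) {h a : T ≃g T}
    (hh : h ∈ D.Fg 0 (i - (X5 * u : ℕ)) i) (ha : a ∈ D.Uz t) (ha1 : a ∈ Gb H (h (D.xz j)) 1)
    (hW : Wd H b (h (D.xz j)) (κ * u) ≤ D.Lam (t - K * u)) : a ∈ Gb H (h (D.xz j)) (3 * u) := by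
  obtain ⟨h1, h2⟩ := h1
  have hT := hH.tree
  have hhH : h ∈ H := Fx_le _ _ hh
  have hfix : ∀ s, i - (X5 * u : ℕ) ≤ s → s ≤ i → h (D.xz s) = D.xz s := fun s hs hs' =>
    ((mem_Gb_zero hT).1 (D.Fg_le_Gb le_rfl hs hs' hh)).2
  have e1 : 2 * (Dd * u) + Bf * u + r' * u + r2 * u + X3 * u + X5 * u + 3 * u ≤ Xw * u :=
    (le_of_eq (by ring)).trans (Nat.mul_le_mul_right u
      (show 2 * Dd + Bf + r' + r2 + X3 + X5 + 3 ≤ Xw by have := hp.hXw; omega))
  have e2 : 2 * (Dd * u) + Bf * u + κ * u ≤ r' * u :=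
    (le_of_eq (by ring)).trans (Nat.mul_le_mul_right u hp.hr'.1)
  have e3 := Nat.mul_le_mul_right u hp.hr'.2
  have e4 := Nat.mul_le_mul_right u hp.hr2.1
  have e5 : Bf * u + κ * u ≤ r2 * u :=
    (le_of_eq (by ring)).trans (Nat.mul_le_mul_right u hp.hr2.2)
  have e6 := Nat.mul_le_mul_right u hp.hR1
  have e7 : (R2 - Bf) * u + Bf * u = R2 * u := by rw [← add_mul, Nat.sub_add_cancel hp.hR2]
  have e8 : 2 * (Dd * u) + Bf * u ≤ X2 * u :=
    (le_of_eq (by ring)).trans (Nat.mul_le_mul_right u hp.hX2)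
  have e9 : L * (r2 * u + 2) ≤ R3 * u :=
    (Nat.mul_le_mul_left L (show r2 * u + 2 ≤ (r2 + 1) * u by rw [add_mul]; omega)).trans
      ((le_of_eq (by ring)).trans (Nat.mul_le_mul_right u hp.hR3))
  have e10 := Nat.mul_le_mul_right u hp.hX3
  have e11 := Nat.mul_le_mul_right u hp.hX5.1
  have e12 : M ≤ κ * u := by
    have := hp.hκ
    have := Nat.le_mul_of_pos_right κ (show 0 < u by omega)
    omega
  have hM : (0 : ℝ) < M := by exact_mod_cast hp.hM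
  set ε : ℝ := (κ * u : ℝ) / (10 * M) with hε
  have hε0 : 0 ≤ ε := by positivity
  have hε1 : ((κ * u : ℕ) : ℝ) / M = 10 * ε := by rw [hε]; push_cast; field_simp
  have d1 : T.dist (D.xz i) (h (D.xz j)) ≤ Bf * u := by
    have := D.dist_le hT i j
    rw [← dist_map h, hfix i (by omega) le_rfl, abs_sub_comm, abs_of_nonneg (by omega)] at this
    omega
  have d2 : T.dist (D.xz t) (h (D.xz j)) ≤ 2 * (Dd * u) + Bf * u := by
    have := D.dist_le hT t j
    rw [← dist_map h, hfix t (by omega) (by omega), abs_sub_comm, abs_of_nonneg (by omega)] at this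
    omega
  set A := D.Wz j (κ * u) ⊓ D.Sg (r * u) (j - X2 * u) (j - R2 * u) with hA
  have hW0 : cj h (D.Wz j (κ * u)) = Wd H b (h (D.xz j)) (κ * u) := cj_Wd hhH _ _
  have : Finite (D.Wz j (κ * u)) := hH.toHyp.finWd _ (by omega)
  have : Finite (Wd H b (h (D.xz j)) (κ * u)) := hH.toHyp.finWd _ (by omega)
  have : Finite (Gb H (h (D.xz j)) 0) := hH.toHyp.finGb _ _
  have hPW : cj h A ≤ Wd H b (h (D.xz j)) (κ * u) := hW0 ▸ cj_mono h inf_le_left
  have hd := Dn.conj g4 h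
  rw [cj_Gb hhH] at hd
  have han : a ∈ normalizer (Wd H b (h (D.xz j)) (κ * u) : Set (T ≃g T)) :=
    Gb_nz_Wd hT _ _ (Gb_anti' (Nat.zero_le 1) ha1)
  have key := hq (h (D.xz j)) (κ * u) (cj h A) _ a e12 (by omega) hPW
    (hd.mono subset_rfl hd.1 (by linarith)) ?_ ha1 ?_ ?_
  · refine Gb_anti' ((Nat.le_div_iff_mul_le hp.hM).2 ?_) key
    have := Nat.mul_le_mul_right u hp.hκ
    nlinarith
  · rintro _ ⟨_, ⟨g, hg, g', hg', rfl⟩, rfl⟩
    have e : cj (h * (g * g') * h⁻¹) (cj h A) = cj h (cj (g * g') A) := by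
      rw [← cj_mul, ← cj_mul, inv_mul_cancel_right]
    have := step4_stab hH.toHyp D (by omega) hp.hX5 g2 g3 hg hg'
    rw [e, ld_cj]
    linarith
  · have : Finite (D.Wz i (r2 * u)) := hH.toHyp.finWd _ (by omega)
    have : Finite ↥(D.Wz i (r2 * u) ⊓
      D.Sg (r2 * u) (i - X2 * u) (i - (R2 - Bf : ℕ) * u)) := fin_of_le inf_le_left
    have h4 : cj h A ≤ D.Wz i (r2 * u) ⊓ D.Sg (r2 * u) (i - X2 * u) (i - (R2 - Bf : ℕ) * u) := by
      refine le_inf (hPW.trans (Wd_le hT (by omega))) ?_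
      rw [← cj_eq_iff.2 (D.Fg_nz hT (r2 * u) 0 (a := i - X2 * u) (a' := i - (R2 - Bf : ℕ) * u)
        (by omega) (by omega) hh)]
      exact cj_mono h (inf_le_right.trans (D.Sg_mono e4 (by omega) (by omega)))
    have h5 : D.Sg (r2 * u) (i + R3 * u) (i + X3 * u) ≤ centralizer {a} := fun m hm => by
      have := D.Fg_cent hT le_rfl le_rfl le_rfl (D.Uz_le_Fg (r := r2 * u + 2) (a := i + R3 * u)
        (a' := i + X3 * u) (by omega) (by omega) (by omega) (by omega) (by omega) ha)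
      rw [mem_centralizer_singleton_iff]
      exact mem_centralizer_iff.1 this m hm
    have h6 := (rk_mono h4 a).trans ((ld_mono_right _ h5).trans h3)
    linarith
  · have h4 := (step4_out hH.toHyp D (by omega) (by omega) e3 (by omega) g0 hW
      (Wd_le hT (by omega)) ha).inf han
    have : Finite ↥(D.Wz t (r * u) ⊓ Wd H b (h (D.xz j)) (κ * u)) := fin_of_le inf_le_right
    refine (h4.of_ld (Wd_ab hT (by omega)) han (cj h A)).mono le_rfl ?_
    have h5 : cj h (D.Wz t (r * u)) = D.Wz t (r * u) := by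
      rw [UData.Wz, cj_Wd hhH, hfix t (by omega) (by omega)]
    set B := D.Wz j (κ * u) ⊓ D.Sg (r * u) (j - X2 * u) (j - R1 * u) with hB
    have : Finite B := fin_of_le inf_le_left
    have h6 : D.Wz t (r * u) ⊓ D.Wz j (κ * u) ≤ B :=
      le_inf inf_le_right (inf_le_left.trans (D.Wz_le_Sg le_rfl (by omega) (by omega)))
    have h7 := ld_inf B (D.Wz j (κ * u)) (D.Sg (r * u) (j - X2 * u) (j - R2 * u))
    rw [ld_of_le inf_le_left] at h7
    have h8 : ld B (D.Sg (r * u) (j - X2 * u) (j - R2 * u)) ≤ ε := g1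
    have h9 := ld_mono_left A h6
    rw [← h5, ← hW0, ← cj_inf, ld_cj]
    linarith

open Classical in
/-- the version in which the first filter runs over natural numbers -/
theorem UData.step4' {d : ℕ} {C : ℝ} (hH : Std T d C H b) (D : UData H b L N) (hL : 1 ≤ L)
    (hb : 100 * N ≤ b) {M κ k0 K km Dd Bf r r' r2 R1 R2 X2 R3 X3 R4 X4 X5 Xw u : ℕ}
    (hq : FQf H b M) (hp : Par4 C L M κ k0 K km Dd Bf r r' r2 R1 R2 X2 R3 X3 R4 X4 X5 Xw)
    (hu : 2 ≤ u) {i : ℤ} (h1 : Inside N (Xw * u) i) (h2 : D.NoGap u Xw i)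
    (h3 : D.TsM u r2 r2 (R2 - Bf) X2 R3 X3 ((κ * u : ℝ) / (10 * M)) i)
    (h4 : ((Finset.range km).filter fun k : ℕ =>
        ¬ D.GoodT u K r r' ((κ * u : ℝ) / (10 * M)) (i - (Dd + k * K) * u)).card +
      ((Finset.range Bf).filter fun c : ℕ =>
        ¬ (D.PlM u κ r R1 R2 X2 ((κ * u : ℝ) / (10 * M)) (i + c * u) ∧
          D.TsM u κ r R2 X2 R4 X4 ((κ * u : ℝ) / (10 * M)) (i + c * u) ∧
          D.TsP u κ r R2 X2 R4 X4 ((κ * u : ℝ) / (10 * M)) (i + c * u) ∧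
          D.Path (X5 * u) ((κ * u : ℝ) / (10 * M)) (i + c * u))).card < km) :
    D.Fixes (2 * u) (X5 * u) (2 * Dd * u) (Bf * u) i := by
  intro h hh
  by_contra hn
  have hT := hH.tree
  have hhH : h ∈ H := Fx_le _ _ hh
  have h1' := h1
  obtain ⟨h5, h6⟩ := h1'
  have e1 : K * u + 2 * (Dd * u) + Bf * u + 3 * u ≤ Xw * u :=
    (le_of_eq (by ring)).trans (Nat.mul_le_mul_right u
      (show K + 2 * Dd + Bf + 3 ≤ Xw by have := hp.hXw; omega))
  have e2 : L * (2 * u) ≤ Dd * u := (le_of_eq (by ring)).trans (Nat.mul_le_mul_right u hp.hDL)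
  have e3 : 4 * u ≤ κ * u := Nat.mul_le_mul_right u (by have := hp.hκ; have := hp.hM; omega)
  have hi : h (D.xz i) = D.xz i :=
    ((mem_Gb_zero hT).1 (D.Fg_le_Gb le_rfl (by omega) le_rfl hh)).2
  have hd : ∀ s s' : ℕ, s ≤ s' → T.dist (h (D.xz (i + s))) (h (D.xz (i + s'))) + s ≤ s' ∧
      T.dist (h (D.xz (i + s'))) (h (D.xz (i + s))) + s ≤ s' := fun s s' hs => by
    have := D.dist_le hT (i + s) (i + s')
    rw [abs_sub_comm, abs_of_nonneg (by omega)] at this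
    rw [T.dist_comm (u := h (D.xz (i + s'))), dist_map]
    omega
  obtain ⟨t, ht⟩ : ∃ t : ℕ → ℤ, ∀ k, t k = i - (Dd + k * K) * u := ⟨_, fun _ => rfl⟩
  have t1 : ∀ k, t k ≤ i - Dd * u := fun k => by
    rw [ht, add_mul]
    have : (0 : ℤ) ≤ k * K * u := by positivity
    linarith
  have t2 : ∀ k, k < km → i - 2 * (Dd * u) + K * u ≤ t k := fun k hk => by
    have : (k + 1) * K * u ≤ Dd * u :=
      Nat.mul_le_mul_right u (by rw [hp.hD, mul_comm]; exact Nat.mul_le_mul_left K hk)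
    have : ((k : ℤ) + 1) * K * u ≤ Dd * u := by exact_mod_cast this
    rw [ht]; linarith
  have t3 : ∀ k k', k < k' → t k' ≤ t k - K * u := fun k k' hk => by
    have : ((k : ℤ) + 1) * (K * u) ≤ k' * (K * u) :=
      mul_le_mul_of_nonneg_right (by omega) (by positivity)
    rw [ht, ht]; linarith
  have hex : ∀ k, ∃ s : ℕ, k < km → s ≤ Bf * u ∧ ¬ D.Uz (t k) ≤ Gb H (h (D.xz (i + s))) (2 * u) ∧
      ∀ s' < s, D.Uz (t k) ≤ Gb H (h (D.xz (i + s'))) (2 * u) := fun k => by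
    by_cases hk : k < km
    swap
    · exact ⟨0, fun h => absurd h hk⟩
    have hs : ∃ s : ℕ, s ≤ Bf * u ∧ ¬ D.Uz (t k) ≤ Gb H (h (D.xz (i + s))) (2 * u) := by
      by_contra h7
      simp only [not_exists, not_and, not_not] at h7
      refine hn fun g hg => ?_
      have hg' : g ∈ D.Uz (t k) := D.Uz_mono (by have := t2 k hk; push_cast; nlinarith) hg
      have hne : (h '' D.Seg i (i + (Bf * u : ℕ))).Nonempty :=
        ⟨_, _, ⟨i, ⟨le_rfl, by omega⟩, rfl⟩, rfl⟩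
      rw [UData.Fg, cj_Fx hhH, image_Nb, mem_Fx_Nb hne]
      rintro _ ⟨_, ⟨j, ⟨h8, h9⟩, rfl⟩, rfl⟩
      have := h7 (j - i).toNat (by omega) hg'
      rwa [show i + ((j - i).toNat : ℕ) = j by omega] at this
    refine ⟨Nat.find hs, fun _ => ⟨(Nat.find_spec hs).1, (Nat.find_spec hs).2, fun s' h7 => ?_⟩⟩
    by_contra h8
    exact Nat.find_min hs h7 ⟨h7.le.trans (Nat.find_spec hs).1, h8⟩
  choose s hs using hex
  have s1 : ∀ k, k < km → 1 ≤ s k := fun k hk => Nat.pos_of_ne_zero fun h0 => by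
    have h7 := (hs k hk).2.1
    rw [h0, Nat.cast_zero, add_zero, hi] at h7
    have := t1 k
    have := t2 k hk
    exact h7 ((D.Uz_le_Fg (r := 2 * u) (a := i) (a' := i) (by omega) (by omega) le_rfl (by omega)
      (by omega)).trans (D.Fg_le_Gb le_rfl le_rfl le_rfl))
  have s2 : ∀ k, k < km → D.Uz (t k) ≤ Gb H (h (D.xz (i + s k))) 1 := fun k hk => by
    have h7 := s1 k hk
    have h8 := (hd (s k - 1) (s k) (by omega)).1
    exact ((hs k hk).2.2 (s k - 1) (by omega)).trans (Gb_anti hT (by omega))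
  have sA : ∀ k, k < km → Wd H b (h (D.xz (i + s k))) (2 * (κ * u)) ≤ D.Lam (t k - K * u) :=
    fun k hk => by
      have h7 := t1 k
      have h8 := t2 k hk
      have h9 := (hd 0 (s k) (Nat.zero_le _)).1
      simp only [Nat.cast_zero, add_zero, hi] at h9
      have h10 := (hs k hk).1
      exact step4_A (Bf := Bf) hH D hL hb hu h1 h2 hp.hk0 hp.hK (by have := hp.hXw; omega) (by omega)
        (by omega) (by omega) ((s2 k hk).trans (Gb_anti' (Nat.zero_le 1)))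
  have sB : ∀ k k', k < k' → k' < km → s k + u < s k' := fun k k' h7 hk' => by
    have hk := h7.trans hk'
    by_contra h8
    refine (hs k' hk').2.1 fun g hg => ?_
    have h9 : g ∈ D.Uz (t k - K * u) := D.Uz_mono (t3 k k' h7) hg
    have h10 : g ∈ D.Uz (t k) := D.Uz_mono (by omega) h9
    rcases lt_or_ge (s k') (s k) with h11 | h11
    · exact (hs k hk).2.2 _ h11 h10
    · have h12 := hH.toHyp.deep_of_cent (s2 k hk h10) (mem_centralizer_iff.2 fun m hm =>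
        (mem_centralizer_iff.1 (sA k hk hm) g h9).symm)
      have h13 := (hd _ _ h11).1
      exact Gb_anti hT (by omega) h12
  set c : ℕ → ℕ := fun k => (s k - 1) / u with hc
  have c1 : ∀ k, k < km → c k * u < s k ∧ s k ≤ c k * u + u := fun k hk => by
    have := s1 k hk
    have := Nat.div_mul_le_self (s k - 1) u
    have := Nat.lt_div_mul_add (a := s k - 1) (show 0 < u by omega)
    simp only [hc]
    omega
  have c2 : ∀ k k', k < k' → k' < km → c k < c k' := fun k k' h7 hk' => by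
    have := c1 k (h7.trans hk')
    have := c1 k' hk'
    have := sB k k' h7 hk'
    exact Nat.lt_of_mul_lt_mul_right (a := u) (by omega)
  have c3 : ∀ k, k < km → c k < Bf := fun k hk => by
    have := c1 k hk
    have := (hs k hk).1
    exact Nat.lt_of_mul_lt_mul_right (a := u) (by omega)
  refine absurd h4 (not_lt.2 ?_)
  refine le_trans (le_of_eq ?_) (add_le_add_right (Finset.card_le_card_of_injOn
    (s := (Finset.range km).filter fun k : ℕ =>
      D.GoodT u K r r' ((κ * u : ℝ) / (10 * M)) (i - (Dd + k * K) * u)) c ?_ ?_) _)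
  · rw [add_comm, Finset.card_filter_add_card_filter_not, Finset.card_range]
  · intro k hk
    obtain ⟨hk, g0⟩ := Finset.mem_filter.1 (Finset.mem_coe.1 hk)
    rw [Finset.mem_range] at hk
    refine Finset.mem_coe.2 (Finset.mem_filter.2 ⟨Finset.mem_range.2 (c3 k hk), ?_⟩)
    rintro ⟨g1, g2, g3, g4⟩
    rw [← ht] at g0
    obtain ⟨h7, h8⟩ := c1 k hk
    have h9 := t1 k
    have h10 := t2 k hk
    have h11 := (hs k hk).1
    obtain ⟨h12, h13⟩ := hd _ _ h7.le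
    have h14 := (hs k hk).2.2 _ h7
    have h15 := sA k hk
    rw [Nat.cast_mul] at h12 h13 h14
    refine (hs k hk).2.1 fun a ha => ?_
    have := step4_fq hH D hb hq hp hu h1 h3 (by omega) h9 (by omega) (by omega) g0 g1 g2 g3 g4
      hh ha (Gb_anti' (by omega) (h14 ha)) ((Wd_le hT (by omega)).trans h15)
    exact Gb_anti hT (by omega) this
  · intro k hk k' hk' he
    have h7 := Finset.mem_range.1 (Finset.mem_filter.1 (Finset.mem_coe.1 hk)).1
    have h8 := Finset.mem_range.1 (Finset.mem_filter.1 (Finset.mem_coe.1 hk')).1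
    rcases lt_trichotomy k k' with h9 | h9 | h9
    · exact absurd he (c2 k k' h9 h8).ne
    · exact h9
    · exact absurd he (c2 k' k h9 h7).ne'

open Classical in
theorem UData.step4 {d : ℕ} {C : ℝ} (hH : Std T d C H b) (D : UData H b L N) (hL : 1 ≤ L)
    (hb : 100 * N ≤ b) {M κ k0 K km Dd Bf r r' r2 R1 R2 X2 R3 X3 R4 X4 X5 Xw u : ℕ}
    (hq : FQf H b M) (hp : Par4 C L M κ k0 K km Dd Bf r r' r2 R1 R2 X2 R3 X3 R4 X4 X5 Xw)
    (hu : 2 ≤ u) {i : ℤ} (h1 : Inside N (Xw * u) i) (h2 : D.NoGap u Xw i)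
    (h3 : D.TsM u r2 r2 (R2 - Bf) X2 R3 X3 ((κ * u : ℝ) / (10 * M)) i)
    (h4 : ((Finset.range km).filter fun k =>
        ¬ D.GoodT u K r r' ((κ * u : ℝ) / (10 * M)) (i - (Dd + k * K) * u)).card +
      ((Finset.range Bf).filter fun c : ℕ =>
        ¬ (D.PlM u κ r R1 R2 X2 ((κ * u : ℝ) / (10 * M)) (i + c * u) ∧
          D.TsM u κ r R2 X2 R4 X4 ((κ * u : ℝ) / (10 * M)) (i + c * u) ∧
          D.TsP u κ r R2 X2 R4 X4 ((κ * u : ℝ) / (10 * M)) (i + c * u) ∧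
          D.Path (X5 * u) ((κ * u : ℝ) / (10 * M)) (i + c * u))).card < km) :
    D.Fixes (2 * u) (X5 * u) (2 * Dd * u) (Bf * u) i := by
  refine D.step4' hH hL hb hq hp hu h1 h2 h3 (lt_of_le_of_lt (add_le_add_left
    (Finset.card_le_card_of_injOn (fun k : ℕ => (k : ℤ)) (fun k hk => ?_)
      Nat.cast_injective.injOn) _) h4)
  obtain ⟨h5, h6⟩ := Finset.mem_filter.1 (Finset.mem_coe.1 hk)
  refine Finset.mem_coe.2 (Finset.mem_filter.2 ⟨?_, h6⟩)
  simpa using h5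

end Pool.Agent.PSV
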