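import Pool.Agent.Lib.MP_607584_al.PSV.Cnt

/-! Geometry of trees and stabilisers. -/

namespace Pool.Agent.PSV

open Subgroup
open scoped Pointwise commutatorElement

variable {V : Type} {T : SimpleGraph V} {H : Subgroup (T ≃g T)} {b : ℕ} {g c : T ≃g T}
  {x y u v w z o q : V} {S S' : Set V} {r r' : ℕ}

theorem tree_cj_cent {Γ : Type*} [Group Γ] (g : Γ) (K : Subgroup Γ) :
    cj g (centralizer (K : Set Γ)) = centralizer (cj g K : Set Γ) := by
  ext a
  rw [mem_cj, mem_centralizer_iff, mem_centralizer_iff]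
  refine ⟨fun h k hk => ?_, fun h k hk => ?_⟩
  · have := congrArg (fun t => g * t * g⁻¹) (h _ (mem_cj.1 hk))
    simpa [mul_assoc] using this
  · have := congrArg (fun t => g⁻¹ * t * g) (h _ (conj_mem_cj.2 hk))
    simpa [mul_assoc] using this

theorem tree_exists (hT : T.IsTree) (u v : V) (h : r ≤ T.dist u v) :
    ∃ z, Btw T u z v ∧ T.dist u z = r := by
  obtain ⟨p, hp⟩ := hT.connected.exists_walk_length_eq_dist u v
  have h1 := SimpleGraph.dist_le (p.take r)
  have h2 := SimpleGraph.dist_le (p.drop r)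
  have h3 := hT.connected.dist_triangle (u := u) (v := p.getVert r) (w := v)
  rw [SimpleGraph.Walk.take_length] at h1
  rw [SimpleGraph.Walk.drop_length] at h2
  exact ⟨p.getVert r, by unfold Btw; omega, by omega⟩

theorem tree_getVert (hT : T.IsTree) (h : Btw T u z v) {p : T.Walk u v} (hp : p.IsPath) :
    p.getVert (T.dist u z) = z := by
  obtain ⟨a, ha⟩ := hT.connected.exists_walk_length_eq_dist u z
  obtain ⟨a', ha'⟩ := hT.connected.exists_walk_length_eq_dist z v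
  have h1 := (a.append a').isPath_of_length_eq_dist (by
    rw [SimpleGraph.Walk.length_append, ha, ha']; exact h)
  rw [(hT.existsUnique_path u v).unique hp h1, SimpleGraph.Walk.getVert_append, ha,
    if_neg (lt_irrefl _), Nat.sub_self, SimpleGraph.Walk.getVert_zero]

theorem tree_unique (hT : T.IsTree) {z' : V} (h : Btw T u z v) (h' : Btw T u z' v)
    (e : T.dist u z = T.dist u z') : z = z' := by
  obtain ⟨p, hp, -⟩ := hT.connected.exists_path_of_dist u v
  rw [← tree_getVert hT h hp, e, tree_getVert hT h' hp]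

theorem tree_trans (hT : T.IsTree) (h : Btw T o z w) (h' : Btw T o w q) :
    Btw T o z q ∧ Btw T z w q := by
  have h1 := hT.connected.dist_triangle (u := o) (v := z) (w := q)
  have h2 := hT.connected.dist_triangle (u := z) (v := w) (w := q)
  unfold Btw at *
  omega

theorem tree_of_le (hT : T.IsTree) (h : Btw T o z q) (h' : Btw T o w q)
    (e : T.dist o z ≤ T.dist o w) : Btw T o z w := by
  obtain ⟨z', h1, h2⟩ := tree_exists hT o w e
  rwa [← tree_unique hT (tree_trans hT h1 h').1 h h2]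

theorem tree_adj (hT : T.IsTree) (o : V) (h : T.Adj x y) : Btw T o x y ∨ Btw T o y x := by
  have h1 := SimpleGraph.dist_eq_one_iff_adj.2 h
  have h2 := SimpleGraph.dist_eq_one_iff_adj.2 h.symm
  have h3 := hT.dist_eq_dist_add_one_of_adj o h
  unfold Btw
  omega

theorem dist_map (g : T ≃g T) (u v : V) : T.dist (g u) (g v) = T.dist u v := by
  have key : ∀ (g : T ≃g T) (u v : V), T.dist u v ≠ 0 → T.dist (g u) (g v) ≤ T.dist u v :=
    fun g u v h => by
      obtain ⟨p, hp⟩ := SimpleGraph.exists_walk_of_dist_ne_zero h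
      have := SimpleGraph.dist_le (p.map g.toHom)
      rwa [SimpleGraph.Walk.length_map, hp] at this
  have k2 := key g⁻¹ (g u) (g v)
  rw [RelIso.inv_apply_self, RelIso.inv_apply_self] at k2
  by_cases h : T.dist u v = 0
  · rw [h]
    rcases SimpleGraph.dist_eq_zero_iff_eq_or_not_reachable.1 h with rfl | h'
    · exact SimpleGraph.dist_self
    · exact SimpleGraph.dist_eq_zero_of_not_reachable fun h'' =>
        h' (SimpleGraph.Iso.reachable_iff.1 h'')
  · refine le_antisymm (key g u v h) (k2 fun h' => h ?_)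
    rcases SimpleGraph.dist_eq_zero_iff_eq_or_not_reachable.1 h' with e | e
    · rw [g.injective e, SimpleGraph.dist_self]
    · exact SimpleGraph.dist_eq_zero_of_not_reachable fun h'' =>
        e (SimpleGraph.Iso.reachable_iff.2 h'')

theorem mem_Fx : g ∈ Fx H S ↔ g ∈ H ∧ ∀ v ∈ S, g v = v := Iff.rfl

theorem mem_Gb : g ∈ Gb H x r ↔ g ∈ H ∧ ∀ v, T.dist x v ≤ r → g v = v := Iff.rfl

theorem mem_Gb_zero (hT : T.IsTree) : g ∈ Gb H x 0 ↔ g ∈ H ∧ g x = x :=
  ⟨fun h => ⟨h.1, h.2 x SimpleGraph.dist_self.le⟩, fun h => ⟨h.1, fun _ hv =>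
    hT.connected.dist_eq_zero_iff.1 (Nat.le_zero.1 hv) ▸ h.2⟩⟩

theorem Fx_le (H : Subgroup (T ≃g T)) (S : Set V) : Fx H S ≤ H := fun _ h => h.1

theorem Fx_anti (h : S ⊆ S') : Fx H S' ≤ Fx H S := fun _ hg => ⟨hg.1, fun v hv => hg.2 v (h hv)⟩

theorem Fx_union (S S' : Set V) : Fx H (S ∪ S') = Fx H S ⊓ Fx H S' :=
  le_antisymm (le_inf (Fx_anti Set.subset_union_left) (Fx_anti Set.subset_union_right))
    fun _ hg => ⟨hg.1.1, fun v hv => hv.elim (hg.1.2 v) (hg.2.2 v)⟩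

theorem Gb_anti (hT : T.IsTree) (h : T.dist x y + r ≤ r') : Gb H x r' ≤ Gb H y r :=
  Fx_anti fun v (hv : T.dist y v ≤ r) => (hT.connected.dist_triangle (v := y)).trans (by omega)

theorem Gb_anti' (h : r ≤ r') : Gb H x r' ≤ Gb H x r := Fx_anti fun _ hv => le_trans hv h

theorem Fx_Nb_le (h : x ∈ S) : Fx H (Nb T S r) ≤ Gb H x r := Fx_anti fun _ hv => ⟨x, h, hv⟩

theorem mem_Fx_Nb (hS : S.Nonempty) : g ∈ Fx H (Nb T S r) ↔ ∀ s ∈ S, g ∈ Gb H s r :=
  ⟨fun h _ hs => Fx_Nb_le hs h, fun h =>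
    ⟨(h _ hS.some_mem).1, fun v ⟨s, hs, hv⟩ => (h s hs).2 v hv⟩⟩

theorem Nb_mono (h : S ⊆ S') (h' : r ≤ r') : Nb T S r ⊆ Nb T S' r' :=
  fun _ ⟨s, hs, hv⟩ => ⟨s, h hs, hv.trans h'⟩

theorem Nb_Nb (hT : T.IsTree) : Nb T (Nb T S r) r' ⊆ Nb T S (r + r') :=
  fun _ ⟨_, ⟨s, hs, h1⟩, h2⟩ => ⟨s, hs, hT.connected.dist_triangle.trans (add_le_add h1 h2)⟩

theorem Nb_union (S S' : Set V) (r : ℕ) : Nb T (S ∪ S') r = Nb T S r ∪ Nb T S' r := by
  ext v
  simp only [Nb, Set.mem_union, Set.mem_ofPred_eq, or_and_right, exists_or]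

theorem Nb_singleton (x : V) (r : ℕ) : Nb T {x} r = Ball T x r := by
  ext v
  simp [Nb, Ball]

theorem Nb_zero (hT : T.IsTree) (S : Set V) : Nb T S 0 = S := by
  ext v
  simp [Nb, hT.connected.dist_eq_zero_iff]

theorem Nb_subset_Ball (hT : T.IsTree) (h : S ⊆ Ball T x r) : Nb T S r' ⊆ Ball T x (r + r') :=
  fun _ ⟨_, hs, hv⟩ => hT.connected.dist_triangle.trans (add_le_add (h hs) hv)

theorem image_Nb (g : T ≃g T) (S : Set V) (r : ℕ) : g '' Nb T S r = Nb T (g '' S) r := by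
  ext v
  constructor
  · rintro ⟨w, ⟨s, hs, h⟩, rfl⟩
    exact ⟨g s, ⟨s, hs, rfl⟩, (dist_map g s w).trans_le h⟩
  · rintro ⟨_, ⟨s, hs, rfl⟩, h⟩
    refine ⟨g⁻¹ v, ⟨s, hs, ?_⟩, RelIso.apply_inv_self g v⟩
    rwa [← dist_map g, RelIso.apply_inv_self]

theorem image_Ball (g : T ≃g T) (x : V) (r : ℕ) : g '' Ball T x r = Ball T (g x) r := by
  rw [← Nb_singleton, image_Nb, Set.image_singleton, Nb_singleton]

theorem cj_Fx (hg : g ∈ H) (S : Set V) : cj g (Fx H S) = Fx H (g '' S) := by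
  ext a
  rw [mem_cj, mem_Fx, mem_Fx, H.mul_mem_cancel_right hg, H.mul_mem_cancel_left (H.inv_mem hg),
    Set.forall_mem_image]
  refine and_congr_right fun _ => forall₂_congr fun v _ => ?_
  rw [RelIso.mul_apply, RelIso.mul_apply, ← g.injective.eq_iff, RelIso.apply_inv_self]

theorem cj_Gb (hg : g ∈ H) (x : V) (r : ℕ) : cj g (Gb H x r) = Gb H (g x) r := by
  rw [Gb, cj_Fx hg, image_Ball, Gb]

theorem cj_Zt (hg : g ∈ H) (x : V) : cj g (Zt H b x) = Zt H b (g x) := by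
  rw [Zt, cj_inf, cj_Gb hg, tree_cj_cent, cj_Gb hg, Zt]

theorem cj_Md (hg : g ∈ H) (S : Set V) : cj g (Md H b S) = Md H b (g '' S) := by
  rw [Md, Md, iSup_image, cj, Subgroup.map_iSup]
  refine iSup_congr fun w => ?_
  rw [Subgroup.map_iSup]
  exact iSup_congr fun _ => cj_Zt hg w

theorem cj_Wd (hg : g ∈ H) (x : V) (r : ℕ) : cj g (Wd H b x r) = Wd H b (g x) r := by
  rw [Wd, cj_Md hg, image_Ball, Wd]

theorem Gb_nz_Gb (hT : T.IsTree) (x : V) (r : ℕ) :
    Gb H x 0 ≤ normalizer (Gb H x r : Set (T ≃g T)) := fun g hg => cj_eq_iff.1 (by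
  rw [cj_Gb hg.1, ((mem_Gb_zero hT).1 hg).2])

theorem Gb_nz_Wd (hT : T.IsTree) (x : V) (r : ℕ) :
    Gb H x 0 ≤ normalizer (Wd H b x r : Set (T ≃g T)) := fun g hg => cj_eq_iff.1 (by
  rw [cj_Wd hg.1, ((mem_Gb_zero hT).1 hg).2])

theorem Fx_nz_Md (S : Set V) (r : ℕ) :
    Fx H S ≤ normalizer (Md H b (Nb T S r) : Set (T ≃g T)) := fun g hg => cj_eq_iff.1 (by
  rw [cj_Md hg.1, image_Nb, (Set.image_congr hg.2).trans (Set.image_id' S)])

theorem Zt_le_Md (h : w ∈ S) : Zt H b w ≤ Md H b S := le_iSup₂ (f := fun w (_ : w ∈ S) => Zt H b w) w h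

theorem Md_le_iff {X : Subgroup (T ≃g T)} : Md H b S ≤ X ↔ ∀ w ∈ S, Zt H b w ≤ X := iSup₂_le_iff

theorem Md_le (H : Subgroup (T ≃g T)) (b : ℕ) (S : Set V) : Md H b S ≤ H :=
  Md_le_iff.2 fun _ _ _ h => h.1.1

theorem Md_mono (h : S ⊆ S') : Md H b S ≤ Md H b S' := Md_le_iff.2 fun _ hw => Zt_le_Md (h hw)

theorem Md_union (S S' : Set V) : Md H b (S ∪ S') = Md H b S ⊔ Md H b S' := iSup_union

theorem Md_empty : Md H b (∅ : Set V) = ⊥ := le_bot_iff.1 (Md_le_iff.2 fun _ h => h.elim)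

theorem Wd_zero (hT : T.IsTree) (x : V) : Wd H b x 0 = Zt H b x := by
  rw [Wd, ← Nb_singleton, Nb_zero hT]
  exact iSup_singleton

theorem Wd_le (hT : T.IsTree) (h : T.dist x y + r ≤ r') : Wd H b y r ≤ Wd H b x r' :=
  Md_mono fun v (hv : T.dist y v ≤ r) => (hT.connected.dist_triangle (v := y)).trans (by omega)

theorem Wd_le_Gb (hT : T.IsTree) (h : T.dist x y + r + r' ≤ b) : Wd H b x r ≤ Gb H y r' :=
  Md_le_iff.2 fun w (hw : T.dist x w ≤ r) => inf_le_left.trans (Gb_anti hT (by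
    have := hT.connected.dist_triangle (u := w) (v := x) (w := y)
    rw [SimpleGraph.dist_comm (u := w) (v := x)] at this
    omega))

theorem Fx_cent_Md (hT : T.IsTree) (S : Set V) :
    Fx H (Nb T S 2) ≤ centralizer (Md H b S : Set (T ≃g T)) :=
  le_centralizer_iff.1 (Md_le_iff.2 fun _ hw => inf_le_right.trans (centralizer_le (Fx_Nb_le hw)))

theorem Gb_cent_Wd (hT : T.IsTree) (x : V) (r : ℕ) :
    Gb H x (r + 2) ≤ centralizer (Wd H b x r : Set (T ≃g T)) :=
  (Fx_anti (Nb_subset_Ball hT subset_rfl)).trans (Fx_cent_Md hT _)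

theorem Wd_ab (hT : T.IsTree) (h : 2 * r + 2 ≤ b) : Ab (Wd H b x r) := fun _ ha _ hb =>
  Gb_cent_Wd hT x r (Wd_le_Gb hT (by rw [SimpleGraph.dist_self]; omega) hb) _ ha

theorem exists_step (hT : T.IsTree) (h : T.dist x v = r + 1) :
    ∃ y, T.Adj x y ∧ T.dist y v = r := by
  obtain ⟨y, h1, h2⟩ := tree_exists hT x v (r := 1) (by omega)
  unfold Btw at h1
  exact ⟨y, SimpleGraph.dist_eq_one_iff_adj.1 h2, by omega⟩

theorem mem_Gb_succ (hT : T.IsTree) :
    g ∈ Gb H x (r + 1) ↔ g ∈ Gb H x 0 ∧ ∀ y, T.Adj x y → g ∈ Gb H y r := by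
  refine ⟨fun h => ⟨Gb_anti' (Nat.zero_le _) h, fun y hy => Gb_anti hT ?_ h⟩, fun h => ⟨h.1.1,
    fun v (hv : T.dist x v ≤ r + 1) => ?_⟩⟩
  · rw [SimpleGraph.dist_eq_one_iff_adj.2 hy, add_comm]
  · rcases e : T.dist x v with _ | n
    · exact h.1.2 v e.le
    · obtain ⟨y, h1, h2⟩ := exists_step hT e
      exact (h.2 y h1).2 v (show T.dist y v ≤ r by omega)

theorem Wd_succ (hT : T.IsTree) (x : V) (r : ℕ) :
    Wd H b x (r + 1) = Wd H b x r ⊔ ⨆ y ∈ T.neighborSet x, Wd H b y r := by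
  refine le_antisymm (Md_le_iff.2 fun w (hw : T.dist x w ≤ r + 1) => ?_)
    (sup_le (Wd_le hT (by rw [SimpleGraph.dist_self]; omega)) (iSup₂_le fun y hy => Wd_le hT ?_))
  · rcases hw.eq_or_lt with e | e
    · obtain ⟨y, h1, h2⟩ := exists_step hT e
      exact le_sup_of_le_right (le_iSup₂_of_le y h1 (Zt_le_Md h2.le))
    · exact le_sup_of_le_left (Zt_le_Md (Nat.le_of_lt_succ e))
  · rw [SimpleGraph.dist_eq_one_iff_adj.2 hy, add_comm]

theorem exists_geo (hT : T.IsTree) (u v : V) : ∃ p : ℕ → V, p 0 = u ∧ p (T.dist u v) = v ∧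
    ∀ s t, s ≤ T.dist u v → t ≤ T.dist u v → T.dist (p s) (p t) = Nat.dist s t := by
  choose p h1 h2 using fun s => tree_exists hT u v (min_le_right s (T.dist u v))
  have key : ∀ s t, s ≤ t → t ≤ T.dist u v → T.dist (p s) (p t) = t - s := fun s t hs ht => by
    have a := tree_of_le hT (h1 s) (h1 t) (by rw [h2, h2]; omega)
    rw [Btw, h2, h2] at a
    omega
  refine ⟨p, (hT.connected.dist_eq_zero_iff.1 (by rw [h2, Nat.zero_min])).symm,
    hT.connected.dist_eq_zero_iff.1 ?_, fun s t hs ht => ?_⟩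
  · have a := h1 (T.dist u v)
    rw [Btw, h2] at a
    omega
  · rcases le_total s t with h | h
    · rw [key s t h ht, Nat.dist_eq_sub_of_le h]
    · rw [SimpleGraph.dist_comm, key t s h hs, Nat.dist_eq_sub_of_le_right h]

theorem btw_unique (hT : T.IsTree) {z' : V} (h : Btw T u z v) (h' : Btw T u z' v)
    (e : T.dist u z = T.dist u z') : z = z' := tree_unique hT h h' e

theorem btw_exists (hT : T.IsTree) (u v : V) (h : r ≤ T.dist u v) :
    ∃ z, Btw T u z v ∧ T.dist u z = r := tree_exists hT u v h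

theorem btw_trans (hT : T.IsTree) (h : Btw T o z w) (h' : Btw T o w q) :
    Btw T o z q ∧ Btw T z w q := tree_trans hT h h'

theorem btw_of_le (hT : T.IsTree) (h : Btw T o z q) (h' : Btw T o w q)
    (e : T.dist o z ≤ T.dist o w) : Btw T o z w := tree_of_le hT h h' e

/-- projection to a nearby geodesic -/
theorem btw_proj (hT : T.IsTree) (h : Btw T o z q) (v : V) :
    Btw T o z v ∨ T.dist z v ≤ T.dist q v := by
  induction e : T.dist q v generalizing q with
  | zero => exact Or.inl (hT.connected.dist_eq_zero_iff.1 e ▸ h)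
  | succ n ih =>
    obtain ⟨y, h1, h2⟩ := exists_step hT e
    rcases tree_adj hT o h1 with h3 | h3
    · exact (ih (btw_trans hT h h3).1 h2).imp_right fun h4 => by omega
    · by_cases h4 : T.dist o z ≤ T.dist o y
      · exact (ih (btw_of_le hT h h3 h4) h2).imp_right fun h4 => by omega
      · have h5 := SimpleGraph.dist_eq_one_iff_adj.2 h1.symm
        unfold Btw at h h3
        obtain rfl := hT.connected.dist_eq_zero_iff.1 (show T.dist z q = 0 by omega)
        exact Or.inr e.le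

theorem btw_of_far (hT : T.IsTree) (h : Btw T o z q) (h' : T.dist q v ≤ T.dist z q) :
    Btw T o z v := by
  induction e : T.dist q v generalizing q with
  | zero => exact hT.connected.dist_eq_zero_iff.1 e ▸ h
  | succ n ih =>
    obtain ⟨y, h1, h2⟩ := exists_step hT e
    rcases tree_adj hT o h1 with h3 | h3
    · obtain ⟨h4, h5⟩ := btw_trans hT h h3
      exact ih h4 (by unfold Btw at h5; omega) h2
    · have h5 := SimpleGraph.dist_eq_one_iff_adj.2 h1.symm
      have h4 := btw_of_le hT h h3 (by unfold Btw at h h3; omega)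
      exact ih h4 (by unfold Btw at h h3 h4; omega) h2

theorem fix_btw (hT : T.IsTree) (h1 : g u = u) (h2 : g v = v) (h : Btw T u z v) : g z = z := by
  have e1 : T.dist u (g z) = T.dist u z := by rw [← dist_map g u z, h1]
  have e2 : T.dist (g z) v = T.dist z v := by rw [← dist_map g z v, h2]
  exact btw_unique hT (by rw [Btw, e1, e2]; exact h) h e1

/-- the first vertex moved on a geodesic -/
theorem exists_active_path (hT : T.IsTree) (h1 : ∀ y, T.dist o y ≤ 1 → c y = y) (h2 : c q ≠ q) :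
    ∃ w w', T.Adj w w' ∧ Btw T o w w' ∧ Btw T o w' q ∧ c w' ≠ w' ∧ Active c w := by
  classical
  obtain ⟨p, p0, p1, p2⟩ := exists_geo hT o q
  have hex : ∃ s, s ≤ T.dist o q ∧ c (p s) ≠ p s := ⟨_, le_rfl, by rwa [p1]⟩
  obtain ⟨a1, a2⟩ := Nat.find_spec hex
  have a3 : ∀ s < Nat.find hex, c (p s) = p s := fun s hs => by
    have := Nat.find_min hex hs
    by_contra h
    exact this ⟨by omega, h⟩
  have a4 : ∀ s ≤ T.dist o q, T.dist o (p s) = s := fun s hs => by
    have := p2 0 s (Nat.zero_le _) hs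
    rwa [p0, Nat.dist_zero_left] at this
  obtain ⟨n, hn⟩ : ∃ n, Nat.find hex = n + 2 := ⟨Nat.find hex - 2, by
    have : ¬ Nat.find hex ≤ 1 := fun h => a2 (h1 _ (by rwa [a4 _ a1]))
    omega⟩
  rw [hn] at a1 a2 a3
  have a5 : ∀ s, s + 1 ≤ T.dist o q → T.dist (p s) (p (s + 1)) = 1 := fun s hs => by
    rw [p2 _ _ (by omega) hs, Nat.dist_eq_sub_of_le (by omega)]
    omega
  have a6 := SimpleGraph.dist_eq_one_iff_adj.1 (a5 (n + 1) a1)
  refine ⟨p (n + 1), p (n + 2), a6, ?_, ?_, a2, a3 _ (by omega),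
    ⟨p n, (SimpleGraph.dist_eq_one_iff_adj.1 (a5 n (by omega))).symm, a3 _ (by omega)⟩,
    p (n + 2), a6, a2⟩
  · rw [Btw, a4 _ (by omega), a4 _ a1, a5 _ a1]
  · have := p2 (n + 2) _ a1 le_rfl
    rw [p1, Nat.dist_eq_sub_of_le a1] at this
    rw [Btw, a4 _ a1, this]
    omega

theorem exists_active (hT : T.IsTree) (h1 : c ∈ Gb H x 1) (h2 : c ∉ Gb H x (r + 1)) :
    ∃ w, T.dist x w ≤ r ∧ Active c w := by
  obtain ⟨q, a1, a2⟩ : ∃ q, T.dist x q ≤ r + 1 ∧ c q ≠ q := by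
    by_contra h
    push Not at h
    exact h2 ⟨h1.1, h⟩
  obtain ⟨w, w', b1, b2, b3, -, b4⟩ := exists_active_path hT h1.2 a2
  have := SimpleGraph.dist_eq_one_iff_adj.2 b1
  unfold Btw at b2 b3
  exact ⟨w, by omega, b4⟩

theorem Active.conj (h : Active c w) (g : T ≃g T) : Active (g * c * g⁻¹) (g w) := by
  obtain ⟨h1, ⟨y, h2, h3⟩, y', h4, h5⟩ := h
  have e : ∀ v, (g * c * g⁻¹) (g v) = g (c v) := fun v => by
    rw [RelIso.mul_apply, RelIso.mul_apply, RelIso.inv_apply_self]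
  exact ⟨by rw [e, h1], ⟨g y, g.map_adj_iff.2 h2, by rw [e, h3]⟩, g y', g.map_adj_iff.2 h4,
    by rw [e]; exact g.injective.ne h5⟩

theorem Active.inv (h : Active c w) : Active c⁻¹ w := by
  obtain ⟨h1, ⟨y, h2, h3⟩, y', h4, h5⟩ := h
  have e : ∀ v, c⁻¹ v = v ↔ c v = v := fun v => by
    rw [← c.injective.eq_iff, RelIso.apply_inv_self, eq_comm]
  exact ⟨(e w).2 h1, ⟨y, h2, (e y).2 h3⟩, y', h4, fun h6 => h5 ((e y').1 h6)⟩

theorem ncard_Ball_le (hT : T.IsTree) {d : ℕ} (h1 : ∀ v, (T.neighborSet v).Finite)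
    (h2 : ∀ v, (T.neighborSet v).ncard ≤ d) (x : V) (r : ℕ) :
    (Ball T x r).Finite ∧ (Ball T x r).ncard ≤ (d + 1) ^ r := by
  classical
  induction r with
  | zero =>
    rw [← Nb_singleton, Nb_zero hT]
    simp
  | succ r ih =>
    have hs : Ball T x (r + 1) ⊆
        (ih.1.toFinset.biUnion fun v => insert v (h1 v).toFinset : Finset V) := fun v hv => by
      simp only [Finset.coe_biUnion, Set.Finite.coe_toFinset, Finset.coe_insert, Set.mem_iUnion]
      rcases (show T.dist x v ≤ r + 1 from hv).eq_or_lt with e | e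
      · obtain ⟨y, a1, a2⟩ := exists_step hT (SimpleGraph.dist_comm.trans e)
        exact ⟨y, (SimpleGraph.dist_comm.trans a2).le, Or.inr a1.symm⟩
      · exact ⟨v, Nat.le_of_lt_succ e, Or.inl rfl⟩
    refine ⟨(Finset.finite_toSet _).subset hs, (Set.ncard_le_ncard hs).trans ?_⟩
    rw [Set.ncard_coe_finset, pow_succ]
    refine (Finset.card_biUnion_le_card_mul _ _ (d + 1) fun v _ => ?_).trans
      (Nat.mul_le_mul_right _ ?_)
    · refine (Finset.card_insert_le _ _).trans (Nat.succ_le_succ ?_)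
      rw [← Set.ncard_eq_toFinset_card _ (h1 v)]
      exact h2 v
    · rw [← Set.ncard_eq_toFinset_card _ ih.1]
      exact ih.2

variable {d : ℕ}

theorem Hyp.finGb (hH : Hyp T d H b) (x : V) (r : ℕ) : Finite (Gb H x r) :=
  have := hH.fin x
  fin_of_le (Gb_anti' (Nat.zero_le r))

theorem Hyp.finFx (hH : Hyp T d H b) (hS : S.Nonempty) : Finite (Fx H S) :=
  have := hH.fin hS.some
  fin_of_le (Y := Gb H hS.some 0) fun _ hg => (mem_Gb_zero hH.tree).2 ⟨hg.1, hg.2 _ hS.some_mem⟩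

theorem Hyp.finWd (hH : Hyp T d H b) (x : V) (h : r ≤ b) : Finite (Wd H b x r) :=
  have := hH.fin x
  fin_of_le (Y := Gb H x 0) (Wd_le_Gb hH.tree (by rwa [SimpleGraph.dist_self, zero_add]))

theorem Hyp.card_Gb (hH : Hyp T d H b) (x y : V) (r : ℕ) :
    Nat.card (Gb H x r) = Nat.card (Gb H y r) := by
  obtain ⟨g, hg, rfl⟩ := hH.vtr x y
  rw [← cj_Gb hg, card_cj]

theorem Hyp.card_Wd (hH : Hyp T d H b) (x y : V) (r : ℕ) :
    Nat.card (Wd H b x r) = Nat.card (Wd H b y r) := by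
  obtain ⟨g, hg, rfl⟩ := hH.vtr x y
  rw [← cj_Wd hg, card_cj]

/-- the orbit of a vertex at distance `r` from a fixed vertex -/
theorem Hyp.ld_stab (hH : Hyp T d H b) {A : Subgroup (T ≃g T)} (hA : A ≤ Gb H x 0)
    (h : T.dist x y ≤ r) : ld A (Gb H y 0) ≤ r * Real.log (d + 1) := by
  have e : (Gb H y 0).subgroupOf A = MulAction.stabilizer A y := by
    ext g
    rw [mem_subgroupOf, mem_Gb_zero hH.tree, and_iff_right (hA g.2).1]
    rfl
  obtain ⟨h1, h2⟩ := ncard_Ball_le hH.tree hH.nfin hH.deg x r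
  have h3 : (MulAction.orbit A y).ncard ≤ (d + 1) ^ r := (Set.ncard_le_ncard (by
    rintro _ ⟨g, rfl⟩
    have := dist_map g.1 x y
    rw [((mem_Gb_zero hH.tree).1 (hA g.2)).2] at this
    exact this.trans_le h) h1).trans h2
  rw [ld, Subgroup.relIndex, e, MulAction.index_stabilizer, ← Real.log_pow]
  rcases Nat.eq_zero_or_pos (MulAction.orbit A y).ncard with h4 | h4
  · rw [h4, Nat.cast_zero, Real.log_zero]
    exact Real.log_nonneg (one_le_pow₀ (by simp))
  · exact Real.log_le_log (by exact_mod_cast h4) (by exact_mod_cast h3)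

end Pool.Agent.PSV
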